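import Pool.Agent.Z3.PF

/-!
Term by term p-adic bounds for the coefficients of the linear forms.
-/

open Finset
open scoped BigOperators

namespace Pool.Agent.Z3.TermAux

/-- number of elements of the block in the residue class s mod p -/
def cnt (S : Finset ℕ) (p s : ℕ) : ℕ := (S.filter (fun i => i % p = s)).card

theorem phi_cnt (n p s : ℕ) : phi n p s = (cnt (N1 n) p s : ℤ) + (cnt (N2 n) p s : ℤ) + (cnt (N3 n) p s : ℤ) -
    (cnt (K1 n) p s : ℤ) - (cnt (K2 n) p s : ℤ) := rfl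

theorem norm_sub_ne (p i k : ℕ) (hp : p.Prime) (h : i % p ≠ k % p) :
    padicNorm p ((i : ℚ) - k) = 1 := by
  haveI := Fact.mk hp
  have h1 : ((i : ℚ) - k) = (((i : ℤ) - (k : ℤ) : ℤ) : ℚ) := by push_cast; ring
  rw [h1, padicNorm.int_eq_one_iff]
  intro h2
  exact h (Nat.modEq_iff_dvd.mpr h2).symm

theorem norm_sub_eq (p i k : ℕ) (hp : p.Prime) (hi : i < p ^ 2) (hk : k < p ^ 2) (hik : i ≠ k) (h : i % p = k % p) :
    padicNorm p ((i : ℚ) - k) = (p : ℚ)⁻¹ := by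
  haveI := Fact.mk hp
  have h1 : ((i : ℚ) - k) = (((i : ℤ) - (k : ℤ) : ℤ) : ℚ) := by push_cast; ring
  obtain ⟨l, hl⟩ : (p : ℤ) ∣ (i : ℤ) - k := Nat.modEq_iff_dvd.mp (show k % p = i % p from h.symm)
  have hl0 : l ≠ 0 := by
    rintro rfl
    rw [mul_zero] at hl
    omega
  have hp0 : (0 : ℤ) < p := by exact_mod_cast hp.pos
  have hlp : ¬ (p : ℤ) ∣ l := by
    intro hd
    have h2 := Int.le_of_dvd (abs_pos.mpr hl0) ((dvd_abs _ _).mpr hd)
    have h3 : (p : ℤ) * p ≤ |(i : ℤ) - k| := by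
      rw [hl, abs_mul, abs_of_pos hp0]
      exact mul_le_mul_of_nonneg_left h2 hp0.le
    have h4 : |(i : ℤ) - k| < (p : ℤ) * p := by
      rw [abs_lt]
      have hi' : (i : ℤ) < (p : ℤ) ^ 2 := by exact_mod_cast hi
      have hk' : (k : ℤ) < (p : ℤ) ^ 2 := by exact_mod_cast hk
      constructor <;> nlinarith
    linarith
  rw [h1, hl]
  push_cast
  rw [padicNorm.mul, padicNorm.padicNorm_p_of_prime]
  have : padicNorm p ((l : ℤ) : ℚ) = 1 := (padicNorm.int_eq_one_iff l).mpr hlp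
  rw [this, mul_one]

theorem norm_sub_inv_le (p i k : ℕ) (hp : p.Prime) (hi : i < p ^ 2) (hk : k < p ^ 2) :
    padicNorm p (1 / ((i : ℚ) - k)) ≤ p := by
  haveI := Fact.mk hp
  have hp1 : (1 : ℚ) ≤ p := by exact_mod_cast hp.one_le
  by_cases hik : i = k
  · subst hik; simp
  · rw [padicNorm.div, padicNorm.one]
    by_cases h : i % p = k % p
    · rw [norm_sub_eq p i k hp hi hk hik h]; simp
    · rw [norm_sub_ne p i k hp h]; simpa using hp1

theorem padicNorm_prod {p : ℕ} [Fact p.Prime] (S : Finset ℕ) (f : ℕ → ℚ) :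
    padicNorm p (∏ i ∈ S, f i) = ∏ i ∈ S, padicNorm p (f i) := by
  classical
  induction S using Finset.induction_on with
  | empty => simp
  | insert a s ha ih => rw [prod_insert ha, prod_insert ha, padicNorm.mul, ih]

theorem norm_prod (p : ℕ) (hp : p.Prime) (S : Finset ℕ) (k : ℕ) (hS : ∀ i ∈ S, i < p ^ 2) (hk : k < p ^ 2)
    (hkS : k ∉ S) : padicNorm p (∏ i ∈ S, ((i : ℚ) - k)) = (p : ℚ) ^ (-(cnt S p (k % p) : ℤ)) := by
  haveI := Fact.mk hp
  rw [padicNorm_prod]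
  have h1 : ∀ i ∈ S, padicNorm p ((i : ℚ) - k) = if i % p = k % p then (p : ℚ)⁻¹ else 1 := by
    intro i hi
    have hik : i ≠ k := by rintro rfl; exact hkS hi
    split_ifs with h
    · exact norm_sub_eq p i k hp (hS i hi) hk hik h
    · exact norm_sub_ne p i k hp h
  rw [prod_congr rfl h1, prod_ite, prod_const, prod_const_one, mul_one, zpow_neg, zpow_natCast, inv_pow]
  rfl

theorem cnt_erase (S : Finset ℕ) (p k : ℕ) (hk : k ∈ S) :
    (cnt (S.erase k) p (k % p) : ℤ) = (cnt S p (k % p) : ℤ) - 1 := by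
  unfold cnt
  rw [filter_erase, card_erase_of_mem (by rw [mem_filter]; exact ⟨hk, rfl⟩)]
  have : 0 < (S.filter (fun i => i % p = k % p)).card := card_pos.mpr ⟨k, by rw [mem_filter]; exact ⟨hk, rfl⟩⟩
  omega

theorem mem_lt {n p i : ℕ} (hp2 : 40 * n + 2 < p ^ 2) :
    (i ∈ N1 n → i < p ^ 2) ∧ (i ∈ N2 n → i < p ^ 2) ∧ (i ∈ N3 n → i < p ^ 2) ∧ (i ∈ K1 n → i < p ^ 2) ∧
      (i ∈ K2 n → i < p ^ 2) := by
  unfold N1 N2 N3 K1 K2
  simp only [mem_Ico]
  refine ⟨?_, ?_, ?_, ?_, ?_⟩ <;> (intro h; omega)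

theorem K2_sub {n k : ℕ} (hk : k ∈ K2 n) : k ∈ K1 n := by
  unfold K2 at hk; unfold K1
  rw [mem_Ico] at hk ⊢
  omega

theorem K1_not {n k : ℕ} (hn : 1 ≤ n) (hk : k ∈ K1 n) : k ∉ N1 n ∧ k ∉ N2 n ∧ k ∉ N3 n := by
  unfold K1 at hk
  unfold N1 N2 N3
  simp only [mem_Ico] at hk ⊢
  omega

theorem norm_num_eq (n p k : ℕ) (hn : 1 ≤ n) (hp : p.Prime) (hp2 : 40 * n + 2 < p ^ 2) (hk : k ∈ K1 n) :
    padicNorm p (num n (-(k : ℚ))) =
      (p : ℚ) ^ (-((cnt (N1 n) p (k % p) : ℤ) + (cnt (N2 n) p (k % p) : ℤ) + (cnt (N3 n) p (k % p) : ℤ))) := by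
  haveI := Fact.mk hp
  have hp0 : (p : ℚ) ≠ 0 := by exact_mod_cast hp.ne_zero
  obtain ⟨h1, h2, h3⟩ := K1_not hn hk
  have hkl := (mem_lt hp2).2.2.2.1 hk
  have hc : num n (-(k : ℚ)) = (∏ i ∈ N1 n, ((i : ℚ) - k)) * (∏ i ∈ N2 n, ((i : ℚ) - k)) * ∏ i ∈ N3 n, ((i : ℚ) - k) := by
    unfold num
    congr 1
    · congr 1
      · exact prod_congr rfl (fun i _ => by ring)
      · exact prod_congr rfl (fun i _ => by ring)
    · exact prod_congr rfl (fun i _ => by ring)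
  rw [hc, padicNorm.mul, padicNorm.mul,
    norm_prod p hp _ k (fun i hi => (mem_lt hp2).1 hi) hkl h1,
    norm_prod p hp _ k (fun i hi => (mem_lt hp2).2.1 hi) hkl h2,
    norm_prod p hp _ k (fun i hi => (mem_lt hp2).2.2.1 hi) hkl h3, ← zpow_add₀ hp0, ← zpow_add₀ hp0]
  congr 1
  ring

theorem norm_fact (p m : ℕ) (hp : p.Prime) (hm : m < p ^ 2) : padicNorm p ((m.factorial : ℕ) : ℚ) = (p : ℚ) ^ (-((m / p : ℕ) : ℤ)) := by
  haveI := Fact.mk hp
  have hne : ((m.factorial : ℕ) : ℚ) ≠ 0 := by exact_mod_cast m.factorial_ne_zero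
  rw [padicNorm.eq_zpow_of_nonzero hne, padicValRat.of_nat]
  congr 2
  rw [padicValNat_factorial (b := 2)]
  · simp
  · rcases Nat.eq_zero_or_pos m with h | h
    · subst h; simp
    · exact Nat.log_lt_of_lt_pow (by omega) hm

theorem norm_kap (n p : ℕ) (hp : p.Prime) (hp2 : 40 * n + 2 < p ^ 2) : padicNorm p (kap n) = (p : ℚ) ^ (-(e0 n p)) := by
  haveI := Fact.mk hp
  have hp0 : (p : ℚ) ≠ 0 := by exact_mod_cast hp.ne_zero
  unfold kap e0
  rw [padicNorm.div, padicNorm.mul, padicNorm.mul, padicNorm.mul, norm_fact p _ hp (by omega), norm_fact p _ hp (by omega),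
    norm_fact p _ hp (by omega), norm_fact p _ hp (by omega), norm_fact p _ hp (by omega), ← zpow_add₀ hp0, ← zpow_add₀ hp0,
    ← zpow_add₀ hp0, ← zpow_sub₀ hp0]
  congr 1
  ring

/-- valuation of the coefficient of the double pole -/
theorem norm_A0 (n p k : ℕ) (hn : 1 ≤ n) (hp : p.Prime) (hp2 : 40 * n + 2 < p ^ 2) (hk : k ∈ K2 n) :
    padicNorm p (A0 n k) = (p : ℚ) ^ (-(e0 n p + phi n p (k % p) + 2)) := by
  haveI := Fact.mk hp
  have hp0 : (p : ℚ) ≠ 0 := by exact_mod_cast hp.ne_zero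
  have hk1 := K2_sub hk
  have hkl := (mem_lt hp2).2.2.2.1 hk1
  rw [A0_eq n k hn hk, padicNorm.div, padicNorm.mul, padicNorm.mul, norm_kap n p hp hp2, norm_num_eq n p k hn hp hp2 hk1,
    norm_prod p hp _ k (fun i hi => (mem_lt hp2).2.2.2.1 (mem_of_mem_erase hi)) hkl (notMem_erase _ _),
    norm_prod p hp _ k (fun i hi => (mem_lt hp2).2.2.2.2 (mem_of_mem_erase hi)) hkl (notMem_erase _ _),
    cnt_erase _ _ _ hk1, cnt_erase _ _ _ hk, ← zpow_add₀ hp0, ← zpow_add₀ hp0, ← zpow_sub₀ hp0, phi_cnt]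
  congr 1
  ring

theorem A0_zero (n k : ℕ) (hk : k ∉ K2 n) : A0 n k = 0 := by
  unfold A0; rw [if_neg hk]

theorem B0_simple (n k : ℕ) (hk : k ∈ K1 n) (hk2 : k ∉ K2 n) : B0 n k = kap n * num n (-(k : ℚ)) /
      ((∏ i ∈ (K1 n).erase k, ((i : ℚ) - k)) * ∏ i ∈ K2 n, ((i : ℚ) - k)) := by
  unfold B0; rw [if_neg hk2, if_pos hk]

theorem B0_double (n k : ℕ) (hk2 : k ∈ K2 n) : B0 n k = A0 n k * L0 n k := by
  unfold B0; rw [if_pos hk2]

/-- valuation of the coefficient of the simple pole -/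
theorem norm_B0_simple (n p k : ℕ) (hn : 1 ≤ n) (hp : p.Prime) (hp2 : 40 * n + 2 < p ^ 2) (hk : k ∈ K1 n)
    (hk2 : k ∉ K2 n) : padicNorm p (B0 n k) = (p : ℚ) ^ (-(e0 n p + phi n p (k % p) + 1)) := by
  haveI := Fact.mk hp
  have hp0 : (p : ℚ) ≠ 0 := by exact_mod_cast hp.ne_zero
  have hkl := (mem_lt hp2).2.2.2.1 hk
  rw [B0_simple n k hk hk2, padicNorm.div, padicNorm.mul, padicNorm.mul, norm_kap n p hp hp2, norm_num_eq n p k hn hp hp2 hk,
    norm_prod p hp _ k (fun i hi => (mem_lt hp2).2.2.2.1 (mem_of_mem_erase hi)) hkl (notMem_erase _ _),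
    norm_prod p hp _ k (fun i hi => (mem_lt hp2).2.2.2.2 hi) hkl hk2,
    cnt_erase _ _ _ hk, ← zpow_add₀ hp0, ← zpow_add₀ hp0, ← zpow_sub₀ hp0, phi_cnt]
  congr 1
  ring

/-- ultrametric bound for the logarithmic derivative -/
theorem norm_L0_le (n p k : ℕ) (hp : p.Prime) (hp2 : 40 * n + 2 < p ^ 2) (hk : k ∈ K1 n) :
    padicNorm p (L0 n k) ≤ p := by
  haveI := Fact.mk hp
  have hp0 : (0 : ℚ) ≤ p := by exact_mod_cast hp.pos.le
  have hkl := (mem_lt hp2).2.2.2.1 hk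
  have h1 : padicNorm p (∑ i ∈ N1 n, 1 / ((i : ℚ) - k)) ≤ p :=
    padicNorm.sum_le' (fun i hi => norm_sub_inv_le p i k hp ((mem_lt hp2).1 hi) hkl) hp0
  have h2 : padicNorm p (∑ i ∈ N2 n, 1 / ((i : ℚ) - k)) ≤ p :=
    padicNorm.sum_le' (fun i hi => norm_sub_inv_le p i k hp ((mem_lt hp2).2.1 hi) hkl) hp0
  have h3 : padicNorm p (∑ i ∈ N3 n, 1 / ((i : ℚ) - k)) ≤ p :=
    padicNorm.sum_le' (fun i hi => norm_sub_inv_le p i k hp ((mem_lt hp2).2.2.1 hi) hkl) hp0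
  have h4 : padicNorm p (∑ i ∈ (K1 n).erase k, 1 / ((i : ℚ) - k)) ≤ p :=
    padicNorm.sum_le' (fun i hi => norm_sub_inv_le p i k hp ((mem_lt hp2).2.2.2.1 (mem_of_mem_erase hi)) hkl) hp0
  have h5 : padicNorm p (∑ i ∈ (K2 n).erase k, 1 / ((i : ℚ) - k)) ≤ p :=
    padicNorm.sum_le' (fun i hi => norm_sub_inv_le p i k hp ((mem_lt hp2).2.2.2.2 (mem_of_mem_erase hi)) hkl) hp0
  unfold L0
  refine padicNorm.sub.trans (max_le ?_ h5)
  refine padicNorm.sub.trans (max_le ?_ h4)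
  refine padicNorm.nonarchimedean.trans (max_le ?_ h3)
  exact padicNorm.nonarchimedean.trans (max_le h1 h2)

theorem norm_B0_double_le (n p k : ℕ) (hn : 1 ≤ n) (hp : p.Prime) (hp2 : 40 * n + 2 < p ^ 2) (hk2 : k ∈ K2 n) :
    padicNorm p (B0 n k) ≤ (p : ℚ) ^ (-(e0 n p + phi n p (k % p) + 1)) := by
  haveI := Fact.mk hp
  have hp0 : (p : ℚ) ≠ 0 := by exact_mod_cast hp.ne_zero
  have hp1 : (0 : ℚ) < p := by exact_mod_cast hp.pos
  rw [B0_double n k hk2, padicNorm.mul, norm_A0 n p k hn hp hp2 hk2]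
  calc (p : ℚ) ^ (-(e0 n p + phi n p (k % p) + 2)) * padicNorm p (L0 n k)
      ≤ (p : ℚ) ^ (-(e0 n p + phi n p (k % p) + 2)) * p :=
        mul_le_mul_of_nonneg_left (norm_L0_le n p k hp hp2 (K2_sub hk2)) (by positivity)
    _ = (p : ℚ) ^ (-(e0 n p + phi n p (k % p) + 1)) := by
        rw [← zpow_add_one₀ hp0]; congr 1; ring

theorem norm_A_le (n j k p : ℕ) (hp : p.Prime) : padicNorm p (A n j k) ≤ padicNorm p (A0 n k) := by
  haveI := Fact.mk hp
  unfold A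
  rw [padicNorm.mul]
  have h1 : padicNorm p ((-(k : ℚ)) ^ j) ≤ 1 := by
    have : (-(k : ℚ)) ^ j = (((-(k : ℤ)) ^ j : ℤ) : ℚ) := by push_cast; ring
    rw [this]
    exact padicNorm.of_int _
  calc padicNorm p ((-(k : ℚ)) ^ j) * padicNorm p (A0 n k) ≤ 1 * padicNorm p (A0 n k) :=
        mul_le_mul_of_nonneg_right h1 (padicNorm.nonneg _)
    _ = _ := one_mul _

theorem norm_B_le (n j k p : ℕ) (hp : p.Prime) :
    padicNorm p (B n j k) ≤ max (padicNorm p (B0 n k)) (padicNorm p (A0 n k)) := by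
  haveI := Fact.mk hp
  unfold B
  refine padicNorm.nonarchimedean.trans (max_le_max ?_ ?_)
  · rw [padicNorm.mul]
    have h1 : padicNorm p ((-(k : ℚ)) ^ j) ≤ 1 := by
      have : (-(k : ℚ)) ^ j = (((-(k : ℤ)) ^ j : ℤ) : ℚ) := by push_cast; ring
      rw [this]
      exact padicNorm.of_int _
    calc padicNorm p ((-(k : ℚ)) ^ j) * padicNorm p (B0 n k) ≤ 1 * padicNorm p (B0 n k) :=
          mul_le_mul_of_nonneg_right h1 (padicNorm.nonneg _)
      _ = _ := one_mul _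
  · rw [padicNorm.mul]
    have h1 : padicNorm p ((j : ℚ) * (-(k : ℚ)) ^ (j - 1)) ≤ 1 := by
      have : (j : ℚ) * (-(k : ℚ)) ^ (j - 1) = (((j : ℤ) * (-(k : ℤ)) ^ (j - 1) : ℤ) : ℚ) := by push_cast; ring
      rw [this]
      exact padicNorm.of_int _
    calc padicNorm p ((j : ℚ) * (-(k : ℚ)) ^ (j - 1)) * padicNorm p (A0 n k) ≤ 1 * padicNorm p (A0 n k) :=
          mul_le_mul_of_nonneg_right h1 (padicNorm.nonneg _)
      _ = _ := one_mul _

theorem norm_H_le (p s m : ℕ) (hp : p.Prime) (hm : m < p ^ 2) : padicNorm p (H s m) ≤ (p : ℚ) ^ s := by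
  haveI := Fact.mk hp
  have hp0 : (0 : ℚ) ≤ p := by exact_mod_cast hp.pos.le
  unfold H
  apply padicNorm.sum_le' _ (by positivity)
  intro i hi
  rw [mem_range] at hi
  have h1 := norm_sub_inv_le p (i + 1) 0 hp (by omega) (by have := hp.pos; positivity)
  have h2 : (1 : ℚ) / ((i : ℚ) + 1) ^ s = (1 / (((i + 1 : ℕ) : ℚ) - (0 : ℕ))) ^ s := by
    push_cast
    rw [sub_zero, div_pow, one_pow]
  rw [h2]
  have h3 : ∀ (x : ℚ) (r : ℕ), padicNorm p (x ^ r) = padicNorm p x ^ r := by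
    intro x r
    induction r with
    | zero => simp
    | succ r ih => rw [pow_succ, pow_succ, padicNorm.mul, ih]
  rw [h3]
  exact pow_le_pow_left₀ (padicNorm.nonneg _) h1 s

theorem norm_H_small (p s m : ℕ) (hp : p.Prime) (hm : m < p) : padicNorm p (H s m) ≤ 1 := by
  haveI := Fact.mk hp
  unfold H
  apply padicNorm.sum_le' _ (by norm_num)
  intro i hi
  rw [mem_range] at hi
  have h2 : ((i : ℚ) + 1) ^ s = (((i + 1) ^ s : ℕ) : ℚ) := by push_cast; ring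
  rw [padicNorm.div, padicNorm.one, h2, (padicNorm.nat_eq_one_iff _).mpr, div_one]
  intro hd
  have := Nat.le_of_dvd (by omega) (hp.dvd_of_dvd_pow hd)
  omega

theorem padicNorm_two_le (p : ℕ) (hp : p.Prime) : padicNorm p 2 ≤ 1 := by
  haveI := Fact.mk hp
  exact_mod_cast padicNorm.of_nat (p := p) 2

/-- bounds of all terms give PBound -/
theorem PBound_of_terms (n p : ℕ) (hp : p.Prime) (w : ℤ)
    (h1 : ∀ k ∈ K1 n, padicNorm p (A0 n k) ≤ (p : ℚ) ^ w)
    (h2 : ∀ k ∈ K1 n, padicNorm p (A0 n k) * padicNorm p (H 3 (k - 15 * n)) ≤ (p : ℚ) ^ w)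
    (h3 : ∀ k ∈ K1 n, padicNorm p (A0 n k) * padicNorm p (H 2 (k - 15 * n)) ≤ (p : ℚ) ^ w)
    (h4 : ∀ k ∈ K1 n, padicNorm p (B0 n k) * padicNorm p (H 2 (k - 15 * n)) ≤ (p : ℚ) ^ w) : PBound n p w := by
  haveI := Fact.mk hp
  have hp0 : (0 : ℚ) < p := by exact_mod_cast hp.pos
  have hw : (0 : ℚ) ≤ (p : ℚ) ^ w := by positivity
  have h2' := padicNorm_two_le p hp
  intro j _
  constructor
  · unfold a
    rw [padicNorm.mul]
    have h5 : padicNorm p (∑ k ∈ K1 n, A n j k) ≤ (p : ℚ) ^ w :=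
      padicNorm.sum_le' (fun k hk => (norm_A_le n j k p hp).trans (h1 k hk)) hw
    calc padicNorm p 2 * padicNorm p (∑ k ∈ K1 n, A n j k) ≤ 1 * (p : ℚ) ^ w :=
          mul_le_mul h2' h5 (padicNorm.nonneg _) (by norm_num)
      _ = _ := one_mul _
  · unfold b
    apply padicNorm.sum_le' _ hw
    intro k hk
    refine padicNorm.nonarchimedean.trans (max_le ?_ ?_)
    · rw [padicNorm.mul, padicNorm.mul]
      calc padicNorm p 2 * padicNorm p (A n j k) * padicNorm p (H 3 (k - 15 * n))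
          ≤ 1 * padicNorm p (A0 n k) * padicNorm p (H 3 (k - 15 * n)) := by
            apply mul_le_mul_of_nonneg_right _ (padicNorm.nonneg _)
            exact mul_le_mul h2' (norm_A_le n j k p hp) (padicNorm.nonneg _) (by norm_num)
        _ = padicNorm p (A0 n k) * padicNorm p (H 3 (k - 15 * n)) := by rw [one_mul]
        _ ≤ _ := h2 k hk
    · rw [padicNorm.mul]
      calc padicNorm p (B n j k) * padicNorm p (H 2 (k - 15 * n))
          ≤ max (padicNorm p (B0 n k)) (padicNorm p (A0 n k)) * padicNorm p (H 2 (k - 15 * n)) :=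
            mul_le_mul_of_nonneg_right (norm_B_le n j k p hp) (padicNorm.nonneg _)
        _ ≤ _ := by
            rcases max_choice (padicNorm p (B0 n k)) (padicNorm p (A0 n k)) with h | h <;> rw [h]
            · exact h4 k hk
            · exact h3 k hk

theorem norm_A0_le (n p k : ℕ) (hn : 1 ≤ n) (hp : p.Prime) (hp2 : 40 * n + 2 < p ^ 2) (m : ℤ)
    (hm : m ≤ phi n p (k % p)) :
    padicNorm p (A0 n k) ≤ (p : ℚ) ^ (-(e0 n p + m + 2)) := by
  have hp1 : (1 : ℚ) ≤ p := by exact_mod_cast hp.one_le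
  have hp0 : (0 : ℚ) < p := by exact_mod_cast hp.pos
  by_cases hk2 : k ∈ K2 n
  · rw [norm_A0 n p k hn hp hp2 hk2]
    exact zpow_le_zpow_right₀ hp1 (by linarith)
  · rw [A0_zero n k hk2, padicNorm.zero]
    positivity

theorem norm_B0_le (n p k : ℕ) (hn : 1 ≤ n) (hp : p.Prime) (hp2 : 40 * n + 2 < p ^ 2) (m : ℤ) (hk : k ∈ K1 n)
    (hm : m ≤ phi n p (k % p)) :
    padicNorm p (B0 n k) ≤ (p : ℚ) ^ (-(e0 n p + m + 1)) := by
  have hp1 : (1 : ℚ) ≤ p := by exact_mod_cast hp.one_le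
  by_cases hk2 : k ∈ K2 n
  · exact (norm_B0_double_le n p k hn hp hp2 hk2).trans (zpow_le_zpow_right₀ hp1 (by linarith))
  · rw [norm_B0_simple n p k hn hp hp2 hk hk2]
    exact zpow_le_zpow_right₀ hp1 (by linarith)

/-! ### large primes -/

theorem cnt_Ico_le_one (a b p s : ℕ) (hp : 0 < p) (h : b ≤ a + p) : cnt (Ico a b) p s ≤ 1 := by
  unfold cnt
  rw [card_le_one]
  intro x hx y hy
  rw [mem_filter, mem_Ico] at hx hy
  obtain ⟨⟨hx1, hx2⟩, hx3⟩ := hx
  obtain ⟨⟨hy1, hy2⟩, hy3⟩ := hy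
  have h1 := Nat.div_add_mod x p
  have h2 := Nat.div_add_mod y p
  rcases lt_trichotomy (x / p) (y / p) with h3 | h3 | h3
  · have : p * (x / p + 1) ≤ p * (y / p) := Nat.mul_le_mul_left p h3
    rw [Nat.mul_add, mul_one] at this
    omega
  · rw [h3] at h1; omega
  · have : p * (y / p + 1) ≤ p * (x / p) := Nat.mul_le_mul_left p h3
    rw [Nat.mul_add, mul_one] at this
    omega

theorem cnt_pos (S : Finset ℕ) (p i k : ℕ) (hi : i ∈ S) (h : i % p = k % p) : 1 ≤ cnt S p (k % p) := by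
  unfold cnt
  exact card_pos.mpr ⟨i, by rw [mem_filter]; exact ⟨hi, h⟩⟩

theorem e0_zero (n p : ℕ) (h : 21 * n + 1 < p) : e0 n p = 0 := by
  unfold e0
  rw [Nat.div_eq_of_lt h, Nat.div_eq_of_lt (show 18 * n + 1 < p by omega), Nat.div_eq_of_lt (show 17 * n < p by omega),
    Nat.div_eq_of_lt (show 13 * n < p by omega), Nat.div_eq_of_lt (show 9 * n < p by omega)]
  norm_num

/-- number of zeros in the class of k -/
def nu (n p k : ℕ) : ℕ := cnt (N1 n) p (k % p) + cnt (N2 n) p (k % p) + cnt (N3 n) p (k % p)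

theorem cnt_K1 (n p k : ℕ) (hp : p.Prime) (h : 21 * n + 1 < p) (hk : k ∈ K1 n) : cnt (K1 n) p (k % p) = 1 := by
  apply le_antisymm
  · exact cnt_Ico_le_one _ _ p _ hp.pos (by omega)
  · exact cnt_pos _ p k k hk rfl

theorem cnt_K2 (n p k : ℕ) (hp : p.Prime) (h : 21 * n + 1 < p) (hk : k ∈ K2 n) : cnt (K2 n) p (k % p) = 1 := by
  apply le_antisymm
  · exact cnt_Ico_le_one _ _ p _ hp.pos (by omega)
  · exact cnt_pos _ p k k hk rfl

theorem cnt_K2' (n p k : ℕ) (hp : p.Prime) (h : 21 * n + 1 < p) (hk : k ∈ K1 n) (hk2 : k ∉ K2 n) :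
    cnt (K2 n) p (k % p) = 0 := by
  unfold cnt
  rw [card_eq_zero, filter_eq_empty_iff]
  intro i hi hik
  have h1 : cnt (K1 n) p (k % p) ≤ 1 := cnt_Ico_le_one _ _ p _ hp.pos (by omega)
  unfold cnt at h1
  rw [card_le_one] at h1
  have h2 : i = k := h1 i (by rw [mem_filter]; exact ⟨K2_sub hi, hik⟩) k (by rw [mem_filter]; exact ⟨hk, rfl⟩)
  exact hk2 (h2 ▸ hi)

theorem big_A0 (n p k : ℕ) (hn : 1 ≤ n) (hp : p.Prime) (hp2 : 40 * n + 2 < p ^ 2) (h : 21 * n + 1 < p)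
    (hk : k ∈ K2 n) : padicNorm p (A0 n k) = (p : ℚ) ^ (-(nu n p k : ℤ)) := by
  rw [norm_A0 n p k hn hp hp2 hk, phi_cnt, e0_zero n p h, cnt_K1 n p k hp h (K2_sub hk), cnt_K2 n p k hp h hk]
  congr 1
  unfold nu
  push_cast
  ring

theorem big_B0 (n p k : ℕ) (hn : 1 ≤ n) (hp : p.Prime) (hp2 : 40 * n + 2 < p ^ 2) (h : 21 * n + 1 < p)
    (hk : k ∈ K1 n) (hk2 : k ∉ K2 n) : padicNorm p (B0 n k) = (p : ℚ) ^ (-(nu n p k : ℤ)) := by
  rw [norm_B0_simple n p k hn hp hp2 hk hk2, phi_cnt, e0_zero n p h, cnt_K1 n p k hp h hk, cnt_K2' n p k hp h hk hk2]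
  congr 1
  unfold nu
  push_cast
  ring

theorem zpow_neg_nat_le_one (p m : ℕ) (hp : p.Prime) : (p : ℚ) ^ (-(m : ℤ)) ≤ 1 := by
  have hp1 : (1 : ℚ) ≤ p := by exact_mod_cast hp.one_le
  calc (p : ℚ) ^ (-(m : ℤ)) ≤ (p : ℚ) ^ (0 : ℤ) := zpow_le_zpow_right₀ hp1 (by omega)
    _ = 1 := zpow_zero _

theorem big_A0_le (n p k : ℕ) (hn : 1 ≤ n) (hp : p.Prime) (hp2 : 40 * n + 2 < p ^ 2) (h : 21 * n + 1 < p) :
    padicNorm p (A0 n k) ≤ 1 := by
  by_cases hk2 : k ∈ K2 n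
  · rw [big_A0 n p k hn hp hp2 h hk2]
    exact zpow_neg_nat_le_one p _ hp
  · rw [A0_zero n k hk2, padicNorm.zero]
    norm_num

/-- a term of the logarithmic derivative with i not congruent to k -/
theorem sum_inv_le_one (p k : ℕ) (hp : p.Prime) (S : Finset ℕ) (h : ∀ i ∈ S, i % p ≠ k % p) :
    padicNorm p (∑ i ∈ S, 1 / ((i : ℚ) - k)) ≤ 1 := by
  haveI := Fact.mk hp
  apply padicNorm.sum_le' _ (by norm_num)
  intro i hi
  rw [padicNorm.div, padicNorm.one, norm_sub_ne p i k hp (h i hi), div_one]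

theorem not_cls_of_cnt (S : Finset ℕ) (p k : ℕ) (h : cnt S p (k % p) = 0) : ∀ i ∈ S, i % p ≠ k % p := by
  unfold cnt at h
  rw [card_eq_zero, filter_eq_empty_iff] at h
  intro i hi
  exact h hi

theorem not_cls_erase (S : Finset ℕ) (p k : ℕ) (hk : k ∈ S) (h : cnt S p (k % p) = 1) :
    ∀ i ∈ S.erase k, i % p ≠ k % p := by
  apply not_cls_of_cnt
  have := cnt_erase S p k hk
  omega

theorem big_B0_le (n p k : ℕ) (hn : 1 ≤ n) (hp : p.Prime) (hp2 : 40 * n + 2 < p ^ 2) (h : 21 * n + 1 < p)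
    (hk : k ∈ K1 n) : padicNorm p (B0 n k) ≤ 1 := by
  haveI := Fact.mk hp
  have hp1 : (1 : ℚ) ≤ p := by exact_mod_cast hp.one_le
  have hp0 : (0 : ℚ) < p := by exact_mod_cast hp.pos
  by_cases hk2 : k ∈ K2 n
  · rw [B0_double n k hk2, padicNorm.mul, big_A0 n p k hn hp hp2 h hk2]
    rcases Nat.eq_zero_or_pos (nu n p k) with h0 | h0
    · rw [h0]
      unfold nu at h0
      have hc1 : cnt (N1 n) p (k % p) = 0 := by omega
      have hc2 : cnt (N2 n) p (k % p) = 0 := by omega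
      have hc3 : cnt (N3 n) p (k % p) = 0 := by omega
      have hL : padicNorm p (L0 n k) ≤ 1 := by
        have h1 := sum_inv_le_one p k hp _ (not_cls_of_cnt _ p k hc1)
        have h2 := sum_inv_le_one p k hp _ (not_cls_of_cnt _ p k hc2)
        have h3 := sum_inv_le_one p k hp _ (not_cls_of_cnt _ p k hc3)
        have h4 := sum_inv_le_one p k hp _ (not_cls_erase _ p k hk (cnt_K1 n p k hp h hk))
        have h5 := sum_inv_le_one p k hp _ (not_cls_erase _ p k hk2 (cnt_K2 n p k hp h hk2))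
        unfold L0
        refine padicNorm.sub.trans (max_le ?_ h5)
        refine padicNorm.sub.trans (max_le ?_ h4)
        refine padicNorm.nonarchimedean.trans (max_le ?_ h3)
        exact padicNorm.nonarchimedean.trans (max_le h1 h2)
      simpa using hL
    · have hL := norm_L0_le n p k hp hp2 hk
      calc (p : ℚ) ^ (-(nu n p k : ℤ)) * padicNorm p (L0 n k) ≤ (p : ℚ) ^ (-1 : ℤ) * p := by
            apply mul_le_mul (zpow_le_zpow_right₀ hp1 (by omega)) hL (padicNorm.nonneg _) (by positivity)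
        _ = 1 := by rw [zpow_neg_one]; exact inv_mul_cancel₀ hp0.ne'
  · rw [big_B0 n p k hn hp hp2 h hk hk2]
    exact zpow_neg_nat_le_one p _ hp

/-- a polar index has a zero in its class -/
theorem nu_pos (n p k : ℕ) (hkp : p ≤ k) (hkn : k < p + 17 * n) : 1 ≤ nu n p k := by
  have h1 : 1 ≤ cnt (N1 n) p (k % p) := by
    apply cnt_pos (N1 n) p (k - p) k
    · unfold N1; rw [mem_Ico]; omega
    · exact (Nat.mod_eq_sub_mod hkp).symm
  unfold nu
  omega

end Pool.Agent.Z3.TermAux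

namespace Pool.Agent.Z3

open TermAux

theorem termwise (n p : ℕ) (hn : 1 ≤ n) (hp : p.Prime) (hp2 : 40 * n + 2 < p ^ 2) (m : ℤ)
    (hm : ∀ s < p, m ≤ phi n p s) : PBound n p (1 - m - e0 n p) := by
  have hp1 : (1 : ℚ) ≤ p := by exact_mod_cast hp.one_le
  have hp0 : (0 : ℚ) < p := by exact_mod_cast hp.pos
  have hp0' : (p : ℚ) ≠ 0 := hp0.ne'
  have hmk : ∀ k, m ≤ phi n p (k % p) := fun k => hm _ (Nat.mod_lt _ hp.pos)
  have hlt : ∀ k ∈ K1 n, k - 15 * n < p ^ 2 := fun k hk => by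
    have := (mem_lt hp2).2.2.2.1 hk
    omega
  apply PBound_of_terms n p hp
  · intro k hk
    exact (norm_A0_le n p k hn hp hp2 m (hmk k)).trans (zpow_le_zpow_right₀ hp1 (by linarith))
  · intro k hk
    calc padicNorm p (A0 n k) * padicNorm p (H 3 (k - 15 * n)) ≤ (p : ℚ) ^ (-(e0 n p + m + 2)) * (p : ℚ) ^ 3 :=
          mul_le_mul (norm_A0_le n p k hn hp hp2 m (hmk k)) (norm_H_le p 3 _ hp (hlt k hk)) (padicNorm.nonneg _) (by positivity)
      _ = (p : ℚ) ^ (1 - m - e0 n p) := by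
          rw [← zpow_natCast, ← zpow_add₀ hp0']; congr 1; push_cast; ring
  · intro k hk
    calc padicNorm p (A0 n k) * padicNorm p (H 2 (k - 15 * n)) ≤ (p : ℚ) ^ (-(e0 n p + m + 2)) * (p : ℚ) ^ 2 :=
          mul_le_mul (norm_A0_le n p k hn hp hp2 m (hmk k)) (norm_H_le p 2 _ hp (hlt k hk)) (padicNorm.nonneg _) (by positivity)
      _ = (p : ℚ) ^ (-m - e0 n p) := by
          rw [← zpow_natCast, ← zpow_add₀ hp0']; congr 1; push_cast; ring
      _ ≤ (p : ℚ) ^ (1 - m - e0 n p) := zpow_le_zpow_right₀ hp1 (by linarith)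
  · intro k hk
    calc padicNorm p (B0 n k) * padicNorm p (H 2 (k - 15 * n)) ≤ (p : ℚ) ^ (-(e0 n p + m + 1)) * (p : ℚ) ^ 2 :=
          mul_le_mul (norm_B0_le n p k hn hp hp2 m hk (hmk k)) (norm_H_le p 2 _ hp (hlt k hk)) (padicNorm.nonneg _) (by positivity)
      _ = (p : ℚ) ^ (1 - m - e0 n p) := by
          rw [← zpow_natCast, ← zpow_add₀ hp0']; congr 1; push_cast; ring


theorem big1 (n p : ℕ) (hn : 1 ≤ n) (hp : p.Prime) (hp2 : 40 * n + 2 < p ^ 2) (h : 21 * n + 1 < p) :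
    PBound n p 2 := by
  have hp1 : (1 : ℚ) ≤ p := by exact_mod_cast hp.one_le
  have hp0 : (0 : ℚ) < p := by exact_mod_cast hp.pos
  have hlt : ∀ k ∈ K1 n, k - 15 * n < p ^ 2 := fun k hk => by
    have := (mem_lt hp2).2.2.2.1 hk
    omega
  have hp2' : (1 : ℚ) ≤ (p : ℚ) ^ (2 : ℤ) := one_le_zpow₀ hp1 (by norm_num)
  have hH2 : ∀ k ∈ K1 n, padicNorm p (H 2 (k - 15 * n)) ≤ (p : ℚ) ^ (2 : ℤ) := fun k hk => by
    have := norm_H_le p 2 _ hp (hlt k hk)
    exact_mod_cast this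
  apply PBound_of_terms n p hp
  · intro k _
    exact (big_A0_le n p k hn hp hp2 h).trans hp2'
  · intro k hk
    by_cases hpol : k - 15 * n < p
    · calc padicNorm p (A0 n k) * padicNorm p (H 3 (k - 15 * n)) ≤ 1 * 1 :=
            mul_le_mul (big_A0_le n p k hn hp hp2 h) (norm_H_small p 3 _ hp hpol) (padicNorm.nonneg _) (by norm_num)
        _ ≤ _ := by rw [one_mul]; exact hp2'
    · by_cases hk2 : k ∈ K2 n
      · have hkr : k < 38 * n + 2 := by unfold K2 at hk2; rw [mem_Ico] at hk2; exact hk2.2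
        have hnu : 1 ≤ nu n p k := nu_pos n p k (by omega) (by omega)
        rw [big_A0 n p k hn hp hp2 h hk2]
        calc (p : ℚ) ^ (-(nu n p k : ℤ)) * padicNorm p (H 3 (k - 15 * n)) ≤ (p : ℚ) ^ (-1 : ℤ) * (p : ℚ) ^ 3 :=
              mul_le_mul (zpow_le_zpow_right₀ hp1 (by omega)) (norm_H_le p 3 _ hp (hlt k hk)) (padicNorm.nonneg _)
                (by positivity)
          _ = (p : ℚ) ^ (2 : ℤ) := by
              rw [← zpow_natCast, ← zpow_add₀ hp0.ne']; norm_num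
      · rw [A0_zero n k hk2, padicNorm.zero, zero_mul]
        positivity
  · intro k hk
    calc padicNorm p (A0 n k) * padicNorm p (H 2 (k - 15 * n)) ≤ 1 * (p : ℚ) ^ (2 : ℤ) :=
          mul_le_mul (big_A0_le n p k hn hp hp2 h) (hH2 k hk) (padicNorm.nonneg _) (by norm_num)
      _ = _ := one_mul _
  · intro k hk
    calc padicNorm p (B0 n k) * padicNorm p (H 2 (k - 15 * n)) ≤ 1 * (p : ℚ) ^ (2 : ℤ) :=
          mul_le_mul (big_B0_le n p k hn hp hp2 h hk) (hH2 k hk) (padicNorm.nonneg _) (by norm_num)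
      _ = _ := one_mul _

theorem big2 (n p : ℕ) (hn : 1 ≤ n) (hp : p.Prime) (hp2 : 40 * n + 2 < p ^ 2) (h : 23 * n + 1 < p) :
    PBound n p 1 := by
  have hp1 : (1 : ℚ) ≤ p := by exact_mod_cast hp.one_le
  have hp0 : (0 : ℚ) < p := by exact_mod_cast hp.pos
  have h21 : 21 * n + 1 < p := by omega
  have hlt : ∀ k ∈ K1 n, k - 15 * n < p ^ 2 := fun k hk => by
    have := (mem_lt hp2).2.2.2.1 hk
    omega
  have hp2' : (1 : ℚ) ≤ (p : ℚ) ^ (1 : ℤ) := one_le_zpow₀ hp1 (by norm_num)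
  have hA : ∀ k ∈ K1 n, ∀ r : ℕ, padicNorm p (A0 n k) * padicNorm p (H r (k - 15 * n)) ≤ (p : ℚ) ^ (1 : ℤ) := by
    intro k hk r
    by_cases hpol : k - 15 * n < p
    · calc padicNorm p (A0 n k) * padicNorm p (H r (k - 15 * n)) ≤ 1 * 1 :=
            mul_le_mul (big_A0_le n p k hn hp hp2 h21) (norm_H_small p r _ hp hpol) (padicNorm.nonneg _) (by norm_num)
        _ ≤ _ := by rw [one_mul]; exact hp2'
    · have hk2 : k ∉ K2 n := by
        unfold K2
        rw [mem_Ico]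
        omega
      rw [A0_zero n k hk2, padicNorm.zero, zero_mul]
      positivity
  apply PBound_of_terms n p hp
  · intro k _
    exact (big_A0_le n p k hn hp hp2 h21).trans hp2'
  · intro k hk
    exact hA k hk 3
  · intro k hk
    exact hA k hk 2
  · intro k hk
    by_cases hpol : k - 15 * n < p
    · calc padicNorm p (B0 n k) * padicNorm p (H 2 (k - 15 * n)) ≤ 1 * 1 :=
            mul_le_mul (big_B0_le n p k hn hp hp2 h21 hk) (norm_H_small p 2 _ hp hpol) (padicNorm.nonneg _) (by norm_num)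
        _ ≤ _ := by rw [one_mul]; exact hp2'
    · have hk2 : k ∉ K2 n := by
        unfold K2
        rw [mem_Ico]
        omega
      have hkr : k < 40 * n + 2 := by
        have hk' := hk
        unfold K1 at hk'
        rw [mem_Ico] at hk'
        exact hk'.2
      have hnu : 1 ≤ nu n p k := nu_pos n p k (by omega) (by omega)
      rw [big_B0 n p k hn hp hp2 h21 hk hk2]
      calc (p : ℚ) ^ (-(nu n p k : ℤ)) * padicNorm p (H 2 (k - 15 * n)) ≤ (p : ℚ) ^ (-1 : ℤ) * (p : ℚ) ^ 2 :=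
            mul_le_mul (zpow_le_zpow_right₀ hp1 (by omega)) (norm_H_le p 2 _ hp (hlt k hk)) (padicNorm.nonneg _)
              (by positivity)
        _ = (p : ℚ) ^ (1 : ℤ) := by
            rw [← zpow_natCast, ← zpow_add₀ hp0.ne']; norm_num

theorem big3 (n p : ℕ) (hn : 1 ≤ n) (hp : p.Prime) (hp2 : 40 * n + 2 < p ^ 2) (h : 25 * n + 1 < p) :
    PBound n p 0 := by
  have h21 : 21 * n + 1 < p := by omega
  have hH : ∀ k ∈ K1 n, ∀ r : ℕ, padicNorm p (H r (k - 15 * n)) ≤ 1 := by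
    intro k hk r
    apply norm_H_small p r _ hp
    unfold K1 at hk
    rw [mem_Ico] at hk
    omega
  apply PBound_of_terms n p hp
  · intro k _
    rw [zpow_zero]
    exact big_A0_le n p k hn hp hp2 h21
  · intro k hk
    rw [zpow_zero]
    exact mul_le_one₀ (big_A0_le n p k hn hp hp2 h21) (padicNorm.nonneg _) (hH k hk 3)
  · intro k hk
    rw [zpow_zero]
    exact mul_le_one₀ (big_A0_le n p k hn hp hp2 h21) (padicNorm.nonneg _) (hH k hk 2)
  · intro k hk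
    rw [zpow_zero]
    exact mul_le_one₀ (big_B0_le n p k hn hp hp2 h21 hk) (padicNorm.nonneg _) (hH k hk 2)

end Pool.Agent.Z3
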