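import Pool.Agent.Z3.Defs

/-!
Upper bound for the coefficient of zeta(3).
-/

open Finset
open scoped BigOperators

namespace Pool.Agent.Z3

theorem choose_bound (m r : ℕ) (x : ℝ) (hx : 0 < x) : (m.choose r : ℝ) ≤ (1 + x) ^ m * (1 / x) ^ r := by
  rw [one_div, inv_pow, ← div_eq_mul_inv, le_div_iff₀ (by positivity)]
  rcases le_or_gt r m with h | h
  · rw [add_comm, add_pow]
    have h1 := single_le_sum (f := fun i => x ^ i * (1 : ℝ) ^ (m - i) * (m.choose i : ℝ)) (s := range (m + 1))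
      (fun i _ => by positivity) (mem_range.mpr (Nat.lt_succ_of_le h))
    calc (m.choose r : ℝ) * x ^ r = x ^ r * 1 ^ (m - r) * (m.choose r : ℝ) := by rw [one_pow]; ring
      _ ≤ _ := h1
  · rw [Nat.choose_eq_zero_of_lt h]
    simp only [Nat.cast_zero, zero_mul]
    positivity

/-- the base of the exponential bound -/
noncomputable def RR : ℝ :=
  (27 / 13) ^ 20 * (13 / 14) ^ 17 * (12 / 7) ^ 18 * (7 / 5) ^ 13 * (13 / 9) ^ 16 * (9 / 4) ^ 9 * 3 ^ 21 * (1 / 2) *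
    (25 / 7) ^ 18

theorem pow_alg (u1 v1 u2 v2 u3 v3 u4 v4 u5 v5 : ℝ) (n r : ℕ) :
    u1 ^ (20 * n + r) * v1 ^ (17 * n) * (u2 ^ (18 * n + r) * v2 ^ (13 * n)) * (u3 ^ (16 * n + r) * v3 ^ (9 * n)) *
      (u4 ^ (21 * n + 1) * v4 ^ (n + r)) * (u5 ^ (18 * n + 1) * v5 ^ r) =
    u4 * u5 * (u1 ^ 20 * v1 ^ 17 * u2 ^ 18 * v2 ^ 13 * u3 ^ 16 * v3 ^ 9 * u4 ^ 21 * v4 * u5 ^ 18) ^ n *
      (u1 * u2 * u3 * v4 * v5) ^ r := by
  ring

theorem A0_nonneg (n k : ℕ) : (0 : ℚ) ≤ A0 n k := by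
  unfold A0
  split_ifs
  · positivity
  · exact le_rfl

theorem A0_bound (n k : ℕ) : ((A0 n k : ℚ) : ℝ) ≤ 75 / 7 * RR ^ n := by
  by_cases hk : k ∈ K2 n
  · have hk' := hk
    unfold K2 at hk'
    rw [mem_Ico] at hk'
    obtain ⟨r, hr⟩ : ∃ r, k = 20 * n + r := ⟨k - 20 * n, by omega⟩
    have e1 : k - 2 * n = 18 * n + r := by omega
    have e2 : k - 4 * n = 16 * n + r := by omega
    have e3 : k - 19 * n = n + r := by omega
    have e4 : k - 20 * n = r := by omega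
    unfold A0
    rw [if_pos hk, e1, e2, e3, e4, hr]
    push_cast
    have c1 := choose_bound (20 * n + r) (17 * n) (14 / 13) (by norm_num)
    have c2 := choose_bound (18 * n + r) (13 * n) (5 / 7) (by norm_num)
    have c3 := choose_bound (16 * n + r) (9 * n) (4 / 9) (by norm_num)
    have c4 := choose_bound (21 * n + 1) (n + r) 2 (by norm_num)
    have c5 := choose_bound (18 * n + 1) r (18 / 7) (by norm_num)
    have m2 := mul_le_mul c1 c2 (Nat.cast_nonneg _) (by positivity)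
    have m3 := mul_le_mul m2 c3 (Nat.cast_nonneg _) (by positivity)
    have m4 := mul_le_mul m3 c4 (Nat.cast_nonneg _) (by positivity)
    have m5 := mul_le_mul m4 c5 (Nat.cast_nonneg _) (by positivity)
    refine m5.trans (le_of_eq ?_)
    rw [pow_alg]
    have h1 : ((1 + 14 / 13 : ℝ) * (1 + 5 / 7) * (1 + 4 / 9) * (1 / 2) * (1 / (18 / 7))) = 1 := by norm_num
    rw [h1, one_pow, mul_one]
    unfold RR
    norm_num
  · have : A0 n k = 0 := by unfold A0; rw [if_neg hk]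
    rw [this]
    unfold RR
    simp only [Rat.cast_zero]
    positivity

theorem RR_le : RR ≤ Real.exp 85.91 := by
  have h1 : Real.exp 85.91 = Real.exp 1 ^ 85 * Real.exp 0.91 := by
    rw [← Real.exp_nat_mul, ← Real.exp_add]
    norm_num
  have h2 : (2.7182818283 : ℝ) ^ 85 ≤ Real.exp 1 ^ 85 := pow_le_pow_left₀ (by norm_num) Real.exp_one_gt_d9.le _
  have h3 := Real.sum_le_exp_of_nonneg (x := 0.91) (by norm_num) 7
  simp only [sum_range_succ, range_zero, sum_empty, Nat.factorial] at h3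
  rw [h1]
  have h4 : RR ≤ (2.7182818283 : ℝ) ^ 85 * 2.4842 := by
    unfold RR
    norm_num
  refine h4.trans (mul_le_mul h2 ?_ (by norm_num) (by positivity))
  refine le_trans ?_ h3
  norm_num

theorem a_bound : ∃ C : ℝ, ∃ D : ℕ, ∀ N j : ℕ, 1 ≤ N → j ≤ 2 →
    |((a (4 * N) j : ℚ) : ℝ)| ≤ C * (N : ℝ) ^ D * Real.exp (343.64 * N) := by
  refine ⟨2 * (86 * (162 ^ 2 * (75 / 7))), 3, fun N j hN hj => ?_⟩
  have hN1 : (1 : ℝ) ≤ N := by exact_mod_cast hN
  have hR : (0 : ℝ) ≤ RR := by unfold RR; positivity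
  have hE : RR ^ (4 * N) ≤ Real.exp (343.64 * N) := by
    calc RR ^ (4 * N) ≤ Real.exp 85.91 ^ (4 * N) := pow_le_pow_left₀ hR RR_le _
      _ = Real.exp (343.64 * N) := by
        rw [← Real.exp_nat_mul]
        congr 1
        push_cast
        ring
  have hterm : ∀ k ∈ K1 (4 * N), |((A (4 * N) j k : ℚ) : ℝ)| ≤ (162 * (N : ℝ)) ^ 2 * (75 / 7 * Real.exp (343.64 * N)) := by
    intro k hk
    unfold K1 at hk
    rw [mem_Ico] at hk
    unfold A
    push_cast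
    rw [abs_mul, abs_pow, abs_neg, Nat.abs_cast, abs_of_nonneg (by exact_mod_cast A0_nonneg (4 * N) k)]
    have h1 : (k : ℝ) ≤ 162 * N := by
      have : k ≤ 162 * N := by omega
      exact_mod_cast this
    have h2 : (k : ℝ) ^ j ≤ (162 * (N : ℝ)) ^ 2 := by
      calc (k : ℝ) ^ j ≤ (162 * (N : ℝ)) ^ j := by gcongr
        _ ≤ (162 * (N : ℝ)) ^ 2 := pow_le_pow_right₀ (by linarith) hj
    have h3 : ((A0 (4 * N) k : ℚ) : ℝ) ≤ 75 / 7 * Real.exp (343.64 * N) :=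
      (A0_bound (4 * N) k).trans (by gcongr)
    exact mul_le_mul h2 h3 (by exact_mod_cast A0_nonneg (4 * N) k) (by positivity)
  unfold a
  push_cast
  rw [abs_mul, abs_of_nonneg (by norm_num : (0 : ℝ) ≤ 2)]
  have hsum : |∑ k ∈ K1 (4 * N), ((A (4 * N) j k : ℚ) : ℝ)| ≤ (86 * N) * ((162 * (N : ℝ)) ^ 2 * (75 / 7 * Real.exp (343.64 * N))) := by
    refine (abs_sum_le_sum_abs _ _).trans ?_
    refine (sum_le_sum hterm).trans ?_
    rw [sum_const, nsmul_eq_mul]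
    apply mul_le_mul_of_nonneg_right _ (by positivity)
    have : (K1 (4 * N)).card ≤ 86 * N := by
      unfold K1
      rw [Nat.card_Ico]
      omega
    exact_mod_cast this
  calc 2 * |∑ k ∈ K1 (4 * N), ((A (4 * N) j k : ℚ) : ℝ)| ≤ 2 * ((86 * N) * ((162 * (N : ℝ)) ^ 2 * (75 / 7 * Real.exp (343.64 * N)))) := by
        gcongr
    _ = 2 * (86 * (162 ^ 2 * (75 / 7))) * (N : ℝ) ^ 3 * Real.exp (343.64 * N) := by ring

end Pool.Agent.Z3
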