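import Pool.Agent.Z3.Defs

/-!
# The kernel pi / (2 cosh(pi y)^2) and moving the line of integration across an integer
-/

open Finset Filter Topology Complex MeasureTheory
open scoped BigOperators

namespace Pool.Agent.Z3

/-- growth condition in the strip -/
def PolyGrowth (m : ℤ) (g : ℂ → ℂ) : Prop :=
  ∃ C : ℝ, ∃ d : ℕ, ∀ t : ℂ, (m : ℝ) - 1 / 2 ≤ t.re → t.re ≤ (m : ℝ) + 1 / 2 → ‖g t‖ ≤ C * (1 + |t.im|) ^ d

theorem Ker_pos (y : ℝ) : 0 < Ker y := by
  unfold Ker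
  have := Real.cosh_pos (Real.pi * y)
  positivity

theorem continuous_Ker : Continuous Ker := by
  unfold Ker
  refine Continuous.div continuous_const ?_ ?_
  · exact continuous_const.mul
      ((Real.continuous_cosh.comp (continuous_const.mul continuous_id)).pow 2)
  · intro y
    have := Real.cosh_pos (Real.pi * y)
    positivity

theorem Ker_neg (y : ℝ) : Ker (-y) = Ker y := by
  unfold Ker
  rw [mul_neg, Real.cosh_neg]

theorem Ker_le (y : ℝ) : Ker y ≤ 2 * Real.pi * Real.exp (-(2 * Real.pi * |y|)) := by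
  have h1 : Real.exp (Real.pi * |y|) / 2 ≤ Real.cosh (Real.pi * y) := by
    rw [← Real.cosh_abs (Real.pi * y), abs_mul, abs_of_pos Real.pi_pos, Real.cosh_eq]
    have := Real.exp_pos (-(Real.pi * |y|))
    linarith
  have h2 : Real.exp (2 * Real.pi * |y|) / 4 ≤ Real.cosh (Real.pi * y) ^ 2 := by
    have h3 : (Real.exp (Real.pi * |y|) / 2) ^ 2 ≤ Real.cosh (Real.pi * y) ^ 2 :=
      pow_le_pow_left₀ (by positivity) h1 2
    have h4 : (Real.exp (Real.pi * |y|) / 2) ^ 2 = Real.exp (2 * Real.pi * |y|) / 4 := by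
      rw [div_pow, ← Real.exp_nat_mul]
      norm_num
      ring_nf
    rw [← h4]
    exact h3
  unfold Ker
  have h5 : 0 < Real.cosh (Real.pi * y) := Real.cosh_pos _
  rw [div_le_iff₀ (by positivity), Real.exp_neg]
  have h6 : 0 < Real.exp (2 * Real.pi * |y|) := Real.exp_pos _
  have h7 : 0 < Real.pi := Real.pi_pos
  calc Real.pi = 2 * Real.pi * (Real.exp (2 * Real.pi * |y|))⁻¹ *
        (2 * (Real.exp (2 * Real.pi * |y|) / 4)) := by field_simp; norm_num
    _ ≤ 2 * Real.pi * (Real.exp (2 * Real.pi * |y|))⁻¹ *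
        (2 * Real.cosh (Real.pi * y) ^ 2) := by gcongr

theorem integrable_exp_neg_abs : Integrable (fun y : ℝ => Real.exp (-|y|)) := by
  have h1 : IntegrableOn (fun y : ℝ => Real.exp (-|y|)) (Set.Ioi 0) := by
    refine (integrableOn_exp_neg_Ioi 0).congr_fun (fun y hy => ?_) measurableSet_Ioi
    simp only [abs_of_pos (show (0:ℝ) < y from hy)]
  have h2 : IntegrableOn (fun y : ℝ => Real.exp (-|y|)) (Set.Iic 0) := by
    refine (integrableOn_exp_Iic 0).congr_fun (fun y hy => ?_) measurableSet_Iic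
    simp only [abs_of_nonpos (show y ≤ 0 from hy), neg_neg]
  have h3 := h2.union h1
  rwa [Set.Iic_union_Ioi, integrableOn_univ] at h3

theorem pow_le_exp_aux (d : ℕ) (x : ℝ) (hx : 0 ≤ x) :
    (1 + x) ^ d ≤ (d.factorial : ℝ) * Real.exp 1 * Real.exp x := by
  have h := Real.pow_div_factorial_le_exp (x := 1 + x) (by linarith) d
  rw [div_le_iff₀ (by positivity), Real.exp_add] at h
  calc (1 + x) ^ d ≤ Real.exp 1 * Real.exp x * (d.factorial : ℝ) := h
    _ = _ := by ring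

/-- integrability of polynomially bounded functions against the kernel -/
theorem integrable_Ker_mul (f : ℝ → ℂ) (hf : Continuous f) (C : ℝ) (d : ℕ)
    (h : ∀ y, ‖f y‖ ≤ C * (1 + |y|) ^ d) :
    MeasureTheory.Integrable (fun y : ℝ => f y * (Ker y : ℂ)) := by
  have hC : 0 ≤ C := by
    have := h 0
    simp only [abs_zero, add_zero, one_pow, mul_one] at this
    exact le_trans (norm_nonneg _) this
  refine ((integrable_exp_neg_abs).const_mul
    (C * ((d.factorial : ℝ) * Real.exp 1) * (2 * Real.pi))).mono' ?_ ?_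
  · exact (hf.mul (Complex.continuous_ofReal.comp continuous_Ker)).aestronglyMeasurable
  · refine Eventually.of_forall fun y => ?_
    rw [norm_mul, Complex.norm_real, Real.norm_of_nonneg (Ker_pos y).le]
    have h1 := pow_le_exp_aux d |y| (abs_nonneg y)
    have h2 := Ker_le y
    have h3 : Real.exp |y| * Real.exp (-(2 * Real.pi * |y|)) ≤ Real.exp (-|y|) := by
      rw [← Real.exp_add, Real.exp_le_exp]
      have := Real.pi_gt_three
      nlinarith [abs_nonneg y]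
    calc ‖f y‖ * Ker y ≤ (C * (1 + |y|) ^ d) * (2 * Real.pi * Real.exp (-(2 * Real.pi * |y|))) :=
          mul_le_mul (h y) h2 (Ker_pos y).le (by positivity)
      _ ≤ (C * ((d.factorial : ℝ) * Real.exp 1 * Real.exp |y|)) *
          (2 * Real.pi * Real.exp (-(2 * Real.pi * |y|))) := by gcongr
      _ = C * ((d.factorial : ℝ) * Real.exp 1) * (2 * Real.pi) *
          (Real.exp |y| * Real.exp (-(2 * Real.pi * |y|))) := by ring
      _ ≤ C * ((d.factorial : ℝ) * Real.exp 1) * (2 * Real.pi) * Real.exp (-|y|) := by gcongr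

theorem integrable_Ker : Integrable Ker := by
  have h := integrable_Ker_mul (fun _ => 1) continuous_const 1 0 (by simp)
  have h2 := h.re
  refine h2.congr (Eventually.of_forall fun y => ?_)
  simp

theorem integral_Ker : ∫ y : ℝ, Ker y = 1 := by
  have hder : ∀ y : ℝ, HasDerivAt (fun y : ℝ => -(Real.exp (2 * Real.pi * y) + 1)⁻¹) (Ker y) y := by
    intro y
    have h1 : HasDerivAt (fun y : ℝ => Real.exp (2 * Real.pi * y) + 1)
        (Real.exp (2 * Real.pi * y) * (2 * Real.pi)) y := by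
      have := ((hasDerivAt_id y).const_mul (2 * Real.pi)).exp
      simpa using this.add_const 1
    have h2 : Real.exp (2 * Real.pi * y) + 1 ≠ 0 := by positivity
    have h3 := (h1.inv h2).neg
    refine h3.congr_deriv ?_
    unfold Ker
    rw [Real.cosh_eq, show (2 * Real.pi * y) = Real.pi * y + Real.pi * y by ring, Real.exp_add,
      Real.exp_neg]
    have h4 : Real.exp (Real.pi * y) ≠ 0 := (Real.exp_pos _).ne'
    field_simp
  have h := integral_of_hasDerivAt_of_tendsto hder integrable_Ker (m := -1) (n := 0) ?_ ?_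
  · rw [h]; norm_num
  · have h1 : Tendsto (fun y : ℝ => 2 * Real.pi * y) atBot atBot :=
      tendsto_id.const_mul_atBot (by positivity)
    have h2 := ((Real.tendsto_exp_atBot.comp h1).add_const 1).inv₀ (by norm_num)
    simpa using h2.neg
  · have h1 : Tendsto (fun y : ℝ => 2 * Real.pi * y) atTop atTop :=
      tendsto_id.const_mul_atTop (by positivity)
    have h2 := (tendsto_atTop_add_const_right _ 1 (Real.tendsto_exp_atTop.comp h1)).inv_tendsto_atTop
    simpa using h2.neg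

theorem integral_mul_Ker : ∫ y : ℝ, (y : ℂ) * (Ker y : ℂ) = 0 := by
  have h := integral_neg_eq_self (fun y : ℝ => (y : ℂ) * (Ker y : ℂ)) volume
  have h2 : (fun y : ℝ => ((-y : ℝ) : ℂ) * (Ker (-y) : ℂ)) =
      fun y : ℝ => -((y : ℂ) * (Ker y : ℂ)) := by
    funext y
    rw [Ker_neg]
    push_cast
    ring
  rw [h2, integral_neg] at h
  have h3 : (2 : ℂ) * ∫ y : ℝ, (y : ℂ) * (Ker y : ℂ) = 0 := by linear_combination -h
  simpa using h3

theorem integral_Ker_complex : ∫ y : ℝ, (Ker y : ℂ) = 1 := by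
  rw [integral_complex_ofReal, integral_Ker]
  simp

/-- on the line through a half integer the square of the sine is the square of cosh -/
theorem sin_sq_line (m : ℤ) (y : ℝ) :
    Complex.sin (Real.pi * ((m : ℂ) - 1 / 2 + (y : ℂ) * Complex.I)) ^ 2 =
      ((Real.cosh (Real.pi * y) ^ 2 : ℝ) : ℂ) := by
  have e : (Real.pi : ℂ) * ((m : ℂ) - 1 / 2 + (y : ℂ) * Complex.I) =
      ((m : ℂ) * Real.pi + ((Real.pi * y : ℝ) : ℂ) * Complex.I) - Real.pi / 2 := by
    push_cast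
    ring
  rw [e, Complex.sin_sub_pi_div_two, Complex.cos_add, Complex.sin_int_mul_pi, zero_mul, sub_zero,
    Complex.cos_mul_I]
  have h1 : Complex.cos ((m : ℂ) * Real.pi) ^ 2 = 1 := by
    have := Complex.sin_sq_add_cos_sq ((m : ℂ) * Real.pi)
    rw [Complex.sin_int_mul_pi] at this
    simpa using this
  push_cast
  rw [neg_sq, mul_pow, h1, one_mul]

/-- lower bound for the sine off the real axis -/
theorem sinh_sq_le (t : ℂ) :
    Real.sinh (Real.pi * t.im) ^ 2 ≤ ‖Complex.sin (Real.pi * t)‖ ^ 2 := by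
  have e1 : ((Real.pi : ℂ) * t).re = Real.pi * t.re := by simp
  have e2 : ((Real.pi : ℂ) * t).im = Real.pi * t.im := by simp
  have h := Complex.sin_eq ((Real.pi : ℂ) * t)
  rw [e1, e2] at h
  have h2 : Complex.sin (Real.pi * t) =
      ((Real.sin (Real.pi * t.re) * Real.cosh (Real.pi * t.im) : ℝ) : ℂ) +
      ((Real.cos (Real.pi * t.re) * Real.sinh (Real.pi * t.im) : ℝ) : ℂ) * Complex.I := by
    rw [h]
    push_cast
    ring
  rw [← Complex.normSq_eq_norm_sq, h2, Complex.normSq_add_mul_I]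
  have h3 := Real.cosh_sq (Real.pi * t.im)
  have h4 := Real.sin_sq_add_cos_sq (Real.pi * t.re)
  nlinarith [sq_nonneg (Real.sin (Real.pi * t.re)), sq_nonneg (Real.sinh (Real.pi * t.im)),
    sq_nonneg (Real.cosh (Real.pi * t.im))]

/-- `sin(pi t)/(t-m)` as an entire function -/
noncomputable def Sq (m : ℤ) : ℂ → ℂ := dslope (fun t : ℂ => Complex.sin (Real.pi * t)) (m : ℂ)

theorem differentiable_Sq (m : ℤ) : Differentiable ℂ (Sq m) := by
  rw [← differentiableOn_univ]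
  refine (Complex.differentiableOn_dslope univ_mem).mpr ?_
  exact (Complex.differentiable_sin.comp (differentiable_id.const_mul _)).differentiableOn

theorem Sq_mul (m : ℤ) (t : ℂ) : (t - m) * Sq m t = Complex.sin (Real.pi * t) := by
  have h := sub_smul_dslope (fun t : ℂ => Complex.sin (Real.pi * t)) (m : ℂ) t
  simp only [smul_eq_mul] at h
  rw [Sq, h, mul_comm (Real.pi : ℂ) (m : ℂ), Complex.sin_int_mul_pi, sub_zero]

theorem Sq_self (m : ℤ) : Sq m m ≠ 0 := by
  rw [Sq, dslope_same]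
  have h : HasDerivAt (fun t : ℂ => Complex.sin (Real.pi * t))
      (Complex.cos (Real.pi * (m : ℂ)) * Real.pi) (m : ℂ) := by
    have := ((hasDerivAt_id (m : ℂ)).const_mul (Real.pi : ℂ)).csin
    simpa using this
  rw [h.deriv]
  refine mul_ne_zero ?_ (by exact_mod_cast Real.pi_ne_zero)
  intro h0
  have := Complex.sin_sq_add_cos_sq ((Real.pi : ℂ) * (m : ℂ))
  rw [h0, mul_comm (Real.pi : ℂ) (m : ℂ), Complex.sin_int_mul_pi] at this
  simp at this

theorem Sq_ne_zero (m : ℤ) (t : ℂ) (h1 : (m : ℝ) - 1 / 2 ≤ t.re) (h2 : t.re ≤ (m : ℝ) + 1 / 2) :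
    Sq m t ≠ 0 := by
  by_cases h : t = m
  · rw [h]
    exact Sq_self m
  · intro h0
    have h3 := Sq_mul m t
    rw [h0, mul_zero, eq_comm, Complex.sin_eq_zero_iff] at h3
    obtain ⟨k, hk⟩ := h3
    have hpi : (Real.pi : ℂ) ≠ 0 := by exact_mod_cast Real.pi_ne_zero
    have h4 : t = k := by
      apply mul_left_cancel₀ hpi
      rw [hk, mul_comm]
    have h5 : t.re = (k : ℝ) := by rw [h4]; simp
    rw [h5] at h1 h2
    have h6 : (m : ℝ) < (k : ℝ) + 1 := by linarith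
    have h7 : (k : ℝ) < (m : ℝ) + 1 := by linarith
    have h8 : m < k + 1 := by exact_mod_cast h6
    have h9 : k < m + 1 := by exact_mod_cast h7
    have h10 : k = m := by omega
    exact h (by rw [h4, h10])

/-- the remainder after the linear part of g at m -/
noncomputable def Rem (m : ℤ) (g : ℂ → ℂ) (t : ℂ) : ℂ :=
  g t - g m - deriv g (m : ℂ) * (t - m)

/-- the remainder times the square of the cosecant, as an analytic function -/
noncomputable def Phi0 (m : ℤ) (g : ℂ → ℂ) (t : ℂ) : ℂ :=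
  dslope (dslope g (m : ℂ)) (m : ℂ) t * ((Real.pi / 2 : ℂ) / (Sq m t) ^ 2)

theorem Rem_eq (m : ℤ) (g : ℂ → ℂ) (t : ℂ) :
    Rem m g t = (t - m) ^ 2 * dslope (dslope g (m : ℂ)) (m : ℂ) t := by
  have h1 := sub_smul_dslope g (m : ℂ) t
  have h2 := sub_smul_dslope (dslope g (m : ℂ)) (m : ℂ) t
  simp only [smul_eq_mul, dslope_same] at h1 h2
  rw [Rem, sq, mul_assoc, h2]
  linear_combination -h1

theorem Phi0_mul (m : ℤ) (g : ℂ → ℂ) (t : ℂ) (h : Sq m t ≠ 0) :
    Phi0 m g t * Complex.sin (Real.pi * t) ^ 2 = Rem m g t * (Real.pi / 2) := by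
  rw [Phi0, Rem_eq, ← Sq_mul m t]
  field_simp

theorem Phi0_differentiable (m : ℤ) (g : ℂ → ℂ) (U : Set ℂ) (hU : IsOpen U)
    (hsub : ∀ t : ℂ, (m : ℝ) - 1 / 2 ≤ t.re → t.re ≤ (m : ℝ) + 1 / 2 → t ∈ U)
    (hg : DifferentiableOn ℂ g U) (t : ℂ) (h1 : (m : ℝ) - 1 / 2 ≤ t.re)
    (h2 : t.re ≤ (m : ℝ) + 1 / 2) : DifferentiableAt ℂ (Phi0 m g) t := by
  have hm : U ∈ 𝓝 (m : ℂ) := hU.mem_nhds (hsub _ (by simp) (by simp))
  have hh : DifferentiableOn ℂ (dslope (dslope g (m : ℂ)) (m : ℂ)) U :=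
    (Complex.differentiableOn_dslope hm).mpr ((Complex.differentiableOn_dslope hm).mpr hg)
  have ht : U ∈ 𝓝 t := hU.mem_nhds (hsub t h1 h2)
  exact (hh.differentiableAt ht).mul ((differentiableAt_const _).div
    ((differentiable_Sq m t).pow 2) (pow_ne_zero 2 (Sq_ne_zero m t h1 h2)))

theorem Phi0_line (m : ℤ) (g : ℂ → ℂ) (m' : ℤ) (y : ℝ) (hm' : m' = m ∨ m' = m + 1) :
    Phi0 m g ((m' : ℂ) - 1 / 2 + (y : ℂ) * Complex.I) =
      Rem m g ((m' : ℂ) - 1 / 2 + (y : ℂ) * Complex.I) * (Ker y : ℂ) := by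
  have hre : ((m' : ℂ) - 1 / 2 + (y : ℂ) * Complex.I).re = (m' : ℝ) - 1 / 2 := by simp
  have hne : Sq m ((m' : ℂ) - 1 / 2 + (y : ℂ) * Complex.I) ≠ 0 := by
    refine Sq_ne_zero m _ ?_ ?_ <;> rw [hre] <;> rcases hm' with h | h <;> rw [h] <;>
      push_cast <;> linarith
  have h1 := Phi0_mul m g _ hne
  rw [sin_sq_line] at h1
  have h2 : ((Real.cosh (Real.pi * y) ^ 2 : ℝ) : ℂ) ≠ 0 := by
    have := Real.cosh_pos (Real.pi * y)
    exact_mod_cast (by positivity : Real.cosh (Real.pi * y) ^ 2 ≠ 0)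
  have h3 : (Ker y : ℂ) = (Real.pi / 2 : ℂ) / ((Real.cosh (Real.pi * y) ^ 2 : ℝ) : ℂ) := by
    unfold Ker
    push_cast
    have h4 : (Complex.cosh ((Real.pi : ℂ) * (y : ℂ))) ≠ 0 := by
      intro h5
      apply h2
      push_cast
      rw [h5]
      simp
    field_simp
  rw [h3, ← mul_div_assoc, eq_div_iff h2, h1]

theorem sinh_lower (T : ℝ) (hT : 1 ≤ T) : Real.exp (Real.pi * T) / 4 ≤ Real.sinh (Real.pi * T) := by
  rw [Real.sinh_eq]
  have h1 : Real.exp (-(Real.pi * T)) ≤ 1 := by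
    rw [Real.exp_le_one_iff]
    have := Real.pi_pos
    nlinarith
  have h2 : Real.pi * T + 1 ≤ Real.exp (Real.pi * T) := Real.add_one_le_exp _
  have h3 := Real.pi_gt_three
  have h4 : 2 ≤ Real.exp (Real.pi * T) := by nlinarith
  linarith

/-- exponential decay of `Phi0` on the horizontal sides -/
theorem Phi0_decay (m : ℤ) (g : ℂ → ℂ) (hgr : PolyGrowth m g) :
    ∃ K : ℝ, 0 ≤ K ∧ ∀ t : ℂ, (m : ℝ) - 1 / 2 ≤ t.re → t.re ≤ (m : ℝ) + 1 / 2 → 1 ≤ |t.im| →
      ‖Phi0 m g t‖ ≤ K * Real.exp (-|t.im|) := by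
  obtain ⟨C, d, hC⟩ := hgr
  set C1 : ℝ := |C| + ‖g m‖ + ‖deriv g (m : ℂ)‖ with hC1
  have hC1n : 0 ≤ C1 := by positivity
  refine ⟨C1 * (((d + 1).factorial : ℝ) * Real.exp 1) * (8 * Real.pi), by positivity, ?_⟩
  intro t h1 h2 h3
  have hne := Sq_ne_zero m t h1 h2
  have hP := Phi0_mul m g t hne
  have hN : ‖Phi0 m g t‖ * ‖Complex.sin (Real.pi * t)‖ ^ 2 = ‖Rem m g t‖ * (Real.pi / 2) := by
    have := congrArg norm hP
    rw [norm_mul, norm_mul, norm_pow] at this
    rw [this]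
    congr 1
    rw [norm_div, Complex.norm_real, Real.norm_of_nonneg Real.pi_pos.le]
    simp
  have hone : (1 : ℝ) ≤ 1 + |t.im| := by linarith [abs_nonneg t.im]
  have hR : ‖Rem m g t‖ ≤ C1 * (1 + |t.im|) ^ (d + 1) := by
    have a1 : ‖g t‖ ≤ |C| * (1 + |t.im|) ^ (d + 1) := by
      calc ‖g t‖ ≤ C * (1 + |t.im|) ^ d := hC t h1 h2
        _ ≤ |C| * (1 + |t.im|) ^ d := by gcongr; exact le_abs_self C
        _ ≤ |C| * (1 + |t.im|) ^ (d + 1) := by
            gcongr
            omega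
    have a2 : ‖g m‖ ≤ ‖g m‖ * (1 + |t.im|) ^ (d + 1) :=
      le_mul_of_one_le_right (norm_nonneg _) (one_le_pow₀ hone)
    have a3 : ‖t - m‖ ≤ 1 + |t.im| := by
      have := Complex.norm_le_abs_re_add_abs_im (t - m)
      simp only [Complex.sub_re, Complex.intCast_re, Complex.sub_im, Complex.intCast_im,
        sub_zero] at this
      have b1 : |t.re - m| ≤ 1 := by
        rw [abs_le]
        constructor <;> linarith
      linarith
    have a4 : ‖deriv g (m : ℂ) * (t - m)‖ ≤ ‖deriv g (m : ℂ)‖ * (1 + |t.im|) ^ (d + 1) := by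
      rw [norm_mul]
      gcongr
      calc ‖t - m‖ ≤ (1 + |t.im|) ^ 1 := by rw [pow_one]; exact a3
        _ ≤ (1 + |t.im|) ^ (d + 1) := by
            gcongr
            omega
    calc ‖Rem m g t‖ ≤ ‖g t‖ + ‖g m‖ + ‖deriv g (m : ℂ) * (t - m)‖ := by
          rw [Rem]
          exact (norm_sub_le _ _).trans (add_le_add_left (norm_sub_le _ _) _)
      _ ≤ |C| * (1 + |t.im|) ^ (d + 1) + ‖g m‖ * (1 + |t.im|) ^ (d + 1) +
          ‖deriv g (m : ℂ)‖ * (1 + |t.im|) ^ (d + 1) := by linarith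
      _ = C1 * (1 + |t.im|) ^ (d + 1) := by rw [hC1]; ring
  have hS : Real.exp (2 * Real.pi * |t.im|) / 16 ≤ ‖Complex.sin (Real.pi * t)‖ ^ 2 := by
    have b1 := sinh_lower |t.im| h3
    have b2 : Real.sinh (Real.pi * t.im) ^ 2 = Real.sinh (Real.pi * |t.im|) ^ 2 := by
      rcases abs_cases t.im with ⟨h, _⟩ | ⟨h, _⟩ <;> rw [h]
      rw [mul_neg, Real.sinh_neg, neg_sq]
    have b3 : (Real.exp (Real.pi * |t.im|) / 4) ^ 2 ≤ Real.sinh (Real.pi * |t.im|) ^ 2 :=
      pow_le_pow_left₀ (by positivity) b1 2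
    have b4 : (Real.exp (Real.pi * |t.im|) / 4) ^ 2 = Real.exp (2 * Real.pi * |t.im|) / 16 := by
      rw [div_pow, ← Real.exp_nat_mul]
      norm_num
      ring_nf
    rw [← b4]
    exact b3.trans (b2 ▸ sinh_sq_le t)
  have hE : 0 < Real.exp (2 * Real.pi * |t.im|) := Real.exp_pos _
  have h5 : ‖Phi0 m g t‖ * (Real.exp (2 * Real.pi * |t.im|) / 16) ≤
      C1 * (1 + |t.im|) ^ (d + 1) * (Real.pi / 2) := by
    calc ‖Phi0 m g t‖ * (Real.exp (2 * Real.pi * |t.im|) / 16)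
        ≤ ‖Phi0 m g t‖ * ‖Complex.sin (Real.pi * t)‖ ^ 2 := by gcongr
      _ = ‖Rem m g t‖ * (Real.pi / 2) := hN
      _ ≤ C1 * (1 + |t.im|) ^ (d + 1) * (Real.pi / 2) := by
          have := Real.pi_pos
          gcongr
  have h6 := pow_le_exp_aux (d + 1) |t.im| (abs_nonneg _)
  have h7 : Real.exp |t.im| * Real.exp |t.im| ≤ Real.exp (2 * Real.pi * |t.im|) := by
    rw [← Real.exp_add, Real.exp_le_exp]
    have := Real.pi_gt_three
    nlinarith [abs_nonneg t.im]
  have h8 : Real.exp (-|t.im|) * Real.exp |t.im| = 1 := by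
    rw [← Real.exp_add]
    simp
  have hpi := Real.pi_pos
  -- divide
  have h9 : ‖Phi0 m g t‖ * Real.exp (2 * Real.pi * |t.im|) ≤
      C1 * (((d + 1).factorial : ℝ) * Real.exp 1) * (8 * Real.pi) * Real.exp |t.im| := by
    calc ‖Phi0 m g t‖ * Real.exp (2 * Real.pi * |t.im|)
        = 16 * (‖Phi0 m g t‖ * (Real.exp (2 * Real.pi * |t.im|) / 16)) := by ring
      _ ≤ 16 * (C1 * (1 + |t.im|) ^ (d + 1) * (Real.pi / 2)) := by gcongr
      _ ≤ 16 * (C1 * (((d + 1).factorial : ℝ) * Real.exp 1 * Real.exp |t.im|) *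
          (Real.pi / 2)) := by gcongr
      _ = _ := by ring
  have h10 : ‖Phi0 m g t‖ * Real.exp |t.im| ≤
      C1 * (((d + 1).factorial : ℝ) * Real.exp 1) * (8 * Real.pi) := by
    have c1 : ‖Phi0 m g t‖ * Real.exp |t.im| * Real.exp |t.im| ≤
        C1 * (((d + 1).factorial : ℝ) * Real.exp 1) * (8 * Real.pi) * Real.exp |t.im| := by
      calc ‖Phi0 m g t‖ * Real.exp |t.im| * Real.exp |t.im|
          = ‖Phi0 m g t‖ * (Real.exp |t.im| * Real.exp |t.im|) := by ring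
        _ ≤ ‖Phi0 m g t‖ * Real.exp (2 * Real.pi * |t.im|) := by gcongr
        _ ≤ _ := h9
    exact le_of_mul_le_mul_right c1 (Real.exp_pos _)
  calc ‖Phi0 m g t‖ = (‖Phi0 m g t‖ * Real.exp |t.im|) * Real.exp (-|t.im|) := by
        rw [mul_assoc, mul_comm (Real.exp |t.im|), h8, mul_one]
    _ ≤ _ := by gcongr

/-- the horizontal sides vanish in the limit -/
theorem horiz_tendsto (m : ℤ) (g : ℂ → ℂ) (hgr : PolyGrowth m g) (s : ℝ) (hs : |s| = 1) :
    Tendsto (fun T : ℝ => ∫ x : ℝ in ((m : ℝ) - 1 / 2)..((m : ℝ) + 1 / 2),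
      Phi0 m g ((x : ℂ) + ((s * T : ℝ) : ℂ) * Complex.I)) atTop (𝓝 0) := by
  obtain ⟨K, hK0, hK⟩ := Phi0_decay m g hgr
  have hlim : Tendsto (fun T : ℝ => K * Real.exp (-T)) atTop (𝓝 0) := by
    have := (Real.tendsto_exp_neg_atTop_nhds_zero).const_mul K
    simpa using this
  refine squeeze_zero_norm' ?_ hlim
  filter_upwards [eventually_ge_atTop 1] with T hT
  have hb : ∀ x ∈ Set.uIoc ((m : ℝ) - 1 / 2) ((m : ℝ) + 1 / 2),
      ‖Phi0 m g ((x : ℂ) + ((s * T : ℝ) : ℂ) * Complex.I)‖ ≤ K * Real.exp (-T) := by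
    intro x hx
    rw [Set.uIoc_of_le (by linarith)] at hx
    have e1 : ((x : ℂ) + ((s * T : ℝ) : ℂ) * Complex.I).re = x := by simp
    have e2 : |((x : ℂ) + ((s * T : ℝ) : ℂ) * Complex.I).im| = T := by
      have : ((x : ℂ) + ((s * T : ℝ) : ℂ) * Complex.I).im = s * T := by
        rw [Complex.add_im, Complex.ofReal_im, Complex.im_ofReal_mul, Complex.I_im]
        ring
      rw [this, abs_mul, hs, one_mul, abs_of_nonneg (by linarith)]
    have := hK ((x : ℂ) + ((s * T : ℝ) : ℂ) * Complex.I) (by rw [e1]; exact hx.1.le)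
      (by rw [e1]; exact hx.2) (by rw [e2]; exact hT)
    rwa [e2] at this
  have := intervalIntegral.norm_integral_le_of_norm_le_const hb
  rwa [show ((m : ℝ) + 1 / 2) - ((m : ℝ) - 1 / 2) = 1 by ring, abs_one, mul_one] at this

theorem line_re (m : ℤ) (y : ℝ) : ((m : ℂ) - 1 / 2 + (y : ℂ) * Complex.I).re = (m : ℝ) - 1 / 2 := by
  simp

theorem line_im (m : ℤ) (y : ℝ) : ((m : ℂ) - 1 / 2 + (y : ℂ) * Complex.I).im = y := by
  simp

/-- integrability of `g` on one of the two lines -/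
theorem line_integrable (m : ℤ) (g : ℂ → ℂ) (U : Set ℂ) (hU : IsOpen U)
    (hsub : ∀ t : ℂ, (m : ℝ) - 1 / 2 ≤ t.re → t.re ≤ (m : ℝ) + 1 / 2 → t ∈ U)
    (hg : DifferentiableOn ℂ g U) (hgr : PolyGrowth m g) (m' : ℤ) (hm' : m' = m ∨ m' = m + 1) :
    Integrable (fun y : ℝ => g ((m' : ℂ) - 1 / 2 + (y : ℂ) * Complex.I) * (Ker y : ℂ)) := by
  obtain ⟨C, d, hC⟩ := hgr
  have h1 : ∀ y : ℝ, (m : ℝ) - 1 / 2 ≤ ((m' : ℂ) - 1 / 2 + (y : ℂ) * Complex.I).re := by
    intro y
    rw [line_re]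
    rcases hm' with h | h <;> rw [h] <;> push_cast <;> linarith
  have h2 : ∀ y : ℝ, ((m' : ℂ) - 1 / 2 + (y : ℂ) * Complex.I).re ≤ (m : ℝ) + 1 / 2 := by
    intro y
    rw [line_re]
    rcases hm' with h | h <;> rw [h] <;> push_cast <;> linarith
  refine integrable_Ker_mul (fun y : ℝ => g ((m' : ℂ) - 1 / 2 + (y : ℂ) * Complex.I)) ?_ C d ?_
  · rw [continuous_iff_continuousAt]
    intro y
    have hc : ContinuousAt g ((m' : ℂ) - 1 / 2 + (y : ℂ) * Complex.I) :=
      (hg.differentiableAt (hU.mem_nhds (hsub _ (h1 y) (h2 y)))).continuousAt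
    exact ContinuousAt.comp (f := fun y : ℝ => (m' : ℂ) - 1 / 2 + (y : ℂ) * Complex.I) hc
      (Continuous.continuousAt (continuous_const.add
        (Complex.continuous_ofReal.mul continuous_const)))
  · intro y
    have := hC _ (h1 y) (h2 y)
    rwa [line_im] at this

theorem integrable_Ker_complex : Integrable (fun y : ℝ => (Ker y : ℂ)) := by
  have h := integrable_Ker_mul (fun _ => 1) continuous_const 1 0 (by simp)
  simpa using h

theorem integrable_y_Ker : Integrable (fun y : ℝ => (y : ℂ) * (Ker y : ℂ)) := by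
  refine integrable_Ker_mul (fun y : ℝ => (y : ℂ)) Complex.continuous_ofReal 1 1 ?_
  intro y
  rw [Complex.norm_real, Real.norm_eq_abs, one_mul, pow_one]
  linarith [abs_nonneg y]

theorem Rem_fun_eq (m : ℤ) (g : ℂ → ℂ) (m' : ℤ) (y : ℝ) :
    Rem m g ((m' : ℂ) - 1 / 2 + (y : ℂ) * Complex.I) * (Ker y : ℂ) =
      g ((m' : ℂ) - 1 / 2 + (y : ℂ) * Complex.I) * (Ker y : ℂ) -
      (g m + deriv g (m : ℂ) * ((m' : ℂ) - 1 / 2 - m)) * (Ker y : ℂ) -
      (deriv g (m : ℂ) * Complex.I) * ((y : ℂ) * (Ker y : ℂ)) := by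
  rw [Rem]
  ring

theorem Rem_integrable (m : ℤ) (g : ℂ → ℂ) (U : Set ℂ) (hU : IsOpen U)
    (hsub : ∀ t : ℂ, (m : ℝ) - 1 / 2 ≤ t.re → t.re ≤ (m : ℝ) + 1 / 2 → t ∈ U)
    (hg : DifferentiableOn ℂ g U) (hgr : PolyGrowth m g) (m' : ℤ) (hm' : m' = m ∨ m' = m + 1) :
    Integrable (fun y : ℝ =>
      Rem m g ((m' : ℂ) - 1 / 2 + (y : ℂ) * Complex.I) * (Ker y : ℂ)) := by
  have h := ((line_integrable m g U hU hsub hg hgr m' hm').sub
    (integrable_Ker_complex.const_mul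
      (g m + deriv g (m : ℂ) * ((m' : ℂ) - 1 / 2 - m)))).sub
    (integrable_y_Ker.const_mul (deriv g (m : ℂ) * Complex.I))
  refine h.congr (Eventually.of_forall fun y => ?_)
  simp only [Pi.sub_apply]
  rw [Rem_fun_eq]

theorem Rem_integral (m : ℤ) (g : ℂ → ℂ) (U : Set ℂ) (hU : IsOpen U)
    (hsub : ∀ t : ℂ, (m : ℝ) - 1 / 2 ≤ t.re → t.re ≤ (m : ℝ) + 1 / 2 → t ∈ U)
    (hg : DifferentiableOn ℂ g U) (hgr : PolyGrowth m g) (m' : ℤ) (hm' : m' = m ∨ m' = m + 1) :
    ∫ y : ℝ, Rem m g ((m' : ℂ) - 1 / 2 + (y : ℂ) * Complex.I) * (Ker y : ℂ) =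
      Iint m' g - (g m + deriv g (m : ℂ) * ((m' : ℂ) - 1 / 2 - m)) := by
  have i1 := line_integrable m g U hU hsub hg hgr m' hm'
  have i2 := integrable_Ker_complex.const_mul
      (g m + deriv g (m : ℂ) * ((m' : ℂ) - 1 / 2 - m))
  have i3 := integrable_y_Ker.const_mul (deriv g (m : ℂ) * Complex.I)
  have e : (fun y : ℝ => Rem m g ((m' : ℂ) - 1 / 2 + (y : ℂ) * Complex.I) * (Ker y : ℂ)) =
      fun y : ℝ => (g ((m' : ℂ) - 1 / 2 + (y : ℂ) * Complex.I) * (Ker y : ℂ) -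
      (g m + deriv g (m : ℂ) * ((m' : ℂ) - 1 / 2 - m)) * (Ker y : ℂ)) -
      (deriv g (m : ℂ) * Complex.I) * ((y : ℂ) * (Ker y : ℂ)) := by
    funext y
    exact Rem_fun_eq m g m' y
  have i12 : Integrable (fun y : ℝ => g ((m' : ℂ) - 1 / 2 + (y : ℂ) * Complex.I) * (Ker y : ℂ) -
      (g m + deriv g (m : ℂ) * ((m' : ℂ) - 1 / 2 - m)) * (Ker y : ℂ)) := i1.sub i2
  rw [e, integral_sub i12 i3, integral_sub i1 i2, integral_const_mul, integral_const_mul,
    integral_mul_Ker, integral_Ker_complex, Iint]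
  ring

/-- moving the line across the integer m -/
theorem Iint_shift (m : ℤ) (g : ℂ → ℂ) (U : Set ℂ) (hU : IsOpen U)
    (hsub : ∀ t : ℂ, (m : ℝ) - 1 / 2 ≤ t.re → t.re ≤ (m : ℝ) + 1 / 2 → t ∈ U)
    (hg : DifferentiableOn ℂ g U) (hgr : PolyGrowth m g) :
    Iint m g - Iint (m + 1) g = - deriv g (m : ℂ) := by
  -- the two vertical integrals of the remainder agree
  have hrect : ∀ T : ℝ, 0 < T →
      (∫ x : ℝ in ((m : ℝ) - 1 / 2)..((m : ℝ) + 1 / 2),
        Phi0 m g ((x : ℂ) + (((-1) * T : ℝ) : ℂ) * Complex.I)) -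
      (∫ x : ℝ in ((m : ℝ) - 1 / 2)..((m : ℝ) + 1 / 2),
        Phi0 m g ((x : ℂ) + ((1 * T : ℝ) : ℂ) * Complex.I)) +
      Complex.I * (∫ y : ℝ in (-T)..T,
        Rem m g (((m + 1 : ℤ) : ℂ) - 1 / 2 + (y : ℂ) * Complex.I) * (Ker y : ℂ)) -
      Complex.I * (∫ y : ℝ in (-T)..T,
        Rem m g ((m : ℂ) - 1 / 2 + (y : ℂ) * Complex.I) * (Ker y : ℂ)) = 0 := by
    intro T hT
    have h := Complex.integral_boundary_rect_eq_zero_of_differentiableOn (Phi0 m g)
      ⟨(m : ℝ) - 1 / 2, -T⟩ ⟨(m : ℝ) + 1 / 2, T⟩ ?_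
    · simp only [smul_eq_mul] at h
      have e1 : ∀ y : ℝ, (((m : ℝ) + 1 / 2 : ℝ) : ℂ) + (y : ℂ) * Complex.I =
          ((m + 1 : ℤ) : ℂ) - 1 / 2 + (y : ℂ) * Complex.I := by
        intro y
        push_cast
        ring
      have e2 : ∀ y : ℝ, (((m : ℝ) - 1 / 2 : ℝ) : ℂ) + (y : ℂ) * Complex.I =
          (m : ℂ) - 1 / 2 + (y : ℂ) * Complex.I := by
        intro y
        push_cast
        ring
      simp only [e1, e2, Phi0_line m g (m + 1) _ (Or.inr rfl), Phi0_line m g m _ (Or.inl rfl)] at h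
      rw [show (-1 : ℝ) * T = -T by ring, show (1 : ℝ) * T = T by ring]
      exact h
    · intro t ht
      rw [Complex.mem_reProdIm] at ht
      have h1 := ht.1
      rw [Set.uIcc_of_le (by simp only; linarith)] at h1
      exact (Phi0_differentiable m g U hU hsub hg t h1.1 h1.2).differentiableWithinAt
  have l1 := horiz_tendsto m g hgr (-1) (by norm_num)
  have l2 := horiz_tendsto m g hgr 1 (by norm_num)
  have l3 := intervalIntegral_tendsto_integral
    (Rem_integrable m g U hU hsub hg hgr (m + 1) (Or.inr rfl)) tendsto_neg_atTop_atBot tendsto_id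
  have l4 := intervalIntegral_tendsto_integral
    (Rem_integrable m g U hU hsub hg hgr m (Or.inl rfl)) tendsto_neg_atTop_atBot tendsto_id
  have l5 := ((l1.sub l2).add (l3.const_mul Complex.I)).sub (l4.const_mul Complex.I)
  have l6 := tendsto_nhds_unique (l5.congr' (by
    filter_upwards [eventually_gt_atTop 0] with T hT
    exact hrect T hT)) tendsto_const_nhds
  rw [Rem_integral m g U hU hsub hg hgr (m + 1) (Or.inr rfl),
    Rem_integral m g U hU hsub hg hgr m (Or.inl rfl)] at l6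
  have l7 : Complex.I * ((Iint (m + 1) g -
      (g m + deriv g (m : ℂ) * (((m + 1 : ℤ) : ℂ) - 1 / 2 - m))) -
      (Iint m g - (g m + deriv g (m : ℂ) * ((m : ℂ) - 1 / 2 - m)))) = 0 := by
    linear_combination l6
  have l8 := (mul_eq_zero.mp l7).resolve_left Complex.I_ne_zero
  push_cast at l8
  linear_combination -l8

end Pool.Agent.Z3
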