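import Pool.Agent.Z3.PF
import Pool.Agent.Z3.Shift

/-!
The linear form: the line integral of G equals a zeta(3) - b.
-/

open Finset Filter Topology Complex
open scoped BigOperators

namespace Pool.Agent.Z3

theorem Ker_nonneg (y : ℝ) : 0 ≤ Ker y := by
  unfold Ker
  positivity

theorem norm_Iint_le (m : ℤ) (g : ℂ → ℂ) (C : ℝ)
    (h : ∀ y : ℝ, ‖g ((m : ℂ) - 1 / 2 + (y : ℂ) * Complex.I)‖ ≤ C) : ‖Iint m g‖ ≤ C := by
  unfold Iint
  calc ‖∫ y : ℝ, g ((m : ℂ) - 1 / 2 + (y : ℂ) * Complex.I) * (Ker y : ℂ)‖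
      ≤ ∫ y : ℝ, ‖g ((m : ℂ) - 1 / 2 + (y : ℂ) * Complex.I) * (Ker y : ℂ)‖ :=
        MeasureTheory.norm_integral_le_integral_norm _
    _ ≤ ∫ y : ℝ, C * Ker y := by
        apply MeasureTheory.integral_mono_of_nonneg
        · exact Filter.Eventually.of_forall (fun y => norm_nonneg _)
        · exact integrable_Ker.const_mul C
        · refine Filter.Eventually.of_forall (fun y => ?_)
          simp only [norm_mul, Complex.norm_real, Real.norm_of_nonneg (Ker_nonneg y)]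
          exact mul_le_mul_of_nonneg_right (h y) (Ker_nonneg y)
    _ = C := by rw [MeasureTheory.integral_const_mul, integral_Ker, mul_one]

theorem Iint_telescope (m : ℤ) (g : ℂ → ℂ) (M : ℕ)
    (h : ∀ i : ℕ, i < M → Iint (m + i) g - Iint (m + i + 1) g = - deriv g ((m + i : ℤ) : ℂ)) :
    Iint m g = Iint (m + M) g + ∑ i ∈ range M, (- deriv g ((m + i : ℤ) : ℂ)) := by
  induction M with
  | zero => simp
  | succ M ih =>
    rw [sum_range_succ, ih (fun i hi => h i (by omega))]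
    have h1 := h M (by omega)
    have h2 : m + ((M + 1 : ℕ) : ℤ) = m + (M : ℤ) + 1 := by push_cast; ring
    rw [h2, ← h1]
    ring

/-- the powers of t+k in the half-plane -/
theorem pole_shift (m k : ℤ) (s : ℕ) (h : 1 ≤ m + k) :
    Iint m (fun t => 1 / (t + (k : ℂ)) ^ s) - Iint (m + 1) (fun t => 1 / (t + (k : ℂ)) ^ s) =
      - deriv (fun t : ℂ => 1 / (t + (k : ℂ)) ^ s) ((m : ℤ) : ℂ) := by
  have hre : ∀ t : ℂ, (t + (k : ℂ)).re = t.re + k := fun t => by simp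
  have hmk : (1 : ℝ) ≤ (m : ℝ) + k := by exact_mod_cast h
  apply Iint_shift m _ {t : ℂ | -(k : ℝ) < t.re}
  · exact isOpen_lt continuous_const Complex.continuous_re
  · intro t h1 _
    simp only [Set.mem_setOf_eq]
    linarith
  · intro t ht
    have hne : t + (k : ℂ) ≠ 0 := by
      intro h0
      have := congrArg Complex.re h0
      rw [hre] at this
      simp only [Set.mem_setOf_eq] at ht
      simp only [Complex.zero_re] at this
      linarith
    apply DifferentiableAt.differentiableWithinAt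
    apply DifferentiableAt.div (differentiableAt_const _)
    · fun_prop
    · exact pow_ne_zero _ hne
  · refine ⟨2 ^ s, 0, fun t h1 h2 => ?_⟩
    rw [pow_zero, mul_one, norm_div, norm_pow, norm_one]
    have h3 : (1 / 2 : ℝ) ≤ ‖t + (k : ℂ)‖ := by
      have := Complex.re_le_norm (t + (k : ℂ))
      rw [hre] at this
      linarith
    rw [div_le_iff₀ (by positivity)]
    calc (1 : ℝ) = 2 ^ s * (1 / 2) ^ s := by rw [← mul_pow]; norm_num
      _ ≤ 2 ^ s * ‖t + (k : ℂ)‖ ^ s := by gcongr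

theorem pole_tend (m k : ℤ) (s : ℕ) (hs : 1 ≤ s) (h : 1 ≤ m + k) :
    Tendsto (fun M : ℕ => Iint (m + M) (fun t => 1 / (t + (k : ℂ)) ^ s)) atTop (𝓝 0) := by
  have hmk : (1 : ℝ) ≤ (m : ℝ) + k := by exact_mod_cast h
  have hlim : Tendsto (fun M : ℕ => 1 / ((M : ℝ) + 1)) atTop (𝓝 0) :=
    tendsto_one_div_add_atTop_nhds_zero_nat
  apply squeeze_zero_norm' (a := fun M : ℕ => 2 * (1 / ((M : ℝ) + 1)))
  · filter_upwards [eventually_ge_atTop 1] with M hM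
    apply norm_Iint_le
    intro y
    rw [norm_div, norm_pow, norm_one]
    have h3 : (M : ℝ) + 1 / 2 ≤ ‖(((m + M : ℤ) : ℂ) - 1 / 2 + (y : ℂ) * Complex.I) + (k : ℂ)‖ := by
      have := Complex.re_le_norm ((((m + M : ℤ) : ℂ) - 1 / 2 + (y : ℂ) * Complex.I) + (k : ℂ))
      have h4 : ((((m + M : ℤ) : ℂ) - 1 / 2 + (y : ℂ) * Complex.I) + (k : ℂ)).re = (m : ℝ) + M - 1 / 2 + k := by
        simp
      rw [h4] at this
      linarith
    have h5 : (1 : ℝ) ≤ (M : ℝ) := by exact_mod_cast hM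
    calc 1 / ‖(((m + M : ℤ) : ℂ) - 1 / 2 + (y : ℂ) * Complex.I) + (k : ℂ)‖ ^ s
        ≤ 1 / (((M : ℝ) + 1) / 2) := by
          apply one_div_le_one_div_of_le (by positivity)
          calc ((M : ℝ) + 1) / 2 ≤ (M : ℝ) + 1 / 2 := by linarith
            _ ≤ ‖(((m + M : ℤ) : ℂ) - 1 / 2 + (y : ℂ) * Complex.I) + (k : ℂ)‖ := h3
            _ ≤ _ := le_self_pow₀ (by linarith) (by omega)
      _ = 2 * (1 / ((M : ℝ) + 1)) := by field_simp
  · simpa using hlim.const_mul 2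

theorem pole_deriv (m k : ℤ) (s : ℕ) (h : 1 ≤ m + k) :
    deriv (fun t : ℂ => 1 / (t + (k : ℂ)) ^ s) ((m : ℤ) : ℂ) = - (s : ℂ) / ((m : ℂ) + k) ^ (s + 1) := by
  have hne : ((m : ℂ) + k) ≠ 0 := by
    have : (m + k : ℤ) ≠ 0 := by omega
    exact_mod_cast this
  have h1 : HasDerivAt (fun t : ℂ => (t + (k : ℂ)) ^ s) ((s : ℂ) * ((m : ℂ) + k) ^ (s - 1) * 1) (m : ℂ) :=
    ((hasDerivAt_id (m : ℂ)).add_const (k : ℂ)).pow s
  have h2 : HasDerivAt (fun t : ℂ => 1 / (t + (k : ℂ)) ^ s) _ (m : ℂ) :=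
    (hasDerivAt_const (m : ℂ) (1 : ℂ)).div h1 (pow_ne_zero _ hne)
  rw [h2.deriv]
  rcases Nat.eq_zero_or_pos s with hs | hs
  · subst hs; simp
  · obtain ⟨r, rfl⟩ : ∃ r, s = r + 1 := ⟨s - 1, by omega⟩
    simp only [Nat.add_sub_cancel]
    field_simp
    ring

theorem pole_main (m k : ℤ) (s : ℕ) (hs : 1 ≤ s) (h : 1 ≤ m + k) :
    Iint m (fun t => 1 / (t + (k : ℂ)) ^ s) =
      (s : ℂ) * (((∑' i : ℕ, 1 / ((i : ℝ) + 1) ^ (s + 1) : ℝ) : ℂ) - ((H (s + 1) (m + k - 1).toNat : ℚ) : ℂ)) := by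
  obtain ⟨r, hr⟩ : ∃ r : ℕ, m + k = r + 1 := ⟨(m + k - 1).toNat, by omega⟩
  have hr' : (m + k - 1).toNat = r := by omega
  rw [hr']
  set g : ℂ → ℂ := fun t => 1 / (t + (k : ℂ)) ^ s with hg
  have htel : ∀ M : ℕ, Iint m g = Iint (m + M) g + (s : ℂ) * ∑ i ∈ range M, 1 / (((r + i : ℕ) : ℂ) + 1) ^ (s + 1) := by
    intro M
    rw [Iint_telescope m g M (fun i _ => pole_shift (m + i) k s (by omega)), mul_sum]
    congr 1
    apply sum_congr rfl
    intro i _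
    have h1 : deriv g ((m + i : ℤ) : ℂ) = - (s : ℂ) / (((m + i : ℤ) : ℂ) + k) ^ (s + 1) :=
      pole_deriv (m + i) k s (by omega)
    have h2 : ((m + i : ℤ) : ℂ) + k = ((r + i : ℕ) : ℂ) + 1 := by
      have : (m + i + k : ℤ) = (r + i : ℕ) + 1 := by push_cast; omega
      exact_mod_cast this
    rw [h1, h2]
    ring
  have hsum : Summable (fun i : ℕ => 1 / ((i : ℝ) + 1) ^ (s + 1)) := by
    have := (summable_nat_add_iff 1).mpr (Real.summable_one_div_nat_pow.mpr (show 1 < s + 1 by omega))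
    simpa using this
  have hlim := hsum.hasSum.tendsto_sum_nat
  have hlim2 : Tendsto (fun M : ℕ => ∑ i ∈ range (r + M), 1 / ((i : ℝ) + 1) ^ (s + 1)) atTop
      (𝓝 (∑' i : ℕ, 1 / ((i : ℝ) + 1) ^ (s + 1))) := by
    have : Tendsto (fun M : ℕ => r + M) atTop atTop := tendsto_atTop_mono (fun M => Nat.le_add_left M r) tendsto_id
    exact hlim.comp this
  have hlim3 : Tendsto (fun M : ℕ => ((∑ i ∈ range (r + M), 1 / ((i : ℝ) + 1) ^ (s + 1) : ℝ) : ℂ)) atTop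
      (𝓝 ((∑' i : ℕ, 1 / ((i : ℝ) + 1) ^ (s + 1) : ℝ) : ℂ)) :=
    (Complex.continuous_ofReal.tendsto _).comp hlim2
  have hpt := pole_tend m k s hs h
  have htot : Tendsto (fun M : ℕ => Iint (m + M) g + (s : ℂ) * (((∑ i ∈ range (r + M), 1 / ((i : ℝ) + 1) ^ (s + 1) : ℝ) : ℂ) -
      ((H (s + 1) r : ℚ) : ℂ))) atTop (𝓝 (0 + (s : ℂ) * (((∑' i : ℕ, 1 / ((i : ℝ) + 1) ^ (s + 1) : ℝ) : ℂ) -
      ((H (s + 1) r : ℚ) : ℂ)))) :=
    hpt.add ((hlim3.sub_const _).const_mul _)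
  have hconst : ∀ M : ℕ, Iint (m + M) g + (s : ℂ) * (((∑ i ∈ range (r + M), 1 / ((i : ℝ) + 1) ^ (s + 1) : ℝ) : ℂ) -
      ((H (s + 1) r : ℚ) : ℂ)) = Iint m g := by
    intro M
    rw [htel M, sum_range_add]
    unfold H
    push_cast
    ring
  have := tendsto_nhds_unique (tendsto_const_nhds (x := Iint m g) (f := (atTop : Filter ℕ))) (by
    refine Tendsto.congr ?_ htot
    exact hconst)
  rw [this, zero_add]

theorem Iint_pole2 (m : ℤ) (k : ℤ) (h : 1 ≤ m + k) :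
    Iint m (fun t => 1 / (t + (k : ℂ)) ^ 2) =
      2 * ((zeta3 : ℂ) - ((H 3 (m + k - 1).toNat : ℚ) : ℂ)) := by
  rw [pole_main m k 2 (by norm_num) h]
  unfold zeta3
  norm_num

theorem Iint_pole1 (m : ℤ) (k : ℤ) (h : 1 ≤ m + k) :
    Iint m (fun t => 1 / (t + (k : ℂ))) =
      ((∑' i : ℕ, 1 / ((i : ℝ) + 1) ^ 2 : ℝ) : ℂ) - ((H 2 (m + k - 1).toNat : ℚ) : ℂ) := by
  have := pole_main m k 1 (by norm_num) h
  simpa using this

theorem K1_ge {n k : ℕ} (hk : k ∈ K1 n) : 19 * n ≤ k := by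
  unfold K1 at hk
  rw [mem_Ico] at hk
  exact hk.1

theorem ne_of_re {n k : ℕ} (hk : k ∈ K1 n) {t : ℂ} (ht : -(19 * (n : ℝ)) < t.re) : t + (k : ℂ) ≠ 0 := by
  intro h0
  have h1 := congrArg Complex.re h0
  have h2 : (19 * (n : ℝ)) ≤ k := by exact_mod_cast K1_ge hk
  simp at h1
  linarith

theorem pole_line_integrable (m : ℤ) (n k s : ℕ) (hk : k ∈ K1 n) (hm : 1 ≤ m + 19 * n) (c : ℂ) :
    MeasureTheory.Integrable (fun y : ℝ => c / (((m : ℂ) - 1 / 2 + (y : ℂ) * Complex.I) + (k : ℂ)) ^ s * (Ker y : ℂ)) := by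
  have h2 : (19 * (n : ℤ)) ≤ k := by exact_mod_cast K1_ge hk
  have h1 : (1 : ℝ) ≤ (m : ℝ) + k := by
    have : (1 : ℤ) ≤ m + k := by omega
    exact_mod_cast this
  have hre : ∀ y : ℝ, (((m : ℂ) - 1 / 2 + (y : ℂ) * Complex.I) + (k : ℂ)).re = (m : ℝ) - 1 / 2 + k := by
    intro y; simp
  have hge : ∀ y : ℝ, (1 / 2 : ℝ) ≤ ‖((m : ℂ) - 1 / 2 + (y : ℂ) * Complex.I) + (k : ℂ)‖ := by
    intro y
    have := Complex.re_le_norm (((m : ℂ) - 1 / 2 + (y : ℂ) * Complex.I) + (k : ℂ))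
    rw [hre] at this
    linarith
  apply integrable_Ker_mul (fun y : ℝ => c / (((m : ℂ) - 1 / 2 + (y : ℂ) * Complex.I) + (k : ℂ)) ^ s)
    (C := ‖c‖ * 2 ^ s) (d := 0)
  · apply Continuous.div continuous_const (by fun_prop)
    intro y
    apply pow_ne_zero
    intro h0
    have := hge y
    rw [h0, norm_zero] at this
    linarith
  · intro y
    rw [pow_zero, mul_one, norm_div, norm_pow, div_le_iff₀ (pow_pos (lt_of_lt_of_le (by norm_num) (hge y)) _), mul_assoc]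
    calc ‖c‖ = ‖c‖ * (2 ^ s * (1 / 2) ^ s) := by rw [← mul_pow]; norm_num
      _ ≤ ‖c‖ * (2 ^ s * ‖((m : ℂ) - 1 / 2 + (y : ℂ) * Complex.I) + (k : ℂ)‖ ^ s) := by
        gcongr
        exact hge y

theorem Iint_G (m : ℤ) (n j : ℕ) (hn : 1 ≤ n) (hj : j ≤ 3) (hm : 1 ≤ m + 19 * n) :
    Iint m (G n j) = ∑ k ∈ K1 n, ((A n j k : ℂ) * Iint m (fun t => 1 / (t + ((k : ℤ) : ℂ)) ^ 2) +
      (B n j k : ℂ) * Iint m (fun t => 1 / (t + ((k : ℤ) : ℂ)))) := by
  have hre : ∀ y : ℝ, -(19 * (n : ℝ)) < ((m : ℂ) - 1 / 2 + (y : ℂ) * Complex.I).re := by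
    intro y
    have : (1 : ℝ) ≤ (m : ℝ) + 19 * n := by exact_mod_cast hm
    simp
    linarith
  unfold Iint
  have h1 : ∀ y : ℝ, G n j ((m : ℂ) - 1 / 2 + (y : ℂ) * Complex.I) * (Ker y : ℂ) =
      ∑ k ∈ K1 n, ((A n j k : ℂ) / (((m : ℂ) - 1 / 2 + (y : ℂ) * Complex.I) + (k : ℂ)) ^ 2 * (Ker y : ℂ) +
        (B n j k : ℂ) / (((m : ℂ) - 1 / 2 + (y : ℂ) * Complex.I) + (k : ℂ)) ^ 1 * (Ker y : ℂ)) := by
    intro y
    rw [partial_fraction n j hn hj _ (fun k hk => ne_of_re hk (hre y)), sum_mul]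
    apply sum_congr rfl
    intro k _
    rw [add_mul, pow_one]
  simp_rw [h1]
  rw [MeasureTheory.integral_finset_sum]
  · apply sum_congr rfl
    intro k hk
    rw [MeasureTheory.integral_add (pole_line_integrable m n k 2 hk hm _) (pole_line_integrable m n k 1 hk hm _)]
    congr 1
    · rw [← MeasureTheory.integral_const_mul]
      congr 1
      funext y
      push_cast
      ring
    · rw [← MeasureTheory.integral_const_mul]
      congr 1
      funext y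
      push_cast
      ring
  · intro k hk
    exact (pole_line_integrable m n k 2 hk hm _).add (pole_line_integrable m n k 1 hk hm _)

theorem G_diffOn (n j : ℕ) (hn : 1 ≤ n) (hj : j ≤ 3) :
    DifferentiableOn ℂ (G n j) {t : ℂ | -(19 * (n : ℝ)) < t.re} := by
  have h1 : DifferentiableOn ℂ (fun t : ℂ => ∑ k ∈ K1 n, ((A n j k : ℂ) / (t + (k : ℂ)) ^ 2 + (B n j k : ℂ) / (t + (k : ℂ))))
      {t : ℂ | -(19 * (n : ℝ)) < t.re} := by
    intro t ht
    apply DifferentiableAt.differentiableWithinAt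
    apply DifferentiableAt.fun_sum
    intro k hk
    have := ne_of_re hk ht
    apply DifferentiableAt.add
    · exact (differentiableAt_const _).div (by fun_prop) (pow_ne_zero _ this)
    · exact (differentiableAt_const _).div (by fun_prop) this
  apply h1.congr
  intro t ht
  exact partial_fraction n j hn hj t (fun k hk => ne_of_re hk ht)

theorem G_growth (m : ℤ) (n j : ℕ) (hn : 1 ≤ n) (hj : j ≤ 3) (hm : 1 ≤ m + 19 * n) : PolyGrowth m (G n j) := by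
  refine ⟨∑ k ∈ K1 n, (‖(A n j k : ℂ)‖ * 4 + ‖(B n j k : ℂ)‖ * 2), 0, fun t h1 h2 => ?_⟩
  have hm' : (1 : ℝ) ≤ (m : ℝ) + 19 * n := by exact_mod_cast hm
  have hre : -(19 * (n : ℝ)) < t.re := by linarith
  rw [pow_zero, mul_one, partial_fraction n j hn hj t (fun k hk => ne_of_re hk hre)]
  apply (norm_sum_le _ _).trans
  apply sum_le_sum
  intro k hk
  have h3 : (1 / 2 : ℝ) ≤ ‖t + (k : ℂ)‖ := by
    have h4 := Complex.re_le_norm (t + (k : ℂ))
    have h2 : (19 * (n : ℝ)) ≤ k := by exact_mod_cast K1_ge hk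
    simp only [Complex.add_re, Complex.natCast_re] at h4
    linarith
  have h5 : (0 : ℝ) < ‖t + (k : ℂ)‖ := by linarith
  apply (norm_add_le _ _).trans
  apply add_le_add
  · rw [norm_div, norm_pow, div_le_iff₀ (by positivity), mul_assoc]
    calc ‖(A n j k : ℂ)‖ = ‖(A n j k : ℂ)‖ * (4 * (1 / 2) ^ 2) := by norm_num
      _ ≤ _ := by gcongr
  · rw [norm_div, div_le_iff₀ (by positivity), mul_assoc]
    calc ‖(B n j k : ℂ)‖ = ‖(B n j k : ℂ)‖ * (2 * (1 / 2)) := by norm_num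
      _ ≤ _ := by gcongr

theorem G_deriv_zero (n j i : ℕ) (h1 : 2 * n ≤ i) (h2 : i < 15 * n) :
    deriv (G n j) (((-(i : ℤ) : ℤ)) : ℂ) = 0 := by
  set x : ℂ := (((-(i : ℤ) : ℤ)) : ℂ) with hx
  have hx' : x + (i : ℂ) = 0 := by rw [hx]; push_cast; ring
  have hden : den n x ≠ 0 := by
    unfold den
    apply mul_ne_zero
    · rw [prod_ne_zero_iff]
      intro k hk
      apply ne_of_re (n := n) hk
      rw [hx]
      have : (i : ℝ) < 15 * n := by exact_mod_cast h2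
      have hn0 : (0 : ℝ) ≤ n := Nat.cast_nonneg n
      simp
      linarith
    · rw [prod_ne_zero_iff]
      intro k hk
      have hk1 : k ∈ K1 n := by
        unfold K2 at hk; unfold K1
        rw [mem_Ico] at hk ⊢
        omega
      apply ne_of_re (n := n) hk1
      rw [hx]
      have : (i : ℝ) < 15 * n := by exact_mod_cast h2
      have hn0 : (0 : ℝ) ≤ n := Nat.cast_nonneg n
      simp
      linarith
  have hu : DifferentiableAt ℂ (fun t : ℂ => ∏ i ∈ N1 n, (t + (i : ℂ))) x := by fun_prop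
  have hd : DifferentiableAt ℂ (fun t : ℂ => den n t) x := by unfold den; fun_prop
  have hv : DifferentiableAt ℂ (fun t : ℂ => (kap n : ℂ) * t ^ j * ((∏ i ∈ N2 n, (t + (i : ℂ))) * ∏ i ∈ N3 n, (t + (i : ℂ))) / den n t) x := by
    apply DifferentiableAt.div _ hd hden
    fun_prop
  have hu0 : (∏ i ∈ N1 n, (x + (i : ℂ))) = 0 := by
    apply prod_eq_zero (i := i) _ hx'
    unfold N1; rw [mem_Ico]; omega
  have hv0 : (∏ i ∈ N2 n, (x + (i : ℂ))) = 0 := by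
    apply prod_eq_zero (i := i) _ hx'
    unfold N2; rw [mem_Ico]; omega
  have h3 := hu.hasDerivAt.mul hv.hasDerivAt
  have h4 : (G n j : ℂ → ℂ) = (fun t : ℂ => ∏ i ∈ N1 n, (t + (i : ℂ))) *
      (fun t : ℂ => (kap n : ℂ) * t ^ j * ((∏ i ∈ N2 n, (t + (i : ℂ))) * ∏ i ∈ N3 n, (t + (i : ℂ))) / den n t) := by
    funext t
    simp only [G, num, Pi.mul_apply]
    ring
  rw [h4, h3.deriv]
  simp only [hu0, hv0]
  simp

theorem Iint_move (n j : ℕ) (hn : 1 ≤ n) (hj : j ≤ 3) (M : ℕ) (m : ℤ) (h1 : -(15 * (n : ℤ)) + 1 ≤ m)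
    (h2 : m + M ≤ -(2 * (n : ℤ)) + 1) : Iint m (G n j) = Iint (m + M) (G n j) := by
  have h := Iint_telescope m (G n j) M (fun i hi => Iint_shift (m + i) (G n j) {t : ℂ | -(19 * (n : ℝ)) < t.re}
    (isOpen_lt continuous_const Complex.continuous_re) (fun t h3 _ => by
      simp only [Set.mem_setOf_eq]
      have h4 : (-(15 * (n : ℝ)) + 1) ≤ ((m + i : ℤ) : ℝ) := by
        have : -(15 * (n : ℤ)) + 1 ≤ m + i := by omega
        exact_mod_cast this
      have hn0 : (0 : ℝ) ≤ n := Nat.cast_nonneg n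
      linarith) (G_diffOn n j hn hj) (G_growth (m + i) n j hn hj (by omega)))
  rw [h]
  have : ∑ i ∈ range M, (- deriv (G n j) ((m + i : ℤ) : ℂ)) = 0 := by
    apply sum_eq_zero
    intro i hi
    rw [mem_range] at hi
    obtain ⟨r, hr⟩ : ∃ r : ℕ, m + i = -(r : ℤ) := ⟨(-(m + i)).toNat, by omega⟩
    rw [hr, G_deriv_zero n j r (by omega) (by omega), neg_zero]
  rw [this, add_zero]

/-- the linear form -/
theorem F_eq (N j : ℕ) (hN : 1 ≤ N) (hj : j ≤ 2) :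
    Iint (-(25 * (N : ℤ))) (G (4 * N) j) = ((a (4 * N) j : ℚ) : ℂ) * (zeta3 : ℂ) - ((b (4 * N) j : ℚ) : ℂ) := by
  have h1 : Iint (-(15 * ((4 * N : ℕ) : ℤ)) + 1) (G (4 * N) j) = Iint (-(25 * (N : ℤ))) (G (4 * N) j) := by
    have := Iint_move (4 * N) j (by omega) (by omega) (35 * N - 1) (-(15 * ((4 * N : ℕ) : ℤ)) + 1) le_rfl
      (by push_cast; omega)
    rw [this]
    congr 1
    omega
  rw [← h1, Iint_G _ _ _ (by omega) (by omega) (by push_cast; omega)]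
  have h2 : ∀ k ∈ K1 (4 * N), ((A (4 * N) j k : ℂ) * Iint (-(15 * ((4 * N : ℕ) : ℤ)) + 1) (fun t => 1 / (t + ((k : ℤ) : ℂ)) ^ 2) +
      (B (4 * N) j k : ℂ) * Iint (-(15 * ((4 * N : ℕ) : ℤ)) + 1) (fun t => 1 / (t + ((k : ℤ) : ℂ)))) =
      2 * (A (4 * N) j k : ℂ) * (zeta3 : ℂ) -
      (2 * (A (4 * N) j k : ℂ) * ((H 3 (k - 15 * (4 * N)) : ℚ) : ℂ) + (B (4 * N) j k : ℂ) * ((H 2 (k - 15 * (4 * N)) : ℚ) : ℂ)) +
      (B (4 * N) j k : ℂ) * ((∑' i : ℕ, 1 / ((i : ℝ) + 1) ^ 2 : ℝ) : ℂ) := by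
    intro k hk
    have hk1 := K1_ge hk
    have h3 : ((-(15 * ((4 * N : ℕ) : ℤ)) + 1) + (k : ℤ) - 1).toNat = k - 15 * (4 * N) := by omega
    rw [Iint_pole2 _ _ (by omega), Iint_pole1 _ _ (by omega), h3]
    ring
  rw [sum_congr rfl h2, sum_add_distrib, sum_sub_distrib, ← sum_mul, ← sum_mul]
  have h4 : ∑ k ∈ K1 (4 * N), (B (4 * N) j k : ℂ) = 0 := by
    have := sum_B (4 * N) j (by omega) hj
    exact_mod_cast this
  rw [h4, zero_mul, add_zero]
  unfold a b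
  push_cast
  rw [mul_sum]

end Pool.Agent.Z3
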