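import Mathlib

/-!
Linear forms in 1 and zeta(3) from the rational functions
G n j t = kap n * t^j * prod_{i<17n} (t+i) prod_{2n<=i<15n} (t+i) prod_{4n<=i<13n} (t+i)
  / (prod_{19n<=i<40n+2} (t+i) prod_{20n<=i<38n+2} (t+i)), j = 0, 1, 2.
-/

open Finset

namespace Pool.Agent.Z3

/-- zeta(3) -/
noncomputable def zeta3 : ℝ := ∑' n : ℕ, 1 / ((n : ℝ) + 1) ^ 3

/-- partial sums of the series of 1/i^s -/
def H (s m : ℕ) : ℚ := ∑ i ∈ range m, 1 / ((i : ℚ) + 1) ^ s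

/-- the normalising constant -/
def kap (n : ℕ) : ℚ :=
  (((21 * n + 1).factorial : ℚ) * ((18 * n + 1).factorial : ℚ)) /
    (((17 * n).factorial : ℚ) * ((13 * n).factorial : ℚ) * ((9 * n).factorial : ℚ))

/-- indices of the poles -/
def K1 (n : ℕ) : Finset ℕ := Ico (19 * n) (40 * n + 2)

/-- indices of the double poles -/
def K2 (n : ℕ) : Finset ℕ := Ico (20 * n) (38 * n + 2)

/-- indices of the zeros (three blocks) -/
def N1 (n : ℕ) : Finset ℕ := Ico 0 (17 * n)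
def N2 (n : ℕ) : Finset ℕ := Ico (2 * n) (15 * n)
def N3 (n : ℕ) : Finset ℕ := Ico (4 * n) (13 * n)

/-- the numerator -/
def num {F : Type*} [Field F] (n : ℕ) (t : F) : F :=
  (∏ i ∈ N1 n, (t + (i : F))) * (∏ i ∈ N2 n, (t + (i : F))) * ∏ i ∈ N3 n, (t + (i : F))

/-- the denominator -/
def den {F : Type*} [Field F] (n : ℕ) (t : F) : F :=
  (∏ i ∈ K1 n, (t + (i : F))) * ∏ i ∈ K2 n, (t + (i : F))

/-- the rational function -/
def G {F : Type*} [Field F] (n j : ℕ) (t : F) : F :=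
  (kap n : F) * t ^ j * num n t / den n t

/-- coefficient of 1/(t+k)^2 for j = 0 -/
def A0 (n k : ℕ) : ℚ :=
  if k ∈ K2 n then
    (k.choose (17 * n) : ℚ) * ((k - 2 * n).choose (13 * n) : ℚ) * ((k - 4 * n).choose (9 * n) : ℚ) *
      ((21 * n + 1).choose (k - 19 * n) : ℚ) * ((18 * n + 1).choose (k - 20 * n) : ℚ)
  else 0

/-- logarithmic derivative -/
def L0 (n k : ℕ) : ℚ :=
  (∑ i ∈ N1 n, 1 / ((i : ℚ) - k)) + (∑ i ∈ N2 n, 1 / ((i : ℚ) - k)) +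
    (∑ i ∈ N3 n, 1 / ((i : ℚ) - k)) - (∑ i ∈ (K1 n).erase k, 1 / ((i : ℚ) - k)) -
    ∑ i ∈ (K2 n).erase k, 1 / ((i : ℚ) - k)

/-- coefficient of 1/(t+k) for j = 0 -/
def B0 (n k : ℕ) : ℚ :=
  if k ∈ K2 n then A0 n k * L0 n k
  else if k ∈ K1 n then
    kap n * num n (-(k : ℚ)) /
      ((∏ i ∈ (K1 n).erase k, ((i : ℚ) - k)) * ∏ i ∈ K2 n, ((i : ℚ) - k))
  else 0

/-- coefficient of 1/(t+k)^2 -/
def A (n j k : ℕ) : ℚ := (-(k : ℚ)) ^ j * A0 n k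

/-- coefficient of 1/(t+k) -/
def B (n j k : ℕ) : ℚ := (-(k : ℚ)) ^ j * B0 n k + (j : ℚ) * (-(k : ℚ)) ^ (j - 1) * A0 n k

/-- the coefficient of zeta(3) -/
def a (n j : ℕ) : ℚ := 2 * ∑ k ∈ K1 n, A n j k

/-- the rational part -/
def b (n j : ℕ) : ℚ :=
  ∑ k ∈ K1 n, (2 * A n j k * H 3 (k - 15 * n) + B n j k * H 2 (k - 15 * n))

/-- the kernel pi / (2 cosh(pi y)^2) -/
noncomputable def Ker (y : ℝ) : ℝ := Real.pi / (2 * Real.cosh (Real.pi * y) ^ 2)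

/-- the integral of g times the kernel over the line Re t = m - 1/2 -/
noncomputable def Iint (m : ℤ) (g : ℂ → ℂ) : ℂ :=
  ∫ y : ℝ, g ((m : ℂ) - 1 / 2 + (y : ℂ) * Complex.I) * (Ker y : ℂ)

/-- number of zeros minus number of poles in the residue class s mod p -/
def phi (n p s : ℕ) : ℤ :=
  (((N1 n).filter (fun i => i % p = s)).card : ℤ) + (((N2 n).filter (fun i => i % p = s)).card : ℤ) +
    (((N3 n).filter (fun i => i % p = s)).card : ℤ) - (((K1 n).filter (fun i => i % p = s)).card : ℤ) -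
    (((K2 n).filter (fun i => i % p = s)).card : ℤ)

/-- the p-adic valuation of kap n for p^2 > 40n+2 -/
def e0 (n p : ℕ) : ℤ :=
  (((21 * n + 1) / p : ℕ) : ℤ) + (((18 * n + 1) / p : ℕ) : ℤ) - ((17 * n / p : ℕ) : ℤ) -
    ((13 * n / p : ℕ) : ℤ) - ((9 * n / p : ℕ) : ℤ)

/-- all a n j and b n j, j = 0,1,2, have p-adic absolute value at most p^w -/
def PBound (n p : ℕ) (w : ℤ) : Prop :=
  ∀ j : ℕ, j ≤ 2 → padicNorm p (a n j) ≤ (p : ℚ) ^ w ∧ padicNorm p (b n j) ≤ (p : ℚ) ^ w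

/-- p divides no number d*n+e, 1 <= d <= 40, |e| <= 3 -/
def Good (n p : ℕ) : Prop :=
  ∀ d ∈ Finset.Icc 1 40, ∀ e ∈ Finset.Icc (-3 : ℤ) 3, ¬ (p : ℤ) ∣ (d : ℤ) * (n : ℤ) + e

end Pool.Agent.Z3
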