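import Pool.Agent.Z3.Defs

/-!
Definitions for the cancellation modules: the ten points, arc lengths, the polynomial P, the gap.
-/

open Finset
open scoped BigOperators

namespace Pool.Agent.Z3

/-- the five alpha points and the five beta points (file CancelDefs.lean) -/
def al (n : ℕ) : Fin 5 → ℕ := ![13 * n, 15 * n, 17 * n, 19 * n, 20 * n]
def be (n : ℕ) : Fin 5 → ℕ := ![0, 2 * n, 4 * n, 38 * n + 2, 40 * n + 2]

/-- length of the arc from beta_i to alpha_(pi i) -/
def arcLen (n p : ℕ) (pi : Equiv.Perm (Fin 5)) (i : Fin 5) : ℕ := (((al n (pi i) : ℤ) - be n i) % p).toNat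

/-- the polynomial P evaluated at s -/
def Pv (n p : ℕ) (pi : Equiv.Perm (Fin 5)) (s : ℤ) : ℤ :=
  ∏ i : Fin 5, ∏ i' ∈ range (arcLen n p pi i), ((be n i : ℤ) + i' - s)

/-- all hypotheses on the gap [s1,s2) -/
structure Gap (n p s1 s2 : ℕ) (pi : Equiv.Perm (Fin 5)) : Prop where
  hn : 1 ≤ n
  hp : p.Prime
  hp2 : 40 * n + 2 < p ^ 2
  hp5 : 5 ≤ p
  hphi : ∀ s < p, -1 ≤ phi n p s
  h12 : s1 < s2
  h2p : s2 ≤ p
  hs1 : phi n p s1 = -1
  hout : ∀ s < p, phi n p s = -1 → s1 ≤ s ∧ s < s2
  hal : ∀ i, al n i % p ≤ s1 ∨ s2 ≤ al n i % p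
  hbe : ∀ i, be n i % p ≤ s1 ∨ s2 ≤ be n i % p
  harc : ∀ i, ((al n (pi i) : ℤ) - be n i) % p ≤ ((s1 : ℤ) - be n i) % p

theorem card_range_block (p s g : ℕ) (hp : 0 < p) (hs : s < p) :
    ((range g).filter (fun i => i % p = s)).card = g / p + if s < g % p then 1 else 0 := by
  have h := Nat.count_modEq_card g hp s
  rw [Nat.mod_eq_of_lt hs] at h
  rw [← h, Nat.count_eq_card_filter_range]
  congr 1
  refine Finset.filter_congr fun i _ => ?_
  rw [Nat.ModEq, Nat.mod_eq_of_lt hs]

theorem card_block (p s a b : ℕ) (hp : 0 < p) (hs : s < p) (hab : a ≤ b) :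
    (((Ico a b).filter (fun i => i % p = s)).card : ℤ) =
      (((b / p : ℕ) : ℤ) + (if s < b % p then 1 else 0)) - (((a / p : ℕ) : ℤ) + (if s < a % p then 1 else 0)) := by
  have h1 := card_range_block p s b hp hs
  have h2 := card_range_block p s a hp hs
  have h3 : ((range b).filter (fun i => i % p = s)).card =
      ((range a).filter (fun i => i % p = s)).card + ((Ico a b).filter (fun i => i % p = s)).card := by
    rw [← Finset.card_union_of_disjoint]
    · rw [← Finset.filter_union]
      congr 2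
      ext i
      simp only [mem_range, mem_union, mem_Ico]
      omega
    · apply Finset.disjoint_filter_filter
      rw [Finset.disjoint_left]
      intro i hi
      simp only [mem_range, mem_Ico] at hi ⊢
      omega
  have h4 : (((range b).filter (fun i => i % p = s)).card : ℤ) =
      (((range a).filter (fun i => i % p = s)).card : ℤ) + (((Ico a b).filter (fun i => i % p = s)).card : ℤ) := by
    exact_mod_cast h3
  rw [h1, h2] at h4
  push_cast at h4 ⊢
  linarith

/-- phi by ceilings: for s < p; (file CancelDefs.lean) -/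
theorem phi_eq (n p s : ℕ) (hp : 0 < p) (hs : s < p) :
    phi n p s = (∑ i, ((al n i / p : ℕ) : ℤ) + ∑ i, (if s < al n i % p then 1 else 0 : ℤ)) -
      (∑ i, ((be n i / p : ℕ) : ℤ) + ∑ i, (if s < be n i % p then 1 else 0 : ℤ)) := by
  unfold phi N1 N2 N3 K1 K2
  rw [card_block p s 0 (17 * n) hp hs (by omega), card_block p s (2 * n) (15 * n) hp hs (by omega),
    card_block p s (4 * n) (13 * n) hp hs (by omega), card_block p s (19 * n) (40 * n + 2) hp hs (by omega),
    card_block p s (20 * n) (38 * n + 2) hp hs (by omega)]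
  simp only [Fin.sum_univ_five, al, be, Matrix.cons_val_zero, Matrix.cons_val_one, Matrix.cons_val]
  ring_nf

end Pool.Agent.Z3
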