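import Pool.Agent.Z3.CancelDefs

/-!
The sum over the gap of (-s)^j P(s) is divisible by p.
-/

open Finset
open scoped BigOperators

namespace Pool.Agent.Z3

section Aux

variable {p : ℕ}

/-- the polynomial P over ZMod p -/
noncomputable def PvPol (p : ℕ) (be l : Fin 5 → ℕ) : Polynomial (ZMod p) :=
  ∏ m : Fin 5, ∏ i ∈ range (l m), (Polynomial.C (((be m + i : ℕ)) : ZMod p) - Polynomial.X)

theorem PvPol_eval (be l : Fin 5 → ℕ) (x : ZMod p) :
    (PvPol p be l).eval x = ∏ m : Fin 5, ∏ i ∈ range (l m), ((((be m + i : ℕ)) : ZMod p) - x) := by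
  unfold PvPol
  simp [Polynomial.eval_prod]

theorem PvPol_natDegree [Fact p.Prime] (be l : Fin 5 → ℕ) :
    (PvPol p be l).natDegree ≤ ∑ m : Fin 5, l m := by
  unfold PvPol
  refine (Polynomial.natDegree_prod_le _ _).trans ?_
  refine Finset.sum_le_sum fun m _ => ?_
  refine (Polynomial.natDegree_prod_le _ _).trans ?_
  have : ∀ i ∈ range (l m), (Polynomial.C (((be m + i : ℕ)) : ZMod p) - Polynomial.X).natDegree ≤ 1 := by
    intro i _
    refine (Polynomial.natDegree_sub_le _ _).trans (max_le ?_ Polynomial.natDegree_X_le)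
    rw [Polynomial.natDegree_C]; omega
  refine (Finset.sum_le_sum this).trans ?_
  simp

theorem sum_eval_univ [Fact p.Prime] (Q : Polynomial (ZMod p)) (hQ : Q.natDegree < p - 1) :
    ∑ x : ZMod p, Q.eval x = 0 := by
  simp_rw [Polynomial.eval_eq_sum_range]
  rw [Finset.sum_comm]
  refine Finset.sum_eq_zero fun i hi => ?_
  rw [← Finset.mul_sum, FiniteField.sum_pow_lt_card_sub_one, mul_zero]
  rw [ZMod.card]
  have := mem_range.1 hi
  omega

theorem sum_eval_range [Fact p.Prime] (Q : Polynomial (ZMod p)) (hQ : Q.natDegree < p - 1) :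
    ∑ s ∈ range p, Q.eval (s : ZMod p) = 0 := by
  rw [← sum_eval_univ Q hQ]
  refine Finset.sum_bij' (fun i _ => (i : ZMod p)) (fun x _ => x.val) ?_ ?_ ?_ ?_ ?_
  · intros; exact mem_univ _
  · intro x _; exact mem_range.2 (ZMod.val_lt x)
  · intro i hi; exact ZMod.val_cast_of_lt (mem_range.1 hi)
  · intro x _; exact ZMod.natCast_zmod_val x
  · intro i _; rfl

/-- number of elements of an arc in the class s, for one arc -/
theorem arc_count (p a b l s : ℕ) (q : ℤ) (hp : 0 < p) (hs : s < p) (h : (a : ℤ) = b + l + p * q) :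
    (((a / p : ℕ) : ℤ) + (if s < a % p then 1 else 0)) =
      (((b / p : ℕ) : ℤ) + (if s < b % p then 1 else 0)) + q +
        (((range l).filter (fun i => (b + i) % p = s)).card : ℤ) := by
  -- counts over range (b + l)
  have h1 := card_range_block p s b hp hs
  have h2 := card_range_block p s (b + l) hp hs
  have h3 : ((range (b + l)).filter (fun i => i % p = s)).card =
      ((range b).filter (fun i => i % p = s)).card +
        ((range l).filter (fun i => (b + i) % p = s)).card := by
    rw [Finset.card_filter, Finset.card_filter, Finset.card_filter, Finset.sum_range_add]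
  have h4 : (((b + l) / p : ℕ) : ℤ) + (if s < (b + l) % p then 1 else 0) =
      (((b / p : ℕ) : ℤ) + (if s < b % p then 1 else 0)) +
        (((range l).filter (fun i => (b + i) % p = s)).card : ℤ) := by
    have : (((range (b + l)).filter (fun i => i % p = s)).card : ℤ) =
      (((range b).filter (fun i => i % p = s)).card : ℤ) +
        (((range l).filter (fun i => (b + i) % p = s)).card : ℤ) := by exact_mod_cast h3
    rw [h1, h2] at this
    push_cast at this ⊢
    linarith
  have h5 : a % p = (b + l) % p ∧ ((a / p : ℕ) : ℤ) = (((b + l) / p : ℕ) : ℤ) + q := by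
    have hp0 : (p : ℤ) ≠ 0 := by exact_mod_cast hp.ne'
    constructor
    · have : (a : ℤ) % p = ((b + l : ℕ) : ℤ) % p := by
        rw [h]; push_cast; rw [Int.add_mul_emod_self_left]
      exact_mod_cast this
    · have : (a : ℤ) / p = ((b + l : ℕ) : ℤ) / p + q := by
        rw [h]; push_cast; rw [Int.add_mul_ediv_left _ _ hp0]
      exact_mod_cast this
  rw [h5.1, h5.2]
  linarith

end Aux

/-- (CancelPoly.lean) the sum over the gap vanishes mod p -/
theorem sum_Pv {n p s1 s2 : ℕ} {pi : Equiv.Perm (Fin 5)} (g : Gap n p s1 s2 pi) (j : ℕ) (hj : j ≤ 2) :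
    (p : ℤ) ∣ ∑ s ∈ Ico s1 s2, (-(s : ℤ)) ^ j * Pv n p pi s := by
  have hp := g.hp
  have : Fact p.Prime := ⟨hp⟩
  have hp0 : (0 : ℤ) < p := by exact_mod_cast hp.pos
  have h12 := g.h12
  have h2p := g.h2p
  set l : Fin 5 → ℕ := arcLen n p pi with hl
  set q : Fin 5 → ℤ := fun m => ((al n (pi m) : ℤ) - be n m) / p with hq
  have hl' : ∀ m, (l m : ℤ) = ((al n (pi m) : ℤ) - be n m) % p := by
    intro m
    rw [hl]; exact Int.toNat_of_nonneg (Int.emod_nonneg _ hp0.ne')
  have hlq : ∀ m, (al n (pi m) : ℤ) = be n m + l m + p * q m := by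
    intro m
    have h2 := Int.emod_add_mul_ediv ((al n (pi m) : ℤ) - be n m) p
    rw [hl' m]
    simp only [hq]
    linarith
  -- counts
  have hcount : ∀ s < p, phi n p s =
      ∑ m, q m + ∑ m, (((range (l m)).filter (fun i => (be n m + i) % p = s)).card : ℤ) := by
    intro s hs
    rw [phi_eq n p s hp.pos hs, ← Finset.sum_add_distrib, ← Finset.sum_add_distrib,
      ← Equiv.sum_comp pi (fun m => ((al n m / p : ℕ) : ℤ) + (if s < al n m % p then 1 else 0)),
      ← Finset.sum_sub_distrib, ← Finset.sum_add_distrib]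
    refine Finset.sum_congr rfl fun m _ => ?_
    rw [arc_count p (al n (pi m)) (be n m) (l m) s (q m) hp.pos hs (hlq m)]
    ring
  -- the arcs do not contain s1
  have hno : ∀ m, ((range (l m)).filter (fun i => (be n m + i) % p = s1)).card = 0 := by
    intro m
    rw [Finset.card_eq_zero, Finset.filter_eq_empty_iff]
    intro i hi hmod
    have hi' := mem_range.1 hi
    have hm := g.harc m
    rw [← hl' m] at hm
    have hip : (i : ℤ) < p := by
      have h3 : (l m : ℤ) < p := by rw [hl' m]; exact Int.emod_lt_of_pos _ hp0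
      have : (i : ℤ) < l m := by exact_mod_cast hi'
      linarith
    have h1 : ((s1 : ℤ) - be n m) % p = (i : ℤ) := by
      have h2 : ((be n m + i : ℕ) : ℤ) % p = (s1 : ℤ) := by exact_mod_cast hmod
      have h3 : (s1 : ℤ) ≡ be n m + i [ZMOD p] := by
        rw [Int.ModEq, ← h2, Int.emod_emod_of_dvd _ (dvd_refl _)]
        push_cast
        rfl
      have h4 : (s1 : ℤ) - be n m ≡ (be n m + i) - be n m [ZMOD p] := h3.sub_right _
      rw [Int.ModEq] at h4
      rw [h4, add_sub_cancel_left]
      exact Int.emod_eq_of_lt (by positivity) hip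
    rw [h1] at hm
    have : (i : ℤ) < l m := by exact_mod_cast hi'
    linarith
  have hqsum : ∑ m, q m = -1 := by
    have h1 := hcount s1 (by omega)
    have h2 : ∑ m, (((range (l m)).filter (fun i => (be n m + i) % p = s1)).card : ℤ) = 0 :=
      Finset.sum_eq_zero fun m _ => by rw [hno m]; rfl
    rw [g.hs1, h2] at h1
    linarith
  have hlsum : (∑ m, l m) + 4 = p := by
    have h1 : ∑ m, (al n m : ℤ) = ∑ m, (be n m : ℤ) + ∑ m, (l m : ℤ) + p * ∑ m, q m := by
      rw [← Equiv.sum_comp pi (fun m => (al n m : ℤ)), Finset.mul_sum, ← Finset.sum_add_distrib,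
        ← Finset.sum_add_distrib]
      exact Finset.sum_congr rfl fun m _ => hlq m
    have h2 : ∑ m, (be n m : ℤ) = ∑ m, (al n m : ℤ) + 4 := by
      simp only [Fin.sum_univ_five, al, be, Matrix.cons_val_zero, Matrix.cons_val_one, Matrix.cons_val]
      push_cast
      ring
    rw [hqsum] at h1
    have h3 : ((∑ m, l m + 4 : ℕ) : ℤ) = (p : ℤ) := by
      push_cast
      linarith
    exact_mod_cast h3
  -- value of P in ZMod p
  have hPv : ∀ s : ℕ, ((Pv n p pi (s : ℤ) : ℤ) : ZMod p) = (PvPol p (be n) l).eval (s : ZMod p) := by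
    intro s
    rw [PvPol_eval]
    unfold Pv
    push_cast
    rfl
  -- vanishing outside the gap
  have hout0 : ∀ s < p, ¬ (s1 ≤ s ∧ s < s2) → ((Pv n p pi (s : ℤ) : ℤ) : ZMod p) = 0 := by
    intro s hs hns
    have h2 : 0 ≤ phi n p s := by
      have h3 := g.hphi s hs
      have h4 : phi n p s ≠ -1 := fun h => hns (g.hout s hs h)
      omega
    rw [hcount s hs, hqsum] at h2
    have h3 : 0 < ∑ m, (((range (l m)).filter (fun i => (be n m + i) % p = s)).card : ℤ) := by linarith
    obtain ⟨m, _, hm⟩ := Finset.exists_ne_zero_of_sum_ne_zero h3.ne'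
    have h4 : ((range (l m)).filter (fun i => (be n m + i) % p = s)).Nonempty := by
      rw [← Finset.card_pos]
      have : ((range (l m)).filter (fun i => (be n m + i) % p = s)).card ≠ 0 := by exact_mod_cast hm
      omega
    obtain ⟨i, hi⟩ := h4
    rw [mem_filter] at hi
    rw [hPv, PvPol_eval]
    refine Finset.prod_eq_zero (mem_univ m) (Finset.prod_eq_zero hi.1 ?_)
    rw [sub_eq_zero, ZMod.natCast_eq_natCast_iff', Nat.mod_eq_of_lt hs]
    exact hi.2
  rw [← ZMod.intCast_zmod_eq_zero_iff_dvd]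
  push_cast
  have hsub : Ico s1 s2 ⊆ range p := by
    intro s hs
    rw [mem_Ico] at hs
    exact mem_range.2 (by omega)
  rw [Finset.sum_subset hsub (fun s hs hns => by
    rw [hout0 s (mem_range.1 hs) (fun h => hns (mem_Ico.2 h)), mul_zero])]
  have hfin : ∑ s ∈ range p, (-(s : ZMod p)) ^ j * ((Pv n p pi (s : ℤ) : ℤ) : ZMod p) =
      ∑ s ∈ range p, ((-Polynomial.X) ^ j * PvPol p (be n) l).eval (s : ZMod p) := by
    refine Finset.sum_congr rfl fun s _ => ?_
    rw [hPv]
    simp only [Polynomial.eval_mul, Polynomial.eval_pow, Polynomial.eval_neg, Polynomial.eval_X]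
  rw [hfin]
  apply sum_eval_range
  refine lt_of_le_of_lt Polynomial.natDegree_mul_le ?_
  have h1 : ((-Polynomial.X : Polynomial (ZMod p)) ^ j).natDegree ≤ j := by
    refine (Polynomial.natDegree_pow_le).trans ?_
    simp
  have h2 := PvPol_natDegree (p := p) (be n) l
  omega

end Pool.Agent.Z3
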