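import Pool.Agent.Z3.Defs

/-!
Definitions for the p-adic structure of the coefficients (skeleton, module STRUCT).
-/

open Finset
open scoped BigOperators

namespace Pool.Agent.Z3

/-- elements of a block congruent to k mod p, other than k -/
def cls (S : Finset ℕ) (p k : ℕ) : Finset ℕ := (S.filter (fun i => i % p = k % p)).erase k

/-- elements of a block not congruent to k mod p -/
def ncls (S : Finset ℕ) (p k : ℕ) : Finset ℕ := S.filter (fun i => i % p ≠ k % p)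

def wv (S : Finset ℕ) (p k : ℕ) : ℚ := ∏ i ∈ cls S p k, (((i / p : ℕ) : ℚ) - ((k / p : ℕ) : ℚ))

def lv (S : Finset ℕ) (p k : ℕ) : ℚ := ∑ i ∈ cls S p k, 1 / (((i / p : ℕ) : ℚ) - ((k / p : ℕ) : ℚ))

def uv (S : Finset ℕ) (p k : ℕ) : ℚ := ∏ i ∈ ncls S p k, ((i : ℚ) - k)

def W (n p k : ℕ) : ℚ := wv (N1 n) p k * wv (N2 n) p k * wv (N3 n) p k / (wv (K1 n) p k * wv (K2 n) p k)

def Lam (n p k : ℕ) : ℚ := lv (N1 n) p k + lv (N2 n) p k + lv (N3 n) p k - lv (K1 n) p k - lv (K2 n) p k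

def U (n p k : ℕ) : ℚ := uv (N1 n) p k * uv (N2 n) p k * uv (N3 n) p k / (uv (K1 n) p k * uv (K2 n) p k)

end Pool.Agent.Z3
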