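import Pool.Agent.Z3.CancelFp
import Pool.Agent.Z3.CancelDefs
import Pool.Agent.Z3.StructDefs

/-!
The unit part of the coefficients is congruent to a constant times the polynomial P on the gap.
-/

open Finset
open scoped BigOperators

namespace Pool.Agent.Z3

/-- the integer version of the product over a block -/
def uz (S : Finset ℕ) (p k : ℕ) : ℤ := ∏ i ∈ ncls S p k, ((i : ℤ) - k)

theorem uv_eq_uz (S : Finset ℕ) (p k : ℕ) : uv S p k = (uz S p k : ℚ) := by
  unfold uv uz
  push_cast
  rfl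

theorem uz_block {p : ℕ} [Fact p.Prime] (a b k : ℕ) (hab : a ≤ b) :
    Th p a (k % p) * ((uz (Ico a b) p k : ℤ) : ZMod p) = Th p b (k % p) := by
  unfold Th uz ncls
  rw [← Finset.prod_range_mul_prod_Ico _ hab]
  congr 1
  rw [Finset.prod_filter]
  push_cast
  refine Finset.prod_congr rfl fun i _ => ?_
  have hk : ((k % p : ℕ) : ZMod p) = (k : ZMod p) := ZMod.natCast_mod k p
  by_cases h : i % p = k % p
  · rw [if_pos h, if_neg (not_not.2 h)]
  · rw [if_neg h, if_pos h]
    try rw [hk]

theorem neg_one_zpow_cast {p : ℕ} [Fact p.Prime] (q : ℤ) :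
    (-1 : ZMod p) ^ q = (((-1 : ℤ) ^ q.natAbs : ℤ) : ZMod p) := by
  push_cast
  rcases Int.natAbs_eq q with h | h
  · conv_lhs => rw [h]
    rw [zpow_natCast]
  · conv_lhs => rw [h]
    rw [zpow_neg, zpow_natCast, ← inv_pow, inv_neg_one]

/-- the values of the theta products on the gap -/
theorem Th_gap {n p s1 s2 : ℕ} {pi : Equiv.Perm (Fin 5)} (g : Gap n p s1 s2 pi) [Fact p.Prime]
    (s : ℕ) (h1 : s1 ≤ s) (h2 : s < s2) :
    ∏ m, Th p (al n m) s =
      ((∏ m, (-1 : ZMod p) ^ (((al n (pi m) : ℤ) - be n m) / p)) * ((Pv n p pi (s : ℤ) : ℤ) : ZMod p)) *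
        ∏ m, Th p (be n m) s := by
  have hp := g.hp
  have hp0 : (0 : ℤ) < p := by exact_mod_cast hp.pos
  have h12 := g.h12
  have h2p := g.h2p
  set l : Fin 5 → ℕ := arcLen n p pi with hl
  set q : Fin 5 → ℤ := fun m => ((al n (pi m) : ℤ) - be n m) / p with hq
  have hl' : ∀ m, (l m : ℤ) = ((al n (pi m) : ℤ) - be n m) % p := by
    intro m
    rw [hl]; exact Int.toNat_of_nonneg (Int.emod_nonneg _ hp0.ne')
  have hlq : ∀ m, (al n (pi m) : ℤ) = be n m + l m + p * q m := by
    intro m
    have h2 := Int.emod_add_mul_ediv ((al n (pi m) : ℤ) - be n m) p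
    rw [hl' m]
    simp only [hq]
    linarith
  have hllt : ∀ m, (l m : ℤ) ≤ ((s1 : ℤ) - be n m) % p := by
    intro m
    rw [hl' m]; exact g.harc m
  have hsp : s < p := by omega
  -- no arc contains s
  have hno : ∀ m, ∀ i ∈ range (l m), ¬ (be n m + i) % p = s := by
    intro m i hi hmod
    have hi' := mem_range.1 hi
    have hm := hllt m
    have hb := g.hbe m
    have hbp : be n m % p < p := Nat.mod_lt _ hp.pos
    have hbdiv := Nat.mod_add_div (be n m) p
    set r := be n m % p with hr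
    set d := be n m / p with hd
    have hcast : ((s1 : ℤ) - be n m) % p = ((s1 : ℤ) - r) % p := by
      have : (be n m : ℤ) = r + p * d := by exact_mod_cast hbdiv.symm
      rw [this]
      have : (s1 : ℤ) - (r + p * d) = (s1 - r) + p * (-d) := by ring
      rw [this, Int.add_mul_emod_self_left]
    rw [hcast] at hm
    have hmod2 : (r + i) % p = s := by
      have : be n m + i = (r + i) + p * d := by omega
      rw [this, Nat.add_mul_mod_self_left] at hmod
      exact hmod
    rcases hb with hb | hb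
    · have h1 : ((s1 : ℤ) - r) % p = s1 - r := by
        apply Int.emod_eq_of_lt
        · have : (r : ℤ) ≤ s1 := by exact_mod_cast hb
          linarith
        · have : (s1 : ℤ) < p := by exact_mod_cast (by omega : s1 < p)
          have : (0 : ℤ) ≤ r := by positivity
          linarith
      rw [h1] at hm
      have h2 : r + i < s1 := by
        have : (l m : ℤ) + r ≤ s1 := by linarith
        have : l m + r ≤ s1 := by exact_mod_cast this
        omega
      rw [Nat.mod_eq_of_lt (by omega)] at hmod2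
      omega
    · have h1 : ((s1 : ℤ) - r) % p = s1 - r + p := by
        rw [← Int.add_emod_right]
        apply Int.emod_eq_of_lt
        · have : (r : ℤ) < p := by exact_mod_cast hbp
          have : (0 : ℤ) ≤ s1 := by positivity
          linarith
        · have : (s1 : ℤ) < r := by exact_mod_cast (by omega : s1 < r)
          linarith
      rw [h1] at hm
      have h2 : r + i < s1 + p := by
        have : (l m : ℤ) + r ≤ s1 + p := by linarith
        have : l m + r ≤ s1 + p := by exact_mod_cast this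
        omega
      by_cases h3 : r + i < p
      · rw [Nat.mod_eq_of_lt h3] at hmod2
        omega
      · rw [Nat.mod_eq_sub_mod (by omega), Nat.mod_eq_of_lt (by omega)] at hmod2
        omega
  have hPv : ((Pv n p pi (s : ℤ) : ℤ) : ZMod p) =
      ∏ m : Fin 5, ∏ i ∈ range (l m), (((be n m + i : ℕ) : ZMod p) - (s : ZMod p)) := by
    unfold Pv
    push_cast
    rfl
  rw [hPv, ← Equiv.prod_comp pi (fun m => Th p (al n m) s), ← Finset.prod_mul_distrib,
    ← Finset.prod_mul_distrib]
  refine Finset.prod_congr rfl fun m _ => ?_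
  rw [(arc_rel (al n (pi m)) (be n m) (l m) s (q m) (hlq m) hsp).1, Th_add]
  have h3 : ∏ i ∈ range (l m), (if (be n m + i) % p = s then (1 : ZMod p)
      else (((be n m + i : ℕ) : ZMod p) - (s : ZMod p))) =
      ∏ i ∈ range (l m), (((be n m + i : ℕ) : ZMod p) - (s : ZMod p)) := by
    refine Finset.prod_congr rfl fun i hi => ?_
    rw [if_neg (hno m i hi)]
  rw [h3]
  ring

/-- (CancelU.lean) the unit part is a constant times P -/
theorem U_congr {n p s1 s2 : ℕ} {pi : Equiv.Perm (Fin 5)} (g : Gap n p s1 s2 pi) :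
    ∃ c : ℚ, padicNorm p c ≤ 1 ∧ ∀ k ∈ K1 n, s1 ≤ k % p → k % p < s2 →
      padicNorm p (U n p k - c * (Pv n p pi (k % p : ℕ) : ℚ)) ≤ 1 / p := by
  have hp := g.hp
  have : Fact p.Prime := ⟨hp⟩
  set e : ℤ := ∏ m, (-1 : ℤ) ^ ((((al n (pi m) : ℤ) - be n m) / p)).natAbs with he
  refine ⟨(e : ℚ), padicNorm.of_int e, fun k hk hs1 hs2 => ?_⟩
  set s := k % p with hs
  have hsp : s < p := Nat.mod_lt _ hp.pos
  set X : ℤ := uz (N1 n) p k * uz (N2 n) p k * uz (N3 n) p k with hX
  set Y : ℤ := uz (K1 n) p k * uz (K2 n) p k with hY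
  have hU : U n p k = (X : ℚ) / (Y : ℚ) := by
    unfold U
    rw [uv_eq_uz, uv_eq_uz, uv_eq_uz, uv_eq_uz, uv_eq_uz, hX, hY]
    push_cast
    rfl
  have t1 := uz_block (p := p) 0 (17 * n) k (by omega)
  have t2 := uz_block (p := p) (2 * n) (15 * n) k (by omega)
  have t3 := uz_block (p := p) (4 * n) (13 * n) k (by omega)
  have t4 := uz_block (p := p) (19 * n) (40 * n + 2) k (by omega)
  have t5 := uz_block (p := p) (20 * n) (38 * n + 2) k (by omega)
  rw [← hs] at t1 t2 t3 t4 t5
  have hT := Th_gap g s hs1 hs2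
  have hec : (∏ m, (-1 : ZMod p) ^ (((al n (pi m) : ℤ) - be n m) / p)) = ((e : ℤ) : ZMod p) := by
    rw [he, Int.cast_prod]
    exact Finset.prod_congr rfl fun m _ => neg_one_zpow_cast _
  rw [hec] at hT
  have hal : ∏ m, Th p (al n m) s = Th p (13 * n) s * Th p (15 * n) s * Th p (17 * n) s *
      Th p (19 * n) s * Th p (20 * n) s := by
    simp only [Fin.prod_univ_five, al, Matrix.cons_val_zero, Matrix.cons_val_one, Matrix.cons_val]
  have hbe : ∏ m, Th p (be n m) s = Th p 0 s * Th p (2 * n) s * Th p (4 * n) s *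
      Th p (38 * n + 2) s * Th p (40 * n + 2) s := by
    simp only [Fin.prod_univ_five, be, Matrix.cons_val_zero, Matrix.cons_val_one, Matrix.cons_val]
  rw [hal, hbe] at hT
  have hne : ∀ g : ℕ, Th p g s ≠ 0 := fun g => Th_ne_zero g s hsp
  have hYne : ((Y : ℤ) : ZMod p) ≠ 0 := by
    rw [hY]
    push_cast
    intro h0
    rcases mul_eq_zero.1 h0 with h0 | h0
    · have : Th p (40 * n + 2) s = 0 := by
        rw [← t4]
        unfold K1 at h0
        rw [h0, mul_zero]
      exact hne _ this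
    · have : Th p (38 * n + 2) s = 0 := by
        rw [← t5]
        unfold K2 at h0
        rw [h0, mul_zero]
      exact hne _ this
  have hXY : ((X : ℤ) : ZMod p) = (e : ZMod p) * ((Pv n p pi (s : ℤ) : ℤ) : ZMod p) * ((Y : ℤ) : ZMod p) := by
    have hA : Th p 0 s * Th p (2 * n) s * Th p (4 * n) s * Th p (19 * n) s * Th p (20 * n) s ≠ 0 :=
      mul_ne_zero (mul_ne_zero (mul_ne_zero (mul_ne_zero (hne _) (hne _)) (hne _)) (hne _)) (hne _)
    apply mul_left_cancel₀ hA
    have e1 : Th p 0 s * Th p (2 * n) s * Th p (4 * n) s * Th p (19 * n) s * Th p (20 * n) s *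
        ((X : ℤ) : ZMod p) = Th p (13 * n) s * Th p (15 * n) s * Th p (17 * n) s *
      Th p (19 * n) s * Th p (20 * n) s := by
      rw [← t1, ← t2, ← t3, hX]
      unfold N1 N2 N3
      push_cast
      ring
    have e2 : Th p 0 s * Th p (2 * n) s * Th p (4 * n) s * Th p (19 * n) s * Th p (20 * n) s *
        ((e : ZMod p) * ((Pv n p pi (s : ℤ) : ℤ) : ZMod p) * ((Y : ℤ) : ZMod p)) =
        (e : ZMod p) * ((Pv n p pi (s : ℤ) : ℤ) : ZMod p) * (Th p 0 s * Th p (2 * n) s * Th p (4 * n) s *
      Th p (38 * n + 2) s * Th p (40 * n + 2) s) := by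
      rw [← t4, ← t5, hY]
      unfold K1 K2
      push_cast
      ring
    rw [e1, e2, hT]
  have hdvd : (p : ℤ) ∣ X - e * Pv n p pi (s : ℤ) * Y := by
    rw [← ZMod.intCast_zmod_eq_zero_iff_dvd]
    push_cast
    rw [hXY, sub_self]
  have hYn : padicNorm p (Y : ℚ) = 1 := by
    rw [padicNorm.int_eq_one_iff]
    intro h
    exact hYne ((ZMod.intCast_zmod_eq_zero_iff_dvd _ _).2 h)
  have hY0 : (Y : ℚ) ≠ 0 := by
    intro h
    rw [h, padicNorm.zero] at hYn
    exact zero_ne_one hYn
  have hfin : U n p k - (e : ℚ) * ((Pv n p pi (s : ℤ) : ℤ) : ℚ) =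
      ((X - e * Pv n p pi (s : ℤ) * Y : ℤ) : ℚ) / (Y : ℚ) := by
    rw [hU]
    push_cast
    field_simp
  have hle : padicNorm p ((X - e * Pv n p pi (s : ℤ) * Y : ℤ) : ℚ) ≤ 1 / p := by
    have := (padicNorm.dvd_iff_norm_le (p := p) (n := 1) (z := X - e * Pv n p pi (s : ℤ) * Y)).1
      (by rwa [pow_one])
    rw [one_div]
    simpa using this
  rw [hfin, padicNorm.div, hYn, div_one]
  exact hle

end Pool.Agent.Z3
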