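import Pool.Agent.Z3.Shift

/-!
Module NONVAN: for every complex number l one of the three linear forms j = 0, 1, 2 differs from l times
its leading coefficient.  The functional Phi Q = Iint m (Q G) - l * 2 * sum Q(-k) A0 k vanishes on all
telescoping polynomials, and is not zero on Den(t) Num(2c-t).
-/

open Finset Polynomial MeasureTheory

namespace Pool.Agent.Z3

namespace NV

/-! ### polynomials -/

/-- block polynomial -/
noncomputable def blk (a b : ℕ) : ℂ[X] := ∏ i ∈ Ico a b, (X + C (i : ℂ))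

theorem blk_monic (a b : ℕ) : (blk a b).Monic :=
  monic_prod_of_monic _ _ (fun _ _ => monic_X_add_C _)

theorem blk_natDegree (a b : ℕ) : (blk a b).natDegree = b - a := by
  have h : ∀ i ∈ Ico a b, (X + C (i : ℂ)).natDegree = 1 := fun i _ => natDegree_X_add_C _
  unfold blk
  rw [natDegree_prod_of_monic _ _ (fun _ _ => monic_X_add_C _), sum_congr rfl h]
  simp

theorem blk_eval (a b : ℕ) (t : ℂ) : (blk a b).eval t = ∏ i ∈ Ico a b, (t + (i : ℂ)) := by
  unfold blk
  rw [eval_prod]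
  simp

theorem blk_taylor (a b : ℕ) (h : a ≤ b) :
    (X + C (a : ℂ)) * taylor 1 (blk a b) = blk a b * (X + C (b : ℂ)) := by
  induction b, h using Nat.le_induction with
  | base => simp [blk]
  | succ b hb ih =>
    have e : blk a (b + 1) = blk a b * (X + C (b : ℂ)) := by
      unfold blk
      rw [prod_Ico_succ_top hb]
    have e2 : taylor (1 : ℂ) (X + C (b : ℂ)) = X + C ((b + 1 : ℕ) : ℂ) := by
      rw [map_add, taylor_X, taylor_C]
      push_cast
      rw [C_add]
      ring
    rw [e, taylor_mul, ← mul_assoc, ih, e2]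

/-- numerator, denominator -/
noncomputable def numP (n : ℕ) : ℂ[X] := blk 0 (17 * n) * blk (2 * n) (15 * n) * blk (4 * n) (13 * n)

noncomputable def denP (n : ℕ) : ℂ[X] := blk (19 * n) (40 * n + 2) * blk (20 * n) (38 * n + 2)

noncomputable def AP (n : ℕ) : ℂ[X] :=
  (X + C (((13 * n : ℕ)) : ℂ)) * (X + C (((15 * n : ℕ)) : ℂ)) * (X + C (((17 * n : ℕ)) : ℂ)) *
    (X + C (((19 * n : ℕ)) : ℂ)) * (X + C (((20 * n : ℕ)) : ℂ))

noncomputable def BP (n : ℕ) : ℂ[X] :=
  (X + C (-1 : ℂ)) * (X + C ((2 * n : ℂ) - 1)) * (X + C ((4 * n : ℂ) - 1)) *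
    (X + C ((38 * n : ℂ) + 1)) * (X + C ((40 * n : ℂ) + 1))

theorem numP_eval (n : ℕ) (t : ℂ) : (numP n).eval t = num n t := by
  unfold numP num N1 N2 N3
  rw [eval_mul, eval_mul, blk_eval, blk_eval, blk_eval]

theorem denP_eval (n : ℕ) (t : ℂ) : (denP n).eval t = den n t := by
  unfold denP den K1 K2
  rw [eval_mul, blk_eval, blk_eval]

theorem numP_monic (n : ℕ) : (numP n).Monic :=
  ((blk_monic _ _).mul (blk_monic _ _)).mul (blk_monic _ _)

theorem denP_monic (n : ℕ) : (denP n).Monic := (blk_monic _ _).mul (blk_monic _ _)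

theorem numP_natDegree (n : ℕ) : (numP n).natDegree = 39 * n := by
  unfold numP
  rw [((blk_monic _ _).mul (blk_monic _ _)).natDegree_mul (blk_monic _ _),
    (blk_monic _ _).natDegree_mul (blk_monic _ _), blk_natDegree, blk_natDegree, blk_natDegree]
  omega

theorem denP_natDegree (n : ℕ) : (denP n).natDegree = 39 * n + 4 := by
  unfold denP
  rw [(blk_monic _ _).natDegree_mul (blk_monic _ _), blk_natDegree, blk_natDegree]
  omega

theorem BP_taylor (n : ℕ) : taylor 1 (BP n) =
    (X + C (((0 : ℕ)) : ℂ)) * (X + C (((2 * n : ℕ)) : ℂ)) * (X + C (((4 * n : ℕ)) : ℂ)) *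
    (X + C (((38 * n + 2 : ℕ)) : ℂ)) * (X + C (((40 * n + 2 : ℕ)) : ℂ)) := by
  have e : ∀ x : ℂ, taylor (1 : ℂ) (X + C x) = X + C (x + 1) := by
    intro x
    rw [map_add, taylor_X, taylor_C, C_add]
    ring
  unfold BP
  rw [taylor_mul, taylor_mul, taylor_mul, taylor_mul, e, e, e, e, e]
  have h0 : (-1 : ℂ) + 1 = ((0 : ℕ) : ℂ) := by norm_num
  have h1 : (2 * n : ℂ) - 1 + 1 = ((2 * n : ℕ) : ℂ) := by push_cast; ring
  have h2 : (4 * n : ℂ) - 1 + 1 = ((4 * n : ℕ) : ℂ) := by push_cast; ring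
  have h3 : (38 * n : ℂ) + 1 + 1 = ((38 * n + 2 : ℕ) : ℂ) := by push_cast; ring
  have h4 : (40 * n : ℂ) + 1 + 1 = ((40 * n + 2 : ℕ) : ℂ) := by push_cast; ring
  rw [h0, h1, h2, h3, h4]

/-- the shift identity of the rational function -/
theorem shift_identity (n : ℕ) :
    taylor 1 (BP n) * taylor 1 (numP n) * denP n = AP n * numP n * taylor 1 (denP n) := by
  have h1 := blk_taylor 0 (17 * n) (by omega)
  have h2 := blk_taylor (2 * n) (15 * n) (by omega)
  have h3 := blk_taylor (4 * n) (13 * n) (by omega)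
  have h4 := blk_taylor (19 * n) (40 * n + 2) (by omega)
  have h5 := blk_taylor (20 * n) (38 * n + 2) (by omega)
  rw [BP_taylor]
  unfold numP denP AP
  rw [taylor_mul, taylor_mul, taylor_mul]
  calc (X + C (((0 : ℕ)) : ℂ)) * (X + C (((2 * n : ℕ)) : ℂ)) * (X + C (((4 * n : ℕ)) : ℂ)) *
        (X + C (((38 * n + 2 : ℕ)) : ℂ)) * (X + C (((40 * n + 2 : ℕ)) : ℂ)) *
        (taylor 1 (blk 0 (17 * n)) * taylor 1 (blk (2 * n) (15 * n)) *
          taylor 1 (blk (4 * n) (13 * n))) * (blk (19 * n) (40 * n + 2) * blk (20 * n) (38 * n + 2))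
      = ((X + C (((0 : ℕ)) : ℂ)) * taylor 1 (blk 0 (17 * n))) *
        ((X + C (((2 * n : ℕ)) : ℂ)) * taylor 1 (blk (2 * n) (15 * n))) *
        ((X + C (((4 * n : ℕ)) : ℂ)) * taylor 1 (blk (4 * n) (13 * n))) *
        (blk (19 * n) (40 * n + 2) * (X + C (((40 * n + 2 : ℕ)) : ℂ))) *
        (blk (20 * n) (38 * n + 2) * (X + C (((38 * n + 2 : ℕ)) : ℂ))) := by ring
    _ = (blk 0 (17 * n) * (X + C (((17 * n : ℕ)) : ℂ))) *
        (blk (2 * n) (15 * n) * (X + C (((15 * n : ℕ)) : ℂ))) *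
        (blk (4 * n) (13 * n) * (X + C (((13 * n : ℕ)) : ℂ))) *
        ((X + C (((19 * n : ℕ)) : ℂ)) * taylor 1 (blk (19 * n) (40 * n + 2))) *
        ((X + C (((20 * n : ℕ)) : ℂ)) * taylor 1 (blk (20 * n) (38 * n + 2))) := by
        rw [h1, h2, h3, h4, h5]
    _ = _ := by ring

/-- telescoping polynomials -/
noncomputable def ES (n : ℕ) (S : ℂ[X]) : ℂ[X] := taylor 1 S * AP n - S * BP n

theorem ES_add (n : ℕ) (S T : ℂ[X]) : ES n (S + T) = ES n S + ES n T := by
  unfold ES
  rw [map_add]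
  ring

theorem ES_C_mul (n : ℕ) (c : ℂ) (S : ℂ[X]) : ES n (C c * S) = C c * ES n S := by
  unfold ES
  rw [taylor_mul, taylor_C]
  ring

theorem AP_monic (n : ℕ) : (AP n).Monic :=
  ((((monic_X_add_C _).mul (monic_X_add_C _)).mul (monic_X_add_C _)).mul (monic_X_add_C _)).mul
    (monic_X_add_C _)

theorem BP_monic (n : ℕ) : (BP n).Monic :=
  ((((monic_X_add_C _).mul (monic_X_add_C _)).mul (monic_X_add_C _)).mul (monic_X_add_C _)).mul
    (monic_X_add_C _)

theorem AP_natDegree (n : ℕ) : (AP n).natDegree = 5 := by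
  unfold AP
  compute_degree!

theorem BP_natDegree (n : ℕ) : (BP n).natDegree = 5 := by
  unfold BP
  compute_degree!

theorem five_next (a b c d e : ℂ) :
    ((X + C a) * (X + C b) * (X + C c) * (X + C d) * (X + C e)).nextCoeff = a + b + c + d + e := by
  have m1 := monic_X_add_C a
  have m2 := m1.mul (monic_X_add_C b)
  have m3 := m2.mul (monic_X_add_C c)
  have m4 := m3.mul (monic_X_add_C d)
  rw [m4.nextCoeff_mul (monic_X_add_C e), m3.nextCoeff_mul (monic_X_add_C d),
    m2.nextCoeff_mul (monic_X_add_C c), m1.nextCoeff_mul (monic_X_add_C b)]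
  simp [nextCoeff_X_add_C]

theorem AP_next (n : ℕ) : (AP n).nextCoeff = 84 * n := by
  unfold AP
  rw [five_next]
  push_cast
  ring

theorem BP_next (n : ℕ) : (BP n).nextCoeff = 84 * n - 1 := by
  unfold BP
  rw [five_next]
  ring

theorem ES_X_pow (n d : ℕ) :
    (ES n (X ^ d)).natDegree ≤ d + 4 ∧ (ES n (X ^ d)).coeff (d + 4) = (d : ℂ) + 1 := by
  have t1 : taylor (1 : ℂ) (X ^ d) = (X + C 1) ^ d := by
    rw [taylor_pow, taylor_X]
  have mp : ((X + C (1 : ℂ)) ^ d * AP n).Monic := ((monic_X_add_C _).pow d).mul (AP_monic n)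
  have mq : (X ^ d * BP n : ℂ[X]).Monic := ((monic_X).pow d).mul (BP_monic n)
  have dp : ((X + C (1 : ℂ)) ^ d * AP n).natDegree = d + 5 := by
    rw [((monic_X_add_C _).pow d).natDegree_mul (AP_monic n), (monic_X_add_C _).natDegree_pow,
      natDegree_X_add_C, AP_natDegree, mul_one]
  have dq : (X ^ d * BP n : ℂ[X]).natDegree = d + 5 := by
    rw [((monic_X).pow d).natDegree_mul (BP_monic n), natDegree_X_pow, BP_natDegree]
  have np : ((X + C (1 : ℂ)) ^ d * AP n).nextCoeff = (d : ℂ) + 84 * n := by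
    rw [((monic_X_add_C _).pow d).nextCoeff_mul (AP_monic n), (monic_X_add_C _).nextCoeff_pow,
      nextCoeff_X_add_C, AP_next]
    simp
  have nq : (X ^ d * BP n : ℂ[X]).nextCoeff = 84 * n - 1 := by
    have : (X : ℂ[X]).nextCoeff = 0 := by
      have := nextCoeff_X_add_C (0 : ℂ)
      simpa using this
    rw [((monic_X).pow d).nextCoeff_mul (BP_monic n), (monic_X).nextCoeff_pow, this, BP_next]
    simp
  have cp : ((X + C (1 : ℂ)) ^ d * AP n).coeff (d + 4) = (d : ℂ) + 84 * n := by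
    rw [← np, nextCoeff_of_natDegree_pos (by omega), dp]
    rfl
  have cq : (X ^ d * BP n : ℂ[X]).coeff (d + 4) = 84 * n - 1 := by
    rw [← nq, nextCoeff_of_natDegree_pos (by omega), dq]
    rfl
  constructor
  · unfold ES
    rw [t1]
    rw [natDegree_le_iff_coeff_eq_zero]
    intro N hN
    rw [coeff_sub]
    rcases Nat.lt_or_ge (d + 5) N with h | h
    · rw [coeff_eq_zero_of_natDegree_lt (by omega), coeff_eq_zero_of_natDegree_lt (by omega),
        sub_zero]
    · have hN5 : N = d + 5 := by omega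
      have h1 := mp.coeff_natDegree
      have h2 := mq.coeff_natDegree
      rw [dp] at h1
      rw [dq] at h2
      rw [hN5, h1, h2, sub_self]
  · unfold ES
    rw [t1, coeff_sub, cp, cq]
    ring

theorem decomp_aux (n : ℕ) : ∀ D : ℕ, ∀ Q : ℂ[X], Q.natDegree ≤ D →
    ∃ S q : ℂ[X], Q = q + ES n S ∧ q.natDegree ≤ 3 := by
  intro D
  induction D with
  | zero =>
    intro Q hQ
    refine ⟨0, Q, ?_, by omega⟩
    simp [ES]
  | succ D ih =>
    intro Q hQ
    rcases Nat.lt_or_ge D 3 with h3 | h3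
    · refine ⟨0, Q, ?_, by omega⟩
      simp [ES]
    · obtain ⟨d, rfl⟩ : ∃ d, D = d + 3 := ⟨D - 3, by omega⟩
      obtain ⟨e1, e2⟩ := ES_X_pow n d
      have hd : ((d : ℂ) + 1) ≠ 0 := by exact_mod_cast Nat.succ_ne_zero d
      set c : ℂ := Q.coeff (d + 4) / ((d : ℂ) + 1) with hc
      have hQ' : (Q - C c * ES n (X ^ d)).natDegree ≤ d + 3 := by
        rw [natDegree_le_iff_coeff_eq_zero]
        intro N hN
        rw [coeff_sub, coeff_C_mul]
        rcases Nat.lt_or_ge (d + 4) N with h | h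
        · rw [coeff_eq_zero_of_natDegree_lt (by omega), coeff_eq_zero_of_natDegree_lt (by omega)]
          simp
        · have hN5 : N = d + 4 := by omega
          rw [hN5, e2, hc]
          field_simp
          ring
      obtain ⟨S, q, h1, h2⟩ := ih _ hQ'
      refine ⟨S + C c * X ^ d, q, ?_, h2⟩
      rw [ES_add, ES_C_mul, ← add_assoc, ← h1]
      ring

theorem decomp (n : ℕ) (Q : ℂ[X]) : ∃ S q : ℂ[X], Q = q + ES n S ∧ q.natDegree ≤ 3 :=
  decomp_aux n _ Q le_rfl

/-- the cubic coefficient of the remainder of a multiple of the denominator vanishes -/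
theorem cubic_zero (n : ℕ) (W S q : ℂ[X]) (h : denP n * W = q + ES n S) (hq : q.natDegree ≤ 3) :
    q.coeff 3 = 0 := by
  set Z : ℂ[X] := S * BP n * numP n with hZ
  set P0 : ℂ[X] := Z /ₘ denP n with hP0
  set U : ℂ[X] := Z %ₘ denP n with hU
  have hdiv : U + denP n * P0 = Z := modByMonic_add_div Z (denP n)
  have hUd : U.natDegree < (denP n).natDegree := by
    refine natDegree_modByMonic_lt Z (denP_monic n) ?_
    intro h1
    have := denP_natDegree n
    rw [h1, natDegree_one] at this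
    omega
  rw [denP_natDegree] at hUd
  have hsh := shift_identity n
  have hmain : denP n * taylor 1 (denP n) * (W * numP n - (taylor 1 P0 - P0)) =
      q * numP n * taylor 1 (denP n) + (taylor 1 U * denP n - U * taylor 1 (denP n)) := by
    have h1 : denP n * taylor 1 (denP n) * (W * numP n) =
        q * numP n * taylor 1 (denP n) + (taylor 1 Z * denP n - Z * taylor 1 (denP n)) := by
      calc denP n * taylor 1 (denP n) * (W * numP n)
          = (denP n * W) * numP n * taylor 1 (denP n) := by ring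
        _ = (q + (taylor 1 S * AP n - S * BP n)) * numP n * taylor 1 (denP n) := by
            rw [h]; rfl
        _ = q * numP n * taylor 1 (denP n) + (taylor 1 S * (AP n * numP n * taylor 1 (denP n)) -
              S * BP n * numP n * taylor 1 (denP n)) := by ring
        _ = q * numP n * taylor 1 (denP n) +
              (taylor 1 S * (taylor 1 (BP n) * taylor 1 (numP n) * denP n) -
              S * BP n * numP n * taylor 1 (denP n)) := by rw [hsh]
        _ = _ := by
            rw [hZ, taylor_mul, taylor_mul]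
            ring
    have h2 : taylor 1 Z = taylor 1 U + taylor 1 (denP n) * taylor 1 P0 := by
      rw [← hdiv, map_add, taylor_mul]
    rw [mul_sub, h1, h2, ← hdiv]
    ring
  have hdD : (denP n).natDegree = 39 * n + 4 := denP_natDegree n
  have hdT : (taylor (1 : ℂ) (denP n)).natDegree = 39 * n + 4 := by
    rw [natDegree_taylor, hdD]
  have hdTU : (taylor (1 : ℂ) U).natDegree ≤ 39 * n + 3 := by
    rw [natDegree_taylor]; omega
  have cU : (taylor (1 : ℂ) U).coeff (39 * n + 3) = U.coeff (39 * n + 3) := by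
    rcases Nat.lt_or_ge U.natDegree (39 * n + 3) with h3 | h3
    · rw [coeff_eq_zero_of_natDegree_lt h3, coeff_eq_zero_of_natDegree_lt]
      rw [natDegree_taylor]; exact h3
    · have h4 : U.natDegree = 39 * n + 3 := by omega
      have h5 : (taylor (1 : ℂ) U).leadingCoeff = U.leadingCoeff := by
        exact leadingCoeff_taylor ..
      unfold leadingCoeff at h5
      rw [natDegree_taylor, h4] at h5
      exact h5
  have cD : (denP n).coeff (39 * n + 4) = 1 := by
    have := (denP_monic n).coeff_natDegree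
    rwa [hdD] at this
  have cT : (taylor (1 : ℂ) (denP n)).coeff (39 * n + 4) = 1 := by
    have h5 : (taylor (1 : ℂ) (denP n)).leadingCoeff = (denP n).leadingCoeff := by
      exact leadingCoeff_taylor ..
    rw [(denP_monic n).leadingCoeff] at h5
    unfold leadingCoeff at h5
    rwa [hdT] at h5
  have cN : (numP n).coeff (39 * n) = 1 := by
    have := (numP_monic n).coeff_natDegree
    rwa [numP_natDegree] at this
  have hrhs : (q * numP n * taylor 1 (denP n) +
      (taylor 1 U * denP n - U * taylor 1 (denP n))).natDegree ≤ 78 * n + 7 := by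
    refine (natDegree_add_le _ _).trans (max_le ?_ ((natDegree_sub_le _ _).trans (max_le ?_ ?_)))
    · refine natDegree_mul_le.trans ?_
      have h6 : (q * numP n).natDegree ≤ 39 * n + 3 := by
        refine natDegree_mul_le.trans ?_
        rw [numP_natDegree]
        omega
      omega
    · refine natDegree_mul_le.trans ?_
      omega
    · refine natDegree_mul_le.trans ?_
      omega
  have hR : W * numP n - (taylor 1 P0 - P0) = 0 := by
    by_contra hne
    have h7 : (denP n * taylor 1 (denP n)).Monic := by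
      refine (denP_monic n).mul ?_
      unfold Monic leadingCoeff
      rw [hdT]
      exact cT
    have h8 : (denP n * taylor 1 (denP n) * (W * numP n - (taylor 1 P0 - P0))).natDegree =
        (denP n * taylor 1 (denP n)).natDegree + (W * numP n - (taylor 1 P0 - P0)).natDegree :=
      natDegree_mul h7.ne_zero hne
    have h9 : (denP n * taylor 1 (denP n)).natDegree = 78 * n + 8 := by
      rw [natDegree_mul (denP_monic n).ne_zero (by
        intro h0
        rw [h0] at cT
        simp at cT), hdD, hdT]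
      ring
    rw [hmain] at h8
    omega
  rw [hR, mul_zero] at hmain
  have hco : (q * numP n * taylor 1 (denP n) +
      (taylor 1 U * denP n - U * taylor 1 (denP n))).coeff (78 * n + 7) = 0 := by
    rw [← hmain, coeff_zero]
  rw [coeff_add, coeff_sub] at hco
  have e1 : (q * numP n * taylor 1 (denP n)).coeff (78 * n + 7) = q.coeff 3 := by
    have h6 : (q * numP n).natDegree ≤ 3 + 39 * n := by
      refine natDegree_mul_le.trans ?_
      rw [numP_natDegree]
      omega
    have h7 := coeff_mul_add_eq_of_natDegree_le h6 hdT.le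
    have h8 := coeff_mul_add_eq_of_natDegree_le hq (numP_natDegree n).le
    rw [show 3 + 39 * n + (39 * n + 4) = 78 * n + 7 by ring, h8, cN, cT] at h7
    rw [h7]; ring
  have e2 : (taylor 1 U * denP n).coeff (78 * n + 7) = U.coeff (39 * n + 3) := by
    have h7 := coeff_mul_add_eq_of_natDegree_le hdTU hdD.le
    rw [show 39 * n + 3 + (39 * n + 4) = 78 * n + 7 by ring, cU, cD] at h7
    rw [h7]; ring
  have e3 : (U * taylor 1 (denP n)).coeff (78 * n + 7) = U.coeff (39 * n + 3) := by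
    have h7 := coeff_mul_add_eq_of_natDegree_le (show U.natDegree ≤ 39 * n + 3 by omega) hdT.le
    rw [show 39 * n + 3 + (39 * n + 4) = 78 * n + 7 by ring, cT] at h7
    rw [h7]; ring
  rw [e1, e2, e3] at hco
  simpa using hco

/-! ### the coefficients A0 -/

theorem A0_step (n k : ℕ) (hn : 1 ≤ n) (hk : k ∈ K1 n) :
    (AP n).eval (-(k : ℂ)) * ((A0 n k : ℚ) : ℂ) =
      (BP n).eval (-(k : ℂ) + 1) * ((A0 n (k - 1) : ℚ) : ℂ) := by
  rw [K1, mem_Ico] at hk
  obtain ⟨hk1, hk2⟩ := hk
  rcases lt_trichotomy k (20 * n) with h | h | h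
  · have h1 : A0 n k = 0 := by
      unfold A0 K2
      rw [if_neg (by rw [mem_Ico]; omega)]
    have h2 : A0 n (k - 1) = 0 := by
      unfold A0 K2
      rw [if_neg (by rw [mem_Ico]; omega)]
    rw [h1, h2]
    simp
  · have h1 : (AP n).eval (-(k : ℂ)) = 0 := by
      unfold AP
      simp [h]
    have h2 : A0 n (k - 1) = 0 := by
      unfold A0 K2
      rw [if_neg (by rw [mem_Ico]; omega)]
    rw [h1, h2]
    simp
  · rcases lt_trichotomy k (38 * n + 2) with h' | h' | h'
    · obtain ⟨r, hr⟩ : ∃ r, k = 20 * n + r + 1 := ⟨k - 20 * n - 1, by omega⟩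
      have hr2 : r ≤ 18 * n := by omega
      subst hr
      obtain ⟨u, hu⟩ : ∃ u, 18 * n = r + u := ⟨18 * n - r, by omega⟩
      have huC : (18 * n : ℂ) = r + u := by exact_mod_cast hu
      have m1 : 20 * n + r + 1 ∈ K2 n := by rw [K2, mem_Ico]; omega
      have m2 : 20 * n + r + 1 - 1 ∈ K2 n := by rw [K2, mem_Ico]; omega
      unfold A0
      rw [if_pos m1, if_pos m2]
      have c1 := Nat.choose_mul_succ_eq (20 * n + r) (17 * n)
      have c2 := Nat.choose_mul_succ_eq (18 * n + r) (13 * n)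
      have c3 := Nat.choose_mul_succ_eq (16 * n + r) (9 * n)
      have c4 := Nat.choose_succ_right_eq (21 * n + 1) (n + r)
      have c5 := Nat.choose_succ_right_eq (18 * n + 1) r
      rw [show 20 * n + r + 1 - 17 * n = 3 * n + r + 1 by omega] at c1
      rw [show 18 * n + r + 1 - 13 * n = 5 * n + r + 1 by omega] at c2
      rw [show 16 * n + r + 1 - 9 * n = 7 * n + r + 1 by omega] at c3
      rw [show 21 * n + 1 - (n + r) = 2 * n + u + 1 by omega] at c4
      rw [show 18 * n + 1 - r = u + 1 by omega] at c5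
      rw [show 20 * n + r + 1 - 1 = 20 * n + r by omega,
        show 20 * n + r + 1 - 2 * n = 18 * n + r + 1 by omega,
        show 20 * n + r + 1 - 4 * n = 16 * n + r + 1 by omega,
        show 20 * n + r + 1 - 19 * n = n + r + 1 by omega,
        show 20 * n + r + 1 - 20 * n = r + 1 by omega,
        show 20 * n + r - 2 * n = 18 * n + r by omega,
        show 20 * n + r - 4 * n = 16 * n + r by omega,
        show 20 * n + r - 19 * n = n + r by omega,
        show 20 * n + r - 20 * n = r by omega]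
      have d1 : ((20 * n + r).choose (17 * n) : ℂ) * (20 * n + r + 1) =
          ((20 * n + r + 1).choose (17 * n) : ℂ) * (3 * n + r + 1) := by exact_mod_cast c1
      have d2 : ((18 * n + r).choose (13 * n) : ℂ) * (18 * n + r + 1) =
          ((18 * n + r + 1).choose (13 * n) : ℂ) * (5 * n + r + 1) := by exact_mod_cast c2
      have d3 : ((16 * n + r).choose (9 * n) : ℂ) * (16 * n + r + 1) =
          ((16 * n + r + 1).choose (9 * n) : ℂ) * (7 * n + r + 1) := by exact_mod_cast c3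
      have d4 : ((21 * n + 1).choose (n + r + 1) : ℂ) * (n + r + 1) =
          ((21 * n + 1).choose (n + r) : ℂ) * (2 * n + u + 1) := by exact_mod_cast c4
      have d5 : ((18 * n + 1).choose (r + 1) : ℂ) * (r + 1) =
          ((18 * n + 1).choose r : ℂ) * (u + 1) := by exact_mod_cast c5
      have eA : (AP n).eval (-((20 * n + r + 1 : ℕ) : ℂ)) =
          -((7 * n + r + 1) * (5 * n + r + 1) * (3 * n + r + 1) * (n + r + 1) * (r + 1) : ℂ) := by
        unfold AP
        simp only [eval_mul, eval_add, eval_X, eval_C]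
        push_cast
        ring
      have eB : (BP n).eval (-((20 * n + r + 1 : ℕ) : ℂ) + 1) =
          -((20 * n + r + 1) * (18 * n + r + 1) * (16 * n + r + 1) * (u + 1) *
            (2 * n + u + 1) : ℂ) := by
        unfold BP
        simp only [eval_mul, eval_add, eval_X, eval_C]
        push_cast
        have e38 : (38 * n : ℂ) = 20 * n + (r + u) := by rw [← huC]; ring
        have e40 : (40 * n : ℂ) = 22 * n + (r + u) := by rw [← huC]; ring
        rw [e38, e40]
        ring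
      rw [eA, eB]
      push_cast
      calc -((7 * n + r + 1) * (5 * n + r + 1) * (3 * n + r + 1) * (n + r + 1) * (r + 1) : ℂ) *
            (((20 * n + r + 1).choose (17 * n) : ℂ) * ((18 * n + r + 1).choose (13 * n) : ℂ) *
              ((16 * n + r + 1).choose (9 * n) : ℂ) * ((21 * n + 1).choose (n + r + 1) : ℂ) *
              ((18 * n + 1).choose (r + 1) : ℂ))
          = -((((20 * n + r + 1).choose (17 * n) : ℂ) * (3 * n + r + 1)) *
              (((18 * n + r + 1).choose (13 * n) : ℂ) * (5 * n + r + 1)) *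
              (((16 * n + r + 1).choose (9 * n) : ℂ) * (7 * n + r + 1)) *
              (((21 * n + 1).choose (n + r + 1) : ℂ) * (n + r + 1)) *
              (((18 * n + 1).choose (r + 1) : ℂ) * (r + 1))) := by ring
        _ = -((((20 * n + r).choose (17 * n) : ℂ) * (20 * n + r + 1)) *
              (((18 * n + r).choose (13 * n) : ℂ) * (18 * n + r + 1)) *
              (((16 * n + r).choose (9 * n) : ℂ) * (16 * n + r + 1)) *
              (((21 * n + 1).choose (n + r) : ℂ) * (2 * n + u + 1)) *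
              (((18 * n + 1).choose r : ℂ) * (u + 1))) := by rw [d1, d2, d3, d4, d5]
        _ = _ := by ring
    · have h1 : A0 n k = 0 := by
        unfold A0 K2
        rw [if_neg (by rw [mem_Ico]; omega)]
      have h2 : (BP n).eval (-(k : ℂ) + 1) = 0 := by
        unfold BP
        simp only [eval_mul, eval_add, eval_X, eval_C]
        rw [h']
        push_cast
        ring
      rw [h1, h2]
      simp
    · have h1 : A0 n k = 0 := by
        unfold A0 K2
        rw [if_neg (by rw [mem_Ico]; omega)]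
      have h2 : A0 n (k - 1) = 0 := by
        unfold A0 K2
        rw [if_neg (by rw [mem_Ico]; omega)]
      rw [h1, h2]
      simp

theorem sum_ES (n : ℕ) (hn : 1 ≤ n) (S : ℂ[X]) :
    ∑ k ∈ K1 n, (ES n S).eval (-(k : ℂ)) * ((A0 n k : ℚ) : ℂ) = 0 := by
  set T : ℕ → ℂ := fun k => S.eval (-(k : ℂ) + 1) * (BP n).eval (-(k : ℂ) + 1) *
    ((A0 n (k - 1) : ℚ) : ℂ) with hT
  have h1 : ∀ k ∈ K1 n, (ES n S).eval (-(k : ℂ)) * ((A0 n k : ℚ) : ℂ) = T k - T (k + 1) := by
    intro k hk
    have h := A0_step n k hn hk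
    have e : -((k + 1 : ℕ) : ℂ) + 1 = -(k : ℂ) := by push_cast; ring
    simp only [hT]
    rw [e, Nat.add_sub_cancel]
    unfold ES
    rw [eval_sub, eval_mul, eval_mul, taylor_eval, sub_mul, mul_assoc, h]
    ring
  rw [sum_congr rfl h1]
  unfold K1
  rw [sum_Ico_eq_sum_range]
  have h2 : ∀ M : ℕ, ∑ k ∈ range M, (T (19 * n + k) - T (19 * n + k + 1)) =
      T (19 * n) - T (19 * n + M) := by
    intro M
    induction M with
    | zero => simp
    | succ M ih =>
      rw [sum_range_succ, ih]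
      rw [show 19 * n + (M + 1) = 19 * n + M + 1 by ring]
      ring
  rw [h2]
  have h3 : T (19 * n) = 0 := by
    have : A0 n (19 * n - 1) = 0 := by
      unfold A0 K2
      rw [if_neg (by rw [mem_Ico]; omega)]
    simp only [hT]
    rw [this]
    simp
  have h4 : T (19 * n + (40 * n + 2 - 19 * n)) = 0 := by
    have : A0 n (19 * n + (40 * n + 2 - 19 * n) - 1) = 0 := by
      unfold A0 K2
      rw [if_neg (by rw [mem_Ico]; omega)]
    simp only [hT]
    rw [this]
    simp
  rw [h3, h4, sub_zero]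

/-! ### growth in the strip -/

theorem pg_mul (m : ℤ) (f g : ℂ → ℂ) (hf : PolyGrowth m f) (hg : PolyGrowth m g) :
    PolyGrowth m (fun t => f t * g t) := by
  obtain ⟨C1, d1, h1⟩ := hf
  obtain ⟨C2, d2, h2⟩ := hg
  refine ⟨C1 * C2, d1 + d2, ?_⟩
  intro t ht1 ht2
  have a1 := h1 t ht1 ht2
  have a2 := h2 t ht1 ht2
  rw [norm_mul]
  calc ‖f t‖ * ‖g t‖ ≤ (C1 * (1 + |t.im|) ^ d1) * (C2 * (1 + |t.im|) ^ d2) :=
        mul_le_mul a1 a2 (norm_nonneg _) (le_trans (norm_nonneg _) a1)
    _ = C1 * C2 * (1 + |t.im|) ^ (d1 + d2) := by rw [pow_add]; ring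

theorem pg_add (m : ℤ) (f g : ℂ → ℂ) (hf : PolyGrowth m f) (hg : PolyGrowth m g) :
    PolyGrowth m (fun t => f t + g t) := by
  obtain ⟨C1, d1, h1⟩ := hf
  obtain ⟨C2, d2, h2⟩ := hg
  refine ⟨|C1| + |C2|, d1 + d2, ?_⟩
  intro t ht1 ht2
  have a1 := h1 t ht1 ht2
  have a2 := h2 t ht1 ht2
  have hx : (1 : ℝ) ≤ 1 + |t.im| := by linarith [abs_nonneg t.im]
  have p1 : (1 + |t.im|) ^ d1 ≤ (1 + |t.im|) ^ (d1 + d2) := pow_le_pow_right₀ hx (by omega)
  have p2 : (1 + |t.im|) ^ d2 ≤ (1 + |t.im|) ^ (d1 + d2) := pow_le_pow_right₀ hx (by omega)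
  have q1 : 0 ≤ (1 + |t.im|) ^ d1 := by positivity
  have q2 : 0 ≤ (1 + |t.im|) ^ d2 := by positivity
  calc ‖f t + g t‖ ≤ ‖f t‖ + ‖g t‖ := norm_add_le _ _
    _ ≤ C1 * (1 + |t.im|) ^ d1 + C2 * (1 + |t.im|) ^ d2 := add_le_add a1 a2
    _ ≤ |C1| * (1 + |t.im|) ^ d1 + |C2| * (1 + |t.im|) ^ d2 :=
        add_le_add (mul_le_mul_of_nonneg_right (le_abs_self _) q1)
          (mul_le_mul_of_nonneg_right (le_abs_self _) q2)
    _ ≤ |C1| * (1 + |t.im|) ^ (d1 + d2) + |C2| * (1 + |t.im|) ^ (d1 + d2) :=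
        add_le_add (mul_le_mul_of_nonneg_left p1 (abs_nonneg _))
          (mul_le_mul_of_nonneg_left p2 (abs_nonneg _))
    _ = _ := by ring

theorem pg_const (m : ℤ) (c : ℂ) : PolyGrowth m (fun _ => c) :=
  ⟨‖c‖, 0, fun t _ _ => by simp⟩

theorem pg_id (m : ℤ) : PolyGrowth m (fun t => t) := by
  refine ⟨|(m : ℝ)| + 1, 1, ?_⟩
  intro t h1 h2
  have h3 : ‖t‖ ≤ |t.re| + |t.im| := Complex.norm_le_abs_re_add_abs_im t
  have h4 : |t.re| ≤ |(m : ℝ)| + 1 := by
    rw [abs_le]
    constructor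
    · have := neg_abs_le (m : ℝ)
      linarith
    · have := le_abs_self (m : ℝ)
      linarith
  have h5 : 0 ≤ |t.im| := abs_nonneg _
  have h6 : 0 ≤ |(m : ℝ)| := abs_nonneg _
  rw [pow_one]
  nlinarith

theorem pg_poly (m : ℤ) (P : ℂ[X]) : PolyGrowth m (fun t => P.eval t) := by
  induction P using Polynomial.induction_on with
  | C a => simpa using pg_const m a
  | add p q hp hq => simpa using pg_add m _ _ hp hq
  | monomial n a h =>
    have e : (fun t => (C a * X ^ (n + 1) : ℂ[X]).eval t) =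
        fun t : ℂ => (C a * X ^ n : ℂ[X]).eval t * t := by
      funext t
      simp only [eval_mul, eval_C, eval_pow, eval_X]
      ring
    rw [e]
    exact pg_mul m _ _ h (pg_id m)

/-! ### the rational function near the line -/

/-- the half plane on which everything is analytic -/
def Us (n : ℕ) : Set ℂ := {t : ℂ | -(19 * n : ℝ) < t.re}

theorem Us_open (n : ℕ) : IsOpen (Us n) := isOpen_lt continuous_const Complex.continuous_re

theorem den_ne (n : ℕ) (t : ℂ) (ht : t ∈ Us n) : den n t ≠ 0 := by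
  have ht' : -(19 * n : ℝ) < t.re := ht
  have h : ∀ i : ℕ, 19 * n ≤ i → t + (i : ℂ) ≠ 0 := by
    intro i hi h0
    have h1 : (t + (i : ℂ)).re = 0 := by rw [h0]; simp
    rw [Complex.add_re, Complex.natCast_re] at h1
    have h2 : (19 * n : ℝ) ≤ i := by exact_mod_cast hi
    linarith
  unfold den K1 K2
  refine mul_ne_zero (prod_ne_zero_iff.mpr ?_) (prod_ne_zero_iff.mpr ?_)
  · intro i hi
    rw [mem_Ico] at hi
    exact h i hi.1
  · intro i hi
    rw [mem_Ico] at hi
    exact h i (by omega)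

theorem strip_mem (N : ℕ) (hN : 1 ≤ N) (t : ℂ)
    (h : ((-(25 * (N : ℤ)) : ℤ) : ℝ) - 1 / 2 ≤ t.re) : t ∈ Us (4 * N) := by
  have h1 : (1 : ℝ) ≤ N := by exact_mod_cast hN
  show -(19 * ((4 * N : ℕ) : ℝ)) < t.re
  push_cast at h ⊢
  linarith

theorem den_norm (N : ℕ) (hN : 1 ≤ N) (t : ℂ)
    (h : ((-(25 * (N : ℤ)) : ℤ) : ℝ) - 1 / 2 ≤ t.re) : 1 ≤ ‖den (4 * N) t‖ := by
  have h1 : (1 : ℝ) ≤ N := by exact_mod_cast hN
  push_cast at h
  have hf : ∀ i : ℕ, 76 * N ≤ i → 1 ≤ ‖t + (i : ℂ)‖ := by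
    intro i hi
    have h2 : (76 * N : ℝ) ≤ i := by exact_mod_cast hi
    have h3 : (t + (i : ℂ)).re ≤ ‖t + (i : ℂ)‖ := Complex.re_le_norm _
    rw [Complex.add_re, Complex.natCast_re] at h3
    linarith
  unfold den K1 K2
  rw [norm_mul, norm_prod, norm_prod]
  refine one_le_mul_of_one_le_of_one_le ?_ ?_
  · refine Finset.one_le_prod ?_
    intro i hi
    rw [mem_Ico] at hi
    exact hf i (by omega)
  · refine Finset.one_le_prod ?_
    intro i hi
    rw [mem_Ico] at hi
    exact hf i (by omega)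

/-- polynomial times the rational function -/
noncomputable def PG (n : ℕ) (P : ℂ[X]) (t : ℂ) : ℂ := P.eval t * G n 0 t

theorem PG_eq (n : ℕ) (P : ℂ[X]) (t : ℂ) :
    PG n P t = (C ((kap n : ℚ) : ℂ) * P * numP n).eval t * (den n t)⁻¹ := by
  unfold PG G
  rw [eval_mul, eval_mul, numP_eval, eval_C, pow_zero, div_eq_mul_inv]
  ring

theorem PG_diff (n : ℕ) (P : ℂ[X]) : DifferentiableOn ℂ (PG n P) (Us n) := by
  have e : PG n P = fun t => (C ((kap n : ℚ) : ℂ) * P * numP n).eval t * ((denP n).eval t)⁻¹ := by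
    funext t
    rw [PG_eq, denP_eval]
  rw [e]
  refine DifferentiableOn.mul (Polynomial.differentiable _).differentiableOn ?_
  refine DifferentiableOn.inv (Polynomial.differentiable _).differentiableOn ?_
  intro t ht
  rw [denP_eval]
  exact den_ne n t ht

theorem PG_growth (N : ℕ) (hN : 1 ≤ N) (P : ℂ[X]) :
    PolyGrowth (-(25 * (N : ℤ))) (PG (4 * N) P) := by
  obtain ⟨C0, d, h⟩ := pg_poly (-(25 * (N : ℤ))) (C ((kap (4 * N) : ℚ) : ℂ) * P * numP (4 * N))
  refine ⟨C0, d, ?_⟩
  intro t h1 h2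
  rw [PG_eq, norm_mul, norm_inv]
  have h3 := h t h1 h2
  have h4 := den_norm N hN t h1
  have h5 : ‖den (4 * N) t‖⁻¹ ≤ 1 := inv_le_one_of_one_le₀ h4
  calc ‖(C ((kap (4 * N) : ℚ) : ℂ) * P * numP (4 * N)).eval t‖ * ‖den (4 * N) t‖⁻¹
      ≤ ‖(C ((kap (4 * N) : ℚ) : ℂ) * P * numP (4 * N)).eval t‖ * 1 :=
        mul_le_mul_of_nonneg_left h5 (norm_nonneg _)
    _ ≤ _ := by rw [mul_one]; exact h3

theorem PG_int (N : ℕ) (hN : 1 ≤ N) (P : ℂ[X]) (m' : ℤ)
    (hm' : m' = -(25 * (N : ℤ)) ∨ m' = -(25 * (N : ℤ)) + 1) :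
    Integrable (fun y : ℝ => PG (4 * N) P ((m' : ℂ) - 1 / 2 + (y : ℂ) * Complex.I) * (Ker y : ℂ)) :=
  line_integrable (-(25 * (N : ℤ))) (PG (4 * N) P) (Us (4 * N)) (Us_open _)
    (fun t h1 _ => strip_mem N hN t h1) (PG_diff _ _) (PG_growth N hN P) m' hm'

theorem PG_shift (n : ℕ) (S : ℂ[X]) (t : ℂ) (h1 : t ∈ Us n) (h2 : t + 1 ∈ Us n) :
    PG n (ES n S) t = PG n (S * BP n) (t + 1) - PG n (S * BP n) t := by
  have hd1 := den_ne n t h1
  have hd2 := den_ne n (t + 1) h2
  have hs := congrArg (fun P : ℂ[X] => P.eval t) (shift_identity n)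
  simp only [eval_mul, taylor_eval, numP_eval, denP_eval] at hs
  unfold PG G ES
  simp only [eval_mul, eval_sub, taylor_eval, pow_zero, mul_one]
  field_simp
  linear_combination (-(S.eval (t + 1)) * ((kap n : ℚ) : ℂ)) * hs

theorem Iint_ES (N : ℕ) (hN : 1 ≤ N) (S : ℂ[X]) :
    Iint (-(25 * (N : ℤ))) (PG (4 * N) (ES (4 * N) S)) = 0 := by
  set m : ℤ := -(25 * (N : ℤ)) with hm
  set n : ℕ := 4 * N with hn
  have hN1 : (1 : ℝ) ≤ N := by exact_mod_cast hN
  have hsh := Iint_shift m (PG n (S * BP n)) (Us n) (Us_open _)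
    (fun t h1 _ => strip_mem N hN t h1) (PG_diff _ _) (PG_growth N hN _)
  have hder : deriv (PG n (S * BP n)) (m : ℂ) = 0 := by
    have e : PG n (S * BP n) = fun t : ℂ => (t - (m : ℂ)) ^ 2 *
        ((C ((kap n : ℚ) : ℂ) * (S * BP n)).eval t *
          ((∏ i ∈ (N1 n).erase (25 * N), (t + (i : ℂ))) *
          (∏ i ∈ (N2 n).erase (25 * N), (t + (i : ℂ))) * ∏ i ∈ N3 n, (t + (i : ℂ))) *
          (den n t)⁻¹) := by
      funext t
      have m1 : 25 * N ∈ N1 n := by rw [N1, mem_Ico]; omega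
      have m2 : 25 * N ∈ N2 n := by rw [N2, mem_Ico]; omega
      have e1 := mul_prod_erase (N1 n) (fun i : ℕ => t + (i : ℂ)) m1
      have e2 := mul_prod_erase (N2 n) (fun i : ℕ => t + (i : ℂ)) m2
      have e3 : (t - (m : ℂ)) = t + ((25 * N : ℕ) : ℂ) := by
        rw [hm]; push_cast; ring
      unfold PG G num
      simp only [eval_mul, eval_C]
      rw [← e1, ← e2, e3, pow_zero, div_eq_mul_inv]
      ring
    rw [e]
    have hR : DifferentiableAt ℂ (fun t : ℂ => (C ((kap n : ℚ) : ℂ) * (S * BP n)).eval t *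
          ((∏ i ∈ (N1 n).erase (25 * N), (t + (i : ℂ))) *
          (∏ i ∈ (N2 n).erase (25 * N), (t + (i : ℂ))) * ∏ i ∈ N3 n, (t + (i : ℂ))) *
          (den n t)⁻¹) (m : ℂ) := by
      have hden : (fun t : ℂ => (den n t)⁻¹) = fun t => ((denP n).eval t)⁻¹ := by
        funext t
        rw [denP_eval]
      have hmem : (m : ℂ) ∈ Us n := by
        refine strip_mem N hN _ ?_
        rw [Complex.intCast_re]
        linarith
      have h4 : DifferentiableAt ℂ (fun t : ℂ => (den n t)⁻¹) (m : ℂ) := by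
        rw [hden]
        refine DifferentiableAt.inv (Polynomial.differentiable _).differentiableAt ?_
        rw [denP_eval]
        exact den_ne n _ hmem
      have hp : ∀ s : Finset ℕ, DifferentiableAt ℂ (fun t : ℂ => ∏ i ∈ s, (t + (i : ℂ))) (m : ℂ) := by
        intro s
        refine DifferentiableAt.fun_finsetProd ?_
        intro i _
        exact (differentiableAt_id).add_const _
      exact (((Polynomial.differentiable _).differentiableAt).mul
        (((hp _).mul (hp _)).mul (hp _))).mul h4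
    have h5 : DifferentiableAt ℂ (fun t : ℂ => (t - (m : ℂ)) ^ 2) (m : ℂ) := by fun_prop
    rw [deriv_fun_mul h5 hR]
    have h6 : deriv (fun t : ℂ => (t - (m : ℂ)) ^ 2) (m : ℂ) = 0 := by
      have h7 : HasDerivAt (fun t : ℂ => (t - (m : ℂ)) ^ 2)
          ((2 : ℕ) * ((m : ℂ) - (m : ℂ)) ^ (2 - 1) * 1) (m : ℂ) :=
        ((hasDerivAt_id (m : ℂ)).sub_const (m : ℂ)).pow 2
      rw [h7.deriv]
      simp
    rw [h6]
    simp
  rw [hder, neg_zero] at hsh
  have hI : Iint m (PG n (ES n S)) = Iint (m + 1) (PG n (S * BP n)) - Iint m (PG n (S * BP n)) := by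
    unfold Iint
    rw [← integral_sub (PG_int N hN _ (m + 1) (Or.inr rfl)) (PG_int N hN _ m (Or.inl rfl))]
    refine integral_congr_ae (Filter.Eventually.of_forall ?_)
    intro y
    have hre : ((m : ℂ) - 1 / 2 + (y : ℂ) * Complex.I).re = (m : ℝ) - 1 / 2 := line_re m y
    have h1 : ((m : ℂ) - 1 / 2 + (y : ℂ) * Complex.I) ∈ Us n :=
      strip_mem N hN _ (by rw [hre])
    have h2 : ((m : ℂ) - 1 / 2 + (y : ℂ) * Complex.I) + 1 ∈ Us n := by
      refine strip_mem N hN _ ?_
      rw [Complex.add_re, hre, Complex.one_re]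
      linarith
    have h3 := PG_shift n S _ h1 h2
    have h4 : ((m : ℂ) - 1 / 2 + (y : ℂ) * Complex.I) + 1 =
        (((m + 1 : ℤ) : ℂ) - 1 / 2 + (y : ℂ) * Complex.I) := by push_cast; ring
    show PG n (ES n S) ((m : ℂ) - 1 / 2 + (y : ℂ) * Complex.I) * (Ker y : ℂ) = _
    rw [h3, h4]
    ring
  rw [hI]
  linear_combination -hsh

/-- positivity of the integral on the special polynomial -/
theorem Iint_star (N : ℕ) (hN : 1 ≤ N) :
    Iint (-(25 * (N : ℤ))) (PG (4 * N)
      (denP (4 * N) * (numP (4 * N)).comp (C (2 * (((-(25 * (N : ℤ)) : ℤ)) : ℂ) - 1) - X))) ≠ 0 := by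
  set m : ℤ := -(25 * (N : ℤ)) with hm
  set n : ℕ := 4 * N with hn
  set Q : ℂ[X] := denP n * (numP n).comp (C (2 * (m : ℂ) - 1) - X) with hQ
  have hkap : 0 < (kap n : ℝ) := by
    have : 0 < kap n := by
      unfold kap
      positivity
    exact_mod_cast this
  have key : ∀ y : ℝ, PG n Q ((m : ℂ) - 1 / 2 + (y : ℂ) * Complex.I) * (Ker y : ℂ) =
      (((kap n : ℝ) * ‖num n ((m : ℂ) - 1 / 2 + (y : ℂ) * Complex.I)‖ ^ 2 * Ker y : ℝ) : ℂ) := by
    intro y
    set t : ℂ := (m : ℂ) - 1 / 2 + (y : ℂ) * Complex.I with ht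
    have hre : t.re = (m : ℝ) - 1 / 2 := line_re m y
    have h1 : t ∈ Us n := strip_mem N hN _ (by rw [hre])
    have hd := den_ne n t h1
    have hconj : 2 * (m : ℂ) - 1 - t = (starRingEnd ℂ) t := by
      rw [ht]
      simp only [map_add, map_sub, map_mul, map_div₀, map_one, map_ofNat, Complex.conj_ofReal,
        Complex.conj_I, map_intCast]
      ring
    have hnum : num n ((starRingEnd ℂ) t) = (starRingEnd ℂ) (num n t) := by
      unfold num
      simp only [map_mul, map_prod, map_add, map_natCast]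
    have h2 : PG n Q t = (kap n : ℂ) * ((starRingEnd ℂ) (num n t) * num n t) := by
      unfold PG G
      rw [hQ, eval_mul, eval_comp, denP_eval, numP_eval]
      simp only [eval_sub, eval_C, eval_X]
      rw [hconj, hnum, pow_zero]
      field_simp
    rw [h2, Complex.conj_mul']
    push_cast
    ring
  unfold Iint
  rw [integral_congr_ae (Filter.Eventually.of_forall key), integral_complex_ofReal]
  have hint : Integrable (fun y : ℝ => (kap n : ℝ) *
      ‖num n ((m : ℂ) - 1 / 2 + (y : ℂ) * Complex.I)‖ ^ 2 * Ker y) := by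
    have h := PG_int N hN Q m (Or.inl rfl)
    have h2 := (h.congr (Filter.Eventually.of_forall key)).re
    refine h2.congr (Filter.Eventually.of_forall ?_)
    intro y
    exact Complex.ofReal_re _
  have hnn : ∀ y : ℝ, 0 < (kap n : ℝ) *
      ‖num n ((m : ℂ) - 1 / 2 + (y : ℂ) * Complex.I)‖ ^ 2 * Ker y := by
    intro y
    have h1 : num n ((m : ℂ) - 1 / 2 + (y : ℂ) * Complex.I) ≠ 0 := by
      have hf : ∀ i : ℕ, ((m : ℂ) - 1 / 2 + (y : ℂ) * Complex.I) + (i : ℂ) ≠ 0 := by
        intro i h0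
        have h3 : (((m : ℂ) - 1 / 2 + (y : ℂ) * Complex.I) + (i : ℂ)).re = 0 := by rw [h0]; simp
        rw [Complex.add_re, line_re, Complex.natCast_re] at h3
        have h4 : (2 * (m + i) : ℤ) = 1 := by
          have h5 : ((2 * (m + i) : ℤ) : ℝ) = ((1 : ℤ) : ℝ) := by
            push_cast
            linarith
          exact_mod_cast h5
        omega
      unfold num
      refine mul_ne_zero (mul_ne_zero ?_ ?_) ?_ <;>
      exact prod_ne_zero_iff.mpr (fun i _ => hf i)
    have h2 : 0 < ‖num n ((m : ℂ) - 1 / 2 + (y : ℂ) * Complex.I)‖ := norm_pos_iff.mpr h1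
    have h3 := Ker_pos y
    positivity
  have hpos : 0 < ∫ y : ℝ, (kap n : ℝ) *
      ‖num n ((m : ℂ) - 1 / 2 + (y : ℂ) * Complex.I)‖ ^ 2 * Ker y := by
    rw [integral_pos_iff_support_of_nonneg (fun y => (hnn y).le) hint]
    have : Function.support (fun y : ℝ => (kap n : ℝ) *
        ‖num n ((m : ℂ) - 1 / 2 + (y : ℂ) * Complex.I)‖ ^ 2 * Ker y) = Set.univ := by
      ext y
      simp only [Function.mem_support, Set.mem_univ, iff_true]
      exact (hnn y).ne'
    rw [this]
    simp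
  exact_mod_cast hpos.ne'

/-- the functional -/
noncomputable def Ph (N : ℕ) (l : ℂ) (Q : ℂ[X]) : ℂ :=
  Iint (-(25 * (N : ℤ))) (PG (4 * N) Q) -
    l * (2 * ∑ k ∈ K1 (4 * N), Q.eval (-(k : ℂ)) * ((A0 (4 * N) k : ℚ) : ℂ))

theorem Ph_add (N : ℕ) (hN : 1 ≤ N) (l : ℂ) (P Q : ℂ[X]) : Ph N l (P + Q) = Ph N l P + Ph N l Q := by
  have h1 : Iint (-(25 * (N : ℤ))) (PG (4 * N) (P + Q)) =
      Iint (-(25 * (N : ℤ))) (PG (4 * N) P) + Iint (-(25 * (N : ℤ))) (PG (4 * N) Q) := by
    unfold Iint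
    rw [← integral_add (PG_int N hN P _ (Or.inl rfl)) (PG_int N hN Q _ (Or.inl rfl))]
    refine integral_congr_ae (Filter.Eventually.of_forall ?_)
    intro y
    simp only [PG, eval_add]
    ring
  have h2 : ∑ k ∈ K1 (4 * N), (P + Q).eval (-(k : ℂ)) * ((A0 (4 * N) k : ℚ) : ℂ) =
      ∑ k ∈ K1 (4 * N), P.eval (-(k : ℂ)) * ((A0 (4 * N) k : ℚ) : ℂ) +
      ∑ k ∈ K1 (4 * N), Q.eval (-(k : ℂ)) * ((A0 (4 * N) k : ℚ) : ℂ) := by
    rw [← sum_add_distrib]
    refine sum_congr rfl ?_
    intro k _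
    rw [eval_add]
    ring
  unfold Ph
  rw [h1, h2]
  ring

theorem Ph_monomial (N j : ℕ) (l c : ℂ) :
    Ph N l (C c * X ^ j) = c * (Iint (-(25 * (N : ℤ))) (G (4 * N) j) -
      l * ((a (4 * N) j : ℚ) : ℂ)) := by
  have h1 : Iint (-(25 * (N : ℤ))) (PG (4 * N) (C c * X ^ j)) =
      c * Iint (-(25 * (N : ℤ))) (G (4 * N) j) := by
    unfold Iint
    rw [← integral_const_mul]
    refine integral_congr_ae (Filter.Eventually.of_forall ?_)
    intro y
    simp only [PG, G, eval_mul, eval_C, eval_pow, eval_X, pow_zero]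
    ring
  have h2 : 2 * ∑ k ∈ K1 (4 * N), (C c * X ^ j : ℂ[X]).eval (-(k : ℂ)) *
      ((A0 (4 * N) k : ℚ) : ℂ) = c * ((a (4 * N) j : ℚ) : ℂ) := by
    unfold a A
    push_cast
    rw [mul_sum, mul_sum, mul_sum]
    refine sum_congr rfl ?_
    intro k _
    simp only [eval_mul, eval_C, eval_pow, eval_X]
    ring
  unfold Ph
  rw [h1, h2]
  ring

end NV

/-- one of the three forms is not l times its leading coefficient -/
theorem nonvanish (N : ℕ) (hN : 1 ≤ N) (l : ℂ) :
    ∃ j : ℕ, j ≤ 2 ∧ Iint (-(25 * (N : ℤ))) (G (4 * N) j) ≠ l * ((a (4 * N) j : ℚ) : ℂ) := by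
  by_contra hcon
  push Not at hcon
  set n : ℕ := 4 * N with hn
  set W : ℂ[X] := (NV.numP n).comp (C (2 * (((-(25 * (N : ℤ)) : ℤ)) : ℂ) - 1) - X) with hW
  obtain ⟨S, q, h1, h2⟩ := NV.decomp n (NV.denP n * W)
  have h3 := NV.cubic_zero n W S q h1 h2
  have hq : NV.Ph N l q = 0 := by
    have e : q = C (q.coeff 0) * X ^ 0 + (C (q.coeff 1) * X ^ 1 + C (q.coeff 2) * X ^ 2) := by
      have h4 := q.as_sum_range_C_mul_X_pow' (show q.natDegree < 4 by omega)
      rw [sum_range_succ, sum_range_succ, sum_range_succ, sum_range_succ, sum_range_zero, h3] at h4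
      rw [h4]
      simp
      ring
    rw [e, NV.Ph_add N hN, NV.Ph_add N hN, NV.Ph_monomial, NV.Ph_monomial, NV.Ph_monomial]
    rw [hcon 0 (by omega), hcon 1 (by omega), hcon 2 (by omega)]
    ring
  have hES : NV.Ph N l (NV.ES n S) = 0 := by
    unfold NV.Ph
    rw [NV.Iint_ES N hN S, NV.sum_ES n (by omega) S]
    ring
  have hstar : NV.Ph N l (NV.denP n * W) ≠ 0 := by
    unfold NV.Ph
    have hs : ∑ k ∈ K1 n, (NV.denP n * W).eval (-(k : ℂ)) * ((A0 n k : ℚ) : ℂ) = 0 := by
      refine sum_eq_zero ?_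
      intro k hk
      have : den n (-(k : ℂ)) = 0 := by
        unfold den
        rw [prod_eq_zero hk (by ring), zero_mul]
      rw [eval_mul, NV.denP_eval, this]
      ring
    rw [hs, mul_zero, mul_zero, sub_zero]
    exact NV.Iint_star N hN
  apply hstar
  rw [h1, NV.Ph_add N hN, hq, hES, add_zero]

end Pool.Agent.Z3
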