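import Pool.Agent.Z3.StructDefs
import Pool.Agent.Z3.CancelDefs

/-!
The structure of the coefficients does not depend on the residue class inside a gap.
-/

open Finset

namespace Pool.Agent.Z3

/-- comparison with a point whose residue is not strictly inside the gap -/
private theorem cg_le_iff {p s1 s2 k k' c : ℕ} (hp : 0 < p) (h1 : s1 ≤ k % p) (h2 : k % p < s2)
    (h1' : s1 ≤ k' % p) (h2' : k' % p < s2) (hkk : k / p = k' / p)
    (hc : c % p ≤ s1 ∨ s2 ≤ c % p) : c ≤ k ↔ c ≤ k' := by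
  have e1 := Nat.div_add_mod k p
  have e2 := Nat.div_add_mod k' p
  have e3 := Nat.div_add_mod c p
  rw [← hkk] at e2
  have m1 := Nat.mod_lt k hp
  have m2 := Nat.mod_lt k' hp
  have m3 := Nat.mod_lt c hp
  rcases lt_trichotomy (c / p) (k / p) with h | h | h
  · have h5 : p * (c / p) + p ≤ p * (k / p) := by
      calc p * (c / p) + p = p * (c / p + 1) := by ring
        _ ≤ p * (k / p) := Nat.mul_le_mul_left _ h
    constructor <;> intro _ <;> omega
  · rw [h] at e3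
    rcases hc with hc | hc
    · constructor <;> intro _ <;> omega
    · constructor <;> intro _ <;> omega
  · have h5 : p * (k / p) + p ≤ p * (c / p) := by
      calc p * (k / p) + p = p * (k / p + 1) := by ring
        _ ≤ p * (c / p) := Nat.mul_le_mul_left _ h
    constructor <;> intro _ <;> omega

/-- the block quotients -/
private theorem cg_div {p s1 s2 k k' c : ℕ} (hp : 0 < p) (h1 : s1 ≤ k % p) (h2 : k % p < s2)
    (h1' : s1 ≤ k' % p) (h2' : k' % p < s2) (hkk : k / p = k' / p)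
    (hc : c % p ≤ s1 ∨ s2 ≤ c % p) : (k - c) / p = (k' - c) / p := by
  have hle := cg_le_iff hp h1 h2 h1' h2' hkk hc
  by_cases h : c ≤ k
  · have h' := hle.1 h
    have e1 := Nat.div_add_mod k p
    have e2 := Nat.div_add_mod k' p
    have e3 := Nat.div_add_mod c p
    rw [← hkk] at e2
    have m1 := Nat.mod_lt k hp
    have m2 := Nat.mod_lt k' hp
    have m3 := Nat.mod_lt c hp
    have hq : c / p ≤ k / p := Nat.div_le_div_right h
    obtain ⟨t, ht⟩ := Nat.exists_eq_add_of_le hq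
    have hpt : p * (k / p) = p * (c / p) + p * t := by rw [ht]; ring
    rcases hc with hc | hc
    · have a1 : k - c = p * t + (k % p - c % p) := by omega
      have a2 : k' - c = p * t + (k' % p - c % p) := by omega
      rw [a1, a2, Nat.mul_add_div hp, Nat.mul_add_div hp, Nat.div_eq_of_lt (by omega),
        Nat.div_eq_of_lt (by omega)]
    · have ht1 : 1 ≤ t := by
        by_contra h0
        have : t = 0 := by omega
        rw [this, Nat.mul_zero, Nat.add_zero] at hpt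
        omega
      obtain ⟨u, rfl⟩ := Nat.exists_eq_add_of_le ht1
      have hpu : p * (1 + u) = p + p * u := by ring
      have a1 : k - c = p * u + (p + k % p - c % p) := by omega
      have a2 : k' - c = p * u + (p + k' % p - c % p) := by omega
      rw [a1, a2, Nat.mul_add_div hp, Nat.mul_add_div hp, Nat.div_eq_of_lt (by omega),
        Nat.div_eq_of_lt (by omega)]
  · have h' : ¬ c ≤ k' := fun h0 => h (hle.2 h0)
    rw [Nat.sub_eq_zero_of_le (by omega), Nat.sub_eq_zero_of_le (by omega)]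

/-- the bijection between the classes -/
private theorem cg_cls {p s1 s2 k k' a b : ℕ} (hp : 0 < p) (h1 : s1 ≤ k % p)
    (h2 : k % p < s2) (h1' : s1 ≤ k' % p) (h2' : k' % p < s2) (hkk : k / p = k' / p)
    (ha : a % p ≤ s1 ∨ s2 ≤ a % p) (hb : b % p ≤ s1 ∨ s2 ≤ b % p) {i : ℕ}
    (hi : i ∈ cls (Ico a b) p k) :
    p * (i / p) + k' % p ∈ cls (Ico a b) p k' ∧ (p * (i / p) + k' % p) / p = i / p ∧
      p * ((p * (i / p) + k' % p) / p) + k % p = i := by
  unfold cls at hi ⊢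
  rw [Finset.mem_erase, Finset.mem_filter, Finset.mem_Ico] at hi
  obtain ⟨hne, ⟨hai, hib⟩, him⟩ := hi
  have e0 := Nat.div_add_mod i p
  have hdiv : (p * (i / p) + k' % p) / p = i / p := by
    rw [Nat.mul_add_div hp, Nat.div_eq_of_lt (Nat.mod_lt _ hp), Nat.add_zero]
  have hmod : (p * (i / p) + k' % p) % p = k' % p := by
    rw [Nat.mul_add_mod, Nat.mod_mod]
  have hle : ∀ c, (c % p ≤ s1 ∨ s2 ≤ c % p) → (c ≤ i ↔ c ≤ p * (i / p) + k' % p) := by
    intro c hc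
    refine cg_le_iff hp (s1 := s1) (s2 := s2) ?_ ?_ ?_ ?_ ?_ hc
    · rw [him]; exact h1
    · rw [him]; exact h2
    · rw [hmod]; exact h1'
    · rw [hmod]; exact h2'
    · rw [hdiv]
  refine ⟨?_, hdiv, ?_⟩
  · rw [Finset.mem_erase, Finset.mem_filter, Finset.mem_Ico]
    refine ⟨?_, ⟨(hle a ha).1 hai, ?_⟩, hmod⟩
    · intro h0
      apply hne
      have e1 := Nat.div_add_mod k p
      have e2 : i / p = k / p := by rw [hkk, ← h0, hdiv]
      rw [← e0, ← e1, e2, him]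
    · by_contra h0
      exact absurd ((hle b hb).2 (not_lt.1 h0)) (not_le.2 hib)
  · rw [hdiv, ← him]
    exact e0

private theorem cg_wv {p s1 s2 k k' a b : ℕ} (hp : 0 < p) (h1 : s1 ≤ k % p)
    (h2 : k % p < s2) (h1' : s1 ≤ k' % p) (h2' : k' % p < s2) (hkk : k / p = k' / p)
    (ha : a % p ≤ s1 ∨ s2 ≤ a % p) (hb : b % p ≤ s1 ∨ s2 ≤ b % p) :
    wv (Ico a b) p k = wv (Ico a b) p k' ∧ lv (Ico a b) p k = lv (Ico a b) p k' := by
  have f1 : ∀ i ∈ cls (Ico a b) p k, p * (i / p) + k' % p ∈ cls (Ico a b) p k' := fun i hi =>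
    (cg_cls hp h1 h2 h1' h2' hkk ha hb hi).1
  have f2 : ∀ i ∈ cls (Ico a b) p k', p * (i / p) + k % p ∈ cls (Ico a b) p k := fun i hi =>
    (cg_cls hp h1' h2' h1 h2 hkk.symm ha hb hi).1
  have f3 : ∀ i ∈ cls (Ico a b) p k, p * ((p * (i / p) + k' % p) / p) + k % p = i := fun i hi =>
    (cg_cls hp h1 h2 h1' h2' hkk ha hb hi).2.2
  have f4 : ∀ i ∈ cls (Ico a b) p k', p * ((p * (i / p) + k % p) / p) + k' % p = i := fun i hi =>
    (cg_cls hp h1' h2' h1 h2 hkk.symm ha hb hi).2.2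
  constructor
  · unfold wv
    refine Finset.prod_nbij' (fun i => p * (i / p) + k' % p) (fun i => p * (i / p) + k % p)
      f1 f2 f3 f4 fun i hi => ?_
    rw [(cg_cls hp h1 h2 h1' h2' hkk ha hb hi).2.1, hkk]
  · unfold lv
    refine Finset.sum_nbij' (fun i => p * (i / p) + k' % p) (fun i => p * (i / p) + k % p)
      f1 f2 f3 f4 fun i hi => ?_
    rw [(cg_cls hp h1 h2 h1' h2' hkk ha hb hi).2.1, hkk]

/-- (Cancel.lean) the structure does not depend on the class inside the gap -/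
theorem gap_const {n p s1 s2 : ℕ} {pi : Equiv.Perm (Fin 5)} (g : Gap n p s1 s2 pi) (k k' : ℕ)
    (h1 : s1 ≤ k % p) (h2 : k % p < s2) (h1' : s1 ≤ k' % p) (h2' : k' % p < s2) (hkk : k / p = k' / p) :
    (k ∈ K1 n ↔ k' ∈ K1 n) ∧ (k ∈ K2 n ↔ k' ∈ K2 n) ∧ W n p k = W n p k' ∧ Lam n p k = Lam n p k' ∧
      (k - 15 * n) / p = (k' - 15 * n) / p := by
  have hp : 0 < p := g.hp.pos
  have hal : ∀ i, al n i % p ≤ s1 ∨ s2 ≤ al n i % p := g.hal
  have hbe : ∀ i, be n i % p ≤ s1 ∨ s2 ≤ be n i % p := g.hbe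
  have a0 : (13 * n) % p ≤ s1 ∨ s2 ≤ (13 * n) % p := hal 0
  have a1 : (15 * n) % p ≤ s1 ∨ s2 ≤ (15 * n) % p := hal 1
  have a2 : (17 * n) % p ≤ s1 ∨ s2 ≤ (17 * n) % p := hal 2
  have a3 : (19 * n) % p ≤ s1 ∨ s2 ≤ (19 * n) % p := hal 3
  have a4 : (20 * n) % p ≤ s1 ∨ s2 ≤ (20 * n) % p := hal 4
  have b0 : 0 % p ≤ s1 ∨ s2 ≤ 0 % p := hbe 0
  have b1 : (2 * n) % p ≤ s1 ∨ s2 ≤ (2 * n) % p := hbe 1
  have b2 : (4 * n) % p ≤ s1 ∨ s2 ≤ (4 * n) % p := hbe 2
  have b3 : (38 * n + 2) % p ≤ s1 ∨ s2 ≤ (38 * n + 2) % p := hbe 3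
  have b4 : (40 * n + 2) % p ≤ s1 ∨ s2 ≤ (40 * n + 2) % p := hbe 4
  have hle : ∀ c, (c % p ≤ s1 ∨ s2 ≤ c % p) → (c ≤ k ↔ c ≤ k') := fun c hc =>
    cg_le_iff hp h1 h2 h1' h2' hkk hc
  have hmem : ∀ a b, (a % p ≤ s1 ∨ s2 ≤ a % p) → (b % p ≤ s1 ∨ s2 ≤ b % p) →
      (k ∈ Ico a b ↔ k' ∈ Ico a b) := by
    intro a b ha hb
    rw [Finset.mem_Ico, Finset.mem_Ico]
    have x1 := hle a ha
    have x2 := hle b hb
    omega
  have hw : ∀ a b, (a % p ≤ s1 ∨ s2 ≤ a % p) → (b % p ≤ s1 ∨ s2 ≤ b % p) →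
      wv (Ico a b) p k = wv (Ico a b) p k' ∧ lv (Ico a b) p k = lv (Ico a b) p k' :=
    fun a b ha hb => cg_wv hp h1 h2 h1' h2' hkk ha hb
  refine ⟨hmem _ _ a3 b4, hmem _ _ a4 b3, ?_, ?_, cg_div hp h1 h2 h1' h2' hkk a1⟩
  · unfold W N1 N2 N3 K1 K2
    rw [(hw _ _ b0 a2).1, (hw _ _ b1 a1).1, (hw _ _ b2 a0).1, (hw _ _ a3 b4).1, (hw _ _ a4 b3).1]
  · unfold Lam N1 N2 N3 K1 K2
    rw [(hw _ _ b0 a2).2, (hw _ _ b1 a1).2, (hw _ _ b2 a0).2, (hw _ _ a3 b4).2, (hw _ _ a4 b3).2]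

end Pool.Agent.Z3
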