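import Pool.Agent.Z3.Struct
import Pool.Agent.Z3.CancelPoly
import Pool.Agent.Z3.CancelU
import Pool.Agent.Z3.CancelGap

/-!
The cancellation in the gap: the p-adic bound for the coefficients of the linear forms.
-/

open Finset
open scoped BigOperators

namespace Pool.Agent.Z3

namespace CancelAux

variable {p : ℕ}

theorem nadd [Fact p.Prime] {x y t : ℚ} (hx : padicNorm p x ≤ t) (hy : padicNorm p y ≤ t) :
    padicNorm p (x + y) ≤ t :=
  (padicNorm.nonarchimedean).trans (max_le hx hy)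

theorem nmul [Fact p.Prime] {x y s t : ℚ} (hx : padicNorm p x ≤ s) (hy : padicNorm p y ≤ t) :
    padicNorm p (x * y) ≤ s * t := by
  rw [padicNorm.mul]
  exact mul_le_mul hx hy (padicNorm.nonneg _) ((padicNorm.nonneg _).trans hx)

theorem nmul1 [Fact p.Prime] {x y t : ℚ} (hx : padicNorm p x ≤ 1) (hy : padicNorm p y ≤ t) :
    padicNorm p (x * y) ≤ t := by
  have := nmul hx hy
  rwa [one_mul] at this

theorem nmul2 [Fact p.Prime] {x y t : ℚ} (hx : padicNorm p x ≤ t) (hy : padicNorm p y ≤ 1) :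
    padicNorm p (x * y) ≤ t := by
  have := nmul hx hy
  rwa [mul_one] at this

theorem nint [Fact p.Prime] (z : ℤ) : padicNorm p (z : ℚ) ≤ 1 := padicNorm.of_int z

theorem nkj [Fact p.Prime] (k j : ℕ) : padicNorm p ((-(k : ℚ)) ^ j) ≤ 1 := by
  have h : (-(k : ℚ)) ^ j = (((-(k : ℤ)) ^ j : ℤ) : ℚ) := by push_cast; ring
  rw [h]
  exact nint _

theorem npz [Fact p.Prime] (z : ℤ) : padicNorm p ((p : ℚ) ^ z) = (p : ℚ) ^ (-z) := by
  have hp : p.Prime := Fact.out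
  have h0 : (p : ℚ) ^ z ≠ 0 := zpow_ne_zero _ (by exact_mod_cast hp.ne_zero)
  have hpn : padicNorm p (p : ℚ) = (p : ℚ)⁻¹ := padicNorm.padicNorm_p_of_prime
  have hpow : ∀ m : ℕ, padicNorm p ((p : ℚ) ^ m) = ((p : ℚ) ^ m)⁻¹ := by
    intro m
    induction m with
    | zero => simp
    | succ m ih => rw [pow_succ, padicNorm.mul, ih, hpn, mul_inv]
  cases z with
  | ofNat m => rw [Int.ofNat_eq_natCast, zpow_natCast, hpow, zpow_neg, zpow_natCast]
  | negSucc m =>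
    rw [zpow_negSucc, ← one_div, padicNorm.div, padicNorm.one, hpow, one_div, inv_inv, Int.neg_negSucc]
    norm_cast

theorem pz_le [Fact p.Prime] {a b : ℤ} (h : a ≤ b) : (p : ℚ) ^ a ≤ (p : ℚ) ^ b := by
  have hp : p.Prime := Fact.out
  exact zpow_le_zpow_right₀ (by exact_mod_cast hp.one_le) h

/-- the part of a term which depends only on the quotient k/p -/
def Zk (n p k : ℕ) : ℚ :=
  if k ∈ K2 n then W n p k * (2 * H 3 ((k - 15 * n) / p) + Lam n p k * H 2 ((k - 15 * n) / p))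
  else W n p k * H 2 ((k - 15 * n) / p)

theorem K2_sub' {n k : ℕ} (hk : k ∈ K2 n) : k ∈ K1 n := by
  unfold K2 at hk; unfold K1
  rw [mem_Ico] at hk ⊢
  omega

theorem K1_lt {n p k : ℕ} (hp2 : 40 * n + 2 < p ^ 2) (hk : k ∈ K1 n) : k < p ^ 2 := by
  unfold K1 at hk
  rw [mem_Ico] at hk
  omega

theorem norm_Zk (n k : ℕ) [hF : Fact p.Prime] (hn : 1 ≤ n) (hp2 : 40 * n + 2 < p ^ 2) (hk : k ∈ K1 n) :
    padicNorm p (Zk n p k) ≤ 1 := by
  have hp : p.Prime := hF.out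
  have hm : k - 15 * n < p ^ 2 := lt_of_le_of_lt (Nat.sub_le _ _) (K1_lt hp2 hk)
  have h3 := (H_struct 3 (k - 15 * n) p hp hm).2
  have h2 := (H_struct 2 (k - 15 * n) p hp hm).2
  have hW := (norm_W n p k hn hp hp2 hk).le
  have hL := norm_Lam n p k hn hp hp2 hk
  unfold Zk
  split_ifs
  · refine nmul1 hW (nadd (nmul1 ?_ h3) (nmul1 hL h2))
    exact_mod_cast nint (p := p) 2
  · exact nmul1 hW h2

/-- one term -/
def tk (n j k : ℕ) : ℚ := 2 * A n j k * H 3 (k - 15 * n) + B n j k * H 2 (k - 15 * n)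

theorem term_main (n j k : ℕ) [hF : Fact p.Prime] (hn : 1 ≤ n) (hp2 : 40 * n + 2 < p ^ 2) (hk : k ∈ K1 n) :
    padicNorm p (tk n j k - kap n * (p : ℚ) ^ (phi n p (k % p) - 1) * ((-(k : ℚ)) ^ j * U n p k * Zk n p k)) ≤
      (p : ℚ) ^ (-(e0 n p + phi n p (k % p))) := by
  have hp : p.Prime := hF.out
  have hp0 : (p : ℚ) ≠ 0 := by exact_mod_cast hp.ne_zero
  have hm : k - 15 * n < p ^ 2 := lt_of_le_of_lt (Nat.sub_le _ _) (K1_lt hp2 hk)
  obtain ⟨h3, h3'⟩ := H_struct 3 (k - 15 * n) p hp hm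
  obtain ⟨h2, h2'⟩ := H_struct 2 (k - 15 * n) p hp hm
  have hW := (norm_W n p k hn hp hp2 hk)
  have hU := (norm_U n p k hn hp hp2 hk)
  have hL := norm_Lam n p k hn hp hp2 hk
  have hkap := norm_kap n p hn hp hp2
  set φ := phi n p (k % p) with hφ
  set m := k - 15 * n with hmdef
  obtain ⟨e3, he3⟩ : ∃ e3, e3 = H 3 m - H 3 (m / p) / (p : ℚ) ^ 3 := ⟨_, rfl⟩
  obtain ⟨e2, he2⟩ : ∃ e2, e2 = H 2 m - H 2 (m / p) / (p : ℚ) ^ 2 := ⟨_, rfl⟩
  rw [← he3] at h3
  rw [← he2] at h2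
  have hH3 : H 3 m = H 3 (m / p) / (p : ℚ) ^ 3 + e3 := by rw [he3]; ring
  have hH2 : H 2 m = H 2 (m / p) / (p : ℚ) ^ 2 + e2 := by rw [he2]; ring
  have hp2n : padicNorm p ((p : ℚ) ^ 2)⁻¹ ≤ (p : ℚ) ^ (2 : ℤ) := by
    have : ((p : ℚ) ^ 2)⁻¹ = (p : ℚ) ^ (-2 : ℤ) := by rw [zpow_neg]; norm_cast
    rw [this, npz, neg_neg]
  have hp1n : padicNorm p ((p : ℚ))⁻¹ ≤ (p : ℚ) ^ (1 : ℤ) := by
    have : ((p : ℚ))⁻¹ = (p : ℚ) ^ (-1 : ℤ) := by rw [zpow_neg, zpow_one]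
    rw [this, npz, neg_neg]
  by_cases hk2 : k ∈ K2 n
  · have hA0 := A0_struct n p k hn hp hp2 hk2
    rw [← hφ] at hA0
    have hnA : padicNorm p (A0 n k) = (p : ℚ) ^ (-(e0 n p + φ) - 2) := by
      rw [hA0, padicNorm.mul, padicNorm.mul, padicNorm.mul, hW, hU, hkap, npz, mul_one, mul_one, ← zpow_add₀ hp0]
      congr 1
      ring
    obtain ⟨l, hl⟩ : ∃ l, l = L0 n k - Lam n p k / p := ⟨_, rfl⟩
    have hl1 := L0_struct n p k hn hp hp2 hk2
    rw [← hl] at hl1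
    have hL0 : L0 n k = Lam n p k / p + l := by rw [hl]; ring
    have hB : B n j k = (-(k : ℚ)) ^ j * (A0 n k * L0 n k) + (j : ℚ) * (-(k : ℚ)) ^ (j - 1) * A0 n k := by
      unfold B B0
      rw [if_pos hk2]
    have hAj : A n j k = (-(k : ℚ)) ^ j * A0 n k := rfl
    have hZ : Zk n p k = W n p k * (2 * H 3 (m / p) + Lam n p k * H 2 (m / p)) := by
      unfold Zk
      rw [if_pos hk2]
    have hz : (p : ℚ) ^ (φ - 1) = (p : ℚ) ^ (φ + 2) * ((p : ℚ) ^ 3)⁻¹ := by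
      have : ((p : ℚ) ^ 3)⁻¹ = (p : ℚ) ^ (-3 : ℤ) := by rw [zpow_neg]; norm_cast
      rw [this, ← zpow_add₀ hp0]
      congr 1
      ring
    have key : tk n j k - kap n * (p : ℚ) ^ (φ - 1) * ((-(k : ℚ)) ^ j * U n p k * Zk n p k) =
        A0 n k * ((2 * ((-(k : ℚ)) ^ j * e3) + (-(k : ℚ)) ^ j * (Lam n p k * ((p : ℚ))⁻¹ * e2)) +
          ((-(k : ℚ)) ^ j * l + (j : ℚ) * (-(k : ℚ)) ^ (j - 1)) * (H 2 (m / p) * ((p : ℚ) ^ 2)⁻¹ + e2)) := by
      have hmain : kap n * (p : ℚ) ^ (φ - 1) * ((-(k : ℚ)) ^ j * U n p k * Zk n p k) =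
          A0 n k * (-(k : ℚ)) ^ j * ((p : ℚ) ^ 3)⁻¹ * (2 * H 3 (m / p) + Lam n p k * H 2 (m / p)) := by
        rw [hZ, hz, hA0]
        ring
      rw [hmain]
      unfold tk
      rw [← hmdef, hB, hAj, hL0, hH3, hH2]
      field_simp
      ring
    rw [key]
    have hE : padicNorm p ((2 * ((-(k : ℚ)) ^ j * e3) + (-(k : ℚ)) ^ j * (Lam n p k * ((p : ℚ))⁻¹ * e2)) +
          ((-(k : ℚ)) ^ j * l + (j : ℚ) * (-(k : ℚ)) ^ (j - 1)) * (H 2 (m / p) * ((p : ℚ) ^ 2)⁻¹ + e2)) ≤ (p : ℚ) ^ (2 : ℤ) := by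
      have h1p : (1 : ℚ) ≤ (p : ℚ) ^ (2 : ℤ) := by
        have := pz_le (p := p) (a := 0) (b := 2) (by norm_num)
        simpa using this
      have hpp : (p : ℚ) ^ (1 : ℤ) ≤ (p : ℚ) ^ (2 : ℤ) := pz_le (by norm_num)
      refine nadd (nadd ?_ ?_) ?_
      · refine le_trans (nmul1 ?_ (nmul1 (nkj k j) h3)) h1p
        exact_mod_cast nint (p := p) 2
      · refine nmul1 (nkj k j) (nmul2 ?_ h2)
        exact (nmul1 hL hp1n).trans hpp
      · refine nmul1 (nadd (nmul1 (nkj k j) hl1) (nmul1 ?_ (nkj k _))) (nadd (nmul1 h2' hp2n) (h2.trans h1p))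
        exact_mod_cast nint (p := p) (j : ℤ)
    refine (nmul hnA.le hE).trans (le_of_eq ?_)
    rw [← zpow_add₀ hp0]
    congr 1
    ring
  · have hB0 := B0_struct n p k hn hp hp2 hk hk2
    rw [← hφ] at hB0
    have hA0 : A0 n k = 0 := by unfold A0; rw [if_neg hk2]
    have hnB : padicNorm p (B0 n k) = (p : ℚ) ^ (-(e0 n p + φ) - 1) := by
      rw [hB0, padicNorm.mul, padicNorm.mul, padicNorm.mul, hW, hU, hkap, npz, mul_one, mul_one, ← zpow_add₀ hp0]
      congr 1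
      ring
    have hB : B n j k = (-(k : ℚ)) ^ j * B0 n k := by
      unfold B
      rw [hA0]
      ring
    have hAj : A n j k = 0 := by unfold A; rw [hA0, mul_zero]
    have hZ : Zk n p k = W n p k * H 2 (m / p) := by
      unfold Zk
      rw [if_neg hk2]
    have hz : (p : ℚ) ^ (φ - 1) = (p : ℚ) ^ (φ + 1) * ((p : ℚ) ^ 2)⁻¹ := by
      have : ((p : ℚ) ^ 2)⁻¹ = (p : ℚ) ^ (-2 : ℤ) := by rw [zpow_neg]; norm_cast
      rw [this, ← zpow_add₀ hp0]
      congr 1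
      ring
    have key : tk n j k - kap n * (p : ℚ) ^ (φ - 1) * ((-(k : ℚ)) ^ j * U n p k * Zk n p k) =
        B0 n k * ((-(k : ℚ)) ^ j * e2) := by
      have hmain : kap n * (p : ℚ) ^ (φ - 1) * ((-(k : ℚ)) ^ j * U n p k * Zk n p k) =
          B0 n k * (-(k : ℚ)) ^ j * ((p : ℚ) ^ 2)⁻¹ * H 2 (m / p) := by
        rw [hZ, hz, hB0]
        ring
      rw [hmain]
      unfold tk
      rw [← hmdef, hB, hAj, hH2]
      ring
    rw [key]
    refine (nmul2 hnB.le (nmul1 (nkj k j) h2)).trans (pz_le ?_)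
    linarith

/-- phi is constant in the gap -/
theorem phi_gap {n s1 s2 : ℕ} {pi : Equiv.Perm (Fin 5)} (g : Gap n p s1 s2 pi) {s : ℕ} (h1 : s1 ≤ s) (h2 : s < s2) :
    phi n p s = -1 := by
  have hp := g.hp.pos
  have e1 : ∀ i, (if s < al n i % p then (1 : ℤ) else 0) = if s1 < al n i % p then 1 else 0 := by
    intro i
    rcases g.hal i with h | h
    · rw [if_neg (by omega), if_neg (by omega)]
    · rw [if_pos (by omega), if_pos (by omega)]
  have e2 : ∀ i, (if s < be n i % p then (1 : ℤ) else 0) = if s1 < be n i % p then 1 else 0 := by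
    intro i
    rcases g.hbe i with h | h
    · rw [if_neg (by omega), if_neg (by omega)]
    · rw [if_pos (by omega), if_pos (by omega)]
  have h3 := phi_eq n p s hp (lt_of_lt_of_le h2 g.h2p)
  have h4 := phi_eq n p s1 hp (lt_of_lt_of_le (lt_of_le_of_lt h1 h2) g.h2p)
  rw [h3]
  simp only [e1, e2]
  rw [← h4]
  exact g.hs1

theorem Zk_gap {n s1 s2 : ℕ} {pi : Equiv.Perm (Fin 5)} (g : Gap n p s1 s2 pi) {k : ℕ} (h1 : s1 ≤ k % p)
    (h2 : k % p < s2) : (k ∈ K1 n ↔ k / p * p + s1 ∈ K1 n) ∧ Zk n p k = Zk n p (k / p * p + s1) := by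
  have hp := g.hp.pos
  have hs1 : s1 < p := lt_of_lt_of_le g.h12 g.h2p
  have e1 : (k / p * p + s1) % p = s1 := by
    rw [add_comm, Nat.add_mul_mod_self_right, Nat.mod_eq_of_lt hs1]
  have e2 : (k / p * p + s1) / p = k / p := by
    rw [add_comm, Nat.add_mul_div_right _ _ hp, Nat.div_eq_of_lt hs1, zero_add]
  obtain ⟨c1, c2, c3, c4, c5⟩ := gap_const g k (k / p * p + s1) h1 h2 (by rw [e1]) (by rw [e1]; exact g.h12) e2.symm
  refine ⟨c1, ?_⟩
  unfold Zk
  rw [c3, c4, c5]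
  simp only [c2]

theorem sum_gap {n s1 s2 : ℕ} {pi : Equiv.Perm (Fin 5)} (g : Gap n p s1 s2 pi) (j : ℕ) (hj : j ≤ 2) :
    padicNorm p (∑ k ∈ (K1 n).filter (fun k => s1 ≤ k % p ∧ k % p < s2), (-(k : ℚ)) ^ j * U n p k * Zk n p k) ≤
      (p : ℚ)⁻¹ := by
  have hF : Fact p.Prime := ⟨g.hp⟩
  have hp := g.hp.pos
  have hpinv : (0 : ℚ) ≤ (p : ℚ)⁻¹ := by positivity
  have hs1p : s1 < p := lt_of_lt_of_le g.h12 g.h2p
  obtain ⟨c, hc1, hc⟩ := U_congr g
  set F := (K1 n).filter (fun k => s1 ≤ k % p ∧ k % p < s2) with hFdef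
  have hmem : ∀ k ∈ F, k ∈ K1 n ∧ s1 ≤ k % p ∧ k % p < s2 := by
    intro k hk
    rw [hFdef, mem_filter] at hk
    exact hk
  -- replace the terms
  have hrep : padicNorm p (∑ k ∈ F, ((-(k : ℚ)) ^ j * U n p k * Zk n p k -
      (-((k % p : ℕ) : ℚ)) ^ j * (c * (Pv n p pi (k % p : ℕ) : ℚ)) * Zk n p (k / p * p + s1))) ≤ (p : ℚ)⁻¹ := by
    refine padicNorm.sum_le' (fun k hk => ?_) hpinv
    obtain ⟨h1, h2, h3⟩ := hmem k hk
    rw [← (Zk_gap g h2 h3).2]
    have e : (-(k : ℚ)) ^ j * U n p k * Zk n p k - (-((k % p : ℕ) : ℚ)) ^ j * (c * (Pv n p pi (k % p : ℕ) : ℚ)) * Zk n p k =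
        (((-(k : ℚ)) ^ j - (-((k % p : ℕ) : ℚ)) ^ j) * U n p k +
          (-((k % p : ℕ) : ℚ)) ^ j * (U n p k - c * (Pv n p pi (k % p : ℕ) : ℚ))) * Zk n p k := by ring
    rw [e]
    refine nmul2 (nadd (nmul2 ?_ (norm_U n p k g.hn g.hp g.hp2 h1).le) (nmul1 (nkj _ _) ?_)) (norm_Zk n k g.hn g.hp2 h1)
    · have h4 : (p : ℤ) ∣ (-(k : ℤ)) ^ j - (-((k % p : ℕ) : ℤ)) ^ j := by
        refine dvd_trans ?_ (sub_dvd_pow_sub_pow _ _ j)
        have : (-(k : ℤ)) - (-((k % p : ℕ) : ℤ)) = -((k : ℤ) - ((k % p : ℕ) : ℤ)) := by ring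
        rw [this, dvd_neg]
        push_cast
        exact Int.dvd_self_sub_emod
      have h5 : (-(k : ℚ)) ^ j - (-((k % p : ℕ) : ℚ)) ^ j = (((-(k : ℤ)) ^ j - (-((k % p : ℕ) : ℤ)) ^ j : ℤ) : ℚ) := by
        rw [Int.cast_sub, Int.cast_pow, Int.cast_pow, Int.cast_neg, Int.cast_neg, Int.cast_natCast, Int.cast_natCast]
      rw [h5]
      have h6 := (padicNorm.dvd_iff_norm_le (p := p) (n := 1) (z := (-(k : ℤ)) ^ j - (-((k % p : ℕ) : ℤ)) ^ j)).mp
        (by rw [pow_one]; exact h4)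
      simpa using h6
    · have := hc k h1 h2 h3
      rwa [one_div] at this
  have hsum : ∑ k ∈ F, (-((k % p : ℕ) : ℚ)) ^ j * (c * (Pv n p pi (k % p : ℕ) : ℚ)) * Zk n p (k / p * p + s1) =
      (∑ l ∈ (range (40 * n + 2)).filter (fun l => l * p + s1 ∈ K1 n), c * Zk n p (l * p + s1)) *
        ((∑ s ∈ Ico s1 s2, (-(s : ℤ)) ^ j * Pv n p pi s : ℤ) : ℚ) := by
    rw [Int.cast_sum, Finset.sum_mul_sum, ← Finset.sum_product']
    refine Finset.sum_nbij' (fun k => (k / p, k % p)) (fun x => x.1 * p + x.2) ?_ ?_ ?_ ?_ ?_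
    · intro k hk
      obtain ⟨h1, h2, h3⟩ := hmem k hk
      rw [mem_product, mem_filter, mem_range, mem_Ico]
      refine ⟨⟨?_, (Zk_gap g h2 h3).1.mp h1⟩, h2, h3⟩
      have h4 : k / p ≤ k := Nat.div_le_self _ _
      unfold K1 at h1
      rw [mem_Ico] at h1
      dsimp only
      omega
    · rintro ⟨l, s⟩ hx
      rw [mem_product, mem_filter, mem_range, mem_Ico] at hx
      obtain ⟨⟨h1, h2⟩, h3, h4⟩ := hx
      dsimp only at h1 h2 h3 h4 ⊢
      have hsp : s < p := lt_of_lt_of_le h4 g.h2p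
      have e1 : (l * p + s) % p = s := by
        rw [add_comm, Nat.add_mul_mod_self_right, Nat.mod_eq_of_lt hsp]
      have e2 : (l * p + s) / p = l := by
        rw [add_comm, Nat.add_mul_div_right _ _ hp, Nat.div_eq_of_lt hsp, zero_add]
      rw [hFdef, mem_filter, e1]
      refine ⟨?_, h3, h4⟩
      have := (Zk_gap g (k := l * p + s) (by rw [e1]; exact h3) (by rw [e1]; exact h4)).1
      rw [e2] at this
      exact this.mpr h2
    · intro k _
      exact Nat.div_add_mod' k p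
    · rintro ⟨l, s⟩ hx
      rw [mem_product, mem_filter, mem_range, mem_Ico] at hx
      obtain ⟨-, h3, h4⟩ := hx
      dsimp only at h3 h4 ⊢
      have hsp : s < p := lt_of_lt_of_le h4 g.h2p
      have e1 : (l * p + s) % p = s := by
        rw [add_comm, Nat.add_mul_mod_self_right, Nat.mod_eq_of_lt hsp]
      have e2 : (l * p + s) / p = l := by
        rw [add_comm, Nat.add_mul_div_right _ _ hp, Nat.div_eq_of_lt hsp, zero_add]
      rw [e1, e2]
    · intro k _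
      dsimp only
      rw [Int.cast_mul, Int.cast_pow, Int.cast_neg, Int.cast_natCast]
      ring
  have hS1 : padicNorm p (∑ l ∈ (range (40 * n + 2)).filter (fun l => l * p + s1 ∈ K1 n), c * Zk n p (l * p + s1)) ≤ 1 := by
    refine padicNorm.sum_le' (fun l hl => ?_) zero_le_one
    rw [mem_filter] at hl
    exact nmul1 hc1 (norm_Zk n _ g.hn g.hp2 hl.2)
  have hS2 : padicNorm p ((∑ s ∈ Ico s1 s2, (-(s : ℤ)) ^ j * Pv n p pi s : ℤ) : ℚ) ≤ (p : ℚ)⁻¹ := by
    have h6 := (padicNorm.dvd_iff_norm_le (p := p) (n := 1) (z := ∑ s ∈ Ico s1 s2, (-(s : ℤ)) ^ j * Pv n p pi s)).mp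
      (by rw [pow_one]; exact sum_Pv g j hj)
    simpa using h6
  have hfin := nadd hrep (nmul1 hS1 hS2)
  rw [← hsum, ← Finset.sum_add_distrib] at hfin
  simpa using hfin

end CancelAux

open CancelAux in
theorem cancel {n p s1 s2 : ℕ} {pi : Equiv.Perm (Fin 5)} (g : Gap n p s1 s2 pi) :
    PBound n p (1 - e0 n p) := by
  have hF : Fact p.Prime := ⟨g.hp⟩
  have hp := g.hp.pos
  have hp0 : (p : ℚ) ≠ 0 := by exact_mod_cast g.hp.ne_zero
  have hpos : ∀ z : ℤ, (0 : ℚ) ≤ (p : ℚ) ^ z := fun z => zpow_nonneg (by positivity) z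
  have hphi : ∀ k, -1 ≤ phi n p (k % p) := fun k => g.hphi _ (Nat.mod_lt _ hp)
  intro j hj
  constructor
  · unfold a
    refine nmul1 ?_ (padicNorm.sum_le' (fun k hk => ?_) (hpos _))
    · exact_mod_cast nint (p := p) 2
    · unfold A
      refine nmul1 (nkj k j) ?_
      by_cases hk2 : k ∈ K2 n
      · rw [A0_struct n p k g.hn g.hp g.hp2 hk2, padicNorm.mul, padicNorm.mul, padicNorm.mul,
          norm_W n p k g.hn g.hp g.hp2 hk, norm_U n p k g.hn g.hp g.hp2 hk, norm_kap n p g.hn g.hp g.hp2, npz,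
          mul_one, mul_one, ← zpow_add₀ hp0]
        refine pz_le ?_
        have := hphi k
        linarith
      · unfold A0
        rw [if_neg hk2, padicNorm.zero]
        exact hpos _
  · have hb : b n j = ∑ k ∈ K1 n, tk n j k := rfl
    rw [hb]
    have h1 : padicNorm p (∑ k ∈ K1 n, (tk n j k - kap n * (p : ℚ) ^ (phi n p (k % p) - 1) *
        ((-(k : ℚ)) ^ j * U n p k * Zk n p k))) ≤ (p : ℚ) ^ (1 - e0 n p) := by
      refine padicNorm.sum_le' (fun k hk => ?_) (hpos _)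
      refine (term_main n j k g.hn g.hp2 hk).trans (pz_le ?_)
      have := hphi k
      linarith
    have h2 : padicNorm p (∑ k ∈ K1 n, kap n * (p : ℚ) ^ (phi n p (k % p) - 1) *
        ((-(k : ℚ)) ^ j * U n p k * Zk n p k)) ≤ (p : ℚ) ^ (1 - e0 n p) := by
      rw [← Finset.sum_filter_add_sum_filter_not (K1 n) (fun k => s1 ≤ k % p ∧ k % p < s2)]
      refine nadd ?_ ?_
      · have e : ∑ k ∈ (K1 n).filter (fun k => s1 ≤ k % p ∧ k % p < s2), kap n * (p : ℚ) ^ (phi n p (k % p) - 1) *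
            ((-(k : ℚ)) ^ j * U n p k * Zk n p k) = kap n * (p : ℚ) ^ (-2 : ℤ) *
            ∑ k ∈ (K1 n).filter (fun k => s1 ≤ k % p ∧ k % p < s2), ((-(k : ℚ)) ^ j * U n p k * Zk n p k) := by
          rw [Finset.mul_sum]
          refine Finset.sum_congr rfl fun k hk => ?_
          rw [mem_filter] at hk
          rw [phi_gap g hk.2.1 hk.2.2]
          norm_num
        rw [e]
        have h3 : padicNorm p (kap n * (p : ℚ) ^ (-2 : ℤ)) ≤ (p : ℚ) ^ (2 - e0 n p) := by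
          rw [padicNorm.mul, norm_kap n p g.hn g.hp g.hp2, npz, ← zpow_add₀ hp0]
          refine pz_le ?_
          linarith
        refine (nmul h3 (sum_gap g j hj)).trans (le_of_eq ?_)
        rw [← zpow_neg_one, ← zpow_add₀ hp0]
        congr 1
        ring
      · refine padicNorm.sum_le' (fun k hk => ?_) (hpos _)
        rw [mem_filter] at hk
        have hph : 0 ≤ phi n p (k % p) := by
          have h3 := hphi k
          by_contra hlt
          push Not at hlt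
          have h4 : phi n p (k % p) = -1 := by omega
          exact hk.2 (g.hout _ (Nat.mod_lt _ hp) h4)
        have h5 : padicNorm p (kap n * (p : ℚ) ^ (phi n p (k % p) - 1)) ≤ (p : ℚ) ^ (1 - e0 n p) := by
          rw [padicNorm.mul, norm_kap n p g.hn g.hp g.hp2, npz, ← zpow_add₀ hp0]
          refine pz_le ?_
          linarith
        refine nmul2 h5 ?_
        refine nmul1 (nmul1 (nkj k j) (norm_U n p k g.hn g.hp g.hp2 hk.1).le) (norm_Zk n k g.hn g.hp2 hk.1)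
    have h3 := nadd h1 h2
    rw [← Finset.sum_add_distrib] at h3
    simpa using h3

end Pool.Agent.Z3
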