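import Pool.Agent.Z3.Farey
import Pool.Agent.Z3.Cancel

/-!
Cells with exactly one gap in which phi is -1: the cancellation applies.
-/

open Finset

namespace Pool.Agent.Z3

namespace Red

/-- the multiplier of the i-th alpha point -/
def ca : Fin 5 → ℕ := ![13, 15, 17, 19, 20]

/-- the multiplier of the i-th beta point -/
def cb : Fin 5 → ℕ := ![0, 2, 4, 38, 40]

theorem ca_mem (i : Fin 5) : ca i ∈ pts := by fin_cases i <;> decide

theorem cb_mem (i : Fin 5) : cb i ∈ pts := by fin_cases i <;> decide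

theorem ca_getD (i : Fin 5) : [13, 15, 17, 19, 20].getD (i : ℕ) 0 = (ca i : ℤ) := by
  fin_cases i <;> rfl

theorem cb_getD (i : Fin 5) : [0, 2, 4, 38, 40].getD (i : ℕ) 0 = (cb i : ℤ) := by
  fin_cases i <;> rfl

theorem al_eq (n : ℕ) (i : Fin 5) : al n i = ca i * n + off (ca i) := by
  fin_cases i <;> simp [al, ca, off]

theorem be_eq (n : ℕ) (i : Fin 5) : be n i = cb i * n + off (cb i) := by
  fin_cases i <;> simp [be, cb, off]

/-- the residue of a difference -/
theorem sub_emod (x y q : ℤ) (hq : 0 < q) :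
    (x - y) % q = if y % q ≤ x % q then x % q - y % q else x % q - y % q + q := by
  have hx0 := Int.emod_nonneg x hq.ne'
  have hy0 := Int.emod_nonneg y hq.ne'
  have hx1 := Int.emod_lt_of_pos x hq
  have hy1 := Int.emod_lt_of_pos y hq
  rw [Int.sub_emod]
  split_ifs with h
  · exact Int.emod_eq_of_lt (by omega) (by omega)
  · rw [← Int.add_emod_right]
    exact Int.emod_eq_of_lt (by omega) (by omega)

/-- cyclic order is determined by the order of the residues -/
theorem arc_transfer (x y z x' y' z' q q' : ℤ) (hq : 0 < q) (hq' : 0 < q')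
    (hxy : x % q < y % q ↔ x' % q' < y' % q') (hzy : z % q < y % q ↔ z' % q' < y' % q')
    (hzx : z % q < x % q ↔ z' % q' < x' % q')
    (h : (x' - y') % q' ≤ (z' - y') % q') : (x - y) % q ≤ (z - y) % q := by
  have hx0 := Int.emod_nonneg x hq.ne'
  have hy0 := Int.emod_nonneg y hq.ne'
  have hz0 := Int.emod_nonneg z hq.ne'
  have hx1 := Int.emod_lt_of_pos x hq
  have hy1 := Int.emod_lt_of_pos y hq
  have hz1 := Int.emod_lt_of_pos z hq
  have hx0' := Int.emod_nonneg x' hq'.ne'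
  have hy0' := Int.emod_nonneg y' hq'.ne'
  have hz0' := Int.emod_nonneg z' hq'.ne'
  have hx1' := Int.emod_lt_of_pos x' hq'
  have hy1' := Int.emod_lt_of_pos y' hq'
  have hz1' := Int.emod_lt_of_pos z' hq'
  rw [sub_emod _ _ _ hq', sub_emod _ _ _ hq'] at h
  rw [sub_emod _ _ _ hq, sub_emod _ _ _ hq]
  split_ifs at h ⊢ <;> omega

/-- the end of the gap -/
theorem exists_end (p s1 : ℕ) (h1 : s1 < p) (f : ℕ → ℕ) (L : List ℕ) :
    ∃ s2, s1 < s2 ∧ s2 ≤ p ∧ (∀ c ∈ L, f c ≤ s1 ∨ s2 ≤ f c) ∧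
      (s2 = p ∨ ∃ c ∈ L, f c = s2) := by
  induction L with
  | nil => exact ⟨p, h1, le_rfl, by simp, Or.inl rfl⟩
  | cons a L ih =>
    obtain ⟨s2, h2, h3, h4, h5⟩ := ih
    by_cases ha : f a ≤ s1 ∨ s2 ≤ f a
    · refine ⟨s2, h2, h3, ?_, ?_⟩
      · intro c hc
        rcases List.mem_cons.1 hc with rfl | hc
        · exact ha
        · exact h4 c hc
      · rcases h5 with h5 | ⟨c, hc, h5⟩
        · exact Or.inl h5
        · exact Or.inr ⟨c, List.mem_cons_of_mem _ hc, h5⟩
    · push Not at ha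
      refine ⟨f a, ha.1, by omega, ?_, Or.inr ⟨a, List.mem_cons_self .., rfl⟩⟩
      intro c hc
      rcases List.mem_cons.1 hc with rfl | hc
      · exact Or.inr le_rfl
      · rcases h4 c hc with h | h
        · exact Or.inl h
        · exact Or.inr (by omega)

/-- the permutation given by a list -/
theorem exists_perm (L : List ℕ) (h5 : L.length = 5) (hnd : L.Nodup) (hlt : ∀ x ∈ L, x < 5) :
    ∃ pi : Equiv.Perm (Fin 5), ∀ i : Fin 5, ((pi i : Fin 5) : ℕ) = L.getD (i : ℕ) 0 := by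
  have hget : ∀ i : Fin 5, ∃ h : (i : ℕ) < L.length, L.getD (i : ℕ) 0 = L[(i : ℕ)] := fun i =>
    ⟨by omega, List.getD_eq_getElem _ _ (by omega)⟩
  have hmem : ∀ i : Fin 5, L.getD (i : ℕ) 0 < 5 := by
    intro i
    obtain ⟨h, he⟩ := hget i
    rw [he]
    exact hlt _ (List.getElem_mem _)
  let f : Fin 5 → Fin 5 := fun i => ⟨L.getD (i : ℕ) 0, hmem i⟩
  have hf : Function.Injective f := by
    intro i j hij
    have h1 : L.getD (i : ℕ) 0 = L.getD (j : ℕ) 0 := congrArg Fin.val hij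
    obtain ⟨h, he⟩ := hget i
    obtain ⟨h', he'⟩ := hget j
    rw [he, he'] at h1
    exact Fin.ext ((List.Nodup.getElem_inj_iff hnd).1 h1)
  refine ⟨Equiv.ofBijective f (Finite.injective_iff_bijective.1 hf), fun i => rfl⟩

end Red

open Red in
theorem red_bound (n p N0 P0 c1 : ℕ) (L : List ℕ) (hn : 1 ≤ n) (hp : p.Prime) (hp2 : 40 * n + 2 < p ^ 2)
    (hg : Good n p) (hc : SameCell n p N0 P0) (hr : redCheck N0 P0 c1 L = true) :
    PBound n p (1 - e00 N0 P0) := by
  unfold redCheck at hr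
  simp only [Bool.and_eq_true, decide_eq_true_eq, List.all_eq_true, Bool.or_eq_true,
    List.mem_range] at hr
  obtain ⟨⟨⟨⟨⟨⟨⟨hc1, hnd⟩, hphi⟩, hphi1⟩, hlen⟩, hLnd⟩, hLlt⟩, harc⟩ := hr
  have hP0 : 0 < P0 := hc.1
  have hp0 : 0 < p := hp.pos
  have hord := order_cell n p N0 P0 hn hp hg hc hnd
  have hcell := phi_cell n p N0 P0 hn hp hg hc hnd
  set rho : ℕ → ℕ := fun c => (c * n + off c) % p with hrho
  have hord' : ∀ c ∈ pts, ∀ d ∈ pts, (rho c < rho d ↔ c * N0 % P0 < d * N0 % P0) :=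
    fun c hcc d hd => hord c d hcc hd
  have hs1p : rho c1 < p := Nat.mod_lt _ hp0
  obtain ⟨s2, h12, h2p, hend, hatt⟩ := exists_end p (rho c1) hs1p rho pts
  obtain ⟨pi, hpi⟩ := exists_perm L hlen hLnd hLlt
  have hval : ∀ c ∈ pts, -1 ≤ phi0 N0 P0 (c * N0 % P0) ∧
      (phi0 N0 P0 (c * N0 % P0) = -1 → c = c1) := by
    intro c hcc
    rcases hphi c hcc with h | ⟨h, h'⟩
    · exact ⟨by omega, fun h' => by omega⟩
    · exact ⟨by omega, fun _ => h⟩
  have g : Gap n p (rho c1) s2 pi := by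
    refine ⟨hn, hp, hp2, ?_, ?_, h12, h2p, ?_, ?_, ?_, ?_, ?_⟩
    · by_contra hcon
      have : p ≤ 4 := by omega
      have : p ^ 2 ≤ 4 ^ 2 := Nat.pow_le_pow_left this 2
      omega
    · intro s hs
      obtain ⟨c, hcc, -, -, h⟩ := hcell s hs
      rw [h]
      exact (hval c hcc).1
    · obtain ⟨c, hcc, h1, h2, h⟩ := hcell (rho c1) hs1p
      have h3 := h2 c1 hc1 le_rfl
      have h4 : ¬ (rho c1 < rho c) := not_lt.2 h1
      rw [hord' c1 hc1 c hcc] at h4
      have h5 : c * N0 % P0 = c1 * N0 % P0 := by omega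
      rw [h, h5, hphi1]
    · intro s hs hm
      obtain ⟨c, hcc, h1, h2, h⟩ := hcell s hs
      rw [h] at hm
      have h3 := (hval c hcc).2 hm
      subst h3
      refine ⟨h1, ?_⟩
      by_contra hcon
      push Not at hcon
      rcases hatt with h4 | ⟨d, hd, h4⟩
      · omega
      · have h5 := h2 d hd (by change rho d ≤ s; omega)
        have h6 : rho c < rho d := by omega
        rw [hord' c hc1 d hd] at h6
        omega
    · intro i
      rw [al_eq]
      exact hend _ (ca_mem _)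
    · intro i
      rw [be_eq]
      exact hend _ (cb_mem _)
    · intro i
      have h1 := harc i i.isLt
      rw [← hpi i, ca_getD, cb_getD] at h1
      have hcst : ∀ c : ℕ, ((c * n + off c : ℕ) : ℤ) % (p : ℤ) = (rho c : ℕ) := fun c => by
        rw [hrho]; push_cast; rfl
      have hcst' : ∀ c : ℕ, ((c : ℤ) * (N0 : ℤ)) % (P0 : ℤ) = ((c * N0 % P0 : ℕ) : ℤ) := fun c => by
        push_cast; rfl
      have hz : ((rho c1 : ℕ) : ℤ) % (p : ℤ) = (rho c1 : ℕ) := by
        exact_mod_cast Nat.mod_eq_of_lt hs1p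
      refine arc_transfer _ _ _ (ca (pi i) * N0) (cb i * N0) (c1 * N0) _ (P0 : ℤ)
        (by exact_mod_cast hp0) (by exact_mod_cast hP0) ?_ ?_ ?_ h1
      · rw [al_eq, be_eq, hcst, hcst, hcst', hcst']
        exact_mod_cast hord' _ (ca_mem _) _ (cb_mem _)
      · rw [be_eq, hz, hcst, hcst', hcst']
        exact_mod_cast hord' _ hc1 _ (cb_mem _)
      · rw [al_eq, hz, hcst, hcst', hcst']
        exact_mod_cast hord' _ hc1 _ (ca_mem _)
  have hfin := cancel g
  rwa [e0_cell n p N0 P0 hn hp hg hc hnd] at hfin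

end Pool.Agent.Z3
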