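import Pool.Agent.Z3.ABound

/-!
Upper bound for the coefficient of zeta(3), sharper constant.
-/

open Finset
open scoped BigOperators

namespace Pool.Agent.Z3

theorem RR_le2 : RR ≤ Real.exp 85.90725 := by
  have h1 : Real.exp 85.90725 = Real.exp 1 ^ 85 * Real.exp 0.90725 := by
    rw [← Real.exp_nat_mul, ← Real.exp_add]
    norm_num
  have h2 : (2.7182818283 : ℝ) ^ 85 ≤ Real.exp 1 ^ 85 := pow_le_pow_left₀ (by norm_num) Real.exp_one_gt_d9.le _
  have h3 := Real.sum_le_exp_of_nonneg (x := 0.90725) (by norm_num) 10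
  simp only [sum_range_succ, range_zero, sum_empty, Nat.factorial] at h3
  rw [h1]
  have h4 : RR ≤ (2.7182818283 : ℝ) ^ 85 * 2.4773 := by
    unfold RR
    norm_num
  refine h4.trans (mul_le_mul h2 ?_ (by norm_num) (by positivity))
  refine le_trans ?_ h3
  norm_num

theorem a_bound2 : ∃ C : ℝ, ∃ D : ℕ, ∀ N j : ℕ, 1 ≤ N → j ≤ 2 →
    |((a (4 * N) j : ℚ) : ℝ)| ≤ C * (N : ℝ) ^ D * Real.exp (343.629 * N) := by
  refine ⟨2 * (86 * (162 ^ 2 * (75 / 7))), 3, fun N j hN hj => ?_⟩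
  have hN1 : (1 : ℝ) ≤ N := by exact_mod_cast hN
  have hR : (0 : ℝ) ≤ RR := by unfold RR; positivity
  have hE : RR ^ (4 * N) ≤ Real.exp (343.629 * N) := by
    calc RR ^ (4 * N) ≤ Real.exp 85.90725 ^ (4 * N) := pow_le_pow_left₀ hR RR_le2 _
      _ = Real.exp (343.629 * N) := by
        rw [← Real.exp_nat_mul]
        congr 1
        push_cast
        ring
  have hterm : ∀ k ∈ K1 (4 * N), |((A (4 * N) j k : ℚ) : ℝ)| ≤ (162 * (N : ℝ)) ^ 2 * (75 / 7 * Real.exp (343.629 * N)) := by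
    intro k hk
    unfold K1 at hk
    rw [mem_Ico] at hk
    unfold A
    push_cast
    rw [abs_mul, abs_pow, abs_neg, Nat.abs_cast, abs_of_nonneg (by exact_mod_cast A0_nonneg (4 * N) k)]
    have h1 : (k : ℝ) ≤ 162 * N := by
      have : k ≤ 162 * N := by omega
      exact_mod_cast this
    have h2 : (k : ℝ) ^ j ≤ (162 * (N : ℝ)) ^ 2 := by
      calc (k : ℝ) ^ j ≤ (162 * (N : ℝ)) ^ j := by gcongr
        _ ≤ (162 * (N : ℝ)) ^ 2 := pow_le_pow_right₀ (by linarith) hj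
    have h3 : ((A0 (4 * N) k : ℚ) : ℝ) ≤ 75 / 7 * Real.exp (343.629 * N) :=
      (A0_bound (4 * N) k).trans (by gcongr)
    exact mul_le_mul h2 h3 (by exact_mod_cast A0_nonneg (4 * N) k) (by positivity)
  unfold a
  push_cast
  rw [abs_mul, abs_of_nonneg (by norm_num : (0 : ℝ) ≤ 2)]
  have hsum : |∑ k ∈ K1 (4 * N), ((A (4 * N) j k : ℚ) : ℝ)| ≤ (86 * N) * ((162 * (N : ℝ)) ^ 2 * (75 / 7 * Real.exp (343.629 * N))) := by
    refine (abs_sum_le_sum_abs _ _).trans ?_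
    refine (sum_le_sum hterm).trans ?_
    rw [sum_const, nsmul_eq_mul]
    apply mul_le_mul_of_nonneg_right _ (by positivity)
    have : (K1 (4 * N)).card ≤ 86 * N := by
      unfold K1
      rw [Nat.card_Ico]
      omega
    exact_mod_cast this
  calc 2 * |∑ k ∈ K1 (4 * N), ((A (4 * N) j k : ℚ) : ℝ)| ≤ 2 * ((86 * N) * ((162 * (N : ℝ)) ^ 2 * (75 / 7 * Real.exp (343.629 * N)))) := by
        gcongr
    _ = 2 * (86 * (162 ^ 2 * (75 / 7))) * (N : ℝ) ^ 3 * Real.exp (343.629 * N) := by ring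

end Pool.Agent.Z3
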