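import Pool.Agent.Z3.Defs

/-!
A general lemma on irrationality exponents: small linear forms with a non-vanishing condition.
-/

open Filter Topology

namespace Pool.Agent.Z3

/-- general lemma on irrationality exponents -/
theorem measure (xi : ℝ) (c0 c1 : ℝ) (hc0 : 0 < c0) (hc1 : 0 < c1)
    (h : ∀ᶠ N : ℕ in atTop, ∃ u v : Fin 3 → ℤ, (∀ j, |(u j : ℝ)| ≤ Real.exp (c1 * N)) ∧
      (∀ j, |(u j : ℝ) * xi - v j| ≤ Real.exp (-(c0 * N))) ∧
      ∀ r : ℚ, ∃ j, (u j : ℚ) * r ≠ v j) (mu : ℝ) (hmu : 1 + c1 / c0 < mu) :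
    ∃ Q : ℕ, ∀ q : ℕ, Q ≤ q → ∀ p : ℤ, (q : ℝ) ^ (-mu) < |xi - p / q| := by
  obtain ⟨N0, hN0⟩ := eventually_atTop.mp h
  have hδ : 0 < mu - (1 + c1 / c0) := by linarith
  have t1 : Tendsto (fun q : ℕ => (q : ℝ) ^ (mu - (1 + c1 / c0))) atTop atTop :=
    (tendsto_rpow_atTop hδ).comp tendsto_natCast_atTop_atTop
  have t2 : Tendsto (fun q : ℕ => Real.log (q : ℝ)) atTop atTop :=
    Real.tendsto_log_atTop.comp tendsto_natCast_atTop_atTop
  have ev : ∀ᶠ q : ℕ in atTop, 1 ≤ q ∧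
      (2 : ℝ) ^ (1 + c1 / c0) * Real.exp c1 < (q : ℝ) ^ (mu - (1 + c1 / c0)) ∧
      c0 * N0 ≤ Real.log (q : ℝ) :=
    (eventually_ge_atTop 1).and ((t1.eventually_gt_atTop _).and (t2.eventually_ge_atTop _))
  obtain ⟨Q, hQ⟩ := eventually_atTop.mp ev
  refine ⟨Q, fun q hq p => ?_⟩
  obtain ⟨hq1, hq2, hq3⟩ := hQ q hq
  have hq0 : (0 : ℝ) < q := by exact_mod_cast hq1
  have hlog2 : 0 < Real.log 2 := Real.log_pos (by norm_num)
  have hl : Real.log (2 * q) = Real.log 2 + Real.log q := Real.log_mul (by norm_num) hq0.ne'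
  -- the index
  set N : ℕ := ⌈Real.log (2 * q) / c0⌉₊ with hN
  have hN1 : Real.log (2 * q) / c0 ≤ N := Nat.le_ceil _
  have hlpos : 0 ≤ Real.log (2 * q) / c0 := by
    apply div_nonneg _ hc0.le
    have : 0 ≤ c0 * N0 := by positivity
    rw [hl]; linarith
  have hN2 : (N : ℝ) < Real.log (2 * q) / c0 + 1 := Nat.ceil_lt_add_one hlpos
  have hNN0 : N0 ≤ N := by
    have : (N0 : ℝ) ≤ N := by
      refine le_trans ?_ hN1
      rw [le_div_iff₀ hc0, hl]
      linarith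
    exact_mod_cast this
  obtain ⟨u, v, hu, hv, hr⟩ := hN0 N hNN0
  obtain ⟨j, hj⟩ := hr ((p : ℚ) / q)
  -- lower bound 1/q
  have hlow : 1 / (q : ℝ) ≤ |(u j : ℝ) * ((p : ℝ) / q) - v j| := by
    have hz : u j * p - v j * (q : ℤ) ≠ 0 := by
      intro h0
      apply hj
      have hq' : (q : ℚ) ≠ 0 := by exact_mod_cast hq0.ne'
      have h1 : ((u j * p - v j * (q : ℤ) : ℤ) : ℚ) = 0 := by rw [h0]; norm_num
      push_cast at h1
      field_simp
      linarith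
    have h1 : (1 : ℝ) ≤ |((u j * p - v j * (q : ℤ) : ℤ) : ℝ)| := by
      rw [← Int.cast_abs]
      exact_mod_cast Int.one_le_abs hz
    have h2 : (u j : ℝ) * ((p : ℝ) / q) - v j = ((u j * p - v j * (q : ℤ) : ℤ) : ℝ) / q := by
      push_cast
      field_simp
    rw [h2, abs_div, abs_of_pos hq0]
    exact div_le_div_of_nonneg_right h1 hq0.le
  have htri : |(u j : ℝ) * ((p : ℝ) / q) - v j| ≤
      |(u j : ℝ)| * |xi - p / q| + |(u j : ℝ) * xi - v j| := by
    have e : (u j : ℝ) * ((p : ℝ) / q) - v j =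
      -((u j : ℝ) * (xi - p / q)) + ((u j : ℝ) * xi - v j) := by ring
    rw [e]
    refine (abs_add_le _ _).trans ?_
    rw [abs_neg, abs_mul]
  have hsmall : Real.exp (-(c0 * N)) ≤ 1 / (2 * q) := by
    have h1 : Real.log (2 * q) ≤ c0 * N := by
      rw [div_le_iff₀ hc0] at hN1
      linarith
    rw [Real.exp_neg, one_div]
    apply inv_anti₀ (by positivity)
    calc (2 * q : ℝ) = Real.exp (Real.log (2 * q)) := (Real.exp_log (by positivity)).symm
      _ ≤ Real.exp (c0 * N) := Real.exp_le_exp.mpr h1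
  have hvj := (hv j).trans hsmall
  have hmain : 1 / (2 * q) ≤ Real.exp (c1 * N) * |xi - p / q| := by
    have h3 : |(u j : ℝ)| * |xi - p / q| ≤ Real.exp (c1 * N) * |xi - p / q| :=
      mul_le_mul_of_nonneg_right (hu j) (abs_nonneg _)
    have e : 1 / (q : ℝ) = 1 / (2 * q) + 1 / (2 * q) := by field_simp; norm_num
    linarith
  -- upper bound for the exponential
  have hexp : Real.exp (c1 * N) ≤ (2 * q : ℝ) ^ (c1 / c0) * Real.exp c1 := by
    rw [Real.rpow_def_of_pos (by positivity), ← Real.exp_add]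
    apply Real.exp_le_exp.mpr
    calc c1 * N ≤ c1 * (Real.log (2 * q) / c0 + 1) :=
          mul_le_mul_of_nonneg_left hN2.le hc1.le
      _ = Real.log (2 * q) * (c1 / c0) + c1 := by ring
  have hpos : 0 < |xi - p / q| := by
    by_contra hcon
    have h0 : |xi - p / q| = 0 := le_antisymm (not_lt.mp hcon) (abs_nonneg _)
    rw [h0, mul_zero] at hmain
    have : 0 < 1 / (2 * (q : ℝ)) := by positivity
    linarith
  have hfin : 1 ≤ (2 * q : ℝ) ^ (1 + c1 / c0) * Real.exp c1 * |xi - p / q| := by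
    have h1 : 1 / (2 * q) ≤ (2 * q : ℝ) ^ (c1 / c0) * Real.exp c1 * |xi - p / q| :=
      hmain.trans (mul_le_mul_of_nonneg_right hexp (abs_nonneg _))
    rw [Real.rpow_add (by positivity), Real.rpow_one]
    rw [div_le_iff₀ (by positivity)] at h1
    linarith
  rw [Real.mul_rpow (by norm_num) hq0.le] at hfin
  have hqm : (q : ℝ) ^ (-mu) * ((q : ℝ) ^ (1 + c1 / c0) * (q : ℝ) ^ (mu - (1 + c1 / c0))) = 1 := by
    rw [← Real.rpow_add hq0, ← Real.rpow_add hq0]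
    have : -mu + (1 + c1 / c0 + (mu - (1 + c1 / c0))) = 0 := by ring
    rw [this, Real.rpow_zero]
  have hA : 0 < (q : ℝ) ^ (1 + c1 / c0) := by positivity
  have hB : 0 < (q : ℝ) ^ (mu - (1 + c1 / c0)) := by positivity
  -- compare
  have hlt : (q : ℝ) ^ (1 + c1 / c0) * ((2 : ℝ) ^ (1 + c1 / c0) * Real.exp c1) * |xi - p / q| <
      (q : ℝ) ^ (1 + c1 / c0) * (q : ℝ) ^ (mu - (1 + c1 / c0)) * |xi - p / q| := by
    apply mul_lt_mul_of_pos_right _ hpos
    exact mul_lt_mul_of_pos_left hq2 hA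
  have h5 : 1 < (q : ℝ) ^ (1 + c1 / c0) * (q : ℝ) ^ (mu - (1 + c1 / c0)) * |xi - p / q| := by
    refine lt_of_le_of_lt (le_trans hfin (le_of_eq ?_)) hlt
    ring
  have hC : 0 < (q : ℝ) ^ (-mu) := by positivity
  have h6 := mul_lt_mul_of_pos_left h5 hC
  rw [mul_one] at h6
  calc (q : ℝ) ^ (-mu) < (q : ℝ) ^ (-mu) *
        ((q : ℝ) ^ (1 + c1 / c0) * (q : ℝ) ^ (mu - (1 + c1 / c0)) * |xi - p / q|) := h6
    _ = ((q : ℝ) ^ (-mu) * ((q : ℝ) ^ (1 + c1 / c0) * (q : ℝ) ^ (mu - (1 + c1 / c0)))) *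
        |xi - p / q| := by ring
    _ = |xi - p / q| := by rw [hqm, one_mul]

end Pool.Agent.Z3
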