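import Pool.Agent.Z3.Defs
import Pool.Agent.Z3.Measure

/-!
The final assembly: from the linear forms to the irrationality exponent.
-/

open Filter Topology

namespace Pool.Agent.Z3

/-- polynomial factors are harmless -/
theorem poly_exp_le (C : ℝ) (D : ℕ) (ε : ℝ) (hε : 0 < ε) :
    ∀ᶠ N : ℕ in atTop, C * (N : ℝ) ^ D ≤ Real.exp (ε * N) := by
  have h1 : Tendsto (fun x : ℝ => x ^ D / Real.exp (ε * x)) atTop (𝓝 0) := by
    have h := tendsto_rpow_mul_exp_neg_mul_atTop_nhds_zero (D : ℝ) ε hε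
    refine h.congr' ?_
    filter_upwards [eventually_gt_atTop 0] with x hx
    rw [Real.rpow_natCast, neg_mul, Real.exp_neg, div_eq_mul_inv]
  have h2 : Tendsto (fun x : ℝ => C * (x ^ D / Real.exp (ε * x))) atTop (𝓝 0) := by
    simpa using h1.const_mul C
  have h3 := (h2.comp tendsto_natCast_atTop_atTop).eventually_lt_const (show (0 : ℝ) < 1 by norm_num)
  filter_upwards [h3] with N hN
  simp only [Function.comp_apply] at hN
  rw [← mul_div_assoc, div_lt_one (Real.exp_pos _)] at hN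
  exact hN.le

/-- the general assembly: linear forms `F N j = aa N j * xi - bb N j` with common denominators
`DD N` -/
theorem assemble (xi : ℝ) (aa bb : ℕ → ℕ → ℚ) (DD : ℕ → ℕ) (F : ℕ → ℕ → ℂ)
    (f g δ c0 c1 mu : ℝ)
    (hDD : ∀ N, 1 ≤ N → 0 < DD N)
    (hF : ∀ N j, 1 ≤ N → j ≤ 2 → F N j = ((aa N j : ℚ) : ℂ) * (xi : ℂ) - ((bb N j : ℚ) : ℂ))
    (hnv : ∀ N, 1 ≤ N → ∀ l : ℂ, ∃ j : ℕ, j ≤ 2 ∧ F N j ≠ l * ((aa N j : ℚ) : ℂ))
    (hFb : ∃ C : ℝ, ∃ D : ℕ, ∀ N j : ℕ, 1 ≤ N → j ≤ 2 →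
      ‖F N j‖ ≤ C * (N : ℝ) ^ D * Real.exp (-(f * N)))
    (hab : ∃ C : ℝ, ∃ D : ℕ, ∀ N j : ℕ, 1 ≤ N → j ≤ 2 →
      |((aa N j : ℚ) : ℝ)| ≤ C * (N : ℝ) ^ D * Real.exp (g * N))
    (hlog : ∀ᶠ N : ℕ in atTop, Real.log (DD N : ℝ) ≤ δ * N)
    (hint : ∀ N j : ℕ, 1 ≤ N → j ≤ 2 →
      (∃ z : ℤ, (DD N : ℚ) * aa N j = z) ∧ ∃ z : ℤ, (DD N : ℚ) * bb N j = z)
    (hc0 : 0 < c0) (hc1 : 0 < c1) (h0 : c0 < f - δ) (h1 : g + δ < c1) (hmu : 1 + c1 / c0 < mu) :
    ∃ Q : ℕ, ∀ q : ℕ, Q ≤ q → ∀ p : ℤ, (q : ℝ) ^ (-mu) < |xi - p / q| := by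
  refine measure xi c0 c1 hc0 hc1 ?_ mu hmu
  obtain ⟨C, D, hC⟩ := hFb
  obtain ⟨C', D', hC'⟩ := hab
  filter_upwards [eventually_ge_atTop 1, hlog, poly_exp_le C D (f - δ - c0) (by linarith),
    poly_exp_le C' D' (c1 - (g + δ)) (by linarith)] with N hN hl hp hp'
  have hDpos : (0 : ℝ) < DD N := by exact_mod_cast hDD N hN
  have hDle : (DD N : ℝ) ≤ Real.exp (δ * N) := by
    rw [← Real.exp_log hDpos]
    exact Real.exp_le_exp.mpr hl
  have hex : ∀ j : Fin 3, (∃ z : ℤ, (DD N : ℚ) * aa N j = z) ∧ ∃ z : ℤ, (DD N : ℚ) * bb N j = z :=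
    fun j => hint N j hN (by omega)
  choose hu hv using hex
  choose u hu using hu
  choose v hv using hv
  have huR : ∀ j, (u j : ℝ) = (DD N : ℝ) * ((aa N j : ℚ) : ℝ) := by
    intro j
    have := hu j
    rw [show (u j : ℝ) = ((u j : ℚ) : ℝ) by push_cast; rfl, ← this]
    push_cast
    rfl
  have hvR : ∀ j, (v j : ℝ) = (DD N : ℝ) * ((bb N j : ℚ) : ℝ) := by
    intro j
    have := hv j
    rw [show (v j : ℝ) = ((v j : ℚ) : ℝ) by push_cast; rfl, ← this]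
    push_cast
    rfl
  refine ⟨u, v, ?_, ?_, ?_⟩
  · intro j
    rw [huR, abs_mul, abs_of_pos hDpos]
    calc (DD N : ℝ) * |((aa N j : ℚ) : ℝ)|
        ≤ Real.exp (δ * N) * (C' * (N : ℝ) ^ D' * Real.exp (g * N)) :=
          mul_le_mul hDle (hC' N j hN (by omega)) (abs_nonneg _) (Real.exp_pos _).le
      _ ≤ Real.exp (δ * N) * (Real.exp ((c1 - (g + δ)) * N) * Real.exp (g * N)) := by
          gcongr
      _ = Real.exp (c1 * N) := by
          rw [← Real.exp_add, ← Real.exp_add]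
          congr 1
          ring
  · intro j
    have hFj : |((aa N j : ℚ) : ℝ) * xi - ((bb N j : ℚ) : ℝ)| = ‖F N j‖ := by
      rw [hF N j hN (by omega), ← Real.norm_eq_abs, ← Complex.norm_real]
      push_cast
      rfl
    rw [huR, hvR, mul_assoc, ← mul_sub, abs_mul, abs_of_pos hDpos, hFj]
    calc (DD N : ℝ) * ‖F N j‖
        ≤ Real.exp (δ * N) * (C * (N : ℝ) ^ D * Real.exp (-(f * N))) :=
          mul_le_mul hDle (hC N j hN (by omega)) (norm_nonneg _) (Real.exp_pos _).le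
      _ ≤ Real.exp (δ * N) * (Real.exp ((f - δ - c0) * N) * Real.exp (-(f * N))) := by
          gcongr
      _ = Real.exp (-(c0 * N)) := by
          rw [← Real.exp_add, ← Real.exp_add]
          congr 1
          ring
  · intro r
    by_contra hcon
    push Not at hcon
    obtain ⟨j, hj, hne⟩ := hnv N hN ((xi : ℂ) - ((r : ℚ) : ℂ))
    apply hne
    have h2 := hcon ⟨j, by omega⟩
    have hu2 := hu ⟨j, by omega⟩
    have hv2 := hv ⟨j, by omega⟩
    simp only at hu2 hv2 h2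
    rw [← hu2, ← hv2] at h2
    have hDq : (DD N : ℚ) ≠ 0 := by exact_mod_cast (hDD N hN).ne'
    have h3 : bb N j = aa N j * r := by
      apply mul_left_cancel₀ hDq
      rw [← h2]; ring
    rw [hF N j hN hj, h3]
    push_cast
    ring

end Pool.Agent.Z3
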