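import Pool.Agent.Z3.PF

/-!
The rational part b does not depend on the threshold 2n <= m <= 15n of the harmonic sums.
-/

open Finset
open scoped BigOperators

namespace Pool.Agent.Z3

theorem bs_K1_ge {n k : ℕ} (hk : k ∈ K1 n) : 19 * n ≤ k := by
  unfold K1 at hk
  rw [mem_Ico] at hk
  exact hk.1

theorem bs_ne {n k : ℕ} (hk : k ∈ K1 n) {t : ℂ} (ht : -(19 * (n : ℝ)) < t.re) : t + (k : ℂ) ≠ 0 := by
  intro h
  have h1 : (t + (k : ℂ)).re = 0 := by rw [h]; simp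
  have h2 : (19 * (n : ℝ)) ≤ k := by exact_mod_cast bs_K1_ge hk
  simp only [Complex.add_re, Complex.natCast_re] at h1
  linarith

theorem bs_deriv_zero (n j i : ℕ) (h1 : 2 * n ≤ i) (h2 : i < 15 * n) :
    deriv (G n j : ℂ → ℂ) (-(i : ℂ)) = 0 := by
  set x : ℂ := -(i : ℂ) with hx
  have hx' : x + (i : ℂ) = 0 := by rw [hx]; ring
  have hxre : -(19 * (n : ℝ)) < x.re := by
    rw [hx]
    have h3 : (i : ℝ) < 15 * n := by exact_mod_cast h2
    have hn0 : (0 : ℝ) ≤ n := Nat.cast_nonneg n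
    simp only [Complex.neg_re, Complex.natCast_re]
    linarith
  have hden : den n x ≠ 0 := by
    unfold den
    apply mul_ne_zero
    · rw [prod_ne_zero_iff]
      intro k hk
      exact bs_ne (n := n) hk hxre
    · rw [prod_ne_zero_iff]
      intro k hk
      have hk1 : k ∈ K1 n := by
        unfold K2 at hk; unfold K1
        rw [mem_Ico] at hk ⊢
        omega
      exact bs_ne (n := n) hk1 hxre
  have hu : DifferentiableAt ℂ (fun t : ℂ => ∏ i ∈ N1 n, (t + (i : ℂ))) x := by fun_prop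
  have hd : DifferentiableAt ℂ (fun t : ℂ => den n t) x := by unfold den; fun_prop
  have hv : DifferentiableAt ℂ (fun t : ℂ => (kap n : ℂ) * t ^ j * ((∏ i ∈ N2 n, (t + (i : ℂ))) * ∏ i ∈ N3 n, (t + (i : ℂ))) / den n t) x := by
    apply DifferentiableAt.div _ hd hden
    fun_prop
  have hu0 : (∏ i ∈ N1 n, (x + (i : ℂ))) = 0 := by
    apply prod_eq_zero (i := i) _ hx'
    unfold N1; rw [mem_Ico]; omega
  have hv0 : (∏ i ∈ N2 n, (x + (i : ℂ))) = 0 := by
    apply prod_eq_zero (i := i) _ hx'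
    unfold N2; rw [mem_Ico]; omega
  have h3 := hu.hasDerivAt.mul hv.hasDerivAt
  have h4 : (G n j : ℂ → ℂ) = (fun t : ℂ => ∏ i ∈ N1 n, (t + (i : ℂ))) *
      (fun t : ℂ => (kap n : ℂ) * t ^ j * ((∏ i ∈ N2 n, (t + (i : ℂ))) * ∏ i ∈ N3 n, (t + (i : ℂ))) / den n t) := by
    funext t
    simp only [G, num, Pi.mul_apply]
    ring
  rw [h4, h3.deriv]
  simp only [hu0, hv0]
  simp

/-- the derivative of the partial fraction expansion at the double zeros -/
theorem bs_sum_zero (n j i : ℕ) (hn : 1 ≤ n) (hj : j ≤ 3) (h1 : 2 * n ≤ i) (h2 : i < 15 * n) :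
    ∑ k ∈ K1 n, (2 * A n j k * (1 / (((k - i : ℕ) : ℚ)) ^ 3) + B n j k * (1 / (((k - i : ℕ) : ℚ)) ^ 2)) = 0 := by
  set x : ℂ := -(i : ℂ) with hx
  have hxre : -(19 * (n : ℝ)) < x.re := by
    rw [hx]
    have h3 : (i : ℝ) < 15 * n := by exact_mod_cast h2
    have hn0 : (0 : ℝ) ≤ n := Nat.cast_nonneg n
    simp only [Complex.neg_re, Complex.natCast_re]
    linarith
  have hopen : IsOpen {t : ℂ | -(19 * (n : ℝ)) < t.re} := isOpen_lt continuous_const Complex.continuous_re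
  have hev : (G n j : ℂ → ℂ) =ᶠ[nhds x] fun t => ∑ k ∈ K1 n, ((A n j k : ℂ) / (t + (k : ℂ)) ^ 2 + (B n j k : ℂ) / (t + (k : ℂ))) := by
    filter_upwards [hopen.mem_nhds hxre] with t ht
    exact partial_fraction n j hn hj t (fun k hk => bs_ne hk ht)
  have hder : HasDerivAt (fun t : ℂ => ∑ k ∈ K1 n, ((A n j k : ℂ) / (t + (k : ℂ)) ^ 2 + (B n j k : ℂ) / (t + (k : ℂ))))
      (∑ k ∈ K1 n, (-(2 * (A n j k : ℂ) / (x + (k : ℂ)) ^ 3) - (B n j k : ℂ) / (x + (k : ℂ)) ^ 2)) x := by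
    apply HasDerivAt.fun_sum
    intro k hk
    have hne := bs_ne hk hxre
    have hid : HasDerivAt (fun t : ℂ => t + (k : ℂ)) 1 x := (hasDerivAt_id x).add_const _
    have e1 : HasDerivAt (fun t : ℂ => (A n j k : ℂ) / (t + (k : ℂ)) ^ 2)
        (-(2 * (A n j k : ℂ) / (x + (k : ℂ)) ^ 3)) x := by
      refine ((hasDerivAt_const x (A n j k : ℂ)).fun_div (hid.fun_pow 2) (pow_ne_zero 2 hne)).congr_deriv ?_
      field_simp
      ring
    have e2 : HasDerivAt (fun t : ℂ => (B n j k : ℂ) / (t + (k : ℂ)))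
        (-((B n j k : ℂ) / (x + (k : ℂ)) ^ 2)) x := by
      refine ((hasDerivAt_const x (B n j k : ℂ)).fun_div hid hne).congr_deriv ?_
      field_simp
      ring
    exact (e1.fun_add e2).congr_deriv (by ring)
  have hz := bs_deriv_zero n j i h1 h2
  rw [← hx, hev.deriv_eq, hder.deriv] at hz
  have hz2 : ∑ k ∈ K1 n, (2 * (A n j k : ℂ) * (1 / (((k - i : ℕ) : ℂ)) ^ 3) + (B n j k : ℂ) * (1 / (((k - i : ℕ) : ℂ)) ^ 2)) = 0 := by
    have h5 : ∑ k ∈ K1 n, (2 * (A n j k : ℂ) * (1 / (((k - i : ℕ) : ℂ)) ^ 3) + (B n j k : ℂ) * (1 / (((k - i : ℕ) : ℂ)) ^ 2)) =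
        - ∑ k ∈ K1 n, (-(2 * (A n j k : ℂ) / (x + (k : ℂ)) ^ 3) - (B n j k : ℂ) / (x + (k : ℂ)) ^ 2) := by
      rw [← Finset.sum_neg_distrib]
      refine Finset.sum_congr rfl fun k hk => ?_
      have hk1 := bs_K1_ge hk
      have h6 : ((k - i : ℕ) : ℂ) = x + (k : ℂ) := by
        rw [Nat.cast_sub (by omega), hx]; ring
      rw [h6]
      ring
    rw [h5, hz, neg_zero]
  have hz3 : ((∑ k ∈ K1 n, (2 * A n j k * (1 / (((k - i : ℕ) : ℚ)) ^ 3) +
      B n j k * (1 / (((k - i : ℕ) : ℚ)) ^ 2)) : ℚ) : ℂ) = 0 := by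
    rw [← hz2, Rat.cast_sum]
    refine Finset.sum_congr rfl fun k _ => ?_
    simp only [Rat.cast_add, Rat.cast_mul, Rat.cast_div, Rat.cast_one, Rat.cast_pow, Rat.cast_natCast,
      Rat.cast_ofNat]
  exact Rat.cast_eq_zero.1 hz3

theorem bs_H_succ (s m : ℕ) : H s (m + 1) = H s m + 1 / ((m : ℚ) + 1) ^ s := by
  unfold H
  rw [Finset.sum_range_succ]

theorem bs_step (n j m : ℕ) (hn : 1 ≤ n) (hj : j ≤ 3) (h1 : 2 * n ≤ m) (h2 : m < 15 * n) :
    ∑ k ∈ K1 n, (2 * A n j k * H 3 (k - m) + B n j k * H 2 (k - m)) =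
      ∑ k ∈ K1 n, (2 * A n j k * H 3 (k - (m + 1)) + B n j k * H 2 (k - (m + 1))) := by
  rw [← sub_eq_zero, ← Finset.sum_sub_distrib, ← bs_sum_zero n j m hn hj h1 h2]
  refine Finset.sum_congr rfl fun k hk => ?_
  have hk1 := bs_K1_ge hk
  have h3 : k - m = (k - (m + 1)) + 1 := by omega
  have h4 : ((k - m : ℕ) : ℚ) = ((k - (m + 1) : ℕ) : ℚ) + 1 := by rw [h3]; push_cast; rfl
  rw [h4, h3, bs_H_succ, bs_H_succ]
  ring

/-- the threshold in the rational part may be any m with 2n <= m <= 15n -/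
theorem b_shift (n j m : ℕ) (hn : 1 ≤ n) (hj : j ≤ 2) (h1 : 2 * n ≤ m) (h2 : m ≤ 15 * n) :
    b n j = ∑ k ∈ K1 n, (2 * A n j k * H 3 (k - m) + B n j k * H 2 (k - m)) := by
  obtain ⟨d, hd⟩ : ∃ d, 15 * n = m + d := ⟨15 * n - m, by omega⟩
  induction d generalizing m with
  | zero =>
    have : m = 15 * n := by omega
    subst this
    rfl
  | succ d ih =>
    rw [bs_step n j m hn (by omega) h1 (by omega)]
    exact ih (m + 1) (by omega) (by omega) (by omega)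

end Pool.Agent.Z3
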