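import Pool.Agent.Z3.TableDefs

/-!
The check of a cell with second order cancellation.
-/

open Finset

namespace Pool.Agent.Z3

/-- cyclic distance from the point c0 to the point c -/
def cyc0 (N0 P0 c0 c : ℕ) : ℤ := ((c * N0 : ℤ) - (c0 * N0 : ℤ)) % P0

/-- c0, c1, c2 are the points at which the left neighbour, the gap and the right neighbour begin,
c3 is the point at which the right neighbour ends -/
def red2Check (N0 P0 c0 c1 c2 c3 : ℕ) : Bool :=
  decide (c0 ∈ pts) && decide (c1 ∈ [13, 15, 17, 19, 20]) && decide (c2 ∈ [0, 2, 4, 38, 40]) &&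
  decide (c3 ∈ pts) && decide ((pts.map (fun c => c * N0 % P0)).Nodup) &&
  decide (phi0 N0 P0 (c1 * N0 % P0) = -1) &&
  pts.all (fun c => decide (c = c0) || decide (c = c1) || decide (c = c2) ||
    decide (1 ≤ phi0 N0 P0 (c * N0 % P0))) &&
  decide (cyc0 N0 P0 c0 c1 < cyc0 N0 P0 c0 c2) && decide (cyc0 N0 P0 c0 c2 < cyc0 N0 P0 c0 c3) &&
  decide (c0 ≠ c1) && decide (c0 ≠ c2) &&
  pts.all (fun c => decide (c = c0) || decide (c = c1) || decide (c = c2) ||
    decide (cyc0 N0 P0 c0 c3 ≤ cyc0 N0 P0 c0 c))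

end Pool.Agent.Z3
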