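import Pool.Agent.Z3.C2Ex

/-!
Second order cancellation, part 3: the abstract theorem.
-/

open Finset

namespace Pool.Agent.Z3.C2

/-- order of the class -/
def ph (T : Finset ℤ) (o : ℤ → ℤ → ℤ) (s : ℤ) : ℤ := ∑ l ∈ T, o s l

/-- first moment of the class -/
def mo (T : Finset ℤ) (o : ℤ → ℤ → ℤ) (s : ℤ) : ℤ := ∑ l ∈ T, o s l * l

/-- the product over the other elements of the class -/
def wq (T : Finset ℤ) (f : ℤ → ℤ) (j : ℤ) : ℚ := ∏ l ∈ T.erase j, ((l : ℚ) - j) ^ f l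

/-- its logarithmic derivative -/
def lq (T : Finset ℤ) (f : ℤ → ℤ) (j : ℤ) : ℚ := ∑ l ∈ T.erase j, (f l : ℚ) / ((l : ℚ) - j)

/-- the product over the other classes -/
def uq (p : ℕ) (W T : Finset ℤ) (o : ℤ → ℤ → ℤ) (s j : ℤ) : ℚ :=
  ∏ s' ∈ W.erase s, ∏ l ∈ T, (((s' - s : ℤ) : ℚ) + p * ((l - j : ℤ) : ℚ)) ^ o s' l

/-- its logarithmic derivative -/
def vq (p : ℕ) (W T : Finset ℤ) (o : ℤ → ℤ → ℤ) (s j : ℤ) : ℚ :=
  ∑ s' ∈ W.erase s, ∑ l ∈ T, (o s' l : ℚ) / (((s' - s : ℤ) : ℚ) + p * ((l - j : ℤ) : ℚ))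

/-- the harmonic functional of a class, one pole -/
def kq (T : Finset ℤ) (f : ℤ → ℤ) (h2 h3 : ℤ → ℚ) (j : ℤ) : ℚ :=
  if f j = -2 then wq T f j * (2 * h3 j + lq T f j * h2 j)
  else if f j = -1 then wq T f j * h2 j else 0

def nq (T : Finset ℤ) (f : ℤ → ℤ) (h2 : ℤ → ℚ) (j : ℤ) : ℚ :=
  if f j = -2 then wq T f j * h2 j else 0

/-- one term of the rational part -/
def tm (p : ℕ) (W T : Finset ℤ) (o : ℤ → ℤ → ℤ) (e : ℕ) (X2 X3 : ℤ → ℤ → ℚ) (s j : ℤ) : ℚ :=
  if o s j = -2 then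
    (p : ℚ) ^ (ph T o s + 2) * (wq T (o s) j * uq p W T o s j) *
      ((-((s + j * p : ℤ) : ℚ)) ^ e * (2 * X3 s j + (lq T (o s) j / p + vq p W T o s j) * X2 s j) +
        e * (-((s + j * p : ℤ) : ℚ)) ^ (e - 1) * X2 s j)
  else if o s j = -1 then
    (p : ℚ) ^ (ph T o s + 1) * (wq T (o s) j * uq p W T o s j) *
      ((-((s + j * p : ℤ) : ℚ)) ^ e * X2 s j)
  else 0

section

variable {p : ℕ} [hF : Fact p.Prime] {T : Finset ℤ} {o : ℤ → ℤ → ℤ} {m : ℤ}

omit hF in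
theorem window_unit {s s' : ℤ} (hs : s ∈ Ico m (m + p)) (hs' : s' ∈ (Ico m (m + p)).erase s) :
    ¬ (p : ℤ) ∣ s' - s := by
  intro hd
  obtain ⟨h1, h2⟩ := mem_erase.1 hs'
  rw [mem_Ico] at hs h2
  have : s' - s = 0 := by
    apply Int.eq_zero_of_abs_lt_dvd hd
    rw [abs_lt]
    constructor <;> linarith
  apply h1
  linarith

theorem prod_zpow_sum {x : ℚ} (hx : x ≠ 0) (f : ℤ → ℤ) (T : Finset ℤ) :
    ∏ l ∈ T, x ^ f l = x ^ (∑ l ∈ T, f l) := by
  induction T using Finset.induction_on with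
  | empty => simp
  | insert a S ha ih => rw [prod_insert ha, sum_insert ha, ih, zpow_add₀ hx]

/-- expansion of the product over the other classes -/
theorem ex_uq (s j : ℤ) (hs : s ∈ Ico m (m + p)) :
    Ex p (uq p (Ico m (m + p)) T o s j) (Pq (Ico m (m + p)) (ph T o) s)
      (∑ s' ∈ (Ico m (m + p)).erase s, ((mo T o s' : ℚ) - j * ph T o s') / ((s' : ℚ) - s)) := by
  unfold uq Pq
  refine Ex.prod _ _ _ _ fun s' hs' => ?_
  have hun := window_unit hs hs'
  have hne : ((s' : ℚ) - s) ≠ 0 := cast_sub_ne (mem_erase.1 hs').1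
  have h1 := Ex.prod T _ _ _ fun l _ => (Ex.lin (p := p) (s' - s) (l - j) hun).zpow (o s' l)
  push_cast at h1 ⊢
  rw [prod_zpow_sum hne] at h1
  convert h1 using 1
  · rfl
  · rw [mo, ph]
    push_cast
    rw [Finset.mul_sum, ← Finset.sum_sub_distrib, Finset.sum_div]
    apply Finset.sum_congr rfl
    intro l _
    ring

theorem near_vq (s j : ℤ) (hs : s ∈ Ico m (m + p)) :
    padicNorm p (vq p (Ico m (m + p)) T o s j -
      ∑ s' ∈ (Ico m (m + p)).erase s, (ph T o s' : ℚ) / ((s' : ℚ) - s)) ≤ (p : ℚ)⁻¹ := by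
  unfold vq
  rw [← Finset.sum_sub_distrib]
  refine padicNorm.sum_le' (fun s' hs' => ?_) inv_nonneg'
  have hun := window_unit hs hs'
  rw [ph, Int.cast_sum, Finset.sum_div, ← Finset.sum_sub_distrib]
  refine padicNorm.sum_le' (fun l _ => ?_) inv_nonneg'
  have hx := Ex.lin (p := p) (s' - s) (l - j) hun
  have h1 := hx.norm_eq
  have h2 := hx.unit
  have n1 : (((s' - s : ℤ) : ℚ) + p * ((l - j : ℤ) : ℚ)) ≠ 0 := by
    intro h
    rw [h, padicNorm.zero] at h1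
    norm_num at h1
  have n2 : ((s' - s : ℤ) : ℚ) ≠ 0 := by
    intro h
    rw [h, padicNorm.zero] at h2
    norm_num at h2
  have e1 : (o s' l : ℚ) / (((s' - s : ℤ) : ℚ) + p * ((l - j : ℤ) : ℚ)) - (o s' l : ℚ) / ((s' : ℚ) - s) =
      (p : ℚ) * (((-(o s' l * (l - j)) : ℤ) : ℚ) *
        (1 / ((((s' - s : ℤ) : ℚ) + p * ((l - j : ℤ) : ℚ)) * ((s' - s : ℤ) : ℚ)))) := by
    have e2 : ((s' : ℚ) - s) = ((s' - s : ℤ) : ℚ) := by push_cast; ring
    rw [e2]
    field_simp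
    push_cast
    ring
  rw [e1]
  refine nmul2 npp.le (nmul1 (nint _) ?_)
  rw [padicNorm.div, padicNorm.mul, h1, h2]
  simp

theorem norm_wq {f : ℤ → ℤ} {j : ℤ} (hu : ∀ l ∈ T, l ≠ j → f l ≠ 0 → ¬ (p : ℤ) ∣ l - j) :
    padicNorm p (wq T f j) = 1 := by
  unfold wq
  have h : ∀ S : Finset ℤ, S ⊆ T.erase j → padicNorm p (∏ l ∈ S, ((l : ℚ) - j) ^ f l) = 1 := by
    intro S
    induction S using Finset.induction_on with
    | empty => intro _; simp
    | insert a S ha ih =>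
      intro hS
      rw [prod_insert ha, padicNorm.mul, ih (fun x hx => hS (mem_insert_of_mem hx)), mul_one]
      obtain ⟨h1, h2⟩ := mem_erase.1 (hS (mem_insert_self a S))
      by_cases h0 : f a = 0
      · rw [h0, zpow_zero, padicNorm.one]
      · have h3 := nunit (hu a h2 h1 h0)
        have hx : Ex p ((a : ℚ) - j) ((a : ℚ) - j) 0 := by
          refine ⟨by push_cast at h3; exact h3, by rw [padicNorm.zero]; norm_num, ?_⟩
          simp only [mul_zero, add_zero, mul_one, sub_self]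
          rw [padicNorm.zero]
          positivity
        exact (hx.zpow (f a)).norm_eq
  exact h _ (Finset.Subset.refl _)

theorem norm_lq {f : ℤ → ℤ} {j : ℤ} (hu : ∀ l ∈ T, l ≠ j → f l ≠ 0 → ¬ (p : ℤ) ∣ l - j) :
    padicNorm p (lq T f j) ≤ 1 := by
  unfold lq
  refine padicNorm.sum_le' (fun l hl => ?_) zero_le_one
  obtain ⟨h1, h2⟩ := mem_erase.1 hl
  by_cases h0 : f l = 0
  · rw [h0, Int.cast_zero, zero_div, padicNorm.zero]
    norm_num
  · have h3 := nunit (hu l h2 h1 h0)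
    push_cast at h3
    rw [padicNorm.div, h3, div_one]
    exact nint _

/-- the values of the functional at the neighbours of the gap -/
theorem kq_neighbour {f g : ℤ → ℤ} {h2 h3 : ℤ → ℚ} {c : ℤ} (hc : c ∈ T)
    (hg : ∀ l ∈ T, g l = f l + if l = c then 1 else 0) (hf : ∀ l ∈ T, -2 ≤ f l) {j : ℤ} (hj : j ∈ T) :
    kq T g h2 h3 j = ((c : ℚ) - j) * kq T f h2 h3 j + nq T f h2 j := by
  by_cases hjc : j = c
  · subst hjc
    have e1 : g j = f j + 1 := by
      rw [hg j hj, if_pos rfl]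
    have e2 : wq T g j = wq T f j := by
      unfold wq
      apply Finset.prod_congr rfl
      intro l hl
      rw [hg l (mem_of_mem_erase hl), if_neg (ne_of_mem_erase hl), add_zero]
    unfold kq nq
    rw [e1, e2, sub_self, zero_mul, zero_add]
    have h3 := hf j hj
    by_cases h4 : f j = -2
    · rw [if_neg (by omega), if_pos (by omega), if_pos h4]
    · rw [if_neg (by omega), if_neg (by omega), if_neg h4]
  · have e1 : g j = f j := by rw [hg j hj, if_neg hjc, add_zero]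
    have hcj : ((c : ℚ) - j) ≠ 0 := cast_sub_ne (fun h => hjc h.symm)
    have hce : c ∈ T.erase j := mem_erase.2 ⟨fun h => hjc h.symm, hc⟩
    have e2 : wq T g j = ((c : ℚ) - j) * wq T f j := by
      unfold wq
      rw [← Finset.mul_prod_erase (T.erase j) (fun l => ((l : ℚ) - j) ^ g l) hce,
        ← Finset.mul_prod_erase (T.erase j) (fun l => ((l : ℚ) - j) ^ f l) hce, hg c hc, if_pos rfl,
        zpow_add_one₀ hcj]
      have : ∏ x ∈ (T.erase j).erase c, ((x : ℚ) - j) ^ g x =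
          ∏ x ∈ (T.erase j).erase c, ((x : ℚ) - j) ^ f x := by
        apply Finset.prod_congr rfl
        intro l hl
        rw [hg l (mem_of_mem_erase (mem_of_mem_erase hl)), if_neg (ne_of_mem_erase hl), add_zero]
      rw [this]
      ring
    have e3 : lq T g j = lq T f j + 1 / ((c : ℚ) - j) := by
      unfold lq
      rw [← Finset.add_sum_erase (T.erase j) (fun l => (g l : ℚ) / ((l : ℚ) - j)) hce,
        ← Finset.add_sum_erase (T.erase j) (fun l => (f l : ℚ) / ((l : ℚ) - j)) hce, hg c hc, if_pos rfl]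
      have : ∑ x ∈ (T.erase j).erase c, (g x : ℚ) / ((x : ℚ) - j) =
          ∑ x ∈ (T.erase j).erase c, (f x : ℚ) / ((x : ℚ) - j) := by
        apply Finset.sum_congr rfl
        intro l hl
        rw [hg l (mem_of_mem_erase (mem_of_mem_erase hl)), if_neg (ne_of_mem_erase hl), add_zero]
      rw [this]
      push_cast
      ring
    unfold kq nq
    rw [e1, e2, e3]
    split_ifs
    · field_simp
      ring
    · ring
    · ring

theorem norm_uq (s j : ℤ) (hs : s ∈ Ico m (m + p)) :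
    padicNorm p (uq p (Ico m (m + p)) T o s j) ≤ 1 := (ex_uq s j hs).norm_le

theorem norm_vq (s j : ℤ) (hs : s ∈ Ico m (m + p)) :
    padicNorm p (vq p (Ico m (m + p)) T o s j) ≤ 1 := by
  have h := near_vq (T := T) (o := o) s j hs
  have h2 : padicNorm p (∑ s' ∈ (Ico m (m + p)).erase s, (ph T o s' : ℚ) / ((s' : ℚ) - s)) ≤ 1 := by
    refine padicNorm.sum_le' (fun s' hs' => ?_) zero_le_one
    have hun := nunit (window_unit hs hs')
    push_cast at hun
    rw [padicNorm.div, hun, div_one]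
    exact nint _
  have e : vq p (Ico m (m + p)) T o s j = (vq p (Ico m (m + p)) T o s j -
      ∑ s' ∈ (Ico m (m + p)).erase s, (ph T o s' : ℚ) / ((s' : ℚ) - s)) +
      ∑ s' ∈ (Ico m (m + p)).erase s, (ph T o s' : ℚ) / ((s' : ℚ) - s) := by ring
  rw [e]
  exact nadd (h.trans inv_le_one) h2

theorem npow (z : ℤ) (n : ℕ) : padicNorm p ((-(z : ℚ)) ^ n) ≤ 1 := by
  have h : (-(z : ℚ)) ^ n = (((-z) ^ n : ℤ) : ℚ) := by push_cast; ring
  rw [h]
  exact nint _

theorem nzp (z : ℤ) : padicNorm p ((p : ℚ) ^ z) = ((p : ℚ)⁻¹) ^ z := by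
  have hx0 : ∀ n : ℕ, padicNorm p ((p : ℚ) ^ n) = ((p : ℚ)⁻¹) ^ n := by
    intro n
    induction n with
    | zero => simp
    | succ n ih => rw [pow_succ, padicNorm.mul, ih, npp, pow_succ]
  cases z with
  | ofNat n => rw [Int.ofNat_eq_natCast, zpow_natCast, zpow_natCast, hx0]
  | negSucc n =>
    rw [zpow_negSucc, zpow_negSucc, inv_eq_one_div, padicNorm.div, padicNorm.one, hx0, one_div]

theorem zpow_le_one_of_nonneg {z : ℤ} (hz : 0 ≤ z) : ((p : ℚ)⁻¹) ^ z ≤ 1 := by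
  lift z to ℕ using hz
  rw [zpow_natCast]
  exact pow_le_one₀ inv_nonneg' inv_le_one

/-- main part of a term -/
def gm (p : ℕ) (W T : Finset ℤ) (o : ℤ → ℤ → ℤ) (e : ℕ) (h2 h3 : ℤ → ℚ) (s j : ℤ) : ℚ :=
  (p : ℚ) ^ (ph T o s - 1) * (uq p W T o s j * ((-((s + j * p : ℤ) : ℚ)) ^ e * kq T (o s) h2 h3 j +
    p * (nq T (o s) h2 j * ((-((s + j * p : ℤ) : ℚ)) ^ e * vq p W T o s j +
      e * (-((s + j * p : ℤ) : ℚ)) ^ (e - 1)))))

theorem tm_gm {e : ℕ} {h2 h3 : ℤ → ℚ} {X2 X3 : ℤ → ℤ → ℚ} {s j : ℤ} (hs : s ∈ Ico m (m + p))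
    (hph : -1 ≤ ph T o s)
    (hu : o s j < 0 → ∀ l ∈ T, l ≠ j → o s l ≠ 0 → ¬ (p : ℤ) ∣ l - j)
    (hX2 : o s j < 0 → padicNorm p (X2 s j - h2 j / (p : ℚ) ^ 2) ≤ 1)
    (hX3 : o s j = -2 → padicNorm p (X3 s j - h3 j / (p : ℚ) ^ 3) ≤ 1) :
    padicNorm p (tm p (Ico m (m + p)) T o e X2 X3 s j - gm p (Ico m (m + p)) T o e h2 h3 s j) ≤ 1 := by
  have hp0 : (p : ℚ) ≠ 0 := by exact_mod_cast hF.out.ne_zero
  have hq0 : ((p : ℚ)⁻¹) ≠ 0 := inv_ne_zero hp0
  set k : ℤ := s + j * p with hk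
  set W := Ico m (m + p) with hW
  unfold tm gm kq nq
  rw [← hk]
  by_cases h : o s j = -2
  · have hw := norm_wq (p := p) (T := T) (f := o s) (j := j) (hu (by omega))
    have hl := norm_lq (p := p) (T := T) (f := o s) (j := j) (hu (by omega))
    have h2' := hX2 (by omega)
    have h3' := hX3 h
    obtain ⟨e2, he2⟩ : ∃ e2, e2 = X2 s j - h2 j / (p : ℚ) ^ 2 := ⟨_, rfl⟩
    obtain ⟨e3, he3⟩ : ∃ e3, e3 = X3 s j - h3 j / (p : ℚ) ^ 3 := ⟨_, rfl⟩
    rw [← he2] at h2'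
    rw [← he3] at h3'
    have hx2 : X2 s j = h2 j / (p : ℚ) ^ 2 + e2 := by rw [he2]; ring
    have hx3 : X3 s j = h3 j / (p : ℚ) ^ 3 + e3 := by rw [he3]; ring
    rw [if_pos h, if_pos h, if_pos h, hx2, hx3]
    have hz : (p : ℚ) ^ (ph T o s + 2) = (p : ℚ) ^ (ph T o s - 1) * (p : ℚ) ^ 3 := by
      rw [← zpow_natCast, ← zpow_add₀ hp0]
      congr 1
      push_cast
      ring
    have key : (p : ℚ) ^ (ph T o s + 2) * (wq T (o s) j * uq p W T o s j) *
        ((-(k : ℚ)) ^ e * (2 * (h3 j / (p : ℚ) ^ 3 + e3) + (lq T (o s) j / p + vq p W T o s j) *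
          (h2 j / (p : ℚ) ^ 2 + e2)) + e * (-(k : ℚ)) ^ (e - 1) * (h2 j / (p : ℚ) ^ 2 + e2)) -
        (p : ℚ) ^ (ph T o s - 1) * (uq p W T o s j * ((-(k : ℚ)) ^ e *
          (wq T (o s) j * (2 * h3 j + lq T (o s) j * h2 j)) +
          p * (wq T (o s) j * h2 j * ((-(k : ℚ)) ^ e * vq p W T o s j + e * (-(k : ℚ)) ^ (e - 1))))) =
        (p : ℚ) ^ (ph T o s - 1) * ((p : ℚ) * (p * (wq T (o s) j * uq p W T o s j *
          ((-(k : ℚ)) ^ e * ((p : ℚ) * (2 * e3) + (lq T (o s) j + (p : ℚ) * vq p W T o s j) * e2) +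
            (p : ℚ) * (e * (-(k : ℚ)) ^ (e - 1) * e2))))) := by
      rw [hz]
      field_simp
      ring
    rw [key]
    have hpn : padicNorm p (p : ℚ) ≤ 1 := npp.le.trans inv_le_one
    have hin : padicNorm p (wq T (o s) j * uq p W T o s j *
          ((-(k : ℚ)) ^ e * ((p : ℚ) * (2 * e3) + (lq T (o s) j + (p : ℚ) * vq p W T o s j) * e2) +
            (p : ℚ) * (e * (-(k : ℚ)) ^ (e - 1) * e2))) ≤ 1 := by
      refine nmul1 (nmul1 hw.le (norm_uq s j hs)) (nadd (nmul1 (npow k e) (nadd ?_ ?_)) ?_)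
      · refine nmul1 hpn (nmul1 ?_ h3')
        exact_mod_cast nint (p := p) 2
      · exact nmul1 (nadd hl (nmul1 hpn (norm_vq s j hs))) h2'
      · refine nmul1 hpn (nmul1 (nmul1 ?_ (npow k _)) h2')
        exact_mod_cast nint (p := p) (e : ℤ)
    have h5 : padicNorm p ((p : ℚ) ^ (ph T o s - 1) * ((p : ℚ) * p)) ≤ 1 := by
      have : (p : ℚ) ^ (ph T o s - 1) * ((p : ℚ) * p) = (p : ℚ) ^ (ph T o s + 1) := by
        have e1 : ((p : ℚ) * p) = (p : ℚ) ^ (2 : ℤ) := by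
          rw [zpow_ofNat]; ring
        rw [e1, ← zpow_add₀ hp0]
        congr 1
        ring
      rw [this, nzp]
      exact zpow_le_one_of_nonneg (by omega)
    have h6 := nmul1 h5 hin
    convert h6 using 2
    ring
  · by_cases h' : o s j = -1
    · have hw := norm_wq (p := p) (T := T) (f := o s) (j := j) (hu (by omega))
      have h2' := hX2 (by omega)
      obtain ⟨e2, he2⟩ : ∃ e2, e2 = X2 s j - h2 j / (p : ℚ) ^ 2 := ⟨_, rfl⟩
      rw [← he2] at h2'
      have hx2 : X2 s j = h2 j / (p : ℚ) ^ 2 + e2 := by rw [he2]; ring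
      rw [if_neg h, if_pos h', if_neg h, if_pos h', if_neg h, hx2]
      have hz : (p : ℚ) ^ (ph T o s + 1) = (p : ℚ) ^ (ph T o s - 1) * (p : ℚ) ^ 2 := by
        rw [← zpow_natCast, ← zpow_add₀ hp0]
        congr 1
        push_cast
        ring
      have key : (p : ℚ) ^ (ph T o s + 1) * (wq T (o s) j * uq p W T o s j) *
          ((-(k : ℚ)) ^ e * (h2 j / (p : ℚ) ^ 2 + e2)) -
          (p : ℚ) ^ (ph T o s - 1) * (uq p W T o s j * ((-(k : ℚ)) ^ e *
            (wq T (o s) j * h2 j) +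
            p * (0 * ((-(k : ℚ)) ^ e * vq p W T o s j + e * (-(k : ℚ)) ^ (e - 1))))) =
          (p : ℚ) ^ (ph T o s + 1) * (wq T (o s) j * uq p W T o s j * ((-(k : ℚ)) ^ e * e2)) := by
        rw [hz]
        field_simp
        ring
      rw [key]
      have h5 : padicNorm p ((p : ℚ) ^ (ph T o s + 1)) ≤ 1 := by
        rw [nzp]
        exact zpow_le_one_of_nonneg (by omega)
      exact nmul1 h5 (nmul1 (nmul1 hw.le (norm_uq s j hs)) (nmul1 (npow k e) h2'))
    · rw [if_neg h, if_neg h', if_neg h, if_neg h', if_neg h]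
      simp

end

end Pool.Agent.Z3.C2
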