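import Pool.Agent.Z3.Defs
import Pool.Agent.Z3.C2Core

/-!
Second order cancellation: the order function of the linear forms.
-/

open Finset

namespace Pool.Agent.Z3.C2

/-- the order of the function at -i -/
def od (n : ℕ) (i : ℤ) : ℤ :=
  (if 0 ≤ i ∧ i < 17 * n then 1 else 0) + (if 2 * n ≤ i ∧ i < 15 * n then 1 else 0) +
    (if 4 * n ≤ i ∧ i < 13 * n then 1 else 0) - (if 19 * n ≤ i ∧ i < 40 * n + 2 then 1 else 0) -
    (if 20 * n ≤ i ∧ i < 38 * n + 2 then 1 else 0)

/-- the order in the class of s -/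
def oo (n p : ℕ) (s l : ℤ) : ℤ := od n (s + l * p)

/-- range of the quotients -/
noncomputable def TT (p : ℕ) : Finset ℤ := Ico (-(p : ℤ)) p

end Pool.Agent.Z3.C2
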