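import Pool.Agent.Z3.C2Lag

/-!
Second order cancellation, part 2: congruences modulo powers of p for rational numbers.
-/

open Finset

namespace Pool.Agent.Z3.C2

variable {p : ℕ}

theorem nadd [Fact p.Prime] {x y t : ℚ} (hx : padicNorm p x ≤ t) (hy : padicNorm p y ≤ t) :
    padicNorm p (x + y) ≤ t :=
  (padicNorm.nonarchimedean).trans (max_le hx hy)

theorem nsub [Fact p.Prime] {x y t : ℚ} (hx : padicNorm p x ≤ t) (hy : padicNorm p y ≤ t) :
    padicNorm p (x - y) ≤ t :=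
  (padicNorm.sub).trans (max_le hx hy)

theorem nmul [Fact p.Prime] {x y s t : ℚ} (hx : padicNorm p x ≤ s) (hy : padicNorm p y ≤ t) :
    padicNorm p (x * y) ≤ s * t := by
  rw [padicNorm.mul]
  exact mul_le_mul hx hy (padicNorm.nonneg _) ((padicNorm.nonneg _).trans hx)

theorem nmul1 [Fact p.Prime] {x y t : ℚ} (hx : padicNorm p x ≤ 1) (hy : padicNorm p y ≤ t) :
    padicNorm p (x * y) ≤ t := by
  have := nmul hx hy
  rwa [one_mul] at this

theorem nmul2 [Fact p.Prime] {x y t : ℚ} (hx : padicNorm p x ≤ t) (hy : padicNorm p y ≤ 1) :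
    padicNorm p (x * y) ≤ t := by
  have := nmul hx hy
  rwa [mul_one] at this

theorem nint [Fact p.Prime] (z : ℤ) : padicNorm p (z : ℚ) ≤ 1 := padicNorm.of_int z

theorem npp [Fact p.Prime] : padicNorm p (p : ℚ) = (p : ℚ)⁻¹ := padicNorm.padicNorm_p_of_prime

theorem inv_le_one [hF : Fact p.Prime] : (p : ℚ)⁻¹ ≤ 1 := by
  have : (1 : ℚ) ≤ p := by exact_mod_cast hF.out.one_le
  exact inv_le_one_of_one_le₀ this

theorem inv_nonneg' : (0 : ℚ) ≤ (p : ℚ)⁻¹ := by positivity

theorem ndvd [Fact p.Prime] {z : ℤ} (h : (p : ℤ) ∣ z) : padicNorm p (z : ℚ) ≤ (p : ℚ)⁻¹ := by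
  have h6 := (padicNorm.dvd_iff_norm_le (p := p) (n := 1) (z := z)).mp (by rw [pow_one]; exact h)
  simpa using h6

theorem nunit [Fact p.Prime] {z : ℤ} (h : ¬ (p : ℤ) ∣ z) : padicNorm p (z : ℚ) = 1 :=
  (padicNorm.int_eq_one_iff z).2 h

/-- the sum of the inverses of the differences in a window of length p -/
theorem sum_inv_window [hF : Fact p.Prime] (hp2 : p ≠ 2) (m s : ℤ) (hs : s ∈ Ico m (m + p)) :
    padicNorm p (∑ s' ∈ (Ico m (m + p)).erase s, 1 / ((s' : ℚ) - s)) ≤ (p : ℚ)⁻¹ := by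
  have hp : p.Prime := hF.out
  have hp0 : (0 : ℤ) < p := by exact_mod_cast hp.pos
  set τ : ℤ → ℤ := fun t => m + (2 * s - t - m) % p with hτ
  have hτmod : ∀ t, (p : ℤ) ∣ τ t + t - 2 * s := by
    intro t
    have h1 := Int.emod_add_mul_ediv (2 * s - t - m) p
    refine ⟨-((2 * s - t - m) / p), ?_⟩
    simp only [hτ]
    linarith
  have huniq : ∀ a b : ℤ, a ∈ Ico m (m + p) → b ∈ Ico m (m + p) → (p : ℤ) ∣ a - b → a = b := by
    intro a b ha hb hd
    rw [mem_Ico] at ha hb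
    have : a - b = 0 := by
      apply Int.eq_zero_of_abs_lt_dvd hd
      rw [abs_lt]
      constructor <;> linarith
    linarith
  have hτmem : ∀ t, τ t ∈ Ico m (m + p) := by
    intro t
    rw [mem_Ico]
    have h1 := Int.emod_nonneg (2 * s - t - m) hp0.ne'
    have h2 := Int.emod_lt_of_pos (2 * s - t - m) hp0
    simp only [hτ]
    constructor <;> linarith
  have hmem : ∀ t ∈ (Ico m (m + p)).erase s, τ t ∈ (Ico m (m + p)).erase s := by
    intro t ht
    rw [mem_erase]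
    refine ⟨?_, hτmem t⟩
    intro h
    have h1 := hτmod t
    rw [h] at h1
    have h2 : (p : ℤ) ∣ t - s := by
      have : t - s = s + t - 2 * s := by ring
      rw [this]
      exact h1
    exact (mem_erase.1 ht).1 (huniq t s (mem_erase.1 ht).2 hs h2)
  have hinv : ∀ t ∈ (Ico m (m + p)).erase s, τ (τ t) = t := by
    intro t ht
    apply huniq _ _ (hτmem _) (mem_erase.1 ht).2
    have h1 := hτmod t
    have h2 := hτmod (τ t)
    have : τ (τ t) - t = (τ (τ t) + τ t - 2 * s) - (τ t + t - 2 * s) := by ring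
    rw [this]
    exact dvd_sub h2 h1
  have hunit : ∀ t ∈ (Ico m (m + p)).erase s, padicNorm p ((t : ℚ) - s) = 1 := by
    intro t ht
    have h1 : ¬ (p : ℤ) ∣ t - s := fun h => (mem_erase.1 ht).1 (huniq t s (mem_erase.1 ht).2 hs h)
    have := nunit h1
    push_cast at this
    exact this
  have hsum : ∑ t ∈ (Ico m (m + p)).erase s, 1 / ((t : ℚ) - s) =
      ∑ t ∈ (Ico m (m + p)).erase s, 1 / ((τ t : ℚ) - s) := by
    refine Finset.sum_nbij' τ τ hmem hmem hinv hinv ?_
    intro t ht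
    rw [hinv t ht]
  have h2 : (2 : ℚ) * ∑ t ∈ (Ico m (m + p)).erase s, 1 / ((t : ℚ) - s) =
      ∑ t ∈ (Ico m (m + p)).erase s, (((τ t + t - 2 * s : ℤ) : ℚ) * (1 / (((t : ℚ) - s) * ((τ t : ℚ) - s)))) := by
    rw [two_mul]
    conv_lhs => rw [hsum]
    rw [← hsum]
    conv_lhs =>
      enter [2]
      rw [hsum]
    rw [← Finset.sum_add_distrib]
    apply Finset.sum_congr rfl
    intro t ht
    have n1 : ((t : ℚ) - s) ≠ 0 := cast_sub_ne (mem_erase.1 ht).1
    have n2 : ((τ t : ℚ) - s) ≠ 0 := cast_sub_ne (mem_erase.1 (hmem t ht)).1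
    field_simp
    push_cast
    ring
  have h3 : padicNorm p ((2 : ℚ) * ∑ t ∈ (Ico m (m + p)).erase s, 1 / ((t : ℚ) - s)) ≤ (p : ℚ)⁻¹ := by
    rw [h2]
    refine padicNorm.sum_le' (fun t ht => ?_) inv_nonneg'
    refine nmul2 (ndvd (hτmod t)) ?_
    rw [padicNorm.div, padicNorm.mul, hunit t ht, hunit _ (hmem t ht)]
    simp
  have h4 : padicNorm p (2 : ℚ) = 1 := by
    have : ¬ (p : ℤ) ∣ 2 := by
      intro h
      have h5 : p ∣ 2 := by exact_mod_cast h
      exact hp2 ((Nat.prime_dvd_prime_iff_eq hp Nat.prime_two).1 h5)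
    have := nunit this
    simpa using this
  rw [padicNorm.mul, h4, one_mul] at h3
  exact h3

/-- v = v0 (1 + p l) modulo p^2, v0 a unit, l integral -/
structure Ex (p : ℕ) (v v0 l : ℚ) : Prop where
  unit : padicNorm p v0 = 1
  int : padicNorm p l ≤ 1
  cong : padicNorm p (v - v0 * (1 + p * l)) ≤ ((p : ℚ)⁻¹) ^ 2

theorem sq_le_inv [hF : Fact p.Prime] : ((p : ℚ)⁻¹) ^ 2 ≤ (p : ℚ)⁻¹ := by
  rw [sq]
  exact mul_le_of_le_one_left inv_nonneg' inv_le_one

theorem Ex.near [hF : Fact p.Prime] {v v0 l : ℚ} (h : Ex p v v0 l) :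
    padicNorm p (v - v0) ≤ (p : ℚ)⁻¹ := by
  have h1 : v - v0 = (v - v0 * (1 + p * l)) + v0 * (p * l) := by ring
  rw [h1]
  refine nadd (h.cong.trans sq_le_inv) (nmul1 h.unit.le ?_)
  have := nmul (p := p) npp.le h.int
  rwa [mul_one] at this

theorem Ex.norm_le [hF : Fact p.Prime] {v v0 l : ℚ} (h : Ex p v v0 l) : padicNorm p v ≤ 1 := by
  have h1 : v = (v - v0) + v0 := by ring
  rw [h1]
  exact nadd (h.near.trans inv_le_one) h.unit.le

theorem Ex.norm_eq [hF : Fact p.Prime] {v v0 l : ℚ} (h : Ex p v v0 l) : padicNorm p v = 1 := by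
  refine le_antisymm h.norm_le ?_
  by_contra hlt
  push Not at hlt
  have h1 : v0 = v - (v - v0) := by ring
  have hpi : (p : ℚ)⁻¹ < 1 := by
    have : (1 : ℚ) < p := by exact_mod_cast hF.out.one_lt
    exact inv_lt_one_of_one_lt₀ this
  have h2 : padicNorm p v0 < 1 := by
    rw [h1]
    exact (padicNorm.sub).trans_lt (max_lt hlt (h.near.trans_lt hpi))
  rw [h.unit] at h2
  exact lt_irrefl _ h2

theorem Ex.mul [hF : Fact p.Prime] {v v0 l v' v0' l' : ℚ} (h : Ex p v v0 l) (h' : Ex p v' v0' l') :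
    Ex p (v * v') (v0 * v0') (l + l') := by
  refine ⟨by rw [padicNorm.mul, h.unit, h'.unit, one_mul], nadd h.int h'.int, ?_⟩
  have e : v * v' - v0 * v0' * (1 + p * (l + l')) =
      (v - v0 * (1 + p * l)) * v' + (v0 * (1 + p * l)) * (v' - v0' * (1 + p * l')) +
        v0 * v0' * ((p * l) * (p * l')) := by ring
  have hpl : ∀ x : ℚ, padicNorm p x ≤ 1 → padicNorm p (p * x) ≤ (p : ℚ)⁻¹ := by
    intro x hx
    have := nmul (p := p) npp.le hx
    rwa [mul_one] at this
  rw [e]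
  refine nadd (nadd (nmul2 h.cong h'.norm_le) (nmul1 ?_ h'.cong)) (nmul1 ?_ ?_)
  · refine nmul1 h.unit.le (nadd ?_ ((hpl l h.int).trans inv_le_one))
    rw [padicNorm.one]
  · exact nmul1 h.unit.le h'.unit.le
  · rw [sq]
    exact nmul (hpl l h.int) (hpl l' h'.int)

theorem Ex.one [hF : Fact p.Prime] : Ex p 1 1 0 := by
  refine ⟨padicNorm.one, ?_, ?_⟩
  · rw [padicNorm.zero]; norm_num
  · simp only [mul_zero, add_zero, mul_one, sub_self]
    rw [padicNorm.zero]
    positivity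

theorem Ex.inv [hF : Fact p.Prime] {v v0 l : ℚ} (h : Ex p v v0 l) : Ex p v⁻¹ v0⁻¹ (-l) := by
  have hv0 : v0 ≠ 0 := by
    rintro rfl
    have := h.unit
    rw [padicNorm.zero] at this
    norm_num at this
  have hv : v ≠ 0 := by
    rintro rfl
    have := h.norm_eq
    rw [padicNorm.zero] at this
    norm_num at this
  refine ⟨?_, ?_, ?_⟩
  · rw [inv_eq_one_div, padicNorm.div, padicNorm.one, h.unit, div_one]
  · rw [padicNorm.neg]
    exact h.int
  · have e : v⁻¹ - v0⁻¹ * (1 + p * -l) =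
        (-(v - v0 * (1 + p * l)) + p * l * (v - v0)) * (v * v0)⁻¹ := by
      field_simp
      ring
    rw [e]
    refine nmul2 (nadd ?_ ?_) ?_
    · rw [padicNorm.neg]
      exact h.cong
    · rw [sq]
      refine nmul ?_ h.near
      have := nmul (p := p) npp.le h.int
      rwa [mul_one] at this
    · rw [inv_eq_one_div, padicNorm.div, padicNorm.one, padicNorm.mul, h.norm_eq, h.unit]
      norm_num

theorem Ex.pow [hF : Fact p.Prime] {v v0 l : ℚ} (h : Ex p v v0 l) (n : ℕ) :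
    Ex p (v ^ n) (v0 ^ n) (n * l) := by
  induction n with
  | zero => simpa using Ex.one (p := p)
  | succ n ih =>
    have := ih.mul h
    rw [← pow_succ, ← pow_succ] at this
    have e : (n : ℚ) * l + l = ((n + 1 : ℕ) : ℚ) * l := by push_cast; ring
    rwa [e] at this

theorem Ex.zpow [hF : Fact p.Prime] {v v0 l : ℚ} (h : Ex p v v0 l) (z : ℤ) :
    Ex p (v ^ z) (v0 ^ z) (z * l) := by
  cases z with
  | ofNat n =>
    have := h.pow n
    simpa using this
  | negSucc n =>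
    have := (h.pow (n + 1)).inv
    rw [zpow_negSucc, zpow_negSucc]
    have e : ((Int.negSucc n : ℤ) : ℚ) * l = -(((n + 1 : ℕ) : ℚ) * l) := by
      rw [Int.cast_negSucc]
      push_cast
      ring
    rw [e]
    exact this

theorem Ex.prod [Fact p.Prime] {ι : Type*} (S : Finset ι) (v v0 l : ι → ℚ)
    (h : ∀ i ∈ S, Ex p (v i) (v0 i) (l i)) :
    Ex p (∏ i ∈ S, v i) (∏ i ∈ S, v0 i) (∑ i ∈ S, l i) := by
  classical
  induction S using Finset.induction_on with
  | empty => simpa using Ex.one (p := p)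
  | insert a S ha ih =>
    rw [prod_insert ha, prod_insert ha, sum_insert ha]
    exact (h a (mem_insert_self _ _)).mul (ih fun i hi => h i (mem_insert_of_mem hi))

theorem Ex.lin [hF : Fact p.Prime] (x y : ℤ) (hx : ¬ (p : ℤ) ∣ x) :
    Ex p ((x : ℚ) + p * y) x (y / x) := by
  have hx1 := nunit hx
  have hx0 : (x : ℚ) ≠ 0 := by
    intro h
    rw [h, padicNorm.zero] at hx1
    norm_num at hx1
  refine ⟨hx1, ?_, ?_⟩
  · rw [padicNorm.div, hx1, div_one]
    exact nint y
  · have e : (x : ℚ) + p * y - x * (1 + p * (y / x)) = 0 := by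
      field_simp
      ring
    rw [e, padicNorm.zero]
    positivity

end Pool.Agent.Z3.C2
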