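import Pool.Agent.Z3.C2Core

/-!
Second order cancellation, part 4: the abstract theorem.
-/

open Finset

namespace Pool.Agent.Z3.C2

theorem binom (x y : ℤ) (e : ℕ) : ∃ z : ℤ, (x + y) ^ e = x ^ e + e * x ^ (e - 1) * y + z * y ^ 2 := by
  induction e with
  | zero => exact ⟨0, by simp⟩
  | succ e ih =>
    obtain ⟨z, hz⟩ := ih
    refine ⟨z * x + e * x ^ (e - 1) + z * y, ?_⟩
    cases e with
    | zero =>
      simp only [pow_zero, Nat.cast_zero, zero_mul, add_zero] at hz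
      have h0 : z * y ^ 2 = 0 := by linarith
      simp only [zero_add, pow_one, Nat.cast_one, Nat.sub_self, pow_zero, Nat.cast_zero, zero_mul,
        add_zero]
      have h1 : (z * x + z * y) * y ^ 2 = (x + y) * (z * y ^ 2) := by ring
      rw [h1, h0]
      ring
    | succ e =>
      rw [pow_succ, hz]
      simp only [Nat.add_sub_cancel]
      push_cast
      ring

section

variable {p : ℕ} [hF : Fact p.Prime] {T : Finset ℤ} {o : ℤ → ℤ → ℤ} {m : ℤ}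

theorem norm_Pq (s : ℤ) (hs : s ∈ Ico m (m + p)) :
    padicNorm p (Pq (Ico m (m + p)) (ph T o) s) = 1 := (ex_uq (T := T) (o := o) s 0 hs).unit

theorem norm_rho (e : ℕ) (s : ℤ) (hs : s ∈ Ico m (m + p)) :
    padicNorm p (rho (Ico m (m + p)) (ph T o) e s) ≤ 1 := by
  unfold rho
  exact nmul1 (npow s e) (norm_Pq s hs).le

theorem norm_sdiv (f : ℤ → ℤ) (s : ℤ) (hs : s ∈ Ico m (m + p)) :
    padicNorm p (∑ s' ∈ (Ico m (m + p)).erase s, (f s' : ℚ) / ((s' : ℚ) - s)) ≤ 1 := by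
  refine padicNorm.sum_le' (fun s' hs' => ?_) zero_le_one
  have hun := nunit (window_unit hs hs')
  push_cast at hun
  rw [padicNorm.div, hun, div_one]
  exact nint _

/-- the derivative part -/
def Rs (W T : Finset ℤ) (o : ℤ → ℤ → ℤ) (e : ℕ) (s : ℤ) : ℚ :=
  Pq W (ph T o) s * ((-(s : ℚ)) ^ e * (∑ s' ∈ W.erase s, (ph T o s' : ℚ) / ((s' : ℚ) - s)) +
    e * (-(s : ℚ)) ^ (e - 1))

theorem pow_near (s j : ℤ) (e : ℕ) :
    padicNorm p ((-((s + j * p : ℤ) : ℚ)) ^ e - (-(s : ℚ)) ^ e) ≤ (p : ℚ)⁻¹ := by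
  have h : (-((s + j * p : ℤ) : ℚ)) ^ e - (-(s : ℚ)) ^ e =
      (((-(s + j * p)) ^ e - (-s) ^ e : ℤ) : ℚ) := by push_cast; ring
  rw [h]
  apply ndvd
  refine dvd_trans ?_ (sub_dvd_pow_sub_pow _ _ e)
  refine ⟨-j, ?_⟩
  ring

omit hF in
theorem pow_expand (s j : ℤ) (e : ℕ) : ∃ z : ℤ, (-((s + j * p : ℤ) : ℚ)) ^ e =
    (-(s : ℚ)) ^ e - p * (j * (e * (-(s : ℚ)) ^ (e - 1))) + (p : ℚ) ^ 2 * z := by
  obtain ⟨z, hz⟩ := binom (-s) (-(j * p)) e
  refine ⟨z * j ^ 2, ?_⟩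
  have h1 : (-((s + j * p : ℤ) : ℚ)) ^ e = (((-s + -(j * p)) ^ e : ℤ) : ℚ) := by
    push_cast
    congr 1
    ring
  rw [h1, hz]
  push_cast
  ring

/-- classes with phi = -1 -/
theorem gm_neg {e : ℕ} {h2 h3 : ℤ → ℚ} {s j : ℤ} (hs : s ∈ Ico m (m + p)) (hph : ph T o s = -1)
    (hk : padicNorm p (kq T (o s) h2 h3 j) ≤ 1) (hn : padicNorm p (nq T (o s) h2 j) ≤ 1) :
    padicNorm p (gm p (Ico m (m + p)) T o e h2 h3 s j - ((p : ℚ) ^ 2)⁻¹ *
      (kq T (o s) h2 h3 j * rho (Ico m (m + p)) (ph T o) e s +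
        p * (kq T (o s) h2 h3 j * (rho (Ico m (m + p)) (ph T o) e s *
          ∑ s' ∈ (Ico m (m + p)).erase s, (mo T o s' : ℚ) / ((s' : ℚ) - s)) -
          (j * kq T (o s) h2 h3 j - nq T (o s) h2 j) * Rs (Ico m (m + p)) T o e s))) ≤ 1 := by
  have hp0 : (p : ℚ) ≠ 0 := by exact_mod_cast hF.out.ne_zero
  set W := Ico m (m + p) with hW
  have hex := ex_uq (T := T) (o := o) s j hs
  have hnv := near_vq (T := T) (o := o) s j hs
  have hM := norm_sdiv (mo T o) s hs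
  have hP := norm_sdiv (ph T o) s hs
  rw [← hW] at hex hnv hM hP
  obtain ⟨z, hz⟩ := pow_expand (p := p) s j e
  have hpn1 := pow_near (p := p) s j e
  have hpn2 := pow_near (p := p) s j (e - 1)
  have hPq := norm_Pq (T := T) (o := o) s hs
  rw [← hW] at hPq
  set u := uq p W T o s j with hu
  set v := vq p W T o s j with hv
  set κ := kq T (o s) h2 h3 j with hκ
  set η := nq T (o s) h2 j with hη
  set P := Pq W (ph T o) s with hPdef
  set A1 := ∑ s' ∈ W.erase s, (mo T o s' : ℚ) / ((s' : ℚ) - s) with hA1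
  set Aφ := ∑ s' ∈ W.erase s, (ph T o s' : ℚ) / ((s' : ℚ) - s) with hAφ
  have hL : (∑ s' ∈ W.erase s, ((mo T o s' : ℚ) - j * ph T o s') / ((s' : ℚ) - s)) = A1 - j * Aφ := by
    rw [hA1, hAφ, Finset.mul_sum, ← Finset.sum_sub_distrib]
    apply Finset.sum_congr rfl
    intro t _
    ring
  rw [hL] at hex
  set x := (-((s + j * p : ℤ) : ℚ)) ^ e with hx
  set y := (-((s + j * p : ℤ) : ℚ)) ^ (e - 1) with hy
  set a := (-(s : ℚ)) ^ e with ha
  set b := (-(s : ℚ)) ^ (e - 1) with hb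
  have hrho : rho W (ph T o) e s = a * P := rfl
  have hRs : Rs W T o e s = P * (a * Aφ + e * b) := rfl
  have hgm : gm p W T o e h2 h3 s j = ((p : ℚ) ^ 2)⁻¹ *
      (u * (x * κ + p * (η * (x * v + e * y)))) := by
    unfold gm
    rw [hph]
    have : (p : ℚ) ^ ((-1 : ℤ) - 1) = ((p : ℚ) ^ 2)⁻¹ := by
      rw [show ((-1 : ℤ) - 1) = -2 by norm_num, zpow_neg]
      norm_cast
    rw [this]
  rw [hgm, hrho, hRs, ← mul_sub, padicNorm.mul]
  have hinv : padicNorm p ((p : ℚ) ^ 2)⁻¹ = (p : ℚ) ^ 2 := by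
    have : ((p : ℚ) ^ 2)⁻¹ = (p : ℚ) ^ (-2 : ℤ) := by rw [zpow_neg]; norm_cast
    rw [this, nzp, inv_zpow, zpow_neg, inv_inv]
    norm_cast
  rw [hinv]
  have key : u * (x * κ + p * (η * (x * v + e * y))) -
      (κ * (a * P) + p * (κ * (a * P * A1) - (j * κ - η) * (P * (a * Aφ + e * b)))) =
      κ * ((u - P * (1 + p * (A1 - j * Aφ))) * x +
        P * (((p : ℚ) * p) * (z - (A1 - j * Aφ) * (j * (e * b)) + p * ((A1 - j * Aφ) * z)))) +
      p * (η * ((u - P) * (x * v + e * y) + P * ((x - a) * v + a * (v - Aφ) + e * (y - b)))) := by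
    rw [hz]
    ring
  rw [key]
  have hx1 : padicNorm p x ≤ 1 := npow _ _
  have hy1 : padicNorm p y ≤ 1 := npow _ _
  have ha1 : padicNorm p a ≤ 1 := npow _ _
  have hb1 : padicNorm p b ≤ 1 := npow _ _
  have he1 : padicNorm p (e : ℚ) ≤ 1 := by exact_mod_cast nint (p := p) (e : ℤ)
  have hj1 : padicNorm p (j : ℚ) ≤ 1 := nint j
  have hz1 : padicNorm p (z : ℚ) ≤ 1 := nint z
  have hv1 : padicNorm p v ≤ 1 := norm_vq s j hs
  have hLn : padicNorm p (A1 - j * Aφ) ≤ 1 := hex.int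
  have hpp : padicNorm p ((p : ℚ) * p) ≤ ((p : ℚ)⁻¹) ^ 2 := by
    rw [sq]
    exact nmul npp.le npp.le
  have hpn : padicNorm p (p : ℚ) ≤ 1 := npp.le.trans inv_le_one
  have hfin : padicNorm p (κ * ((u - P * (1 + p * (A1 - j * Aφ))) * x +
        P * (((p : ℚ) * p) * (z - (A1 - j * Aφ) * (j * (e * b)) + p * ((A1 - j * Aφ) * z)))) +
      p * (η * ((u - P) * (x * v + e * y) + P * ((x - a) * v + a * (v - Aφ) + e * (y - b))))) ≤
      ((p : ℚ)⁻¹) ^ 2 := by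
    refine nadd (nmul1 hk (nadd (nmul2 hex.cong hx1) (nmul1 hPq.le (nmul2 hpp ?_)))) ?_
    · refine nadd (nsub hz1 (nmul1 hLn (nmul1 hj1 (nmul1 he1 hb1)))) (nmul1 hpn (nmul1 hLn hz1))
    · rw [sq]
      refine nmul npp.le (nmul1 hn (nadd (nmul2 hex.near (nadd (nmul1 hx1 hv1) (nmul1 he1 hy1)))
        (nmul1 hPq.le (nadd (nadd (nmul2 hpn1 hv1) (nmul1 ha1 hnv)) (nmul1 he1 hpn2)))))
  have hp2 : (0 : ℚ) < (p : ℚ) ^ 2 := by positivity
  calc (p : ℚ) ^ 2 * padicNorm p _ ≤ (p : ℚ) ^ 2 * ((p : ℚ)⁻¹) ^ 2 :=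
        mul_le_mul_of_nonneg_left hfin hp2.le
    _ = 1 := by
      rw [inv_pow, mul_inv_cancel₀ hp2.ne']

/-- classes with phi = 0 -/
theorem gm_zero {e : ℕ} {h2 h3 : ℤ → ℚ} {s j : ℤ} (hs : s ∈ Ico m (m + p)) (hph : ph T o s = 0)
    (hk : padicNorm p (kq T (o s) h2 h3 j) ≤ 1) (hn : padicNorm p (nq T (o s) h2 j) ≤ 1) :
    padicNorm p (gm p (Ico m (m + p)) T o e h2 h3 s j -
      (p : ℚ)⁻¹ * (rho (Ico m (m + p)) (ph T o) e s * kq T (o s) h2 h3 j)) ≤ 1 := by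
  have hp0 : (p : ℚ) ≠ 0 := by exact_mod_cast hF.out.ne_zero
  set W := Ico m (m + p) with hW
  have hex := ex_uq (T := T) (o := o) s j hs
  rw [← hW] at hex
  have hpn1 := pow_near (p := p) s j e
  have hPq := norm_Pq (T := T) (o := o) s hs
  rw [← hW] at hPq
  set u := uq p W T o s j with hu
  set v := vq p W T o s j with hv
  set κ := kq T (o s) h2 h3 j with hκ
  set η := nq T (o s) h2 j with hη
  set P := Pq W (ph T o) s with hPdef
  set x := (-((s + j * p : ℤ) : ℚ)) ^ e with hx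
  set y := (-((s + j * p : ℤ) : ℚ)) ^ (e - 1) with hy
  set a := (-(s : ℚ)) ^ e with ha
  have hrho : rho W (ph T o) e s = a * P := rfl
  have hgm : gm p W T o e h2 h3 s j = (p : ℚ)⁻¹ *
      (u * (x * κ + p * (η * (x * v + e * y)))) := by
    unfold gm
    rw [hph]
    have : (p : ℚ) ^ ((0 : ℤ) - 1) = (p : ℚ)⁻¹ := by
      rw [show ((0 : ℤ) - 1) = -1 by norm_num, zpow_neg_one]
    rw [this]
  have key : (p : ℚ)⁻¹ * (u * (x * κ + p * (η * (x * v + e * y)))) - (p : ℚ)⁻¹ * (a * P * κ) =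
      (p : ℚ)⁻¹ * (κ * ((u - P) * x + P * (x - a))) + u * (η * (x * v + e * y)) := by
    field_simp
    ring
  rw [hgm, hrho, key]
  have hx1 : padicNorm p x ≤ 1 := npow _ _
  have hy1 : padicNorm p y ≤ 1 := npow _ _
  have he1 : padicNorm p (e : ℚ) ≤ 1 := by exact_mod_cast nint (p := p) (e : ℤ)
  have hv1 : padicNorm p v ≤ 1 := norm_vq s j hs
  refine nadd ?_ (nmul1 hex.norm_le (nmul1 hn (nadd (nmul1 hx1 hv1) (nmul1 he1 hy1))))
  have hinv : padicNorm p (p : ℚ)⁻¹ ≤ p := by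
    rw [inv_eq_one_div, padicNorm.div, padicNorm.one, npp, one_div, inv_inv]
  have h1 := nmul hinv (nmul1 hk (nadd (nmul2 hex.near hx1) (nmul1 hPq.le hpn1)))
  rwa [mul_inv_cancel₀ hp0] at h1

/-- classes with positive phi -/
theorem gm_pos {e : ℕ} {h2 h3 : ℤ → ℚ} {s j : ℤ} (hs : s ∈ Ico m (m + p)) (hph : 1 ≤ ph T o s)
    (hk : padicNorm p (kq T (o s) h2 h3 j) ≤ 1) (hn : padicNorm p (nq T (o s) h2 j) ≤ 1) :
    padicNorm p (gm p (Ico m (m + p)) T o e h2 h3 s j) ≤ 1 := by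
  unfold gm
  have he1 : padicNorm p (e : ℚ) ≤ 1 := by exact_mod_cast nint (p := p) (e : ℤ)
  have hpn : padicNorm p (p : ℚ) ≤ 1 := npp.le.trans inv_le_one
  refine nmul1 ?_ (nmul1 (norm_uq s j hs) (nadd (nmul1 (npow _ _) hk) (nmul1 hpn (nmul1 hn
    (nadd (nmul1 (npow _ _) (norm_vq s j hs)) (nmul1 he1 (npow _ _)))))))
  rw [nzp]
  exact zpow_le_one_of_nonneg (by omega)

theorem wq_congr {f g : ℤ → ℤ} (h : ∀ l ∈ T, f l = g l) (j : ℤ) : wq T f j = wq T g j := by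
  unfold wq
  apply Finset.prod_congr rfl
  intro l hl
  rw [h l (mem_of_mem_erase hl)]

theorem lq_congr {f g : ℤ → ℤ} (h : ∀ l ∈ T, f l = g l) (j : ℤ) : lq T f j = lq T g j := by
  unfold lq
  apply Finset.sum_congr rfl
  intro l hl
  rw [h l (mem_of_mem_erase hl)]

theorem kq_congr {f g : ℤ → ℤ} {h2 h3 : ℤ → ℚ} (h : ∀ l ∈ T, f l = g l) {j : ℤ} (hj : j ∈ T) :
    kq T f h2 h3 j = kq T g h2 h3 j := by
  unfold kq
  rw [h j hj, wq_congr h, lq_congr h]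

theorem nq_congr {f g : ℤ → ℤ} {h2 : ℤ → ℚ} (h : ∀ l ∈ T, f l = g l) {j : ℤ} (hj : j ∈ T) :
    nq T f h2 j = nq T g h2 j := by
  unfold nq
  rw [h j hj, wq_congr h]

theorem norm_kq {f : ℤ → ℤ} {h2 h3 : ℤ → ℚ} {j : ℤ}
    (hu : f j < 0 → ∀ l ∈ T, l ≠ j → f l ≠ 0 → ¬ (p : ℤ) ∣ l - j)
    (hh : f j < 0 → padicNorm p (h2 j) ≤ 1 ∧ padicNorm p (h3 j) ≤ 1) :
    padicNorm p (kq T f h2 h3 j) ≤ 1 := by
  unfold kq
  split_ifs with h h'
  · have h1 := hh (by omega)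
    have h2' := hu (by omega)
    refine nmul1 (norm_wq h2').le (nadd (nmul1 ?_ h1.2) (nmul1 (norm_lq h2') h1.1))
    exact_mod_cast nint (p := p) 2
  · have h1 := hh (by omega)
    have h2' := hu (by omega)
    exact nmul1 (norm_wq h2').le h1.1
  · rw [padicNorm.zero]
    norm_num

theorem norm_nq {f : ℤ → ℤ} {h2 h3 : ℤ → ℚ} {j : ℤ}
    (hu : f j < 0 → ∀ l ∈ T, l ≠ j → f l ≠ 0 → ¬ (p : ℤ) ∣ l - j)
    (hh : f j < 0 → padicNorm p (h2 j) ≤ 1 ∧ padicNorm p (h3 j) ≤ 1) :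
    padicNorm p (nq T f h2 j) ≤ 1 := by
  unfold nq
  split_ifs with h
  · have h1 := hh (by omega)
    have h2' := hu (by omega)
    exact nmul1 (norm_wq h2').le h1.1
  · rw [padicNorm.zero]
    norm_num

/-- second order cancellation, abstract form -/
theorem core (hp2 : p ≠ 2) (e : ℕ) (fs : ℤ → ℤ) (h2 h3 : ℤ → ℚ) (X2 X3 : ℤ → ℤ → ℚ)
    (hdeg : (∑ s ∈ Ico m (m + p), ph T o s) + e ≤ -2)
    (hph : ∀ s ∈ Ico m (m + p), -1 ≤ ph T o s)
    (hmain : ∀ s ∈ Ico m (m + p), ph T o s = -1 → ∀ l ∈ T, o s l = fs l)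
    (hnb : ∀ s ∈ Ico m (m + p), ph T o s = 0 → ∃ c ∈ T, ∀ l ∈ T, o s l = fs l + if l = c then 1 else 0)
    (hfs : ∀ l ∈ T, -2 ≤ fs l)
    (hu : ∀ s ∈ Ico m (m + p), ∀ j ∈ T, o s j < 0 → ∀ l ∈ T, l ≠ j → o s l ≠ 0 → ¬ (p : ℤ) ∣ l - j)
    (hfu : ∀ j ∈ T, fs j < 0 → ∀ l ∈ T, l ≠ j → fs l ≠ 0 → ¬ (p : ℤ) ∣ l - j)
    (hh : ∀ s ∈ Ico m (m + p), ∀ j ∈ T, o s j < 0 → padicNorm p (h2 j) ≤ 1 ∧ padicNorm p (h3 j) ≤ 1)
    (hhf : ∀ j ∈ T, fs j < 0 → padicNorm p (h2 j) ≤ 1 ∧ padicNorm p (h3 j) ≤ 1)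
    (hX2 : ∀ s ∈ Ico m (m + p), ∀ j ∈ T, o s j < 0 →
      padicNorm p (X2 s j - h2 j / (p : ℚ) ^ 2) ≤ 1)
    (hX3 : ∀ s ∈ Ico m (m + p), ∀ j ∈ T, o s j = -2 →
      padicNorm p (X3 s j - h3 j / (p : ℚ) ^ 3) ≤ 1) :
    padicNorm p (∑ s ∈ Ico m (m + p), ∑ j ∈ T, tm p (Ico m (m + p)) T o e X2 X3 s j) ≤ 1 := by
  have hp0 : (p : ℚ) ≠ 0 := by exact_mod_cast hF.out.ne_zero
  set W := Ico m (m + p) with hW
  set C0 : ℚ := ∑ j ∈ T, kq T fs h2 h3 j with hC0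
  set C1 : ℚ := ∑ j ∈ T, ((j : ℚ) * kq T fs h2 h3 j - nq T fs h2 j) with hC1
  set M : ℚ := ((∑ l ∈ T, fs l * l : ℤ) : ℚ) with hMdef
  -- the approximation
  set G : ℤ → ℤ → ℚ := fun s j =>
    if ph T o s = -1 then ((p : ℚ) ^ 2)⁻¹ *
      (kq T (o s) h2 h3 j * rho W (ph T o) e s +
        p * (kq T (o s) h2 h3 j * (rho W (ph T o) e s *
          ∑ s' ∈ W.erase s, (mo T o s' : ℚ) / ((s' : ℚ) - s)) -
          (j * kq T (o s) h2 h3 j - nq T (o s) h2 j) * Rs W T o e s))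
    else if ph T o s = 0 then (p : ℚ)⁻¹ * (rho W (ph T o) e s * kq T (o s) h2 h3 j)
    else 0 with hG
  have happrox : ∀ s ∈ W, ∀ j ∈ T, padicNorm p (tm p W T o e X2 X3 s j - G s j) ≤ 1 := by
    intro s hs j hj
    have h1 := tm_gm (T := T) (o := o) (e := e) (h2 := h2) (h3 := h3) (X2 := X2) (X3 := X3)
      (s := s) (j := j) hs (hph s hs) (hu s hs j hj) (hX2 s hs j hj) (hX3 s hs j hj)
    have hk := norm_kq (p := p) (T := T) (f := o s) (h2 := h2) (h3 := h3) (j := j) (hu s hs j hj)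
      (hh s hs j hj)
    have hn := norm_nq (p := p) (T := T) (f := o s) (h2 := h2) (h3 := h3) (j := j) (hu s hs j hj)
      (hh s hs j hj)
    have h2' : padicNorm p (gm p W T o e h2 h3 s j - G s j) ≤ 1 := by
      rw [hG]
      dsimp only
      split_ifs with c1 c2
      · exact gm_neg hs c1 hk hn
      · exact gm_zero hs c2 hk hn
      · rw [sub_zero]
        refine gm_pos hs ?_ hk hn
        have := hph s hs
        omega
    have h3' := nadd h1 h2'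
    convert h3' using 2
    ring
  have h1 : padicNorm p (∑ s ∈ W, ∑ j ∈ T, (tm p W T o e X2 X3 s j - G s j)) ≤ 1 :=
    padicNorm.sum_le' (fun s hs => padicNorm.sum_le' (fun j hj => happrox s hs j hj) zero_le_one)
      zero_le_one
  -- the sum of the approximations
  have hsum1 : ∀ s ∈ S1 W (ph T o), ∑ j ∈ T, G s j = ((p : ℚ) ^ 2)⁻¹ *
      (C0 * rho W (ph T o) e s + p * (C0 * (rho W (ph T o) e s *
          ∑ s' ∈ W.erase s, (mo T o s' : ℚ) / ((s' : ℚ) - s)) - C1 * Rs W T o e s)) := by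
    intro s hs
    obtain ⟨hs1, hs2⟩ := mem_filter.1 hs
    have e1 : ∀ j ∈ T, G s j = ((p : ℚ) ^ 2)⁻¹ *
      (kq T fs h2 h3 j * rho W (ph T o) e s +
        p * (kq T fs h2 h3 j * (rho W (ph T o) e s *
          ∑ s' ∈ W.erase s, (mo T o s' : ℚ) / ((s' : ℚ) - s)) -
          (j * kq T fs h2 h3 j - nq T fs h2 j) * Rs W T o e s)) := by
      intro j hj
      rw [hG]
      dsimp only
      rw [if_pos hs2, kq_congr (hmain s hs1 hs2) hj, nq_congr (hmain s hs1 hs2) hj]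
    rw [Finset.sum_congr rfl e1, ← Finset.mul_sum, Finset.sum_add_distrib, ← Finset.mul_sum,
      Finset.sum_sub_distrib, ← Finset.sum_mul, ← Finset.sum_mul, ← Finset.sum_mul]
  have hmoM : ∀ s ∈ S1 W (ph T o), (mo T o s : ℚ) = M := by
    intro s hs
    obtain ⟨hs1, hs2⟩ := mem_filter.1 hs
    rw [hMdef, mo]
    congr 1
    exact Finset.sum_congr rfl fun l hl => by rw [hmain s hs1 hs2 l hl]
  have hsum0 : ∀ s ∈ S0 W (ph T o), ∑ j ∈ T, G s j =
      (p : ℚ)⁻¹ * (rho W (ph T o) e s * (((mo T o s : ℚ) - M) * C0 - C1)) := by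
    intro s hs
    obtain ⟨hs1, hs2⟩ := mem_filter.1 hs
    obtain ⟨c, hc, hcl⟩ := hnb s hs1 hs2
    have hmo : (mo T o s : ℚ) - M = c := by
      rw [hMdef, mo]
      have : ∑ l ∈ T, o s l * l = (∑ l ∈ T, fs l * l) + c := by
        rw [Finset.sum_congr rfl fun l hl => by rw [hcl l hl, add_mul], Finset.sum_add_distrib]
        congr 1
        simp [hc]
      rw [this]
      push_cast
      ring
    have e1 : ∀ j ∈ T, G s j = (p : ℚ)⁻¹ * (rho W (ph T o) e s *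
        (((c : ℚ) - j) * kq T fs h2 h3 j + nq T fs h2 j)) := by
      intro j hj
      rw [hG]
      dsimp only
      rw [if_neg (by omega), if_pos hs2, kq_neighbour hc hcl hfs hj]
    have e2 : (c : ℚ) * C0 - C1 =
        ∑ j ∈ T, (((c : ℚ) - j) * kq T fs h2 h3 j + nq T fs h2 j) := by
      rw [hC0, hC1, Finset.mul_sum, ← Finset.sum_sub_distrib]
      apply Finset.sum_congr rfl
      intro j _
      ring
    rw [Finset.sum_congr rfl e1, ← Finset.mul_sum, ← Finset.mul_sum, hmo, e2]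
  have hsump : ∀ s ∈ Sp W (ph T o), ∑ j ∈ T, G s j = 0 := by
    intro s hs
    obtain ⟨hs1, hs2⟩ := mem_filter.1 hs
    apply Finset.sum_eq_zero
    intro j _
    rw [hG]
    dsimp only
    rw [if_neg (by omega), if_neg (by omega)]
  have hW1 : ∑ s ∈ W, ∑ j ∈ T, G s j = (∑ s ∈ S1 W (ph T o), ∑ j ∈ T, G s j) +
      ((∑ s ∈ S0 W (ph T o), ∑ j ∈ T, G s j) + ∑ s ∈ Sp W (ph T o), ∑ j ∈ T, G s j) := by
    conv_lhs => rw [W_split hph]
    rw [Finset.sum_union disj1, Finset.sum_union disj0]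
  rw [Finset.sum_congr rfl hsum1, Finset.sum_congr rfl hsum0, Finset.sum_eq_zero hsump,
    add_zero] at hW1
  -- evaluation of the sums
  have r0 := sum_rho hph e hdeg
  have r1 := sum_weighted hph e hdeg (fun s => (mo T o s : ℚ)) M hmoM
  have r2 := sum_weighted hph e hdeg (fun s => (ph T o s : ℚ)) (-1) (fun s hs => by
    have := (mem_filter.1 hs).2
    rw [this]
    norm_num)
  have r3 : ∑ s' ∈ S0 W (ph T o), (ph T o s' : ℚ) * rho W (ph T o) e s' = 0 := by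
    apply Finset.sum_eq_zero
    intro s hs
    have := (mem_filter.1 hs).2
    rw [this]
    simp
  have r4 : (e : ℚ) * ∑ s ∈ S1 W (ph T o), rho W (ph T o) (e - 1) s = 0 := by
    cases e with
    | zero => simp
    | succ e =>
      rw [Nat.add_sub_cancel, sum_rho hph e (by push_cast at hdeg ⊢; linarith), mul_zero]
  have r5 : ∑ s ∈ S1 W (ph T o), Rs W T o e s = -Zs W (ph T o) e := by
    have e1 : ∀ s ∈ S1 W (ph T o), Rs W T o e s = rho W (ph T o) e s *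
        (∑ s' ∈ W.erase s, (ph T o s' : ℚ) / ((s' : ℚ) - s)) + e * rho W (ph T o) (e - 1) s := by
      intro s _
      unfold Rs rho
      ring
    rw [Finset.sum_congr rfl e1, Finset.sum_add_distrib, ← Finset.mul_sum, r4, add_zero, r2, r3]
    ring
  have hS1 : ∑ s ∈ S1 W (ph T o), ((p : ℚ) ^ 2)⁻¹ *
      (C0 * rho W (ph T o) e s + p * (C0 * (rho W (ph T o) e s *
          ∑ s' ∈ W.erase s, (mo T o s' : ℚ) / ((s' : ℚ) - s)) - C1 * Rs W T o e s)) =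
      (p : ℚ)⁻¹ * (C0 * (M * Zs W (ph T o) e -
        ∑ s' ∈ S0 W (ph T o), (mo T o s' : ℚ) * rho W (ph T o) e s') + C1 * Zs W (ph T o) e) := by
    rw [← Finset.mul_sum, Finset.sum_add_distrib, ← Finset.mul_sum, r0, ← Finset.mul_sum,
      Finset.sum_sub_distrib, ← Finset.mul_sum, ← Finset.mul_sum, r1, r5]
    field_simp
    ring
  have hS0 : ∑ s ∈ S0 W (ph T o), (p : ℚ)⁻¹ *
      (rho W (ph T o) e s * (((mo T o s : ℚ) - M) * C0 - C1)) =
      (p : ℚ)⁻¹ * (C0 * (∑ s' ∈ S0 W (ph T o), (mo T o s' : ℚ) * rho W (ph T o) e s') -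
        C0 * M * Vs W (ph T o) e - C1 * Vs W (ph T o) e) := by
    rw [← Finset.mul_sum]
    congr 1
    rw [Vs, Finset.mul_sum, Finset.mul_sum, Finset.mul_sum,
      ← Finset.sum_sub_distrib, ← Finset.sum_sub_distrib]
    apply Finset.sum_congr rfl
    intro s _
    ring
  have hV := V_eq hph e hdeg
  have hGsum : ∑ s ∈ W, ∑ j ∈ T, G s j = (C0 * M + C1) * ((p : ℚ)⁻¹ *
      ∑ s ∈ S1 W (ph T o), rho W (ph T o) e s * ∑ s' ∈ W.erase s, 1 / ((s' : ℚ) - s)) := by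
    rw [hW1, hS1, hS0, hV]
    ring
  have hC0n : padicNorm p C0 ≤ 1 :=
    padicNorm.sum_le' (fun j hj => norm_kq (hfu j hj) (hhf j hj)) zero_le_one
  have hC1n : padicNorm p C1 ≤ 1 :=
    padicNorm.sum_le' (fun j hj => nsub (nmul1 (nint j) (norm_kq (hfu j hj) (hhf j hj)))
      (norm_nq (h3 := h3) (hfu j hj) (hhf j hj))) zero_le_one
  have hGn : padicNorm p (∑ s ∈ W, ∑ j ∈ T, G s j) ≤ 1 := by
    rw [hGsum]
    refine nmul1 (nadd (nmul1 hC0n (nint _)) hC1n) ?_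
    have hinv : padicNorm p (p : ℚ)⁻¹ ≤ p := by
      rw [inv_eq_one_div, padicNorm.div, padicNorm.one, npp, one_div, inv_inv]
    have h5 : padicNorm p (∑ s ∈ S1 W (ph T o), rho W (ph T o) e s *
        ∑ s' ∈ W.erase s, 1 / ((s' : ℚ) - s)) ≤ (p : ℚ)⁻¹ := by
      refine padicNorm.sum_le' (fun s hs => ?_) inv_nonneg'
      have hs1 := (mem_filter.1 hs).1
      exact nmul1 (norm_rho e s hs1) (sum_inv_window hp2 m s hs1)
    have h6 := nmul hinv h5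
    rwa [mul_inv_cancel₀ hp0] at h6
  have h7 := nadd h1 hGn
  convert h7 using 2
  rw [← Finset.sum_add_distrib]
  apply Finset.sum_congr rfl
  intro s _
  rw [← Finset.sum_add_distrib]
  apply Finset.sum_congr rfl
  intro j _
  ring

end

end Pool.Agent.Z3.C2
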