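import Pool.Agent.Z3.StructDefs
import Pool.Agent.Z3.Term

/-!
# p-adic structure of the coefficients
-/

open Finset
open scoped BigOperators

namespace Pool.Agent.Z3

namespace StructAux

open TermAux

theorem erase_eq (S : Finset ℕ) (p k : ℕ) : S.erase k = cls S p k ∪ ncls S p k := by
  ext i
  simp only [cls, ncls, mem_erase, mem_union, mem_filter]
  constructor
  · rintro ⟨h1, h2⟩
    by_cases h : i % p = k % p
    · exact Or.inl ⟨h1, h2, h⟩
    · exact Or.inr ⟨h2, h⟩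
  · rintro (⟨h1, h2, _⟩ | ⟨h2, h⟩)
    · exact ⟨h1, h2⟩
    · refine ⟨?_, h2⟩
      rintro rfl
      exact h rfl

theorem disj (S : Finset ℕ) (p k : ℕ) : Disjoint (cls S p k) (ncls S p k) := by
  rw [Finset.disjoint_left]
  intro i hi hi2
  simp only [cls, ncls, mem_erase, mem_filter] at hi hi2
  exact hi2.2 hi.2.2

theorem sub_cls {S : Finset ℕ} {p k i : ℕ} (hi : i ∈ cls S p k) :
    (i : ℚ) - k = p * (((i / p : ℕ) : ℚ) - ((k / p : ℕ) : ℚ)) := by
  simp only [cls, mem_erase, mem_filter] at hi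
  have h1 : ((p * (i / p) + i % p : ℕ) : ℚ) = (i : ℚ) := by rw [Nat.div_add_mod]
  have h2 : ((p * (k / p) + k % p : ℕ) : ℚ) = (k : ℚ) := by rw [Nat.div_add_mod]
  rw [← h1, ← h2, hi.2.2]
  push_cast
  ring

theorem div_ne {S : Finset ℕ} {p k i : ℕ} (hi : i ∈ cls S p k) : i / p ≠ k / p := by
  simp only [cls, mem_erase, mem_filter] at hi
  intro h
  apply hi.1
  rw [← Nat.div_add_mod i p, ← Nat.div_add_mod k p, h, hi.2.2]

/-- the difference of the quotients is a unit -/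
theorem norm_div_sub {S : Finset ℕ} {p k i : ℕ} (hp : p.Prime) (hS : ∀ i ∈ S, i < p ^ 2)
    (hk : k < p ^ 2) (hi : i ∈ cls S p k) :
    padicNorm p (((i / p : ℕ) : ℚ) - ((k / p : ℕ) : ℚ)) = 1 := by
  have hi' := hi
  simp only [cls, mem_erase, mem_filter] at hi'
  have h1 : i / p < p := by
    rw [Nat.div_lt_iff_lt_mul hp.pos, ← sq]
    exact hS i hi'.2.1
  have h2 : k / p < p := by
    rw [Nat.div_lt_iff_lt_mul hp.pos, ← sq]
    exact hk
  refine norm_sub_ne p (i / p) (k / p) hp ?_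
  rw [Nat.mod_eq_of_lt h1, Nat.mod_eq_of_lt h2]
  exact div_ne hi

theorem div_sub_ne_zero {S : Finset ℕ} {p k i : ℕ} (hi : i ∈ cls S p k) :
    (((i / p : ℕ) : ℚ) - ((k / p : ℕ) : ℚ)) ≠ 0 := by
  have := div_ne hi
  intro h
  apply this
  have h2 : ((i / p : ℕ) : ℚ) = ((k / p : ℕ) : ℚ) := by linarith
  exact_mod_cast h2

theorem norm_wv (S : Finset ℕ) (p k : ℕ) (hp : p.Prime) (hS : ∀ i ∈ S, i < p ^ 2) (hk : k < p ^ 2) :
    padicNorm p (wv S p k) = 1 := by
  have := Fact.mk hp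
  unfold wv
  rw [padicNorm_prod]
  exact prod_eq_one fun i hi => norm_div_sub hp hS hk hi

theorem norm_uv (S : Finset ℕ) (p k : ℕ) (hp : p.Prime) : padicNorm p (uv S p k) = 1 := by
  have := Fact.mk hp
  unfold uv
  rw [padicNorm_prod]
  refine prod_eq_one fun i hi => ?_
  simp only [ncls, mem_filter] at hi
  exact norm_sub_ne p i k hp hi.2

theorem norm_lv_le (S : Finset ℕ) (p k : ℕ) (hp : p.Prime) (hS : ∀ i ∈ S, i < p ^ 2) (hk : k < p ^ 2) :
    padicNorm p (lv S p k) ≤ 1 := by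
  have := Fact.mk hp
  unfold lv
  refine padicNorm.sum_le' (fun i hi => ?_) zero_le_one
  rw [padicNorm.div, padicNorm.one, norm_div_sub hp hS hk hi, div_one]

theorem wv_ne (S : Finset ℕ) (p k : ℕ) : wv S p k ≠ 0 := by
  unfold wv
  exact prod_ne_zero_iff.mpr fun i hi => div_sub_ne_zero hi

theorem uv_ne (S : Finset ℕ) (p k : ℕ) : uv S p k ≠ 0 := by
  unfold uv
  refine prod_ne_zero_iff.mpr fun i hi => ?_
  simp only [ncls, mem_filter] at hi
  intro h
  apply hi.2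
  have h2 : (i : ℚ) = (k : ℚ) := by linarith
  have h3 : i = k := by exact_mod_cast h2
  rw [h3]

/-- the product over a block without k -/
theorem prod_split (S : Finset ℕ) (p k : ℕ) :
    ∏ i ∈ S.erase k, ((i : ℚ) - k) = (p : ℚ) ^ (cls S p k).card * wv S p k * uv S p k := by
  rw [erase_eq S p k, prod_union (disj S p k), uv, wv, prod_congr rfl (fun i hi => sub_cls hi),
    prod_mul_distrib, prod_const]

/-- the sum over a block without k -/
theorem sum_split (S : Finset ℕ) (p k : ℕ) (hp : p.Prime) :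
    padicNorm p (∑ i ∈ S.erase k, 1 / ((i : ℚ) - k) - lv S p k / p) ≤ 1 := by
  have := Fact.mk hp
  have hp0 : (p : ℚ) ≠ 0 := by exact_mod_cast hp.ne_zero
  have h1 : ∑ i ∈ cls S p k, 1 / ((i : ℚ) - k) = lv S p k / p := by
    rw [lv, sum_div]
    refine sum_congr rfl fun i hi => ?_
    rw [sub_cls hi]
    have := div_sub_ne_zero hi
    field_simp
  rw [erase_eq S p k, sum_union (disj S p k), h1, add_sub_cancel_left]
  refine padicNorm.sum_le' (fun i hi => ?_) zero_le_one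
  simp only [ncls, mem_filter] at hi
  rw [padicNorm.div, padicNorm.one, norm_sub_ne p i k hp hi.2, div_one]

theorem card_cls_notMem (S : Finset ℕ) (p k : ℕ) (hk : k ∉ S) :
    (cls S p k).card = cnt S p (k % p) := by
  unfold cls cnt
  rw [erase_eq_of_notMem]
  rw [mem_filter]
  exact fun h => hk h.1

theorem card_cls_mem (S : Finset ℕ) (p k : ℕ) (hk : k ∈ S) :
    ((cls S p k).card : ℤ) = (cnt S p (k % p) : ℤ) - 1 := by
  unfold cls cnt
  rw [card_erase_of_mem (by rw [mem_filter]; exact ⟨hk, rfl⟩)]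
  have : 0 < (S.filter (fun i => i % p = k % p)).card :=
    card_pos.mpr ⟨k, by rw [mem_filter]; exact ⟨hk, rfl⟩⟩
  omega

theorem num_split (n p k : ℕ) (hn : 1 ≤ n) (hk : k ∈ K1 n) :
    num n (-(k : ℚ)) = (p : ℚ) ^ (cnt (N1 n) p (k % p) + cnt (N2 n) p (k % p) + cnt (N3 n) p (k % p)) *
      (wv (N1 n) p k * wv (N2 n) p k * wv (N3 n) p k) *
      (uv (N1 n) p k * uv (N2 n) p k * uv (N3 n) p k) := by
  obtain ⟨h1, h2, h3⟩ := K1_not hn hk
  have e : ∀ S : Finset ℕ, k ∉ S → ∏ i ∈ S, (-(k : ℚ) + (i : ℚ)) =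
      (p : ℚ) ^ (cnt S p (k % p)) * wv S p k * uv S p k := by
    intro S hS
    rw [← card_cls_notMem S p k hS, ← prod_split S p k, erase_eq_of_notMem hS]
    exact prod_congr rfl fun i _ => by ring
  rw [num, e _ h1, e _ h2, e _ h3, pow_add, pow_add]
  ring

end StructAux

open TermAux StructAux

theorem norm_kap (n p : ℕ) (hn : 1 ≤ n) (hp : p.Prime) (hp2 : 40 * n + 2 < p ^ 2) :
    padicNorm p (kap n) = (p : ℚ) ^ (- e0 n p) := TermAux.norm_kap n p hp hp2

theorem norm_W (n p k : ℕ) (hn : 1 ≤ n) (hp : p.Prime) (hp2 : 40 * n + 2 < p ^ 2) (hk : k ∈ K1 n) :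
    padicNorm p (W n p k) = 1 := by
  have := Fact.mk hp
  obtain ⟨m1, m2, m3, m4, m5⟩ : (∀ i ∈ N1 n, i < p ^ 2) ∧ (∀ i ∈ N2 n, i < p ^ 2) ∧
      (∀ i ∈ N3 n, i < p ^ 2) ∧ (∀ i ∈ K1 n, i < p ^ 2) ∧ (∀ i ∈ K2 n, i < p ^ 2) :=
    ⟨fun i => (mem_lt hp2).1, fun i => (mem_lt hp2).2.1, fun i => (mem_lt hp2).2.2.1,
      fun i => (mem_lt hp2).2.2.2.1, fun i => (mem_lt hp2).2.2.2.2⟩
  have hkl := m4 k hk
  unfold W
  rw [padicNorm.div, padicNorm.mul, padicNorm.mul, padicNorm.mul, norm_wv _ p k hp m1 hkl,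
    norm_wv _ p k hp m2 hkl, norm_wv _ p k hp m3 hkl, norm_wv _ p k hp m4 hkl,
    norm_wv _ p k hp m5 hkl]
  norm_num

theorem norm_U (n p k : ℕ) (hn : 1 ≤ n) (hp : p.Prime) (hp2 : 40 * n + 2 < p ^ 2) (hk : k ∈ K1 n) :
    padicNorm p (U n p k) = 1 := by
  have := Fact.mk hp
  unfold U
  rw [padicNorm.div, padicNorm.mul, padicNorm.mul, padicNorm.mul, norm_uv _ p k hp,
    norm_uv _ p k hp, norm_uv _ p k hp, norm_uv _ p k hp, norm_uv _ p k hp]
  norm_num

theorem norm_Lam (n p k : ℕ) (hn : 1 ≤ n) (hp : p.Prime) (hp2 : 40 * n + 2 < p ^ 2) (hk : k ∈ K1 n) :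
    padicNorm p (Lam n p k) ≤ 1 := by
  have := Fact.mk hp
  have hkl := (mem_lt hp2).2.2.2.1 hk
  unfold Lam
  refine padicNorm.sub.trans (max_le ?_ (norm_lv_le _ p k hp (fun i => (mem_lt hp2).2.2.2.2) hkl))
  refine padicNorm.sub.trans (max_le ?_ (norm_lv_le _ p k hp (fun i => (mem_lt hp2).2.2.2.1) hkl))
  refine padicNorm.nonarchimedean.trans
    (max_le ?_ (norm_lv_le _ p k hp (fun i => (mem_lt hp2).2.2.1) hkl))
  exact padicNorm.nonarchimedean.trans
    (max_le (norm_lv_le _ p k hp (fun i => (mem_lt hp2).1) hkl)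
      (norm_lv_le _ p k hp (fun i => (mem_lt hp2).2.1) hkl))

theorem A0_struct (n p k : ℕ) (hn : 1 ≤ n) (hp : p.Prime) (hp2 : 40 * n + 2 < p ^ 2) (hk : k ∈ K2 n) :
    A0 n k = kap n * (p : ℚ) ^ (phi n p (k % p) + 2) * W n p k * U n p k := by
  have hp0 : (p : ℚ) ≠ 0 := by exact_mod_cast hp.ne_zero
  have hk1 := K2_sub hk
  rw [A0_eq n k hn hk, num_split n p k hn hk1, prod_split (K1 n) p k, prod_split (K2 n) p k, W, U,
    phi_cnt]
  have e1 := card_cls_mem (K1 n) p k hk1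
  have e2 := card_cls_mem (K2 n) p k hk
  have hw1 := wv_ne (K1 n) p k
  have hw2 := wv_ne (K2 n) p k
  have hu1 := uv_ne (K1 n) p k
  have hu2 := uv_ne (K2 n) p k
  have e3 : ((cnt (N1 n) p (k % p) : ℤ) + (cnt (N2 n) p (k % p) : ℤ) + (cnt (N3 n) p (k % p) : ℤ) -
      (cnt (K1 n) p (k % p) : ℤ) - (cnt (K2 n) p (k % p) : ℤ)) + 2 =
      ((cnt (N1 n) p (k % p) + cnt (N2 n) p (k % p) + cnt (N3 n) p (k % p) : ℕ) : ℤ) -
      (((cls (K1 n) p k).card + (cls (K2 n) p k).card : ℕ) : ℤ) := by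
    push_cast
    rw [e1, e2]
    ring
  rw [e3, zpow_sub₀ hp0, zpow_natCast, zpow_natCast, pow_add (p : ℚ) (cls (K1 n) p k).card]
  field_simp

theorem B0_struct (n p k : ℕ) (hn : 1 ≤ n) (hp : p.Prime) (hp2 : 40 * n + 2 < p ^ 2) (hk : k ∈ K1 n)
    (hk2 : k ∉ K2 n) :
    B0 n k = kap n * (p : ℚ) ^ (phi n p (k % p) + 1) * W n p k * U n p k := by
  have hp0 : (p : ℚ) ≠ 0 := by exact_mod_cast hp.ne_zero
  have hp2' := prod_split (K2 n) p k
  rw [erase_eq_of_notMem hk2] at hp2'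
  rw [B0_simple n k hk hk2, num_split n p k hn hk, prod_split (K1 n) p k, hp2', W, U,
    phi_cnt]
  have e1 := card_cls_mem (K1 n) p k hk
  have e2 := card_cls_notMem (K2 n) p k hk2
  have hw1 := wv_ne (K1 n) p k
  have hw2 := wv_ne (K2 n) p k
  have hu1 := uv_ne (K1 n) p k
  have hu2 := uv_ne (K2 n) p k
  have e3 : ((cnt (N1 n) p (k % p) : ℤ) + (cnt (N2 n) p (k % p) : ℤ) + (cnt (N3 n) p (k % p) : ℤ) -
      (cnt (K1 n) p (k % p) : ℤ) - (cnt (K2 n) p (k % p) : ℤ)) + 1 =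
      ((cnt (N1 n) p (k % p) + cnt (N2 n) p (k % p) + cnt (N3 n) p (k % p) : ℕ) : ℤ) -
      (((cls (K1 n) p k).card + (cls (K2 n) p k).card : ℕ) : ℤ) := by
    push_cast
    rw [e1, e2]
    ring
  rw [e3, zpow_sub₀ hp0, zpow_natCast, zpow_natCast, pow_add (p : ℚ) (cls (K1 n) p k).card]
  field_simp

theorem L0_struct (n p k : ℕ) (hn : 1 ≤ n) (hp : p.Prime) (hp2 : 40 * n + 2 < p ^ 2) (hk : k ∈ K2 n) :
    padicNorm p (L0 n k - Lam n p k / p) ≤ 1 := by
  have := Fact.mk hp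
  obtain ⟨h1, h2, h3⟩ := K1_not hn (K2_sub hk)
  have s1 := sum_split (N1 n) p k hp
  have s2 := sum_split (N2 n) p k hp
  have s3 := sum_split (N3 n) p k hp
  have s4 := sum_split (K1 n) p k hp
  have s5 := sum_split (K2 n) p k hp
  rw [erase_eq_of_notMem h1] at s1
  rw [erase_eq_of_notMem h2] at s2
  rw [erase_eq_of_notMem h3] at s3
  have e : L0 n k - Lam n p k / p =
      (∑ i ∈ N1 n, 1 / ((i : ℚ) - k) - lv (N1 n) p k / p) +
      (∑ i ∈ N2 n, 1 / ((i : ℚ) - k) - lv (N2 n) p k / p) +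
      (∑ i ∈ N3 n, 1 / ((i : ℚ) - k) - lv (N3 n) p k / p) -
      (∑ i ∈ (K1 n).erase k, 1 / ((i : ℚ) - k) - lv (K1 n) p k / p) -
      (∑ i ∈ (K2 n).erase k, 1 / ((i : ℚ) - k) - lv (K2 n) p k / p) := by
    unfold L0 Lam
    ring
  rw [e]
  refine padicNorm.sub.trans (max_le ?_ s5)
  refine padicNorm.sub.trans (max_le ?_ s4)
  refine padicNorm.nonarchimedean.trans (max_le ?_ s3)
  exact padicNorm.nonarchimedean.trans (max_le s1 s2)

/-- the harmonic sums: H s m = p^(-s) H s (m/p) + p-integral -/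
theorem H_struct (s m p : ℕ) (hp : p.Prime) (hm : m < p ^ 2) :
    padicNorm p (H s m - H s (m / p) / (p : ℚ) ^ s) ≤ 1 ∧ padicNorm p (H s (m / p)) ≤ 1 := by
  have := Fact.mk hp
  have hp0 : (p : ℚ) ≠ 0 := by exact_mod_cast hp.ne_zero
  constructor
  · -- split the range
    have h1 : H s m = (∑ i ∈ (range m).filter (fun i => p ∣ i + 1), 1 / ((i : ℚ) + 1) ^ s) +
        ∑ i ∈ (range m).filter (fun i => ¬ p ∣ i + 1), 1 / ((i : ℚ) + 1) ^ s := by
      rw [H, sum_filter_add_sum_filter_not]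
    have h2 : (∑ i ∈ (range m).filter (fun i => p ∣ i + 1), 1 / ((i : ℚ) + 1) ^ s) =
        H s (m / p) / (p : ℚ) ^ s := by
      rw [H, sum_div]
      symm
      refine sum_bij (fun l _ => p * (l + 1) - 1) ?_ ?_ ?_ ?_
      · intro l hl
        rw [mem_range] at hl
        rw [mem_filter, mem_range]
        have hpos : 0 < p * (l + 1) := Nat.mul_pos hp.pos (Nat.succ_pos l)
        have hle : p * (l + 1) ≤ m := by
          calc p * (l + 1) ≤ p * (m / p) := Nat.mul_le_mul_left p hl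
            _ ≤ m := Nat.mul_div_le m p
        refine ⟨by omega, ?_⟩
        rw [Nat.sub_add_cancel hpos]
        exact Dvd.intro _ rfl
      · intro l _ l' _ h
        have hpos : 0 < p * (l + 1) := Nat.mul_pos hp.pos (Nat.succ_pos l)
        have hpos' : 0 < p * (l' + 1) := Nat.mul_pos hp.pos (Nat.succ_pos l')
        have h3 : p * (l + 1) = p * (l' + 1) := by
          omega
        have := Nat.eq_of_mul_eq_mul_left hp.pos h3
        omega
      · intro i hi
        rw [mem_filter, mem_range] at hi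
        obtain ⟨c, hc⟩ := hi.2
        have hc0 : c ≠ 0 := by
          rintro rfl
          rw [mul_zero] at hc
          omega
        refine ⟨c - 1, ?_, ?_⟩
        · rw [mem_range]
          have : c ≤ m / p := by
            rw [Nat.le_div_iff_mul_le hp.pos, mul_comm, ← hc]
            omega
          omega
        · rw [Nat.sub_add_cancel (Nat.one_le_iff_ne_zero.mpr hc0), ← hc]
          omega
      · intro l _
        have hpos : 1 ≤ p * (l + 1) := Nat.mul_pos hp.pos (Nat.succ_pos l)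
        rw [Nat.cast_sub hpos]
        push_cast
        rw [sub_add_cancel, mul_pow, div_div, mul_comm ((p : ℚ) ^ s)]
    rw [h1, h2, add_sub_cancel_left]
    refine padicNorm.sum_le' (fun i hi => ?_) zero_le_one
    rw [mem_filter] at hi
    have e : ((i : ℚ) + 1) ^ s = (((i + 1) ^ s : ℕ) : ℚ) := by push_cast; ring
    rw [padicNorm.div, padicNorm.one, e, (padicNorm.nat_eq_one_iff _).mpr, div_one]
    exact fun hd => hi.2 (hp.dvd_of_dvd_pow hd)
  · refine norm_H_small p s (m / p) hp ?_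
    rw [Nat.div_lt_iff_lt_mul hp.pos, ← sq]
    exact hm

end Pool.Agent.Z3
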