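import Pool.Agent.Z3.C2Ph
import Pool.Agent.Z3.Struct

/-!
Second order cancellation: the coefficients in terms of the order function.
-/

open Finset

namespace Pool.Agent.Z3.C2

/-- reindexing i = s + l p -/
theorem prod_pairs {M : Type*} [CommMonoid M] {p : ℕ} (hp : 0 < p) (m : ℤ) (f : ℤ → M) :
    ∏ s ∈ Ico m (m + p), ∏ l ∈ TT p, f (s + l * p) =
      ∏ i ∈ Ico (m - (p : ℤ) * p) (m + (p : ℤ) * p), f i := by
  have hp0 : (0 : ℤ) < p := by exact_mod_cast hp
  rw [← prod_product']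
  refine prod_nbij' (fun x => x.1 + x.2 * p) (fun i => (m + (i - m) % p, (i - m) / p)) ?_ ?_ ?_ ?_ ?_
  · rintro ⟨s, l⟩ hx
    simp only [TT, mem_product, mem_Ico] at hx ⊢
    obtain ⟨⟨h1, h2⟩, h3, h4⟩ := hx
    have h5 : (-(p : ℤ)) * p ≤ l * p := mul_le_mul_of_nonneg_right h3 hp0.le
    have h6 : l * p ≤ ((p : ℤ) - 1) * p := mul_le_mul_of_nonneg_right (by omega) hp0.le
    constructor
    · linarith
    · linarith
  · intro i hi
    simp only [TT, mem_product, mem_Ico] at hi ⊢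
    have h1 := Int.emod_nonneg (i - m) hp0.ne'
    have h2 := Int.emod_lt_of_pos (i - m) hp0
    refine ⟨⟨by omega, by omega⟩, ?_, ?_⟩
    · rw [Int.le_ediv_iff_mul_le hp0]
      linarith
    · rw [Int.ediv_lt_iff_lt_mul hp0]
      linarith
  · rintro ⟨s, l⟩ hx
    simp only [TT, mem_product, mem_Ico] at hx ⊢
    obtain ⟨⟨h1, h2⟩, h3, h4⟩ := hx
    have e : s + l * p - m = (s - m) + l * p := by ring
    rw [e, Int.add_mul_emod_self_right, Int.add_mul_ediv_right _ _ hp0.ne', Int.emod_eq_of_lt (by omega) (by omega),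
      Int.ediv_eq_zero_of_lt (by omega) (by omega)]
    simp
  · intro i _
    simp only
    have := Int.emod_add_mul_ediv (i - m) p
    linarith
  · intro x _
    rfl

/-- a block of naturals as a product over integers -/
theorem prod_block {M : Type*} [CommMonoid M] {A B : ℕ} {a b : ℤ} (ha : a ≤ A) (hb : (B : ℤ) ≤ b) (f : ℤ → M) :
    ∏ i ∈ Ico a b, (if (A : ℤ) ≤ i ∧ i < B then f i else 1) = ∏ i ∈ Ico A B, f i := by
  rw [← prod_filter]
  symm
  refine prod_nbij' (fun i => (i : ℤ)) (fun i => i.toNat) ?_ ?_ ?_ ?_ ?_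
  · intro i hi
    simp only [mem_filter, mem_Ico] at hi ⊢
    omega
  · intro i hi
    simp only [mem_filter, mem_Ico] at hi ⊢
    omega
  · intro i _
    simp
  · intro i hi
    simp only [mem_filter, mem_Ico] at hi
    exact Int.toNat_of_nonneg (by omega)
  · intro i _
    rfl

theorem zpow_ite {x : ℚ} (P : Prop) [Decidable P] : x ^ (if P then (1 : ℤ) else 0) = if P then x else 1 := by
  split_ifs <;> simp

/-- the product of all orders as blocks -/
theorem prod_od {n : ℕ} {a b : ℤ} (ha : a ≤ 0) (hb : 40 * (n : ℤ) + 2 ≤ b) (F : ℤ → ℚ) (hF : ∀ i, F i ≠ 0) :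
    ∏ i ∈ Ico a b, F i ^ od n i =
      (∏ i ∈ N1 n, F i) * (∏ i ∈ N2 n, F i) * (∏ i ∈ N3 n, F i) / ((∏ i ∈ K1 n, F i) * ∏ i ∈ K2 n, F i) := by
  have hn0 : (0 : ℤ) ≤ n := Int.natCast_nonneg n
  unfold N1 N2 N3 K1 K2
  rw [← prod_block (A := 0) (B := 17 * n) (a := a) (b := b) (by omega) (by push_cast; omega) F,
    ← prod_block (A := 2 * n) (B := 15 * n) (a := a) (b := b) (by push_cast; omega) (by push_cast; omega) F,
    ← prod_block (A := 4 * n) (B := 13 * n) (a := a) (b := b) (by push_cast; omega) (by push_cast; omega) F,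
    ← prod_block (A := 19 * n) (B := 40 * n + 2) (a := a) (b := b) (by push_cast; omega) (by push_cast; omega) F,
    ← prod_block (A := 20 * n) (B := 38 * n + 2) (a := a) (b := b) (by push_cast; omega) (by push_cast; omega) F,
    ← prod_mul_distrib, ← prod_mul_distrib, ← prod_mul_distrib, ← prod_div_distrib]
  refine prod_congr rfl fun i _ => ?_
  unfold od
  rw [zpow_sub₀ (hF i), zpow_sub₀ (hF i), zpow_add₀ (hF i), zpow_add₀ (hF i)]
  simp only [zpow_ite]
  push_cast
  rw [div_div]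

/-- the sum over all orders as blocks -/
theorem sum_od {n : ℕ} {a b : ℤ} (ha : a ≤ 0) (hb : 40 * (n : ℤ) + 2 ≤ b) (F : ℤ → ℚ) :
    ∑ i ∈ Ico a b, (od n i : ℚ) * F i =
      (∑ i ∈ N1 n, F i) + (∑ i ∈ N2 n, F i) + (∑ i ∈ N3 n, F i) - (∑ i ∈ K1 n, F i) - ∑ i ∈ K2 n, F i := by
  have hn0 : (0 : ℤ) ≤ n := Int.natCast_nonneg n
  have hbl : ∀ {A B : ℕ}, a ≤ A → (B : ℤ) ≤ b →
      ∑ i ∈ Ico a b, (if (A : ℤ) ≤ i ∧ i < B then F i else 0) = ∑ i ∈ Ico A B, F i := fun h1 h2 =>
    prod_block (M := Multiplicative ℚ) h1 h2 F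
  unfold N1 N2 N3 K1 K2
  rw [← hbl (A := 0) (B := 17 * n) (by omega) (by push_cast; omega),
    ← hbl (A := 2 * n) (B := 15 * n) (by push_cast; omega) (by push_cast; omega),
    ← hbl (A := 4 * n) (B := 13 * n) (by push_cast; omega) (by push_cast; omega),
    ← hbl (A := 19 * n) (B := 40 * n + 2) (by push_cast; omega) (by push_cast; omega),
    ← hbl (A := 20 * n) (B := 38 * n + 2) (by push_cast; omega) (by push_cast; omega),
    ← sum_add_distrib, ← sum_add_distrib, ← sum_sub_distrib, ← sum_sub_distrib]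
  refine sum_congr rfl fun i _ => ?_
  unfold od
  push_cast
  simp only [sub_mul, add_mul, ite_mul, one_mul, zero_mul]

/-- the difference to k, with 1 at k -/
def FF (k i : ℤ) : ℚ := if i = k then 1 else (i : ℚ) - k

def GG (k i : ℤ) : ℚ := if i = k then 0 else 1 / ((i : ℚ) - k)

theorem FF_ne (k i : ℤ) : FF k i ≠ 0 := by
  unfold FF
  split_ifs with h
  · norm_num
  · exact cast_sub_ne h

theorem prod_FF (S : Finset ℕ) (k : ℕ) : ∏ i ∈ S, FF k i = ∏ i ∈ S.erase k, ((i : ℚ) - k) := by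
  unfold FF
  by_cases hk : k ∈ S
  · rw [← mul_prod_erase S _ hk, if_pos rfl, one_mul]
    refine prod_congr rfl fun i hi => ?_
    rw [if_neg (by exact_mod_cast (ne_of_mem_erase hi))]
    push_cast
    rfl
  · rw [erase_eq_of_notMem hk]
    refine prod_congr rfl fun i hi => ?_
    rw [if_neg (by
      intro h
      apply hk
      have : i = k := by exact_mod_cast h
      rwa [this] at hi)]
    push_cast
    rfl

theorem sum_GG (S : Finset ℕ) (k : ℕ) : ∑ i ∈ S, GG k i = ∑ i ∈ S.erase k, 1 / ((i : ℚ) - k) := by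
  unfold GG
  by_cases hk : k ∈ S
  · rw [← add_sum_erase S _ hk, if_pos rfl, zero_add]
    refine sum_congr rfl fun i hi => ?_
    rw [if_neg (by exact_mod_cast (ne_of_mem_erase hi))]
    push_cast
    rfl
  · rw [erase_eq_of_notMem hk]
    refine sum_congr rfl fun i hi => ?_
    rw [if_neg (by
      intro h
      apply hk
      have : i = k := by exact_mod_cast h
      rwa [this] at hi)]
    push_cast
    rfl

theorem prod_class {p : ℕ} [hF : Fact p.Prime] {m : ℤ} (o : ℤ → ℤ → ℤ) {s j : ℤ} (hs : s ∈ Ico m (m + p))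
    (hj : j ∈ TT p) :
    ∏ s' ∈ Ico m (m + p), ∏ l ∈ TT p, FF (s + j * p) (s' + l * p) ^ o s' l =
      (p : ℚ) ^ (ph (TT p) o s - o s j) * (wq (TT p) (o s) j * uq p (Ico m (m + p)) (TT p) o s j) := by
  have hp0 : (p : ℚ) ≠ 0 := by exact_mod_cast hF.out.ne_zero
  have hpz : (p : ℤ) ≠ 0 := by exact_mod_cast hF.out.ne_zero
  rw [← mul_prod_erase _ _ hs]
  have h1 : ∏ l ∈ TT p, FF (s + j * p) (s + l * p) ^ o s l = (p : ℚ) ^ (ph (TT p) o s - o s j) * wq (TT p) (o s) j := by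
    rw [← mul_prod_erase _ _ hj]
    have e1 : FF (s + j * p) (s + j * p) = 1 := by unfold FF; rw [if_pos rfl]
    rw [e1, one_zpow, one_mul]
    have e2 : ph (TT p) o s - o s j = ∑ l ∈ (TT p).erase j, o s l := by
      unfold ph
      rw [← add_sum_erase _ _ hj]
      ring
    rw [e2, ← prod_zpow_sum hp0, wq, ← prod_mul_distrib]
    refine prod_congr rfl fun l hl => ?_
    rw [← mul_zpow]
    congr 1
    unfold FF
    rw [if_neg]
    · push_cast
      ring
    · intro h
      have h2 : (l - j) * p = 0 := by linarith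
      rcases mul_eq_zero.1 h2 with h3 | h3
      · exact (ne_of_mem_erase hl) (by linarith)
      · exact hpz h3
  have h2 : ∏ s' ∈ (Ico m (m + p)).erase s, ∏ l ∈ TT p, FF (s + j * p) (s' + l * p) ^ o s' l =
      uq p (Ico m (m + p)) (TT p) o s j := by
    unfold uq
    refine prod_congr rfl fun s' hs' => prod_congr rfl fun l _ => ?_
    congr 1
    unfold FF
    rw [if_neg]
    · push_cast
      ring
    · intro h
      apply window_unit hs hs'
      exact ⟨j - l, by linear_combination h⟩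
  rw [h1, h2, mul_assoc]

theorem sum_class {p : ℕ} [hF : Fact p.Prime] {m : ℤ} (o : ℤ → ℤ → ℤ) {s j : ℤ} (hs : s ∈ Ico m (m + p))
    (hj : j ∈ TT p) :
    ∑ s' ∈ Ico m (m + p), ∑ l ∈ TT p, (o s' l : ℚ) * GG (s + j * p) (s' + l * p) =
      lq (TT p) (o s) j / p + vq p (Ico m (m + p)) (TT p) o s j := by
  have hp0 : (p : ℚ) ≠ 0 := by exact_mod_cast hF.out.ne_zero
  have hpz : (p : ℤ) ≠ 0 := by exact_mod_cast hF.out.ne_zero
  rw [← add_sum_erase _ _ hs]
  have h1 : ∑ l ∈ TT p, (o s l : ℚ) * GG (s + j * p) (s + l * p) = lq (TT p) (o s) j / p := by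
    rw [← add_sum_erase _ _ hj]
    have e1 : GG (s + j * p) (s + j * p) = 0 := by unfold GG; rw [if_pos rfl]
    rw [e1, mul_zero, zero_add, lq, sum_div]
    refine sum_congr rfl fun l hl => ?_
    have hlj := ne_of_mem_erase hl
    have hd := cast_sub_ne hlj
    unfold GG
    rw [if_neg]
    · have e3 : (((s + l * p : ℤ) : ℚ) - ((s + j * p : ℤ) : ℚ)) = p * ((l : ℚ) - j) := by
        push_cast
        ring
      rw [e3]
      field_simp
    · intro h
      have h2 : (l - j) * p = 0 := by linarith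
      rcases mul_eq_zero.1 h2 with h3 | h3
      · exact (ne_of_mem_erase hl) (by linarith)
      · exact hpz h3
  have h2 : ∑ s' ∈ (Ico m (m + p)).erase s, ∑ l ∈ TT p, (o s' l : ℚ) * GG (s + j * p) (s' + l * p) =
      vq p (Ico m (m + p)) (TT p) o s j := by
    unfold vq
    refine sum_congr rfl fun s' hs' => sum_congr rfl fun l _ => ?_
    unfold GG
    rw [if_neg, mul_one_div]
    · congr 1
      push_cast
      ring
    · intro h
      apply window_unit hs hs'
      exact ⟨j - l, by linear_combination h⟩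
  rw [h1, h2]

theorem num_FF {n k : ℕ} (hn : 1 ≤ n) (hk : k ∈ K1 n) :
    num n (-(k : ℚ)) = (∏ i ∈ N1 n, FF k i) * (∏ i ∈ N2 n, FF k i) * ∏ i ∈ N3 n, FF k i := by
  obtain ⟨h1, h2, h3⟩ := TermAux.K1_not hn hk
  rw [prod_FF, prod_FF, prod_FF, erase_eq_of_notMem h1, erase_eq_of_notMem h2, erase_eq_of_notMem h3, num]
  congr 1
  · congr 1
    · exact prod_congr rfl fun i _ => by ring
    · exact prod_congr rfl fun i _ => by ring
  · exact prod_congr rfl fun i _ => by ring

section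

variable {n p m : ℕ} [hF : Fact p.Prime]

theorem prod_main (hp2 : 40 * n + 2 < p ^ 2) (hm : m ≤ 15 * n) {s j : ℤ}
    (hs : s ∈ Ico (m : ℤ) (m + p)) (hj : j ∈ TT p) {k : ℕ} (hk : s + j * p = k) :
    (∏ i ∈ N1 n, FF k i) * (∏ i ∈ N2 n, FF k i) * (∏ i ∈ N3 n, FF k i) /
        ((∏ i ∈ K1 n, FF k i) * ∏ i ∈ K2 n, FF k i) =
      (p : ℚ) ^ (ph (TT p) (oo n p) s - oo n p s j) *
        (wq (TT p) (oo n p s) j * uq p (Ico (m : ℤ) (m + p)) (TT p) (oo n p) s j) := by
  have hn0 : (0 : ℤ) ≤ n := Int.natCast_nonneg n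
  have hp2' : 40 * (n : ℤ) + 2 < (p : ℤ) * p := by
    have : 40 * (n : ℤ) + 2 < (p : ℤ) ^ 2 := by exact_mod_cast hp2
    nlinarith
  have hm' : (m : ℤ) ≤ 15 * n := by exact_mod_cast hm
  rw [← prod_class (oo n p) hs hj, hk, ← prod_od (a := (m : ℤ) - (p : ℤ) * p) (b := (m : ℤ) + (p : ℤ) * p)
    (by omega) (by omega) (FF k) (FF_ne k), ← prod_pairs hF.out.pos]
  rfl

theorem sum_main (hp2 : 40 * n + 2 < p ^ 2) (hm : m ≤ 15 * n) {s j : ℤ}
    (hs : s ∈ Ico (m : ℤ) (m + p)) (hj : j ∈ TT p) {k : ℕ} (hk : s + j * p = k) :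
    (∑ i ∈ N1 n, GG k i) + (∑ i ∈ N2 n, GG k i) + (∑ i ∈ N3 n, GG k i) - (∑ i ∈ K1 n, GG k i) -
        ∑ i ∈ K2 n, GG k i =
      lq (TT p) (oo n p s) j / p + vq p (Ico (m : ℤ) (m + p)) (TT p) (oo n p) s j := by
  have hn0 : (0 : ℤ) ≤ n := Int.natCast_nonneg n
  have hp2' : 40 * (n : ℤ) + 2 < (p : ℤ) * p := by
    have : 40 * (n : ℤ) + 2 < (p : ℤ) ^ 2 := by exact_mod_cast hp2
    nlinarith
  have hm' : (m : ℤ) ≤ 15 * n := by exact_mod_cast hm
  rw [← sum_class (oo n p) hs hj, hk, ← sum_od (a := (m : ℤ) - (p : ℤ) * p) (b := (m : ℤ) + (p : ℤ) * p)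
    (by omega) (by omega) (GG k)]
  exact (prod_pairs (M := Multiplicative ℚ) hF.out.pos (m : ℤ) (fun i => (od n i : ℚ) * GG k i)).symm

theorem od_K2 {k : ℕ} (hk : k ∈ K2 n) : od n k = -2 := by
  unfold K2 at hk
  rw [mem_Ico] at hk
  unfold od
  rw [if_neg (by omega), if_neg (by omega), if_neg (by omega), if_pos (by omega), if_pos (by omega)]
  norm_num

theorem od_K1 {k : ℕ} (hk : k ∈ K1 n) (hk2 : k ∉ K2 n) : od n k = -1 := by
  unfold K1 at hk
  unfold K2 at hk2
  rw [mem_Ico] at hk hk2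
  unfold od
  rw [if_neg (by omega), if_neg (by omega), if_neg (by omega), if_pos (by omega), if_neg (by omega)]
  norm_num

theorem term_eq (hn : 1 ≤ n) (hp2 : 40 * n + 2 < p ^ 2) (hm : m ≤ 15 * n) (e : ℕ) {s j : ℤ}
    (hs : s ∈ Ico (m : ℤ) (m + p)) (hj : j ∈ TT p) {k : ℕ} (hk : s + j * p = k) (hk1 : k ∈ K1 n) :
    2 * A n e k * H 3 (k - m) + B n e k * H 2 (k - m) =
      kap n * tm p (Ico (m : ℤ) (m + p)) (TT p) (oo n p) e (fun s j => H 2 ((s + j * p).toNat - m))
        (fun s j => H 3 ((s + j * p).toNat - m)) s j := by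
  have hpm := prod_main hp2 hm hs hj hk
  have hnum := num_FF hn hk1
  have hoo : oo n p s j = od n k := by unfold oo; rw [hk]
  have htn : (s + j * p).toNat = k := by rw [hk, Int.toNat_natCast]
  have hcast : ((s + j * p : ℤ) : ℚ) = k := by rw [hk, Int.cast_natCast]
  unfold tm
  simp only [htn, hcast]
  by_cases hk2 : k ∈ K2 n
  · have ho : oo n p s j = -2 := by rw [hoo, od_K2 hk2]
    rw [if_pos ho]
    have hsm := sum_main hp2 hm hs hj hk
    have hL : L0 n k = lq (TT p) (oo n p s) j / p + vq p (Ico (m : ℤ) (m + p)) (TT p) (oo n p) s j := by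
      obtain ⟨h1, h2, h3⟩ := TermAux.K1_not hn hk1
      rw [← hsm, sum_GG, sum_GG, sum_GG, sum_GG, sum_GG, erase_eq_of_notMem h1, erase_eq_of_notMem h2,
        erase_eq_of_notMem h3, L0]
    have hA : A0 n k = kap n * ((p : ℚ) ^ (ph (TT p) (oo n p) s + 2) *
        (wq (TT p) (oo n p s) j * uq p (Ico (m : ℤ) (m + p)) (TT p) (oo n p) s j)) := by
      rw [ho] at hpm
      rw [show ph (TT p) (oo n p) s + 2 = ph (TT p) (oo n p) s - -2 by ring, ← hpm,
        A0_eq n k hn hk2, hnum, prod_FF (K1 n), prod_FF (K2 n)]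
      ring
    unfold A B B0
    rw [if_pos hk2, hL, hA]
    ring
  · have ho : oo n p s j = -1 := by rw [hoo, od_K1 hk1 hk2]
    rw [if_neg (by rw [ho]; norm_num), if_pos ho]
    have hA : A0 n k = 0 := TermAux.A0_zero n k hk2
    have hB : B0 n k = kap n * ((p : ℚ) ^ (ph (TT p) (oo n p) s + 1) *
        (wq (TT p) (oo n p s) j * uq p (Ico (m : ℤ) (m + p)) (TT p) (oo n p) s j)) := by
      rw [ho] at hpm
      rw [show ph (TT p) (oo n p) s + 1 = ph (TT p) (oo n p) s - -1 by ring, ← hpm,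
        TermAux.B0_simple n k hk1 hk2, hnum, prod_FF (K1 n), prod_FF (K2 n), erase_eq_of_notMem hk2]
      ring
    unfold A B
    rw [hB, hA]
    ring

end

set_option linter.unusedVariables false in
theorem term_sum (n p m e : ℕ) (hn : 1 ≤ n) (hp : p.Prime) (hp2 : 40 * n + 2 < p ^ 2) (h1 : 2 * n ≤ m)
    (h2 : m ≤ 15 * n) :
    (∑ k ∈ K1 n, (2 * A n e k * H 3 (k - m) + B n e k * H 2 (k - m))) =
      kap n * ∑ s ∈ Ico (m : ℤ) (m + p), ∑ j ∈ TT p, tm p (Ico (m : ℤ) (m + p)) (TT p) (oo n p) e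
        (fun s j => H 2 ((s + j * p).toNat - m)) (fun s j => H 3 ((s + j * p).toNat - m)) s j := by
  have : Fact p.Prime := ⟨hp⟩
  have hp0 : (0 : ℤ) < p := by exact_mod_cast hp.pos
  have hn0 : (0 : ℤ) ≤ n := Int.natCast_nonneg n
  have hp2' : 40 * (n : ℤ) + 2 < (p : ℤ) * p := by
    have : 40 * (n : ℤ) + 2 < (p : ℤ) ^ 2 := by exact_mod_cast hp2
    nlinarith
  have hm' : (m : ℤ) ≤ 15 * n := by exact_mod_cast h2
  rw [← sum_product', mul_sum]
  refine sum_bij_ne_zero (fun k _ _ => ((m : ℤ) + ((k : ℤ) - m) % p, ((k : ℤ) - m) / p)) ?_ ?_ ?_ ?_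
  · intro k hk _
    have h5 : k < 40 * n + 2 := by
      unfold K1 at hk
      exact (mem_Ico.1 hk).2
    have h6 : 19 * n ≤ k := by
      unfold K1 at hk
      exact (mem_Ico.1 hk).1
    simp only [TT, mem_product, mem_Ico]
    have h1 := Int.emod_nonneg ((k : ℤ) - m) hp0.ne'
    have h2 := Int.emod_lt_of_pos ((k : ℤ) - m) hp0
    refine ⟨⟨by omega, by omega⟩, ?_, ?_⟩
    · rw [Int.le_ediv_iff_mul_le hp0]
      have : (-(p : ℤ)) * p < 0 := by nlinarith
      omega
    · rw [Int.ediv_lt_iff_lt_mul hp0]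
      omega
  · intro k hk _ k' hk' _ h
    simp only [Prod.mk.injEq] at h
    have e1 := Int.emod_add_mul_ediv ((k : ℤ) - m) p
    have e2 := Int.emod_add_mul_ediv ((k' : ℤ) - m) p
    rw [h.2] at e1
    omega
  · rintro ⟨s, j⟩ hx h0
    simp only [mem_product] at hx
    obtain ⟨hs, hj⟩ := hx
    dsimp only at hs hj h0
    have hneg : oo n p s j < 0 := by
      by_contra hge
      apply h0
      unfold tm
      rw [if_neg (by omega), if_neg (by omega), mul_zero]
    have hKn := od_neg hneg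
    have hs' := mem_Ico.1 hs
    have hnn : 0 ≤ s + j * p := by omega
    obtain ⟨k, hk⟩ := Int.eq_ofNat_of_zero_le hnn
    have hk1 : k ∈ K1 n := by
      unfold K1
      rw [mem_Ico]
      omega
    have hte := term_eq hn hp2 h2 e hs hj hk hk1
    refine ⟨k, hk1, ?_, ?_⟩
    · rw [hte]
      exact h0
    · have e1 : (k : ℤ) - m = (s - m) + j * p := by linarith
      rw [e1, Int.add_mul_emod_self_right, Int.add_mul_ediv_right _ _ hp0.ne',
        Int.emod_eq_of_lt (by omega) (by omega), Int.ediv_eq_zero_of_lt (by omega) (by omega)]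
      simp
  · intro k hk _
    have h5 : k < 40 * n + 2 := by
      unfold K1 at hk
      exact (mem_Ico.1 hk).2
    have h6 : 19 * n ≤ k := by
      unfold K1 at hk
      exact (mem_Ico.1 hk).1
    have h7 := Int.emod_nonneg ((k : ℤ) - m) hp0.ne'
    have h8 := Int.emod_lt_of_pos ((k : ℤ) - m) hp0
    refine term_eq hn hp2 h2 e ?_ ?_ ?_ hk
    · rw [mem_Ico]
      omega
    · unfold TT
      rw [mem_Ico]
      constructor
      · rw [Int.le_ediv_iff_mul_le hp0]
        have : (-(p : ℤ)) * p < 0 := by nlinarith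
        omega
      · rw [Int.ediv_lt_iff_lt_mul hp0]
        omega
    · have := Int.emod_add_mul_ediv ((k : ℤ) - m) p
      linarith

end Pool.Agent.Z3.C2
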