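import Pool.Agent.Z3.C2Ph
import Pool.Agent.Z3.C2Term
import Pool.Agent.Z3.C2Main
import Pool.Agent.Z3.Cancel
import Pool.Agent.Z3.BShift

/-!
Second order cancellation: the gap with its two neighbours.
-/

open Finset

namespace Pool.Agent.Z3

/-- representative of x modulo p in the window [m, m+p) -/
def wres (p m : ℕ) (x : ℤ) : ℤ := m + (x - m) % p

/-- its quotient -/
def wquo (p m : ℕ) (x : ℤ) : ℤ := (x - m) / p

/-- a gap [s1,s2) in the window [m,m+p) with phi = -1, its neighbours [m,s1) and [s2,s3) -/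
structure Gap2 (n p m : ℕ) (s1 s2 s3 : ℤ) (ia ib : Fin 5) : Prop where
  hn : 1 ≤ n
  hp : p.Prime
  hp2 : 40 * n + 2 < p ^ 2
  hm1 : 2 * n ≤ m
  hm2 : m ≤ 15 * n
  h01 : (m : ℤ) ≤ s1
  h12 : s1 < s2
  h23 : s2 ≤ s3
  h3p : s3 ≤ m + p
  ha : wres p m (al n ia) = s1
  hb : wres p m (be n ib) = s2
  hal : ∀ i, i ≠ ia → wres p m (al n i) = m ∨ s3 ≤ wres p m (al n i)
  hbe : ∀ i, i ≠ ib → wres p m (be n i) = m ∨ s3 ≤ wres p m (be n i)
  hgap : phi n p (s1 % p).toNat = -1
  hpos : ∀ s : ℤ, s3 ≤ s → s < m + p → 1 ≤ phi n p (s % p).toNat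

namespace C2

theorem block_ind (a b i : ℤ) (h : a ≤ b) : (if a ≤ i ∧ i < b then (1 : ℤ) else 0) =
    (if a ≤ i then 1 else 0) - if b ≤ i then 1 else 0 := by
  split_ifs <;> omega

theorem od_points (n : ℕ) (hn : 1 ≤ n) (i : ℤ) :
    od n i = (∑ t : Fin 5, if (be n t : ℤ) ≤ i then (1 : ℤ) else 0) -
      ∑ t : Fin 5, if (al n t : ℤ) ≤ i then (1 : ℤ) else 0 := by
  have hn' : (1 : ℤ) ≤ n := by exact_mod_cast hn
  unfold od
  rw [block_ind _ _ _ (by linarith), block_ind _ _ _ (by linarith), block_ind _ _ _ (by linarith),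
    block_ind _ _ _ (by linarith), block_ind _ _ _ (by linarith)]
  have b0 : ((be n 0 : ℕ) : ℤ) = 0 := by simp [be]
  have b1 : ((be n 1 : ℕ) : ℤ) = 2 * n := by simp [be]
  have b2 : ((be n 2 : ℕ) : ℤ) = 4 * n := by simp [be]
  have b3 : ((be n 3 : ℕ) : ℤ) = 38 * n + 2 := by simp [be]
  have b4 : ((be n 4 : ℕ) : ℤ) = 40 * n + 2 := by simp [be]
  have a0 : ((al n 0 : ℕ) : ℤ) = 13 * n := by simp [al]
  have a1 : ((al n 1 : ℕ) : ℤ) = 15 * n := by simp [al]
  have a2 : ((al n 2 : ℕ) : ℤ) = 17 * n := by simp [al]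
  have a3 : ((al n 3 : ℕ) : ℤ) = 19 * n := by simp [al]
  have a4 : ((al n 4 : ℕ) : ℤ) = 20 * n := by simp [al]
  rw [Fin.sum_univ_five, Fin.sum_univ_five, b0, b1, b2, b3, b4, a0, a1, a2, a3, a4]
  ring

theorem wres_mem (p m : ℕ) (hp : 0 < p) (x : ℤ) : (m : ℤ) ≤ wres p m x ∧ wres p m x < m + p := by
  have hp' : (0 : ℤ) < p := by exact_mod_cast hp
  have h1 := Int.emod_nonneg (x - m) hp'.ne'
  have h2 := Int.emod_lt_of_pos (x - m) hp'
  unfold wres
  constructor <;> linarith

theorem wres_eq (p m : ℕ) (x : ℤ) : wres p m x + wquo p m x * p = x := by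
  unfold wres wquo
  have := Int.emod_add_mul_ediv (x - m) p
  linarith

/-- comparison of an element of a class with a point -/
theorem le_iff (p m : ℕ) (hp : 0 < p) (x s l : ℤ) (hs : (m : ℤ) ≤ s) (hs' : s < m + p) :
    x ≤ s + l * p ↔ wquo p m x < l ∨ (l = wquo p m x ∧ wres p m x ≤ s) := by
  have hp' : (0 : ℤ) < p := by exact_mod_cast hp
  obtain ⟨h1, h2⟩ := wres_mem p m hp x
  have h3 := wres_eq p m x
  set r := wres p m x with hr
  set q := wquo p m x with hq
  constructor
  · intro h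
    rcases lt_trichotomy l q with h4 | h4 | h4
    · exfalso
      have h5 : (l + 1) * p ≤ q * p := mul_le_mul_of_nonneg_right (by omega) hp'.le
      nlinarith
    · right
      refine ⟨h4, ?_⟩
      subst h4
      linarith
    · exact Or.inl h4
  · rintro (h | ⟨h, h'⟩)
    · have h5 : (q + 1) * p ≤ l * p := mul_le_mul_of_nonneg_right (by omega) hp'.le
      nlinarith
    · subst h
      linarith

/-- the order of a class in terms of the points -/
theorem oo_points (n p m : ℕ) (hn : 1 ≤ n) (hp : 0 < p) (s l : ℤ) (hs : (m : ℤ) ≤ s)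
    (hs' : s < m + p) :
    oo n p s l = (∑ t : Fin 5, if wquo p m (be n t) < l ∨ (l = wquo p m (be n t) ∧
        wres p m (be n t) ≤ s) then (1 : ℤ) else 0) -
      ∑ t : Fin 5, if wquo p m (al n t) < l ∨ (l = wquo p m (al n t) ∧
        wres p m (al n t) ≤ s) then (1 : ℤ) else 0 := by
  unfold oo
  rw [od_points n hn]
  simp only [le_iff p m hp _ s l hs hs']

/-- the quotients of the points lie in the range -/
theorem wquo_mem {n p m x : ℕ} (hp : 0 < p) (hp2 : 40 * n + 2 < p ^ 2) (hm : m ≤ 15 * n)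
    (hx : x ≤ 40 * n + 2) : wquo p m x ∈ TT p := by
  have hp' : (0 : ℤ) < p := by exact_mod_cast hp
  have h2 : ((40 * n + 2 : ℕ) : ℤ) < (p : ℤ) * p := by
    rw [← sq]
    exact_mod_cast hp2
  push_cast at h2
  have hm' : (m : ℤ) ≤ 15 * n := by exact_mod_cast hm
  have hx' : (x : ℤ) ≤ 40 * n + 2 := by exact_mod_cast hx
  have hx0 : (0 : ℤ) ≤ x := by positivity
  have hn0 : (0 : ℤ) ≤ n := by positivity
  unfold wquo TT
  rw [mem_Ico]
  constructor
  · rw [Int.le_ediv_iff_mul_le hp']
    nlinarith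
  · rw [Int.ediv_lt_iff_lt_mul hp']
    have : (0 : ℤ) ≤ m := by positivity
    linarith

theorem al_le (n : ℕ) (i : Fin 5) : al n i ≤ 40 * n + 2 := by
  fin_cases i <;> simp [al] <;> omega

theorem be_le (n : ℕ) (i : Fin 5) : be n i ≤ 40 * n + 2 := by
  fin_cases i <;> simp [be] <;> omega

end C2

open C2

variable {n p m : ℕ} {s1 s2 s3 : ℤ} {ia ib : Fin 5}

/-- inside the gap the order does not change -/
theorem Gap2.main (g : Gap2 n p m s1 s2 s3 ia ib) (s l : ℤ) (h1 : s1 ≤ s) (h2 : s < s2) :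
    oo n p s l = oo n p s1 l := by
  have hp := g.hp.pos
  have g01 := g.h01
  have g12 := g.h12
  have g23 := g.h23
  have g3p := g.h3p
  rw [oo_points n p m g.hn hp s l (by omega) (by omega),
    oo_points n p m g.hn hp s1 l (by omega) (by omega)]
  have e1 : ∀ t : Fin 5, (wres p m (be n t) ≤ s ↔ wres p m (be n t) ≤ s1) := by
    intro t
    by_cases ht : t = ib
    · subst ht
      rw [g.hb]
      constructor <;> intro _ <;> omega
    · rcases g.hbe t ht with h | h <;> constructor <;> intro _ <;> omega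
  have e2 : ∀ t : Fin 5, (wres p m (al n t) ≤ s ↔ wres p m (al n t) ≤ s1) := by
    intro t
    by_cases ht : t = ia
    · subst ht
      rw [g.ha]
      constructor <;> intro _ <;> omega
    · rcases g.hal t ht with h | h <;> constructor <;> intro _ <;> omega
  simp only [e1, e2]

/-- the left neighbour -/
theorem Gap2.left (g : Gap2 n p m s1 s2 s3 ia ib) (s l : ℤ) (h1 : (m : ℤ) ≤ s) (h2 : s < s1) :
    oo n p s l = oo n p s1 l + if l = wquo p m (al n ia) then 1 else 0 := by
  have hp := g.hp.pos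
  have g01 := g.h01
  have g12 := g.h12
  have g23 := g.h23
  have g3p := g.h3p
  rw [oo_points n p m g.hn hp s l (by omega) (by omega),
    oo_points n p m g.hn hp s1 l (by omega) (by omega)]
  have e1 : ∀ t : Fin 5, (wres p m (be n t) ≤ s ↔ wres p m (be n t) ≤ s1) := by
    intro t
    by_cases ht : t = ib
    · subst ht
      rw [g.hb]
      constructor <;> intro _ <;> omega
    · rcases g.hbe t ht with h | h <;> constructor <;> intro _ <;> omega
  have e2 : ∀ t : Fin 5, t ≠ ia → (wres p m (al n t) ≤ s ↔ wres p m (al n t) ≤ s1) := by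
    intro t ht
    rcases g.hal t ht with h | h <;> constructor <;> intro _ <;> omega
  simp only [e1]
  rw [← Finset.add_sum_erase univ (fun t => if wquo p m (al n t) < l ∨ (l = wquo p m (al n t) ∧
        wres p m (al n t) ≤ s) then (1 : ℤ) else 0) (mem_univ ia), ← Finset.add_sum_erase univ
    (fun t => if wquo p m (al n t) < l ∨ (l = wquo p m (al n t) ∧
        wres p m (al n t) ≤ s1) then (1 : ℤ) else 0) (mem_univ ia)]
  have e3 : ∑ t ∈ univ.erase ia, (if wquo p m (al n t) < l ∨ (l = wquo p m (al n t) ∧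
        wres p m (al n t) ≤ s) then (1 : ℤ) else 0) =
      ∑ t ∈ univ.erase ia, (if wquo p m (al n t) < l ∨ (l = wquo p m (al n t) ∧
        wres p m (al n t) ≤ s1) then (1 : ℤ) else 0) := by
    apply Finset.sum_congr rfl
    intro t ht
    simp only [e2 t (ne_of_mem_erase ht)]
  rw [e3, g.ha]
  have e4 : ¬ s1 ≤ s := by omega
  by_cases hl : l = wquo p m (al n ia)
  · simp only [hl, lt_irrefl, false_or, true_and, if_neg e4, le_refl, if_true]
    ring
  · simp only [hl, false_and, or_false, if_false]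
    ring

/-- the right neighbour -/
theorem Gap2.right (g : Gap2 n p m s1 s2 s3 ia ib) (s l : ℤ) (h1 : s2 ≤ s) (h2 : s < s3) :
    oo n p s l = oo n p s1 l + if l = wquo p m (be n ib) then 1 else 0 := by
  have hp := g.hp.pos
  have g01 := g.h01
  have g12 := g.h12
  have g23 := g.h23
  have g3p := g.h3p
  rw [oo_points n p m g.hn hp s l (by omega) (by omega),
    oo_points n p m g.hn hp s1 l (by omega) (by omega)]
  have e1 : ∀ t : Fin 5, (wres p m (al n t) ≤ s ↔ wres p m (al n t) ≤ s1) := by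
    intro t
    by_cases ht : t = ia
    · subst ht
      rw [g.ha]
      constructor <;> intro _ <;> omega
    · rcases g.hal t ht with h | h <;> constructor <;> intro _ <;> omega
  have e2 : ∀ t : Fin 5, t ≠ ib → (wres p m (be n t) ≤ s ↔ wres p m (be n t) ≤ s1) := by
    intro t ht
    rcases g.hbe t ht with h | h <;> constructor <;> intro _ <;> omega
  simp only [e1]
  rw [← Finset.add_sum_erase univ (fun t => if wquo p m (be n t) < l ∨ (l = wquo p m (be n t) ∧
        wres p m (be n t) ≤ s) then (1 : ℤ) else 0) (mem_univ ib), ← Finset.add_sum_erase univ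
    (fun t => if wquo p m (be n t) < l ∨ (l = wquo p m (be n t) ∧
        wres p m (be n t) ≤ s1) then (1 : ℤ) else 0) (mem_univ ib)]
  have e3 : ∑ t ∈ univ.erase ib, (if wquo p m (be n t) < l ∨ (l = wquo p m (be n t) ∧
        wres p m (be n t) ≤ s) then (1 : ℤ) else 0) =
      ∑ t ∈ univ.erase ib, (if wquo p m (be n t) < l ∨ (l = wquo p m (be n t) ∧
        wres p m (be n t) ≤ s1) then (1 : ℤ) else 0) := by
    apply Finset.sum_congr rfl
    intro t ht
    simp only [e2 t (ne_of_mem_erase ht)]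
  rw [e3, g.hb]
  have e4 : ¬ s2 ≤ s1 := by omega
  by_cases hl : l = wquo p m (be n ib)
  · simp only [hl, lt_irrefl, false_or, true_and, if_neg e4, if_pos h1, if_true]
    ring
  · simp only [hl, false_and, or_false, if_false]
    ring

theorem Gap2.ph_main (g : Gap2 n p m s1 s2 s3 ia ib) : ph (TT p) (oo n p) s1 = -1 := by
  have g01 := g.h01
  have g12 := g.h12
  have g23 := g.h23
  have g3p := g.h3p
  rw [ph_eq g.hp g.hp2 g.hm2 (by rw [mem_Ico]; omega)]
  exact g.hgap

theorem Gap2.ph_nb (g : Gap2 n p m s1 s2 s3 ia ib) (s c : ℤ) (hc : c ∈ TT p)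
    (h : ∀ l, oo n p s l = oo n p s1 l + if l = c then 1 else 0) :
    ph (TT p) (oo n p) s = 0 := by
  have h1 := g.ph_main
  unfold ph at h1 ⊢
  rw [Finset.sum_congr rfl fun l _ => h l, Finset.sum_add_distrib, h1]
  simp [hc]

theorem Gap2.quo_al (g : Gap2 n p m s1 s2 s3 ia ib) : wquo p m (al n ia) ∈ TT p :=
  wquo_mem g.hp.pos g.hp2 g.hm2 (al_le n ia)

theorem Gap2.quo_be (g : Gap2 n p m s1 s2 s3 ia ib) : wquo p m (be n ib) ∈ TT p :=
  wquo_mem g.hp.pos g.hp2 g.hm2 (be_le n ib)

/-- the values of phi on the window -/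
theorem Gap2.cases (g : Gap2 n p m s1 s2 s3 ia ib) (s : ℤ) (hs : s ∈ Ico (m : ℤ) (m + p)) :
    (ph (TT p) (oo n p) s = -1 ∧ ∀ l, oo n p s l = oo n p s1 l) ∨
    (ph (TT p) (oo n p) s = 0 ∧ ∃ c ∈ TT p, ∀ l, oo n p s l = oo n p s1 l + if l = c then 1 else 0) ∨
    1 ≤ ph (TT p) (oo n p) s := by
  have hs' := hs
  rw [mem_Ico] at hs'
  obtain ⟨h1, h2⟩ := hs'
  by_cases c1 : s < s1
  · refine Or.inr (Or.inl ⟨?_, _, g.quo_al, fun l => g.left s l h1 c1⟩)
    exact g.ph_nb s _ g.quo_al fun l => g.left s l h1 c1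
  · by_cases c2 : s < s2
    · left
      have h3 : ∀ l, oo n p s l = oo n p s1 l := fun l => g.main s l (by omega) c2
      refine ⟨?_, h3⟩
      have h4 := g.ph_main
      unfold ph at h4 ⊢
      rw [Finset.sum_congr rfl fun l _ => h3 l, h4]
    · by_cases c3 : s < s3
      · refine Or.inr (Or.inl ⟨?_, _, g.quo_be, fun l => g.right s l (by omega) c3⟩)
        exact g.ph_nb s _ g.quo_be fun l => g.right s l (by omega) c3
      · refine Or.inr (Or.inr ?_)
        rw [ph_eq g.hp g.hp2 g.hm2 hs]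
        exact g.hpos s (by omega) h2

open CancelAux in
/-- second order cancellation -/
theorem cancel2 (g : Gap2 n p m s1 s2 s3 ia ib) : PBound n p (- e0 n p) := by
  have hF : Fact p.Prime := ⟨g.hp⟩
  have hp := g.hp.pos
  have hp0 : (p : ℚ) ≠ 0 := by exact_mod_cast g.hp.ne_zero
  have hpos : ∀ z : ℤ, (0 : ℚ) ≤ (p : ℚ) ^ z := fun z => zpow_nonneg (by positivity) z
  have g01 := g.h01
  have g12 := g.h12
  have g23 := g.h23
  have g3p := g.h3p
  have hs1 : s1 ∈ Ico (m : ℤ) (m + p) := by rw [mem_Ico]; omega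
  have hph : ∀ s ∈ Ico (m : ℤ) (m + p), -1 ≤ ph (TT p) (oo n p) s := by
    intro s hs
    rcases g.cases s hs with h | h | h
    · rw [h.1]
    · rw [h.1]; norm_num
    · omega
  intro j hj
  constructor
  · unfold a
    refine CancelAux.nmul1 ?_ (padicNorm.sum_le' (fun k hk => ?_) (hpos _))
    · exact_mod_cast CancelAux.nint (p := p) 2
    · unfold A
      refine CancelAux.nmul1 (nkj k j) ?_
      by_cases hk2 : k ∈ K2 n
      · rw [A0_struct n p k g.hn g.hp g.hp2 hk2, padicNorm.mul, padicNorm.mul, padicNorm.mul,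
          norm_W n p k g.hn g.hp g.hp2 hk, norm_U n p k g.hn g.hp g.hp2 hk,
          norm_kap n p g.hn g.hp g.hp2, npz, mul_one, mul_one, ← zpow_add₀ hp0]
        refine pz_le ?_
        -- phi of the class is at least -1
        have h1 := hph (wres p m k) (by rw [mem_Ico]; exact wres_mem p m hp k)
        rw [ph_eq g.hp g.hp2 g.hm2 (by rw [mem_Ico]; exact wres_mem p m hp k)] at h1
        have h2 : (wres p m k % p).toNat = k % p := by
          have h3 : wres p m k % p = (k : ℤ) % p := by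
            have h4 := wres_eq p m k
            have h5 : (k : ℤ) = wres p m k + wquo p m k * p := h4.symm
            conv_rhs => rw [h5]
            rw [Int.add_mul_emod_self_right]
          rw [h3]
          exact_mod_cast Int.toNat_natCast (k % p)
        rw [h2] at h1
        linarith
      · unfold A0
        rw [if_neg hk2, padicNorm.zero]
        exact hpos _
  · rw [b_shift n j m g.hn hj g.hm1 g.hm2, term_sum n p m j g.hn g.hp g.hp2 g.hm1 g.hm2,
      padicNorm.mul, norm_kap n p g.hn g.hp g.hp2]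
    have hcore := core (p := p) (T := TT p) (o := oo n p) (m := (m : ℤ)) (by
        rintro rfl
        have := g.hp2
        have := g.hn
        omega) j (oo n p s1) (fun j => H 2 j.toNat) (fun j => H 3 j.toNat)
        (fun s j => H 2 ((s + j * p).toNat - m)) (fun s j => H 3 ((s + j * p).toNat - m))
        (by rw [sum_ph g.hp g.hp2 g.hm2]; omega) hph
        (fun s hs h l _ => by
          rcases g.cases s hs with h' | h' | h'
          · exact h'.2 l
          · omega
          · omega)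
        (fun s hs h => by
          rcases g.cases s hs with h' | h' | h'
          · omega
          · obtain ⟨c, hc, hcl⟩ := h'.2
            exact ⟨c, hc, fun l _ => hcl l⟩
          · omega)
        (fun l _ => oo_ge n p s1 l)
        (fun s hs j hj hoj l hl hlj hol => oo_unit g.hp g.hp2 hoj hlj hol)
        (fun j hj hoj l hl hlj hol => oo_unit g.hp g.hp2 hoj hlj hol)
        ?_ ?_ ?_ ?_
    · calc (p : ℚ) ^ (-e0 n p) * _ ≤ (p : ℚ) ^ (-e0 n p) * 1 :=
            mul_le_mul_of_nonneg_left hcore (hpos _)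
        _ = _ := mul_one _
    · intro s hs j hj hoj
      obtain ⟨h1, h2, h3, h4⟩ := oo_pole g.hp g.hp2 g.hm2 hs hoj
      have hlt : (s + j * p).toNat - m < p ^ 2 := lt_of_le_of_lt (Nat.sub_le _ _) (K1_lt g.hp2 h3)
      have e2 := (H_struct 2 _ p g.hp hlt).2
      have e3 := (H_struct 3 _ p g.hp hlt).2
      rw [h4] at e2 e3
      exact ⟨e2, e3⟩
    · intro j hj hoj
      obtain ⟨h1, h2, h3, h4⟩ := oo_pole g.hp g.hp2 g.hm2 hs1 hoj
      have hlt : (s1 + j * p).toNat - m < p ^ 2 := lt_of_le_of_lt (Nat.sub_le _ _) (K1_lt g.hp2 h3)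
      have e2 := (H_struct 2 _ p g.hp hlt).2
      have e3 := (H_struct 3 _ p g.hp hlt).2
      rw [h4] at e2 e3
      exact ⟨e2, e3⟩
    · intro s hs j hj hoj
      obtain ⟨h1, h2, h3, h4⟩ := oo_pole g.hp g.hp2 g.hm2 hs hoj
      have hlt : (s + j * p).toNat - m < p ^ 2 := lt_of_le_of_lt (Nat.sub_le _ _) (K1_lt g.hp2 h3)
      have e2 := (H_struct 2 _ p g.hp hlt).1
      rw [h4] at e2
      exact e2
    · intro s hs j hj hoj
      obtain ⟨h1, h2, h3, h4⟩ := oo_pole g.hp g.hp2 g.hm2 hs (show oo n p s j < 0 by omega)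
      have hlt : (s + j * p).toNat - m < p ^ 2 := lt_of_le_of_lt (Nat.sub_le _ _) (K1_lt g.hp2 h3)
      have e3 := (H_struct 3 _ p g.hp hlt).1
      rw [h4] at e3
      exact e3

end Pool.Agent.Z3
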