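import Mathlib

/-!
Second order cancellation, part 1: residue sums of a rational function with simple poles.
-/

open Finset Polynomial

namespace Pool.Agent.Z3.C2

variable {W : Finset ℤ} {ph : ℤ → ℤ}

/-- the product over the other classes -/
def Pq (W : Finset ℤ) (ph : ℤ → ℤ) (s : ℤ) : ℚ := ∏ s' ∈ W.erase s, ((s' : ℚ) - s) ^ ph s'

/-- residue -/
def rho (W : Finset ℤ) (ph : ℤ → ℤ) (e : ℕ) (s : ℤ) : ℚ := (-(s : ℚ)) ^ e * Pq W ph s

/-- classes with phi = -1 -/
def S1 (W : Finset ℤ) (ph : ℤ → ℤ) : Finset ℤ := W.filter (fun s => ph s = -1)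

/-- classes with phi = 0 -/
def S0 (W : Finset ℤ) (ph : ℤ → ℤ) : Finset ℤ := W.filter (fun s => ph s = 0)

/-- classes with positive phi -/
def Sp (W : Finset ℤ) (ph : ℤ → ℤ) : Finset ℤ := W.filter (fun s => 1 ≤ ph s)

theorem cast_sub_ne {a b : ℤ} (h : a ≠ b) : ((a : ℚ) - b) ≠ 0 := by
  rw [sub_ne_zero]
  exact_mod_cast h

/-- numerator -/
noncomputable def NX (W : Finset ℤ) (ph : ℤ → ℤ) (e : ℕ) : ℚ[X] :=
  X ^ e * ∏ s ∈ Sp W ph, (X + C (s : ℚ)) ^ (ph s).toNat

theorem monic_NX (e : ℕ) : (NX W ph e).Monic :=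
  (monic_X_pow e).mul (monic_prod_of_monic _ _ fun _ _ => (monic_X_add_C _).pow _)

theorem natDegree_NX (e : ℕ) : (NX W ph e).natDegree = e + ∑ s ∈ Sp W ph, (ph s).toNat := by
  rw [NX, (monic_X_pow e).natDegree_mul
    (monic_prod_of_monic _ _ fun _ _ => (monic_X_add_C _).pow _), natDegree_X_pow,
    natDegree_prod_of_monic _ _ fun _ _ => (monic_X_add_C _).pow _]
  congr 1
  apply Finset.sum_congr rfl
  intro s _
  rw [(monic_X_add_C _).natDegree_pow, natDegree_X_add_C, mul_one]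

theorem W_split (hph : ∀ s ∈ W, -1 ≤ ph s) : W = S1 W ph ∪ (S0 W ph ∪ Sp W ph) := by
  ext s
  simp only [S1, S0, Sp, mem_union, mem_filter]
  constructor
  · intro h
    have := hph s h
    rcases lt_trichotomy (ph s) 0 with h1 | h1 | h1
    · exact Or.inl ⟨h, by omega⟩
    · exact Or.inr (Or.inl ⟨h, h1⟩)
    · exact Or.inr (Or.inr ⟨h, by omega⟩)
  · rintro (h | h | h) <;> exact h.1

theorem disj1 : Disjoint (S1 W ph) (S0 W ph ∪ Sp W ph) := by
  rw [Finset.disjoint_left]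
  intro s h1 h2
  simp only [S1, S0, Sp, mem_union, mem_filter] at h1 h2
  omega

theorem disj0 : Disjoint (S0 W ph) (Sp W ph) := by
  rw [Finset.disjoint_left]
  intro s h1 h2
  simp only [S0, Sp, mem_filter] at h1 h2
  omega

theorem degree_bound (hph : ∀ s ∈ W, -1 ≤ ph s) (e : ℕ) (hdeg : (∑ s ∈ W, ph s) + e ≤ -2) :
    (NX W ph e).natDegree + 2 ≤ (S1 W ph).card := by
  rw [natDegree_NX]
  have h1 : ∑ s ∈ W, ph s = (∑ s ∈ S1 W ph, ph s) + ((∑ s ∈ S0 W ph, ph s) + ∑ s ∈ Sp W ph, ph s) := by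
    conv_lhs => rw [W_split hph]
    rw [Finset.sum_union disj1, Finset.sum_union disj0]
  have h2 : ∑ s ∈ S1 W ph, ph s = -((S1 W ph).card : ℤ) := by
    have : ∑ s ∈ S1 W ph, ph s = ∑ s ∈ S1 W ph, (-1 : ℤ) :=
      Finset.sum_congr rfl (fun s hs => (mem_filter.1 hs).2)
    rw [this]
    simp
  have h3 : ∑ s ∈ S0 W ph, ph s = 0 := by
    exact Finset.sum_eq_zero (fun s hs => (mem_filter.1 hs).2)
  have h4 : ∑ s ∈ Sp W ph, ph s = ((∑ s ∈ Sp W ph, (ph s).toNat : ℕ) : ℤ) := by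
    push_cast
    apply Finset.sum_congr rfl
    intro s hs
    have := (mem_filter.1 hs).2
    rw [Int.toNat_of_nonneg (by omega)]
  rw [h1, h2, h3, h4] at hdeg
  omega

/-- the product over the classes with positive phi -/
def Pp (W : Finset ℤ) (ph : ℤ → ℤ) (s : ℤ) : ℚ := ∏ s' ∈ Sp W ph, ((s' : ℚ) - s) ^ (ph s').toNat

theorem eval_NX (e : ℕ) (s : ℤ) : (NX W ph e).eval (-(s : ℚ)) = (-(s : ℚ)) ^ e * Pp W ph s := by
  rw [NX, eval_mul, eval_pow, eval_X, eval_prod, Pp]
  congr 1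
  apply Finset.prod_congr rfl
  intro s' _
  simp only [eval_pow, eval_add, eval_X, eval_C]
  congr 1
  ring

/-- the product over the other classes is the product over the positive ones divided by the product
over the classes of the gap -/
theorem Pq_eq (hph : ∀ s ∈ W, -1 ≤ ph s) (s : ℤ) (hs : s ∈ W) (hs' : s ∉ Sp W ph) :
    Pq W ph s = Pp W ph s / ∏ s' ∈ (S1 W ph).erase s, ((s' : ℚ) - s) := by
  have hW : W.erase s = (S1 W ph).erase s ∪ ((S0 W ph).erase s ∪ Sp W ph) := by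
    ext t
    constructor
    · intro ht
      obtain ⟨h1, h2⟩ := mem_erase.1 ht
      rw [W_split hph] at h2
      simp only [mem_union, mem_erase] at h2 ⊢
      tauto
    · intro ht
      simp only [mem_union, mem_erase] at ht
      rcases ht with ht | ht | ht
      · exact mem_erase.2 ⟨ht.1, (mem_filter.1 ht.2).1⟩
      · exact mem_erase.2 ⟨ht.1, (mem_filter.1 ht.2).1⟩
      · refine mem_erase.2 ⟨?_, (mem_filter.1 ht).1⟩
        rintro rfl
        exact hs' ht
  have hd1 : Disjoint ((S1 W ph).erase s) ((S0 W ph).erase s ∪ Sp W ph) := by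
    rw [Finset.disjoint_left]
    intro t h1 h2
    simp only [S1, S0, Sp, mem_union, mem_filter, mem_erase] at h1 h2
    omega
  have hd0 : Disjoint ((S0 W ph).erase s) (Sp W ph) := by
    rw [Finset.disjoint_left]
    intro t h1 h2
    simp only [S0, Sp, mem_filter, mem_erase] at h1 h2
    omega
  rw [Pq, hW, Finset.prod_union hd1, Finset.prod_union hd0]
  have h1 : ∏ s' ∈ (S1 W ph).erase s, ((s' : ℚ) - s) ^ ph s' =
      (∏ s' ∈ (S1 W ph).erase s, ((s' : ℚ) - s))⁻¹ := by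
    rw [← Finset.prod_inv_distrib]
    apply Finset.prod_congr rfl
    intro t ht
    have := (mem_filter.1 (mem_of_mem_erase ht)).2
    rw [this, zpow_neg_one]
  have h0 : ∏ s' ∈ (S0 W ph).erase s, ((s' : ℚ) - s) ^ ph s' = 1 := by
    apply Finset.prod_eq_one
    intro t ht
    have := (mem_filter.1 (mem_of_mem_erase ht)).2
    rw [this, zpow_zero]
  have hp : ∏ s' ∈ Sp W ph, ((s' : ℚ) - s) ^ ph s' = Pp W ph s := by
    rw [Pp]
    apply Finset.prod_congr rfl
    intro t ht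
    have := (mem_filter.1 ht).2
    conv_lhs => rw [← Int.toNat_of_nonneg (show 0 ≤ ph t by omega)]
    rw [zpow_natCast]
  rw [h1, h0, hp, one_mul, div_eq_mul_inv, mul_comm]

/-- the interpolation identity -/
theorem NX_eq (hph : ∀ s ∈ W, -1 ≤ ph s) (e : ℕ) (hdeg : (∑ s ∈ W, ph s) + e ≤ -2) :
    NX W ph e = ∑ s ∈ S1 W ph, C (rho W ph e s) * ∏ s' ∈ (S1 W ph).erase s, (X + C (s' : ℚ)) := by
  have hb := degree_bound hph e hdeg
  have hinj : Set.InjOn (fun s : ℤ => -(s : ℚ)) (S1 W ph) := by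
    intro a _ b _ h
    simpa using h
  refine eq_of_degrees_lt_of_eval_index_eq (S1 W ph) hinj ?_ ?_ ?_
  · exact degree_le_natDegree.trans_lt (by exact_mod_cast (by omega))
  · refine degree_le_natDegree.trans_lt ?_
    have : (∑ s ∈ S1 W ph, C (rho W ph e s) * ∏ s' ∈ (S1 W ph).erase s, (X + C (s' : ℚ))).natDegree ≤
        (S1 W ph).card - 1 := by
      refine natDegree_sum_le_of_forall_le _ _ fun s hs => ?_
      refine (natDegree_C_mul_le _ _).trans ?_
      rw [natDegree_prod_of_monic _ _ fun _ _ => monic_X_add_C _,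
        Finset.sum_congr rfl fun i _ => natDegree_X_add_C _]
      simp [Finset.card_erase_of_mem hs]
    exact_mod_cast lt_of_le_of_lt this (by omega)
  · intro s hs
    rw [eval_NX, eval_finsetSum]
    rw [Finset.sum_eq_single_of_mem s hs]
    · rw [eval_mul, eval_C, eval_prod]
      have hsW := (mem_filter.1 hs).1
      have hsp : s ∉ Sp W ph := by
        intro h
        have h1 := (mem_filter.1 h).2
        have h2 := (mem_filter.1 hs).2
        omega
      have hne : ∏ s' ∈ (S1 W ph).erase s, ((s' : ℚ) - s) ≠ 0 :=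
        Finset.prod_ne_zero_iff.2 fun t ht => cast_sub_ne (ne_of_mem_erase ht)
      have hprod : ∏ s' ∈ (S1 W ph).erase s, eval (-(s : ℚ)) (X + C (s' : ℚ)) =
          ∏ s' ∈ (S1 W ph).erase s, ((s' : ℚ) - s) := by
        apply Finset.prod_congr rfl
        intro t _
        simp only [eval_add, eval_X, eval_C]
        ring
      rw [hprod, rho, Pq_eq hph s hsW hsp]
      field_simp
    · intro t _ hts
      rw [eval_mul, eval_prod]
      have : ∏ s' ∈ (S1 W ph).erase t, eval (-(s : ℚ)) (X + C (s' : ℚ)) = 0 := by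
        apply Finset.prod_eq_zero (mem_erase.2 ⟨hts.symm, hs⟩)
        simp
      rw [this, mul_zero]

/-- the sum of the residues is zero -/
theorem sum_rho (hph : ∀ s ∈ W, -1 ≤ ph s) (e : ℕ) (hdeg : (∑ s ∈ W, ph s) + e ≤ -2) :
    ∑ s ∈ S1 W ph, rho W ph e s = 0 := by
  have hb := degree_bound hph e hdeg
  have h := congrArg (fun P : ℚ[X] => P.coeff ((S1 W ph).card - 1)) (NX_eq hph e hdeg)
  simp only [finsetSum_coeff, coeff_C_mul] at h
  rw [coeff_eq_zero_of_natDegree_lt (by omega)] at h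
  rw [h]
  apply Finset.sum_congr rfl
  intro s hs
  have hm : (∏ s' ∈ (S1 W ph).erase s, (X + C (s' : ℚ))).Monic :=
    monic_prod_of_monic _ _ fun _ _ => monic_X_add_C _
  have hd : (∏ s' ∈ (S1 W ph).erase s, (X + C (s' : ℚ))).natDegree = (S1 W ph).card - 1 := by
    rw [natDegree_prod_of_monic _ _ fun _ _ => monic_X_add_C _,
      Finset.sum_congr rfl fun i _ => natDegree_X_add_C _]
    simp [Finset.card_erase_of_mem hs]
  rw [← hd, hm.coeff_natDegree, mul_one]

/-- partial fractions at the classes outside of the gap -/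
theorem sum_rho_div (hph : ∀ s ∈ W, -1 ≤ ph s) (e : ℕ) (hdeg : (∑ s ∈ W, ph s) + e ≤ -2)
    (t : ℤ) (ht : t ∈ W) (ht1 : t ∉ S1 W ph) :
    ∑ s ∈ S1 W ph, rho W ph e s / ((s : ℚ) - t) = if ph t = 0 then rho W ph e t else 0 := by
  have h := congrArg (fun P : ℚ[X] => P.eval (-(t : ℚ))) (NX_eq hph e hdeg)
  simp only [eval_NX, eval_finsetSum, eval_mul, eval_C, eval_prod, eval_add, eval_X] at h
  have hne : ∏ s' ∈ S1 W ph, ((s' : ℚ) - t) ≠ 0 := by
    refine Finset.prod_ne_zero_iff.2 fun s hs => cast_sub_ne ?_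
    rintro rfl
    exact ht1 hs
  have h1 : ∀ s ∈ S1 W ph, rho W ph e s * ∏ s' ∈ (S1 W ph).erase s, (-(t : ℚ) + s') =
      (∏ s' ∈ S1 W ph, ((s' : ℚ) - t)) * (rho W ph e s / ((s : ℚ) - t)) := by
    intro s hs
    have hs0 : ((s : ℚ) - t) ≠ 0 := cast_sub_ne (by rintro rfl; exact ht1 hs)
    rw [← Finset.mul_prod_erase (S1 W ph) (fun s' => ((s' : ℚ) - t)) hs]
    have h2 : ∏ s' ∈ (S1 W ph).erase s, (-(t : ℚ) + s') = ∏ s' ∈ (S1 W ph).erase s, ((s' : ℚ) - t) :=
      Finset.prod_congr rfl fun _ _ => by ring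
    rw [h2]
    field_simp
  rw [Finset.sum_congr rfl h1, ← Finset.mul_sum] at h
  by_cases h0 : ph t = 0
  · rw [if_pos h0]
    have htp : t ∉ Sp W ph := by
      intro h2
      have := (mem_filter.1 h2).2
      omega
    rw [rho, Pq_eq hph t ht htp, Finset.erase_eq_of_notMem ht1, ← mul_div_assoc, h,
      mul_div_cancel_left₀ _ hne]
  · rw [if_neg h0]
    have htp : t ∈ Sp W ph := by
      refine mem_filter.2 ⟨ht, ?_⟩
      have h2 := hph t ht
      have h3 : ph t ≠ -1 := fun h4 => ht1 (mem_filter.2 ⟨ht, h4⟩)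
      omega
    have h2 : Pp W ph t = 0 := by
      rw [Pp]
      apply Finset.prod_eq_zero htp
      have := (mem_filter.1 htp).2
      rw [sub_self, zero_pow (by omega)]
    rw [h2, mul_zero] at h
    rcases mul_eq_zero.1 h.symm with h3 | h3
    · exact absurd h3 hne
    · exact h3

/-- the sum over pairs in the gap -/
def Zs (W : Finset ℤ) (ph : ℤ → ℤ) (e : ℕ) : ℚ :=
  ∑ s ∈ S1 W ph, ∑ s' ∈ (S1 W ph).erase s, rho W ph e s / ((s' : ℚ) - s)

/-- the sum over the classes with phi = 0 -/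
def Vs (W : Finset ℤ) (ph : ℤ → ℤ) (e : ℕ) : ℚ := ∑ s ∈ S0 W ph, rho W ph e s

/-- weighted sum of the logarithmic derivatives -/
theorem sum_weighted (hph : ∀ s ∈ W, -1 ≤ ph s) (e : ℕ) (hdeg : (∑ s ∈ W, ph s) + e ≤ -2)
    (m : ℤ → ℚ) (M : ℚ) (hM : ∀ s ∈ S1 W ph, m s = M) :
    ∑ s ∈ S1 W ph, rho W ph e s * ∑ s' ∈ W.erase s, m s' / ((s' : ℚ) - s) =
      M * Zs W ph e - ∑ s' ∈ S0 W ph, m s' * rho W ph e s' := by
  have h1 : ∀ s ∈ S1 W ph, rho W ph e s * ∑ s' ∈ W.erase s, m s' / ((s' : ℚ) - s) =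
      (∑ s' ∈ (S1 W ph).erase s, M * (rho W ph e s / ((s' : ℚ) - s))) +
        ∑ s' ∈ W \ S1 W ph, m s' * (-(rho W ph e s / ((s : ℚ) - s'))) := by
    intro s hs
    have hW : W.erase s = (S1 W ph).erase s ∪ (W \ S1 W ph) := by
      ext t
      simp only [mem_union, mem_erase, mem_sdiff, S1, mem_filter] at hs ⊢
      constructor
      · rintro ⟨h1, h2⟩
        by_cases h3 : ph t = -1
        · exact Or.inl ⟨h1, h2, h3⟩
        · exact Or.inr ⟨h2, fun h => h3 h.2⟩
      · rintro (⟨h1, h2, h3⟩ | ⟨h1, h2⟩)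
        · exact ⟨h1, h2⟩
        · refine ⟨?_, h1⟩
          rintro rfl
          exact h2 hs
    have hd : Disjoint ((S1 W ph).erase s) (W \ S1 W ph) := by
      rw [Finset.disjoint_left]
      intro t h1 h2
      exact (mem_sdiff.1 h2).2 (mem_of_mem_erase h1)
    rw [hW, Finset.sum_union hd, mul_add, Finset.mul_sum, Finset.mul_sum]
    congr 1
    · apply Finset.sum_congr rfl
      intro t ht
      rw [hM t (mem_of_mem_erase ht)]
      ring
    · apply Finset.sum_congr rfl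
      intro t _
      rw [← neg_sub (t : ℚ) s, div_neg, neg_neg]
      ring
  rw [Finset.sum_congr rfl h1, Finset.sum_add_distrib, Zs, Finset.mul_sum]
  rw [Finset.sum_comm (s := S1 W ph) (t := W \ S1 W ph)]
  have h2 : ∀ t ∈ W \ S1 W ph, ∑ s ∈ S1 W ph, m t * (-(rho W ph e s / ((s : ℚ) - t))) =
      -(if ph t = 0 then m t * rho W ph e t else 0) := by
    intro t ht
    obtain ⟨ht1, ht2⟩ := mem_sdiff.1 ht
    rw [← Finset.mul_sum, Finset.sum_neg_distrib, sum_rho_div hph e hdeg t ht1 ht2]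
    split_ifs <;> ring
  rw [Finset.sum_congr rfl h2, Finset.sum_neg_distrib, ← Finset.sum_filter]
  have h3 : (W \ S1 W ph).filter (fun t => ph t = 0) = S0 W ph := by
    ext t
    simp only [S0, S1, mem_filter, mem_sdiff]
    constructor
    · rintro ⟨⟨h1, _⟩, h3⟩
      exact ⟨h1, h3⟩
    · rintro ⟨h1, h3⟩
      exact ⟨⟨h1, fun h => by omega⟩, h3⟩
  rw [h3, sub_eq_add_neg]
  congr 1
  apply Finset.sum_congr rfl
  intro s _
  rw [Finset.mul_sum]

/-- the key congruence, exact form: the defect is a combination of the sums of inverses -/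
theorem V_eq (hph : ∀ s ∈ W, -1 ≤ ph s) (e : ℕ) (hdeg : (∑ s ∈ W, ph s) + e ≤ -2) :
    Vs W ph e = Zs W ph e -
      ∑ s ∈ S1 W ph, rho W ph e s * ∑ s' ∈ W.erase s, 1 / ((s' : ℚ) - s) := by
  have h := sum_weighted hph e hdeg (fun _ => 1) 1 (fun _ _ => rfl)
  rw [h, Vs]
  simp

end Pool.Agent.Z3.C2
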