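import Pool.Agent.Z3.C2Defs

/-!
Second order cancellation: the function ph of the linear forms.
-/

open Finset

namespace Pool.Agent.Z3.C2

theorem oo_ge (n p : ℕ) (s l : ℤ) : -2 ≤ oo n p s l := by
  unfold oo od
  split_ifs <;> omega

theorem od_neg {n : ℕ} {i : ℤ} (h : od n i < 0) : 19 * (n : ℤ) ≤ i ∧ i < 40 * n + 2 := by
  unfold od at h
  split_ifs at h <;> omega

theorem od_ne {n : ℕ} {i : ℤ} (h : od n i ≠ 0) : 0 ≤ i ∧ i < 40 * n + 2 := by
  unfold od at h
  split_ifs at h <;> omega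

theorem oo_unit {n p : ℕ} (hp : p.Prime) (hp2 : 40 * n + 2 < p ^ 2) {s j l : ℤ}
    (hj : oo n p s j < 0) (hlj : l ≠ j) (hl : oo n p s l ≠ 0) : ¬ (p : ℤ) ∣ l - j := by
  rintro ⟨c, hc⟩
  have h1 := od_neg hj
  have h2 := od_ne hl
  have hp0 : (0 : ℤ) < p := by exact_mod_cast hp.pos
  have hp2' : 40 * (n : ℤ) + 2 < (p : ℤ) ^ 2 := by exact_mod_cast hp2
  have hn0 : (0 : ℤ) ≤ n := Int.natCast_nonneg n
  have hc0 : c ≠ 0 := by
    rintro rfl
    apply hlj
    linarith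
  have h3 : (s + l * p) - (s + j * p) = (p : ℤ) ^ 2 * c := by linear_combination (p : ℤ) * hc
  rcases lt_or_gt_of_ne hc0 with h | h
  · have : (p : ℤ) ^ 2 * c ≤ (p : ℤ) ^ 2 * (-1) := by
      apply mul_le_mul_of_nonneg_left _ (by positivity)
      omega
    omega
  · have : (p : ℤ) ^ 2 * 1 ≤ (p : ℤ) ^ 2 * c := by
      apply mul_le_mul_of_nonneg_left _ (by positivity)
      omega
    omega

theorem oo_pole {n p m : ℕ} (hp : p.Prime) (hp2 : 40 * n + 2 < p ^ 2)
    (hm : m ≤ 15 * n) {s j : ℤ} (hs : s ∈ Ico (m : ℤ) (m + p)) (hj : oo n p s j < 0) :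
    0 ≤ j ∧ j < p ∧ (s + j * p).toNat ∈ K1 n ∧ ((s + j * p).toNat - m) / p = j.toNat := by
  have h1 := od_neg hj
  rw [mem_Ico] at hs
  have hp0 : (0 : ℤ) < p := by exact_mod_cast hp.pos
  have hp2' : 40 * (n : ℤ) + 2 < (p : ℤ) ^ 2 := by exact_mod_cast hp2
  have hm' : (m : ℤ) ≤ 15 * n := by exact_mod_cast hm
  have hn0 : (0 : ℤ) ≤ n := Int.natCast_nonneg n
  have hj0 : 0 ≤ j := by
    by_contra h
    have : j * p ≤ (-1) * p := mul_le_mul_of_nonneg_right (by omega) hp0.le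
    omega
  have hjp : j < p := by
    by_contra h
    have : (p : ℤ) * p ≤ j * p := mul_le_mul_of_nonneg_right (by omega) hp0.le
    have : (p : ℤ) * p = (p : ℤ) ^ 2 := by ring
    omega
  refine ⟨hj0, hjp, ?_, ?_⟩
  · unfold K1
    rw [mem_Ico]
    omega
  · obtain ⟨t, rfl⟩ := Int.eq_ofNat_of_zero_le hj0
    obtain ⟨u, hu⟩ := Int.eq_ofNat_of_zero_le (show 0 ≤ s - m by omega)
    have hs2 : s = u + m := by omega
    have h3 : (s + (t : ℤ) * p).toNat - m = u + t * p := by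
      have : s + (t : ℤ) * p = ((u + m + t * p : ℕ) : ℤ) := by push_cast; rw [hs2]
      rw [this, Int.toNat_natCast]
      omega
    have hup : u < p := by omega
    rw [h3, Int.toNat_natCast, Nat.add_mul_div_right _ _ hp.pos, Nat.div_eq_of_lt hup, zero_add]

/-- one block -/
theorem block {p : ℕ} (hp : 0 < p) {A B : ℕ} (hB : B ≤ p ^ 2) {s : ℤ} (hs0 : 0 ≤ s)
    (hs : s ≤ (p : ℤ) ^ 2) :
    ∑ l ∈ TT p, (if (A : ℤ) ≤ s + l * p ∧ s + l * p < B then 1 else 0 : ℤ) =
      (((Ico A B).filter (fun i => i % p = (s % p).toNat)).card : ℤ) := by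
  rw [sum_boole]
  congr 1
  have hp0 : (0 : ℤ) < p := by exact_mod_cast hp
  have hB' : (B : ℤ) ≤ (p : ℤ) ^ 2 := by exact_mod_cast hB
  refine card_nbij' (fun l => (s + l * p).toNat) (fun i => ((i : ℤ) - s) / p) ?_ ?_ ?_ ?_
  · intro l hl
    simp only [coe_filter, Set.mem_ofPred_eq, mem_Ico] at hl ⊢
    obtain ⟨_, h1, h2⟩ := hl
    refine ⟨by omega, ?_⟩
    have h3 : ((s + l * p).toNat : ℤ) = s + l * p := Int.toNat_of_nonneg (by omega)
    have h4 : (((s + l * p).toNat % p : ℕ) : ℤ) = s % p := by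
      rw [Int.natCast_mod, h3, Int.add_mul_emod_self_right]
    omega
  · intro i hi
    simp only [coe_filter, Set.mem_ofPred_eq, mem_Ico] at hi ⊢
    obtain ⟨⟨h1, h2⟩, h3⟩ := hi
    have h4 : ((i % p : ℕ) : ℤ) = s % p := by
      rw [h3]
      exact Int.toNat_of_nonneg (Int.emod_nonneg _ hp0.ne')
    rw [Int.natCast_mod] at h4
    have h5 : (p : ℤ) ∣ (i : ℤ) - s := Int.ModEq.dvd (show s ≡ (i : ℤ) [ZMOD p] from h4.symm)
    obtain ⟨c, hc⟩ := h5
    have h6 : ((i : ℤ) - s) / p = c := by rw [hc]; exact Int.mul_ediv_cancel_left _ hp0.ne'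
    have h7 : s + c * p = i := by linarith
    rw [h6]
    refine ⟨?_, by omega, by omega⟩
    unfold TT
    rw [mem_Ico]
    constructor
    · by_contra h
      have : (c + 1) * p ≤ (-(p : ℤ)) * p := mul_le_mul_of_nonneg_right (by omega) hp0.le
      nlinarith
    · by_contra h
      have : (p : ℤ) * p ≤ c * p := mul_le_mul_of_nonneg_right (by omega) hp0.le
      nlinarith
  · intro l hl
    simp only [coe_filter, Set.mem_ofPred_eq] at hl
    have h3 : ((s + l * p).toNat : ℤ) = s + l * p := Int.toNat_of_nonneg (by omega)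
    simp only [h3]
    rw [add_sub_cancel_left]
    exact Int.mul_ediv_cancel _ hp0.ne'
  · intro i hi
    simp only [coe_filter, Set.mem_ofPred_eq, mem_Ico] at hi
    obtain ⟨⟨h1, h2⟩, h3⟩ := hi
    have h4 : ((i % p : ℕ) : ℤ) = s % p := by
      rw [h3]
      exact Int.toNat_of_nonneg (Int.emod_nonneg _ hp0.ne')
    rw [Int.natCast_mod] at h4
    have h5 : (p : ℤ) ∣ (i : ℤ) - s := Int.ModEq.dvd (show s ≡ (i : ℤ) [ZMOD p] from h4.symm)
    obtain ⟨c, hc⟩ := h5
    have h6 : ((i : ℤ) - s) / p = c := by rw [hc]; exact Int.mul_ediv_cancel_left _ hp0.ne'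
    have h7 : s + c * p = i := by linarith
    simp only [h6, h7, Int.toNat_natCast]

theorem ph_eq {n p m : ℕ} (hp : p.Prime) (hp2 : 40 * n + 2 < p ^ 2)
    (hm : m ≤ 15 * n) {s : ℤ} (hs : s ∈ Ico (m : ℤ) (m + p)) :
    ph (TT p) (oo n p) s = phi n p (s % p).toNat := by
  rw [mem_Ico] at hs
  have hp2le := hp.two_le
  have hs0 : 0 ≤ s := by omega
  have hs2 : s ≤ (p : ℤ) ^ 2 := by
    have h1 : 40 * (n : ℤ) + 2 < (p : ℤ) ^ 2 := by exact_mod_cast hp2
    have h2 : (2 : ℤ) ≤ p := by exact_mod_cast hp2le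
    have h3 : (m : ℤ) ≤ 15 * n := by exact_mod_cast hm
    nlinarith
  have hn : ∀ c e : ℕ, c ≤ 40 → e ≤ 2 → c * n + e ≤ p ^ 2 := by
    intro c e hc he
    have := Nat.mul_le_mul_right n hc
    omega
  have b1 := block hp.pos (A := 0) (B := 17 * n) (hn 17 0 (by norm_num) (by norm_num)) hs0 hs2
  have b2 := block hp.pos (A := 2 * n) (B := 15 * n) (hn 15 0 (by norm_num) (by norm_num)) hs0 hs2
  have b3 := block hp.pos (A := 4 * n) (B := 13 * n) (hn 13 0 (by norm_num) (by norm_num)) hs0 hs2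
  have b4 := block hp.pos (A := 19 * n) (B := 40 * n + 2) (hn 40 2 (by norm_num) (by norm_num)) hs0 hs2
  have b5 := block hp.pos (A := 20 * n) (B := 38 * n + 2) (hn 38 2 (by norm_num) (by norm_num)) hs0 hs2
  unfold ph oo od phi N1 N2 N3 K1 K2
  rw [← b1, ← b2, ← b3, ← b4, ← b5, ← sum_add_distrib, ← sum_add_distrib, ← sum_sub_distrib,
    ← sum_sub_distrib]
  apply sum_congr rfl
  intro l _
  push_cast
  rfl

theorem sum_window {M : Type*} [AddCommMonoid M] (F : ℕ → M) (p m : ℕ) (hp : 0 < p) :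
    ∑ s ∈ Ico (m : ℤ) (m + p), F (s % p).toNat = ∑ r ∈ range p, F r := by
  have hp0 : (0 : ℤ) < p := by exact_mod_cast hp
  refine sum_nbij (fun s => (s % p).toNat) ?_ ?_ ?_ (fun _ _ => rfl)
  · intro s _
    rw [mem_range]
    have := Int.emod_nonneg s hp0.ne'
    have := Int.emod_lt_of_pos s hp0
    omega
  · intro s hs t ht hst
    simp only [coe_Ico, Set.mem_Ico] at hs ht
    have h1 := Int.emod_nonneg s hp0.ne'
    have h2 := Int.emod_nonneg t hp0.ne'
    have h3 : s % p = t % p := by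
      have : (s % p).toNat = (t % p).toNat := hst
      omega
    obtain ⟨c, hc⟩ := Int.ModEq.dvd (show s ≡ t [ZMOD p] from h3)
    have hc0 : c = 0 := by
      by_contra h
      rcases lt_or_gt_of_ne h with h | h
      · have : (p : ℤ) * c ≤ (p : ℤ) * (-1) := mul_le_mul_of_nonneg_left (by omega) hp0.le
        omega
      · have : (p : ℤ) * 1 ≤ (p : ℤ) * c := mul_le_mul_of_nonneg_left (by omega) hp0.le
        omega
    rw [hc0, mul_zero] at hc
    omega
  · intro r hr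
    simp only [coe_range, Set.mem_Iio] at hr
    refine ⟨(m : ℤ) + ((r : ℤ) - m) % p, ?_, ?_⟩
    · simp only [coe_Ico, Set.mem_Ico]
      have := Int.emod_nonneg ((r : ℤ) - m) hp0.ne'
      have := Int.emod_lt_of_pos ((r : ℤ) - m) hp0
      omega
    · simp only [Int.add_emod_emod, add_sub_cancel]
      rw [Int.emod_eq_of_lt (by omega) (by omega), Int.toNat_natCast]

theorem sum_card (S : Finset ℕ) (p : ℕ) (hp : 0 < p) :
    ∑ r ∈ range p, ((S.filter (fun i => i % p = r)).card : ℤ) = S.card := by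
  rw [← Nat.cast_sum]
  congr 1
  exact (card_eq_sum_card_fiberwise (fun i _ => by
    simp only [coe_range, Set.mem_Iio]
    exact Nat.mod_lt _ hp)).symm

theorem sum_ph {n p m : ℕ} (hp : p.Prime) (hp2 : 40 * n + 2 < p ^ 2)
    (hm : m ≤ 15 * n) : ∑ s ∈ Ico (m : ℤ) (m + p), ph (TT p) (oo n p) s = -4 := by
  have h1 : ∑ s ∈ Ico (m : ℤ) (m + p), ph (TT p) (oo n p) s =
      ∑ s ∈ Ico (m : ℤ) (m + p), phi n p (s % p).toNat :=
    sum_congr rfl fun s hs => ph_eq hp hp2 hm hs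
  rw [h1, sum_window (fun r => phi n p r) p m hp.pos]
  unfold phi
  rw [sum_sub_distrib, sum_sub_distrib, sum_add_distrib, sum_add_distrib, sum_card _ _ hp.pos,
    sum_card _ _ hp.pos, sum_card _ _ hp.pos, sum_card _ _ hp.pos, sum_card _ _ hp.pos]
  unfold N1 N2 N3 K1 K2
  simp only [Nat.card_Ico]
  omega

end Pool.Agent.Z3.C2
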