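import Pool.Agent.Z3.C2Gap
import Pool.Agent.Z3.Red
import Pool.Agent.Z3.C2Chk

/-!
Second order cancellation: the cells in which phi is -1 on one gap, 0 exactly on its two neighbours
and positive elsewhere.
-/

open Finset

namespace Pool.Agent.Z3

open Red in
theorem red2_bound (n p N0 P0 c0 c1 c2 c3 : ℕ) (hn : 1 ≤ n) (hp : p.Prime) (hp2 : 40 * n + 2 < p ^ 2)
    (hg : Good n p) (hc : SameCell n p N0 P0) (h13 : p ≤ 13 * n)
    (hr : red2Check N0 P0 c0 c1 c2 c3 = true) : PBound n p (- e00 N0 P0) := by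
  unfold red2Check at hr
  simp only [Bool.and_eq_true, decide_eq_true_eq, List.all_eq_true, Bool.or_eq_true] at hr
  obtain ⟨⟨⟨⟨⟨⟨⟨⟨⟨⟨⟨hc0, hc1⟩, hc2⟩, hc3⟩, hnd⟩, hphi1⟩, hphi⟩, h12⟩, h23⟩, hn01⟩, hn02⟩, hfar⟩ := hr
  have hP0 : (0 : ℤ) < P0 := by exact_mod_cast hc.1
  have hp0 : 0 < p := hp.pos
  have hpz : (0 : ℤ) < p := by exact_mod_cast hp0
  have hc1p : c1 ∈ pts := by
    simp only [pts, List.mem_cons, List.not_mem_nil, or_false] at hc1 ⊢
    omega
  have hc2p : c2 ∈ pts := by
    simp only [pts, List.mem_cons, List.not_mem_nil, or_false] at hc2 ⊢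
    omega
  have hord := order_cell n p N0 P0 hn hp hg hc hnd
  have hcell := phi_cell n p N0 P0 hn hp hg hc hnd
  set X : ℕ → ℕ := fun c => c * n + off c with hX
  -- cyclic distances
  set D : ℕ → ℤ := fun c => ((X c : ℤ) - X c0) % p with hD
  have hD0 : ∀ c, 0 ≤ D c := fun c => Int.emod_nonneg _ hpz.ne'
  have hDp : ∀ c, D c < p := fun c => Int.emod_lt_of_pos _ hpz
  have hcast : ∀ c : ℕ, ((X c : ℕ) : ℤ) % (p : ℤ) = ((X c % p : ℕ) : ℤ) := fun c => by push_cast; rfl
  have hcast' : ∀ c : ℕ, ((c : ℤ) * (N0 : ℤ)) % (P0 : ℤ) = ((c * N0 % P0 : ℕ) : ℤ) := fun c => by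
    push_cast; rfl
  -- transfer of the order
  have htr : ∀ c ∈ pts, ∀ d ∈ pts, cyc0 N0 P0 c0 c ≤ cyc0 N0 P0 c0 d → D c ≤ D d := by
    intro c hcc d hd h
    refine arc_transfer (X c) (X c0) (X d) (c * N0) (c0 * N0) (d * N0) p P0 hpz hP0 ?_ ?_ ?_ h
    · rw [hcast, hcast, hcast', hcast']
      exact_mod_cast hord c c0 hcc hc0
    · rw [hcast, hcast, hcast', hcast']
      exact_mod_cast hord d c0 hd hc0
    · rw [hcast, hcast, hcast', hcast']
      exact_mod_cast hord d c hd hcc
  -- injectivity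
  have hinjX : ∀ c ∈ pts, ∀ d ∈ pts, X c % p = X d % p → c = d := by
    intro c hcc d hd h
    have h1 : ¬ (X c % p < X d % p) := by omega
    have h2 : ¬ (X d % p < X c % p) := by omega
    rw [hord c d hcc hd] at h1
    rw [hord d c hd hcc] at h2
    exact List.inj_on_of_nodup_map hnd hcc hd (by omega)
  have hDinj : ∀ c ∈ pts, ∀ d ∈ pts, D c = D d → c = d := by
    intro c hcc d hd h
    apply hinjX c hcc d hd
    have h1 : ((X c : ℤ) - X d) % p = 0 := by
      have h2 : ((X c : ℤ) - X c0) % p = ((X d : ℤ) - X c0) % p := h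
      have h4 : ((X c : ℤ) - X d) = ((X c : ℤ) - X c0) - ((X d : ℤ) - X c0) := by ring
      rw [h4, Int.sub_emod, h2, sub_self, Int.zero_emod]
    have h5 : (X c : ℤ) % p = (X d : ℤ) % p := by
      have h6 : (p : ℤ) ∣ (X c : ℤ) - X d := Int.dvd_of_emod_eq_zero h1
      exact (Int.modEq_iff_dvd.2 h6).symm
    rw [hcast, hcast] at h5
    exact_mod_cast h5
  have hDlt : ∀ c ∈ pts, ∀ d ∈ pts, cyc0 N0 P0 c0 c < cyc0 N0 P0 c0 d → D c < D d := by
    intro c hcc d hd h
    refine lt_of_le_of_ne (htr c hcc d hd h.le) ?_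
    intro h1
    have := hDinj c hcc d hd h1
    subst this
    exact lt_irrefl _ h
  have hD12 := hDlt c1 hc1p c2 hc2p h12
  have hD23 := hDlt c2 hc2p c3 hc3 h23
  have hDc0 : D c0 = 0 := by simp [hD]
  have hD1 : 0 < D c1 := by
    refine lt_of_le_of_ne (hD0 c1) ?_
    intro h
    exact hn01 (hDinj c0 hc0 c1 hc1p (by rw [hDc0]; exact h))
  -- the window
  obtain ⟨m, hm1, hm2, hmc⟩ : ∃ m : ℕ, 2 * n ≤ m ∧ m ≤ 15 * n ∧ (m : ℤ) % p = (X c0 : ℤ) % p := by
    refine ⟨15 * n - (15 * n + p * (X c0) - X c0) % p, ?_, by omega, ?_⟩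
    · have := Nat.mod_lt (15 * n + p * (X c0) - X c0) hp0
      omega
    · have h1 : X c0 ≤ 15 * n + p * X c0 := by
        have : X c0 ≤ p * X c0 := Nat.le_mul_of_pos_left _ hp0
        omega
      have h2 := Nat.mod_lt (15 * n + p * (X c0) - X c0) hp0
      have h3 := Nat.div_add_mod (15 * n + p * (X c0) - X c0) p
      set t := (15 * n + p * (X c0) - X c0) / p with ht
      set r := (15 * n + p * (X c0) - X c0) % p with hrr
      have h4 : ((15 * n - r : ℕ) : ℤ) = X c0 + p * ((t : ℤ) - X c0) := by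
        have h5 : r ≤ 15 * n := by omega
        have h6 : ((p * t + r : ℕ) : ℤ) = ((15 * n + p * X c0 - X c0 : ℕ) : ℤ) := by rw [h3]
        rw [Nat.cast_sub h1] at h6
        rw [Nat.cast_sub h5]
        push_cast at h6 ⊢
        linarith
      rw [h4, Int.add_mul_emod_self_left]
  -- window representatives of the points
  have hw : ∀ c : ℕ, wres p m (X c) = m + D c := by
    intro c
    unfold wres
    congr 1
    rw [hD]
    dsimp only
    rw [Int.sub_emod, hmc, ← Int.sub_emod]
  -- cells of the window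
  have hwin : ∀ s : ℤ, (m : ℤ) ≤ s → s < m + p → ∃ c ∈ pts, D c ≤ s - m ∧
      (∀ d ∈ pts, D d ≤ s - m → D d ≤ D c) ∧
      phi n p (s % p).toNat = phi0 N0 P0 (c * N0 % P0) := by
    intro s hs1 hs2
    set r := (s % p).toNat with hrdef
    have hr0 : (r : ℤ) = s % p := Int.toNat_of_nonneg (Int.emod_nonneg _ hpz.ne')
    have hrp : r < p := by
      have := Int.emod_lt_of_pos s hpz
      omega
    obtain ⟨c, hcc, h1, h2, h3⟩ := hcell r hrp
    replace h1 : X c % p ≤ r := h1
    replace h2 : ∀ d ∈ pts, X d % p ≤ r → d * N0 % P0 ≤ c * N0 % P0 := h2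
    have hlt : ∀ d, X d % p < p := fun d => Nat.mod_lt _ hp0
    refine ⟨c, hcc, ?_, ?_, h3⟩
    all_goals
      have hkey : ∀ d, D d = if X c0 % p ≤ X d % p then ((X d % p : ℕ) : ℤ) - (X c0 % p : ℕ)
          else ((X d % p : ℕ) : ℤ) - (X c0 % p : ℕ) + p := by
        intro d
        have := sub_emod (X d : ℤ) (X c0) p hpz
        rw [hcast, hcast] at this
        rw [hD]
        dsimp only
        rw [this]
        simp only [Nat.cast_le]
      have hs : s - m = if X c0 % p ≤ r then (r : ℤ) - (X c0 % p : ℕ)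
          else (r : ℤ) - (X c0 % p : ℕ) + p := by
        have h4 := sub_emod s m p hpz
        rw [Int.emod_eq_of_lt (by omega) (by omega), hmc, hcast, ← hr0] at h4
        rw [h4]
        simp only [Nat.cast_le]
      have hmax : ∀ d ∈ pts, X d % p ≤ r → X d % p ≤ X c % p := by
        intro d hd hdr
        by_contra hlt
        push Not at hlt
        have h5 : c * N0 % P0 < d * N0 % P0 := (hord c d hcc hd).1 hlt
        have := h2 d hd hdr
        omega
      have hc0' := hmax c0 hc0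
    · rw [hkey c, hs]
      have l1 := hlt c
      have l2 := hlt c0
      clear_value X D r
      generalize X c % p = x at *
      generalize X c0 % p = a at *
      clear hkey hs hmax
      split_ifs <;> omega
    · intro d hd hds
      have hd' := hmax d hd
      rw [hkey d, hs] at hds
      rw [hkey d, hkey c]
      have l1 := hlt c
      have l2 := hlt c0
      have l3 := hlt d
      clear hkey hs hmax
      split_ifs at hds ⊢ <;> omega
  obtain ⟨ia, hia⟩ : ∃ i : Fin 5, ca i = c1 := by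
    simp only [List.mem_cons, List.not_mem_nil, or_false] at hc1
    rcases hc1 with h | h | h | h | h
    · exact ⟨0, by rw [h]; rfl⟩
    · exact ⟨1, by rw [h]; rfl⟩
    · exact ⟨2, by rw [h]; rfl⟩
    · exact ⟨3, by rw [h]; rfl⟩
    · exact ⟨4, by rw [h]; rfl⟩
  obtain ⟨ib, hib⟩ : ∃ i : Fin 5, cb i = c2 := by
    simp only [List.mem_cons, List.not_mem_nil, or_false] at hc2
    rcases hc2 with h | h | h | h | h
    · exact ⟨0, by rw [h]; rfl⟩
    · exact ⟨1, by rw [h]; rfl⟩
    · exact ⟨2, by rw [h]; rfl⟩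
    · exact ⟨3, by rw [h]; rfl⟩
    · exact ⟨4, by rw [h]; rfl⟩
  have hal' : ∀ i, (al n i : ℤ) = X (ca i) := fun i => by rw [al_eq]
  have hbe' : ∀ i, (be n i : ℤ) = X (cb i) := fun i => by rw [be_eq]
  have hfar' : ∀ c ∈ pts, c ≠ c1 → c ≠ c2 → (m : ℤ) + D c = m ∨ (m : ℤ) + D c3 ≤ m + D c := by
    intro c hcc hne1 hne2
    rcases hfar c hcc with ((h | h) | h) | h
    · left
      rw [h, hDc0, add_zero]
    · exact absurd h hne1
    · exact absurd h hne2
    · right
      have := htr c3 hc3 c hcc h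
      linarith
  have hcacb : ∀ i j, ca i ≠ cb j := by decide
  have hcainj : ∀ i j, ca i = ca j → i = j := by decide
  have hcbinj : ∀ i j, cb i = cb j → i = j := by decide
  have g : Gap2 n p m (m + D c1) (m + D c2) (m + D c3) ia ib := by
    refine ⟨hn, hp, hp2, hm1, hm2, by linarith [hD0 c1], by linarith, by linarith,
      by linarith [hDp c3], ?_, ?_, ?_, ?_, ?_, ?_⟩
    · rw [hal', hw, hia]
    · rw [hbe', hw, hib]
    · intro i hi
      rw [hal', hw]
      refine hfar' _ (ca_mem i) ?_ ?_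
      · rw [← hia]
        exact fun h => hi (hcainj _ _ h)
      · rw [← hib]
        exact hcacb _ _
    · intro i hi
      rw [hbe', hw]
      refine hfar' _ (cb_mem i) ?_ ?_
      · rw [← hia]
        exact (hcacb _ _).symm
      · rw [← hib]
        exact fun h => hi (hcbinj _ _ h)
    · obtain ⟨c, hcc, h1, h2, h3⟩ := hwin (m + D c1) (by linarith [hD0 c1]) (by linarith [hDp c1])
      have h4 := h2 c1 hc1p (by linarith)
      have h5 : D c = D c1 := by linarith
      rw [h3, hDinj c hcc c1 hc1p h5, hphi1]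
    · intro s hs1 hs2
      have h3p := hD0 c3
      obtain ⟨c, hcc, h1, h2, h3⟩ := hwin s (by linarith) hs2
      have h4 := h2 c3 hc3 (by linarith)
      rw [h3]
      rcases hphi c hcc with ((h | h) | h) | h
      · rw [h, hDc0] at h4
        linarith
      · rw [h] at h4
        linarith
      · rw [h] at h4
        linarith
      · exact h
  have hfin := cancel2 g
  rwa [e0_cell n p N0 P0 hn hp hg hc hnd] at hfin

end Pool.Agent.Z3
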