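import Pool.Agent.Z3.Defs

/-!
The finite field part of the cancellation: the sum over the residue classes s with phi(s) = -1 of
(-s)^j u(s) vanishes in the field with p elements.
-/

open Finset
open scoped BigOperators

namespace Pool.Agent.Z3

section FpSum

variable {p : ℕ}

/-- product of i - s over i < g not congruent to s, in ZMod p -/
def Th (p g s : ℕ) : ZMod p :=
  ∏ i ∈ range g, if i % p = s then (1 : ZMod p) else ((i : ZMod p) - (s : ZMod p))

/-- number of i < g congruent to s -/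
def cc (p g s : ℕ) : ℕ := ∑ i ∈ range g, if i % p = s then 1 else 0

theorem mod_eq_iff {i s : ℕ} (hs : s < p) :
    i % p = s ↔ (i : ZMod p) = (s : ZMod p) := by
  rw [ZMod.natCast_eq_natCast_iff', Nat.mod_eq_of_lt hs]

theorem prod_period [Fact p.Prime] {M : Type*} [CommMonoid M] (F : ZMod p → M) (g : ℕ) :
    ∏ i ∈ range p, F (((g + i : ℕ) : ZMod p)) = ∏ x : ZMod p, F x := by
  have h1 : ∏ x : ZMod p, F x = ∏ x : ZMod p, F ((g : ZMod p) + x) :=
    (Equiv.prod_comp (Equiv.addLeft (g : ZMod p)) F).symm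
  rw [h1]
  refine Finset.prod_bij' (fun i _ => (i : ZMod p)) (fun x _ => x.val) ?_ ?_ ?_ ?_ ?_
  · intros; exact mem_univ _
  · intro x _; exact mem_range.2 (ZMod.val_lt x)
  · intro i hi; exact ZMod.val_cast_of_lt (mem_range.1 hi)
  · intro x _; exact ZMod.natCast_zmod_val x
  · intro i _; push_cast; rfl

theorem wilson_shift [Fact p.Prime] (s : ZMod p) :
    ∏ x : ZMod p, (if x = s then (1 : ZMod p) else x - s) = -1 := by
  have hp : p.Prime := Fact.out
  have h1 : ∏ x : ZMod p, (if x = s then (1 : ZMod p) else x - s) =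
      ∏ x : ZMod p, (if x = 0 then (1 : ZMod p) else x) := by
    rw [← Equiv.prod_comp (Equiv.addRight s)]
    refine Finset.prod_congr rfl fun x _ => ?_
    simp [Equiv.coe_addRight]
  rw [h1, ← prod_period (fun x : ZMod p => if x = 0 then (1 : ZMod p) else x) 0]
  obtain ⟨m, hm⟩ : ∃ m, p = m + 1 := ⟨p - 1, by have := hp.pos; omega⟩
  have h2 : ∏ i ∈ range p, (if (((0 + i : ℕ) : ZMod p)) = 0 then (1 : ZMod p) else ((0 + i : ℕ) : ZMod p)) =
      ∏ i ∈ range (m + 1), (if ((i : ℕ) : ZMod p) = 0 then (1 : ZMod p) else ((i : ℕ) : ZMod p)) := by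
    rw [← hm]; simp
  rw [h2, Finset.prod_range_succ']
  have h3 : ∀ i ∈ range m, (if (((i + 1 : ℕ) : ZMod p)) = 0 then (1 : ZMod p) else ((i + 1 : ℕ) : ZMod p)) =
      ((i + 1 : ℕ) : ZMod p) := by
    intro i hi
    rw [if_neg]
    intro h0
    rw [ZMod.natCast_eq_zero_iff] at h0
    have := Nat.le_of_dvd (Nat.succ_pos i) h0
    have := mem_range.1 hi
    omega
  rw [Finset.prod_congr rfl h3]
  have h4 : (∏ i ∈ range m, (((i + 1 : ℕ)) : ZMod p)) = ((m.factorial : ℕ) : ZMod p) := by
    rw [← Finset.prod_range_add_one_eq_factorial]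
    push_cast
    rfl
  rw [h4]
  have h5 : m = p - 1 := by omega
  rw [h5, ZMod.wilsons_lemma]
  simp

theorem Th_add (g l s : ℕ) : Th p (g + l) s =
    Th p g s * ∏ i ∈ range l, if (g + i) % p = s then (1 : ZMod p) else (((g + i : ℕ) : ZMod p) - (s : ZMod p)) := by
  unfold Th
  rw [Finset.prod_range_add]

theorem cc_add (g l s : ℕ) : cc p (g + l) s =
    cc p g s + ∑ i ∈ range l, if (g + i) % p = s then 1 else 0 := by
  unfold cc
  rw [Finset.sum_range_add]

theorem Th_period [Fact p.Prime] (g s : ℕ) (hs : s < p) : Th p (g + p) s = - Th p g s := by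
  have hp : p.Prime := Fact.out
  rw [Th_add]
  have h1 : ∏ i ∈ range p, (if (g + i) % p = s then (1 : ZMod p) else (((g + i : ℕ) : ZMod p) - (s : ZMod p))) = -1 := by
    rw [← wilson_shift (p := p) (s : ZMod p), ← prod_period (fun x : ZMod p => if x = (s : ZMod p) then (1 : ZMod p) else x - s) g]
    refine Finset.prod_congr rfl fun i _ => ?_
    simp only [mod_eq_iff hs]
  rw [h1]; ring

theorem cc_period [Fact p.Prime] (g s : ℕ) (hs : s < p) : cc p (g + p) s = cc p g s + 1 := by
  have hp : p.Prime := Fact.out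
  rw [cc_add]
  congr 1
  have h1 := prod_period (p := p) (M := Multiplicative ℕ)
    (fun x : ZMod p => Multiplicative.ofAdd (if x = (s : ZMod p) then 1 else 0)) g
  have h2 : ∑ i ∈ range p, (if (g + i) % p = s then 1 else 0) = ∑ x : ZMod p, (if x = (s : ZMod p) then 1 else 0) := by
    have h3 : ∑ i ∈ range p, (if (g + i) % p = s then 1 else 0) =
        ∑ i ∈ range p, (if (((g + i : ℕ) : ZMod p)) = (s : ZMod p) then 1 else 0) := by
      refine Finset.sum_congr rfl fun i _ => ?_
      simp only [mod_eq_iff hs]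
    rw [h3]
    exact h1
  rw [h2]
  simp

theorem Th_mul [Fact p.Prime] (g s q : ℕ) (hs : s < p) : Th p (g + p * q) s = (-1) ^ q * Th p g s := by
  induction q with
  | zero => simp
  | succ q ih =>
    rw [Nat.mul_succ, ← add_assoc, Th_period _ _ hs, ih, pow_succ]; ring

theorem cc_mul [Fact p.Prime] (g s q : ℕ) (hs : s < p) : cc p (g + p * q) s = cc p g s + q := by
  induction q with
  | zero => simp
  | succ q ih =>
    rw [Nat.mul_succ, ← add_assoc, cc_period _ _ hs, ih]; ring

theorem neg_one_ne [Fact p.Prime] : (-1 : ZMod p) ≠ 0 := neg_ne_zero.2 one_ne_zero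

theorem arc_rel [Fact p.Prime] (al be l s : ℕ) (q : ℤ) (h : (al : ℤ) = be + l + p * q) (hs : s < p) :
    Th p al s = (-1) ^ q * Th p (be + l) s ∧ (cc p al s : ℤ) = cc p (be + l) s + q := by
  obtain ⟨m, rfl | rfl⟩ := q.eq_nat_or_neg
  · have h1 : al = (be + l) + p * m := by
      have : (al : ℤ) = ((be + l) + p * m : ℕ) := by push_cast; exact h
      exact_mod_cast this
    subst h1
    rw [Th_mul _ _ _ hs, cc_mul _ _ _ hs, zpow_natCast]
    exact ⟨rfl, by push_cast; ring⟩
  · have h1 : be + l = al + p * m := by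
      have : ((be + l : ℕ) : ℤ) = (al + p * m : ℕ) := by push_cast; linarith
      exact_mod_cast this
    rw [h1, Th_mul _ _ _ hs, cc_mul _ _ _ hs, zpow_neg, zpow_natCast]
    refine ⟨?_, by push_cast; ring⟩
    rw [← mul_assoc, inv_mul_cancel₀ (pow_ne_zero _ neg_one_ne), one_mul]

theorem Th_ne_zero [Fact p.Prime] (g s : ℕ) (hs : s < p) : Th p g s ≠ 0 := by
  have hp : p.Prime := Fact.out
  unfold Th
  rw [Finset.prod_ne_zero_iff]
  intro i _
  split_ifs with h
  · exact one_ne_zero
  · intro h0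
    exact h ((mod_eq_iff hs).2 (sub_eq_zero.1 h0))

/-- the polynomial P in X with P(s) = prod_m prod_{i < l m} (be m + i - s) -/
noncomputable def Ppol (p : ℕ) {ι : Type*} [Fintype ι] (be l : ι → ℕ) : Polynomial (ZMod p) :=
  ∏ m : ι, ∏ i ∈ range (l m), (Polynomial.C (((be m + i : ℕ)) : ZMod p) - Polynomial.X)

theorem Ppol_eval {ι : Type*} [Fintype ι] (be l : ι → ℕ) (x : ZMod p) :
    (Ppol p be l).eval x = ∏ m : ι, ∏ i ∈ range (l m), ((((be m + i : ℕ)) : ZMod p) - x) := by
  unfold Ppol
  simp [Polynomial.eval_prod]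

theorem Ppol_natDegree [Fact p.Prime] {ι : Type*} [Fintype ι] (be l : ι → ℕ) :
    (Ppol p be l).natDegree ≤ ∑ m : ι, l m := by
  unfold Ppol
  refine (Polynomial.natDegree_prod_le _ _).trans ?_
  refine Finset.sum_le_sum fun m _ => ?_
  refine (Polynomial.natDegree_prod_le _ _).trans ?_
  have : ∀ i ∈ range (l m), (Polynomial.C (((be m + i : ℕ)) : ZMod p) - Polynomial.X).natDegree ≤ 1 := by
    intro i _
    refine (Polynomial.natDegree_sub_le _ _).trans (max_le ?_ Polynomial.natDegree_X_le)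
    rw [Polynomial.natDegree_C]; omega
  refine (Finset.sum_le_sum this).trans ?_
  simp

theorem poly_sum [Fact p.Prime] (Q : Polynomial (ZMod p)) (hQ : Q.natDegree < p - 1) :
    ∑ x : ZMod p, Q.eval x = 0 := by
  simp_rw [Polynomial.eval_eq_sum_range]
  rw [Finset.sum_comm]
  refine Finset.sum_eq_zero fun i hi => ?_
  rw [← Finset.mul_sum, FiniteField.sum_pow_lt_card_sub_one, mul_zero]
  rw [ZMod.card]
  have := mem_range.1 hi
  omega

theorem poly_sum_range [Fact p.Prime] (Q : Polynomial (ZMod p)) (hQ : Q.natDegree < p - 1) :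
    ∑ s ∈ range p, Q.eval (s : ZMod p) = 0 := by
  rw [← poly_sum Q hQ]
  refine Finset.sum_bij' (fun i _ => (i : ZMod p)) (fun x _ => x.val) ?_ ?_ ?_ ?_ ?_
  · intros; exact mem_univ _
  · intro x _; exact mem_range.2 (ZMod.val_lt x)
  · intro i hi; exact ZMod.val_cast_of_lt (mem_range.1 hi)
  · intro x _; exact ZMod.natCast_zmod_val x
  · intro i _; rfl

/-- the general cancellation statement -/
theorem fp_cancel [Fact p.Prime] {ι : Type*} [Fintype ι] (al be : ι → ℕ) (j : ℕ)
    (hsum : ∑ m, al m + (j + 2) ≤ ∑ m, be m)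
    (s1 s2 : ℕ) (h12 : s1 < s2) (h2p : s2 ≤ p)
    (hs1 : ∑ m, (cc p (al m) s1 : ℤ) - ∑ m, (cc p (be m) s1 : ℤ) = -1)
    (hout : ∀ s < p, ¬ (s1 ≤ s ∧ s < s2) →
      0 ≤ ∑ m, (cc p (al m) s : ℤ) - ∑ m, (cc p (be m) s : ℤ))
    (hbe : ∀ i, be i % p ≤ s1 ∨ s2 ≤ be i % p)
    (pi : Equiv.Perm ι)
    (harc : ∀ i, ((al (pi i) : ℤ) - be i) % p ≤ ((s1 : ℤ) - be i) % p) :
    ∑ s ∈ Ico s1 s2, (-(s : ZMod p)) ^ j * ((∏ m, Th p (al m) s) / ∏ m, Th p (be m) s) = 0 := by
  have hp : p.Prime := Fact.out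
  have hp0 : (0 : ℤ) < p := by exact_mod_cast hp.pos
  set l : ι → ℕ := fun m => ((((al (pi m) : ℤ) - be m) % p)).toNat with hl
  set q : ι → ℤ := fun m => ((al (pi m) : ℤ) - be m) / p with hq
  have hlq : ∀ m, (al (pi m) : ℤ) = be m + l m + p * q m := by
    intro m
    have h1 : (l m : ℤ) = ((al (pi m) : ℤ) - be m) % p := by
      rw [hl]; exact Int.toNat_of_nonneg (Int.emod_nonneg _ hp0.ne')
    have h2 := Int.emod_add_mul_ediv ((al (pi m) : ℤ) - be m) p
    rw [h1]
    simp only [hq]
    linarith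
  have hllt : ∀ m, (l m : ℤ) ≤ ((s1 : ℤ) - be m) % p := by
    intro m
    have h1 : (l m : ℤ) = ((al (pi m) : ℤ) - be m) % p := by
      rw [hl]; exact Int.toNat_of_nonneg (Int.emod_nonneg _ hp0.ne')
    rw [h1]; exact harc m
  -- no arc contains a point of [s1, s2)
  have hno : ∀ s, s1 ≤ s → s < s2 → ∀ m, ∀ i ∈ range (l m), ¬ (be m + i) % p = s := by
    intro s hs1' hs2' m i hi hmod
    have hi' := mem_range.1 hi
    have hm := hllt m
    have hsp : s < p := lt_of_lt_of_le hs2' h2p
    have hb := hbe m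
    have hbp : be m % p < p := Nat.mod_lt _ hp.pos
    have hbdiv := Nat.mod_add_div (be m) p
    set r := be m % p with hr
    set d := be m / p with hd
    have hcast : ((s1 : ℤ) - be m) % p = ((s1 : ℤ) - r) % p := by
      have : (be m : ℤ) = r + p * d := by exact_mod_cast hbdiv.symm
      rw [this]
      have : (s1 : ℤ) - (r + p * d) = (s1 - r) + p * (-d) := by ring
      rw [this, Int.add_mul_emod_self_left]
    rw [hcast] at hm
    have hmod2 : (r + i) % p = s := by
      have : be m + i = (r + i) + p * d := by omega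
      rw [this, Nat.add_mul_mod_self_left] at hmod
      exact hmod
    rcases hb with hb | hb
    · -- r ≤ s1
      have h1 : ((s1 : ℤ) - r) % p = s1 - r := by
        apply Int.emod_eq_of_lt
        · have : (r : ℤ) ≤ s1 := by exact_mod_cast hb
          linarith
        · have : (s1 : ℤ) < p := by exact_mod_cast (by omega : s1 < p)
          have : (0 : ℤ) ≤ r := by positivity
          linarith
      rw [h1] at hm
      have h2 : r + i < s1 := by
        have : (l m : ℤ) ≤ s1 - r := hm
        have : (l m : ℤ) + r ≤ s1 := by linarith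
        have : l m + r ≤ s1 := by exact_mod_cast this
        omega
      rw [Nat.mod_eq_of_lt (by omega)] at hmod2
      omega
    · -- s2 ≤ r
      have h1 : ((s1 : ℤ) - r) % p = s1 - r + p := by
        rw [← Int.add_emod_right]
        apply Int.emod_eq_of_lt
        · have : (r : ℤ) < p := by exact_mod_cast hbp
          have : (0 : ℤ) ≤ s1 := by positivity
          linarith
        · have : (s1 : ℤ) < r := by exact_mod_cast (by omega : s1 < r)
          linarith
      rw [h1] at hm
      have h2 : r + i < s1 + p := by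
        have : (l m : ℤ) ≤ s1 - r + p := hm
        have : (l m : ℤ) + r ≤ s1 + p := by linarith
        have : l m + r ≤ s1 + p := by exact_mod_cast this
        omega
      by_cases h3 : r + i < p
      · rw [Nat.mod_eq_of_lt h3] at hmod2
        omega
      · rw [Nat.mod_eq_sub_mod (by omega), Nat.mod_eq_of_lt (by omega)] at hmod2
        omega
  -- counts
  have hcount : ∀ s < p, ∑ m, (cc p (al m) s : ℤ) - ∑ m, (cc p (be m) s : ℤ) =
      ∑ m, q m + ∑ m, ∑ i ∈ range (l m), (if (be m + i) % p = s then (1 : ℤ) else 0) := by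
    intro s hs
    rw [← Equiv.sum_comp pi (fun m => (cc p (al m) s : ℤ)), ← Finset.sum_sub_distrib,
      ← Finset.sum_add_distrib]
    refine Finset.sum_congr rfl fun m _ => ?_
    rw [(arc_rel (al (pi m)) (be m) (l m) s (q m) (hlq m) hs).2, cc_add]
    push_cast
    ring
  have hqsum : ∑ m, q m = -1 := by
    have h1 := hcount s1 (by omega)
    rw [hs1] at h1
    have h2 : ∑ m, ∑ i ∈ range (l m), (if (be m + i) % p = s1 then (1 : ℤ) else 0) = 0 := by
      refine Finset.sum_eq_zero fun m _ => Finset.sum_eq_zero fun i hi => ?_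
      rw [if_neg (hno s1 le_rfl h12 m i hi)]
    rw [h2] at h1
    linarith
  have hlsum : (∑ m, l m) + (j + 2) ≤ p := by
    have h1 : ∑ m, (al m : ℤ) = ∑ m, (be m : ℤ) + ∑ m, (l m : ℤ) + p * ∑ m, q m := by
      rw [← Equiv.sum_comp pi (fun m => (al m : ℤ)), Finset.mul_sum, ← Finset.sum_add_distrib,
        ← Finset.sum_add_distrib]
      exact Finset.sum_congr rfl fun m _ => hlq m
    rw [hqsum] at h1
    have h2 : ((∑ m, al m + (j + 2) : ℕ) : ℤ) ≤ ((∑ m, be m : ℕ) : ℤ) := by exact_mod_cast hsum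
    push_cast at h2
    have h3 : ((∑ m, l m + (j + 2) : ℕ) : ℤ) ≤ (p : ℤ) := by
      push_cast
      linarith
    exact_mod_cast h3
  -- vanishing of P outside
  have hout0 : ∀ s < p, ¬ (s1 ≤ s ∧ s < s2) → (Ppol p be l).eval (s : ZMod p) = 0 := by
    intro s hs hns
    have h1 := hcount s hs
    have h2 := hout s hs hns
    rw [h1, hqsum] at h2
    have h3 : 0 < ∑ m, ∑ i ∈ range (l m), (if (be m + i) % p = s then (1 : ℤ) else 0) := by linarith
    obtain ⟨m, _, hm⟩ := Finset.exists_ne_zero_of_sum_ne_zero h3.ne'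
    obtain ⟨i, hi, hi2⟩ := Finset.exists_ne_zero_of_sum_ne_zero hm
    have h4 : (be m + i) % p = s := by
      by_contra hc
      exact hi2 (if_neg hc)
    rw [Ppol_eval]
    refine Finset.prod_eq_zero (mem_univ m) (Finset.prod_eq_zero hi ?_)
    rw [sub_eq_zero]
    exact (mod_eq_iff hs).1 h4
  -- value of u on [s1, s2)
  have hval : ∀ s, s1 ≤ s → s < s2 → (∏ m, Th p (al m) s) / (∏ m, Th p (be m) s) =
      (∏ m, (-1 : ZMod p) ^ q m) * (Ppol p be l).eval (s : ZMod p) := by
    intro s h1 h2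
    have hsp : s < p := by omega
    have hne : (∏ m, Th p (be m) s) ≠ 0 := Finset.prod_ne_zero_iff.2 fun m _ => Th_ne_zero _ _ hsp
    rw [div_eq_iff hne, ← Equiv.prod_comp pi (fun m => Th p (al m) s), Ppol_eval,
      ← Finset.prod_mul_distrib, ← Finset.prod_mul_distrib]
    refine Finset.prod_congr rfl fun m _ => ?_
    rw [(arc_rel (al (pi m)) (be m) (l m) s (q m) (hlq m) hsp).1, Th_add]
    have h3 : ∏ i ∈ range (l m), (if (be m + i) % p = s then (1 : ZMod p)
        else (((be m + i : ℕ) : ZMod p) - (s : ZMod p))) =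
        ∏ i ∈ range (l m), (((be m + i : ℕ) : ZMod p) - (s : ZMod p)) := by
      refine Finset.prod_congr rfl fun i hi => ?_
      rw [if_neg (hno s h1 h2 m i hi)]
    rw [h3]
    ring
  have hstep : ∑ s ∈ Ico s1 s2, (-(s : ZMod p)) ^ j * ((∏ m, Th p (al m) s) / ∏ m, Th p (be m) s) =
      (∏ m, (-1 : ZMod p) ^ q m) * ∑ s ∈ range p, ((-Polynomial.X) ^ j * Ppol p be l).eval (s : ZMod p) := by
    rw [Finset.mul_sum]
    have hsub : Ico s1 s2 ⊆ range p := by
      intro s hs
      rw [mem_Ico] at hs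
      exact mem_range.2 (by omega)
    rw [← Finset.sum_subset hsub]
    · refine Finset.sum_congr rfl fun s hs => ?_
      rw [mem_Ico] at hs
      rw [hval s hs.1 hs.2]
      simp only [Polynomial.eval_mul, Polynomial.eval_pow, Polynomial.eval_neg, Polynomial.eval_X]
      ring
    · intro s hs hns
      have : (Ppol p be l).eval (s : ZMod p) = 0 :=
        hout0 s (mem_range.1 hs) (fun h => hns (mem_Ico.2 h))
      simp only [Polynomial.eval_mul, this, mul_zero]
  rw [hstep, poly_sum_range, mul_zero]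
  refine lt_of_le_of_lt Polynomial.natDegree_mul_le ?_
  have h1 : ((-Polynomial.X : Polynomial (ZMod p)) ^ j).natDegree ≤ j := by
    refine (Polynomial.natDegree_pow_le).trans ?_
    simp
  have h2 := Ppol_natDegree (p := p) be l
  omega

end FpSum

end Pool.Agent.Z3
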