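import Pool.Agent.Z3.TableDefs

/-!
The 490 cells between consecutive Farey fractions of order 40, with weights and certificates.
-/

open Finset

namespace Pool.Agent.Z3

/-- cells (a/b, c/d) between consecutive Farey fractions of order 40 with their weight -/
def cells : List (ℕ × ℕ × ℕ × ℕ × ℕ) :=
  [(0, 1, 1, 40, 3), (1, 40, 1, 39, 3), (1, 39, 1, 38, 3), (1, 38, 1, 37, 3),
   (1, 37, 1, 36, 3), (1, 36, 1, 35, 3), (1, 35, 1, 34, 3), (1, 34, 1, 33, 3),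
   (1, 33, 1, 32, 3), (1, 32, 1, 31, 3), (1, 31, 1, 30, 3), (1, 30, 1, 29, 3),
   (1, 29, 1, 28, 3), (1, 28, 1, 27, 3), (1, 27, 1, 26, 3), (1, 26, 1, 25, 3),
   (1, 25, 1, 24, 3), (1, 24, 1, 23, 3), (1, 23, 1, 22, 3), (1, 22, 1, 21, 3),
   (1, 21, 1, 20, 2), (1, 20, 2, 39, 2), (2, 39, 1, 19, 2), (1, 19, 2, 37, 2),
   (2, 37, 1, 18, 2), (1, 18, 2, 35, 1), (2, 35, 1, 17, 1), (1, 17, 2, 33, 2),
   (2, 33, 1, 16, 2), (1, 16, 2, 31, 1), (2, 31, 1, 15, 1), (1, 15, 2, 29, 0),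
   (2, 29, 1, 14, 0), (1, 14, 2, 27, 0), (2, 27, 3, 40, 1), (3, 40, 1, 13, 1),
   (1, 13, 3, 38, 1), (3, 38, 2, 25, 1), (2, 25, 3, 37, 2), (3, 37, 1, 12, 2),
   (1, 12, 3, 35, 2), (3, 35, 2, 23, 2), (2, 23, 3, 34, 2), (3, 34, 1, 11, 2),
   (1, 11, 3, 32, 1), (3, 32, 2, 21, 1), (2, 21, 3, 31, 1), (3, 31, 1, 10, 1),
   (1, 10, 4, 39, 1), (4, 39, 3, 29, 1), (3, 29, 2, 19, 1), (2, 19, 3, 28, 1),
   (3, 28, 4, 37, 1), (4, 37, 1, 9, 1), (1, 9, 4, 35, 1), (4, 35, 3, 26, 1), (3, 26, 2, 17, 1),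
   (2, 17, 3, 25, 1), (3, 25, 4, 33, 2), (4, 33, 1, 8, 2), (1, 8, 5, 39, 2), (5, 39, 4, 31, 2),
   (4, 31, 3, 23, 2), (3, 23, 5, 38, 3), (5, 38, 2, 15, 3), (2, 15, 5, 37, 2),
   (5, 37, 3, 22, 2), (3, 22, 4, 29, 2), (4, 29, 5, 36, 2), (5, 36, 1, 7, 2), (1, 7, 5, 34, 1),
   (5, 34, 4, 27, 1), (4, 27, 3, 20, 1), (3, 20, 5, 33, 1), (5, 33, 2, 13, 1),
   (2, 13, 5, 32, 1), (5, 32, 3, 19, 1), (3, 19, 4, 25, 1), (4, 25, 5, 31, 2),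
   (5, 31, 6, 37, 2), (6, 37, 1, 6, 2), (1, 6, 6, 35, 1), (6, 35, 5, 29, 1), (5, 29, 4, 23, 1),
   (4, 23, 7, 40, 2), (7, 40, 3, 17, 2), (3, 17, 5, 28, 3), (5, 28, 7, 39, 3),
   (7, 39, 2, 11, 3), (2, 11, 7, 38, 2), (7, 38, 5, 27, 2), (5, 27, 3, 16, 2),
   (3, 16, 7, 37, 1), (7, 37, 4, 21, 1), (4, 21, 5, 26, 1), (5, 26, 6, 31, 1),
   (6, 31, 7, 36, 1), (7, 36, 1, 5, 1), (1, 5, 8, 39, 1), (8, 39, 7, 34, 1), (7, 34, 6, 29, 1),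
   (6, 29, 5, 24, 1), (5, 24, 4, 19, 1), (4, 19, 7, 33, 1), (7, 33, 3, 14, 1),
   (3, 14, 8, 37, 1), (8, 37, 5, 23, 1), (5, 23, 7, 32, 1), (7, 32, 2, 9, 1), (2, 9, 9, 40, 1),
   (9, 40, 7, 31, 1), (7, 31, 5, 22, 1), (5, 22, 8, 35, 1), (8, 35, 3, 13, 1),
   (3, 13, 7, 30, 1), (7, 30, 4, 17, 1), (4, 17, 9, 38, 2), (9, 38, 5, 21, 2),
   (5, 21, 6, 25, 1), (6, 25, 7, 29, 2), (7, 29, 8, 33, 2), (8, 33, 9, 37, 2),
   (9, 37, 1, 4, 2), (1, 4, 10, 39, 2), (10, 39, 9, 35, 2), (9, 35, 8, 31, 2),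
   (8, 31, 7, 27, 2), (7, 27, 6, 23, 2), (6, 23, 5, 19, 3), (5, 19, 9, 34, 3),
   (9, 34, 4, 15, 3), (4, 15, 7, 26, 2), (7, 26, 10, 37, 2), (10, 37, 3, 11, 2),
   (3, 11, 11, 40, 1), (11, 40, 8, 29, 1), (8, 29, 5, 18, 1), (5, 18, 7, 25, 0),
   (7, 25, 9, 32, 1), (9, 32, 11, 39, 1), (11, 39, 2, 7, 1), (2, 7, 11, 38, 1),
   (11, 38, 9, 31, 1), (9, 31, 7, 24, 1), (7, 24, 5, 17, 1), (5, 17, 8, 27, 1),
   (8, 27, 11, 37, 1), (11, 37, 3, 10, 1), (3, 10, 10, 33, 1), (10, 33, 7, 23, 1),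
   (7, 23, 11, 36, 2), (11, 36, 4, 13, 2), (4, 13, 9, 29, 2), (9, 29, 5, 16, 2),
   (5, 16, 11, 35, 1), (11, 35, 6, 19, 1), (6, 19, 7, 22, 1), (7, 22, 8, 25, 1),
   (8, 25, 9, 28, 2), (9, 28, 10, 31, 2), (10, 31, 11, 34, 2), (11, 34, 12, 37, 2),
   (12, 37, 13, 40, 2), (13, 40, 1, 3, 2), (1, 3, 13, 38, 1), (13, 38, 12, 35, 1),
   (12, 35, 11, 32, 1), (11, 32, 10, 29, 1), (10, 29, 9, 26, 1), (9, 26, 8, 23, 1),
   (8, 23, 7, 20, 1), (7, 20, 13, 37, 1), (13, 37, 6, 17, 1), (6, 17, 11, 31, 2),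
   (11, 31, 5, 14, 2), (5, 14, 14, 39, 2), (14, 39, 9, 25, 2), (9, 25, 13, 36, 3),
   (13, 36, 4, 11, 3), (4, 11, 11, 30, 2), (11, 30, 7, 19, 2), (7, 19, 10, 27, 2),
   (10, 27, 13, 35, 2), (13, 35, 3, 8, 2), (3, 8, 14, 37, 2), (14, 37, 11, 29, 2),
   (11, 29, 8, 21, 2), (8, 21, 13, 34, 1), (13, 34, 5, 13, 1), (5, 13, 12, 31, 1),
   (12, 31, 7, 18, 1), (7, 18, 9, 23, 0), (9, 23, 11, 28, 1), (11, 28, 13, 33, 1),
   (13, 33, 15, 38, 1), (15, 38, 2, 5, 1), (2, 5, 15, 37, 1), (15, 37, 13, 32, 1),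
   (13, 32, 11, 27, 1), (11, 27, 9, 22, 2), (9, 22, 16, 39, 2), (16, 39, 7, 17, 2),
   (7, 17, 12, 29, 3), (12, 29, 5, 12, 3), (5, 12, 13, 31, 3), (13, 31, 8, 19, 3),
   (8, 19, 11, 26, 3), (11, 26, 14, 33, 3), (14, 33, 17, 40, 3), (17, 40, 3, 7, 3),
   (3, 7, 16, 37, 2), (16, 37, 13, 30, 2), (13, 30, 10, 23, 2), (10, 23, 17, 39, 2),
   (17, 39, 7, 16, 2), (7, 16, 11, 25, 1), (11, 25, 15, 34, 2), (15, 34, 4, 9, 2),
   (4, 9, 17, 38, 2), (17, 38, 13, 29, 2), (13, 29, 9, 20, 2), (9, 20, 14, 31, 2),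
   (14, 31, 5, 11, 2), (5, 11, 16, 35, 1), (16, 35, 11, 24, 1), (11, 24, 17, 37, 1),
   (17, 37, 6, 13, 1), (6, 13, 13, 28, 1), (13, 28, 7, 15, 1), (7, 15, 15, 32, 1),
   (15, 32, 8, 17, 1), (8, 17, 17, 36, 2), (17, 36, 9, 19, 2), (9, 19, 19, 40, 2),
   (19, 40, 10, 21, 2), (10, 21, 11, 23, 1), (11, 23, 12, 25, 1), (12, 25, 13, 27, 2),
   (13, 27, 14, 29, 3), (14, 29, 15, 31, 3), (15, 31, 16, 33, 3), (16, 33, 17, 35, 3),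
   (17, 35, 18, 37, 3), (18, 37, 19, 39, 3), (19, 39, 1, 2, 3), (1, 2, 20, 39, 2),
   (20, 39, 19, 37, 2), (19, 37, 18, 35, 2), (18, 35, 17, 33, 2), (17, 33, 16, 31, 2),
   (16, 31, 15, 29, 2), (15, 29, 14, 27, 2), (14, 27, 13, 25, 2), (13, 25, 12, 23, 2),
   (12, 23, 11, 21, 2), (11, 21, 21, 40, 2), (21, 40, 10, 19, 2), (10, 19, 19, 36, 2),
   (19, 36, 9, 17, 2), (9, 17, 17, 32, 2), (17, 32, 8, 15, 2), (8, 15, 15, 28, 1),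
   (15, 28, 7, 13, 1), (7, 13, 20, 37, 1), (20, 37, 13, 24, 1), (13, 24, 19, 35, 1),
   (19, 35, 6, 11, 1), (6, 11, 17, 31, 1), (17, 31, 11, 20, 1), (11, 20, 16, 29, 1),
   (16, 29, 21, 38, 1), (21, 38, 5, 9, 1), (5, 9, 19, 34, 1), (19, 34, 14, 25, 1),
   (14, 25, 9, 16, 1), (9, 16, 22, 39, 1), (22, 39, 13, 23, 1), (13, 23, 17, 30, 2),
   (17, 30, 21, 37, 2), (21, 37, 4, 7, 2), (4, 7, 23, 40, 2), (23, 40, 19, 33, 2),
   (19, 33, 15, 26, 2), (15, 26, 11, 19, 2), (11, 19, 18, 31, 2), (18, 31, 7, 12, 2),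
   (7, 12, 17, 29, 2), (17, 29, 10, 17, 2), (10, 17, 23, 39, 2), (23, 39, 13, 22, 2),
   (13, 22, 16, 27, 2), (16, 27, 19, 32, 2), (19, 32, 22, 37, 2), (22, 37, 3, 5, 2),
   (3, 5, 23, 38, 2), (23, 38, 20, 33, 2), (20, 33, 17, 28, 2), (17, 28, 14, 23, 2),
   (14, 23, 11, 18, 2), (11, 18, 19, 31, 1), (19, 31, 8, 13, 1), (8, 13, 21, 34, 1),
   (21, 34, 13, 21, 1), (13, 21, 18, 29, 1), (18, 29, 23, 37, 1), (23, 37, 5, 8, 1),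
   (5, 8, 22, 35, 1), (22, 35, 17, 27, 1), (17, 27, 12, 19, 1), (12, 19, 19, 30, 1),
   (19, 30, 7, 11, 1), (7, 11, 23, 36, 1), (23, 36, 16, 25, 1), (16, 25, 25, 39, 1),
   (25, 39, 9, 14, 1), (9, 14, 20, 31, 1), (20, 31, 11, 17, 1), (11, 17, 24, 37, 1),
   (24, 37, 13, 20, 1), (13, 20, 15, 23, 1), (15, 23, 17, 26, 2), (17, 26, 19, 29, 2),
   (19, 29, 21, 32, 2), (21, 32, 23, 35, 2), (23, 35, 25, 38, 2), (25, 38, 2, 3, 2),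
   (2, 3, 27, 40, 1), (27, 40, 25, 37, 1), (25, 37, 23, 34, 1), (23, 34, 21, 31, 1),
   (21, 31, 19, 28, 1), (19, 28, 17, 25, 1), (17, 25, 15, 22, 1), (15, 22, 13, 19, 1),
   (13, 19, 24, 35, 1), (24, 35, 11, 16, 1), (11, 16, 20, 29, 1), (20, 29, 9, 13, 1),
   (9, 13, 25, 36, 1), (25, 36, 16, 23, 1), (16, 23, 23, 33, 2), (23, 33, 7, 10, 2),
   (7, 10, 26, 37, 2), (26, 37, 19, 27, 2), (19, 27, 12, 17, 2), (12, 17, 17, 24, 3),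
   (17, 24, 22, 31, 3), (22, 31, 27, 38, 3), (27, 38, 5, 7, 3), (5, 7, 28, 39, 2),
   (28, 39, 23, 32, 2), (23, 32, 18, 25, 2), (18, 25, 13, 18, 3), (13, 18, 21, 29, 2),
   (21, 29, 29, 40, 2), (29, 40, 8, 11, 2), (8, 11, 27, 37, 1), (27, 37, 19, 26, 1),
   (19, 26, 11, 15, 1), (11, 15, 25, 34, 0), (25, 34, 14, 19, 0), (14, 19, 17, 23, 0),
   (17, 23, 20, 27, 1), (20, 27, 23, 31, 1), (23, 31, 26, 35, 1), (26, 35, 29, 39, 1),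
   (29, 39, 3, 4, 1), (3, 4, 28, 37, 1), (28, 37, 25, 33, 1), (25, 33, 22, 29, 1),
   (22, 29, 19, 25, 1), (19, 25, 16, 21, 1), (16, 21, 29, 38, 1), (29, 38, 13, 17, 1),
   (13, 17, 23, 30, 1), (23, 30, 10, 13, 1), (10, 13, 27, 35, 1), (27, 35, 17, 22, 1),
   (17, 22, 24, 31, 1), (24, 31, 31, 40, 1), (31, 40, 7, 9, 1), (7, 9, 25, 32, 1),
   (25, 32, 18, 23, 1), (18, 23, 29, 37, 2), (29, 37, 11, 14, 2), (11, 14, 26, 33, 2),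
   (26, 33, 15, 19, 2), (15, 19, 19, 24, 2), (19, 24, 23, 29, 2), (23, 29, 27, 34, 2),
   (27, 34, 31, 39, 2), (31, 39, 4, 5, 2), (4, 5, 29, 36, 2), (29, 36, 25, 31, 2),
   (25, 31, 21, 26, 2), (21, 26, 17, 21, 2), (17, 21, 30, 37, 1), (30, 37, 13, 16, 1),
   (13, 16, 22, 27, 1), (22, 27, 31, 38, 2), (31, 38, 9, 11, 2), (9, 11, 32, 39, 1),
   (32, 39, 23, 28, 1), (23, 28, 14, 17, 1), (14, 17, 33, 40, 1), (33, 40, 19, 23, 1),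
   (19, 23, 24, 29, 2), (24, 29, 29, 35, 2), (29, 35, 5, 6, 2), (5, 6, 31, 37, 1),
   (31, 37, 26, 31, 1), (26, 31, 21, 25, 1), (21, 25, 16, 19, 1), (16, 19, 27, 32, 1),
   (27, 32, 11, 13, 1), (11, 13, 28, 33, 1), (28, 33, 17, 20, 1), (17, 20, 23, 27, 1),
   (23, 27, 29, 34, 2), (29, 34, 6, 7, 2), (6, 7, 31, 36, 2), (31, 36, 25, 29, 2),
   (25, 29, 19, 22, 2), (19, 22, 32, 37, 2), (32, 37, 13, 15, 2), (13, 15, 33, 38, 1),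
   (33, 38, 20, 23, 1), (20, 23, 27, 31, 1), (27, 31, 34, 39, 1), (34, 39, 7, 8, 1),
   (7, 8, 29, 33, 1), (29, 33, 22, 25, 1), (22, 25, 15, 17, 1), (15, 17, 23, 26, 2),
   (23, 26, 31, 35, 2), (31, 35, 8, 9, 2), (8, 9, 33, 37, 2), (33, 37, 25, 28, 2),
   (25, 28, 17, 19, 2), (17, 19, 26, 29, 2), (26, 29, 35, 39, 2), (35, 39, 9, 10, 2),
   (9, 10, 28, 31, 2), (28, 31, 19, 21, 2), (19, 21, 29, 32, 1), (29, 32, 10, 11, 1),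
   (10, 11, 31, 34, 1), (31, 34, 21, 23, 1), (21, 23, 32, 35, 2), (32, 35, 11, 12, 2),
   (11, 12, 34, 37, 2), (34, 37, 23, 25, 2), (23, 25, 35, 38, 2), (35, 38, 12, 13, 2),
   (12, 13, 37, 40, 2), (37, 40, 25, 27, 2), (25, 27, 13, 14, 2), (13, 14, 27, 29, 2),
   (27, 29, 14, 15, 2), (14, 15, 29, 31, 1), (29, 31, 15, 16, 1), (15, 16, 31, 33, 1),
   (31, 33, 16, 17, 1), (16, 17, 33, 35, 2), (33, 35, 17, 18, 2), (17, 18, 35, 37, 1),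
   (35, 37, 18, 19, 1), (18, 19, 37, 39, 1), (37, 39, 19, 20, 1), (19, 20, 20, 21, 1),
   (20, 21, 21, 22, 0), (21, 22, 22, 23, 0), (22, 23, 23, 24, 1), (23, 24, 24, 25, 1),
   (24, 25, 25, 26, 2), (25, 26, 26, 27, 2), (26, 27, 27, 28, 3), (27, 28, 28, 29, 3),
   (28, 29, 29, 30, 3), (29, 30, 30, 31, 3), (30, 31, 31, 32, 3), (31, 32, 32, 33, 3),
   (32, 33, 33, 34, 3), (33, 34, 34, 35, 3), (34, 35, 35, 36, 3), (35, 36, 36, 37, 3),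
   (36, 37, 37, 38, 3), (37, 38, 38, 39, 3), (38, 39, 39, 40, 3), (39, 40, 1, 1, 3)]

/-- per cell: the mediant N0/P0 and, for red cells, the start of the gap and the permutation -/
def cellData : List (ℕ × ℕ × ℕ × List ℕ) :=
  [(1, 41, 0, []), (2, 79, 0, []), (2, 77, 0, []), (2, 75, 0, []), (2, 73, 0, []),
   (2, 71, 0, []), (2, 69, 0, []), (2, 67, 0, []), (2, 65, 0, []), (2, 63, 0, []),
   (2, 61, 0, []), (2, 59, 0, []), (2, 57, 0, []), (2, 55, 0, []), (2, 53, 0, []),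
   (2, 51, 0, []), (2, 49, 0, []), (2, 47, 0, []), (2, 45, 0, []), (2, 43, 0, []),
   (2, 41, 0, []), (3, 59, 0, []), (3, 58, 0, []), (3, 56, 0, []), (3, 55, 0, []),
   (3, 53, 0, []), (3, 52, 0, []), (3, 50, 0, []), (3, 49, 0, []), (3, 47, 0, []),
   (3, 46, 0, []), (3, 44, 20, [1, 2, 3, 0, 4]), (3, 43, 20, [1, 2, 3, 0, 4]),
   (3, 41, 20, [1, 2, 3, 0, 4]), (5, 67, 0, []), (4, 53, 0, []), (4, 51, 20, [0, 1, 2, 3, 4]),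
   (5, 63, 20, [0, 1, 2, 3, 4]), (5, 62, 0, []), (4, 49, 0, []), (4, 47, 0, []),
   (5, 58, 0, []), (5, 57, 0, []), (4, 45, 0, []), (4, 43, 20, [0, 1, 2, 3, 4]),
   (5, 53, 20, [0, 1, 2, 3, 4]), (5, 52, 0, []), (4, 41, 0, []), (5, 49, 0, []),
   (7, 68, 0, []), (5, 48, 0, []), (5, 47, 0, []), (7, 65, 0, []), (5, 46, 0, []),
   (5, 44, 0, []), (7, 61, 0, []), (5, 43, 0, []), (5, 42, 20, [2, 3, 0, 1, 4]),
   (7, 58, 0, []), (5, 41, 0, []), (6, 47, 0, []), (9, 70, 0, []), (7, 54, 0, []),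
   (8, 61, 0, []), (7, 53, 0, []), (7, 52, 0, []), (8, 59, 0, []), (7, 51, 0, []),
   (9, 65, 0, []), (6, 43, 0, []), (6, 41, 0, []), (9, 61, 0, []), (7, 47, 0, []),
   (8, 53, 0, []), (7, 46, 0, []), (7, 45, 20, [0, 1, 2, 3, 4]), (8, 51, 20, [0, 1, 2, 3, 4]),
   (7, 44, 20, [0, 1, 2, 4, 3]), (9, 56, 0, []), (11, 68, 0, []), (7, 43, 0, []),
   (7, 41, 0, []), (11, 64, 0, []), (9, 52, 0, []), (11, 63, 0, []), (10, 57, 0, []),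
   (8, 45, 0, []), (12, 67, 0, []), (9, 50, 0, []), (9, 49, 0, []), (12, 65, 0, []),
   (8, 43, 0, []), (10, 53, 15, [0, 1, 4, 2, 3]), (11, 58, 15, [0, 1, 4, 2, 3]),
   (9, 47, 0, []), (11, 57, 0, []), (13, 67, 0, []), (8, 41, 0, []), (9, 44, 0, []),
   (15, 73, 0, []), (13, 63, 0, []), (11, 53, 0, []), (9, 43, 0, []), (11, 52, 0, []),
   (10, 47, 0, []), (11, 51, 0, []), (13, 60, 0, []), (12, 55, 0, []), (9, 41, 0, []),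
   (11, 49, 0, []), (16, 71, 0, []), (12, 53, 0, []), (13, 57, 0, []), (11, 48, 0, []),
   (10, 43, 20, [0, 1, 2, 3, 4]), (11, 47, 20, [0, 1, 2, 3, 4]), (13, 55, 20, [0, 1, 2, 3, 4]),
   (14, 59, 20, [0, 1, 2, 3, 4]), (11, 46, 20, [0, 1, 2, 3, 4]), (13, 54, 0, []),
   (15, 62, 0, []), (17, 70, 0, []), (10, 41, 0, []), (11, 43, 0, []), (19, 74, 0, []),
   (17, 66, 0, []), (15, 58, 0, []), (13, 50, 0, []), (11, 42, 0, []), (14, 53, 0, []),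
   (13, 49, 0, []), (11, 41, 0, []), (17, 63, 0, []), (13, 48, 0, []),
   (14, 51, 17, [0, 2, 1, 4, 3]), (19, 69, 17, [0, 2, 1, 4, 3]), (13, 47, 17, [0, 2, 1, 4, 3]),
   (12, 43, 17, [0, 4, 1, 2, 3]), (16, 57, 0, []), (20, 71, 0, []), (13, 46, 0, []),
   (13, 45, 0, []), (20, 69, 0, []), (16, 55, 0, []), (12, 41, 0, []), (13, 44, 0, []),
   (19, 64, 0, []), (14, 47, 0, []), (13, 43, 0, []), (17, 56, 0, []), (18, 59, 0, []),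
   (15, 49, 0, []), (13, 42, 0, []), (14, 45, 0, []), (16, 51, 17, [0, 1, 2, 3, 4]),
   (17, 54, 17, [0, 1, 2, 3, 4]), (13, 41, 17, [0, 1, 2, 4, 3]), (15, 47, 17, [0, 1, 2, 4, 3]),
   (17, 53, 0, []), (19, 59, 0, []), (21, 65, 0, []), (23, 71, 0, []), (25, 77, 0, []),
   (14, 43, 0, []), (14, 41, 0, []), (25, 73, 0, []), (23, 67, 0, []), (21, 61, 0, []),
   (19, 55, 0, []), (17, 49, 0, []), (15, 43, 0, []), (20, 57, 0, []), (19, 54, 0, []),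
   (17, 48, 0, []), (16, 45, 0, []), (19, 53, 0, []), (23, 64, 0, []), (22, 61, 0, []),
   (17, 47, 0, []), (15, 41, 0, []), (18, 49, 0, []), (17, 46, 0, []), (23, 62, 0, []),
   (16, 43, 0, []), (17, 45, 0, []), (25, 66, 0, []), (19, 50, 0, []), (21, 55, 0, []),
   (18, 47, 0, []), (17, 44, 19, [0, 1, 2, 3, 4]), (19, 49, 19, [0, 1, 2, 3, 4]),
   (16, 41, 19, [0, 1, 2, 3, 4]), (20, 51, 0, []), (24, 61, 0, []), (28, 71, 0, []),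
   (17, 43, 0, []), (17, 42, 0, []), (28, 69, 0, []), (24, 59, 0, []), (20, 49, 0, []),
   (25, 61, 0, []), (23, 56, 0, []), (19, 46, 0, []), (17, 41, 0, []), (18, 43, 0, []),
   (21, 50, 0, []), (19, 45, 0, []), (25, 59, 0, []), (31, 73, 0, []), (20, 47, 0, []),
   (19, 44, 0, []), (29, 67, 0, []), (23, 53, 0, []), (27, 62, 0, []), (24, 55, 0, []),
   (18, 41, 0, []), (26, 59, 0, []), (19, 43, 0, []), (21, 47, 0, []), (30, 67, 0, []),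
   (22, 49, 0, []), (23, 51, 0, []), (19, 42, 0, []), (21, 46, 0, []), (27, 59, 0, []),
   (28, 61, 0, []), (23, 50, 0, []), (19, 41, 20, [0, 1, 2, 3, 4]),
   (20, 43, 20, [0, 1, 2, 3, 4]), (22, 47, 20, [0, 1, 2, 3, 4]), (23, 49, 20, [0, 1, 2, 3, 4]),
   (25, 53, 20, [0, 1, 2, 3, 4]), (26, 55, 20, [0, 1, 2, 3, 4]), (28, 59, 20, [0, 1, 2, 4, 3]),
   (29, 61, 20, [0, 1, 2, 4, 3]), (21, 44, 20, [0, 1, 3, 4, 2]), (23, 48, 20, [0, 2, 3, 4, 1]),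
   (25, 52, 0, []), (27, 56, 0, []), (29, 60, 0, []), (31, 64, 0, []), (33, 68, 0, []),
   (35, 72, 0, []), (37, 76, 0, []), (20, 41, 0, []), (21, 41, 0, []), (39, 76, 0, []),
   (37, 72, 0, []), (35, 68, 0, []), (33, 64, 0, []), (31, 60, 0, []), (29, 56, 0, []),
   (27, 52, 0, []), (25, 48, 0, []), (23, 44, 0, []), (32, 61, 0, []), (31, 59, 0, []),
   (29, 55, 0, []), (28, 53, 0, []), (26, 49, 0, []), (25, 47, 0, []), (23, 43, 0, []),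
   (22, 41, 0, []), (27, 50, 19, [0, 1, 2, 3, 4]), (33, 61, 19, [0, 1, 2, 3, 4]),
   (32, 59, 19, [0, 1, 2, 3, 4]), (25, 46, 19, [0, 1, 2, 3, 4]), (23, 42, 19, [0, 1, 2, 3, 4]),
   (28, 51, 19, [0, 1, 2, 3, 4]), (27, 49, 19, [0, 1, 2, 4, 3]), (37, 67, 19, [0, 1, 2, 4, 3]),
   (26, 47, 19, [0, 1, 2, 4, 3]), (24, 43, 19, [0, 4, 1, 2, 3]), (33, 59, 19, [0, 4, 1, 2, 3]),
   (23, 41, 19, [0, 4, 1, 2, 3]), (31, 55, 19, [0, 1, 4, 2, 3]), (35, 62, 19, [0, 1, 4, 2, 3]),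
   (30, 53, 0, []), (38, 67, 0, []), (25, 44, 0, []), (27, 47, 0, []), (42, 73, 0, []),
   (34, 59, 0, []), (26, 45, 0, []), (29, 50, 0, []), (25, 43, 0, []), (24, 41, 0, []),
   (27, 46, 0, []), (33, 56, 0, []), (36, 61, 0, []), (29, 49, 0, []), (35, 59, 0, []),
   (41, 69, 0, []), (25, 42, 0, []), (26, 43, 0, []), (43, 71, 0, []), (37, 61, 0, []),
   (31, 51, 0, []), (25, 41, 0, []), (30, 49, 0, []), (27, 44, 0, []),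
   (29, 47, 20, [0, 1, 2, 3, 4]), (34, 55, 20, [0, 1, 2, 3, 4]), (31, 50, 0, []),
   (41, 66, 0, []), (28, 45, 0, []), (27, 43, 0, []), (39, 62, 0, []), (29, 46, 0, []),
   (31, 49, 0, []), (26, 41, 0, []), (30, 47, 0, []), (39, 61, 0, []), (41, 64, 0, []),
   (34, 53, 0, []), (29, 45, 0, []), (31, 48, 0, []), (35, 54, 13, [0, 3, 1, 2, 4]),
   (37, 57, 13, [0, 3, 1, 2, 4]), (28, 43, 13, [0, 3, 1, 4, 2]), (32, 49, 0, []),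
   (36, 55, 0, []), (40, 61, 0, []), (44, 67, 0, []), (48, 73, 0, []), (27, 41, 0, []),
   (29, 43, 0, []), (52, 77, 0, []), (48, 71, 0, []), (44, 65, 0, []), (40, 59, 0, []),
   (36, 53, 0, []), (32, 47, 0, []), (28, 41, 0, []), (37, 54, 0, []), (35, 51, 0, []),
   (31, 45, 0, []), (29, 42, 0, []), (34, 49, 19, [0, 1, 2, 3, 4]),
   (41, 59, 19, [0, 1, 2, 3, 4]), (39, 56, 0, []), (30, 43, 0, []), (33, 47, 0, []),
   (45, 64, 0, []), (31, 44, 0, []), (29, 41, 0, []), (39, 55, 0, []), (49, 69, 0, []),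
   (32, 45, 0, []), (33, 46, 0, []), (51, 71, 0, []), (41, 57, 0, []), (31, 43, 0, []),
   (34, 47, 0, []), (50, 69, 0, []), (37, 51, 0, []), (35, 48, 0, []), (46, 63, 0, []),
   (30, 41, 0, []), (36, 49, 20, [0, 2, 1, 3, 4]), (39, 53, 20, [0, 2, 1, 3, 4]),
   (31, 42, 20, [0, 2, 3, 1, 4]), (37, 50, 0, []), (43, 58, 0, []), (49, 66, 0, []),
   (55, 74, 0, []), (32, 43, 0, []), (31, 41, 0, []), (53, 70, 0, []), (47, 62, 0, []),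
   (41, 54, 0, []), (35, 46, 0, []), (45, 59, 0, []), (42, 55, 0, []), (36, 47, 0, []),
   (33, 43, 0, []), (37, 48, 19, [0, 1, 2, 3, 4]), (44, 57, 19, [0, 1, 2, 3, 4]),
   (41, 53, 19, [0, 1, 2, 3, 4]), (55, 71, 19, [0, 1, 2, 3, 4]), (38, 49, 19, [0, 1, 2, 3, 4]),
   (32, 41, 19, [0, 1, 2, 3, 4]), (43, 55, 19, [0, 1, 2, 3, 4]), (47, 60, 0, []),
   (40, 51, 0, []), (37, 47, 0, []), (41, 52, 0, []), (34, 43, 0, []), (42, 53, 0, []),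
   (50, 63, 0, []), (58, 73, 0, []), (35, 44, 0, []), (33, 41, 0, []), (54, 67, 0, []),
   (46, 57, 0, []), (38, 47, 0, []), (47, 58, 0, []), (43, 53, 0, []), (35, 43, 0, []),
   (53, 65, 0, []), (40, 49, 0, []), (41, 50, 0, []), (55, 67, 0, []), (37, 45, 0, []),
   (47, 57, 13, [0, 3, 1, 4, 2]), (52, 63, 13, [0, 3, 1, 4, 2]), (43, 52, 0, []),
   (53, 64, 0, []), (34, 41, 0, []), (36, 43, 0, []), (57, 68, 0, []), (47, 56, 0, []),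
   (37, 44, 0, []), (43, 51, 0, []), (38, 45, 0, []), (39, 46, 19, [0, 1, 2, 3, 4]),
   (45, 53, 19, [0, 1, 2, 3, 4]), (40, 47, 19, [0, 1, 2, 4, 3]), (52, 61, 0, []),
   (35, 41, 0, []), (37, 43, 0, []), (56, 65, 0, []), (44, 51, 0, []), (51, 59, 0, []),
   (45, 52, 0, []), (46, 53, 0, []), (53, 61, 0, []), (47, 54, 0, []), (61, 70, 0, []),
   (41, 47, 0, []), (36, 41, 0, []), (51, 58, 0, []), (37, 42, 0, []), (38, 43, 0, []),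
   (54, 61, 0, []), (39, 44, 0, []), (41, 46, 0, []), (58, 65, 0, []), (42, 47, 0, []),
   (43, 48, 0, []), (61, 68, 0, []), (44, 49, 0, []), (37, 41, 0, []), (47, 52, 0, []),
   (48, 53, 0, []), (39, 43, 0, []), (41, 45, 0, []), (52, 57, 0, []), (53, 58, 0, []),
   (43, 47, 0, []), (45, 49, 0, []), (57, 62, 0, []), (58, 63, 0, []), (47, 51, 0, []),
   (49, 53, 0, []), (62, 67, 0, []), (38, 41, 0, []), (40, 43, 0, []), (41, 44, 0, []),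
   (43, 46, 13, [0, 1, 2, 3, 4]), (44, 47, 13, [0, 1, 2, 3, 4]), (46, 49, 13, [0, 1, 2, 3, 4]),
   (47, 50, 13, [0, 1, 2, 3, 4]), (49, 52, 13, [0, 1, 2, 3, 4]), (50, 53, 13, [0, 1, 2, 3, 4]),
   (52, 55, 13, [0, 1, 2, 3, 4]), (53, 56, 13, [0, 1, 2, 3, 4]), (55, 58, 13, [0, 1, 3, 2, 4]),
   (56, 59, 13, [0, 1, 3, 2, 4]), (39, 41, 13, [0, 1, 4, 2, 3]), (41, 43, 13, [0, 3, 4, 1, 2]),
   (43, 45, 13, [0, 3, 4, 1, 2]), (45, 47, 0, []), (47, 49, 0, []), (49, 51, 0, []),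
   (51, 53, 0, []), (53, 55, 0, []), (55, 57, 0, []), (57, 59, 0, []), (59, 61, 0, []),
   (61, 63, 0, []), (63, 65, 0, []), (65, 67, 0, []), (67, 69, 0, []), (69, 71, 0, []),
   (71, 73, 0, []), (73, 75, 0, []), (75, 77, 0, []), (77, 79, 0, []), (40, 41, 0, [])]

/-- the check of one cell -/
def cellCheck (c : ℕ × ℕ × ℕ × ℕ × ℕ) (d : ℕ × ℕ × ℕ × List ℕ) : Bool :=
  decide (0 < d.2.1) && decide (d.1 < d.2.1) &&
  (List.range 41).all (fun i => decide (i * d.1 / d.2.1 * c.2.1 ≤ c.1 * i) &&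
    decide (c.2.2.1 * i ≤ (i * d.1 / d.2.1 + 1) * c.2.2.2.1)) &&
  decide ((pts.map (fun e => e * d.1 % d.2.1)).Nodup) &&
  (pts.all (fun e => decide (1 - e00 d.1 d.2.1 - (c.2.2.2.2 : ℤ) ≤ phi0 d.1 d.2.1 (e * d.1 % d.2.1))) ||
   (decide (1 - e00 d.1 d.2.1 ≤ (c.2.2.2.2 : ℤ)) && redCheck d.1 d.2.1 d.2.2.1 d.2.2.2))

theorem cells_check : (List.zip cells cellData).all (fun x => cellCheck x.1 x.2) = true := by
  decide +kernel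

theorem cells_length : cells.length = 490 := by decide +kernel

theorem cellData_length : cellData.length = 490 := by decide +kernel

theorem cellCheck_iff (c : ℕ × ℕ × ℕ × ℕ × ℕ) (d : ℕ × ℕ × ℕ × List ℕ) (h : cellCheck c d = true) :
    0 < d.2.1 ∧ d.1 < d.2.1 ∧
    (∀ i ∈ Finset.Icc 1 40, i * d.1 / d.2.1 * c.2.1 ≤ c.1 * i ∧
      c.2.2.1 * i ≤ (i * d.1 / d.2.1 + 1) * c.2.2.2.1) ∧
    (pts.map (fun e => e * d.1 % d.2.1)).Nodup ∧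
    ((∀ e ∈ pts, 1 - e00 d.1 d.2.1 - (c.2.2.2.2 : ℤ) ≤ phi0 d.1 d.2.1 (e * d.1 % d.2.1)) ∨
     (1 - e00 d.1 d.2.1 ≤ (c.2.2.2.2 : ℤ) ∧ ∃ (c1 : ℕ) (L : List ℕ), redCheck d.1 d.2.1 c1 L = true)) := by
  unfold cellCheck at h
  rw [Bool.and_eq_true, Bool.and_eq_true, Bool.and_eq_true, Bool.and_eq_true, Bool.or_eq_true,
    Bool.and_eq_true] at h
  obtain ⟨⟨⟨⟨h1, h2⟩, h3⟩, h4⟩, h5⟩ := h
  refine ⟨of_decide_eq_true h1, of_decide_eq_true h2, ?_, of_decide_eq_true h4, ?_⟩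
  · intro i hi
    rw [Finset.mem_Icc] at hi
    rw [List.all_eq_true] at h3
    have := h3 i (List.mem_range.mpr (by omega))
    rw [Bool.and_eq_true] at this
    exact ⟨of_decide_eq_true this.1, of_decide_eq_true this.2⟩
  · rcases h5 with h5 | ⟨h5, h6⟩
    · left
      intro e he
      rw [List.all_eq_true] at h5
      exact of_decide_eq_true (h5 e he)
    · right
      exact ⟨of_decide_eq_true h5, _, _, h6⟩

theorem zip_spec {α β : Type*} (l : List α) (d : List β) (f : α → β → Bool)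
    (hlen : l.length = d.length) (h : (List.zip l d).all (fun x => f x.1 x.2) = true) :
    ∀ c ∈ l, ∃ e, f c e = true := by
  intro c hc
  obtain ⟨i, hi, rfl⟩ := List.mem_iff_getElem.mp hc
  have hi' : i < d.length := hlen ▸ hi
  have hz : i < (List.zip l d).length := by
    rw [List.length_zip]; exact lt_min hi hi'
  have hm : (l[i], d[i]) ∈ List.zip l d := by
    have := List.getElem_mem hz
    rwa [List.getElem_zip] at this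
  rw [List.all_eq_true] at h
  exact ⟨d[i], h _ hm⟩

theorem cells_spec : ∀ c ∈ cells, ∃ N0 P0 : ℕ, 0 < P0 ∧ N0 < P0 ∧
    (∀ i ∈ Finset.Icc 1 40, i * N0 / P0 * c.2.1 ≤ c.1 * i ∧
      c.2.2.1 * i ≤ (i * N0 / P0 + 1) * c.2.2.2.1) ∧
    (pts.map (fun e => e * N0 % P0)).Nodup ∧
    ((∀ e ∈ pts, 1 - e00 N0 P0 - (c.2.2.2.2 : ℤ) ≤ phi0 N0 P0 (e * N0 % P0)) ∨
     (1 - e00 N0 P0 ≤ (c.2.2.2.2 : ℤ) ∧ ∃ (c1 : ℕ) (L : List ℕ), redCheck N0 P0 c1 L = true)) := by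
  intro c hc
  obtain ⟨e, he⟩ := zip_spec cells cellData cellCheck (cells_length.trans cellData_length.symm)
    cells_check c hc
  exact ⟨e.1, e.2.1, cellCheck_iff _ _ he⟩

theorem cells_head : cells.head? = some (0, 1, 1, 40, 3) := by decide +kernel

theorem cells_last : cells.getLast? = some (39, 40, 1, 1, 3) := by decide +kernel

theorem cells_chain : cells.IsChain (fun c c' => c.2.2.1 = c'.1 ∧ c.2.2.2.1 = c'.2.1) := by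
  decide +kernel

end Pool.Agent.Z3
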