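import Pool.Agent.Z3.Cells

/-!
The weight of a cell, and the cover of the unit interval by the cells.
-/

open Finset

namespace Pool.Agent.Z3

/-- weight of the cell containing r/p -/
def wtab (r p : ℕ) : ℕ :=
  ((cells.find? (fun c => decide (c.1 * p < r * c.2.1 ∧ r * c.2.2.2.1 < c.2.2.1 * p))).map
    (fun c => c.2.2.2.2)).getD 3

/-- the cells are consecutive intervals from `a / b` to `1` with endpoints of denominator at most 40 -/
def chainCheck : ℕ → ℕ → List (ℕ × ℕ × ℕ × ℕ × ℕ) → Bool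
  | a, b, [] => decide (a = 1) && decide (b = 1)
  | a, b, c :: l => decide (c.1 = a) && decide (c.2.1 = b) && decide (0 < c.2.2.2.1) &&
      decide (c.2.2.2.1 ≤ 40) && chainCheck c.2.2.1 c.2.2.2.1 l

theorem chain_cover {r p : ℕ} (hr : r < p) (hne : ∀ d, 0 < d → d ≤ 40 → ∀ c, r * d ≠ c * p) :
    ∀ (l : List (ℕ × ℕ × ℕ × ℕ × ℕ)) (a b : ℕ), chainCheck a b l = true → a * p < r * b →
      ∃ c ∈ l, c.1 * p < r * c.2.1 ∧ r * c.2.2.2.1 < c.2.2.1 * p
  | [], a, b, h, h1 => by
    simp only [chainCheck, Bool.and_eq_true, decide_eq_true_eq] at h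
    rw [h.1, h.2] at h1
    omega
  | c :: l, a, b, h, h1 => by
    simp only [chainCheck, Bool.and_eq_true, decide_eq_true_eq] at h
    obtain ⟨⟨⟨⟨ha, hb⟩, hd⟩, hd'⟩, hl⟩ := h
    rcases lt_trichotomy (r * c.2.2.2.1) (c.2.2.1 * p) with h2 | h2 | h2
    · exact ⟨c, List.mem_cons_self, by rw [ha, hb]; exact h1, h2⟩
    · exact absurd h2 (hne _ hd hd' _)
    · obtain ⟨c', hc', h3⟩ := chain_cover hr hne l _ _ hl h2
      exact ⟨c', List.mem_cons_of_mem _ hc', h3⟩

theorem cells_chainCheck : chainCheck 0 1 cells = true := by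
  decide +kernel

theorem good_ne {n p : ℕ} (hg : Good n p) (d : ℕ) (hd : 0 < d) (hd' : d ≤ 40) (c : ℕ) :
    n % p * d ≠ c * p := by
  intro h
  have h1 := hg (d : ℤ) (Finset.mem_Icc.2 ⟨by exact_mod_cast hd, by exact_mod_cast hd'⟩) 0
    (by decide)
  apply h1
  rw [add_zero]
  have h2 : p ∣ d * n := by
    rw [← Nat.div_add_mod n p, Nat.mul_add]
    refine (Nat.dvd_add_right (Dvd.intro_left (d * (n / p)) (by ring))).2 ?_
    rw [Nat.mul_comm, h]
    exact Dvd.intro_left _ rfl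
  exact_mod_cast h2

/-- for good p every n % p lies strictly in a cell -/
theorem cells_cover {n p : ℕ} (hp : 0 < p) (hg : Good n p) :
    ∃ c ∈ cells, c.1 * p < (n % p) * c.2.1 ∧ (n % p) * c.2.2.2.1 < c.2.2.1 * p := by
  refine chain_cover (Nat.mod_lt _ hp) (fun d hd hd' c => good_ne hg d hd hd' c) cells 0 1
    cells_chainCheck ?_
  rw [Nat.zero_mul, Nat.mul_one]
  rcases Nat.eq_zero_or_pos (n % p) with h | h
  · exact absurd (by rw [h]; ring) (good_ne hg 1 one_pos (by norm_num) 0)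
  · exact h

/-- `wtab` is the weight of a cell containing n % p -/
theorem wtab_eq {n p : ℕ} (hp : 0 < p) (hg : Good n p) :
    ∃ c ∈ cells, c.1 * p < (n % p) * c.2.1 ∧ (n % p) * c.2.2.2.1 < c.2.2.1 * p ∧
      wtab (n % p) p = c.2.2.2.2 := by
  obtain ⟨c, hc, h1, h2⟩ := cells_cover hp hg
  unfold wtab
  rcases hf : cells.find? (fun c => decide (c.1 * p < n % p * c.2.1 ∧
    n % p * c.2.2.2.1 < c.2.2.1 * p)) with _ | c'
  · have h3 := List.find?_eq_none.1 hf c hc
    simp only [decide_eq_true_eq] at h3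
    exact absurd ⟨h1, h2⟩ h3
  · have h3 := List.find?_some hf
    simp only [decide_eq_true_eq] at h3
    refine ⟨c', List.mem_of_find?_eq_some hf, h3.1, h3.2, ?_⟩
    rw [hf, Option.map_some, Option.getD_some]

end Pool.Agent.Z3
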