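import Pool.Agent.Z3.Cells
import Pool.Agent.Z3.WTab
import Pool.Agent.Z3.C2Chk

/-!
The cells with the weights of the second order cancellation: 14 of the 490 weights are lower by 1.
-/

open Finset

namespace Pool.Agent.Z3

/-- the 14 cells with second order cancellation: left end point, mediant, the four points -/
def sec2 : List ((ℕ × ℕ) × (ℕ × ℕ) × (ℕ × ℕ × ℕ × ℕ)) :=
  [((7, 15), (22, 47), (13, 20, 40, 38)), ((15, 32), (23, 49), (13, 20, 40, 38)),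
   ((8, 17), (25, 53), (13, 20, 40, 4)), ((17, 36), (26, 55), (13, 20, 4, 40)),
   ((9, 19), (28, 59), (13, 20, 4, 2)), ((19, 40), (29, 61), (13, 20, 4, 2)),
   ((10, 21), (21, 44), (13, 20, 4, 2)),
   ((16, 17), (49, 52), (15, 13, 40, 4)), ((33, 35), (50, 53), (15, 13, 40, 4)),
   ((17, 18), (52, 55), (15, 13, 4, 40)), ((35, 37), (53, 56), (15, 13, 4, 40)),
   ((18, 19), (55, 58), (15, 13, 4, 2)), ((37, 39), (56, 59), (15, 13, 4, 2)),
   ((19, 20), (39, 41), (15, 13, 4, 2))]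

/-- is the cell in the list `sec2` -/
def isSec (c : ℕ × ℕ × ℕ × ℕ × ℕ) : Bool := sec2.any (fun s => decide (s.1 = (c.1, c.2.1)))

/-- the lowered weight -/
def low (c : ℕ × ℕ × ℕ × ℕ × ℕ) : ℕ × ℕ × ℕ × ℕ × ℕ :=
  if isSec c = true then (c.1, c.2.1, c.2.2.1, c.2.2.2.1, c.2.2.2.2 - 1) else c

/-- the cells with the new weights -/
def cells2 : List (ℕ × ℕ × ℕ × ℕ × ℕ) := cells.map low

theorem cells2_length : cells2.length = 490 := by decide +kernel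

/-- the check of a cell of second order -/
def sec2Check (c : ℕ × ℕ × ℕ × ℕ × ℕ) (s : (ℕ × ℕ) × (ℕ × ℕ) × (ℕ × ℕ × ℕ × ℕ)) : Bool :=
  decide (s.1 = (c.1, c.2.1)) &&
  decide (0 < s.2.1.2) && decide (s.2.1.1 < s.2.1.2) &&
  (List.range 41).all (fun i => decide (i * s.2.1.1 / s.2.1.2 * c.2.1 ≤ c.1 * i) &&
    decide (c.2.2.1 * i ≤ (i * s.2.1.1 / s.2.1.2 + 1) * c.2.2.2.1)) &&
  decide (- e00 s.2.1.1 s.2.1.2 ≤ ((c.2.2.2.2 - 1 : ℕ) : ℤ)) && decide (c.2.1 ≤ 13 * c.1) &&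
  red2Check s.2.1.1 s.2.1.2 s.2.2.1 s.2.2.2.1 s.2.2.2.2.1 s.2.2.2.2.2

theorem cells_sec : cells.all (fun c => !(isSec c) || sec2.any (sec2Check c)) = true := by
  decide +kernel

theorem sec_spec {c : ℕ × ℕ × ℕ × ℕ × ℕ} (hc : c ∈ cells) (h : isSec c = true) :
    ∃ N0 P0 c0 c1 c2 c3 : ℕ, 0 < P0 ∧ N0 < P0 ∧
    (∀ i ∈ Finset.Icc 1 40, i * N0 / P0 * c.2.1 ≤ c.1 * i ∧
      c.2.2.1 * i ≤ (i * N0 / P0 + 1) * c.2.2.2.1) ∧
    - e00 N0 P0 ≤ ((c.2.2.2.2 - 1 : ℕ) : ℤ) ∧ c.2.1 ≤ 13 * c.1 ∧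
    red2Check N0 P0 c0 c1 c2 c3 = true := by
  have h1 := cells_sec
  rw [List.all_eq_true] at h1
  have h2 := h1 c hc
  rw [h, Bool.not_true, Bool.false_or, List.any_eq_true] at h2
  obtain ⟨s, _, hs⟩ := h2
  unfold sec2Check at hs
  simp only [Bool.and_eq_true, decide_eq_true_eq, List.all_eq_true] at hs
  obtain ⟨⟨⟨⟨⟨⟨_, h3⟩, h4⟩, h5⟩, h6⟩, h7⟩, h8⟩ := hs
  refine ⟨s.2.1.1, s.2.1.2, s.2.2.1, s.2.2.2.1, s.2.2.2.2.1, s.2.2.2.2.2, h3, h4, ?_, h6, h7, h8⟩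
  intro i hi
  rw [Finset.mem_Icc] at hi
  exact h5 i (List.mem_range.mpr (by omega))

theorem low_fst (c : ℕ × ℕ × ℕ × ℕ × ℕ) : (low c).1 = c.1 := by
  unfold low; split_ifs <;> rfl

theorem low_snd (c : ℕ × ℕ × ℕ × ℕ × ℕ) : (low c).2.1 = c.2.1 := by
  unfold low; split_ifs <;> rfl

theorem low_trd (c : ℕ × ℕ × ℕ × ℕ × ℕ) : (low c).2.2.1 = c.2.2.1 := by
  unfold low; split_ifs <;> rfl

theorem low_fth (c : ℕ × ℕ × ℕ × ℕ × ℕ) : (low c).2.2.2.1 = c.2.2.2.1 := by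
  unfold low; split_ifs <;> rfl

theorem low_le (c : ℕ × ℕ × ℕ × ℕ × ℕ) : (low c).2.2.2.2 ≤ c.2.2.2.2 := by
  unfold low; split_ifs
  · exact Nat.sub_le _ _
  · exact le_rfl

/-- weight of the cell containing r/p -/
def wtab2 (r p : ℕ) : ℕ :=
  ((cells2.find? (fun c => decide (c.1 * p < r * c.2.1 ∧ r * c.2.2.2.1 < c.2.2.1 * p))).map
    (fun c => c.2.2.2.2)).getD 3

theorem cells2_chainCheck : chainCheck 0 1 cells2 = true := by
  decide +kernel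

/-- for good p every n % p lies strictly in a cell -/
theorem cells2_cover {n p : ℕ} (hp : 0 < p) (hg : Good n p) :
    ∃ c ∈ cells2, c.1 * p < (n % p) * c.2.1 ∧ (n % p) * c.2.2.2.1 < c.2.2.1 * p := by
  refine chain_cover (Nat.mod_lt _ hp) (fun d hd hd' c => good_ne hg d hd hd' c) cells2 0 1
    cells2_chainCheck ?_
  rw [Nat.zero_mul, Nat.mul_one]
  rcases Nat.eq_zero_or_pos (n % p) with h | h
  · exact absurd (by rw [h]; ring) (good_ne hg 1 one_pos (by norm_num) 0)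
  · exact h

/-- `wtab2` is the weight of a cell containing n % p -/
theorem wtab2_eq {n p : ℕ} (hp : 0 < p) (hg : Good n p) :
    ∃ c ∈ cells2, c.1 * p < (n % p) * c.2.1 ∧ (n % p) * c.2.2.2.1 < c.2.2.1 * p ∧
      wtab2 (n % p) p = c.2.2.2.2 := by
  obtain ⟨c, hc, h1, h2⟩ := cells2_cover hp hg
  unfold wtab2
  rcases hf : cells2.find? (fun c => decide (c.1 * p < n % p * c.2.1 ∧
    n % p * c.2.2.2.1 < c.2.2.1 * p)) with _ | c'
  · have h3 := List.find?_eq_none.1 hf c hc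
    simp only [decide_eq_true_eq] at h3
    exact absurd ⟨h1, h2⟩ h3
  · have h3 := List.find?_some hf
    simp only [decide_eq_true_eq] at h3
    refine ⟨c', List.mem_of_find?_eq_some hf, h3.1, h3.2, ?_⟩
    rw [hf, Option.map_some, Option.getD_some]

end Pool.Agent.Z3
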