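import Pool.Agent.Z3.Cells2

/-!
The exponents of the common denominator with the weights of the second order cancellation.
-/

open Finset

namespace Pool.Agent.Z3

open Classical in
/-- the exponent of p in the common denominator -/
noncomputable def ex2 (n p : ℕ) : ℕ :=
  if p ^ 2 ≤ 40 * n + 2 ∨ ¬ Good n p then 3 * Nat.log p (40 * n + 2)
  else if 25 * n + 1 < p then 0
  else if 23 * n + 1 < p then 1
  else if 21 * n + 1 < p then 2
  else wtab2 (n % p) p

/-- the common denominator -/
noncomputable def Dn2 (n : ℕ) : ℕ := ∏ p ∈ (range (40 * n + 3)).filter Nat.Prime, p ^ ex2 n p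

end Pool.Agent.Z3
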