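import Pool.Agent.Z3.Defs

open Finset Filter Topology Complex
open scoped BigOperators

namespace Pool.Agent.Z3

/-- antiderivative in u of (1/2) log (u^2+y^2) -/
noncomputable def Hf (u y : ℝ) : ℝ :=
  u / 2 * Real.log (u ^ 2 + y ^ 2) - u + y * Real.arctan (u / y)

theorem Hf_zero (y : ℝ) : Hf 0 y = 0 := by simp [Hf]

theorem Hf_hasDerivAt (u y : ℝ) (hu : 0 < u) :
    HasDerivAt (fun u => Hf u y) ((1 / 2 : ℝ) * Real.log (u ^ 2 + y ^ 2)) u := by
  have hpos : 0 < u ^ 2 + y ^ 2 := by positivity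
  have h1 : HasDerivAt (fun u : ℝ => u ^ 2 + y ^ 2) (2 * u) u := by
    simpa using (hasDerivAt_pow 2 u).add_const (y ^ 2)
  have h2 := h1.log hpos.ne'
  have h3 : HasDerivAt (fun u : ℝ => u / 2) (1 / 2) u := (hasDerivAt_id u).div_const 2
  have h4 := h3.mul h2
  have h5 : HasDerivAt (fun u : ℝ => u / y) (1 / y) u := (hasDerivAt_id u).div_const y
  have h6 := (h5.arctan).const_mul y
  have h7 := (h4.sub (hasDerivAt_id u)).add h6
  have h8 : (fun u => Hf u y) = fun u : ℝ => u / 2 * Real.log (u ^ 2 + y ^ 2) - u +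
      y * Real.arctan (u / y) := by
    funext v; rfl
  rw [h8]
  refine h7.congr_deriv ?_
  rcases eq_or_ne y 0 with hy | hy
  · subst hy
    have hu' : u ≠ 0 := hu.ne'
    simp
    field_simp
    ring
  · have e : 1 + (u / y) ^ 2 ≠ 0 := by positivity
    have e2 : u ^ 2 + y ^ 2 ≠ 0 := hpos.ne'
    have e3 : y ^ 2 + u ^ 2 ≠ 0 := by positivity
    field_simp
    ring

theorem Hf_mvt (a y : ℝ) (ha : 0 < a) :
    (1 / 2 : ℝ) * Real.log (a ^ 2 + y ^ 2) ≤ Hf (a + 1) y - Hf a y ∧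
      Hf (a + 1) y - Hf a y ≤ (1 / 2 : ℝ) * Real.log ((a + 1) ^ 2 + y ^ 2) := by
  obtain ⟨c, hc, hc2⟩ := exists_hasDerivAt_eq_slope (fun u => Hf u y)
    (fun u => (1 / 2 : ℝ) * Real.log (u ^ 2 + y ^ 2)) (show a < a + 1 by linarith)
    (fun x hx => (Hf_hasDerivAt x y (lt_of_lt_of_le ha hx.1)).continuousAt.continuousWithinAt)
    (fun x hx => Hf_hasDerivAt x y (lt_trans ha hx.1))
  have h1 : Hf (a + 1) y - Hf a y = (1 / 2 : ℝ) * Real.log (c ^ 2 + y ^ 2) := by
    rw [hc2]; field_simp; ring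
  have h2 : Real.log (a ^ 2 + y ^ 2) ≤ Real.log (c ^ 2 + y ^ 2) :=
    Real.log_le_log (by positivity) (by nlinarith [hc.1])
  have h3 : Real.log (c ^ 2 + y ^ 2) ≤ Real.log ((a + 1) ^ 2 + y ^ 2) :=
    Real.log_le_log (by have := ha.trans hc.1; positivity) (by nlinarith [hc.1, hc.2])
  rw [h1]
  constructor <;> linarith

/-- log increments -/
theorem LS_incr (s : ℝ) (hs : 0 < s) : 1 / (s + 1) ≤ Real.log (s + 1) - Real.log s := by
  have h := Real.one_sub_inv_le_log_of_pos (x := (s + 1) / s) (by positivity)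
  rw [Real.log_div (by positivity) hs.ne'] at h
  have h3 : 1 - ((s + 1) / s)⁻¹ = 1 / (s + 1) := by
    rw [inv_div]; field_simp; ring
  linarith

theorem LS_diff (x w : ℝ) (hx : 0 < x) (hxw : x ≤ w) : Real.log w - Real.log x ≤ (w - x) / x := by
  have hw : 0 < w := by linarith
  have h := Real.log_le_sub_one_of_pos (x := w / x) (by positivity)
  rw [Real.log_div hw.ne' hx.ne'] at h
  have : w / x - 1 = (w - x) / x := by field_simp
  linarith

theorem LS_one (y : ℝ) (hy : 0 ≤ y) : -1 ≤ Hf 1 y := by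
  unfold Hf
  have a1 : 0 ≤ (1 / 2 : ℝ) * Real.log (1 ^ 2 + y ^ 2) :=
    mul_nonneg (by norm_num) (Real.log_nonneg (by nlinarith))
  have a2 : 0 ≤ y * Real.arctan (1 / y) := mul_nonneg hy (Real.arctan_nonneg.2 (by positivity))
  generalize Real.log (1 ^ 2 + y ^ 2) = A at a1 ⊢
  generalize y * Real.arctan (1 / y) = B at a2 ⊢
  linarith

theorem LS_S (y : ℝ) (hy : 0 ≤ y) (p : ℕ) (hp : 1 ≤ p) :
    ∑ k ∈ range p, (1 / 2 : ℝ) * Real.log (((k : ℝ) + 3 / 2) ^ 2 + y ^ 2) ≤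
      Hf p y + 40 * Real.log (p + y + 2) := by
  induction p, hp using Nat.le_induction with
  | base =>
    rw [Finset.sum_range_one]
    have h1 : -1 ≤ Hf 1 y := LS_one y hy
    have h2 : (1 / 2 : ℝ) * Real.log ((((0 : ℕ) : ℝ) + 3 / 2) ^ 2 + y ^ 2) ≤ Real.log (1 + y + 2) := by
      have : Real.log ((((0 : ℕ) : ℝ) + 3 / 2) ^ 2 + y ^ 2) ≤ Real.log ((1 + y + 2) ^ 2) :=
        Real.log_le_log (by positivity) (by push_cast; nlinarith)
      rw [Real.log_pow] at this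
      push_cast at this ⊢
      linarith
    have h3 : 1 ≤ Real.log (1 + y + 2) := by
      rw [Real.le_log_iff_exp_le (by linarith)]
      have := Real.exp_one_lt_d9
      linarith
    push_cast at h2 ⊢
    linarith
  | succ p hp ih =>
    rw [Finset.sum_range_succ]
    have hp' : (1 : ℝ) ≤ p := by exact_mod_cast hp
    have h1 := (Hf_mvt p y (by linarith)).1
    have h2 := LS_incr ((p : ℝ) + y + 2) (by linarith)
    have h3 := LS_diff ((p : ℝ) ^ 2 + y ^ 2) (((p : ℝ) + 3 / 2) ^ 2 + y ^ 2) (by positivity)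
      (by nlinarith)
    have h4 : (((p : ℝ) + 3 / 2) ^ 2 + y ^ 2 - ((p : ℝ) ^ 2 + y ^ 2)) / ((p : ℝ) ^ 2 + y ^ 2) ≤
        80 * (1 / ((p : ℝ) + y + 2 + 1)) := by
      rw [mul_one_div, div_le_div_iff₀ (by positivity) (by positivity)]
      nlinarith [mul_nonneg (sub_nonneg.2 hp') hy, sq_nonneg (y - p), mul_nonneg (sub_nonneg.2 hp') (sub_nonneg.2 hp')]
    push_cast
    have e : (p : ℝ) + 1 + y + 2 = (p : ℝ) + y + 2 + 1 := by ring
    rw [e]
    linarith

theorem LS_T (y : ℝ) (hy : 0 ≤ y) (q : ℕ) (hq : 1 ≤ q) :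
    ∑ l ∈ range q, (1 / 2 : ℝ) * Real.log (((l : ℝ) - 1 / 2) ^ 2 + y ^ 2) ≤
      Hf q y + 40 * Real.log (q + y + 2) := by
  induction q, hq using Nat.le_induction with
  | base =>
    rw [Finset.sum_range_one]
    have h1 : -1 ≤ Hf 1 y := LS_one y hy
    have h2 : (1 / 2 : ℝ) * Real.log ((((0 : ℕ) : ℝ) - 1 / 2) ^ 2 + y ^ 2) ≤ Real.log (1 + y + 2) := by
      have : Real.log ((((0 : ℕ) : ℝ) - 1 / 2) ^ 2 + y ^ 2) ≤ Real.log ((1 + y + 2) ^ 2) :=
        Real.log_le_log (by push_cast; nlinarith) (by push_cast; nlinarith)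
      rw [Real.log_pow] at this
      push_cast at this ⊢
      linarith
    have h3 : 1 ≤ Real.log (1 + y + 2) := by
      rw [Real.le_log_iff_exp_le (by linarith)]
      have := Real.exp_one_lt_d9
      linarith
    push_cast at h2 ⊢
    linarith
  | succ q hq ih =>
    rw [Finset.sum_range_succ]
    have hq' : (1 : ℝ) ≤ q := by exact_mod_cast hq
    have h1 := (Hf_mvt q y (by linarith)).1
    have h2 : Real.log (((q : ℝ) - 1 / 2) ^ 2 + y ^ 2) ≤ Real.log ((q : ℝ) ^ 2 + y ^ 2) :=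
      Real.log_le_log (by have : 0 < (q : ℝ) - 1 / 2 := by linarith
                          positivity) (by nlinarith)
    have h3 : Real.log ((q : ℝ) + y + 2) ≤ Real.log ((q : ℝ) + 1 + y + 2) :=
      Real.log_le_log (by positivity) (by linarith)
    push_cast
    linarith

theorem logsum_upper : ∃ C : ℝ, ∀ (p q : ℕ) (y : ℝ), 0 ≤ y →
    ∑ i ∈ range (p + q), (1 / 2 : ℝ) * Real.log (((i : ℝ) - p - 1 / 2) ^ 2 + y ^ 2) ≤
      Hf p y + Hf q y + C * Real.log (p + q + y + 2) := by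
  refine ⟨80, fun p q y hy => ?_⟩
  have hS : ∑ k ∈ range p, (1 / 2 : ℝ) * Real.log (((k : ℝ) + 3 / 2) ^ 2 + y ^ 2) ≤
      Hf p y + 40 * Real.log (p + q + y + 2) := by
    rcases Nat.eq_zero_or_pos p with hp | hp
    · subst hp
      have : 0 ≤ Real.log (((0 : ℕ) : ℝ) + q + y + 2) := Real.log_nonneg (by
        have : (0 : ℝ) ≤ q := Nat.cast_nonneg q
        push_cast; linarith)
      simp only [range_zero, sum_empty, Nat.cast_zero, Hf_zero] at this ⊢
      linarith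
    · refine (LS_S y hy p hp).trans ?_
      have : Real.log ((p : ℝ) + y + 2) ≤ Real.log ((p : ℝ) + q + y + 2) :=
        Real.log_le_log (by positivity) (by have : (0 : ℝ) ≤ q := Nat.cast_nonneg q
                                            linarith)
      linarith
  have hT : ∑ l ∈ range q, (1 / 2 : ℝ) * Real.log (((l : ℝ) - 1 / 2) ^ 2 + y ^ 2) ≤
      Hf q y + 40 * Real.log (p + q + y + 2) := by
    rcases Nat.eq_zero_or_pos q with hq | hq
    · subst hq
      have : 0 ≤ Real.log ((p : ℝ) + ((0 : ℕ) : ℝ) + y + 2) := Real.log_nonneg (by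
        have : (0 : ℝ) ≤ p := Nat.cast_nonneg p
        push_cast; linarith)
      simp only [range_zero, sum_empty, Nat.cast_zero, Hf_zero] at this ⊢
      linarith
    · refine (LS_T y hy q hq).trans ?_
      have : Real.log ((q : ℝ) + y + 2) ≤ Real.log ((p : ℝ) + q + y + 2) :=
        Real.log_le_log (by positivity) (by have : (0 : ℝ) ≤ p := Nat.cast_nonneg p
                                            linarith)
      linarith
  rw [Finset.sum_range_add]
  have e1 : ∑ x ∈ range p, (1 / 2 : ℝ) * Real.log (((x : ℝ) - p - 1 / 2) ^ 2 + y ^ 2) =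
      ∑ k ∈ range p, (1 / 2 : ℝ) * Real.log (((k : ℝ) + 3 / 2) ^ 2 + y ^ 2) := by
    rw [← Finset.sum_range_reflect]
    refine Finset.sum_congr rfl fun k hk => ?_
    have hk' := Finset.mem_range.1 hk
    have : ((p - 1 - k : ℕ) : ℝ) = (p : ℝ) - 1 - k := by
      rw [Nat.cast_sub (by omega), Nat.cast_sub (by omega)]; push_cast; ring
    rw [this]
    congr 2
    ring
  have e2 : ∑ x ∈ range q, (1 / 2 : ℝ) * Real.log ((((p + x : ℕ) : ℝ) - p - 1 / 2) ^ 2 + y ^ 2) =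
      ∑ l ∈ range q, (1 / 2 : ℝ) * Real.log (((l : ℝ) - 1 / 2) ^ 2 + y ^ 2) := by
    refine Finset.sum_congr rfl fun k _ => ?_
    push_cast
    congr 2
    ring
  rw [e1, e2]
  linarith

theorem logsum_lower : ∃ C : ℝ, ∀ (p q : ℕ) (y : ℝ), 0 ≤ y → 1 ≤ p → p ≤ q →
    Hf q y - Hf p y - C * Real.log (q + y + 2) ≤
      ∑ i ∈ Ico p q, (1 / 2 : ℝ) * Real.log (((i : ℝ) - 1 / 2) ^ 2 + y ^ 2) := by
  refine ⟨40, fun p q y hy hp hpq => ?_⟩
  induction q, hpq using Nat.le_induction with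
  | base =>
    have : 0 ≤ Real.log ((p : ℝ) + y + 2) := Real.log_nonneg (by
      have : (0 : ℝ) ≤ p := Nat.cast_nonneg p
      linarith)
    simp only [Ico_self, sum_empty]
    linarith
  | succ q hq ih =>
    rw [Finset.sum_Ico_succ_top hq]
    have hq' : (1 : ℝ) ≤ q := by exact_mod_cast (le_trans hp hq)
    have h1 := (Hf_mvt q y (by linarith)).2
    have h2 := LS_incr ((q : ℝ) + y + 2) (by linarith)
    have hq2 : 0 < (q : ℝ) - 1 / 2 := by linarith
    have h3 := LS_diff (((q : ℝ) - 1 / 2) ^ 2 + y ^ 2) (((q : ℝ) + 1) ^ 2 + y ^ 2) (by positivity)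
      (by nlinarith)
    have h4 : (((q : ℝ) + 1) ^ 2 + y ^ 2 - (((q : ℝ) - 1 / 2) ^ 2 + y ^ 2)) /
        (((q : ℝ) - 1 / 2) ^ 2 + y ^ 2) ≤ 80 * (1 / ((q : ℝ) + y + 2 + 1)) := by
      rw [mul_one_div, div_le_div_iff₀ (by positivity) (by positivity)]
      nlinarith [mul_nonneg (sub_nonneg.2 hq') hy, sq_nonneg (y - q), mul_nonneg (sub_nonneg.2 hq') (sub_nonneg.2 hq')]
    push_cast
    have e : (q : ℝ) + 1 + y + 2 = (q : ℝ) + y + 2 + 1 := by ring
    rw [e]
    linarith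

end Pool.Agent.Z3
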