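import Pool.Agent.Z3.LogSum

/-!
The function Psi governing the size of the linear forms: concavity and explicit tangent lines.
-/

open Finset Filter Topology

namespace Pool.Agent.Z3

noncomputable def Psi (y : ℝ) : ℝ :=
  (84 * Real.log 84 + 72 * Real.log 72 - 68 * Real.log 68 - 52 * Real.log 52 - 36 * Real.log 36) +
  (Hf 25 y + Hf 43 y + Hf 17 y + Hf 35 y + Hf 9 y + Hf 27 y) -
  (Hf 135 y - Hf 51 y + Hf 127 y - Hf 55 y) - 2 * Real.pi * y

namespace PsiAux

/-- log bounds by comparing two numbers -/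
theorem log_ub (n m : ℝ) (hm : 0 < m) (hn : m ≤ n) (N : ℕ) :
    Real.log n ≤ Real.log m + 2 * ((∑ i ∈ range N, ((n - m) / (n + m)) ^ (2 * i + 1) / (2 * i + 1)) +
      ((n - m) / (n + m)) ^ (2 * N + 1) / (1 - ((n - m) / (n + m)) ^ 2)) := by
  have hs : 0 < n + m := by linarith
  have h0 : 0 ≤ (n - m) / (n + m) := div_nonneg (by linarith) hs.le
  have h1 : (n - m) / (n + m) < 1 := by rw [div_lt_one hs]; linarith
  have h := Real.log_div_le_sum_range_add h0 h1 N
  have e : (1 + (n - m) / (n + m)) / (1 - (n - m) / (n + m)) = n / m := by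
    have e1 : 1 + (n - m) / (n + m) = 2 * n / (n + m) := by field_simp; ring
    have e2 : 1 - (n - m) / (n + m) = 2 * m / (n + m) := by field_simp; ring
    rw [e1, e2]
    field_simp
  rw [e, Real.log_div (by linarith) hm.ne'] at h
  linarith

theorem log_lb (n m : ℝ) (hm : 0 < m) (hn : m ≤ n) (N : ℕ) :
    Real.log m + 2 * (∑ i ∈ range N, ((n - m) / (n + m)) ^ (2 * i + 1) / (2 * i + 1)) ≤ Real.log n := by
  have hs : 0 < n + m := by linarith
  have h0 : 0 ≤ (n - m) / (n + m) := div_nonneg (by linarith) hs.le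
  have h1 : (n - m) / (n + m) < 1 := by rw [div_lt_one hs]; linarith
  have h := Real.sum_range_le_log_div h0 h1 N
  have e : (1 + (n - m) / (n + m)) / (1 - (n - m) / (n + m)) = n / m := by
    have e1 : 1 + (n - m) / (n + m) = 2 * n / (n + m) := by field_simp; ring
    have e2 : 1 - (n - m) / (n + m) = 2 * m / (n + m) := by field_simp; ring
    rw [e1, e2]
    field_simp
  rw [e, Real.log_div (by linarith) hm.ne'] at h
  linarith

theorem hasDerivAt_Hf (u y : ℝ) (hu : 0 < u) (hy : 0 < y) :
    HasDerivAt (fun y => Hf u y) (Real.arctan (u / y)) y := by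
  unfold Hf
  have h1 : HasDerivAt (fun y : ℝ => u ^ 2 + y ^ 2) (2 * y) y := by
    have := (hasDerivAt_pow 2 y).const_add (u ^ 2)
    simpa using this
  have hpos : 0 < u ^ 2 + y ^ 2 := by positivity
  have h2 := (h1.log hpos.ne').const_mul (u / 2)
  have h3 : HasDerivAt (fun y : ℝ => u / y) (-(u / y ^ 2)) y := by
    simpa [div_eq_mul_inv] using (hasDerivAt_inv hy.ne').const_mul u
  have h4 := h3.arctan
  have h5 := (hasDerivAt_id' y).fun_mul h4
  have h6 := (h2.sub_const u).fun_add h5
  refine h6.congr_deriv ?_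
  field_simp
  ring

theorem continuous_Hf (u : ℝ) (hu : 0 < u) : ContinuousOn (fun y => Hf u y) (Set.Ici 0) := by
  intro y hy
  rcases eq_or_lt_of_le (show (0:ℝ) ≤ y from hy) with h | h
  · subst h
    unfold Hf
    have h1 : ContinuousAt (fun y : ℝ => u / 2 * Real.log (u ^ 2 + y ^ 2) - u) 0 := by
      have : ContinuousAt (fun y : ℝ => Real.log (u ^ 2 + y ^ 2)) 0 := by
        apply ContinuousAt.log
        · fun_prop
        · positivity
      fun_prop
    have h2 : ContinuousAt (fun y : ℝ => y * Real.arctan (u / y)) 0 := by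
      unfold ContinuousAt
      simp only [zero_mul]
      apply squeeze_zero_norm (a := fun y : ℝ => |y| * (Real.pi / 2))
      · intro y
        rw [Real.norm_eq_abs, abs_mul]
        apply mul_le_mul_of_nonneg_left _ (abs_nonneg y)
        rw [abs_le]
        exact ⟨(Real.neg_pi_div_two_lt_arctan _).le, (Real.arctan_lt_pi_div_two _).le⟩
      · have : Continuous (fun y : ℝ => |y| * (Real.pi / 2)) := by fun_prop
        have := this.tendsto 0
        simpa using this
    exact (h1.add h2).continuousWithinAt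
  · exact (hasDerivAt_Hf u y hu h).continuousAt.continuousWithinAt

/-- the derivative -/
noncomputable def D (y : ℝ) : ℝ :=
  (Real.arctan (25 / y) + Real.arctan (43 / y) + Real.arctan (17 / y) + Real.arctan (35 / y) +
    Real.arctan (9 / y) + Real.arctan (27 / y)) -
  (Real.arctan (135 / y) - Real.arctan (51 / y) + Real.arctan (127 / y) - Real.arctan (55 / y)) -
    2 * Real.pi

theorem hasDerivAt_Psi (y : ℝ) (hy : 0 < y) : HasDerivAt Psi (D y) y := by
  unfold Psi D
  have h (u : ℝ) (hu : 0 < u) := hasDerivAt_Hf u y hu hy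
  have h1 := ((((((h 25 (by norm_num)).fun_add (h 43 (by norm_num))).fun_add
    (h 17 (by norm_num))).fun_add (h 35 (by norm_num))).fun_add (h 9 (by norm_num))).fun_add
    (h 27 (by norm_num)))
  have h2 := ((((h 135 (by norm_num)).fun_sub (h 51 (by norm_num))).fun_add
    (h 127 (by norm_num))).fun_sub (h 55 (by norm_num)))
  have h3 := (hasDerivAt_id' y).const_mul (2 * Real.pi)
  have h4 := ((h1.const_add (84 * Real.log 84 + 72 * Real.log 72 - 68 * Real.log 68 -
    52 * Real.log 52 - 36 * Real.log 36)).fun_sub h2).fun_sub h3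
  exact h4.congr_deriv (by ring)

theorem continuousOn_Psi : ContinuousOn Psi (Set.Ici 0) := by
  unfold Psi
  have h (u : ℝ) (hu : 0 < u) := continuous_Hf u hu
  have h1 := ((((((h 25 (by norm_num)).add (h 43 (by norm_num))).add (h 17 (by norm_num))).add
    (h 35 (by norm_num))).add (h 9 (by norm_num))).add (h 27 (by norm_num)))
  have h2 := ((((h 135 (by norm_num)).sub (h 51 (by norm_num))).add (h 127 (by norm_num))).sub
    (h 55 (by norm_num)))
  have h3 : ContinuousOn (fun y : ℝ => 2 * Real.pi * y) (Set.Ici 0) := by fun_prop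
  have h0 : ContinuousOn (fun _ : ℝ => 84 * Real.log 84 + 72 * Real.log 72 - 68 * Real.log 68 -
    52 * Real.log 52 - 36 * Real.log 36) (Set.Ici 0) := continuousOn_const
  exact ((h0.add h1).sub h2).sub h3

theorem hasDerivAt_arctan_div (u y : ℝ) (hy : 0 < y) :
    HasDerivAt (fun y => Real.arctan (u / y)) (-(u / (u ^ 2 + y ^ 2))) y := by
  have h3 : HasDerivAt (fun y : ℝ => u / y) (-(u / y ^ 2)) y := by
    simpa [div_eq_mul_inv] using (hasDerivAt_inv hy.ne').const_mul u
  have h4 := h3.arctan
  have hpos : 0 < u ^ 2 + y ^ 2 := by positivity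
  refine h4.congr_deriv ?_
  field_simp
  try ring

theorem D_antitone : AntitoneOn D (Set.Ioi 0) := by
  have hder : ∀ y : ℝ, 0 < y → HasDerivAt D
      ((-(25 / (25 ^ 2 + y ^ 2)) + -(43 / (43 ^ 2 + y ^ 2)) + -(17 / (17 ^ 2 + y ^ 2)) +
        -(35 / (35 ^ 2 + y ^ 2)) + -(9 / (9 ^ 2 + y ^ 2)) + -(27 / (27 ^ 2 + y ^ 2))) -
       (-(135 / (135 ^ 2 + y ^ 2)) - -(51 / (51 ^ 2 + y ^ 2)) + -(127 / (127 ^ 2 + y ^ 2)) -
        -(55 / (55 ^ 2 + y ^ 2))) - 0) y := by
    intro y hy
    unfold D
    have h (u : ℝ) := hasDerivAt_arctan_div u y hy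
    exact (((((((h 25).fun_add (h 43)).fun_add (h 17)).fun_add (h 35)).fun_add (h 9)).fun_add
      (h 27)).fun_sub ((((h 135).fun_sub (h 51)).fun_add (h 127)).fun_sub (h 55))).fun_sub
      (hasDerivAt_const y _)
  apply antitoneOn_of_deriv_nonpos (convex_Ioi 0)
  · intro y hy
    exact (hder y hy).continuousAt.continuousWithinAt
  · intro y hy
    rw [interior_Ioi] at hy
    exact (hder y hy).differentiableAt.differentiableWithinAt
  · intro y hy
    rw [interior_Ioi] at hy
    have hy' : 0 < y := hy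
    rw [(hder y hy').deriv]
    have key (u : ℝ) (hu : 0 ≤ u) (hu2 : u ≤ 55) : u / (55 ^ 2 + y ^ 2) ≤ u / (u ^ 2 + y ^ 2) := by
      rcases eq_or_lt_of_le hu with h | h
      · subst h; simp
      · apply div_le_div_of_nonneg_left hu (by positivity)
        have : u ^ 2 ≤ 55 ^ 2 := pow_le_pow_left₀ hu hu2 2
        linarith
    have key2 (u : ℝ) (hu : 0 ≤ u) (hu2 : 55 ≤ u) : u / (u ^ 2 + y ^ 2) ≤ u / (55 ^ 2 + y ^ 2) := by
      apply div_le_div_of_nonneg_left hu (by positivity)
      have : (55:ℝ) ^ 2 ≤ u ^ 2 := pow_le_pow_left₀ (by norm_num) hu2 2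
      linarith
    have a1 := key 25 (by norm_num) (by norm_num)
    have a2 := key 43 (by norm_num) (by norm_num)
    have a3 := key 17 (by norm_num) (by norm_num)
    have a4 := key 35 (by norm_num) (by norm_num)
    have a5 := key 9 (by norm_num) (by norm_num)
    have a6 := key 27 (by norm_num) (by norm_num)
    have a7 := key 51 (by norm_num) (by norm_num)
    have a8 := key 55 (by norm_num) (by norm_num)
    have b1 := key2 135 (by norm_num) (by norm_num)
    have b2 := key2 127 (by norm_num) (by norm_num)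
    have e : (135:ℝ) / (55 ^ 2 + y ^ 2) + 127 / (55 ^ 2 + y ^ 2) =
      25 / (55 ^ 2 + y ^ 2) + 43 / (55 ^ 2 + y ^ 2) + 17 / (55 ^ 2 + y ^ 2) +
      35 / (55 ^ 2 + y ^ 2) + 9 / (55 ^ 2 + y ^ 2) + 27 / (55 ^ 2 + y ^ 2) +
      51 / (55 ^ 2 + y ^ 2) + 55 / (55 ^ 2 + y ^ 2) := by ring
    linarith

/-- tangent line inequality -/
theorem tangent (y0 : ℝ) (hy0 : 0 < y0) (y : ℝ) (hy : 0 ≤ y) :
    Psi y ≤ Psi y0 + D y0 * (y - y0) := by
  have hd : ∀ z : ℝ, 0 < z → HasDerivAt (fun z => Psi z - D y0 * (z - y0)) (D z - D y0) z := by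
    intro z hz
    have := (hasDerivAt_Psi z hz).fun_sub (((hasDerivAt_id' z).sub_const y0).const_mul (D y0))
    exact this.congr_deriv (by ring)
  have hc : ContinuousOn (fun z => Psi z - D y0 * (z - y0)) (Set.Ici 0) := by
    apply continuousOn_Psi.sub
    fun_prop
  rcases le_total y y0 with h | h
  · have hm : MonotoneOn (fun z => Psi z - D y0 * (z - y0)) (Set.Icc 0 y0) := by
      apply monotoneOn_of_deriv_nonneg (convex_Icc 0 y0)
      · exact hc.mono Set.Icc_subset_Ici_self
      · intro z hz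
        rw [interior_Icc] at hz
        exact (hd z hz.1).differentiableAt.differentiableWithinAt
      · intro z hz
        rw [interior_Icc] at hz
        rw [(hd z hz.1).deriv]
        have := D_antitone (show z ∈ Set.Ioi 0 from hz.1) (show y0 ∈ Set.Ioi 0 from hy0) hz.2.le
        linarith
    have := hm ⟨hy, h⟩ ⟨hy0.le, le_rfl⟩ h
    simp only [sub_self, mul_zero, sub_zero] at this
    linarith
  · have hm : AntitoneOn (fun z => Psi z - D y0 * (z - y0)) (Set.Ici y0) := by
      apply antitoneOn_of_deriv_nonpos (convex_Ici y0)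
      · exact hc.mono (Set.Ici_subset_Ici.mpr hy0.le)
      · intro z hz
        rw [interior_Ici] at hz
        exact (hd z (hy0.trans hz)).differentiableAt.differentiableWithinAt
      · intro z hz
        rw [interior_Ici] at hz
        rw [(hd z (hy0.trans hz)).deriv]
        have := D_antitone (show y0 ∈ Set.Ioi 0 from hy0) (show z ∈ Set.Ioi 0 from hy0.trans hz) (le_of_lt hz)
        linarith
    have := hm (Set.mem_Ici.mpr le_rfl) (Set.mem_Ici.mpr h) h
    simp only [sub_self, mul_zero, sub_zero] at this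
    linarith

theorem lb3 : (1.098611 : ℝ) ≤ Real.log 3 := by
  have h := log_ub 4 3 (by norm_num) (by norm_num) 5
  have e : Real.log 4 = 2 * Real.log 2 := by
    rw [show (4 : ℝ) = 2 ^ 2 by norm_num, Real.log_pow]; norm_num
  rw [e] at h
  have h1 := Real.log_two_gt_d9
  norm_num [Finset.sum_range_succ] at h
  linarith

theorem ub3 : Real.log 3 ≤ (1.098614 : ℝ) := by
  have h := log_lb 4 3 (by norm_num) (by norm_num) 5
  have e : Real.log 4 = 2 * Real.log 2 := by
    rw [show (4 : ℝ) = 2 ^ 2 by norm_num, Real.log_pow]; norm_num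
  rw [e] at h
  have h1 := Real.log_two_lt_d9
  norm_num [Finset.sum_range_succ] at h
  linarith

theorem lb5 : (1.609436 : ℝ) ≤ Real.log 5 := by
  have h := log_lb 5 4 (by norm_num) (by norm_num) 5
  have e : Real.log 4 = 2 * Real.log 2 := by
    rw [show (4 : ℝ) = 2 ^ 2 by norm_num, Real.log_pow]; norm_num
  rw [e] at h
  have h1 := Real.log_two_gt_d9
  norm_num [Finset.sum_range_succ] at h
  linarith

theorem ub5 : Real.log 5 ≤ (1.609439 : ℝ) := by
  have h := log_ub 5 4 (by norm_num) (by norm_num) 5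
  have e : Real.log 4 = 2 * Real.log 2 := by
    rw [show (4 : ℝ) = 2 ^ 2 by norm_num, Real.log_pow]; norm_num
  rw [e] at h
  have h1 := Real.log_two_lt_d9
  norm_num [Finset.sum_range_succ] at h
  linarith

theorem lb7 : (1.945909 : ℝ) ≤ Real.log 7 := by
  have h := log_ub 8 7 (by norm_num) (by norm_num) 5
  have e : Real.log 8 = 3 * Real.log 2 := by
    rw [show (8 : ℝ) = 2 ^ 3 by norm_num, Real.log_pow]; norm_num
  rw [e] at h
  have h1 := Real.log_two_gt_d9
  norm_num [Finset.sum_range_succ] at h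
  linarith

theorem ub7 : Real.log 7 ≤ (1.945912 : ℝ) := by
  have h := log_lb 8 7 (by norm_num) (by norm_num) 5
  have e : Real.log 8 = 3 * Real.log 2 := by
    rw [show (8 : ℝ) = 2 ^ 3 by norm_num, Real.log_pow]; norm_num
  rw [e] at h
  have h1 := Real.log_two_lt_d9
  norm_num [Finset.sum_range_succ] at h
  linarith

theorem lb13 : (2.564948 : ℝ) ≤ Real.log 13 := by
  have h := log_ub 16 13 (by norm_num) (by norm_num) 5
  have e : Real.log 16 = 4 * Real.log 2 := by
    rw [show (16 : ℝ) = 2 ^ 4 by norm_num, Real.log_pow]; norm_num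
  rw [e] at h
  have h1 := Real.log_two_gt_d9
  norm_num [Finset.sum_range_succ] at h
  linarith

theorem ub13 : Real.log 13 ≤ (2.564951 : ℝ) := by
  have h := log_lb 16 13 (by norm_num) (by norm_num) 5
  have e : Real.log 16 = 4 * Real.log 2 := by
    rw [show (16 : ℝ) = 2 ^ 4 by norm_num, Real.log_pow]; norm_num
  rw [e] at h
  have h1 := Real.log_two_lt_d9
  norm_num [Finset.sum_range_succ] at h
  linarith

theorem lb17 : (2.833212 : ℝ) ≤ Real.log 17 := by
  have h := log_lb 17 16 (by norm_num) (by norm_num) 5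
  have e : Real.log 16 = 4 * Real.log 2 := by
    rw [show (16 : ℝ) = 2 ^ 4 by norm_num, Real.log_pow]; norm_num
  rw [e] at h
  have h1 := Real.log_two_gt_d9
  norm_num [Finset.sum_range_succ] at h
  linarith

theorem ub17 : Real.log 17 ≤ (2.833215 : ℝ) := by
  have h := log_ub 17 16 (by norm_num) (by norm_num) 5
  have e : Real.log 16 = 4 * Real.log 2 := by
    rw [show (16 : ℝ) = 2 ^ 4 by norm_num, Real.log_pow]; norm_num
  rw [e] at h
  have h1 := Real.log_two_lt_d9
  norm_num [Finset.sum_range_succ] at h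
  linarith

theorem lb29 : (3.367294 : ℝ) ≤ Real.log 29 := by
  have h := log_ub 32 29 (by norm_num) (by norm_num) 5
  have e : Real.log 32 = 5 * Real.log 2 := by
    rw [show (32 : ℝ) = 2 ^ 5 by norm_num, Real.log_pow]; norm_num
  rw [e] at h
  have h1 := Real.log_two_gt_d9
  norm_num [Finset.sum_range_succ] at h
  linarith

theorem ub29 : Real.log 29 ≤ (3.367297 : ℝ) := by
  have h := log_lb 32 29 (by norm_num) (by norm_num) 5
  have e : Real.log 32 = 5 * Real.log 2 := by
    rw [show (32 : ℝ) = 2 ^ 5 by norm_num, Real.log_pow]; norm_num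
  rw [e] at h
  have h1 := Real.log_two_lt_d9
  norm_num [Finset.sum_range_succ] at h
  linarith

theorem lb6781 : (8.821878 : ℝ) ≤ Real.log 6781 := by
  have h := log_ub 8192 6781 (by norm_num) (by norm_num) 5
  have e : Real.log 8192 = 13 * Real.log 2 := by
    rw [show (8192 : ℝ) = 2 ^ 13 by norm_num, Real.log_pow]; norm_num
  rw [e] at h
  have h1 := Real.log_two_gt_d9
  norm_num [Finset.sum_range_succ] at h
  linarith

theorem ub6781 : Real.log 6781 ≤ (8.821881 : ℝ) := by
  have h := log_lb 8192 6781 (by norm_num) (by norm_num) 5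
  have e : Real.log 8192 = 13 * Real.log 2 := by
    rw [show (8192 : ℝ) = 2 ^ 13 by norm_num, Real.log_pow]; norm_num
  rw [e] at h
  have h1 := Real.log_two_lt_d9
  norm_num [Finset.sum_range_succ] at h
  linarith

theorem lb17797 : (9.786784 : ℝ) ≤ Real.log 17797 := by
  have h := log_lb 17797 16384 (by norm_num) (by norm_num) 5
  have e : Real.log 16384 = 14 * Real.log 2 := by
    rw [show (16384 : ℝ) = 2 ^ 14 by norm_num, Real.log_pow]; norm_num
  rw [e] at h
  have h1 := Real.log_two_gt_d9
  norm_num [Finset.sum_range_succ] at h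
  linarith

theorem ub17797 : Real.log 17797 ≤ (9.786787 : ℝ) := by
  have h := log_ub 17797 16384 (by norm_num) (by norm_num) 5
  have e : Real.log 16384 = 14 * Real.log 2 := by
    rw [show (16384 : ℝ) = 2 ^ 14 by norm_num, Real.log_pow]; norm_num
  rw [e] at h
  have h1 := Real.log_two_lt_d9
  norm_num [Finset.sum_range_succ] at h
  linarith

theorem lb12181 : (9.407631 : ℝ) ≤ Real.log 12181 := by
  have h := log_ub 16384 12181 (by norm_num) (by norm_num) 5
  have e : Real.log 16384 = 14 * Real.log 2 := by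
    rw [show (16384 : ℝ) = 2 ^ 14 by norm_num, Real.log_pow]; norm_num
  rw [e] at h
  have h1 := Real.log_two_gt_d9
  norm_num [Finset.sum_range_succ] at h
  linarith

theorem ub12181 : Real.log 12181 ≤ (9.407634 : ℝ) := by
  have h := log_lb 16384 12181 (by norm_num) (by norm_num) 5
  have e : Real.log 16384 = 14 * Real.log 2 := by
    rw [show (16384 : ℝ) = 2 ^ 14 by norm_num, Real.log_pow]; norm_num
  rw [e] at h
  have h1 := Real.log_two_lt_d9
  norm_num [Finset.sum_range_succ] at h
  linarith

theorem lb7717 : (8.951179 : ℝ) ≤ Real.log 7717 := by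
  have h := log_ub 8192 7717 (by norm_num) (by norm_num) 5
  have e : Real.log 8192 = 13 * Real.log 2 := by
    rw [show (8192 : ℝ) = 2 ^ 13 by norm_num, Real.log_pow]; norm_num
  rw [e] at h
  have h1 := Real.log_two_gt_d9
  norm_num [Finset.sum_range_succ] at h
  linarith

theorem ub7717 : Real.log 7717 ≤ (8.951182 : ℝ) := by
  have h := log_lb 8192 7717 (by norm_num) (by norm_num) 5
  have e : Real.log 8192 = 13 * Real.log 2 := by
    rw [show (8192 : ℝ) = 2 ^ 13 by norm_num, Real.log_pow]; norm_num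
  rw [e] at h
  have h1 := Real.log_two_lt_d9
  norm_num [Finset.sum_range_succ] at h
  linarith

theorem lb165181 : (12.014796 : ℝ) ≤ Real.log 165181 := by
  have h := log_lb 165181 131072 (by norm_num) (by norm_num) 5
  have e : Real.log 131072 = 17 * Real.log 2 := by
    rw [show (131072 : ℝ) = 2 ^ 17 by norm_num, Real.log_pow]; norm_num
  rw [e] at h
  have h1 := Real.log_two_gt_d9
  norm_num [Finset.sum_range_succ] at h
  linarith

theorem ub165181 : Real.log 165181 ≤ (12.014799 : ℝ) := by
  have h := log_ub 165181 131072 (by norm_num) (by norm_num) 5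
  have e : Real.log 131072 = 17 * Real.log 2 := by
    rw [show (131072 : ℝ) = 2 ^ 17 by norm_num, Real.log_pow]; norm_num
  rw [e] at h
  have h1 := Real.log_two_lt_d9
  norm_num [Finset.sum_range_succ] at h
  linarith

theorem lb146317 : (11.893529 : ℝ) ≤ Real.log 146317 := by
  have h := log_lb 146317 131072 (by norm_num) (by norm_num) 5
  have e : Real.log 131072 = 17 * Real.log 2 := by
    rw [show (131072 : ℝ) = 2 ^ 17 by norm_num, Real.log_pow]; norm_num
  rw [e] at h
  have h1 := Real.log_two_gt_d9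
  norm_num [Finset.sum_range_succ] at h
  linarith

theorem ub146317 : Real.log 146317 ≤ (11.893532 : ℝ) := by
  have h := log_ub 146317 131072 (by norm_num) (by norm_num) 5
  have e : Real.log 131072 = 17 * Real.log 2 := by
    rw [show (131072 : ℝ) = 2 ^ 17 by norm_num, Real.log_pow]; norm_num
  rw [e] at h
  have h1 := Real.log_two_lt_d9
  norm_num [Finset.sum_range_succ] at h
  linarith

theorem lb28381 : (10.253474 : ℝ) ≤ Real.log 28381 := by
  have h := log_ub 32768 28381 (by norm_num) (by norm_num) 5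
  have e : Real.log 32768 = 15 * Real.log 2 := by
    rw [show (32768 : ℝ) = 2 ^ 15 by norm_num, Real.log_pow]; norm_num
  rw [e] at h
  have h1 := Real.log_two_gt_d9
  norm_num [Finset.sum_range_succ] at h
  linarith

theorem ub28381 : Real.log 28381 ≤ (10.253477 : ℝ) := by
  have h := log_lb 32768 28381 (by norm_num) (by norm_num) 5
  have e : Real.log 32768 = 15 * Real.log 2 := by
    rw [show (32768 : ℝ) = 2 ^ 15 by norm_num, Real.log_pow]; norm_num
  rw [e] at h
  have h1 := Real.log_two_lt_d9
  norm_num [Finset.sum_range_succ] at h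
  linarith

/-- reduction of the derivative to small arctangents -/
theorem D_eq (y : ℝ) (hy : 0 < y) :
    D y = Real.pi - (Real.arctan (y / 25) + Real.arctan (y / 43) + Real.arctan (y / 17) +
      Real.arctan (y / 35) + Real.arctan (y / 9) + Real.arctan (y / 27) + Real.arctan (y / 51) +
      Real.arctan (y / 55)) + (Real.arctan (y / 135) + Real.arctan (y / 127)) := by
  have h (u : ℝ) (hu : 0 < u) : Real.arctan (u / y) = Real.pi / 2 - Real.arctan (y / u) := by
    rw [← Real.arctan_inv_of_pos (div_pos hy hu), inv_div]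
  unfold D
  rw [h 25 (by norm_num), h 43 (by norm_num), h 17 (by norm_num), h 35 (by norm_num),
    h 9 (by norm_num), h 27 (by norm_num), h 135 (by norm_num), h 51 (by norm_num),
    h 127 (by norm_num), h 55 (by norm_num)]
  ring

theorem D_a : D (34 / 3) = Real.arctan (51974327569536/4764107414648225 : ℝ) := by
  rw [D_eq _ (by norm_num)]
  have g1 : Real.arctan (34/27 : ℝ) + Real.arctan (2/9 : ℝ) = Real.arctan (72/35 : ℝ) := by
    rw [Real.arctan_add (by norm_num)]; norm_num
  have g2 : Real.arctan (2/3 : ℝ) + Real.arctan (34/75 : ℝ) = Real.arctan (252/157 : ℝ) := by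
    rw [Real.arctan_add (by norm_num)]; norm_num
  have g3 : Real.arctan (252/157 : ℝ) + Real.arctan (34/129 : ℝ) = Real.arctan (37846/11685 : ℝ) := by
    rw [Real.arctan_add (by norm_num)]; norm_num
  have g4 : Real.arctan (72/35 : ℝ) + Real.arctan (37846/11685 : ℝ) = Real.arctan (-(166610/178149) : ℝ) + Real.pi := by
    rw [Real.arctan_add_eq_add_pi (by norm_num) (by norm_num)]; norm_num
  have g5 : Real.arctan (34/105 : ℝ) + Real.arctan (34/81 : ℝ) = Real.arctan (6324/7349 : ℝ) := by
    rw [Real.arctan_add (by norm_num)]; norm_num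
  have g6 : Real.arctan (6324/7349 : ℝ) + Real.arctan (34/165 : ℝ) = Real.arctan (1293326/997569 : ℝ) := by
    rw [Real.arctan_add (by norm_num)]; norm_num
  have g7 : Real.arctan (-(166610/178149) : ℝ) + Real.arctan (1293326/997569 : ℝ) = Real.arctan (4938443268/30245920357 : ℝ) := by
    rw [Real.arctan_add (by norm_num)]; norm_num
  have g8 : Real.arctan (34/405 : ℝ) + Real.arctan (34/381 : ℝ) = Real.arctan (26724/153149 : ℝ) := by
    rw [Real.arctan_add (by norm_num)]; norm_num
  have g9 : Real.arctan (4938443268/30245920357 : ℝ) + Real.arctan (-(26724/153149) : ℝ) = Real.arctan (-(51974327569536/4764107414648225) : ℝ) := by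
    rw [Real.arctan_add (by norm_num)]; norm_num
  rw [Real.arctan_neg] at g9
  rw [Real.arctan_neg] at g9
  have e25 : (34 / 3 / 25 : ℝ) = 34/75 := by norm_num
  have e43 : (34 / 3 / 43 : ℝ) = 34/129 := by norm_num
  have e17 : (34 / 3 / 17 : ℝ) = 2/3 := by norm_num
  have e35 : (34 / 3 / 35 : ℝ) = 34/105 := by norm_num
  have e9 : (34 / 3 / 9 : ℝ) = 34/27 := by norm_num
  have e27 : (34 / 3 / 27 : ℝ) = 34/81 := by norm_num
  have e51 : (34 / 3 / 51 : ℝ) = 2/9 := by norm_num
  have e55 : (34 / 3 / 55 : ℝ) = 34/165 := by norm_num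
  have e135 : (34 / 3 / 135 : ℝ) = 34/405 := by norm_num
  have e127 : (34 / 3 / 127 : ℝ) = 34/381 := by norm_num
  rw [e25, e43, e17, e35, e9, e27, e51, e55, e135, e127]
  linarith

theorem D_b : D 12 = - Real.arctan (6979095444224/52728258848573 : ℝ) := by
  rw [D_eq _ (by norm_num)]
  have g1 : Real.arctan (4/3 : ℝ) + Real.arctan (4/17 : ℝ) = Real.arctan (16/7 : ℝ) := by
    rw [Real.arctan_add (by norm_num)]; norm_num
  have g2 : Real.arctan (12/17 : ℝ) + Real.arctan (12/25 : ℝ) = Real.arctan (504/281 : ℝ) := by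
    rw [Real.arctan_add (by norm_num)]; norm_num
  have g3 : Real.arctan (504/281 : ℝ) + Real.arctan (12/43 : ℝ) = Real.arctan (25044/6035 : ℝ) := by
    rw [Real.arctan_add (by norm_num)]; norm_num
  have g4 : Real.arctan (16/7 : ℝ) + Real.arctan (25044/6035 : ℝ) = Real.arctan (-(271868/358459) : ℝ) + Real.pi := by
    rw [Real.arctan_add_eq_add_pi (by norm_num) (by norm_num)]; norm_num
  have g5 : Real.arctan (12/35 : ℝ) + Real.arctan (4/9 : ℝ) = Real.arctan (248/267 : ℝ) := by
    rw [Real.arctan_add (by norm_num)]; norm_num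
  have g6 : Real.arctan (248/267 : ℝ) + Real.arctan (12/55 : ℝ) = Real.arctan (16844/11709 : ℝ) := by
    rw [Real.arctan_add (by norm_num)]; norm_num
  have g7 : Real.arctan (-(271868/358459) : ℝ) + Real.arctan (16844/11709 : ℝ) = Real.arctan (2854580984/8776541023 : ℝ) := by
    rw [Real.arctan_add (by norm_num)]; norm_num
  have g8 : Real.arctan (4/45 : ℝ) + Real.arctan (12/127 : ℝ) = Real.arctan (1048/5667 : ℝ) := by
    rw [Real.arctan_add (by norm_num)]; norm_num
  have g9 : Real.arctan (2854580984/8776541023 : ℝ) + Real.arctan (-(1048/5667) : ℝ) = Real.arctan (6979095444224/52728258848573 : ℝ) := by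
    rw [Real.arctan_add (by norm_num)]; norm_num
  rw [Real.arctan_neg] at g9
  have e25 : (12 / 25 : ℝ) = 12/25 := by norm_num
  have e17 : (12 / 17 : ℝ) = 12/17 := by norm_num
  have e9 : (12 / 9 : ℝ) = 4/3 := by norm_num
  have e27 : (12 / 27 : ℝ) = 4/9 := by norm_num
  have e51 : (12 / 51 : ℝ) = 4/17 := by norm_num
  have e135 : (12 / 135 : ℝ) = 4/45 := by norm_num
  rw [e9, e27, e51, e135]
  linarith

theorem arctan_le_self (x : ℝ) (hx : 0 ≤ x) : Real.arctan x ≤ x := by
  have h1 : 0 ≤ Real.arctan x := Real.arctan_nonneg.mpr hx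
  rcases eq_or_lt_of_le h1 with h | h
  · rw [← h]; exact hx
  · have h2 := Real.lt_tan h (Real.arctan_lt_pi_div_two x)
    rw [Real.tan_arctan] at h2
    exact h2.le

theorem le_arctan (x : ℝ) (hx : 0 ≤ x) : x / (1 + x ^ 2) ≤ Real.arctan x := by
  have h1 : 0 ≤ Real.arctan x := Real.arctan_nonneg.mpr hx
  have h2 : Real.sin (Real.arctan x) ≤ Real.arctan x := Real.sin_le h1
  have h3 : x / (1 + x ^ 2) = Real.sin (Real.arctan x) * Real.cos (Real.arctan x) := by
    rw [Real.sin_arctan, Real.cos_arctan, div_mul_div_comm, mul_one, Real.mul_self_sqrt (by positivity)]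
  rw [h3]
  have h4 : 0 ≤ Real.cos (Real.arctan x) := (Real.cos_arctan_pos x).le
  have h5 : Real.cos (Real.arctan x) ≤ 1 := Real.cos_le_one _
  nlinarith

theorem D_a_le : D (34 / 3) ≤ 0.01091 := by
  rw [D_a]
  refine (arctan_le_self _ (by norm_num)).trans ?_
  norm_num

theorem D_a_nonneg : 0 ≤ D (34 / 3) := by
  rw [D_a]
  exact Real.arctan_nonneg.mpr (by norm_num)

theorem D_b_le : D 12 ≤ -(1 / 10) := by
  rw [D_b]
  have := le_arctan (6979095444224/52728258848573 : ℝ) (by norm_num)
  have h2 : (1 / 10 : ℝ) ≤ (6979095444224/52728258848573 : ℝ) / (1 + (6979095444224/52728258848573 : ℝ) ^ 2) := by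
    norm_num
  linarith

theorem Psi_a : Psi (34 / 3) = (84 * Real.log 84 + 72 * Real.log 72 - 68 * Real.log 68 - 52 * Real.log 52
      - 36 * Real.log 36) + 1 / 2 * (25 * Real.log 6781 + 43 * Real.log 17797 + 17 * Real.log 3757 +
      35 * Real.log 12181 + 9 * Real.log 1885 + 27 * Real.log 7717 - 135 * Real.log 165181 +
      51 * Real.log 24565 - 127 * Real.log 146317 + 55 * Real.log 28381) + 34 / 3 * D (34 / 3) := by
  have h (u v : ℝ) (hv : 0 < v) (e : u ^ 2 + (34 / 3) ^ 2 = v / 9) :
      Hf u (34 / 3) = u / 2 * (Real.log v - Real.log 9) - u + 34 / 3 * Real.arctan (u / (34 / 3)) := by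
    unfold Hf
    rw [e, Real.log_div hv.ne' (by norm_num)]
  unfold Psi D
  rw [h 25 6781 (by norm_num) (by norm_num), h 43 17797 (by norm_num) (by norm_num),
    h 17 3757 (by norm_num) (by norm_num), h 35 12181 (by norm_num) (by norm_num),
    h 9 1885 (by norm_num) (by norm_num), h 27 7717 (by norm_num) (by norm_num),
    h 135 165181 (by norm_num) (by norm_num), h 51 24565 (by norm_num) (by norm_num),
    h 127 146317 (by norm_num) (by norm_num), h 55 28381 (by norm_num) (by norm_num)]
  ring

theorem log_part : (84 * Real.log 84 + 72 * Real.log 72 - 68 * Real.log 68 - 52 * Real.log 52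
      - 36 * Real.log 36) + 1 / 2 * (25 * Real.log 6781 + 43 * Real.log 17797 + 17 * Real.log 3757 +
      35 * Real.log 12181 + 9 * Real.log 1885 + 27 * Real.log 7717 - 135 * Real.log 165181 +
      51 * Real.log 24565 - 127 * Real.log 146317 + 55 * Real.log 28381) ≤ -257.706 := by
  have e84 : Real.log 84 = 2 * Real.log 2 + Real.log 3 + Real.log 7 := by
    rw [show (84 : ℝ) = 2 ^ 2 * 3 * 7 by norm_num, Real.log_mul (by norm_num) (by norm_num),
      Real.log_mul (by norm_num) (by norm_num), Real.log_pow]; norm_num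
  have e72 : Real.log 72 = 3 * Real.log 2 + 2 * Real.log 3 := by
    rw [show (72 : ℝ) = 2 ^ 3 * 3 ^ 2 by norm_num, Real.log_mul (by norm_num) (by norm_num),
      Real.log_pow, Real.log_pow]; norm_num
  have e68 : Real.log 68 = 2 * Real.log 2 + Real.log 17 := by
    rw [show (68 : ℝ) = 2 ^ 2 * 17 by norm_num, Real.log_mul (by norm_num) (by norm_num),
      Real.log_pow]; norm_num
  have e52 : Real.log 52 = 2 * Real.log 2 + Real.log 13 := by
    rw [show (52 : ℝ) = 2 ^ 2 * 13 by norm_num, Real.log_mul (by norm_num) (by norm_num),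
      Real.log_pow]; norm_num
  have e36 : Real.log 36 = 2 * Real.log 2 + 2 * Real.log 3 := by
    rw [show (36 : ℝ) = 2 ^ 2 * 3 ^ 2 by norm_num, Real.log_mul (by norm_num) (by norm_num),
      Real.log_pow, Real.log_pow]; norm_num
  have e3757 : Real.log 3757 = Real.log 13 + 2 * Real.log 17 := by
    rw [show (3757 : ℝ) = 13 * 17 ^ 2 by norm_num, Real.log_mul (by norm_num) (by norm_num),
      Real.log_pow]; norm_num
  have e1885 : Real.log 1885 = Real.log 5 + Real.log 13 + Real.log 29 := by
    rw [show (1885 : ℝ) = 5 * 13 * 29 by norm_num, Real.log_mul (by norm_num) (by norm_num),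
      Real.log_mul (by norm_num) (by norm_num)]
  have e24565 : Real.log 24565 = Real.log 5 + 3 * Real.log 17 := by
    rw [show (24565 : ℝ) = 5 * 17 ^ 3 by norm_num, Real.log_mul (by norm_num) (by norm_num),
      Real.log_pow]; norm_num
  rw [e84, e72, e68, e52, e36, e3757, e1885, e24565]
  have h1 := Real.log_two_gt_d9
  have h2 := Real.log_two_lt_d9
  have := lb3; have := ub3; have := lb5; have := ub5; have := lb7; have := ub7
  have := lb13; have := ub13; have := lb17; have := ub17; have := lb29; have := ub29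
  have := ub6781; have := ub17797; have := ub12181; have := ub7717; have := ub28381
  have := lb165181; have := lb146317
  linarith

end PsiAux

open PsiAux

/-- tangent lines at 34/3 and 12 (Psi is concave) -/
theorem Psi_le (y : ℝ) (hy : 0 ≤ y) : Psi y ≤ -257.56 := by
  have h0 : Psi (34 / 3) ≤ -257.706 + 34 / 3 * 0.01091 := by
    rw [Psi_a]
    have := log_part
    have := D_a_le
    linarith
  have key : ∀ z : ℝ, 0 ≤ z → z ≤ 12 → Psi z ≤ -257.56 := by
    intro z hz hz2
    have ht := tangent (34 / 3) (by norm_num) z hz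
    have h1 : D (34 / 3) * (z - 34 / 3) ≤ 0.01091 * (2 / 3) := by
      rcases le_total z (34 / 3) with h | h
      · have : D (34 / 3) * (z - 34 / 3) ≤ 0 :=
          mul_nonpos_of_nonneg_of_nonpos D_a_nonneg (by linarith)
        linarith
      · exact mul_le_mul D_a_le (by linarith) (by linarith) (by norm_num)
    linarith
  rcases le_total y 12 with h | h
  · exact key y hy h
  · have ht := tangent 12 (by norm_num) y hy
    have h1 : D 12 * (y - 12) ≤ 0 :=
      mul_nonpos_of_nonpos_of_nonneg (by have := D_b_le; linarith) (by linarith)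
    have h2 := key 12 (by norm_num) le_rfl
    linarith

theorem Psi_le' (y : ℝ) (hy : 12 ≤ y) : Psi y ≤ -257.56 - (y - 12) / 10 := by
  have ht := tangent 12 (by norm_num) y (by linarith)
  have h1 : D 12 * (y - 12) ≤ -(1 / 10) * (y - 12) :=
    mul_le_mul_of_nonneg_right D_b_le (by linarith)
  have h2 := Psi_le 12 (by norm_num)
  linarith

end Pool.Agent.Z3
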