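import Pool.Agent.Z3.Defs
import Pool.Agent.Z3.LogSum
import Pool.Agent.Z3.Psi
import Pool.Agent.Z3.Shift

open Finset Filter Topology Complex
open scoped BigOperators

namespace Pool.Agent.Z3

/-! ## norms of the factors -/

theorem FB_norm_factor (x y : ℝ) (hx : x ≠ 0) :
    ‖(x : ℂ) + (y : ℂ) * Complex.I‖ = Real.exp ((1 / 2 : ℝ) * Real.log (x ^ 2 + |y| ^ 2)) := by
  have h1 : 0 < x ^ 2 + y ^ 2 := by positivity
  have h2 : (1 / 2 : ℝ) * Real.log (x ^ 2 + |y| ^ 2) = Real.log (√(x ^ 2 + y ^ 2)) := by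
    rw [Real.log_sqrt h1.le, sq_abs]; ring
  rw [Complex.norm_add_mul_I, h2, Real.exp_log (Real.sqrt_pos.2 h1)]

theorem FB_half (i p : ℕ) : ((i : ℝ) - p - 1 / 2) ≠ 0 := by
  intro h
  have h1 : (2 * (i : ℤ) - 2 * (p : ℤ) - 1 : ℤ) = 0 := by
    have : (2 * (i : ℝ) - 2 * (p : ℝ) - 1 : ℝ) = 0 := by linarith
    exact_mod_cast this
  omega

theorem FB_prod_up (lo p q : ℕ) (y : ℝ) (t : ℂ)
    (ht : t = ((-(lo : ℝ) - p - 1 / 2 : ℝ) : ℂ) + (y : ℂ) * Complex.I) :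
    ‖∏ i ∈ Ico lo (lo + (p + q)), (t + (i : ℂ))‖ =
      Real.exp (∑ i ∈ range (p + q), (1 / 2 : ℝ) * Real.log (((i : ℝ) - p - 1 / 2) ^ 2 + |y| ^ 2)) := by
  rw [norm_prod, Finset.prod_Ico_eq_prod_range, Real.exp_sum]
  have h0 : lo + (p + q) - lo = p + q := by omega
  rw [h0]
  refine Finset.prod_congr rfl fun i _ => ?_
  have h1 : t + ((lo + i : ℕ) : ℂ) = (((i : ℝ) - p - 1 / 2 : ℝ) : ℂ) + (y : ℂ) * Complex.I := by
    rw [ht]; push_cast; ring
  rw [h1, FB_norm_factor _ _ (FB_half i p)]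

theorem FB_prod_down (c p q : ℕ) (y : ℝ) (t : ℂ)
    (ht : t = ((-(c : ℝ) - 1 / 2 : ℝ) : ℂ) + (y : ℂ) * Complex.I) :
    ‖∏ i ∈ Ico (p + c) (q + c), (t + (i : ℂ))‖ =
      Real.exp (∑ i ∈ Ico p q, (1 / 2 : ℝ) * Real.log (((i : ℝ) - 1 / 2) ^ 2 + |y| ^ 2)) := by
  rw [norm_prod, ← Finset.prod_Ico_add', Real.exp_sum]
  refine Finset.prod_congr rfl fun i _ => ?_
  have h1 : t + ((i + c : ℕ) : ℂ) = (((i : ℝ) - 1 / 2 : ℝ) : ℂ) + (y : ℂ) * Complex.I := by
    rw [ht]; push_cast; ring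
  have h2 : ((i : ℝ) - 1 / 2) ≠ 0 := by
    have := FB_half i 0
    simpa using this
  rw [h1, FB_norm_factor _ _ h2]

/-! ## scaling of Hf -/

theorem FB_scale (u N y : ℝ) (hu : 0 < u) (hN : 0 < N) :
    Hf (u * N) y = N * Hf u (y / N) + N * u * Real.log N := by
  have hy : y = N * (y / N) := by field_simp
  unfold Hf
  set z := y / N with hz
  have h1 : (u * N) ^ 2 + y ^ 2 = N ^ 2 * (u ^ 2 + z ^ 2) := by rw [hy]; ring
  have h2 : u * N / y = u / z := by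
    rw [hy, mul_comm u N, mul_div_mul_left _ _ hN.ne']
  have h3 : 0 < u ^ 2 + z ^ 2 := by positivity
  rw [h1, h2, Real.log_mul (by positivity) h3.ne', Real.log_pow]
  nth_rewrite 1 [hy]
  push_cast
  ring

/-! ## Stirling -/

theorem FB_fact_lower (m : ℕ) (hm : 1 ≤ m) :
    (m : ℝ) * Real.log m - m ≤ Real.log (m.factorial : ℝ) := by
  have h := Real.pow_div_factorial_le_exp (m : ℝ) (by positivity) m
  have hm' : (0 : ℝ) < m := by exact_mod_cast hm
  have hf : (0 : ℝ) < (m.factorial : ℝ) := by exact_mod_cast m.factorial_pos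
  have h2 := Real.log_le_log (by positivity) h
  rw [Real.log_exp, Real.log_div (by positivity) hf.ne', Real.log_pow] at h2
  linarith

theorem FB_fact_upper (m : ℕ) (hm : 1 ≤ m) :
    Real.log (m.factorial : ℝ) ≤ (m : ℝ) * Real.log m - m + Real.log m + 1 := by
  induction m, hm using Nat.le_induction with
  | base => simp
  | succ m hm ih =>
    rw [Nat.factorial_succ]
    push_cast
    have hm' : (0 : ℝ) < m := by exact_mod_cast hm
    have hf : (0 : ℝ) < (m.factorial : ℝ) := by exact_mod_cast m.factorial_pos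
    rw [Real.log_mul (by positivity) hf.ne']
    -- need (m+1) (log (m+1) - log m) >= 1
    have h1 : 1 - ((m : ℝ) + 1) / m ≤ 0 := by
      rw [sub_nonpos, le_div_iff₀ hm']; linarith
    have h2 : 1 / ((m : ℝ) + 1) ≤ Real.log (m + 1) - Real.log m := by
      have h := Real.one_sub_inv_le_log_of_pos (x := ((m : ℝ) + 1) / m) (by positivity)
      rw [Real.log_div (by positivity) hm'.ne'] at h
      have h3 : 1 - (((m : ℝ) + 1) / m)⁻¹ = 1 / ((m : ℝ) + 1) := by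
        rw [inv_div]; field_simp; ring
      linarith
    have h3 : 1 ≤ ((m : ℝ) + 1) * (Real.log (m + 1) - Real.log m) := by
      have := mul_le_mul_of_nonneg_left h2 (show (0 : ℝ) ≤ (m : ℝ) + 1 by positivity)
      have h4 : ((m : ℝ) + 1) * (1 / ((m : ℝ) + 1)) = 1 := by field_simp
      linarith
    nlinarith

/-! ## the normalising constant -/

/-- the constant -/
noncomputable def FBk : ℝ :=
  84 * Real.log 84 + 72 * Real.log 72 - 68 * Real.log 68 - 52 * Real.log 52 - 36 * Real.log 36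

theorem FB_fl (c N : ℕ) (hc : 1 ≤ c) (hN : 1 ≤ N) :
    (c : ℝ) * N * Real.log N + N * (c * Real.log c) - c * N ≤ Real.log ((c * N).factorial : ℝ) := by
  have h := FB_fact_lower (c * N) (Nat.mul_pos hc hN)
  have hN' : (0 : ℝ) < N := by exact_mod_cast hN
  have hc' : (0 : ℝ) < c := by exact_mod_cast hc
  push_cast at h
  rw [Real.log_mul hc'.ne' hN'.ne'] at h
  linarith

theorem FB_fu (c N : ℕ) (hc : 1 ≤ c) (hN : 1 ≤ N) (L : ℝ) (hL1 : 1 ≤ L)
    (hL : Real.log ((c : ℝ) * N + 1) ≤ L) :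
    Real.log ((c * N + 1).factorial : ℝ) ≤
      (c : ℝ) * N * Real.log N + N * (c * Real.log c) - c * N + 3 * L := by
  have h := FB_fact_upper (c * N) (Nat.mul_pos hc hN)
  have hN' : (0 : ℝ) < N := by exact_mod_cast hN
  have hc' : (0 : ℝ) < c := by exact_mod_cast hc
  have hf : (0 : ℝ) < ((c * N).factorial : ℝ) := by exact_mod_cast Nat.factorial_pos _
  rw [Nat.factorial_succ]
  push_cast at h ⊢
  rw [Real.log_mul (by positivity) hf.ne']
  have h5 : Real.log ((c : ℝ) * N) ≤ L :=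
    le_trans (Real.log_le_log (by positivity) (by linarith)) hL
  have h6 : Real.log ((c : ℝ) * N) = Real.log c + Real.log N := Real.log_mul hc'.ne' hN'.ne'
  have h7 : (c : ℝ) * N * Real.log ((c : ℝ) * N) = (c : ℝ) * N * Real.log N + N * (c * Real.log c) := by
    rw [h6]; ring
  linarith

theorem FB_kap_pos (n : ℕ) : (0 : ℚ) < kap n := by
  unfold kap
  have h : ∀ m : ℕ, (0 : ℚ) < (m.factorial : ℚ) := fun m => by exact_mod_cast m.factorial_pos
  have h1 := h (21 * n + 1)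
  have h2 := h (18 * n + 1)
  have h3 := h (17 * n)
  have h4 := h (13 * n)
  have h5 := h (9 * n)
  positivity

theorem FB_kap_log (N : ℕ) (hN : 1 ≤ N) (L : ℝ) (hL1 : 1 ≤ L)
    (hL : Real.log (84 * (N : ℝ) + 1) ≤ L) :
    Real.log ((kap (4 * N) : ℚ) : ℝ) ≤ N * FBk + 6 * L := by
  have hN' : (0 : ℝ) < N := by exact_mod_cast hN
  have hf : ∀ m : ℕ, ((m.factorial : ℕ) : ℝ) ≠ 0 := fun m => by exact_mod_cast m.factorial_ne_zero
  have e1 : 21 * (4 * N) + 1 = 84 * N + 1 := by ring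
  have e2 : 18 * (4 * N) + 1 = 72 * N + 1 := by ring
  have e3 : 17 * (4 * N) = 68 * N := by ring
  have e4 : 13 * (4 * N) = 52 * N := by ring
  have e5 : 9 * (4 * N) = 36 * N := by ring
  unfold kap
  rw [e1, e2, e3, e4, e5]
  push_cast
  rw [Real.log_div (mul_ne_zero (hf _) (hf _)) (mul_ne_zero (mul_ne_zero (hf _) (hf _)) (hf _)),
    Real.log_mul (hf _) (hf _), Real.log_mul (mul_ne_zero (hf _) (hf _)) (hf _),
    Real.log_mul (hf _) (hf _)]
  have a1 := FB_fu 84 N (by norm_num) hN L hL1 (by exact_mod_cast hL)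
  have a2 := FB_fu 72 N (by norm_num) hN L hL1
    (le_trans (Real.log_le_log (by positivity) (by push_cast; linarith)) hL)
  have a3 := FB_fl 68 N (by norm_num) hN
  have a4 := FB_fl 52 N (by norm_num) hN
  have a5 := FB_fl 36 N (by norm_num) hN
  unfold FBk
  push_cast at a1 a2 a3 a4 a5
  linarith

/-! ## the pointwise bound -/

/-- the point on the line -/
noncomputable def FBt (N : ℕ) (y : ℝ) : ℂ := (((-(25 * (N : ℤ)) : ℤ) : ℂ)) - 1 / 2 + (y : ℂ) * Complex.I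

theorem FB_num (N : ℕ) (y : ℝ) :
    ‖num (4 * N) (FBt N y)‖ =
      Real.exp ((∑ i ∈ range (25 * N + 43 * N),
          (1 / 2 : ℝ) * Real.log (((i : ℝ) - (25 * N : ℕ) - 1 / 2) ^ 2 + |y| ^ 2)) +
        (∑ i ∈ range (17 * N + 35 * N),
          (1 / 2 : ℝ) * Real.log (((i : ℝ) - (17 * N : ℕ) - 1 / 2) ^ 2 + |y| ^ 2)) +
        ∑ i ∈ range (9 * N + 27 * N),
          (1 / 2 : ℝ) * Real.log (((i : ℝ) - (9 * N : ℕ) - 1 / 2) ^ 2 + |y| ^ 2)) := by
  have e1 : N1 (4 * N) = Ico 0 (0 + (25 * N + 43 * N)) := by unfold N1; congr 1; ring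
  have e2 : N2 (4 * N) = Ico (8 * N) (8 * N + (17 * N + 35 * N)) := by
    unfold N2; congr 1 <;> ring
  have e3 : N3 (4 * N) = Ico (16 * N) (16 * N + (9 * N + 27 * N)) := by
    unfold N3; congr 1 <;> ring
  unfold num
  rw [norm_mul, norm_mul, e1, e2, e3, Real.exp_add, Real.exp_add]
  rw [FB_prod_up 0 (25 * N) (43 * N) y (FBt N y) (by unfold FBt; push_cast; ring),
    FB_prod_up (8 * N) (17 * N) (35 * N) y (FBt N y) (by unfold FBt; push_cast; ring),
    FB_prod_up (16 * N) (9 * N) (27 * N) y (FBt N y) (by unfold FBt; push_cast; ring)]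

theorem FB_den (N : ℕ) (y : ℝ) :
    ‖den (4 * N) (FBt N y)‖ =
      Real.exp ((∑ i ∈ Ico (51 * N) (135 * N + 2),
          (1 / 2 : ℝ) * Real.log (((i : ℝ) - 1 / 2) ^ 2 + |y| ^ 2)) +
        ∑ i ∈ Ico (55 * N) (127 * N + 2),
          (1 / 2 : ℝ) * Real.log (((i : ℝ) - 1 / 2) ^ 2 + |y| ^ 2)) := by
  have e1 : K1 (4 * N) = Ico (51 * N + 25 * N) (135 * N + 2 + 25 * N) := by
    unfold K1; congr 1 <;> ring
  have e2 : K2 (4 * N) = Ico (55 * N + 25 * N) (127 * N + 2 + 25 * N) := by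
    unfold K2; congr 1 <;> ring
  unfold den
  rw [norm_mul, e1, e2, Real.exp_add]
  rw [FB_prod_down (25 * N) (51 * N) (135 * N + 2) y (FBt N y) (by unfold FBt; push_cast; ring),
    FB_prod_down (25 * N) (55 * N) (127 * N + 2) y (FBt N y) (by unfold FBt; push_cast; ring)]

theorem FB_drop (p q : ℕ) (hq : 2 ≤ q) (hpq : p ≤ q) (y : ℝ) :
    ∑ i ∈ Ico p q, (1 / 2 : ℝ) * Real.log (((i : ℝ) - 1 / 2) ^ 2 + y ^ 2) ≤
      ∑ i ∈ Ico p (q + 2), (1 / 2 : ℝ) * Real.log (((i : ℝ) - 1 / 2) ^ 2 + y ^ 2) := by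
  rw [Finset.sum_Ico_succ_top (by omega), Finset.sum_Ico_succ_top (by omega)]
  have h : ∀ k : ℕ, 2 ≤ k → 0 ≤ (1 / 2 : ℝ) * Real.log (((k : ℝ) - 1 / 2) ^ 2 + y ^ 2) := by
    intro k hk
    have hk' : (2 : ℝ) ≤ k := by exact_mod_cast hk
    have : 0 ≤ Real.log (((k : ℝ) - 1 / 2) ^ 2 + y ^ 2) := Real.log_nonneg (by nlinarith [sq_nonneg y])
    positivity
  have h1 := h q hq
  have h2 := h (q + 1) (by omega)
  linarith

theorem FB_up (C1 : ℕ) (C : ℝ) (hC : C ≤ C1)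
    (H : ∀ (p q : ℕ) (y : ℝ), 0 ≤ y →
      ∑ i ∈ range (p + q), (1 / 2 : ℝ) * Real.log (((i : ℝ) - p - 1 / 2) ^ 2 + y ^ 2) ≤
        Hf p y + Hf q y + C * Real.log (p + q + y + 2))
    (u v N : ℕ) (hu : 1 ≤ u) (hv : 1 ≤ v) (hN : 1 ≤ N) (y L : ℝ) (hy : 0 ≤ y)
    (hL : Real.log ((u : ℝ) * N + v * N + y + 2) ≤ L) :
    ∑ i ∈ range (u * N + v * N), (1 / 2 : ℝ) * Real.log (((i : ℝ) - (u * N : ℕ) - 1 / 2) ^ 2 + y ^ 2) ≤
      N * (Hf u (y / N) + Hf v (y / N)) + N * (u + v) * Real.log N + C1 * L := by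
  have hN' : (0 : ℝ) < N := by exact_mod_cast hN
  have hu' : (0 : ℝ) < u := by exact_mod_cast hu
  have hv' : (0 : ℝ) < v := by exact_mod_cast hv
  have h := H (u * N) (v * N) y hy
  have s1 := FB_scale u N y hu' hN'
  have s2 := FB_scale v N y hv' hN'
  have hl : 0 ≤ Real.log ((u : ℝ) * N + v * N + y + 2) := Real.log_nonneg (by
    have : 0 ≤ (u : ℝ) * N + v * N := by positivity
    linarith)
  have h3 : C * Real.log ((u : ℝ) * N + v * N + y + 2) ≤ C1 * L :=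
    le_trans (mul_le_mul_of_nonneg_right hC hl) (mul_le_mul_of_nonneg_left hL (by positivity))
  push_cast at h ⊢
  rw [s1, s2] at h
  linarith

theorem FB_down (C2 : ℕ) (C : ℝ) (hC : C ≤ C2)
    (H : ∀ (p q : ℕ) (y : ℝ), 0 ≤ y → 1 ≤ p → p ≤ q →
      Hf q y - Hf p y - C * Real.log (q + y + 2) ≤
        ∑ i ∈ Ico p q, (1 / 2 : ℝ) * Real.log (((i : ℝ) - 1 / 2) ^ 2 + y ^ 2))
    (u v N : ℕ) (hu : 1 ≤ u) (huv : u ≤ v) (hv : 2 ≤ v) (hN : 1 ≤ N) (y L : ℝ) (hy : 0 ≤ y)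
    (hL : Real.log ((v : ℝ) * N + y + 2) ≤ L) :
    N * (Hf v (y / N) - Hf u (y / N)) + N * (v - u) * Real.log N - C2 * L ≤
      ∑ i ∈ Ico (u * N) (v * N + 2), (1 / 2 : ℝ) * Real.log (((i : ℝ) - 1 / 2) ^ 2 + y ^ 2) := by
  have hN' : (0 : ℝ) < N := by exact_mod_cast hN
  have hu' : (0 : ℝ) < u := by exact_mod_cast hu
  have hv' : (0 : ℝ) < v := by exact_mod_cast (by omega : 0 < v)
  refine le_trans ?_ (FB_drop (u * N) (v * N) (by nlinarith) (Nat.mul_le_mul_right N huv) y)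
  have h := H (u * N) (v * N) y hy (Nat.mul_pos hu hN) (Nat.mul_le_mul_right N huv)
  have s1 := FB_scale u N y hu' hN'
  have s2 := FB_scale v N y hv' hN'
  have hl : 0 ≤ Real.log ((v : ℝ) * N + y + 2) := Real.log_nonneg (by
    have : 0 ≤ (v : ℝ) * N := by positivity
    linarith)
  have h3 : C * Real.log ((v : ℝ) * N + y + 2) ≤ C2 * L :=
    le_trans (mul_le_mul_of_nonneg_right hC hl) (mul_le_mul_of_nonneg_left hL (by positivity))
  push_cast at h
  rw [s1, s2] at h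
  linarith

theorem FB_pointwise : ∃ K : ℕ, ∀ N j : ℕ, 1 ≤ N → j ≤ 2 → ∀ y : ℝ,
    ‖G (4 * N) j (FBt N y)‖ * Ker y ≤
      (1000 * ((N : ℝ) + |y|)) ^ K * Real.exp (N * Psi (|y| / N)) := by
  obtain ⟨Cu, Hu⟩ := logsum_upper
  obtain ⟨Cd, Hd⟩ := logsum_lower
  obtain ⟨C1, hC1⟩ := exists_nat_ge Cu
  obtain ⟨C2, hC2⟩ := exists_nat_ge Cd
  refine ⟨6 + 2 + 3 * C1 + 2 * C2 + 1, fun N j hN hj y => ?_⟩
  have hN' : (1 : ℝ) ≤ N := by exact_mod_cast hN
  have hy := abs_nonneg y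
  set z := |y| with hz
  set X : ℝ := 1000 * ((N : ℝ) + z) with hX
  set L : ℝ := Real.log X with hL
  have hX0 : 0 < X := by positivity
  have hX1 : 1000 ≤ X := by rw [hX]; nlinarith
  have hL1 : 1 ≤ L := by
    rw [hL, Real.le_log_iff_exp_le hX0]
    have := Real.exp_one_lt_d9
    linarith
  have hexpL : Real.exp L = X := Real.exp_log hX0
  have hlog : ∀ x : ℝ, 0 < x → x ≤ X → Real.log x ≤ L := fun x hx hxX => Real.log_le_log hx hxX
  -- the constant
  have hk : ‖((kap (4 * N) : ℚ) : ℂ)‖ ≤ Real.exp (N * FBk + 6 * L) := by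
    have hkp : (0 : ℝ) < ((kap (4 * N) : ℚ) : ℝ) := by exact_mod_cast FB_kap_pos (4 * N)
    have h1 : ‖((kap (4 * N) : ℚ) : ℂ)‖ = ((kap (4 * N) : ℚ) : ℝ) := by
      have : ((kap (4 * N) : ℚ) : ℂ) = (((kap (4 * N) : ℚ) : ℝ) : ℂ) := by push_cast; rfl
      rw [this, Complex.norm_real, Real.norm_eq_abs, abs_of_pos hkp]
    rw [h1, ← Real.log_le_iff_le_exp hkp]
    exact FB_kap_log N hN L hL1 (hlog _ (by positivity) (by rw [hX]; nlinarith))
  -- the power
  have ht : ‖FBt N y ^ j‖ ≤ Real.exp (2 * L) := by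
    have h1 : ‖FBt N y‖ ≤ X := by
      have e : FBt N y = ((-(25 * (N : ℝ)) - 1 / 2 : ℝ) : ℂ) + (y : ℂ) * Complex.I := by
        unfold FBt; push_cast; ring
      rw [e]
      refine le_trans (norm_add_le _ _) ?_
      rw [Complex.norm_real, norm_mul, Complex.norm_I, Complex.norm_real, Real.norm_eq_abs,
        Real.norm_eq_abs, abs_of_nonpos (by linarith), mul_one, ← hz]
      rw [hX]; nlinarith
    have h2 : ‖FBt N y‖ ^ j ≤ X ^ j := pow_le_pow_left₀ (norm_nonneg _) h1 j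
    have h3 : X ^ j ≤ X ^ 2 := pow_le_pow_right₀ (by linarith) hj
    have h4 : Real.exp (2 * L) = X ^ 2 := by
      rw [two_mul, Real.exp_add, hexpL]; ring
    rw [norm_pow, h4]
    exact h2.trans h3
  -- the numerator
  have b1 := FB_up C1 Cu hC1 Hu 25 43 N (by norm_num) (by norm_num) hN z L hy
    (hlog _ (by positivity) (by rw [hX]; push_cast; nlinarith))
  have b2 := FB_up C1 Cu hC1 Hu 17 35 N (by norm_num) (by norm_num) hN z L hy
    (hlog _ (by positivity) (by rw [hX]; push_cast; nlinarith))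
  have b3 := FB_up C1 Cu hC1 Hu 9 27 N (by norm_num) (by norm_num) hN z L hy
    (hlog _ (by positivity) (by rw [hX]; push_cast; nlinarith))
  have b4 := FB_down C2 Cd hC2 Hd 51 135 N (by norm_num) (by norm_num) (by norm_num) hN z L hy
    (hlog _ (by positivity) (by rw [hX]; push_cast; nlinarith))
  have b5 := FB_down C2 Cd hC2 Hd 55 127 N (by norm_num) (by norm_num) (by norm_num) hN z L hy
    (hlog _ (by positivity) (by rw [hX]; push_cast; nlinarith))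
  have hker : Ker y ≤ Real.exp (L - 2 * Real.pi * z) := by
    refine le_trans (Ker_le y) ?_
    rw [sub_eq_add_neg, Real.exp_add, hexpL]
    refine mul_le_mul_of_nonneg_right ?_ (Real.exp_pos _).le
    have := Real.pi_lt_four
    linarith
  have hker0 : 0 ≤ Ker y := by unfold Ker; positivity
  have hG : ‖G (4 * N) j (FBt N y)‖ =
      ‖((kap (4 * N) : ℚ) : ℂ)‖ * ‖FBt N y ^ j‖ * ‖num (4 * N) (FBt N y)‖ / ‖den (4 * N) (FBt N y)‖ := by
    unfold G
    rw [norm_div, norm_mul, norm_mul]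
  rw [hG, FB_num, FB_den]
  set S1 := ∑ i ∈ range (25 * N + 43 * N),
          (1 / 2 : ℝ) * Real.log (((i : ℝ) - (25 * N : ℕ) - 1 / 2) ^ 2 + z ^ 2) with hS1
  set S2 := ∑ i ∈ range (17 * N + 35 * N),
          (1 / 2 : ℝ) * Real.log (((i : ℝ) - (17 * N : ℕ) - 1 / 2) ^ 2 + z ^ 2) with hS2
  set S3 := ∑ i ∈ range (9 * N + 27 * N),
          (1 / 2 : ℝ) * Real.log (((i : ℝ) - (9 * N : ℕ) - 1 / 2) ^ 2 + z ^ 2) with hS3
  set T1 := ∑ i ∈ Ico (51 * N) (135 * N + 2),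
          (1 / 2 : ℝ) * Real.log (((i : ℝ) - 1 / 2) ^ 2 + z ^ 2) with hT1
  set T2 := ∑ i ∈ Ico (55 * N) (127 * N + 2),
          (1 / 2 : ℝ) * Real.log (((i : ℝ) - 1 / 2) ^ 2 + z ^ 2) with hT2
  have hfin : ‖((kap (4 * N) : ℚ) : ℂ)‖ * ‖FBt N y ^ j‖ * Real.exp (S1 + S2 + S3) / Real.exp (T1 + T2)
      * Ker y ≤ Real.exp (N * FBk + 6 * L) * Real.exp (2 * L) * Real.exp (S1 + S2 + S3) /
        Real.exp (T1 + T2) * Real.exp (L - 2 * Real.pi * z) := by
    gcongr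
  refine le_trans hfin ?_
  have hpow : X ^ (6 + 2 + 3 * C1 + 2 * C2 + 1) = Real.exp ((6 + 2 + 3 * C1 + 2 * C2 + 1 : ℕ) * L) := by
    rw [Real.exp_nat_mul, hexpL]
  rw [hpow, ← Real.exp_add, ← Real.exp_add, ← Real.exp_sub, ← Real.exp_add, ← Real.exp_add,
    Real.exp_le_exp]
  have hPsi : N * Psi (z / N) = N * FBk +
      N * ((Hf 25 (z / N) + Hf 43 (z / N)) + (Hf 17 (z / N) + Hf 35 (z / N)) +
        (Hf 9 (z / N) + Hf 27 (z / N))) -
      N * ((Hf 135 (z / N) - Hf 51 (z / N)) + (Hf 127 (z / N) - Hf 55 (z / N))) -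
      2 * Real.pi * z := by
    have : (N : ℝ) * (z / N) = z := by field_simp
    unfold Psi FBk
    linear_combination (-(2 * Real.pi)) * this
  rw [hPsi]
  push_cast at b1 b2 b3 b4 b5 ⊢
  linarith

/-! ## integration -/

theorem FB_decay (N : ℕ) (hN : 1 ≤ N) (z : ℝ) (hz : 0 ≤ z) :
    (N : ℝ) * Psi (z / N) ≤ -(257.56 * N) + -(max 0 (z - 12 * N) / 10) := by
  have hN' : (0 : ℝ) < N := by exact_mod_cast hN
  rcases le_total z (12 * N) with h | h
  · rw [max_eq_left (by linarith)]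
    have h1 := mul_le_mul_of_nonneg_left (Psi_le (z / N) (by positivity)) hN'.le
    linarith
  · rw [max_eq_right (by linarith)]
    have h2 : 12 ≤ z / N := by rw [le_div_iff₀ hN']; exact h
    have h1 := mul_le_mul_of_nonneg_left (Psi_le' (z / N) h2) hN'.le
    have h3 : (N : ℝ) * (-257.56 - (z / N - 12) / 10) = -257.56 * N - (z - 12 * N) / 10 := by
      field_simp
    linarith

theorem FB_polyexp (k : ℕ) (x : ℝ) (hx : 0 ≤ x) :
    (1 + x) ^ k * Real.exp (-(x / 10)) ≤ 10 ^ k * (k.factorial : ℝ) * Real.exp (1 / 10) := by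
  have h := Real.pow_div_factorial_le_exp ((1 + x) / 10) (by positivity) k
  have hf : (0 : ℝ) < (k.factorial : ℝ) := by exact_mod_cast k.factorial_pos
  rw [div_le_iff₀ hf, div_pow, div_le_iff₀ (by positivity)] at h
  have h2 : Real.exp ((1 + x) / 10) = Real.exp (1 / 10) * Real.exp (x / 10) := by
    rw [← Real.exp_add]; congr 1; ring
  have h3 : Real.exp (x / 10) * Real.exp (-(x / 10)) = 1 := by
    rw [← Real.exp_add]; simp
  calc (1 + x) ^ k * Real.exp (-(x / 10))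
      ≤ (Real.exp ((1 + x) / 10) * (k.factorial : ℝ) * 10 ^ k) * Real.exp (-(x / 10)) :=
        mul_le_mul_of_nonneg_right h (Real.exp_pos _).le
    _ = 10 ^ k * (k.factorial : ℝ) * Real.exp (1 / 10) * (Real.exp (x / 10) * Real.exp (-(x / 10))) := by
        rw [h2]; ring
    _ = _ := by rw [h3, mul_one]

theorem FB_growth (k N : ℕ) (hN : 1 ≤ N) (z : ℝ) (hz : 0 ≤ z) :
    (1 + z) ^ k * Real.exp (-(max 0 (z - 12 * N) / 10)) ≤
      (13 * (N : ℝ)) ^ k * (10 ^ k * (k.factorial : ℝ) * Real.exp (1 / 10)) := by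
  have hN' : (1 : ℝ) ≤ N := by exact_mod_cast hN
  set x := max 0 (z - 12 * N) with hx
  have hx0 : 0 ≤ x := le_max_left _ _
  have hx1 : z - 12 * N ≤ x := le_max_right _ _
  have h1 : 1 + z ≤ 13 * N * (1 + x) := by nlinarith
  calc (1 + z) ^ k * Real.exp (-(x / 10)) ≤ (13 * N * (1 + x)) ^ k * Real.exp (-(x / 10)) := by
        gcongr
    _ = (13 * (N : ℝ)) ^ k * ((1 + x) ^ k * Real.exp (-(x / 10))) := by rw [mul_pow]; ring
    _ ≤ _ := mul_le_mul_of_nonneg_left (FB_polyexp k x hx0) (by positivity)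

theorem F_bound : ∃ C : ℝ, ∃ D : ℕ, ∀ N j : ℕ, 1 ≤ N → j ≤ 2 →
    ‖Iint (-(25 * (N : ℤ))) (G (4 * N) j)‖ ≤ C * (N : ℝ) ^ D * Real.exp (-(257.56 * N)) := by
  obtain ⟨K, HK⟩ := FB_pointwise
  set Q : ℝ := 10 ^ (K + 2) * ((K + 2).factorial : ℝ) * Real.exp (1 / 10) with hQ
  refine ⟨1000 ^ K * 13 ^ (K + 2) * Q * Real.pi, K + (K + 2), fun N j hN hj => ?_⟩
  have hN' : (1 : ℝ) ≤ N := by exact_mod_cast hN
  set M : ℝ := 1000 ^ K * 13 ^ (K + 2) * Q * (N : ℝ) ^ (K + (K + 2)) * Real.exp (-(257.56 * N)) with hM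
  have hpt : ∀ y : ℝ, ‖G (4 * N) j (FBt N y) * ((Ker y : ℝ) : ℂ)‖ ≤ M * (1 + y ^ 2)⁻¹ := by
    intro y
    have hker0 : 0 ≤ Ker y := by unfold Ker; positivity
    rw [norm_mul, Complex.norm_real, Real.norm_eq_abs, abs_of_nonneg hker0]
    refine le_trans (HK N j hN hj y) ?_
    set z := |y| with hz
    have hz0 : 0 ≤ z := abs_nonneg y
    have hzy : z ^ 2 = y ^ 2 := sq_abs y
    have h1 : Real.exp ((N : ℝ) * Psi (z / N)) ≤
        Real.exp (-(257.56 * N)) * Real.exp (-(max 0 (z - 12 * N) / 10)) := by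
      rw [← Real.exp_add]
      exact Real.exp_le_exp.2 (FB_decay N hN z hz0)
    have h2 : (1000 * ((N : ℝ) + z)) ^ K ≤ (1000 * N) ^ K * (1 + z) ^ K := by
      rw [← mul_pow]
      refine pow_le_pow_left₀ (by positivity) ?_ K
      nlinarith
    have h3 := FB_growth (K + 2) N hN z hz0
    rw [← hQ] at h3
    have h4 : (1 + z) ^ K * Real.exp (-(max 0 (z - 12 * N) / 10)) ≤
        (13 * (N : ℝ)) ^ (K + 2) * Q * (1 + y ^ 2)⁻¹ := by
      rw [← div_eq_mul_inv, le_div_iff₀ (by positivity)]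
      refine le_trans ?_ h3
      rw [← hzy, pow_add]
      have h5 : 1 + z ^ 2 ≤ (1 + z) ^ 2 := by nlinarith
      have h6 : 0 ≤ (1 + z) ^ K * Real.exp (-(max 0 (z - 12 * N) / 10)) := by positivity
      calc (1 + z) ^ K * Real.exp (-(max 0 (z - 12 * N) / 10)) * (1 + z ^ 2)
          ≤ (1 + z) ^ K * Real.exp (-(max 0 (z - 12 * N) / 10)) * (1 + z) ^ 2 :=
            mul_le_mul_of_nonneg_left h5 h6
        _ = (1 + z) ^ K * (1 + z) ^ 2 * Real.exp (-(max 0 (z - 12 * N) / 10)) := by ring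
    calc (1000 * ((N : ℝ) + z)) ^ K * Real.exp (N * Psi (z / N))
        ≤ ((1000 * N) ^ K * (1 + z) ^ K) *
          (Real.exp (-(257.56 * N)) * Real.exp (-(max 0 (z - 12 * N) / 10))) := by
          gcongr
      _ = (1000 * N) ^ K * Real.exp (-(257.56 * N)) *
          ((1 + z) ^ K * Real.exp (-(max 0 (z - 12 * N) / 10))) := by ring
      _ ≤ (1000 * N) ^ K * Real.exp (-(257.56 * N)) *
          ((13 * (N : ℝ)) ^ (K + 2) * Q * (1 + y ^ 2)⁻¹) :=
          mul_le_mul_of_nonneg_left h4 (by positivity)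
      _ = M * (1 + y ^ 2)⁻¹ := by
          rw [hM, mul_pow, mul_pow, pow_add (N : ℝ) K (K + 2)]; ring
  have hint : MeasureTheory.Integrable (fun y : ℝ => M * (1 + y ^ 2)⁻¹) :=
    integrable_inv_one_add_sq.const_mul M
  have hfin := MeasureTheory.norm_integral_le_of_norm_le hint (MeasureTheory.ae_of_all _ hpt)
  rw [MeasureTheory.integral_const_mul, integral_univ_inv_one_add_sq] at hfin
  unfold Iint
  refine le_trans (le_of_eq ?_) (le_trans hfin (le_of_eq ?_))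
  · rfl
  · rw [hM]; ring

end Pool.Agent.Z3
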