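import Pool.Agent.Z3.Psi

/-!
The sharper bound for Psi used by the second-order version: tangent lines at 34/3, 57/5 and 12.
-/

open Finset Filter Topology

namespace Pool.Agent.Z3

namespace PsiAux

theorem D_c : D (57 / 5) = - Real.arctan (264488169660850000/74895644806671049997 : ℝ) := by
  rw [D_eq _ (by norm_num)]
  have g1 : Real.arctan (19/15 : ℝ) + Real.arctan (19/85 : ℝ) = Real.arctan (950/457 : ℝ) := by
    rw [Real.arctan_add (by norm_num)]; norm_num
  have g2 : Real.arctan (57/85 : ℝ) + Real.arctan (57/125 : ℝ) = Real.arctan (5985/3688 : ℝ) := by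
    rw [Real.arctan_add (by norm_num)]; norm_num
  have g3 : Real.arctan (5985/3688 : ℝ) + Real.arctan (57/215 : ℝ) = Real.arctan (1496991/451775 : ℝ) := by
    rw [Real.arctan_add (by norm_num)]; norm_num
  have g4 : Real.arctan (950/457 : ℝ) + Real.arctan (1496991/451775 : ℝ) =
      Real.arctan (-(1113311137/1215680275) : ℝ) + Real.pi := by
    rw [Real.arctan_add_eq_add_pi (by norm_num) (by norm_num)]; norm_num
  have g5 : Real.arctan (57/175 : ℝ) + Real.arctan (19/45 : ℝ) = Real.arctan (2945/3396 : ℝ) := by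
    rw [Real.arctan_add (by norm_num)]; norm_num
  have g6 : Real.arctan (2945/3396 : ℝ) + Real.arctan (57/275 : ℝ) = Real.arctan (1003447/766035 : ℝ) := by
    rw [Real.arctan_add (by norm_num)]; norm_num
  have g7 : Real.arctan (-(1113311137/1215680275) : ℝ) + Real.arctan (1003447/766035 : ℝ) =
      Real.arctan (183517714038065/1024201179974432 : ℝ) := by
    rw [Real.arctan_add (by norm_num)]; norm_num
  have g8 : Real.arctan (19/225 : ℝ) + Real.arctan (57/635 : ℝ) = Real.arctan (12445/70896 : ℝ) := by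
    rw [Real.arctan_add (by norm_num)]; norm_num
  have g9 : Real.arctan (183517714038065/1024201179974432 : ℝ) + Real.arctan (-(12445/70896) : ℝ) =
      Real.arctan (264488169660850000/74895644806671049997 : ℝ) := by
    rw [Real.arctan_add (by norm_num)]; norm_num
  rw [Real.arctan_neg] at g9
  have e25 : (57 / 5 / 25 : ℝ) = 57/125 := by norm_num
  have e43 : (57 / 5 / 43 : ℝ) = 57/215 := by norm_num
  have e17 : (57 / 5 / 17 : ℝ) = 57/85 := by norm_num
  have e35 : (57 / 5 / 35 : ℝ) = 57/175 := by norm_num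
  have e9 : (57 / 5 / 9 : ℝ) = 19/15 := by norm_num
  have e27 : (57 / 5 / 27 : ℝ) = 19/45 := by norm_num
  have e51 : (57 / 5 / 51 : ℝ) = 19/85 := by norm_num
  have e55 : (57 / 5 / 55 : ℝ) = 57/275 := by norm_num
  have e135 : (57 / 5 / 135 : ℝ) = 19/225 := by norm_num
  have e127 : (57 / 5 / 127 : ℝ) = 57/635 := by norm_num
  rw [e25, e43, e17, e35, e9, e27, e51, e55, e135, e127]
  linarith

theorem D_c_nonpos : D (57 / 5) ≤ 0 := by
  rw [D_c]
  have : 0 ≤ Real.arctan (264488169660850000/74895644806671049997 : ℝ) :=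
    Real.arctan_nonneg.mpr (by norm_num)
  linarith

end PsiAux

open PsiAux

/-- sharper bound, by the tangent lines at 34/3 and 57/5 -/
theorem Psi_le2 (y : ℝ) (hy : 0 ≤ y) : Psi y ≤ -257.58 := by
  have h0 : Psi (34 / 3) ≤ -257.706 + 34 / 3 * 0.01091 := by
    rw [Psi_a]
    have := log_part
    have := D_a_le
    linarith
  have key : ∀ z : ℝ, 0 ≤ z → z ≤ 57 / 5 → Psi z ≤ -257.58 := by
    intro z hz hz2
    have ht := tangent (34 / 3) (by norm_num) z hz
    have h1 : D (34 / 3) * (z - 34 / 3) ≤ 0.01091 * (1 / 15) := by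
      rcases le_total z (34 / 3) with h | h
      · have : D (34 / 3) * (z - 34 / 3) ≤ 0 :=
          mul_nonpos_of_nonneg_of_nonpos D_a_nonneg (by linarith)
        linarith
      · exact mul_le_mul D_a_le (by linarith) (by linarith) (by norm_num)
    linarith
  rcases le_total y (57 / 5) with h | h
  · exact key y hy h
  · have ht := tangent (57 / 5) (by norm_num) y hy
    have h1 : D (57 / 5) * (y - 57 / 5) ≤ 0 :=
      mul_nonpos_of_nonpos_of_nonneg D_c_nonpos (by linarith)
    have h2 := key (57 / 5) (by norm_num) le_rfl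
    linarith

theorem Psi_le2' (y : ℝ) (hy : 12 ≤ y) : Psi y ≤ -257.58 - (y - 12) / 10 := by
  have ht := tangent 12 (by norm_num) y (by linarith)
  have h1 : D 12 * (y - 12) ≤ -(1 / 10) * (y - 12) :=
    mul_le_mul_of_nonneg_right D_b_le (by linarith)
  have h2 := Psi_le2 12 (by norm_num)
  linarith

end Pool.Agent.Z3
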