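import Pool.Agent.Z3.FBound
import Pool.Agent.Z3.Psi2

/-!
The upper bound for the linear forms with the sharper constant 257.58.
-/

open Finset Filter Topology Complex
open scoped BigOperators

namespace Pool.Agent.Z3

theorem FB_decay2 (N : ℕ) (hN : 1 ≤ N) (z : ℝ) (hz : 0 ≤ z) :
    (N : ℝ) * Psi (z / N) ≤ -(257.58 * N) + -(max 0 (z - 12 * N) / 10) := by
  have hN' : (0 : ℝ) < N := by exact_mod_cast hN
  rcases le_total z (12 * N) with h | h
  · rw [max_eq_left (by linarith)]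
    have h1 := mul_le_mul_of_nonneg_left (Psi_le2 (z / N) (by positivity)) hN'.le
    linarith
  · rw [max_eq_right (by linarith)]
    have h2 : 12 ≤ z / N := by rw [le_div_iff₀ hN']; exact h
    have h1 := mul_le_mul_of_nonneg_left (Psi_le2' (z / N) h2) hN'.le
    have h3 : (N : ℝ) * (-257.58 - (z / N - 12) / 10) = -257.58 * N - (z - 12 * N) / 10 := by
      field_simp
    linarith

theorem F_bound2 : ∃ C : ℝ, ∃ D : ℕ, ∀ N j : ℕ, 1 ≤ N → j ≤ 2 →
    ‖Iint (-(25 * (N : ℤ))) (G (4 * N) j)‖ ≤ C * (N : ℝ) ^ D * Real.exp (-(257.58 * N)) := by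
  obtain ⟨K, HK⟩ := FB_pointwise
  set Q : ℝ := 10 ^ (K + 2) * ((K + 2).factorial : ℝ) * Real.exp (1 / 10) with hQ
  refine ⟨1000 ^ K * 13 ^ (K + 2) * Q * Real.pi, K + (K + 2), fun N j hN hj => ?_⟩
  have hN' : (1 : ℝ) ≤ N := by exact_mod_cast hN
  set M : ℝ := 1000 ^ K * 13 ^ (K + 2) * Q * (N : ℝ) ^ (K + (K + 2)) * Real.exp (-(257.58 * N)) with hM
  have hpt : ∀ y : ℝ, ‖G (4 * N) j (FBt N y) * ((Ker y : ℝ) : ℂ)‖ ≤ M * (1 + y ^ 2)⁻¹ := by
    intro y
    have hker0 : 0 ≤ Ker y := by unfold Ker; positivity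
    rw [norm_mul, Complex.norm_real, Real.norm_eq_abs, abs_of_nonneg hker0]
    refine le_trans (HK N j hN hj y) ?_
    set z := |y| with hz
    have hz0 : 0 ≤ z := abs_nonneg y
    have hzy : z ^ 2 = y ^ 2 := sq_abs y
    have h1 : Real.exp ((N : ℝ) * Psi (z / N)) ≤
        Real.exp (-(257.58 * N)) * Real.exp (-(max 0 (z - 12 * N) / 10)) := by
      rw [← Real.exp_add]
      exact Real.exp_le_exp.2 (FB_decay2 N hN z hz0)
    have h2 : (1000 * ((N : ℝ) + z)) ^ K ≤ (1000 * N) ^ K * (1 + z) ^ K := by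
      rw [← mul_pow]
      refine pow_le_pow_left₀ (by positivity) ?_ K
      nlinarith
    have h3 := FB_growth (K + 2) N hN z hz0
    rw [← hQ] at h3
    have h4 : (1 + z) ^ K * Real.exp (-(max 0 (z - 12 * N) / 10)) ≤
        (13 * (N : ℝ)) ^ (K + 2) * Q * (1 + y ^ 2)⁻¹ := by
      rw [← div_eq_mul_inv, le_div_iff₀ (by positivity)]
      refine le_trans ?_ h3
      rw [← hzy, pow_add]
      have h5 : 1 + z ^ 2 ≤ (1 + z) ^ 2 := by nlinarith
      have h6 : 0 ≤ (1 + z) ^ K * Real.exp (-(max 0 (z - 12 * N) / 10)) := by positivity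
      calc (1 + z) ^ K * Real.exp (-(max 0 (z - 12 * N) / 10)) * (1 + z ^ 2)
          ≤ (1 + z) ^ K * Real.exp (-(max 0 (z - 12 * N) / 10)) * (1 + z) ^ 2 :=
            mul_le_mul_of_nonneg_left h5 h6
        _ = (1 + z) ^ K * (1 + z) ^ 2 * Real.exp (-(max 0 (z - 12 * N) / 10)) := by ring
    calc (1000 * ((N : ℝ) + z)) ^ K * Real.exp (N * Psi (z / N))
        ≤ ((1000 * N) ^ K * (1 + z) ^ K) *
          (Real.exp (-(257.58 * N)) * Real.exp (-(max 0 (z - 12 * N) / 10))) := by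
          gcongr
      _ = (1000 * N) ^ K * Real.exp (-(257.58 * N)) *
          ((1 + z) ^ K * Real.exp (-(max 0 (z - 12 * N) / 10))) := by ring
      _ ≤ (1000 * N) ^ K * Real.exp (-(257.58 * N)) *
          ((13 * (N : ℝ)) ^ (K + 2) * Q * (1 + y ^ 2)⁻¹) :=
          mul_le_mul_of_nonneg_left h4 (by positivity)
      _ = M * (1 + y ^ 2)⁻¹ := by
          rw [hM, mul_pow, mul_pow, pow_add (N : ℝ) K (K + 2)]; ring
  have hint : MeasureTheory.Integrable (fun y : ℝ => M * (1 + y ^ 2)⁻¹) :=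
    integrable_inv_one_add_sq.const_mul M
  have hfin := MeasureTheory.norm_integral_le_of_norm_le hint (MeasureTheory.ae_of_all _ hpt)
  rw [MeasureTheory.integral_const_mul, integral_univ_inv_one_add_sq] at hfin
  unfold Iint
  refine le_trans (le_of_eq ?_) (le_trans hfin (le_of_eq ?_))
  · rfl
  · rw [hM]; ring

end Pool.Agent.Z3
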