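import Pool.Agent.Z3.Defs

/-!
Definitions shared by Farey.lean, Red.lean, Cells.lean and Table.lean.
-/

open Finset

namespace Pool.Agent.Z3

/-- the ten points -/
def pts : List ℕ := [0, 2, 4, 13, 15, 17, 19, 20, 38, 40]

/-- phi of the representative N0/P0 at threshold t -/
def phi0 (N0 P0 t : ℕ) : ℤ :=
  (([13, 15, 17, 19, 20].map (fun c => ((c * N0 / P0 : ℕ) : ℤ) + if t < c * N0 % P0 then 1 else 0)).sum) -
  (([0, 2, 4, 38, 40].map (fun c => ((c * N0 / P0 : ℕ) : ℤ) + if t < c * N0 % P0 then 1 else 0)).sum)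

def e00 (N0 P0 : ℕ) : ℤ :=
  ((21 * N0 / P0 : ℕ) : ℤ) + ((18 * N0 / P0 : ℕ) : ℤ) - ((17 * N0 / P0 : ℕ) : ℤ) -
    ((13 * N0 / P0 : ℕ) : ℤ) - ((9 * N0 / P0 : ℕ) : ℤ)

/-- n/p lies (mod 1) strictly in the same Farey cell of order 40 as N0/P0 -/
def SameCell (n p N0 P0 : ℕ) : Prop := 0 < P0 ∧ N0 < P0 ∧ ∀ d ∈ Icc 1 40, d * (n % p) / p = d * N0 / P0

/-- offset 2 for the points 38, 40 -/
def off (c : ℕ) : ℕ := if c = 38 ∨ c = 40 then 2 else 0

/-- data of a red cell: c1 is the point at which the unique gap with phi = -1 begins, L lists the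
indices pi 0,...,pi 4 -/
def redCheck (N0 P0 c1 : ℕ) (L : List ℕ) : Bool :=
  decide (c1 ∈ pts) && decide ((pts.map (fun c => c * N0 % P0)).Nodup) &&
  pts.all (fun c => decide (0 ≤ phi0 N0 P0 (c * N0 % P0)) || (decide (c = c1) && decide (phi0 N0 P0 (c * N0 % P0) = -1))) &&
  decide (phi0 N0 P0 (c1 * N0 % P0) = -1) &&
  decide (L.length = 5) && decide (L.Nodup) && L.all (fun x => decide (x < 5)) &&
  ((List.range 5).all (fun i =>
    decide ((([13, 15, 17, 19, 20].getD (L.getD i 0) 0 * N0 : ℤ) - ([0, 2, 4, 38, 40].getD i 0 * N0 : ℤ)) % P0 ≤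
      ((c1 * N0 : ℤ) - ([0, 2, 4, 38, 40].getD i 0 * N0 : ℤ)) % P0)))

end Pool.Agent.Z3
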