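import Pool.Agent.Z3.CancelDefs
import Pool.Agent.Z3.TableDefs

/-!
The residues of the ten points depend only on the Farey cell of order 40 that contains n/p mod 1.
-/

open Finset

namespace Pool.Agent.Z3

private theorem fa_div (c n p : ℕ) (hp : 0 < p) : c * n / p = c * (n / p) + c * (n % p) / p := by
  conv_lhs => rw [← Nat.div_add_mod n p]
  rw [mul_add, mul_left_comm, Nat.mul_add_div hp]

private theorem fa_cell {n p N0 P0 : ℕ} (hp : 0 < p) (hc : SameCell n p N0 P0) {c : ℕ}
    (hcc : c ≤ 40) : c * n / p = c * (n / p) + c * N0 / P0 := by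
  rw [fa_div c n p hp]
  rcases Nat.eq_zero_or_pos c with h | h
  · subst h
    simp
  · rw [hc.2.2 c (Finset.mem_Icc.2 ⟨h, hcc⟩)]

private theorem fa_good {n p : ℕ} (hg : Good n p) {d : ℕ} (h1 : 1 ≤ d) (h2 : d ≤ 40) (e : ℤ)
    (h3 : -3 ≤ e) (h4 : e ≤ 3) : ¬ (p : ℤ) ∣ (d : ℤ) * (n : ℤ) + e :=
  hg (d : ℤ) (Finset.mem_Icc.2 ⟨by exact_mod_cast h1, by exact_mod_cast h2⟩) e
    (Finset.mem_Icc.2 ⟨h3, h4⟩)

private theorem fa_good_nat {n p : ℕ} (hg : Good n p) {d : ℕ} (h1 : 1 ≤ d) (h2 : d ≤ 40) (e : ℕ)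
    (h4 : e ≤ 3) : ¬ p ∣ d * n + e := by
  intro h
  refine fa_good hg h1 h2 (e : ℤ) (by omega) (by omega) ?_
  exact_mod_cast h

/-- (Farey.lean) -/
theorem e0_cell (n p N0 P0 : ℕ) (hn : 1 ≤ n) (hp : p.Prime) (hg : Good n p) (hc : SameCell n p N0 P0)
    (hinj : (pts.map (fun c => c * N0 % P0)).Nodup) : e0 n p = e00 N0 P0 := by
  have _ := hn
  have _ := hinj
  have hp0 : 0 < p := hp.pos
  have h21 : (21 * n + 1) / p = 21 * n / p :=
    Nat.succ_div_of_not_dvd (fa_good_nat hg (by norm_num) (by norm_num) 1 (by norm_num))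
  have h18 : (18 * n + 1) / p = 18 * n / p :=
    Nat.succ_div_of_not_dvd (fa_good_nat hg (by norm_num) (by norm_num) 1 (by norm_num))
  unfold e0 e00
  rw [h21, h18, fa_cell hp0 hc (c := 21) (by norm_num), fa_cell hp0 hc (c := 18) (by norm_num),
    fa_cell hp0 hc (c := 17) (by norm_num), fa_cell hp0 hc (c := 13) (by norm_num),
    fa_cell hp0 hc (c := 9) (by norm_num)]
  push_cast
  ring

private theorem fa_off_le (c : ℕ) : off c ≤ 2 := by
  unfold off
  split_ifs <;> omega

private theorem fa_pts_le {c : ℕ} (h : c ∈ pts) : c ≤ 40 := by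
  simp only [pts, List.mem_cons, List.not_mem_nil, or_false] at h
  omega

private theorem fa_off_zero : off 0 = 0 := by
  unfold off
  norm_num

/-- no wrap -/
private theorem fa_wrap {n p : ℕ} (hp : 0 < p) (hg : Good n p) {c e : ℕ} (hcc : c ≤ 40)
    (he : e ≤ 2) (h0 : c = 0 → e = 0) : c * n % p + e < p := by
  have hlt : c * n % p < p := Nat.mod_lt _ hp
  rcases Nat.eq_zero_or_pos c with h | h
  · subst h
    rw [h0 rfl]
    simpa using hp
  · by_contra hcon
    rw [not_lt] at hcon
    have hdm := Nat.div_add_mod (c * n) p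
    obtain ⟨f, hf⟩ : ∃ f, c * n % p + f = p := ⟨p - c * n % p, by omega⟩
    have hf2 : f ≤ 2 := by omega
    refine fa_good_nat hg h hcc f (by omega) ⟨c * n / p + 1, ?_⟩
    rw [mul_add, mul_one]
    omega

private theorem fa_mod {n p : ℕ} (hp : 0 < p) (hg : Good n p) {c : ℕ} (hcc : c ∈ pts) :
    (c * n + off c) % p = c * n % p + off c := by
  have h := fa_wrap hp hg (fa_pts_le hcc) (fa_off_le c) (fun h => by rw [h, fa_off_zero])
  rw [← Nat.mod_eq_of_lt h, Nat.mod_add_mod]

private theorem fa_quot {n p : ℕ} (hp : 0 < p) (hg : Good n p) {c : ℕ} (hcc : c ∈ pts) :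
    (c * n + off c) / p = c * n / p := by
  have h := fa_wrap hp hg (fa_pts_le hcc) (fa_off_le c) (fun h => by rw [h, fa_off_zero])
  have hdm := Nat.div_add_mod (c * n) p
  have e : c * n + off c = (c * n % p + off c) + p * (c * n / p) := by omega
  rw [e, Nat.add_mul_div_left _ _ hp, Nat.div_eq_of_lt h, zero_add]

/-- two residues differ by at least 4 -/
private theorem fa_diff {n p : ℕ} (hg : Good n p) {c d : ℕ} (hdc : d < c)
    (hcc : c ≤ 40) : 4 ≤ |((c * n % p : ℕ) : ℤ) - ((d * n % p : ℕ) : ℤ)| := by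
  by_contra hcon
  rw [not_le] at hcon
  have h1 := abs_lt.1 hcon
  have hc := Nat.div_add_mod (c * n) p
  have hd := Nat.div_add_mod (d * n) p
  have hc' : (p : ℤ) * ((c * n / p : ℕ) : ℤ) + ((c * n % p : ℕ) : ℤ) = (c : ℤ) * n := by
    exact_mod_cast hc
  have hd' : (p : ℤ) * ((d * n / p : ℕ) : ℤ) + ((d * n % p : ℕ) : ℤ) = (d : ℤ) * n := by
    exact_mod_cast hd
  obtain ⟨k, hk⟩ : ∃ k, c = d + k := ⟨c - d, by omega⟩
  refine fa_good hg (d := k) (by omega) (by omega)
    (-(((c * n % p : ℕ) : ℤ) - ((d * n % p : ℕ) : ℤ))) (by omega) (by omega) ?_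
  refine ⟨((c * n / p : ℕ) : ℤ) - ((d * n / p : ℕ) : ℤ), ?_⟩
  have e : (c : ℤ) = d + k := by exact_mod_cast hk
  have e2 : (k : ℤ) * n = (c : ℤ) * n - (d : ℤ) * n := by rw [e]; ring
  rw [e2, ← hc', ← hd']
  ring

/-- comparison of residues by quotients -/
private theorem fa_comp {r p c d k : ℕ} (hp : 0 < p) (hk : c = d + k)
    (hne : c * r % p ≠ d * r % p) :
    d * r % p < c * r % p ↔ c * r / p ≤ d * r / p + k * r / p := by
  have hc := Nat.div_add_mod (c * r) p
  have hd := Nat.div_add_mod (d * r) p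
  have hkk := Nat.div_add_mod (k * r) p
  have hkl := Nat.mod_lt (k * r) hp
  have e : c * r = d * r + k * r := by rw [hk]; ring
  constructor
  · intro h
    by_contra hcon
    rw [not_le] at hcon
    have h2 : p * (d * r / p + k * r / p + 1) ≤ p * (c * r / p) := Nat.mul_le_mul_left p hcon
    have h3 : p * (d * r / p + k * r / p + 1) = p * (d * r / p) + p * (k * r / p) + p := by ring
    omega
  · intro h
    have h2 : p * (c * r / p) ≤ p * (d * r / p + k * r / p) := Nat.mul_le_mul_left p h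
    have h3 : p * (d * r / p + k * r / p) = p * (d * r / p) + p * (k * r / p) := by ring
    omega

/-- the order of the residues without the offsets -/
private theorem fa_order {n p N0 P0 : ℕ} (hp : 0 < p) (hg : Good n p) (hc : SameCell n p N0 P0)
    (hinj : (pts.map (fun c => c * N0 % P0)).Nodup) {c d : ℕ} (hcc : c ∈ pts) (hd : d ∈ pts)
    (hdc : d < c) : (d * n % p < c * n % p ↔ d * N0 % P0 < c * N0 % P0) := by
  obtain ⟨k, hk⟩ : ∃ k, c = d + k := ⟨c - d, by omega⟩
  have hcl := fa_pts_le hcc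
  have h1 : c * n % p ≠ d * n % p := by
    intro h
    have h2 := fa_diff hg hdc hcl
    rw [h, sub_self, abs_zero] at h2
    norm_num at h2
  have h2 : c * N0 % P0 ≠ d * N0 % P0 := by
    intro h
    have h3 := List.inj_on_of_nodup_map hinj hcc hd h
    omega
  rw [fa_comp hp hk h1, fa_comp hc.1 hk h2, fa_cell hp hc hcl, fa_cell hp hc (c := d) (by omega),
    fa_cell hp hc (c := k) (by omega)]
  have e : c * (n / p) = d * (n / p) + k * (n / p) := by rw [hk]; ring
  rw [e]
  constructor
  · intro h; omega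
  · intro h; omega

theorem order_cell (n p N0 P0 : ℕ) (hn : 1 ≤ n) (hp : p.Prime) (hg : Good n p) (hc : SameCell n p N0 P0)
    (hinj : (pts.map (fun c => c * N0 % P0)).Nodup) (c d : ℕ) (hcc : c ∈ pts) (hd : d ∈ pts) :
    ((c * n + off c) % p < (d * n + off d) % p ↔ c * N0 % P0 < d * N0 % P0) := by
  have _ := hn
  have hp0 : 0 < p := hp.pos
  rw [fa_mod hp0 hg hcc, fa_mod hp0 hg hd]
  have oc := fa_off_le c
  have od := fa_off_le d
  rcases lt_trichotomy c d with h | h | h
  · rw [← fa_order hp0 hg hc hinj hd hcc h]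
    have h2 := fa_diff hg h (fa_pts_le hd)
    rcases le_abs.1 h2 with h3 | h3
    · constructor
      · intro _; omega
      · intro _; omega
    · constructor
      · intro _; omega
      · intro _; omega
  · subst h
    simp
  · have h1 := fa_order hp0 hg hc hinj hcc hd h
    have h2 := fa_diff hg h (fa_pts_le hcc)
    have hne : c * N0 % P0 ≠ d * N0 % P0 := by
      intro h3
      have h4 := List.inj_on_of_nodup_map hinj hcc hd h3
      omega
    rcases le_abs.1 h2 with h3 | h3
    · have h4 := h1.1 (by omega)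
      constructor
      · intro _; omega
      · intro _; omega
    · have h4 : ¬ d * N0 % P0 < c * N0 % P0 := fun h5 => by
        have := h1.2 h5
        omega
      constructor
      · intro _; omega
      · intro _; omega

/-- (Farey.lean) -/
theorem phi_cell (n p N0 P0 : ℕ) (hn : 1 ≤ n) (hp : p.Prime) (hg : Good n p) (hc : SameCell n p N0 P0)
    (hinj : (pts.map (fun c => c * N0 % P0)).Nodup) (s : ℕ) (hs : s < p) :
    ∃ c ∈ pts, (c * n + off c) % p ≤ s ∧ (∀ d ∈ pts, (d * n + off d) % p ≤ s → d * N0 % P0 ≤ c * N0 % P0) ∧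
      phi n p s = phi0 N0 P0 (c * N0 % P0) := by
  have hp0 : 0 < p := hp.pos
  obtain ⟨c, hcm, hcmax⟩ := Finset.exists_max_image
    (pts.toFinset.filter fun d => (d * n + off d) % p ≤ s) (fun d => d * N0 % P0)
    ⟨0, by
      rw [Finset.mem_filter]
      refine ⟨by simp [pts], ?_⟩
      rw [fa_off_zero]
      simp⟩
  rw [Finset.mem_filter, List.mem_toFinset] at hcm
  obtain ⟨hcc, hcs⟩ := hcm
  have hmax : ∀ d ∈ pts, (d * n + off d) % p ≤ s → d * N0 % P0 ≤ c * N0 % P0 := by
    intro d hd hds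
    exact hcmax d (by rw [Finset.mem_filter, List.mem_toFinset]; exact ⟨hd, hds⟩)
  refine ⟨c, hcc, hcs, hmax, ?_⟩
  have key : ∀ d ∈ pts, (s < (d * n + off d) % p ↔ c * N0 % P0 < d * N0 % P0) := by
    intro d hd
    constructor
    · intro h
      exact (order_cell n p N0 P0 hn hp hg hc hinj c d hcc hd).1 (by omega)
    · intro h
      by_contra h2
      have := hmax d hd (by omega)
      omega
  have hterm : ∀ (d : ℕ) (z : ℤ), z = (d : ℤ) → d ∈ pts → ((((d * n + off d) / p : ℕ) : ℤ) +
      if s < (d * n + off d) % p then 1 else 0) = z * ((n / p : ℕ) : ℤ) +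
        (((d * N0 / P0 : ℕ) : ℤ) + if c * N0 % P0 < d * N0 % P0 then 1 else 0) := by
    intro d z hz hd
    rw [fa_quot hp0 hg hd, fa_cell hp0 hc (fa_pts_le hd), hz]
    simp only [key d hd]
    push_cast
    ring
  have t0 := hterm 0 0 (by norm_num) (by simp [pts])
  have t2 := hterm 2 2 (by norm_num) (by simp [pts])
  have t4 := hterm 4 4 (by norm_num) (by simp [pts])
  have t13 := hterm 13 13 (by norm_num) (by simp [pts])
  have t15 := hterm 15 15 (by norm_num) (by simp [pts])
  have t17 := hterm 17 17 (by norm_num) (by simp [pts])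
  have t19 := hterm 19 19 (by norm_num) (by simp [pts])
  have t20 := hterm 20 20 (by norm_num) (by simp [pts])
  have t38 := hterm 38 38 (by norm_num) (by simp [pts])
  have t40 := hterm 40 40 (by norm_num) (by simp [pts])
  have a0 : al n 0 = 13 * n + off 13 := by simp [al, off]
  have a1 : al n 1 = 15 * n + off 15 := by simp [al, off]
  have a2 : al n 2 = 17 * n + off 17 := by simp [al, off]
  have a3 : al n 3 = 19 * n + off 19 := by simp [al, off]
  have a4 : al n 4 = 20 * n + off 20 := by simp [al, off]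
  have b0 : be n 0 = 0 * n + off 0 := by simp [be, off]
  have b1 : be n 1 = 2 * n + off 2 := by simp [be, off]
  have b2 : be n 2 = 4 * n + off 4 := by simp [be, off]
  have b3 : be n 3 = 38 * n + off 38 := by simp [be, off]
  have b4 : be n 4 = 40 * n + off 40 := by simp [be, off]
  rw [phi_eq n p s hp0 hs, Fin.sum_univ_five, Fin.sum_univ_five, Fin.sum_univ_five,
    Fin.sum_univ_five, a0, a1, a2, a3, a4, b0, b1, b2, b3, b4]
  unfold phi0
  simp only [List.map_cons, List.map_nil, List.sum_cons, List.sum_nil]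
  linarith

end Pool.Agent.Z3
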