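import Mathlib

/-!
Sums of log p over primes in unions of intervals (lo * n, hi * n], and their limits.
-/

open Finset Filter Topology

namespace Pool.Agent.Z3

/-- log p summed over the primes in (u, v] -/
theorem theta_interval (u v : ℝ) (huv : u ≤ v) (P : Finset ℕ)
    (hP : ∀ p ∈ P, p.Prime ∧ u < (p : ℝ) ∧ (p : ℝ) ≤ v) (hu : 0 ≤ u) :
    ∑ p ∈ P, Real.log (p : ℝ) ≤ Chebyshev.theta v - Chebyshev.theta u := by
  have hfl : ⌊u⌋₊ ≤ ⌊v⌋₊ := Nat.floor_le_floor huv
  have hsplit : Chebyshev.theta v = Chebyshev.theta u +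
      ∑ p ∈ (Ioc ⌊u⌋₊ ⌊v⌋₊).filter Nat.Prime, Real.log (p : ℝ) := by
    unfold Chebyshev.theta
    rw [← Finset.sum_union]
    · congr 1
      ext p
      simp only [mem_filter, mem_Ioc, mem_union]
      constructor
      · rintro ⟨⟨h1, h2⟩, h3⟩
        by_cases h : p ≤ ⌊u⌋₊
        · exact Or.inl ⟨⟨h1, h⟩, h3⟩
        · exact Or.inr ⟨⟨by omega, h2⟩, h3⟩
      · rintro (⟨⟨h1, h2⟩, h3⟩ | ⟨⟨h1, h2⟩, h3⟩)
        · exact ⟨⟨h1, by omega⟩, h3⟩
        · exact ⟨⟨by omega, h2⟩, h3⟩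
    · rw [Finset.disjoint_left]
      intro p h1 h2
      simp only [mem_filter, mem_Ioc] at h1 h2
      omega
  rw [hsplit, add_sub_cancel_left]
  refine Finset.sum_le_sum_of_subset_of_nonneg ?_ ?_
  · intro p hp
    obtain ⟨h1, h2, h3⟩ := hP p hp
    simp only [mem_filter, mem_Ioc]
    exact ⟨⟨(Nat.floor_lt hu).mpr h2, Nat.le_floor h3⟩, h1⟩
  · intro p hp _
    exact Real.log_natCast_nonneg p

/-- the weighted sum over a list of intervals -/
theorem sum_le_list (n : ℕ) (f : ℕ → ℝ) (L : List (ℝ × ℝ × ℝ)) :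
    (∀ x ∈ L, 0 ≤ x.1 ∧ 0 ≤ x.2.1 ∧ x.2.1 ≤ x.2.2) → ∀ P : Finset ℕ,
    (∀ p ∈ P, p.Prime ∧ ∃ x ∈ L, f p ≤ x.1 ∧ x.2.1 * n < (p : ℝ) ∧ (p : ℝ) ≤ x.2.2 * n) →
    ∑ p ∈ P, f p * Real.log (p : ℝ) ≤
      (L.map (fun x => x.1 * (Chebyshev.theta (x.2.2 * n) - Chebyshev.theta (x.2.1 * n)))).sum := by
  classical
  induction L with
  | nil =>
    intro _ P hP
    have : P = ∅ := by
      rw [Finset.eq_empty_iff_forall_notMem]
      intro p hp
      obtain ⟨_, x, hx, _⟩ := hP p hp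
      simp at hx
    subst this
    simp
  | cons y L ih =>
    intro hL P hP
    have hy := hL y (List.mem_cons_self)
    rw [List.map_cons, List.sum_cons,
      ← Finset.sum_filter_add_sum_filter_not P
        (fun p => f p ≤ y.1 ∧ y.2.1 * n < (p : ℝ) ∧ (p : ℝ) ≤ y.2.2 * n)]
    refine add_le_add ?_ ?_
    · calc ∑ p ∈ P.filter (fun p => f p ≤ y.1 ∧ y.2.1 * n < (p : ℝ) ∧ (p : ℝ) ≤ y.2.2 * n),
            f p * Real.log (p : ℝ)
          ≤ ∑ p ∈ P.filter (fun p => f p ≤ y.1 ∧ y.2.1 * n < (p : ℝ) ∧ (p : ℝ) ≤ y.2.2 * n),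
            y.1 * Real.log (p : ℝ) := by
            refine Finset.sum_le_sum fun p hp => ?_
            rw [mem_filter] at hp
            exact mul_le_mul_of_nonneg_right hp.2.1 (Real.log_natCast_nonneg p)
        _ = y.1 * ∑ p ∈ P.filter (fun p => f p ≤ y.1 ∧ y.2.1 * n < (p : ℝ) ∧ (p : ℝ) ≤ y.2.2 * n),
            Real.log (p : ℝ) := by rw [Finset.mul_sum]
        _ ≤ _ := by
            refine mul_le_mul_of_nonneg_left ?_ hy.1
            refine theta_interval _ _ (mul_le_mul_of_nonneg_right hy.2.2 (Nat.cast_nonneg n)) _ ?_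
              (mul_nonneg hy.2.1 (Nat.cast_nonneg n))
            intro p hp
            rw [mem_filter] at hp
            exact ⟨(hP p hp.1).1, hp.2.2.1, hp.2.2.2⟩
    · refine ih (fun x hx => hL x (List.mem_cons_of_mem _ hx)) _ ?_
      intro p hp
      rw [mem_filter] at hp
      obtain ⟨h1, x, hx, h2⟩ := hP p hp.1
      refine ⟨h1, x, ?_, h2⟩
      rcases List.mem_cons.mp hx with h | h
      · subst h
        exact absurd h2 hp.2
      · exact h

/-- theta(lam * n) / n tends to lam -/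
theorem theta_lin (hth : Tendsto (fun x : ℝ => Chebyshev.theta x / x) atTop (𝓝 1)) (lam : ℝ)
    (hl : 0 ≤ lam) : Tendsto (fun n : ℕ => Chebyshev.theta (lam * n) / n) atTop (𝓝 lam) := by
  rcases hl.eq_or_lt with h | h
  · subst h
    simp only [zero_mul, Chebyshev.theta_zero, zero_div]
    exact tendsto_const_nhds
  · have h1 : Tendsto (fun n : ℕ => lam * (n : ℝ)) atTop atTop :=
      tendsto_natCast_atTop_atTop.const_mul_atTop h
    have h2 := (hth.comp h1).const_mul lam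
    rw [mul_one] at h2
    refine h2.congr' ?_
    filter_upwards [eventually_gt_atTop 0] with n hn
    have hn' : (n : ℝ) ≠ 0 := by exact_mod_cast hn.ne'
    simp only [Function.comp_apply]
    field_simp

/-- limit of the weighted sum over a list of intervals -/
theorem list_lim (hth : Tendsto (fun x : ℝ => Chebyshev.theta x / x) atTop (𝓝 1))
    (L : List (ℝ × ℝ × ℝ)) (hL : ∀ x ∈ L, 0 ≤ x.2.1 ∧ x.2.1 ≤ x.2.2) :
    Tendsto (fun n : ℕ => (L.map (fun x => x.1 * (Chebyshev.theta (x.2.2 * n) -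
      Chebyshev.theta (x.2.1 * n)))).sum / n) atTop
      (𝓝 (L.map (fun x => x.1 * (x.2.2 - x.2.1))).sum) := by
  induction L with
  | nil => simp
  | cons y L ih =>
    simp only [List.map_cons, List.sum_cons]
    have hy := hL y (List.mem_cons_self)
    have h1 := ih (fun x hx => hL x (List.mem_cons_of_mem _ hx))
    have h2 := ((theta_lin hth y.2.2 (hy.1.trans hy.2)).sub (theta_lin hth y.2.1 hy.1)).const_mul y.1
    refine (h2.add h1).congr fun n => ?_
    ring

end Pool.Agent.Z3
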