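import Pool.Agent.Z3.Defs

/-!
# The small and the bad primes contribute o(n)
-/

open Finset

namespace Pool.Agent.Z3

theorem log_mul_log_le (p M : ℕ) (hp : p.Prime) (hM : 1 ≤ M) :
    (Nat.log p M : ℝ) * Real.log p ≤ Real.log M := by
  have h1 : p ^ Nat.log p M ≤ M := Nat.pow_log_le_self p (by omega)
  have h2 : ((p ^ Nat.log p M : ℕ) : ℝ) ≤ (M : ℝ) := by exact_mod_cast h1
  have h3 : (0 : ℝ) < ((p ^ Nat.log p M : ℕ) : ℝ) := by
    exact_mod_cast Nat.pow_pos hp.pos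
  have h4 := Real.log_le_log h3 h2
  rwa [Nat.cast_pow, Real.log_pow] at h4

/-- primes whose square is at most M -/
theorem card_small (M : ℕ) (P : Finset ℕ) (h : ∀ p ∈ P, p ^ 2 ≤ M) :
    (P.card : ℝ) ≤ Real.sqrt M + 1 := by
  have h1 : P ⊆ range (Nat.sqrt M + 1) := by
    intro p hp
    rw [mem_range]
    have := Nat.le_sqrt'.mpr (h p hp)
    omega
  have h2 := card_le_card h1
  rw [card_range] at h2
  have h3 : (Nat.sqrt M : ℝ) ≤ Real.sqrt M := Real.nat_sqrt_le_real_sqrt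
  have h4 : (P.card : ℝ) ≤ (Nat.sqrt M : ℝ) + 1 := by exact_mod_cast h2
  linarith

/-- bad primes with large square: at most 280 -/
theorem card_bad (n : ℕ) (hn : 4 ≤ n) (P : Finset ℕ)
    (h : ∀ p ∈ P, p.Prime ∧ 40 * n + 2 < p ^ 2 ∧ ¬ Good n p) : P.card ≤ 280 := by
  classical
  have hex : ∀ p : ℕ, p ∈ P → ∃ x : ℤ × ℤ, x ∈ (Finset.Icc (1 : ℤ) 40) ×ˢ (Finset.Icc (-3 : ℤ) 3) ∧
      (p : ℤ) ∣ x.1 * (n : ℤ) + x.2 := by
    intro p hp
    have h1 := (h p hp).2.2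
    unfold Good at h1
    push Not at h1
    obtain ⟨d, hd, e, he, hde⟩ := h1
    exact ⟨(d, e), mem_product.mpr ⟨hd, he⟩, hde⟩
  choose! f hf using hex
  have hc : ((Finset.Icc (1 : ℤ) 40) ×ˢ (Finset.Icc (-3 : ℤ) 3) : Finset (ℤ × ℤ)).card = 280 := by
    rw [card_product]
    simp
  rw [← hc]
  refine card_le_card_of_injOn f (fun p hp => (hf p hp).1) ?_
  intro p hp q hq hpq
  have hp' : p ∈ P := hp
  have hq' : q ∈ P := hq
  by_contra hne
  obtain ⟨hp1, hp2, _⟩ := h p hp'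
  obtain ⟨hq1, hq2, _⟩ := h q hq'
  obtain ⟨hf1, hf2⟩ := hf p hp'
  obtain ⟨_, hf4⟩ := hf q hq'
  rw [← hpq] at hf4
  rw [mem_product, Finset.mem_Icc, Finset.mem_Icc] at hf1
  set d : ℤ := (f p).1
  set e : ℤ := (f p).2
  have hcop : IsCoprime (p : ℤ) (q : ℤ) :=
    Nat.isCoprime_iff_coprime.mpr ((Nat.coprime_primes hp1 hq1).mpr hne)
  have hdvd : (p : ℤ) * q ∣ d * (n : ℤ) + e := hcop.mul_dvd hf2 hf4
  have hd1 : (1 : ℤ) ≤ d := hf1.1.1
  have hd2 : d ≤ 40 := hf1.1.2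
  have hn' : (4 : ℤ) ≤ n := by exact_mod_cast hn
  have hpos : (0 : ℤ) < d * (n : ℤ) + e := by nlinarith [hf1.2.1]
  have hle : (p : ℤ) * q ≤ d * (n : ℤ) + e := Int.le_of_dvd hpos hdvd
  have hub : d * (n : ℤ) + e ≤ 40 * n + 3 := by nlinarith [hf1.2.2]
  have hp3 : (40 : ℤ) * n + 3 ≤ (p : ℤ) ^ 2 := by exact_mod_cast hp2
  have hq3 : (40 : ℤ) * n + 3 ≤ (q : ℤ) ^ 2 := by exact_mod_cast hq2
  have hp0 : (0 : ℤ) < p := by exact_mod_cast hp1.pos
  have hq0 : (0 : ℤ) < q := by exact_mod_cast hq1.pos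
  have hneZ : (p : ℤ) ≠ q := by exact_mod_cast hne
  rcases lt_or_gt_of_ne hneZ with hlt | hlt
  · have : (p : ℤ) ^ 2 < p * q := by rw [sq]; exact mul_lt_mul_of_pos_left hlt hp0
    linarith
  · have : (q : ℤ) ^ 2 < p * q := by rw [sq]; exact mul_lt_mul_of_pos_right hlt hq0
    linarith

theorem sum_bad (δ : ℝ) (hδ : 0 < δ) : ∀ᶠ n : ℕ in Filter.atTop, ∀ P : Finset ℕ,
    (∀ p ∈ P, p.Prime ∧ p ≤ 40 * n + 2 ∧ (p ^ 2 ≤ 40 * n + 2 ∨ ¬ Good n p)) →
    ∑ p ∈ P, (3 * (Nat.log p (40 * n + 2) : ℝ)) * Real.log p ≤ δ * n := by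
  classical
  have hlim : Filter.Tendsto (fun n : ℕ => Real.sqrt (Real.sqrt (40 * (n : ℝ) + 2)))
      Filter.atTop Filter.atTop := by
    have h1 : Filter.Tendsto (fun n : ℕ => 40 * (n : ℝ) + 2) Filter.atTop Filter.atTop :=
      Filter.tendsto_atTop_add_const_right _ _
        (tendsto_natCast_atTop_atTop.const_mul_atTop (by norm_num))
    exact Real.tendsto_sqrt_atTop.comp (Real.tendsto_sqrt_atTop.comp h1)
  filter_upwards [Filter.eventually_ge_atTop 4, hlim.eventually_ge_atTop (142128 / δ),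
    hlim.eventually_ge_atTop 1] with n hn hy1 hy2 P hP
  set M : ℕ := 40 * n + 2 with hM
  have hMr : (M : ℝ) = 40 * (n : ℝ) + 2 := by rw [hM]; push_cast; ring
  set y : ℝ := Real.sqrt (Real.sqrt (40 * (n : ℝ) + 2)) with hy
  have hnr : (4 : ℝ) ≤ n := by exact_mod_cast hn
  have hy0 : 0 < y := by linarith
  have hsq : Real.sqrt (M : ℝ) = y ^ 2 := by
    rw [hy, Real.sq_sqrt (Real.sqrt_nonneg _), hMr]
  have hM4 : (M : ℝ) = y ^ 4 := by
    have : y ^ 4 = (y ^ 2) ^ 2 := by ring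
    rw [this, ← hsq, Real.sq_sqrt (by rw [hMr]; positivity)]
  have hlog : Real.log (M : ℝ) ≤ 4 * y := by
    rw [hM4, Real.log_pow]
    have := Real.log_le_sub_one_of_pos hy0
    push_cast
    linarith
  have hlog0 : 0 ≤ Real.log (M : ℝ) := Real.log_nonneg (by rw [hMr]; linarith)
  -- the number of elements of P
  have hcard : (P.card : ℝ) ≤ y ^ 2 + 281 := by
    have h1 := card_small M (P.filter (fun p => p ^ 2 ≤ M)) (fun p hp => (mem_filter.mp hp).2)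
    have h2 := card_bad n hn (P.filter (fun p => ¬ p ^ 2 ≤ M)) (by
      intro p hp
      rw [mem_filter] at hp
      obtain ⟨hp1, _, hp3⟩ := hP p hp.1
      exact ⟨hp1, not_le.mp hp.2, hp3.resolve_left hp.2⟩)
    have h3 := card_filter_add_card_filter_not (s := P) (fun p => p ^ 2 ≤ M)
    have h4 : (P.card : ℝ) = ((P.filter (fun p => p ^ 2 ≤ M)).card : ℝ) +
        ((P.filter (fun p => ¬ p ^ 2 ≤ M)).card : ℝ) := by
      rw [← Nat.cast_add, h3]
    have h5 : ((P.filter (fun p => ¬ p ^ 2 ≤ M)).card : ℝ) ≤ 280 := by exact_mod_cast h2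
    rw [hsq] at h1
    linarith
  have hterm : ∀ p ∈ P, (3 * (Nat.log p M : ℝ)) * Real.log p ≤ 3 * Real.log (M : ℝ) := by
    intro p hp
    have := log_mul_log_le p M (hP p hp).1 (by omega)
    linarith
  calc ∑ p ∈ P, (3 * (Nat.log p M : ℝ)) * Real.log p
      ≤ ∑ p ∈ P, 3 * Real.log (M : ℝ) := sum_le_sum hterm
    _ = (P.card : ℝ) * (3 * Real.log (M : ℝ)) := by rw [sum_const, nsmul_eq_mul]
    _ ≤ (y ^ 2 + 281) * (3 * (4 * y)) := by
        apply mul_le_mul hcard _ (by linarith) (by positivity)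
        linarith
    _ ≤ (282 * y ^ 2) * (3 * (4 * y)) := by
        apply mul_le_mul_of_nonneg_right _ (by positivity)
        nlinarith
    _ = 3384 * y ^ 3 := by ring
    _ ≤ δ * n := by
        have h1 : 142128 ≤ δ * y := by
          rw [div_le_iff₀ hδ] at hy1
          linarith
        have h2 : y ^ 4 ≤ 42 * n := by
          rw [← hM4, hMr]
          linarith
        have h3 : 0 < y ^ 3 := by positivity
        -- 42 * 3384 * y^3 ≤ δ * y * y^3 = δ y^4 ≤ 42 δ n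
        have h4 : 142128 * y ^ 3 ≤ (δ * y) * y ^ 3 := mul_le_mul_of_nonneg_right h1 h3.le
        have h5 : (δ * y) * y ^ 3 = δ * y ^ 4 := by ring
        have h6 : δ * y ^ 4 ≤ δ * (42 * n) := mul_le_mul_of_nonneg_left h2 hδ.le
        linarith

end Pool.Agent.Z3
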