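import Pool.Agent.Z3.WTab

open Finset

namespace Pool.Agent.Z3

/-- for good p the residue n % p lies strictly in a cell and wtab is its weight -/
theorem wtab_mem (n p : ℕ) (_hn : 1 ≤ n) (hp : p.Prime) (hg : Good n p) :
    ∃ c ∈ cells, c.1 * p < (n % p) * c.2.1 ∧ (n % p) * c.2.2.2.1 < c.2.2.1 * p ∧
      wtab (n % p) p = c.2.2.2.2 :=
  wtab_eq hp.pos hg

end Pool.Agent.Z3
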