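import Pool.Agent.Z3.FiniteSum
import Pool.Agent.Z3.SumA
import Pool.Agent.Z3.SumBad
import Pool.Agent.Z3.SumCover
import Pool.Agent.PNT.Main

/-!
The growth of the common denominator: log (Dn n) <= 36.18 n for large n.
-/

open Finset Filter Topology

namespace Pool.Agent.Z3

open Classical in
/-- the exponent of p in the common denominator -/
noncomputable def ex (n p : ℕ) : ℕ :=
  if p ^ 2 ≤ 40 * n + 2 ∨ ¬ Good n p then 3 * Nat.log p (40 * n + 2)
  else if 25 * n + 1 < p then 0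
  else if 23 * n + 1 < p then 1
  else if 21 * n + 1 < p then 2
  else wtab (n % p) p

noncomputable def Dn (n : ℕ) : ℕ := ∏ p ∈ (range (40 * n + 3)).filter Nat.Prime, p ^ ex n p

theorem cells_pos : ∀ c ∈ cells, 1 ≤ c.2.1 ∧ 1 ≤ c.2.2.1 ∧ 1 ≤ c.2.2.2.1 ∧ c.2.2.2.2 ≤ 3 ∧
    (c.2.2.2.1 < 21 * c.2.2.1 → c.2.1 ≤ 21 * c.1) := by
  decide +kernel

/-- weight and interval belonging to the cell c in period m -/
noncomputable def item (m : ℕ) (c : ℕ × ℕ × ℕ × ℕ × ℕ) : ℝ × ℝ × ℝ :=
  ((c.2.2.2.2 : ℝ), (c.2.2.2.1 : ℝ) / ((m : ℝ) * c.2.2.2.1 + c.2.2.1),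
    (c.2.1 : ℝ) / ((m : ℝ) * c.2.1 + c.1))

noncomputable def itemsA : List (ℝ × ℝ × ℝ) :=
  (cells.filter (fun c => decide (c.2.1 ≤ 21 * c.1))).map (item 0)

noncomputable def itemsB : List (ℝ × ℝ × ℝ) :=
  (List.range 49).flatMap (fun m => cells.map (item (m + 1)))

noncomputable def items : List (ℝ × ℝ × ℝ) :=
  [(0, 25, 42), (1, 23, 25), (2, 21, 23), (3, 0, 1 / 50)] ++ (itemsA ++ itemsB)

theorem item_diff (m : ℕ) (c : ℕ × ℕ × ℕ × ℕ × ℕ) (hc : c ∈ cells) (h : 0 < m * c.2.1 + c.1) :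
    (item m c).2.2 - (item m c).2.1 =
      1 / (((m : ℝ) * c.2.1 + c.1) * ((m : ℝ) * c.2.2.2.1 + c.2.2.1)) := by
  have h1 : (0 : ℝ) < (m : ℝ) * c.2.1 + c.1 := by exact_mod_cast h
  have h2 : (0 : ℝ) < (m : ℝ) * c.2.2.2.1 + c.2.2.1 := by
    have := (cells_pos c hc).2.1
    have h3 : 0 < m * c.2.2.2.1 + c.2.2.1 := by omega
    exact_mod_cast h3
  have h3 : (c.2.1 : ℝ) * c.2.2.1 = c.1 * c.2.2.2.1 + 1 := by exact_mod_cast cells_det c hc
  unfold item
  simp only
  rw [div_sub_div _ _ h1.ne' h2.ne']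
  congr 1
  linear_combination h3

theorem item_ok (m : ℕ) (c : ℕ × ℕ × ℕ × ℕ × ℕ) (hc : c ∈ cells) (h : 0 < m * c.2.1 + c.1) :
    0 ≤ (item m c).1 ∧ 0 ≤ (item m c).2.1 ∧ (item m c).2.1 ≤ (item m c).2.2 := by
  refine ⟨by unfold item; positivity, by unfold item; positivity, ?_⟩
  have h1 := item_diff m c hc h
  have h2 : (0 : ℝ) ≤ 1 / (((m : ℝ) * c.2.1 + c.1) * ((m : ℝ) * c.2.2.2.1 + c.2.2.1)) := by positivity
  linarith

theorem mem_itemsA {x : ℝ × ℝ × ℝ} : x ∈ itemsA ↔ ∃ c ∈ cells, c.2.1 ≤ 21 * c.1 ∧ item 0 c = x := by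
  unfold itemsA
  simp only [List.mem_map, List.mem_filter, decide_eq_true_eq, and_assoc]

theorem mem_itemsB {x : ℝ × ℝ × ℝ} :
    x ∈ itemsB ↔ ∃ m < 49, ∃ c ∈ cells, item (m + 1) c = x := by
  unfold itemsB
  simp only [List.mem_flatMap, List.mem_map, List.mem_range]

theorem items_ok : ∀ x ∈ items, 0 ≤ x.1 ∧ 0 ≤ x.2.1 ∧ x.2.1 ≤ x.2.2 := by
  intro x hx
  unfold items at hx
  rw [List.mem_append, List.mem_append] at hx
  rcases hx with hx | hx | hx
  · simp only [List.mem_cons, List.not_mem_nil, or_false] at hx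
    rcases hx with rfl | rfl | rfl | rfl <;> norm_num
  · obtain ⟨c, hc, h1, rfl⟩ := mem_itemsA.mp hx
    have := (cells_pos c hc).1
    exact item_ok 0 c hc (by omega)
  · obtain ⟨m, _, c, hc, rfl⟩ := mem_itemsB.mp hx
    have := (cells_pos c hc).1
    refine item_ok (m + 1) c hc ?_
    have h1 : 0 < (m + 1) * c.2.1 := Nat.mul_pos (Nat.succ_pos m) this
    omega

theorem sum_flatMap_real {α : Type*} (l : List α) (f : α → List ℝ) :
    (l.flatMap f).sum = (l.map (fun a => (f a).sum)).sum := by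
  induction l with
  | nil => simp
  | cons a l ih => simp [List.flatMap_cons, List.sum_append, ih]

theorem items_sum : (items.map (fun x => x.1 * (x.2.2 - x.2.1))).sum ≤ 36.167 := by
  have hA : (itemsA.map (fun x => x.1 * (x.2.2 - x.2.1))).sum =
      ((cells.filter (fun c => decide (c.2.1 ≤ 21 * c.1))).map
        (fun c => (c.2.2.2.2 : ℝ) / ((c.1 : ℝ) * c.2.2.1))).sum := by
    unfold itemsA
    rw [List.map_map]
    congr 1
    refine List.map_congr_left fun c hc => ?_
    rw [List.mem_filter, decide_eq_true_eq] at hc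
    have := (cells_pos c hc.1).1
    simp only [Function.comp_apply]
    rw [item_diff 0 c hc.1 (by omega)]
    simp only [Nat.cast_zero, zero_mul, zero_add, item, mul_one_div]
  have hB : (itemsB.map (fun x => x.1 * (x.2.2 - x.2.1))).sum =
      ((List.range 49).map (fun m : ℕ => (cells.map (fun c => (c.2.2.2.2 : ℝ) /
      ((((m : ℝ) + 1) * c.2.1 + c.1) * (((m : ℝ) + 1) * c.2.2.2.1 + c.2.2.1)))).sum)).sum := by
    unfold itemsB
    rw [List.map_flatMap, sum_flatMap_real]
    congr 1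
    refine List.map_congr_left fun m _ => ?_
    rw [List.map_map]
    congr 1
    refine List.map_congr_left fun c hc => ?_
    have h0 := (cells_pos c hc).1
    simp only [Function.comp_apply]
    have h1 : 0 < (m + 1) * c.2.1 := Nat.mul_pos (Nat.succ_pos m) h0
    rw [item_diff (m + 1) c hc (by omega)]
    simp only [item, mul_one_div, Nat.cast_add, Nat.cast_one]
  have hF := finite_sum
  rw [← hA, ← hB] at hF
  unfold items
  rw [List.map_append, List.map_append, List.sum_append, List.sum_append]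
  simp only [List.map_cons, List.map_nil, List.sum_cons, List.sum_nil]
  norm_num at hF ⊢
  linarith

theorem not_dvd_of_good {n p : ℕ} (hg : Good n p) (d : ℕ) (h1 : 1 ≤ d) (h2 : d ≤ 40) :
    p ≠ d * n + 1 := by
  intro h
  refine hg d (Finset.mem_Icc.mpr ⟨by exact_mod_cast h1, by exact_mod_cast h2⟩) 1 (by decide) ?_
  rw [h]
  push_cast
  exact dvd_rfl

/-- every good prime is covered by one of the intervals -/
theorem ex_cover (n p : ℕ) (hn : 1 ≤ n) (hp : p.Prime) (hp1 : p ≤ 40 * n + 2)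
    (hp2 : ¬ (p ^ 2 ≤ 40 * n + 2 ∨ ¬ Good n p)) :
    ∃ x ∈ items, (ex n p : ℝ) ≤ x.1 ∧ x.2.1 * n < (p : ℝ) ∧ (p : ℝ) ≤ x.2.2 * n := by
  have hg : Good n p := by
    by_contra h
    exact hp2 (Or.inr h)
  have hnR : (1 : ℝ) ≤ n := by exact_mod_cast hn
  unfold ex
  rw [if_neg hp2]
  by_cases h25 : 25 * n + 1 < p
  · rw [if_pos h25]
    refine ⟨(0, 25, 42), by simp [items], by simp, ?_, ?_⟩
    · have : ((25 * n : ℕ) : ℝ) < p := by exact_mod_cast (by omega : 25 * n < p)
      push_cast at this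
      simpa using this
    · have : (p : ℝ) ≤ ((42 * n : ℕ) : ℝ) := by exact_mod_cast (by omega : p ≤ 42 * n)
      push_cast at this
      simpa using this
  rw [if_neg h25]
  by_cases h23 : 23 * n + 1 < p
  · rw [if_pos h23]
    have h := not_dvd_of_good hg 25 (by norm_num) (by norm_num)
    refine ⟨(1, 23, 25), by simp [items], by simp, ?_, ?_⟩
    · have : ((23 * n : ℕ) : ℝ) < p := by exact_mod_cast (by omega : 23 * n < p)
      push_cast at this
      simpa using this
    · have : (p : ℝ) ≤ ((25 * n : ℕ) : ℝ) := by exact_mod_cast (by omega : p ≤ 25 * n)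
      push_cast at this
      simpa using this
  rw [if_neg h23]
  by_cases h21 : 21 * n + 1 < p
  · rw [if_pos h21]
    have h := not_dvd_of_good hg 23 (by norm_num) (by norm_num)
    refine ⟨(2, 21, 23), by simp [items], by simp, ?_, ?_⟩
    · have : ((21 * n : ℕ) : ℝ) < p := by exact_mod_cast (by omega : 21 * n < p)
      push_cast at this
      simpa using this
    · have : (p : ℝ) ≤ ((23 * n : ℕ) : ℝ) := by exact_mod_cast (by omega : p ≤ 23 * n)
      push_cast at this
      simpa using this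
  rw [if_neg h21]
  have h := not_dvd_of_good hg 21 (by norm_num) (by norm_num)
  have hp21 : p ≤ 21 * n := by omega
  obtain ⟨c, hc, hc1, hc2, hw⟩ := wtab_mem n p hn hp hg
  obtain ⟨hb, hcc, hd, hw3, hcut⟩ := cells_pos c hc
  rw [hw]
  by_cases h50 : 50 * p ≤ n
  · refine ⟨(3, 0, 1 / 50), by simp [items], ?_, ?_, ?_⟩
    · show ((c.2.2.2.2 : ℕ) : ℝ) ≤ 3
      exact_mod_cast hw3
    · simp only [zero_mul]
      exact_mod_cast hp.pos
    · have : ((50 * p : ℕ) : ℝ) ≤ n := by exact_mod_cast h50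
      push_cast at this
      simp only
      linarith
  · have hm : n / p < 50 := by
      rw [Nat.div_lt_iff_lt_mul hp.pos]
      omega
    have hdiv : p * (n / p) + n % p = n := Nat.div_add_mod n p
    have hlo : c.2.2.2.1 * n < p * ((n / p) * c.2.2.2.1 + c.2.2.1) := by
      calc c.2.2.2.1 * n = c.2.2.2.1 * (p * (n / p) + n % p) := by rw [hdiv]
        _ = p * (n / p) * c.2.2.2.1 + (n % p) * c.2.2.2.1 := by ring
        _ < p * (n / p) * c.2.2.2.1 + c.2.2.1 * p := by omega
        _ = _ := by ring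
    have hhi : p * ((n / p) * c.2.1 + c.1) ≤ c.2.1 * n := by
      calc p * ((n / p) * c.2.1 + c.1) = p * (n / p) * c.2.1 + c.1 * p := by ring
        _ ≤ p * (n / p) * c.2.1 + (n % p) * c.2.1 := by omega
        _ = c.2.1 * (p * (n / p) + n % p) := by ring
        _ = _ := by rw [hdiv]
    have key : ∀ h0 : 0 < (n / p) * c.2.1 + c.1, ((c.2.2.2.2 : ℕ) : ℝ) ≤ (item (n / p) c).1 ∧
        (item (n / p) c).2.1 * n < (p : ℝ) ∧ (p : ℝ) ≤ (item (n / p) c).2.2 * n := by
      intro h0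
      refine ⟨le_rfl, ?_, ?_⟩
      · unfold item
        simp only
        have h2 : (0 : ℝ) < ((n / p : ℕ) : ℝ) * c.2.2.2.1 + c.2.2.1 := by
          have h3 : 0 < (n / p) * c.2.2.2.1 + c.2.2.1 := by omega
          exact_mod_cast h3
        rw [div_mul_eq_mul_div, div_lt_iff₀ h2]
        exact_mod_cast hlo
      · unfold item
        simp only
        have h2 : (0 : ℝ) < ((n / p : ℕ) : ℝ) * c.2.1 + c.1 := by exact_mod_cast h0
        rw [div_mul_eq_mul_div, le_div_iff₀ h2]
        exact_mod_cast hhi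
    rcases Nat.eq_zero_or_pos (n / p) with hm0 | hm0
    · rw [hm0] at key
      have hmod : n % p = n := by
        rw [hm0] at hdiv
        simpa using hdiv
      rw [hmod] at hc1 hc2
      have hcut' : c.2.2.2.1 < 21 * c.2.2.1 := by
        have h4 : n * c.2.2.2.1 < n * (21 * c.2.2.1) := by
          calc n * c.2.2.2.1 < c.2.2.1 * p := hc2
            _ ≤ c.2.2.1 * (21 * n) := Nat.mul_le_mul_left _ hp21
            _ = _ := by ring
        exact lt_of_mul_lt_mul_left h4 (Nat.zero_le n)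
      have hcut2 := hcut hcut'
      refine ⟨item 0 c, ?_, key (by omega)⟩
      unfold items
      rw [List.mem_append, List.mem_append]
      exact Or.inr (Or.inl (mem_itemsA.mpr ⟨c, hc, hcut2, rfl⟩))
    · refine ⟨item (n / p) c, ?_, key ?_⟩
      · unfold items
        rw [List.mem_append, List.mem_append]
        refine Or.inr (Or.inr (mem_itemsB.mpr ⟨n / p - 1, by omega, c, hc, ?_⟩))
        rw [Nat.sub_add_cancel hm0]
      · have h1 : 0 < (n / p) * c.2.1 := Nat.mul_pos hm0 hb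
        omega

theorem log_Dn_eq (n : ℕ) : Real.log (Dn n : ℝ) =
    ∑ p ∈ (range (40 * n + 3)).filter Nat.Prime, (ex n p : ℝ) * Real.log (p : ℝ) := by
  unfold Dn
  rw [Nat.cast_prod, Real.log_prod]
  · refine Finset.sum_congr rfl fun p _ => ?_
    rw [Nat.cast_pow, Real.log_pow]
  · intro p hp
    rw [mem_filter] at hp
    exact_mod_cast (pow_pos hp.2.pos _).ne'

theorem log_Dn : ∀ᶠ n : ℕ in atTop, Real.log (Dn n : ℝ) ≤ 36.18 * n := by
  classical
  have hlim := list_lim PNT.theta_asymp items (fun x hx => (items_ok x hx).2)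
  have hlt : (items.map (fun x => x.1 * (x.2.2 - x.2.1))).sum < 36.17 :=
    lt_of_le_of_lt items_sum (by norm_num)
  filter_upwards [eventually_ge_atTop 1, hlim.eventually_lt_const hlt,
    sum_bad 0.01 (by norm_num)] with n hn h1 h2
  have hn0 : (0 : ℝ) < n := by exact_mod_cast hn
  rw [div_lt_iff₀ hn0] at h1
  rw [log_Dn_eq, ← Finset.sum_filter_add_sum_filter_not _ (fun p => p ^ 2 ≤ 40 * n + 2 ∨ ¬ Good n p)]
  have hbad : ∑ p ∈ ((range (40 * n + 3)).filter Nat.Prime).filter
      (fun p => p ^ 2 ≤ 40 * n + 2 ∨ ¬ Good n p), (ex n p : ℝ) * Real.log (p : ℝ) ≤ 0.01 * n := by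
    refine le_trans (le_of_eq ?_) (h2 (((range (40 * n + 3)).filter Nat.Prime).filter
      (fun p => p ^ 2 ≤ 40 * n + 2 ∨ ¬ Good n p)) ?_)
    · refine Finset.sum_congr rfl fun p hp => ?_
      rw [mem_filter] at hp
      unfold ex
      rw [if_pos hp.2]
      push_cast
      rfl
    · intro p hp
      rw [mem_filter, mem_filter, mem_range] at hp
      exact ⟨hp.1.2, by omega, hp.2⟩
  have hgood : ∑ p ∈ ((range (40 * n + 3)).filter Nat.Prime).filter
      (fun p => ¬ (p ^ 2 ≤ 40 * n + 2 ∨ ¬ Good n p)), (ex n p : ℝ) * Real.log (p : ℝ) ≤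
      (items.map (fun x => x.1 * (Chebyshev.theta (x.2.2 * n) - Chebyshev.theta (x.2.1 * n)))).sum := by
    refine sum_le_list n (fun p => (ex n p : ℝ)) items items_ok _ ?_
    intro p hp
    rw [mem_filter, mem_filter, mem_range] at hp
    exact ⟨hp.1.2, ex_cover n p hn hp.1.2 (by omega) hp.2⟩
  linarith

end Pool.Agent.Z3
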