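import Pool.Agent.Z3.WTab
import Pool.Agent.Z3.Farey
import Pool.Agent.Z3.Crude
import Pool.Agent.Z3.Term
import Pool.Agent.Z3.Red

/-!
The bound for the primes `p ≤ 21 n + 1`.
-/

open Finset

namespace Pool.Agent.Z3

theorem PBound_mono {n p : ℕ} {w w' : ℤ} (hp : 1 ≤ p) (hw : w ≤ w') (h : PBound n p w) :
    PBound n p w' := by
  intro j hj
  have h1 : (p : ℚ) ^ w ≤ (p : ℚ) ^ w' := zpow_le_zpow_right₀ (by exact_mod_cast hp) hw
  exact ⟨(h j hj).1.trans h1, (h j hj).2.trans h1⟩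

/-- `r / p` in a cell and the mediant `N0 / P0` have the same integral parts of their multiples -/
theorem floor_cell {a b c d r p i q : ℕ} (hp : 0 < p) (h1 : a * p < r * b) (h2 : r * d < c * p)
    (h3 : q * b ≤ a * i) (h4 : c * i ≤ (q + 1) * d) (hi : 0 < i) : i * r / p = q := by
  have hb : 0 < b := by
    rcases Nat.eq_zero_or_pos b with rfl | h
    · omega
    · exact h
  rw [Nat.div_eq_iff hp]
  constructor
  · have h5 : q * p * b ≤ i * r * b := by
      calc q * p * b = q * b * p := by ring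
        _ ≤ a * i * p := Nat.mul_le_mul_right _ h3
        _ = i * (a * p) := by ring
        _ ≤ i * (r * b) := Nat.mul_le_mul_left _ h1.le
        _ = i * r * b := by ring
    exact Nat.le_of_mul_le_mul_right h5 hb
  · have h6 : i * r * d < (q + 1) * p * d := by
      calc i * r * d = i * (r * d) := by ring
        _ < i * (c * p) := Nat.mul_lt_mul_of_pos_left h2 hi
        _ = c * i * p := by ring
        _ ≤ (q + 1) * d * p := Nat.mul_le_mul_right _ h4
        _ = (q + 1) * p * d := by ring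
    have h7 : i * r < (q + 1) * p := Nat.lt_of_mul_lt_mul_right h6
    have h8 : (q + 1) * p = p * q + p := by ring
    have h9 : q * p = p * q := by ring
    omega

theorem sameCell_of {n p : ℕ} (hp : 0 < p) {c : ℕ × ℕ × ℕ × ℕ × ℕ} {N0 P0 : ℕ} (hP : 0 < P0)
    (hN : N0 < P0)
    (h : ∀ i ∈ Finset.Icc 1 40, i * N0 / P0 * c.2.1 ≤ c.1 * i ∧
      c.2.2.1 * i ≤ (i * N0 / P0 + 1) * c.2.2.2.1)
    (h1 : c.1 * p < (n % p) * c.2.1) (h2 : (n % p) * c.2.2.2.1 < c.2.2.1 * p) :
    SameCell n p N0 P0 := by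
  refine ⟨hP, hN, fun i hi => ?_⟩
  have h3 := h i hi
  rw [Finset.mem_Icc] at hi
  exact floor_cell hp h1 h2 h3.1 h3.2 (by omega)

theorem cell_bound (n p : ℕ) (hn : 1 ≤ n) (hp : p.Prime) (hp2 : 40 * n + 2 < p ^ 2)
    (hg : Good n p) {c : ℕ × ℕ × ℕ × ℕ × ℕ} (hc : c ∈ cells)
    (h1 : c.1 * p < (n % p) * c.2.1) (h2 : (n % p) * c.2.2.2.1 < c.2.2.1 * p) :
    PBound n p c.2.2.2.2 := by
  obtain ⟨N0, P0, hP, hN, hF, hinj, hcase⟩ := cells_spec c hc
  have hs := sameCell_of hp.pos hP hN hF h1 h2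
  rcases hcase with h | ⟨hw, c1, L, hr⟩
  · have he := e0_cell n p N0 P0 hn hp hg hs hinj
    have h3 := termwise n p hn hp hp2 (1 - e00 N0 P0 - (c.2.2.2.2 : ℤ)) (fun s hs' => by
      obtain ⟨e, he1, _, _, he2⟩ := phi_cell n p N0 P0 hn hp hg hs hinj s hs'
      rw [he2]
      exact h e he1)
    rw [he] at h3
    exact PBound_mono hp.one_le (by linarith) h3
  · exact PBound_mono hp.one_le hw (red_bound n p N0 P0 c1 L hn hp hp2 hg hs hr)

theorem table_bound (n p : ℕ) (hn : 1 ≤ n) (hp : p.Prime) (hp2 : 40 * n + 2 < p ^ 2)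
    (hg : Good n p) (h21 : p ≤ 21 * n + 1) : PBound n p (wtab (n % p) p) := by
  unfold wtab
  rcases hf : cells.find? (fun c => decide (c.1 * p < n % p * c.2.1 ∧
    n % p * c.2.2.2.1 < c.2.2.1 * p)) with _ | c
  · rw [hf, Option.map_none, Option.getD_none]
    have h1 := crude n p hn hp
    have h2 : Nat.log p (40 * n + 2) = 1 := by
      rw [Nat.log_eq_iff (Or.inl one_ne_zero)]
      exact ⟨by rw [pow_one]; omega, by simpa using hp2⟩
    rw [h2] at h1
    exact_mod_cast h1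
  · rw [hf, Option.map_some, Option.getD_some]
    have h1 := List.find?_some hf
    have h2 := List.mem_of_find?_eq_some hf
    simp only [decide_eq_true_eq] at h1
    exact cell_bound n p hn hp hp2 hg h2 h1.1 h1.2

end Pool.Agent.Z3
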