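import Pool.Agent.Z3.IntAux
import Pool.Agent.Z3.Crude
import Pool.Agent.Z3.Term
import Pool.Agent.Z3.Table
import Pool.Agent.Z3.Sum

/-!
Integrality of the linear forms after multiplication by the common denominator.
-/

open Finset

namespace Pool.Agent.Z3

theorem ex_bound (n p : ℕ) (hn : 1 ≤ n) (hp : p.Prime) : PBound n p (ex n p) := by
  unfold ex
  split_ifs with h1 h2 h3 h4
  · have := crude n p hn hp
    push_cast
    exact this
  · push Not at h1
    exact big3 n p hn hp h1.1 h2
  · push Not at h1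
    exact big2 n p hn hp h1.1 h3
  · push Not at h1
    exact big1 n p hn hp h1.1 h4
  · push Not at h1 h4
    exact table_bound n p hn hp h1.1 h1.2 h4

theorem Dn_integral (n j : ℕ) (hn : 1 ≤ n) (hj : j ≤ 2) :
    (∃ z : ℤ, (Dn n : ℚ) * a n j = z) ∧ ∃ z : ℤ, (Dn n : ℚ) * b n j = z := by
  refine int_of_PBound n (ex n) (fun p hp _ => ex_bound n p hn hp) (fun p hp hlt => ?_) j hj
  exact big3 n p hn hp (by nlinarith) (by omega)

end Pool.Agent.Z3
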