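import Pool.Agent.Z3.Defs
import Pool.Agent.Z3.Assemble
import Pool.Agent.Z3.Form
import Pool.Agent.Z3.Nonvan
import Pool.Agent.Z3.FBound
import Pool.Agent.Z3.ABound
import Pool.Agent.Z3.Sum
import Pool.Agent.Z3.Int

/-!
The irrationality exponent of zeta(3).
-/

open Filter Topology

namespace Pool.Agent.Z3

theorem Dn_pos (n : ℕ) : 0 < Dn n := by
  unfold Dn
  exact Finset.prod_pos fun p hp => pow_pos (Finset.mem_filter.mp hp).2.pos _

/-- **The irrationality exponent of zeta(3) is at most 5.328.** -/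
theorem zeta3_exponent (mu : ℝ) (hmu : 5.328 ≤ mu) :
    ∃ Q : ℕ, ∀ q : ℕ, Q ≤ q → ∀ p : ℤ, (q : ℝ) ^ (-mu) < |zeta3 - p / q| := by
  refine assemble zeta3 (fun N j => a (4 * N) j) (fun N j => b (4 * N) j) (fun N => Dn (4 * N))
    (fun N j => Iint (-(25 * (N : ℤ))) (G (4 * N) j)) 257.56 343.64 144.72 112.8399 488.3601 mu
    (fun N _ => Dn_pos _) (fun N j hN hj => F_eq N j hN hj) (fun N hN l => nonvanish N hN l)
    F_bound a_bound ?_ (fun N j hN hj => Dn_integral (4 * N) j (by omega) hj)
    (by norm_num) (by norm_num) (by norm_num) (by norm_num) (lt_of_lt_of_le (by norm_num) hmu)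
  have ht : Tendsto (fun N : ℕ => 4 * N) atTop atTop :=
    tendsto_atTop_mono (fun N => by simp only [id]; omega) tendsto_id
  filter_upwards [ht.eventually log_Dn] with N hN
  refine hN.trans (le_of_eq ?_)
  push_cast
  ring

/-- the series is the value of the zeta function -/
theorem zeta3_eq : (zeta3 : ℂ) = riemannZeta 3 := by
  have h := zeta_nat_eq_tsum_of_gt_one (k := 3) (by norm_num)
  rw [show ((3 : ℕ) : ℂ) = 3 by norm_num] at h
  rw [h, zeta3]
  push_cast
  have hs : Summable (fun n : ℕ => 1 / (n : ℂ) ^ 3) := by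
    have h1 : Summable (fun n : ℕ => 1 / (n : ℝ) ^ 3) := Real.summable_one_div_nat_pow.mpr (by norm_num)
    have h2 := Complex.ofRealCLM.summable h1
    refine h2.congr fun n => ?_
    simp
  rw [hs.tsum_eq_zero_add]
  simp

end Pool.Agent.Z3
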