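import Pool.Agent.Z3.FiniteSum
import Pool.Agent.Z3.SumA
import Pool.Agent.Z3.SumBad
import Pool.Agent.Z3.Ex2
import Pool.Agent.PNT.Main

/-!
The growth of the common denominator with the weights of the second order cancellation:
log (Dn2 n) is at most 36.05681 n for large n. The first 49 periods are summed exactly, the others
by telescoping.
-/

open Finset Filter Topology

namespace Pool.Agent.Z3

theorem cells2_det : ∀ c ∈ cells2, c.2.1 * c.2.2.1 = c.1 * c.2.2.2.1 + 1 := by
  decide +kernel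

theorem cells2_pos : ∀ c ∈ cells2, 1 ≤ c.2.1 ∧ 1 ≤ c.2.2.1 ∧ 1 ≤ c.2.2.2.1 ∧ c.2.2.2.2 ≤ 3 ∧
    (c.2.2.2.1 < 21 * c.2.2.1 → c.2.1 ≤ 21 * c.1) := by
  decide +kernel

/-- scaled bound for the sum of the periods from 50 on -/
def tailTerm (c : ℕ × ℕ × ℕ × ℕ × ℕ) : ℕ :=
  2 * c.2.2.2.2 * 10 ^ 12 / (99 * (c.2.1 * c.2.2.2.1) + c.1 * c.2.2.2.1 + c.2.1 * c.2.2.1) + 1

theorem scaled_check2 :
    ((cells2.filter (fun c => decide (c.2.1 ≤ 21 * c.1))).map (fsTerm 0)).sum +
    ((List.range 49).map (fun m : ℕ => (cells2.map (fsTerm (m + 1))).sum)).sum +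
    (cells2.map tailTerm).sum ≤ 30056800000000 := by
  decide +kernel

/-- the telescoping term of a cell: from the period `k + 50` on -/
noncomputable def tele (k : ℕ) (c : ℕ × ℕ × ℕ × ℕ × ℕ) : ℝ :=
  2 * c.2.2.2.2 / ((99 + 2 * k) * (c.2.1 * c.2.2.2.1) + c.1 * c.2.2.2.1 + c.2.1 * c.2.2.1)

theorem tele_nonneg (k : ℕ) (c : ℕ × ℕ × ℕ × ℕ × ℕ) : 0 ≤ tele k c := by
  unfold tele
  positivity

/-- the term of a cell in the period m -/
noncomputable def perTerm (m : ℕ) (c : ℕ × ℕ × ℕ × ℕ × ℕ) : ℝ :=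
  (c.2.2.2.2 : ℝ) / (((m : ℝ) * c.2.1 + c.1) * ((m : ℝ) * c.2.2.2.1 + c.2.2.1))

theorem tele_step (k : ℕ) (c : ℕ × ℕ × ℕ × ℕ × ℕ) (hc : c ∈ cells2) :
    perTerm (k + 50) c ≤ tele k c - tele (k + 1) c := by
  obtain ⟨hb, hcc, hd, -, -⟩ := cells2_pos c hc
  have hdet : (c.2.1 : ℝ) * c.2.2.1 = c.1 * c.2.2.2.1 + 1 := by exact_mod_cast cells2_det c hc
  unfold perTerm tele
  have ha : (0 : ℝ) ≤ c.1 := Nat.cast_nonneg _
  have hb' : (1 : ℝ) ≤ c.2.1 := by exact_mod_cast hb
  have hc' : (1 : ℝ) ≤ c.2.2.1 := by exact_mod_cast hcc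
  have hd' : (1 : ℝ) ≤ c.2.2.2.1 := by exact_mod_cast hd
  have hw : (0 : ℝ) ≤ c.2.2.2.2 := Nat.cast_nonneg _
  have hk : (0 : ℝ) ≤ k := Nat.cast_nonneg _
  generalize (c.1 : ℝ) = a at *
  generalize (c.2.1 : ℝ) = b at *
  generalize (c.2.2.1 : ℝ) = e at *
  generalize (c.2.2.2.1 : ℝ) = d at *
  generalize (c.2.2.2.2 : ℝ) = w at *
  push_cast
  generalize (k : ℝ) = x at *
  have hbd : 1 ≤ b * d := by nlinarith
  have h1 : 0 < (99 + 2 * x) * (b * d) + a * d + b * e := by positivity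
  have h2 : 0 < (99 + 2 * (x + 1)) * (b * d) + a * d + b * e := by positivity
  have h3 : 0 < ((x + 50) * b + a) * ((x + 50) * d + e) := by positivity
  rw [div_sub_div _ _ h1.ne' h2.ne', div_le_div_iff₀ h3 (mul_pos h1 h2)]
  have h4 : (2 * w * ((99 + 2 * (x + 1)) * (b * d) + a * d + b * e) -
      ((99 + 2 * x) * (b * d) + a * d + b * e) * (2 * w)) *
      (((x + 50) * b + a) * ((x + 50) * d + e)) -
      w * (((99 + 2 * x) * (b * d) + a * d + b * e) *
        ((99 + 2 * (x + 1)) * (b * d) + a * d + b * e)) =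
      w * ((b * d) ^ 2 - (b * e - a * d) ^ 2) := by
    ring
  have h5 : (b * e - a * d) ^ 2 = 1 := by
    rw [hdet]
    ring
  rw [h5] at h4
  have h6 : 0 ≤ w * ((b * d) ^ 2 - 1) := mul_nonneg hw (by nlinarith)
  linarith

theorem tele_list (k : ℕ) (l : List (ℕ × ℕ × ℕ × ℕ × ℕ)) (hl : ∀ c ∈ l, c ∈ cells2) :
    (l.map (perTerm (k + 50))).sum ≤ (l.map (tele k)).sum - (l.map (tele (k + 1))).sum := by
  induction l with
  | nil => simp
  | cons c l ih =>
    simp only [List.map_cons, List.sum_cons]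
    have h1 := tele_step k c (hl c List.mem_cons_self)
    have h2 := ih (fun x hx => hl x (List.mem_cons_of_mem _ hx))
    linarith

theorem tele_sum (K : ℕ) :
    ((List.range K).map (fun k : ℕ => (cells2.map (perTerm (k + 50))).sum)).sum ≤
      (cells2.map (tele 0)).sum - (cells2.map (tele K)).sum := by
  induction K with
  | zero => simp
  | succ K ih =>
    rw [List.range_succ, List.map_append, List.sum_append, List.map_singleton, List.sum_singleton]
    have h1 := tele_list K cells2 (fun c hc => hc)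
    linarith

theorem tele_sum_nonneg (K : ℕ) (l : List (ℕ × ℕ × ℕ × ℕ × ℕ)) : 0 ≤ (l.map (tele K)).sum := by
  refine List.sum_nonneg ?_
  intro x hx
  rw [List.mem_map] at hx
  obtain ⟨c, -, rfl⟩ := hx
  exact tele_nonneg K c

theorem tele_le_scaled (l : List (ℕ × ℕ × ℕ × ℕ × ℕ)) :
    (l.map (tele 0)).sum ≤ (((l.map tailTerm).sum : ℕ) : ℝ) / 10 ^ 12 := by
  induction l with
  | nil => simp
  | cons c l ih =>
    rw [List.map_cons, List.sum_cons, List.map_cons, List.sum_cons, Nat.cast_add, add_div]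
    refine add_le_add ?_ ih
    have := div_le_scaled (2 * c.2.2.2.2)
      (99 * (c.2.1 * c.2.2.2.1) + c.1 * c.2.2.2.1 + c.2.1 * c.2.2.1)
    unfold tailTerm tele
    push_cast at this ⊢
    simpa using this

/-- all periods from 1 on, and the period 0 -/
theorem periods_sum (K : ℕ) :
    ((cells2.filter (fun c => decide (c.2.1 ≤ 21 * c.1))).map (perTerm 0)).sum +
    ((List.range (49 + K)).map (fun m : ℕ => (cells2.map (perTerm (m + 1))).sum)).sum ≤ 30.0568 := by
  have h0 := sum_le_scaled 0 (cells2.filter (fun c => decide (c.2.1 ≤ 21 * c.1)))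
  have h1 := double_sum_le_scaled ((List.range 49).map (fun m : ℕ => m + 1)) cells2
  rw [List.map_map, List.map_map] at h1
  have h2 := tele_sum K
  have h3 := tele_sum_nonneg K cells2
  have h4 := tele_le_scaled cells2
  have e : ((List.range (49 + K)).map (fun m : ℕ => (cells2.map (perTerm (m + 1))).sum)).sum =
      ((List.range 49).map (fun m : ℕ => (cells2.map (perTerm (m + 1))).sum)).sum +
      ((List.range K).map (fun k : ℕ => (cells2.map (perTerm (k + 50))).sum)).sum := by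
    rw [List.range_add, List.map_append, List.sum_append, List.map_map]
    congr 2
    refine List.map_congr_left fun k _ => ?_
    have : 49 + k + 1 = k + 50 := by ring
    simp only [Function.comp_apply, this]
  have h5 : (((((cells2.filter (fun c => decide (c.2.1 ≤ 21 * c.1))).map (fsTerm 0)).sum +
      ((List.range 49).map (fun m : ℕ => (cells2.map (fsTerm (m + 1))).sum)).sum +
      (cells2.map tailTerm).sum : ℕ)) : ℝ) ≤ ((30056800000000 : ℕ) : ℝ) := by
    exact_mod_cast scaled_check2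
  rw [e]
  have h0' : ((cells2.filter (fun c => decide (c.2.1 ≤ 21 * c.1))).map (perTerm 0)).sum ≤
      (((cells2.filter (fun c => decide (c.2.1 ≤ 21 * c.1))).map (fsTerm 0)).sum : ℕ) / 10 ^ 12 := h0
  have h1' : ((List.range 49).map (fun m : ℕ => (cells2.map (perTerm (m + 1))).sum)).sum ≤
      (((List.range 49).map (fun m : ℕ => (cells2.map (fsTerm (m + 1))).sum)).sum : ℕ) / 10 ^ 12 := h1
  push_cast at h5 h0' h1' h4
  have h6 : (10 : ℝ) ^ 12 ≠ 0 := by positivity
  have h7 : (30056800000000 : ℝ) / 10 ^ 12 = 30.0568 := by norm_num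
  have h8 := div_le_div_of_nonneg_right h5 (by positivity : (0 : ℝ) ≤ 10 ^ 12)
  rw [add_div, add_div, h7] at h8
  linarith

/-- weight and interval belonging to the cell c in period m -/
noncomputable def item2 (m : ℕ) (c : ℕ × ℕ × ℕ × ℕ × ℕ) : ℝ × ℝ × ℝ :=
  ((c.2.2.2.2 : ℝ), (c.2.2.2.1 : ℝ) / ((m : ℝ) * c.2.2.2.1 + c.2.2.1),
    (c.2.1 : ℝ) / ((m : ℝ) * c.2.1 + c.1))

noncomputable def items2A : List (ℝ × ℝ × ℝ) :=
  (cells2.filter (fun c => decide (c.2.1 ≤ 21 * c.1))).map (item2 0)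

noncomputable def items2B (K : ℕ) : List (ℝ × ℝ × ℝ) :=
  (List.range (49 + K)).flatMap (fun m => cells2.map (item2 (m + 1)))

noncomputable def items2 (K : ℕ) : List (ℝ × ℝ × ℝ) :=
  [(0, 25, 42), (1, 23, 25), (2, 21, 23), (3, 0, 1 / (50 + K : ℝ))] ++ (items2A ++ items2B K)

theorem item2_diff (m : ℕ) (c : ℕ × ℕ × ℕ × ℕ × ℕ) (hc : c ∈ cells2) (h : 0 < m * c.2.1 + c.1) :
    (item2 m c).2.2 - (item2 m c).2.1 =
      1 / (((m : ℝ) * c.2.1 + c.1) * ((m : ℝ) * c.2.2.2.1 + c.2.2.1)) := by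
  have h1 : (0 : ℝ) < (m : ℝ) * c.2.1 + c.1 := by exact_mod_cast h
  have h2 : (0 : ℝ) < (m : ℝ) * c.2.2.2.1 + c.2.2.1 := by
    have := (cells2_pos c hc).2.1
    have h3 : 0 < m * c.2.2.2.1 + c.2.2.1 := by omega
    exact_mod_cast h3
  have h3 : (c.2.1 : ℝ) * c.2.2.1 = c.1 * c.2.2.2.1 + 1 := by exact_mod_cast cells2_det c hc
  unfold item2
  simp only
  rw [div_sub_div _ _ h1.ne' h2.ne']
  congr 1
  linear_combination h3

theorem item2_term (m : ℕ) (c : ℕ × ℕ × ℕ × ℕ × ℕ) (hc : c ∈ cells2) (h : 0 < m * c.2.1 + c.1) :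
    (item2 m c).1 * ((item2 m c).2.2 - (item2 m c).2.1) = perTerm m c := by
  rw [item2_diff m c hc h]
  unfold perTerm item2
  rw [mul_one_div]

theorem item2_ok (m : ℕ) (c : ℕ × ℕ × ℕ × ℕ × ℕ) (hc : c ∈ cells2) (h : 0 < m * c.2.1 + c.1) :
    0 ≤ (item2 m c).1 ∧ 0 ≤ (item2 m c).2.1 ∧ (item2 m c).2.1 ≤ (item2 m c).2.2 := by
  refine ⟨by unfold item2; positivity, by unfold item2; positivity, ?_⟩
  have h1 := item2_diff m c hc h
  have h2 : (0 : ℝ) ≤ 1 / (((m : ℝ) * c.2.1 + c.1) * ((m : ℝ) * c.2.2.2.1 + c.2.2.1)) := by positivity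
  linarith

theorem mem_items2A {x : ℝ × ℝ × ℝ} :
    x ∈ items2A ↔ ∃ c ∈ cells2, c.2.1 ≤ 21 * c.1 ∧ item2 0 c = x := by
  unfold items2A
  simp only [List.mem_map, List.mem_filter, decide_eq_true_eq, and_assoc]

theorem mem_items2B {K : ℕ} {x : ℝ × ℝ × ℝ} :
    x ∈ items2B K ↔ ∃ m < 49 + K, ∃ c ∈ cells2, item2 (m + 1) c = x := by
  unfold items2B
  simp only [List.mem_flatMap, List.mem_map, List.mem_range]

theorem items2_ok (K : ℕ) : ∀ x ∈ items2 K, 0 ≤ x.1 ∧ 0 ≤ x.2.1 ∧ x.2.1 ≤ x.2.2 := by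
  intro x hx
  unfold items2 at hx
  rw [List.mem_append, List.mem_append] at hx
  rcases hx with hx | hx | hx
  · simp only [List.mem_cons, List.not_mem_nil, or_false] at hx
    rcases hx with rfl | rfl | rfl | rfl
    · norm_num
    · norm_num
    · norm_num
    · exact ⟨by norm_num, le_rfl, by positivity⟩
  · obtain ⟨c, hc, h1, rfl⟩ := mem_items2A.mp hx
    have := (cells2_pos c hc).1
    exact item2_ok 0 c hc (by omega)
  · obtain ⟨m, _, c, hc, rfl⟩ := mem_items2B.mp hx
    have := (cells2_pos c hc).1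
    refine item2_ok (m + 1) c hc ?_
    have h1 : 0 < (m + 1) * c.2.1 := Nat.mul_pos (Nat.succ_pos m) this
    omega

theorem sum_flatMap_real2 {α : Type*} (l : List α) (f : α → List ℝ) :
    (l.flatMap f).sum = (l.map (fun a => (f a).sum)).sum := by
  induction l with
  | nil => simp
  | cons a l ih => simp [List.flatMap_cons, List.sum_append, ih]

theorem items2_sum (K : ℕ) :
    ((items2 K).map (fun x => x.1 * (x.2.2 - x.2.1))).sum ≤ 36.0568 + 3 / (50 + K : ℝ) := by
  have hA : (items2A.map (fun x => x.1 * (x.2.2 - x.2.1))).sum =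
      ((cells2.filter (fun c => decide (c.2.1 ≤ 21 * c.1))).map (perTerm 0)).sum := by
    unfold items2A
    rw [List.map_map]
    congr 1
    refine List.map_congr_left fun c hc => ?_
    rw [List.mem_filter, decide_eq_true_eq] at hc
    have := (cells2_pos c hc.1).1
    simp only [Function.comp_apply]
    exact item2_term 0 c hc.1 (by omega)
  have hB : ((items2B K).map (fun x => x.1 * (x.2.2 - x.2.1))).sum =
      ((List.range (49 + K)).map (fun m : ℕ => (cells2.map (perTerm (m + 1))).sum)).sum := by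
    unfold items2B
    rw [List.map_flatMap, sum_flatMap_real2]
    congr 1
    refine List.map_congr_left fun m _ => ?_
    rw [List.map_map]
    congr 1
    refine List.map_congr_left fun c hc => ?_
    have h0 := (cells2_pos c hc).1
    simp only [Function.comp_apply]
    have h1 : 0 < (m + 1) * c.2.1 := Nat.mul_pos (Nat.succ_pos m) h0
    exact item2_term (m + 1) c hc (by omega)
  have hF := periods_sum K
  rw [← hA, ← hB] at hF
  unfold items2
  rw [List.map_append, List.map_append, List.sum_append, List.sum_append]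
  simp only [List.map_cons, List.map_nil, List.sum_cons, List.sum_nil]
  have h3 : (3 : ℝ) * (1 / (50 + K) - 0) = 3 / (50 + K : ℝ) := by ring
  rw [h3]
  linarith

theorem not_dvd_of_good2 {n p : ℕ} (hg : Good n p) (d : ℕ) (h1 : 1 ≤ d) (h2 : d ≤ 40) :
    p ≠ d * n + 1 := by
  intro h
  refine hg d (Finset.mem_Icc.mpr ⟨by exact_mod_cast h1, by exact_mod_cast h2⟩) 1 (by decide) ?_
  rw [h]
  push_cast
  exact dvd_rfl

/-- every good prime is covered by one of the intervals -/
theorem ex2_cover (K n p : ℕ) (hn : 1 ≤ n) (hp : p.Prime) (hp1 : p ≤ 40 * n + 2)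
    (hp2 : ¬ (p ^ 2 ≤ 40 * n + 2 ∨ ¬ Good n p)) :
    ∃ x ∈ items2 K, (ex2 n p : ℝ) ≤ x.1 ∧ x.2.1 * n < (p : ℝ) ∧ (p : ℝ) ≤ x.2.2 * n := by
  have hg : Good n p := by
    by_contra h
    exact hp2 (Or.inr h)
  have hnR : (1 : ℝ) ≤ n := by exact_mod_cast hn
  have hm1 : ((0 : ℝ), (25 : ℝ), (42 : ℝ)) ∈ items2 K := by
    unfold items2
    exact List.mem_append_left _ List.mem_cons_self
  have hm2 : ((1 : ℝ), (23 : ℝ), (25 : ℝ)) ∈ items2 K := by
    unfold items2
    exact List.mem_append_left _ (List.mem_cons_of_mem _ List.mem_cons_self)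
  have hm3 : ((2 : ℝ), (21 : ℝ), (23 : ℝ)) ∈ items2 K := by
    unfold items2
    exact List.mem_append_left _ (List.mem_cons_of_mem _ (List.mem_cons_of_mem _ List.mem_cons_self))
  have hm4 : ((3 : ℝ), (0 : ℝ), 1 / (50 + K : ℝ)) ∈ items2 K := by
    unfold items2
    exact List.mem_append_left _ (List.mem_cons_of_mem _ (List.mem_cons_of_mem _
      (List.mem_cons_of_mem _ List.mem_cons_self)))
  unfold ex2
  rw [if_neg hp2]
  by_cases h25 : 25 * n + 1 < p
  · rw [if_pos h25]
    refine ⟨(0, 25, 42), hm1, by simp, ?_, ?_⟩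
    · have : ((25 * n : ℕ) : ℝ) < p := by exact_mod_cast (by omega : 25 * n < p)
      push_cast at this
      simpa using this
    · have : (p : ℝ) ≤ ((42 * n : ℕ) : ℝ) := by exact_mod_cast (by omega : p ≤ 42 * n)
      push_cast at this
      simpa using this
  rw [if_neg h25]
  by_cases h23 : 23 * n + 1 < p
  · rw [if_pos h23]
    have h := not_dvd_of_good2 hg 25 (by norm_num) (by norm_num)
    refine ⟨(1, 23, 25), hm2, by simp, ?_, ?_⟩
    · have : ((23 * n : ℕ) : ℝ) < p := by exact_mod_cast (by omega : 23 * n < p)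
      push_cast at this
      simpa using this
    · have : (p : ℝ) ≤ ((25 * n : ℕ) : ℝ) := by exact_mod_cast (by omega : p ≤ 25 * n)
      push_cast at this
      simpa using this
  rw [if_neg h23]
  by_cases h21 : 21 * n + 1 < p
  · rw [if_pos h21]
    have h := not_dvd_of_good2 hg 23 (by norm_num) (by norm_num)
    refine ⟨(2, 21, 23), hm3, by simp, ?_, ?_⟩
    · have : ((21 * n : ℕ) : ℝ) < p := by exact_mod_cast (by omega : 21 * n < p)
      push_cast at this
      simpa using this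
    · have : (p : ℝ) ≤ ((23 * n : ℕ) : ℝ) := by exact_mod_cast (by omega : p ≤ 23 * n)
      push_cast at this
      simpa using this
  rw [if_neg h21]
  have h := not_dvd_of_good2 hg 21 (by norm_num) (by norm_num)
  have hp21 : p ≤ 21 * n := by omega
  obtain ⟨c, hc, hc1, hc2, hw⟩ := wtab2_eq hp.pos hg
  obtain ⟨hb, hcc, hd, hw3, hcut⟩ := cells2_pos c hc
  rw [hw]
  by_cases h50 : (50 + K) * p ≤ n
  · refine ⟨(3, 0, 1 / (50 + K : ℝ)), hm4, ?_, ?_, ?_⟩
    · show ((c.2.2.2.2 : ℕ) : ℝ) ≤ 3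
      exact_mod_cast hw3
    · simp only [zero_mul]
      exact_mod_cast hp.pos
    · have : (((50 + K) * p : ℕ) : ℝ) ≤ n := by exact_mod_cast h50
      push_cast at this
      simp only
      rw [one_div, ← div_eq_inv_mul, le_div_iff₀ (by positivity)]
      linarith
  · have hm : n / p < 50 + K := by
      rw [Nat.div_lt_iff_lt_mul hp.pos]
      omega
    have hdiv : p * (n / p) + n % p = n := Nat.div_add_mod n p
    have hlo : c.2.2.2.1 * n < p * ((n / p) * c.2.2.2.1 + c.2.2.1) := by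
      calc c.2.2.2.1 * n = c.2.2.2.1 * (p * (n / p) + n % p) := by rw [hdiv]
        _ = p * (n / p) * c.2.2.2.1 + (n % p) * c.2.2.2.1 := by ring
        _ < p * (n / p) * c.2.2.2.1 + c.2.2.1 * p := by omega
        _ = _ := by ring
    have hhi : p * ((n / p) * c.2.1 + c.1) ≤ c.2.1 * n := by
      calc p * ((n / p) * c.2.1 + c.1) = p * (n / p) * c.2.1 + c.1 * p := by ring
        _ ≤ p * (n / p) * c.2.1 + (n % p) * c.2.1 := by omega
        _ = c.2.1 * (p * (n / p) + n % p) := by ring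
        _ = _ := by rw [hdiv]
    have key : ∀ h0 : 0 < (n / p) * c.2.1 + c.1, ((c.2.2.2.2 : ℕ) : ℝ) ≤ (item2 (n / p) c).1 ∧
        (item2 (n / p) c).2.1 * n < (p : ℝ) ∧ (p : ℝ) ≤ (item2 (n / p) c).2.2 * n := by
      intro h0
      refine ⟨le_rfl, ?_, ?_⟩
      · unfold item2
        simp only
        have h2 : (0 : ℝ) < ((n / p : ℕ) : ℝ) * c.2.2.2.1 + c.2.2.1 := by
          have h3 : 0 < (n / p) * c.2.2.2.1 + c.2.2.1 := by omega
          exact_mod_cast h3
        rw [div_mul_eq_mul_div, div_lt_iff₀ h2]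
        exact_mod_cast hlo
      · unfold item2
        simp only
        have h2 : (0 : ℝ) < ((n / p : ℕ) : ℝ) * c.2.1 + c.1 := by exact_mod_cast h0
        rw [div_mul_eq_mul_div, le_div_iff₀ h2]
        exact_mod_cast hhi
    rcases Nat.eq_zero_or_pos (n / p) with hm0 | hm0
    · rw [hm0] at key
      have hmod : n % p = n := by
        rw [hm0] at hdiv
        simpa using hdiv
      rw [hmod] at hc1 hc2
      have hcut' : c.2.2.2.1 < 21 * c.2.2.1 := by
        have h4 : n * c.2.2.2.1 < n * (21 * c.2.2.1) := by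
          calc n * c.2.2.2.1 < c.2.2.1 * p := hc2
            _ ≤ c.2.2.1 * (21 * n) := Nat.mul_le_mul_left _ hp21
            _ = _ := by ring
        exact lt_of_mul_lt_mul_left h4 (Nat.zero_le n)
      have hcut2 := hcut hcut'
      refine ⟨item2 0 c, ?_, key (by omega)⟩
      unfold items2
      rw [List.mem_append, List.mem_append]
      exact Or.inr (Or.inl (mem_items2A.mpr ⟨c, hc, hcut2, rfl⟩))
    · refine ⟨item2 (n / p) c, ?_, key ?_⟩
      · unfold items2
        rw [List.mem_append, List.mem_append]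
        refine Or.inr (Or.inr (mem_items2B.mpr ⟨n / p - 1, by omega, c, hc, ?_⟩))
        rw [Nat.sub_add_cancel hm0]
      · have h1 : 0 < (n / p) * c.2.1 := Nat.mul_pos hm0 hb
        omega

theorem log_Dn2_eq (n : ℕ) : Real.log (Dn2 n : ℝ) =
    ∑ p ∈ (range (40 * n + 3)).filter Nat.Prime, (ex2 n p : ℝ) * Real.log (p : ℝ) := by
  unfold Dn2
  rw [Nat.cast_prod, Real.log_prod]
  · refine Finset.sum_congr rfl fun p _ => ?_
    rw [Nat.cast_pow, Real.log_pow]
  · intro p hp
    rw [mem_filter] at hp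
    exact_mod_cast (pow_pos hp.2.pos _).ne'

theorem log_Dn2_sharp : ∀ᶠ n : ℕ in atTop, Real.log (Dn2 n : ℝ) ≤ 36.05681 * n := by
  classical
  have hlim := list_lim PNT.theta_asymp (items2 1000000) (fun x hx => (items2_ok _ x hx).2)
  have hlt : ((items2 1000000).map (fun x => x.1 * (x.2.2 - x.2.1))).sum < 36.056804 :=
    lt_of_le_of_lt (items2_sum 1000000) (by norm_num)
  filter_upwards [eventually_ge_atTop 1, hlim.eventually_lt_const hlt,
    sum_bad 0.000001 (by norm_num)] with n hn h1 h2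
  have hn0 : (0 : ℝ) < n := by exact_mod_cast hn
  rw [div_lt_iff₀ hn0] at h1
  rw [log_Dn2_eq, ← Finset.sum_filter_add_sum_filter_not _ (fun p => p ^ 2 ≤ 40 * n + 2 ∨ ¬ Good n p)]
  have hbad : ∑ p ∈ ((range (40 * n + 3)).filter Nat.Prime).filter
      (fun p => p ^ 2 ≤ 40 * n + 2 ∨ ¬ Good n p), (ex2 n p : ℝ) * Real.log (p : ℝ) ≤
      0.000001 * n := by
    refine le_trans (le_of_eq ?_) (h2 (((range (40 * n + 3)).filter Nat.Prime).filter
      (fun p => p ^ 2 ≤ 40 * n + 2 ∨ ¬ Good n p)) ?_)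
    · refine Finset.sum_congr rfl fun p hp => ?_
      rw [mem_filter] at hp
      unfold ex2
      rw [if_pos hp.2]
      push_cast
      rfl
    · intro p hp
      rw [mem_filter, mem_filter, mem_range] at hp
      exact ⟨hp.1.2, by omega, hp.2⟩
  have hgood : ∑ p ∈ ((range (40 * n + 3)).filter Nat.Prime).filter
      (fun p => ¬ (p ^ 2 ≤ 40 * n + 2 ∨ ¬ Good n p)), (ex2 n p : ℝ) * Real.log (p : ℝ) ≤
      ((items2 1000000).map
        (fun x => x.1 * (Chebyshev.theta (x.2.2 * n) - Chebyshev.theta (x.2.1 * n)))).sum := by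
    refine sum_le_list n (fun p => (ex2 n p : ℝ)) (items2 1000000) (items2_ok _) _ ?_
    intro p hp
    rw [mem_filter, mem_filter, mem_range] at hp
    exact ⟨hp.1.2, ex2_cover _ n p hn hp.1.2 (by omega) hp.2⟩
  linarith

theorem log_Dn2 : ∀ᶠ n : ℕ in atTop, Real.log (Dn2 n : ℝ) ≤ 36.057 * n := by
  filter_upwards [log_Dn2_sharp] with n hn
  have : (0 : ℝ) ≤ n := Nat.cast_nonneg n
  linarith

end Pool.Agent.Z3
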