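import Mathlib
import Pool.Agent.Z3.Defs

/-!
A rational number whose p-adic absolute values are all at most one is an integer; clearing
denominators by a product of prime powers.
-/

open Finset

namespace Pool.Agent.Z3

/-- a rational number which is integral at all primes is an integer -/
theorem int_of_padicNorm_le (x : ℚ) (h : ∀ p : ℕ, p.Prime → padicNorm p x ≤ 1) : ∃ z : ℤ, x = z := by
  by_cases hden : x.den = 1
  · exact ⟨x.num, (Rat.coe_int_num_of_den_eq_one hden).symm⟩
  · exfalso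
    obtain ⟨p, hp, hpd⟩ := Nat.exists_prime_and_dvd hden
    have : Fact p.Prime := ⟨hp⟩
    have hx0 : x ≠ 0 := by
      rintro rfl
      exact hden rfl
    have hnum : ¬ (p : ℤ) ∣ x.num := by
      intro h1
      have h2 : p ∣ x.num.natAbs := Int.natCast_dvd.mp h1
      have h3 : p ∣ 1 := by
        rw [← x.reduced]
        exact Nat.dvd_gcd h2 hpd
      exact hp.one_lt.ne' (Nat.dvd_one.mp h3)
    have h1 : padicValInt p x.num = 0 := padicValInt.eq_zero_of_not_dvd hnum
    have h2 : 1 ≤ padicValNat p x.den := one_le_padicValNat_of_dvd x.den_ne_zero hpd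
    have h3 : padicValRat p x ≤ -1 := by
      rw [padicValRat, h1]
      omega
    have h4 := h p hp
    rw [padicNorm.eq_zpow_of_nonzero hx0] at h4
    have hp1 : (1 : ℚ) < p := by exact_mod_cast hp.one_lt
    have h5 : (1 : ℚ) < (p : ℚ) ^ (-padicValRat p x) := one_lt_zpow₀ hp1 (by omega)
    linarith

/-- the p-adic absolute value of a product of powers of different primes -/
theorem padicNorm_prod_pow (S : Finset ℕ) (hS : ∀ p ∈ S, p.Prime) (e : ℕ → ℕ) (p : ℕ) (hp : p.Prime) :
    padicNorm p ((∏ q ∈ S, q ^ e q : ℕ) : ℚ) = if p ∈ S then (p : ℚ) ^ (-(e p : ℤ)) else 1 := by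
  have : Fact p.Prime := ⟨hp⟩
  have hq : ∀ q ∈ S, q ≠ p → padicNorm p ((q : ℚ) ^ e q) = 1 := by
    intro q hqS hqp
    have : Fact q.Prime := ⟨hS q hqS⟩
    have h1 : padicNorm p (q : ℚ) = 1 := padicNorm.padicNorm_of_prime_of_ne (Ne.symm hqp)
    induction e q with
    | zero => simp
    | succ k ih => rw [pow_succ, padicNorm.mul, ih, h1, mul_one]
  have hpp : padicNorm p ((p : ℚ) ^ e p) = (p : ℚ) ^ (-(e p : ℤ)) := by
    have h1 : padicNorm p (p : ℚ) = (p : ℚ)⁻¹ := padicNorm.padicNorm_p_of_prime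
    have h2 : ∀ k : ℕ, padicNorm p ((p : ℚ) ^ k) = (p : ℚ) ^ (-(k : ℤ)) := by
      intro k
      induction k with
      | zero => simp
      | succ k ih =>
        rw [pow_succ, padicNorm.mul, ih, h1, ← zpow_neg_one, ← zpow_add₀ (by exact_mod_cast hp.ne_zero)]
        congr 1
        push_cast
        ring
    exact h2 _
  have hmul : ∀ T : Finset ℕ, T ⊆ S → padicNorm p ((∏ q ∈ T, q ^ e q : ℕ) : ℚ) =
      if p ∈ T then (p : ℚ) ^ (-(e p : ℤ)) else 1 := by
    intro T
    induction T using Finset.induction_on with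
    | empty => intro _; simp
    | insert q T hqT ih =>
      intro hsub
      rw [Finset.prod_insert hqT]
      push_cast
      rw [padicNorm.mul]
      have ih' := ih ((Finset.subset_insert q T).trans hsub)
      push_cast at ih'
      rw [ih']
      by_cases hqp : q = p
      · subst hqp
        rw [if_neg hqT, if_pos (Finset.mem_insert_self q T), mul_one, hpp]
      · rw [hq q (hsub (Finset.mem_insert_self q T)) hqp, one_mul]
        have : p ∈ insert q T ↔ p ∈ T := by
          rw [Finset.mem_insert]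
          exact ⟨fun h => h.resolve_left (fun h' => hqp h'.symm), Or.inr⟩
        simp only [this]
  exact hmul S subset_rfl

/-- clearing denominators -/
theorem int_of_PBound (n : ℕ) (e : ℕ → ℕ) (h : ∀ p : ℕ, p.Prime → p ≤ 40 * n + 2 → PBound n p (e p))
    (h0 : ∀ p : ℕ, p.Prime → 40 * n + 2 < p → PBound n p 0) (j : ℕ) (hj : j ≤ 2) :
    (∃ z : ℤ, ((∏ p ∈ (range (40 * n + 3)).filter Nat.Prime, p ^ e p : ℕ) : ℚ) * a n j = z) ∧
      ∃ z : ℤ, ((∏ p ∈ (range (40 * n + 3)).filter Nat.Prime, p ^ e p : ℕ) : ℚ) * b n j = z := by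
  have key : ∀ x : ℚ, (∀ p : ℕ, p.Prime → p ≤ 40 * n + 2 → padicNorm p x ≤ (p : ℚ) ^ (e p : ℤ)) →
      (∀ p : ℕ, p.Prime → 40 * n + 2 < p → padicNorm p x ≤ (p : ℚ) ^ (0 : ℤ)) →
      ∃ z : ℤ, ((∏ p ∈ (range (40 * n + 3)).filter Nat.Prime, p ^ e p : ℕ) : ℚ) * x = z := by
    intro x hx hx0
    refine int_of_padicNorm_le _ fun p hp => ?_
    have : Fact p.Prime := ⟨hp⟩
    have hp0 : (0 : ℚ) < p := by exact_mod_cast hp.pos
    rw [padicNorm.mul, padicNorm_prod_pow _ (fun q hq => (Finset.mem_filter.mp hq).2) e p hp]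
    by_cases hle : p ≤ 40 * n + 2
    · rw [if_pos (Finset.mem_filter.mpr ⟨Finset.mem_range.mpr (by omega), hp⟩)]
      calc (p : ℚ) ^ (-(e p : ℤ)) * padicNorm p x ≤ (p : ℚ) ^ (-(e p : ℤ)) * (p : ℚ) ^ (e p : ℤ) := by
            gcongr
            exact hx p hp hle
        _ = 1 := by rw [← zpow_add₀ hp0.ne', neg_add_cancel, zpow_zero]
    · push Not at hle
      rw [if_neg (fun h => absurd (Finset.mem_range.mp (Finset.mem_filter.mp h).1) (by omega)), one_mul]
      have := hx0 p hp hle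
      rwa [zpow_zero] at this
  exact ⟨key _ (fun p hp hle => (h p hp hle j hj).1) fun p hp hlt => (h0 p hp hlt j hj).1,
    key _ (fun p hp hle => (h p hp hle j hj).2) fun p hp hlt => (h0 p hp hlt j hj).2⟩

end Pool.Agent.Z3
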