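import Pool.Agent.Z3.Table
import Pool.Agent.Z3.C2Red
import Pool.Agent.Z3.Ex2
import Pool.Agent.Z3.IntAux

/-!
The bound for all primes with the weights of the second order cancellation.
-/

open Finset

namespace Pool.Agent.Z3

theorem cell_bound2 (n p : ℕ) (hn : 1 ≤ n) (hp : p.Prime) (hp2 : 40 * n + 2 < p ^ 2)
    (hg : Good n p) {c : ℕ × ℕ × ℕ × ℕ × ℕ} (hc : c ∈ cells2)
    (h1 : c.1 * p < (n % p) * c.2.1) (h2 : (n % p) * c.2.2.2.1 < c.2.2.1 * p) :
    PBound n p c.2.2.2.2 := by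
  unfold cells2 at hc
  rw [List.mem_map] at hc
  obtain ⟨d, hd, rfl⟩ := hc
  rw [low_fst, low_snd] at h1
  rw [low_trd, low_fth] at h2
  by_cases hs : isSec d = true
  · obtain ⟨N0, P0, c0, c1, c2, c3, hP, hN, hF, hw, h13, hr⟩ := sec_spec hd hs
    have hsame := sameCell_of hp.pos hP hN hF h1 h2
    have hb : 0 < d.2.1 := by
      rcases Nat.eq_zero_or_pos d.2.1 with h | h
      · rw [h, Nat.mul_zero] at h1
        omega
      · exact h
    have hp13 : p ≤ 13 * n := by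
      have h3 : n % p ≤ n := Nat.mod_le _ _
      have h4 : p * d.2.1 ≤ p * (13 * d.1) := Nat.mul_le_mul_left _ h13
      have h5 : 13 * (d.1 * p) ≤ 13 * (n % p * d.2.1) := Nat.mul_le_mul_left _ h1.le
      have h6 : n % p * d.2.1 ≤ n * d.2.1 := Nat.mul_le_mul_right _ h3
      have h7 : p * d.2.1 ≤ (13 * n) * d.2.1 := by nlinarith
      exact Nat.le_of_mul_le_mul_right h7 hb
    have h3 := red2_bound n p N0 P0 c0 c1 c2 c3 hn hp hp2 hg hsame hp13 hr
    refine PBound_mono hp.one_le ?_ h3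
    have h4 : (low d).2.2.2.2 = d.2.2.2.2 - 1 := by
      unfold low
      rw [if_pos hs]
    rw [h4]
    exact hw
  · have h3 : low d = d := by
      unfold low
      rw [if_neg hs]
    rw [h3]
    exact cell_bound n p hn hp hp2 hg hd h1 h2

theorem table_bound2 (n p : ℕ) (hn : 1 ≤ n) (hp : p.Prime) (hp2 : 40 * n + 2 < p ^ 2)
    (hg : Good n p) : PBound n p (wtab2 (n % p) p) := by
  obtain ⟨c, hc, h1, h2, h3⟩ := wtab2_eq hp.pos hg
  rw [h3]
  exact cell_bound2 n p hn hp hp2 hg hc h1 h2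

theorem ex_bound2 (n p : ℕ) (hn : 1 ≤ n) (hp : p.Prime) : PBound n p (ex2 n p) := by
  unfold ex2
  split_ifs with h1 h2 h3 h4
  · have := crude n p hn hp
    push_cast
    exact this
  · push Not at h1
    exact big3 n p hn hp h1.1 h2
  · push Not at h1
    exact big2 n p hn hp h1.1 h3
  · push Not at h1
    exact big1 n p hn hp h1.1 h4
  · push Not at h1 h4
    exact table_bound2 n p hn hp h1.1 h1.2

theorem Dn2_integral (n j : ℕ) (hn : 1 ≤ n) (hj : j ≤ 2) :
    (∃ z : ℤ, (Dn2 n : ℚ) * a n j = z) ∧ ∃ z : ℤ, (Dn2 n : ℚ) * b n j = z := by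
  refine int_of_PBound n (ex2 n) (fun p hp _ => ex_bound2 n p hn hp) (fun p hp hlt => ?_) j hj
  exact big3 n p hn hp (by nlinarith) (by omega)

end Pool.Agent.Z3
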