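import Pool.Agent.Z3.Assemble
import Pool.Agent.Z3.Form
import Pool.Agent.Z3.Nonvan
import Pool.Agent.Z3.Table2
import Pool.Agent.Z3.Sum2
import Pool.Agent.Z3.FBound2
import Pool.Agent.Z3.ABound2

/-!
The irrationality exponent of zeta(3), with the second order cancellation.
-/

open Filter Topology

namespace Pool.Agent.Z3

theorem Dn2_pos (n : ℕ) : 0 < Dn2 n := by
  unfold Dn2
  exact Finset.prod_pos fun p hp => pow_pos (Finset.mem_filter.mp hp).2.pos _

/-- **The irrationality exponent of zeta(3) is at most 5.304.** -/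
theorem zeta3_exponent2 (mu : ℝ) (hmu : 5.304 ≤ mu) :
    ∃ Q : ℕ, ∀ q : ℕ, Q ≤ q → ∀ p : ℤ, (q : ℝ) ^ (-mu) < |zeta3 - p / q| := by
  refine assemble zeta3 (fun N j => a (4 * N) j) (fun N j => b (4 * N) j) (fun N => Dn2 (4 * N))
    (fun N j => Iint (-(25 * (N : ℤ))) (G (4 * N) j)) 257.58 343.629 144.228 113.3519 487.8571 mu
    (fun N _ => Dn2_pos _) (fun N j hN hj => F_eq N j hN hj) (fun N hN l => nonvanish N hN l)
    F_bound2 a_bound2 ?_ (fun N j hN hj => Dn2_integral (4 * N) j (by omega) hj)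
    (by norm_num) (by norm_num) (by norm_num) (by norm_num) (lt_of_lt_of_le (by norm_num) hmu)
  have ht : Tendsto (fun N : ℕ => 4 * N) atTop atTop :=
    tendsto_atTop_mono (fun N => by simp only [id]; omega) tendsto_id
  filter_upwards [ht.eventually log_Dn2] with N hN
  refine hN.trans (le_of_eq ?_)
  push_cast
  ring

end Pool.Agent.Z3
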