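import Pool.Agent.Z3.Cells

/-!
The finite rational constant of the prime sum: weights of the 490 cells over the first 50 periods.
-/

open Finset

namespace Pool.Agent.Z3

/-- the cells are between consecutive Farey fractions -/
theorem cells_det : ∀ c ∈ cells, c.2.1 * c.2.2.1 = c.1 * c.2.2.2.1 + 1 := by
  decide +kernel

/-- scaled upper bound for one term -/
def fsTerm (m : ℕ) (c : ℕ × ℕ × ℕ × ℕ × ℕ) : ℕ :=
  c.2.2.2.2 * 10 ^ 12 / ((m * c.2.1 + c.1) * (m * c.2.2.2.1 + c.2.2.1)) + 1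

theorem div_le_scaled (w X : ℕ) : (w : ℝ) / X ≤ ((w * 10 ^ 12 / X + 1 : ℕ) : ℝ) / 10 ^ 12 := by
  rcases Nat.eq_zero_or_pos X with h | h
  · subst h
    simp
  · rw [div_le_div_iff₀ (by exact_mod_cast h) (by positivity)]
    have h1 : w * 10 ^ 12 < (w * 10 ^ 12 / X + 1) * X := by
      have := Nat.lt_div_mul_add (a := w * 10 ^ 12) h
      linarith [add_mul (w * 10 ^ 12 / X) 1 X]
    exact_mod_cast h1.le

theorem sum_le_scaled (m : ℕ) (l : List (ℕ × ℕ × ℕ × ℕ × ℕ)) :
    (l.map (fun c => (c.2.2.2.2 : ℝ) /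
      (((m : ℝ) * c.2.1 + c.1) * ((m : ℝ) * c.2.2.2.1 + c.2.2.1)))).sum ≤
      (((l.map (fsTerm m)).sum : ℕ) : ℝ) / 10 ^ 12 := by
  induction l with
  | nil => simp
  | cons c l ih =>
    rw [List.map_cons, List.sum_cons, List.map_cons, List.sum_cons, Nat.cast_add, add_div]
    refine add_le_add ?_ ih
    have := div_le_scaled c.2.2.2.2 ((m * c.2.1 + c.1) * (m * c.2.2.2.1 + c.2.2.1))
    push_cast at this
    unfold fsTerm
    push_cast
    exact this

theorem double_sum_le_scaled (ms : List ℕ) (l : List (ℕ × ℕ × ℕ × ℕ × ℕ)) :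
    (ms.map (fun m : ℕ => (l.map (fun c => (c.2.2.2.2 : ℝ) /
      (((m : ℝ) * c.2.1 + c.1) * ((m : ℝ) * c.2.2.2.1 + c.2.2.1)))).sum)).sum ≤
      (((ms.map (fun m : ℕ => (l.map (fsTerm m)).sum)).sum : ℕ) : ℝ) / 10 ^ 12 := by
  induction ms with
  | nil => simp
  | cons m ms ih =>
    rw [List.map_cons, List.sum_cons, List.map_cons, List.sum_cons, Nat.cast_add, add_div]
    exact add_le_add (sum_le_scaled m l) ih

theorem scaled_check : ((cells.filter (fun c => decide (c.2.1 ≤ 21 * c.1))).map (fsTerm 0)).sum +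
    ((List.range 49).map (fun m : ℕ => (cells.map (fsTerm (m + 1))).sum)).sum ≤ 30107000000000 := by
  decide +kernel

/-- the finite constant -/
theorem finite_sum :
    ((cells.filter (fun c => decide (c.2.1 ≤ 21 * c.1))).map
      (fun c => (c.2.2.2.2 : ℝ) / ((c.1 : ℝ) * c.2.2.1))).sum +
    ((List.range 49).map (fun m : ℕ => (cells.map (fun c => (c.2.2.2.2 : ℝ) /
      ((((m : ℝ) + 1) * c.2.1 + c.1) * (((m : ℝ) + 1) * c.2.2.2.1 + c.2.2.1)))).sum)).sum ≤ 30.107 := by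
  have h0 := sum_le_scaled 0 (cells.filter (fun c => decide (c.2.1 ≤ 21 * c.1)))
  simp only [Nat.cast_zero, zero_mul, zero_add] at h0
  have h1 := double_sum_le_scaled ((List.range 49).map (fun m : ℕ => m + 1)) cells
  rw [List.map_map, List.map_map] at h1
  have e1 : ((fun m : ℕ => (cells.map (fun c => (c.2.2.2.2 : ℝ) /
      (((m : ℝ) * c.2.1 + c.1) * ((m : ℝ) * c.2.2.2.1 + c.2.2.1)))).sum) ∘ fun m => m + 1) =
      (fun m : ℕ => (cells.map (fun c => (c.2.2.2.2 : ℝ) /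
      ((((m : ℝ) + 1) * c.2.1 + c.1) * (((m : ℝ) + 1) * c.2.2.2.1 + c.2.2.1)))).sum) := by
    funext m
    simp only [Function.comp_apply, Nat.cast_add, Nat.cast_one]
  have e2 : ((fun m : ℕ => (cells.map (fsTerm m)).sum) ∘ fun m => m + 1) =
      (fun m : ℕ => (cells.map (fsTerm (m + 1))).sum) := by
    funext m
    rfl
  rw [e1, e2] at h1
  have h2 : (((((cells.filter (fun c => decide (c.2.1 ≤ 21 * c.1))).map (fsTerm 0)).sum +
    ((List.range 49).map (fun m : ℕ => (cells.map (fsTerm (m + 1))).sum)).sum : ℕ)) : ℝ) ≤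
      ((30107000000000 : ℕ) : ℝ) := by
    exact_mod_cast scaled_check
  rw [Nat.cast_add] at h2
  calc _ ≤ _ := add_le_add h0 h1
    _ = (_ + _) / 10 ^ 12 := by rw [add_div]
    _ ≤ ((30107000000000 : ℕ) : ℝ) / 10 ^ 12 := by
      apply div_le_div_of_nonneg_right h2 (by positivity)
    _ ≤ 30.107 := by norm_num

end Pool.Agent.Z3
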