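import Pool.Agent.Z3.Defs

/-!
Partial fractions of the rational functions `G n j`.
-/

open Finset Polynomial

namespace Pool.Agent.Z3

namespace PFaux

theorem prod_Ico_below (a k : ℕ) : ∀ b : ℕ, a ≤ b → b ≤ k →
    ∏ i ∈ Ico a b, ((i : ℚ) - k) = (-1) ^ (b - a) * (((k - a).factorial : ℚ) / (k - b).factorial) := by
  intro b hab
  induction b, hab using Nat.le_induction with
  | base =>
    intro _
    have h : ((k - a).factorial : ℚ) ≠ 0 := by positivity
    simp [div_self h]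
  | succ b hab ih =>
    intro hbk
    rw [Finset.prod_Ico_succ_top hab, ih (by omega)]
    have h1 : k - b = (k - (b + 1)) + 1 := by omega
    have h2 : b + 1 - a = (b - a) + 1 := by omega
    have h3 : ((k - b : ℕ) : ℚ) = (k : ℚ) - b := by
      rw [Nat.cast_sub (by omega)]
    have h4 : ((k - b).factorial : ℚ) = ((k : ℚ) - b) * ((k - (b + 1)).factorial : ℚ) := by
      rw [← h3]
      conv_lhs => rw [h1, Nat.factorial_succ]
      rw [← h1]
      push_cast
      ring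
    have h5 : ((k - (b + 1)).factorial : ℚ) ≠ 0 := by positivity
    have h6 : ((k - b).factorial : ℚ) ≠ 0 := by positivity
    have h7 : ((k : ℚ) - b) ≠ 0 := by
      intro h0
      rw [h0, zero_mul] at h4
      exact h6 h4
    rw [h2, h4, pow_succ]
    field_simp
    ring

theorem prod_Ico_above (k : ℕ) : ∀ b : ℕ, k + 1 ≤ b →
    ∏ i ∈ Ico (k + 1) b, ((i : ℚ) - k) = ((b - 1 - k).factorial : ℚ) := by
  intro b hb
  induction b, hb using Nat.le_induction with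
  | base => simp
  | succ b hb ih =>
    rw [Finset.prod_Ico_succ_top hb, ih]
    have h1 : b + 1 - 1 - k = (b - 1 - k) + 1 := by omega
    rw [h1, Nat.factorial_succ]
    have h2 : ((b - 1 - k + 1 : ℕ) : ℚ) = (b : ℚ) - k := by
      have : b - 1 - k + 1 = b - k := by omega
      rw [this, Nat.cast_sub (by omega)]
    push_cast at h2 ⊢
    rw [h2]
    ring

theorem erase_eq (a b k : ℕ) (ha : a ≤ k) (hk : k < b) :
    (Ico a b).erase k = Ico a k ∪ Ico (k + 1) b := by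
  ext i
  simp only [Finset.mem_erase, Finset.mem_Ico, Finset.mem_union]
  omega

theorem prod_erase (a b k : ℕ) (ha : a ≤ k) (hk : k < b) :
    ∏ i ∈ (Ico a b).erase k, ((i : ℚ) - k) =
      (-1) ^ (k - a) * ((k - a).factorial : ℚ) * ((b - 1 - k).factorial : ℚ) := by
  rw [erase_eq a b k ha hk, Finset.prod_union, prod_Ico_below a k k ha le_rfl,
    prod_Ico_above k b hk]
  · simp
  · rw [Finset.disjoint_left]
    intro i hi
    simp only [Finset.mem_Ico] at hi ⊢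
    omega

end PFaux

open PFaux

theorem A0_eq (n k : ℕ) (hn : 1 ≤ n) (hk : k ∈ K2 n) :
    A0 n k = kap n * num n (-(k : ℚ)) /
      ((∏ i ∈ (K1 n).erase k, ((i : ℚ) - k)) * ∏ i ∈ (K2 n).erase k, ((i : ℚ) - k)) := by
  have hk' := hk
  simp only [K2, Finset.mem_Ico] at hk'
  obtain ⟨h1, h2⟩ := hk'
  have e1 : ∏ i ∈ N1 n, (-(k : ℚ) + i) =
      (-1) ^ (17 * n) * ((k.factorial : ℚ) / (k - 17 * n).factorial) := by
    have := prod_Ico_below 0 k (17 * n) (by omega) (by omega)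
    simp only [Nat.sub_zero] at this
    rw [← this]
    apply Finset.prod_congr rfl
    intros
    ring
  have e2 : ∏ i ∈ N2 n, (-(k : ℚ) + i) =
      (-1) ^ (13 * n) * (((k - 2 * n).factorial : ℚ) / (k - 15 * n).factorial) := by
    have := prod_Ico_below (2 * n) k (15 * n) (by omega) (by omega)
    rw [show 15 * n - 2 * n = 13 * n by omega] at this
    rw [← this]
    apply Finset.prod_congr rfl
    intros
    ring
  have e3 : ∏ i ∈ N3 n, (-(k : ℚ) + i) =
      (-1) ^ (9 * n) * (((k - 4 * n).factorial : ℚ) / (k - 13 * n).factorial) := by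
    have := prod_Ico_below (4 * n) k (13 * n) (by omega) (by omega)
    rw [show 13 * n - 4 * n = 9 * n by omega] at this
    rw [← this]
    apply Finset.prod_congr rfl
    intros
    ring
  have e4 := prod_erase (19 * n) (40 * n + 2) k (by omega) (by omega)
  have e5 := prod_erase (20 * n) (38 * n + 2) k (by omega) (by omega)
  rw [show 40 * n + 2 - 1 - k = 40 * n + 1 - k by omega] at e4
  rw [show 38 * n + 2 - 1 - k = 38 * n + 1 - k by omega] at e5
  rw [A0, if_pos hk, kap, num, e1, e2, e3, K1, K2, e4, e5,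
    Nat.cast_choose ℚ (show 17 * n ≤ k by omega),
    Nat.cast_choose ℚ (show 13 * n ≤ k - 2 * n by omega),
    Nat.cast_choose ℚ (show 9 * n ≤ k - 4 * n by omega),
    Nat.cast_choose ℚ (show k - 19 * n ≤ 21 * n + 1 by omega),
    Nat.cast_choose ℚ (show k - 20 * n ≤ 18 * n + 1 by omega),
    show k - 2 * n - 13 * n = k - 15 * n by omega,
    show k - 4 * n - 9 * n = k - 13 * n by omega,
    show 21 * n + 1 - (k - 19 * n) = 40 * n + 1 - k by omega,
    show 18 * n + 1 - (k - 20 * n) = 38 * n + 1 - k by omega]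
  have hs : ((-1 : ℚ)) ^ (17 * n) * (-1) ^ (13 * n) * (-1) ^ (9 * n) =
      (-1) ^ (k - 19 * n) * (-1) ^ (k - 20 * n) := by
    rw [← pow_add, ← pow_add, ← pow_add]
    have : k - 19 * n + (k - 20 * n) + 2 * (39 * n) = 17 * n + 13 * n + 9 * n + 2 * k := by omega
    have h3 : ((-1 : ℚ)) ^ (k - 19 * n + (k - 20 * n) + 2 * (39 * n)) =
        (-1) ^ (17 * n + 13 * n + 9 * n + 2 * k) := by rw [this]
    rw [pow_add _ (k - 19 * n + (k - 20 * n)), pow_add _ (17 * n + 13 * n + 9 * n), pow_mul,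
      pow_mul] at h3
    simpa using h3.symm
  have p1 : ((-1 : ℚ)) ^ (k - 19 * n) ≠ 0 := pow_ne_zero _ (by norm_num)
  have p2 : ((-1 : ℚ)) ^ (k - 20 * n) ≠ 0 := pow_ne_zero _ (by norm_num)
  have hgen : ∀ (s1 s2 s3 s4 s5 f21 f18 f17 f13 f9 fk fk17 fk2 fk15 fk4 fk13 fk19 fk40 fk20 fk38 : ℚ),
      s1 * s2 * s3 = s4 * s5 → s4 ≠ 0 → s5 ≠ 0 → f17 ≠ 0 → f13 ≠ 0 → f9 ≠ 0 → fk17 ≠ 0 →
      fk15 ≠ 0 → fk13 ≠ 0 → fk19 ≠ 0 → fk40 ≠ 0 → fk20 ≠ 0 → fk38 ≠ 0 →
      fk / (f17 * fk17) * (fk2 / (f13 * fk15)) * (fk4 / (f9 * fk13)) * (f21 / (fk19 * fk40)) *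
        (f18 / (fk20 * fk38)) =
      f21 * f18 / (f17 * f13 * f9) * ((s1 * (fk / fk17)) * (s2 * (fk2 / fk15)) * (s3 * (fk4 / fk13))) /
        ((s4 * fk19 * fk40) * (s5 * fk20 * fk38)) := by
    intro s1 s2 s3 s4 s5 f21 f18 f17 f13 f9 fk fk17 fk2 fk15 fk4 fk13 fk19 fk40 fk20 fk38
      h h4 h5 a1 a2 a3 a4 a5 a6 a7 a8 a9 a10
    field_simp
    linear_combination (-(fk * fk2 * fk4 * f21 * f18)) * h
  exact hgen _ _ _ _ _ _ _ _ _ _ _ _ _ _ _ _ _ _ _ _ hs p1 p2 (by positivity) (by positivity)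
    (by positivity) (by positivity) (by positivity) (by positivity) (by positivity) (by positivity)
    (by positivity) (by positivity)

namespace PFaux

/-- value and logarithmic derivative of a polynomial at a point -/
structure LD (P : ℚ[X]) (x v l : ℚ) : Prop where
  val : P.eval x = v
  der : P.derivative.eval x = v * l

theorem LD.mul {P Q : ℚ[X]} {x v l v' l' : ℚ} (h : LD P x v l) (h' : LD Q x v' l') :
    LD (P * Q) x (v * v') (l + l') := by
  refine ⟨by rw [eval_mul, h.val, h'.val], ?_⟩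
  rw [derivative_mul, eval_add, eval_mul, eval_mul, h.val, h'.val, h.der, h'.der]
  ring

theorem LD.const (c x : ℚ) : LD (C c) x c 0 := ⟨by simp, by simp⟩

theorem LD.Xpow (j : ℕ) (x : ℚ) (hx : x ≠ 0) : LD (X ^ j) x (x ^ j) ((j : ℚ) / x) := by
  refine ⟨by simp, ?_⟩
  cases j with
  | zero => simp
  | succ j =>
    simp only [derivative_X_pow, Nat.add_sub_cancel, eval_mul, eval_C, eval_pow, eval_X]
    push_cast
    field_simp
    ring

theorem LD.lin (x c : ℚ) (h : x + c ≠ 0) : LD (X + C c) x (x + c) (1 / (x + c)) := by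
  refine ⟨by simp, ?_⟩
  simp only [derivative_add, derivative_X, derivative_C, add_zero, eval_one]
  field_simp

theorem LD.prodLin (S : Finset ℕ) (x : ℚ) (h : ∀ i ∈ S, x + (i : ℚ) ≠ 0) :
    LD (∏ i ∈ S, (X + C (i : ℚ))) x (∏ i ∈ S, (x + (i : ℚ))) (∑ i ∈ S, 1 / (x + (i : ℚ))) := by
  classical
  induction S using Finset.induction_on with
  | empty => exact ⟨by simp, by simp⟩
  | insert a S ha ih =>
    rw [Finset.prod_insert ha, Finset.prod_insert ha, Finset.sum_insert ha]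
    exact (LD.lin x a (h a (Finset.mem_insert_self _ _))).mul
      (ih fun i hi => h i (Finset.mem_insert_of_mem hi))

theorem sq_dvd (D : ℚ[X]) (x : ℚ) (h0 : D.eval x = 0) (h1 : D.derivative.eval x = 0) :
    (X - C x) ^ 2 ∣ D := by
  obtain ⟨Q, rfl⟩ := dvd_iff_isRoot.2 h0
  have h2 : Q.eval x = 0 := by
    rw [derivative_mul, eval_add, eval_mul, eval_mul] at h1
    simpa using h1
  obtain ⟨R, rfl⟩ := dvd_iff_isRoot.2 h2
  exact ⟨R, by ring⟩

theorem key_double {P E : ℚ[X]} {x c a b vP lP vE lE : ℚ} (hP : LD P x vP lP) (hE : LD E x vE lE)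
    (hx : x = -c) (h1 : a * vE = vP) (h2 : b * vE + a * vE * lE = vP * lP) :
    (X + C c) ^ 2 ∣ P - (C a + C b * (X + C c)) * E := by
  subst hx
  have key : (X - C (-c)) ^ 2 ∣ P - (C a + C b * (X + C c)) * E := by
    apply sq_dvd
    · rw [eval_sub, hP.val, eval_mul, hE.val]
      simp only [eval_add, eval_mul, eval_C, eval_X, neg_add_cancel, mul_zero, add_zero]
      rw [h1, sub_self]
    · rw [derivative_sub, eval_sub, hP.der, derivative_mul, eval_add, eval_mul, eval_mul, hE.val,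
        hE.der]
      simp only [derivative_add, derivative_mul, derivative_X, derivative_C, eval_add, eval_mul,
        eval_C, eval_X, neg_add_cancel, mul_zero, add_zero, zero_mul, zero_add, mul_one]
      rw [← h2]
      ring
  simpa using key

theorem key_simple {Q E : ℚ[X]} {x c b vQ lQ vE lE : ℚ} (hQ : LD Q x vQ lQ) (hE : LD E x vE lE)
    (hx : x = -c) (h1 : b * vE = vQ) :
    (X + C c) ^ 2 ∣ (X + C c) * Q - (C 0 + C b * (X + C c)) * E := by
  have h : (X + C c) * Q - (C 0 + C b * (X + C c)) * E = (X + C c) * (Q - C b * E) := by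
    rw [C_0]
    ring
  rw [h, pow_two]
  apply mul_dvd_mul_left
  have h2 : X + C c = X - C x := by rw [hx]; simp
  rw [h2, dvd_iff_isRoot, IsRoot, eval_sub, hQ.val, eval_mul, hE.val, eval_C, h1, sub_self]

/-- linear factors -/
noncomputable def LX (S : Finset ℕ) : ℚ[X] := ∏ i ∈ S, (X + C (i : ℚ))

theorem monic_LX (S : Finset ℕ) : (LX S).Monic := monic_prod_of_monic _ _ fun _ _ => monic_X_add_C _

theorem natDegree_LX (S : Finset ℕ) : (LX S).natDegree = S.card := by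
  rw [LX, natDegree_prod_of_monic _ _ fun _ _ => monic_X_add_C _,
    Finset.sum_congr rfl fun i _ => natDegree_X_add_C _]
  simp

theorem eval_LX {F : Type*} [Field F] [CharZero F] (S : Finset ℕ) (t : F) :
    (LX S).eval₂ (Rat.castHom F) t = ∏ i ∈ S, (t + (i : F)) := by
  rw [LX, eval₂_finsetProd]
  apply Finset.prod_congr rfl
  intro i _
  simp

/-- the numerator over the full square of the linear factors -/
noncomputable def PX (n j : ℕ) : ℚ[X] :=
  C (kap n) * X ^ j * (LX (N1 n) * LX (N2 n) * LX (N3 n)) * LX (K1 n \ K2 n)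

noncomputable def EX (n k : ℕ) : ℚ[X] := LX ((K1 n).erase k) * LX ((K1 n).erase k)

noncomputable def TX (n j k : ℕ) : ℚ[X] := (C (A n j k) + C (B n j k) * (X + C (k : ℚ))) * EX n k

theorem K2_sub (n : ℕ) : K2 n ⊆ K1 n := by
  intro i
  simp only [K1, K2, Finset.mem_Ico]
  omega

theorem LX_split (S T : Finset ℕ) (h : T ⊆ S) : LX S = LX (S \ T) * LX T := by
  rw [LX, LX, LX, Finset.prod_sdiff h]

theorem LX_erase (S : Finset ℕ) (k : ℕ) (h : k ∈ S) : LX S = (X + C (k : ℚ)) * LX (S.erase k) := by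
  rw [LX, LX, Finset.mul_prod_erase S (fun i => (X + C (i : ℚ))) h]

theorem mem_K1_pos (n k : ℕ) (hn : 1 ≤ n) (hk : k ∈ K1 n) : 0 < k := by
  simp only [K1, Finset.mem_Ico] at hk
  omega

theorem ne_of_below (S : Finset ℕ) (k : ℕ) (h : k ∉ S) : ∀ i ∈ S, -(k : ℚ) + (i : ℚ) ≠ 0 := by
  intro i hi h0
  have h1 : (i : ℚ) = k := by linarith
  have h2 : i = k := by exact_mod_cast h1
  exact h (h2 ▸ hi)

theorem prod_comm' (S : Finset ℕ) (k : ℕ) :
    ∏ i ∈ S, (-(k : ℚ) + (i : ℚ)) = ∏ i ∈ S, ((i : ℚ) - k) :=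
  Finset.prod_congr rfl fun _ _ => by ring

theorem sum_comm' (S : Finset ℕ) (k : ℕ) :
    ∑ i ∈ S, 1 / (-(k : ℚ) + (i : ℚ)) = ∑ i ∈ S, 1 / ((i : ℚ) - k) :=
  Finset.sum_congr rfl fun _ _ => by rw [neg_add_eq_sub]

theorem LD_LX (S : Finset ℕ) (k : ℕ) (h : k ∉ S) :
    LD (LX S) (-(k : ℚ)) (∏ i ∈ S, ((i : ℚ) - k)) (∑ i ∈ S, 1 / ((i : ℚ) - k)) := by
  have := LD.prodLin S (-(k : ℚ)) (ne_of_below S k h)
  rwa [prod_comm', sum_comm'] at this

theorem prod_ne (S : Finset ℕ) (k : ℕ) (h : k ∉ S) : ∏ i ∈ S, ((i : ℚ) - k) ≠ 0 := by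
  rw [← prod_comm']
  exact Finset.prod_ne_zero_iff.2 (ne_of_below S k h)

theorem not_mem_N (n k : ℕ) (hk : k ∈ K1 n) : k ∉ N1 n ∧ k ∉ N2 n ∧ k ∉ N3 n := by
  simp only [K1, N1, N2, N3, Finset.mem_Ico] at *
  omega

theorem num_eq (n k : ℕ) : num n (-(k : ℚ)) =
    (∏ i ∈ N1 n, ((i : ℚ) - k)) * (∏ i ∈ N2 n, ((i : ℚ) - k)) * ∏ i ∈ N3 n, ((i : ℚ) - k) := by
  rw [num, prod_comm', prod_comm', prod_comm']

theorem local_double (n j k : ℕ) (hn : 1 ≤ n) (hk : k ∈ K2 n) :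
    (X + C (k : ℚ)) ^ 2 ∣ PX n j - TX n j k := by
  have hk1 := K2_sub n hk
  obtain ⟨m1, m2, m3⟩ := not_mem_N n k hk1
  have m4 : k ∉ K1 n \ K2 n := by simp [hk]
  have m5 : k ∉ (K1 n).erase k := by simp
  have m6 : k ∉ (K2 n).erase k := by simp
  have hk0 : -(k : ℚ) ≠ 0 := by
    have := mem_K1_pos n k hn hk1
    have : (0 : ℚ) < k := by exact_mod_cast this
    linarith
  have hP := (((LD.const (kap n) (-(k : ℚ))).mul (LD.Xpow j (-(k : ℚ)) hk0)).mul
    (((LD_LX _ k m1).mul (LD_LX _ k m2)).mul (LD_LX _ k m3))).mul (LD_LX _ k m4)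
  have hE := (LD_LX _ k m5).mul (LD_LX _ k m5)
  have hsplit : (K1 n \ K2 n) ∪ (K2 n).erase k = (K1 n).erase k := by
    ext i
    simp only [Finset.mem_union, Finset.mem_sdiff, Finset.mem_erase]
    constructor
    · rintro (⟨h1, h2⟩ | ⟨h1, h2⟩)
      · exact ⟨fun h => h2 (h ▸ hk), h1⟩
      · exact ⟨h1, K2_sub n h2⟩
    · rintro ⟨h1, h2⟩
      by_cases h3 : i ∈ K2 n
      · exact Or.inr ⟨h1, h3⟩
      · exact Or.inl ⟨h2, h3⟩
  have hdis : Disjoint (K1 n \ K2 n) ((K2 n).erase k) := by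
    rw [Finset.disjoint_left]
    intro i hi hi'
    exact (Finset.mem_sdiff.1 hi).2 (Finset.mem_of_mem_erase hi')
  have hprod : ∏ i ∈ (K1 n).erase k, ((i : ℚ) - k) =
      (∏ i ∈ K1 n \ K2 n, ((i : ℚ) - k)) * ∏ i ∈ (K2 n).erase k, ((i : ℚ) - k) := by
    rw [← Finset.prod_union hdis, hsplit]
  have hsum : ∑ i ∈ (K1 n).erase k, 1 / ((i : ℚ) - k) =
      (∑ i ∈ K1 n \ K2 n, 1 / ((i : ℚ) - k)) + ∑ i ∈ (K2 n).erase k, 1 / ((i : ℚ) - k) := by
    rw [← Finset.sum_union hdis, hsplit]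
  have q1 := prod_ne _ k m4
  have q2 := prod_ne _ k m6
  have hA : A n j k * ((∏ i ∈ (K1 n).erase k, ((i : ℚ) - k)) * ∏ i ∈ (K1 n).erase k, ((i : ℚ) - k)) =
      kap n * (-(k : ℚ)) ^ j * ((∏ i ∈ N1 n, ((i : ℚ) - k)) * (∏ i ∈ N2 n, ((i : ℚ) - k)) *
        ∏ i ∈ N3 n, ((i : ℚ) - k)) * ∏ i ∈ K1 n \ K2 n, ((i : ℚ) - k) := by
    rw [A, A0_eq n k hn hk, num_eq, hprod]
    field_simp
  have hk1' : (k : ℚ) ≠ 0 := fun h => hk0 (by rw [h, neg_zero])
  have hB : B n j k = A n j k * ((j : ℚ) / (-(k : ℚ)) + L0 n k) := by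
    rw [B, A, B0, if_pos hk]
    cases j with
    | zero => simp
    | succ j =>
      simp only [Nat.add_sub_cancel]
      rw [pow_succ]
      field_simp
      ring
  refine key_double hP hE rfl hA ?_
  rw [← hA, hB, L0, hsum]
  ring

theorem local_simple (n j k : ℕ) (hn : 1 ≤ n) (hk1 : k ∈ K1 n) (hk : k ∉ K2 n) :
    (X + C (k : ℚ)) ^ 2 ∣ PX n j - TX n j k := by
  obtain ⟨m1, m2, m3⟩ := not_mem_N n k hk1
  have m5 : k ∉ (K1 n).erase k := by simp
  have m7 : k ∉ (K1 n \ K2 n).erase k := by simp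
  have hk0 : -(k : ℚ) ≠ 0 := by
    have := mem_K1_pos n k hn hk1
    have : (0 : ℚ) < k := by exact_mod_cast this
    linarith
  have hP := (((LD.const (kap n) (-(k : ℚ))).mul (LD.Xpow j (-(k : ℚ)) hk0)).mul
    (((LD_LX _ k m1).mul (LD_LX _ k m2)).mul (LD_LX _ k m3))).mul (LD_LX _ k m7)
  have hE := (LD_LX _ k m5).mul (LD_LX _ k m5)
  have hmem : k ∈ K1 n \ K2 n := Finset.mem_sdiff.2 ⟨hk1, hk⟩
  have hA : A n j k = 0 := by rw [A, A0, if_neg hk, mul_zero]
  have hB0 : B n j k = (-(k : ℚ)) ^ j * (kap n * num n (-(k : ℚ)) /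
      ((∏ i ∈ (K1 n).erase k, ((i : ℚ) - k)) * ∏ i ∈ K2 n, ((i : ℚ) - k))) := by
    rw [B, B0, if_neg hk, if_pos hk1, A0, if_neg hk, mul_zero, add_zero]
  have hsplit : (K1 n \ K2 n).erase k ∪ K2 n = (K1 n).erase k := by
    ext i
    simp only [Finset.mem_union, Finset.mem_sdiff, Finset.mem_erase]
    constructor
    · rintro (⟨h1, h2, h3⟩ | h2)
      · exact ⟨h1, h2⟩
      · exact ⟨fun h => hk (h ▸ h2), K2_sub n h2⟩
    · rintro ⟨h1, h2⟩
      by_cases h3 : i ∈ K2 n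
      · exact Or.inr h3
      · exact Or.inl ⟨h1, h2, h3⟩
  have hdis : Disjoint ((K1 n \ K2 n).erase k) (K2 n) := by
    rw [Finset.disjoint_left]
    intro i hi hi'
    exact (Finset.mem_sdiff.1 (Finset.mem_of_mem_erase hi)).2 hi'
  have hprod : ∏ i ∈ (K1 n).erase k, ((i : ℚ) - k) =
      (∏ i ∈ (K1 n \ K2 n).erase k, ((i : ℚ) - k)) * ∏ i ∈ K2 n, ((i : ℚ) - k) := by
    rw [← Finset.prod_union hdis, hsplit]
  have q1 := prod_ne _ k m7
  have q2 := prod_ne _ k hk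
  have hB : B n j k * ((∏ i ∈ (K1 n).erase k, ((i : ℚ) - k)) * ∏ i ∈ (K1 n).erase k, ((i : ℚ) - k)) =
      kap n * (-(k : ℚ)) ^ j * ((∏ i ∈ N1 n, ((i : ℚ) - k)) * (∏ i ∈ N2 n, ((i : ℚ) - k)) *
        ∏ i ∈ N3 n, ((i : ℚ) - k)) * ∏ i ∈ (K1 n \ K2 n).erase k, ((i : ℚ) - k) := by
    rw [hB0, num_eq, hprod]
    field_simp
  have hPX : PX n j = (X + C (k : ℚ)) * (C (kap n) * X ^ j * (LX (N1 n) * LX (N2 n) * LX (N3 n)) *
      LX ((K1 n \ K2 n).erase k)) := by
    rw [PX, LX_erase (K1 n \ K2 n) k hmem]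
    ring
  rw [hPX, TX, hA]
  exact key_simple hP hE rfl hB

theorem EX_dvd (n k k' : ℕ) (hk : k ∈ K1 n) (h : k ≠ k') : (X + C (k : ℚ)) ^ 2 ∣ EX n k' := by
  have h1 : k ∈ (K1 n).erase k' := Finset.mem_erase.2 ⟨h, hk⟩
  rw [EX, LX_erase _ k h1]
  exact ⟨LX (((K1 n).erase k').erase k) ^ 2, by ring⟩

/-- the difference of the two sides -/
noncomputable def DX (n j : ℕ) : ℚ[X] := PX n j - ∑ k ∈ K1 n, TX n j k

theorem DX_local (n j k : ℕ) (hn : 1 ≤ n) (hk : k ∈ K1 n) : (X + C (k : ℚ)) ^ 2 ∣ DX n j := by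
  rw [DX, ← Finset.add_sum_erase _ _ hk, ← sub_sub]
  apply dvd_sub
  · by_cases h : k ∈ K2 n
    · exact local_double n j k hn h
    · exact local_simple n j k hn hk h
  · apply Finset.dvd_sum
    intro k' hk'
    exact Dvd.dvd.mul_left (EX_dvd n k k' hk (Finset.ne_of_mem_erase hk').symm) _

theorem DX_dvd (n j : ℕ) (hn : 1 ≤ n) : LX (K1 n) ^ 2 ∣ DX n j := by
  rw [LX, ← Finset.prod_pow]
  apply Finset.prod_dvd_of_coprime
  · intro i _ i' _ hii
    apply IsCoprime.pow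
    have hne : (i : ℚ) - i' ≠ 0 := by
      intro h
      exact hii (by exact_mod_cast (sub_eq_zero.1 h))
    refine ⟨C (((i : ℚ) - i')⁻¹), -C (((i : ℚ) - i')⁻¹), ?_⟩
    have : C (((i : ℚ) - i')⁻¹) * (X + C (i : ℚ)) + -C (((i : ℚ) - i')⁻¹) * (X + C (i' : ℚ)) =
        C (((i : ℚ) - i')⁻¹ * ((i : ℚ) - i')) := by
      rw [C_mul, C_sub]
      ring
    rw [this, inv_mul_cancel₀ hne, C_1]
  · intro k hk
    exact DX_local n j k hn hk

theorem card_K1 (n : ℕ) : (K1 n).card = 21 * n + 2 := by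
  rw [K1, Nat.card_Ico]
  omega

theorem card_K1_K2 (n : ℕ) : (K1 n \ K2 n).card = 3 * n := by
  rw [Finset.card_sdiff_of_subset (K2_sub n), K1, K2, Nat.card_Ico, Nat.card_Ico]
  omega

theorem kap_ne (n : ℕ) : kap n ≠ 0 := by
  rw [kap]
  positivity

/-- the monic numerator -/
noncomputable def QX (n j : ℕ) : ℚ[X] := X ^ j * (LX (N1 n) * LX (N2 n) * LX (N3 n)) * LX (K1 n \ K2 n)

theorem monic_QX (n j : ℕ) : (QX n j).Monic :=
  ((monic_X_pow j).mul (((monic_LX _).mul (monic_LX _)).mul (monic_LX _))).mul (monic_LX _)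

theorem natDegree_QX (n j : ℕ) : (QX n j).natDegree = 42 * n + j := by
  rw [QX, ((monic_X_pow j).mul (((monic_LX _).mul (monic_LX _)).mul (monic_LX _))).natDegree_mul
    (monic_LX _), (monic_X_pow j).natDegree_mul (((monic_LX _).mul (monic_LX _)).mul (monic_LX _)),
    ((monic_LX _).mul (monic_LX _)).natDegree_mul (monic_LX _), (monic_LX _).natDegree_mul
    (monic_LX _), natDegree_LX, natDegree_LX, natDegree_LX, natDegree_LX, card_K1_K2,
    natDegree_X_pow, N1, N2, N3, Nat.card_Ico, Nat.card_Ico, Nat.card_Ico]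
  omega

theorem PX_eq (n j : ℕ) : PX n j = C (kap n) * QX n j := by
  rw [PX, QX]
  ring

theorem monic_EX (n k : ℕ) : (EX n k).Monic := (monic_LX _).mul (monic_LX _)

theorem natDegree_EX (n k : ℕ) (hk : k ∈ K1 n) : (EX n k).natDegree = 42 * n + 2 := by
  rw [EX, (monic_LX _).natDegree_mul (monic_LX _), natDegree_LX, Finset.card_erase_of_mem hk,
    card_K1]
  omega

theorem degree_TX (n j k : ℕ) (hk : k ∈ K1 n) : (TX n j k).natDegree ≤ 42 * n + 3 := by
  rw [TX]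
  refine natDegree_mul_le.trans ?_
  rw [natDegree_EX n k hk]
  have : (C (A n j k) + C (B n j k) * (X + C (k : ℚ))).natDegree ≤ 1 := by
    compute_degree
  omega

theorem coeff_TX (n j k : ℕ) (hk : k ∈ K1 n) : (TX n j k).coeff (42 * n + 3) = B n j k := by
  have h : TX n j k = C (B n j k) * (EX n k * X) + C (A n j k + B n j k * k) * EX n k := by
    rw [TX]
    simp only [C_add, C_mul]
    ring
  have h1 : (EX n k).coeff (42 * n + 2) = 1 := by
    rw [← natDegree_EX n k hk]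
    exact monic_EX n k
  have h2 : (EX n k).coeff (42 * n + 3) = 0 := by
    apply coeff_eq_zero_of_natDegree_lt
    rw [natDegree_EX n k hk]
    omega
  rw [h, coeff_add, coeff_C_mul, coeff_C_mul, h2, mul_zero, add_zero,
    show 42 * n + 3 = (42 * n + 2) + 1 by omega, coeff_mul_X, h1, mul_one]

theorem DX_zero (n j : ℕ) (hn : 1 ≤ n) (hj : j ≤ 3) : DX n j = 0 := by
  by_contra h
  have h1 := natDegree_le_of_dvd (DX_dvd n j hn) h
  rw [(monic_LX _).natDegree_pow, natDegree_LX, card_K1] at h1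
  have h2 : (DX n j).natDegree ≤ 42 * n + 3 := by
    rw [DX]
    refine (natDegree_sub_le _ _).trans (max_le ?_ ?_)
    · rw [PX_eq]
      refine (natDegree_C_mul_le _ _).trans ?_
      rw [natDegree_QX]
      omega
    · exact natDegree_sum_le_of_forall_le _ _ fun k hk => degree_TX n j k hk
  omega

theorem PX_sum (n j : ℕ) (hn : 1 ≤ n) (hj : j ≤ 3) : PX n j = ∑ k ∈ K1 n, TX n j k :=
  sub_eq_zero.1 (DX_zero n j hn hj)

theorem sum_B_eq (n j : ℕ) (hn : 1 ≤ n) (hj : j ≤ 3) :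
    ∑ k ∈ K1 n, B n j k = kap n * (QX n j).coeff (42 * n + 3) := by
  have h := congrArg (fun P : ℚ[X] => P.coeff (42 * n + 3)) (PX_sum n j hn hj)
  simp only [PX_eq, coeff_C_mul, finsetSum_coeff] at h
  rw [h]
  exact Finset.sum_congr rfl fun k hk => (coeff_TX n j k hk).symm

end PFaux

theorem partial_fraction {F : Type*} [Field F] [CharZero F] (n j : ℕ) (hn : 1 ≤ n) (hj : j ≤ 3) (t : F)
    (ht : ∀ k ∈ K1 n, t + (k : F) ≠ 0) :
    G n j t = ∑ k ∈ K1 n, ((A n j k : F) / (t + (k : F)) ^ 2 + (B n j k : F) / (t + (k : F))) := by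
  have h := congrArg (fun P : ℚ[X] => P.eval₂ (Rat.castHom F) t) (PX_sum n j hn hj)
  simp only [PX, TX, EX, eval₂_mul, eval_LX, eval₂_finsetSum, eval₂_add, eval₂_C, eval₂_X,
    eval₂_pow] at h
  simp only [Rat.coe_castHom, Rat.cast_natCast] at h
  have hE : ∏ i ∈ K1 n, (t + (i : F)) ≠ 0 := Finset.prod_ne_zero_iff.2 ht
  have hsplit : ∏ i ∈ K1 n, (t + (i : F)) =
      (∏ i ∈ K1 n \ K2 n, (t + (i : F))) * ∏ i ∈ K2 n, (t + (i : F)) :=
    (Finset.prod_sdiff (K2_sub n)).symm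
  have hE1 : ∏ i ∈ K1 n \ K2 n, (t + (i : F)) ≠ 0 := fun h0 => hE (by rw [hsplit, h0, zero_mul])
  have hE2 : ∏ i ∈ K2 n, (t + (i : F)) ≠ 0 := fun h0 => hE (by rw [hsplit, h0, mul_zero])
  have hG : G n j t = ((kap n : F) * t ^ j * num n t * ∏ i ∈ K1 n \ K2 n, (t + (i : F))) /
      (∏ i ∈ K1 n, (t + (i : F))) ^ 2 := by
    rw [G, den, hsplit]
    field_simp
  rw [hG, num, h, Finset.sum_div]
  apply Finset.sum_congr rfl
  intro k hk
  have hk0 := ht k hk
  have hkE : ∏ i ∈ (K1 n).erase k, (t + (i : F)) ≠ 0 :=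
    Finset.prod_ne_zero_iff.2 fun i hi => ht i (Finset.mem_of_mem_erase hi)
  rw [← Finset.mul_prod_erase (K1 n) (fun i => (t + (i : F))) hk]
  field_simp

theorem sum_B (n j : ℕ) (hn : 1 ≤ n) (hj : j ≤ 2) : ∑ k ∈ K1 n, B n j k = 0 := by
  rw [sum_B_eq n j hn (by omega), coeff_eq_zero_of_natDegree_lt, mul_zero]
  rw [natDegree_QX]
  omega

theorem sum_B3 (n : ℕ) (hn : 1 ≤ n) : ∑ k ∈ K1 n, B n 3 k = kap n := by
  have h : (QX n 3).coeff (42 * n + 3) = 1 := by
    rw [← natDegree_QX n 3]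
    exact monic_QX n 3
  rw [sum_B_eq n 3 hn le_rfl, h, mul_one]

end Pool.Agent.Z3
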